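import Pool.Agent.Mg.Fe62289.G7c39dc

section

open Set Filter Topology Complex MeasureTheory Metric
open scoped Manifold ContDiff ComplexConjugate NNReal ENNReal

namespace Pool.Agent.MP_e62289_ag

/-- the parameter space -/
abbrev P2 : Type := Fin 2 → ℂ

namespace Flat

variable {n : ℕ} (S : Flat n)

/-- the compactification of a flat surface by one point for each end -/
structure Cpt where
  M : Type
  [top : TopologicalSpace M]
  [t2 : T2Space M]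
  [cs : CompactSpace M]
  [cn : ConnectedSpace M]
  j : S.Y → M
  j_emb : IsOpenEmbedding j
  pt : Fin n → M
  pt_inj : Function.Injective pt
  ne : ∀ q i, j q ≠ pt i
  cover : ∀ m, (∃ q, j q = m) ∨ ∃ i, pt i = m
  e : Fin n → OpenPartialHomeomorph M ℂ
  e_source : ∀ i, (e i).source = j '' (S.e i).source ∪ {pt i}
  e_target : ∀ i, (e i).target = ball 0 1
  e_j : ∀ i, ∀ q ∈ (S.e i).source, e i (j q) = S.e i q
  e_pt : ∀ i, e i (pt i) = 0

attribute [instance] Cpt.top Cpt.t2 Cpt.cs Cpt.cn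

/-- a family of closed forms `(g₀ + t₁ g₁) θ + d K t` -/
structure Defo (a : Fin n → ℕ) (D : TopologicalSpace.Opens P2) where
  g₀ : S.Y → ℂ
  g₁ : S.Y → ℂ
  hol₀ : Hol g₀
  hol₁ : Hol g₁
  K : P2 → S.Y → ℂ
  smooth : ContMDiff (𝓘(ℝ, P2).prod 𝓘(ℝ, ℂ)) 𝓘(ℝ, ℂ) 2 fun p : P2 × S.Y => K p.1 p.2
  holK : ∀ q, Differentiable ℂ fun t => K t q
  pos : ∀ t ∈ D, ∀ q, ‖d2 (K t) q‖ < ‖g₀ q + t 1 * g₁ q + d1 (K t) q‖
  r : ℝ
  r_pos : 0 < r
  r_le : r ≤ 1
  Φ : Fin n → ℂ × P2 → ℂ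
  holΦ : ∀ i, DifferentiableOn ℂ (Φ i) (ball 0 r ×ˢ (D : Set P2))
  endK : ∀ i, ∀ t ∈ D, ∀ q ∈ S.End i r, d2 (K t) q = 0 ∧
    g₀ q + t 1 * g₁ q + d1 (K t) q = Φ i (S.e i q, t) * d1 (S.e i) q
  ord : ∀ i, ∀ t ∈ D, analyticOrderAt (fun z => Φ i (z, t)) 0 = ((a i - 1 : ℕ) : ℕ∞)

variable {S} in
/-- the Beltrami coefficient of the deformation -/
noncomputable def Defo.mu {a : Fin n → ℕ} {D : TopologicalSpace.Opens P2} (δ : S.Defo a D)
    (t : P2) (q : S.Y) : ℂ :=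
  d2 (δ.K t) q / (δ.g₀ q + t 1 * δ.g₁ q + d1 (δ.K t) q)

end Flat

/-- the vanishing orders plus one -/
def aa : Fin 8 → ℕ := ![2, 2, 2, 2, 1, 1, 1, 1]

/-- the polynomial of the hyperelliptic curve -/
noncomputable def PP (s : ℝ) (x : ℂ) : ℂ := (x ^ 4 - s ^ 4) * (1 - s ^ 4 * x ^ 4)

/-- the `x`-coordinates of the finite marked points -/
noncomputable def xpt : Fin 8 → ℂ := ![I, I, -I, -I, 0, 0, 0, 0]

/-- The curve `y ^ 2 = PP s x` without the points over `0, i, -i, ∞`, with the flat structure of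
`dx / y`. The ends `0, …, 5` lie over `xpt`, the ends `6, 7` over `∞`. -/
structure Hyp (s : ℝ) where
  S : Flat 8
  x : S.Y → ℂ
  y : S.Y → ℂ
  x_hol : Hol x
  y_hol : Hol y
  d1x : ∀ q, d1 x q = y q
  eqn : ∀ q, y q ^ 2 = PP s (x q)
  x_ne : ∀ q, x q ≠ 0
  w_ne : ∀ q, x q ^ 2 + 1 ≠ 0
  inj : Function.Injective fun q => (x q, y q)
  surj : ∀ X Y : ℂ, Y ^ 2 = PP s X → X ≠ 0 → X ^ 2 + 1 ≠ 0 → ∃ q, x q = X ∧ y q = Y
  f_eq : ∀ q, S.f q = x q * (x q ^ 2 + 1)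
  r : ℝ
  r_pos : 0 < r
  r_le : r ≤ s / 2
  Yb : Fin 8 → ℂ → ℂ
  Yb_hol : ∀ i, DifferentiableOn ℂ (Yb i) (ball 0 1)
  Yb_ne : ∀ i, ∀ z ∈ ball (0 : ℂ) 1, Yb i z ≠ 0
  fin : ∀ i : Fin 8, i.val < 6 → ∀ q ∈ (S.e i).source,
    x q = xpt i + r * S.e i q ∧ y q = Yb i (S.e i q)
  inf : ∀ i : Fin 8, 6 ≤ i.val → ∀ q ∈ (S.e i).source,
    x q * (r * S.e i q) = 1 ∧ y q * S.e i q ^ 4 = Yb i (S.e i q)

/-- bump function in the long annuli -/
noncomputable def cA (t : ℝ) : ℝ := Real.smoothTransition ((4 - t ^ 2) / 3)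

/-- bump function near the zeros -/
noncomputable def cZ (t : ℝ) : ℝ := Real.smoothTransition ((1 / 4 - t) * (16 / 3))

/-- the sheet -/
noncomputable def sg (x y : ℂ) : ℂ := if 0 < (y / x ^ 2).re then 1 else -1

/-- the potential of the deformation; `L` is the length scale, `s = exp (-4 L)` -/
noncomputable def KK (L : ℝ) (u r x y : ℂ) : ℂ :=
  sg x y * ((exp (u * sg x y * cA (Real.log ‖x‖ / L) / 2) - 1) * (x - 1 / x) +
    r / (2 * (1 - (Real.exp (-4 * L) : ℂ) ^ 4)) * ((x ^ 2 + 1) * cZ (‖x ^ 2 + 1‖ ^ 2)))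

/-- `∂ K / ∂ x` -/
noncomputable def K1 (L : ℝ) (u r x y : ℂ) : ℂ :=
  sg x y * ((exp (u * sg x y * cA (Real.log ‖x‖ / L) / 2) - 1) * (1 + 1 / x ^ 2) +
    exp (u * sg x y * cA (Real.log ‖x‖ / L) / 2) *
      (u * sg x y * deriv cA (Real.log ‖x‖ / L) / (4 * L * x)) * (x - 1 / x) +
    r / (1 - (Real.exp (-4 * L) : ℂ) ^ 4) * x *
      (cZ (‖x ^ 2 + 1‖ ^ 2) + (‖x ^ 2 + 1‖ ^ 2 : ℝ) * deriv cZ (‖x ^ 2 + 1‖ ^ 2)))

/-- `∂ K / ∂ xbar` -/
noncomputable def K2 (L : ℝ) (u r x y : ℂ) : ℂ :=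
  sg x y * (exp (u * sg x y * cA (Real.log ‖x‖ / L) / 2) *
      (u * sg x y * deriv cA (Real.log ‖x‖ / L) / (4 * L * conj x)) * (x - 1 / x) +
    r / (1 - (Real.exp (-4 * L) : ℂ) ^ 4) * (x ^ 2 + 1) ^ 2 * deriv cZ (‖x ^ 2 + 1‖ ^ 2) * conj x)

/-- the explicit Beltrami coefficient -/
noncomputable def muX (L : ℝ) (u r x y : ℂ) : ℂ :=
  K2 L u r x y * conj y / (x ^ 2 + 1 + r * x + K1 L u r x y * y)

/-- its mixed second derivative at the origin, multiplied by `x y / (x ^ 2 + 1)` -/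
noncomputable def nuX (L : ℝ) (x y : ℂ) : ℂ :=
  -(‖y‖ ^ 2 : ℝ) * ((‖x‖ ^ 2 : ℝ) * deriv cZ (‖x ^ 2 + 1‖ ^ 2) * (sg x y * y / x ^ 2) /
      (2 * (1 - (Real.exp (-4 * L) : ℂ) ^ 4)) +
    deriv cA (Real.log ‖x‖ / L) * (x ^ 2 - 1) * x / (4 * L * conj x * (x ^ 2 + 1) ^ 3))

/-- the parameter domain -/
def DD (c ε L : ℝ) : TopologicalSpace.Opens P2 :=
  ⟨{t | ‖t 0‖ < c * L ∧ ‖t 1‖ < ε * Real.exp (-‖t 0‖ / 2)}, 
    (isOpen_lt (f := fun t : P2 => ‖t 0‖) (by fun_prop) continuous_const).inter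
      (isOpen_lt (f := fun t : P2 => ‖t 1‖) (g := fun t : P2 => ε * Real.exp (-‖t 0‖ / 2))
        (by fun_prop) (by fun_prop))⟩

end Pool.Agent.MP_e62289_ag

end

section

open Set Filter Topology Complex MeasureTheory Metric
open scoped Manifold ContDiff ComplexConjugate NNReal ENNReal

namespace Pool.Agent.MP_e62289_ag

section X1

variable {n : ℕ} (S : Flat n)

/-- the surface with one point added for each end -/
def X1M : Type := S.Y ⊕ Fin n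

/-- the inclusion of the surface -/
def X1j (q : S.Y) : X1M S := Sum.inl q

/-- the added points -/
def X1p (i : Fin n) : X1M S := Sum.inr i

theorem X1j_inj : Function.Injective (X1j S) := Sum.inl_injective

theorem X1p_inj : Function.Injective (X1p S) := Sum.inr_injective

theorem X1_ne (q : S.Y) (i : Fin n) : X1j S q ≠ X1p S i := Sum.inl_ne_inr

theorem X1_cover (m : X1M S) : (∃ q, X1j S q = m) ∨ ∃ i, X1p S i = m := by
  rcases m with q | i
  · exact Or.inl ⟨q, rfl⟩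
  · exact Or.inr ⟨i, rfl⟩

theorem X1_mono (i : Fin n) {r s : ℝ} (h : r ≤ s) : S.End i r ⊆ S.End i s :=
  fun _ hq => ⟨hq.1, hq.2.trans_le h⟩

theorem X1_e {i : Fin n} {q : S.Y} (hq : q ∈ (S.e i).source) : S.e i q ≠ 0 ∧ ‖S.e i q‖ < 1 := by
  have h := (S.e i).map_source hq
  rw [S.e_target] at h
  exact ⟨h.2, by simpa using h.1⟩

theorem X1_tgt {i : Fin n} {w : ℂ} (h0 : w ≠ 0) (h1 : ‖w‖ < 1) : w ∈ (S.e i).target := by
  rw [S.e_target]
  exact ⟨by simpa using h1, h0⟩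

instance X1top : TopologicalSpace (X1M S) where
  IsOpen U := IsOpen (X1j S ⁻¹' U) ∧ ∀ i, X1p S i ∈ U → ∃ r, 0 < r ∧ S.End i r ⊆ X1j S ⁻¹' U
  isOpen_univ := ⟨isOpen_univ, fun _ _ => ⟨1, one_pos, subset_univ _⟩⟩
  isOpen_inter U V hU hV := by
    refine ⟨hU.1.inter hV.1, fun i hi => ?_⟩
    obtain ⟨r, hr, h⟩ := hU.2 i hi.1
    obtain ⟨s, hs, h'⟩ := hV.2 i hi.2
    exact ⟨min r s, lt_min hr hs, subset_inter ((X1_mono S i (min_le_left _ _)).trans h)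
      ((X1_mono S i (min_le_right _ _)).trans h')⟩
  isOpen_sUnion C hC := by
    refine ⟨?_, fun i hi => ?_⟩
    · rw [preimage_sUnion]
      exact isOpen_biUnion fun U hU => (hC U hU).1
    · obtain ⟨U, hU, hi⟩ := hi
      obtain ⟨r, hr, h⟩ := (hC U hU).2 i hi
      exact ⟨r, hr, h.trans (preimage_mono (subset_sUnion_of_mem hU))⟩

theorem X1_isOpen {U : Set (X1M S)} : IsOpen U ↔
    IsOpen (X1j S ⁻¹' U) ∧ ∀ i, X1p S i ∈ U → ∃ r, 0 < r ∧ S.End i r ⊆ X1j S ⁻¹' U := Iff.rfl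

theorem X1j_emb : IsOpenEmbedding (X1j S) := by
  refine IsOpenEmbedding.of_continuous_injective_isOpenMap
    (continuous_def.2 fun U hU => ((X1_isOpen S).1 hU).1) (X1j_inj S) fun V hV => ?_
  refine (X1_isOpen S).2 ⟨?_, fun i hi => ?_⟩
  · rw [preimage_image_eq _ (X1j_inj S)]
    exact hV
  · obtain ⟨q, -, hq⟩ := hi
    exact absurd hq (X1_ne S q i)

theorem X1_pre (V : Set S.Y) (i : Fin n) : X1j S ⁻¹' (X1j S '' V ∪ {X1p S i}) = V := by
  ext q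
  constructor
  · rintro (⟨q', hq', h⟩ | h)
    · rwa [← X1j_inj S h]
    · exact absurd h (X1_ne S q i)
  · exact fun h => Or.inl ⟨q, h, rfl⟩

theorem X1_open {V : Set S.Y} (hV : IsOpen V) {i : Fin n} {r : ℝ} (hr : 0 < r)
    (h : S.End i r ⊆ V) : IsOpen (X1j S '' V ∪ {X1p S i}) := by
  refine (X1_isOpen S).2 ⟨by rwa [X1_pre], fun k hk => ?_⟩
  rcases hk with ⟨q, -, hq⟩ | hk
  · exact absurd hq (X1_ne S q k)
  · rw [X1p_inj S hk, X1_pre]
    exact ⟨r, hr, h⟩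

theorem X1_nhds (i : Fin n) {r : ℝ} (hr : 0 < r) :
    X1j S '' S.End i r ∪ {X1p S i} ∈ 𝓝 (X1p S i) :=
  (X1_open S (S.isOpen_End i r) hr subset_rfl).mem_nhds (Or.inr rfl)

theorem X1_of_nhds {i : Fin n} {U : Set (X1M S)} (hU : U ∈ 𝓝 (X1p S i)) :
    ∃ r, 0 < r ∧ X1j S '' S.End i r ∪ {X1p S i} ⊆ U := by
  obtain ⟨V, hVU, hV, hi⟩ := mem_nhds_iff.1 hU
  obtain ⟨r, hr, h⟩ := ((X1_isOpen S).1 hV).2 i hi
  refine ⟨r, hr, Subset.trans ?_ hVU⟩
  rintro m (⟨q, hq, rfl⟩ | hm)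
  · exact h hq
  · rw [hm]
    exact hi

theorem X1_sep (q : S.Y) (i : Fin n) : ∃ u v : Set (X1M S), IsOpen u ∧ IsOpen v ∧
    X1j S q ∈ u ∧ X1p S i ∈ v ∧ Disjoint u v := by
  obtain ⟨r, hr, hr1, hq⟩ : ∃ r : ℝ, 0 < r ∧ r < 1 ∧ ¬ (q ∈ (S.e i).source ∧ ‖S.e i q‖ ≤ r) := by
    by_cases h : q ∈ (S.e i).source
    · have h1 := X1_e S h
      have h2 := norm_pos_iff.2 h1.1
      exact ⟨‖S.e i q‖ / 2, by linarith, by linarith [h1.2], fun h' => by linarith [h'.2]⟩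
    · exact ⟨1 / 2, one_half_pos, one_half_lt_one, fun h' => h h'.1⟩
  refine ⟨X1j S '' {q | q ∈ (S.e i).source ∧ ‖S.e i q‖ ≤ r}ᶜ, X1j S '' S.End i r ∪ {X1p S i},
    (X1j_emb S).isOpenMap _ (S.e_closed i r hr1).isOpen_compl,
    X1_open S (S.isOpen_End i r) hr subset_rfl, ⟨q, hq, rfl⟩, Or.inr rfl, ?_⟩
  rw [Set.disjoint_left]
  rintro m ⟨x, hx, rfl⟩ hm
  have hm' : x ∈ X1j S ⁻¹' (X1j S '' S.End i r ∪ {X1p S i}) := hm
  rw [X1_pre] at hm'
  exact hx ⟨hm'.1, hm'.2.le⟩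

instance X1t2 : T2Space (X1M S) := by
  refine ⟨fun a b hab => ?_⟩
  rcases X1_cover S a with ⟨x, rfl⟩ | ⟨i, rfl⟩ <;> rcases X1_cover S b with ⟨y, rfl⟩ | ⟨k, rfl⟩
  · exact separated_by_isOpenEmbedding (X1j_emb S) fun h => hab (by rw [h])
  · exact X1_sep S x k
  · obtain ⟨u, v, hu, hv, h1, h2, h3⟩ := X1_sep S y i
    exact ⟨v, u, hv, hu, h2, h1, h3.symm⟩
  · have hik : i ≠ k := fun h => hab (by rw [h])
    refine ⟨X1j S '' S.End i 1 ∪ {X1p S i}, X1j S '' S.End k 1 ∪ {X1p S k},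
      X1_open S (S.isOpen_End i 1) one_pos subset_rfl,
      X1_open S (S.isOpen_End k 1) one_pos subset_rfl, Or.inr rfl, Or.inr rfl, ?_⟩
    rw [Set.disjoint_left]
    rintro m (⟨x, hx, rfl⟩ | hm) hm'
    · have hm'' : x ∈ X1j S ⁻¹' (X1j S '' S.End k 1 ∪ {X1p S k}) := hm'
      rw [X1_pre] at hm''
      exact Set.disjoint_left.1 (S.e_disj hik) hx.1 hm''.1
    · rw [hm] at hm'
      rcases hm' with ⟨y, -, hy⟩ | hm'
      · exact X1_ne S y i hy
      · exact hab hm'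

instance X1cs : CompactSpace (X1M S) := by
  refine ⟨isCompact_iff_ultrafilter_le_nhds.2 fun F _ => ?_⟩
  by_cases h : ∃ i, (F : Filter (X1M S)) ≤ 𝓝 (X1p S i)
  · obtain ⟨i, hi⟩ := h
    exact ⟨_, mem_univ _, hi⟩
  have h1 : ∀ i, ∀ᶠ r in 𝓝[>] (0 : ℝ), (X1j S '' S.End i r ∪ {X1p S i})ᶜ ∈ F := by
    intro i
    have h2 : ¬ (F : Filter (X1M S)) ≤ 𝓝 (X1p S i) := fun h' => h ⟨i, h'⟩
    obtain ⟨U, hU, hF⟩ := Filter.not_le.1 h2
    obtain ⟨r, hr, hs⟩ := X1_of_nhds S hU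
    filter_upwards [Ioo_mem_nhdsGT hr] with s hs'
    refine Ultrafilter.compl_mem_iff_notMem.2 fun h' => hF (mem_of_superset h' ?_)
    exact (union_subset_union_left _ (image_mono (X1_mono S i hs'.2.le))).trans hs
  obtain ⟨r, hr, hr0⟩ := ((eventually_all.2 h1).and self_mem_nhdsWithin).exists
  have hK : IsCompact (X1j S '' S.core r) := (S.e_compact r hr0).image (X1j_emb S).continuous
  have hF : X1j S '' S.core r ∈ F := by
    refine mem_of_superset (iInter_mem.2 hr) fun m hm => ?_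
    rw [mem_iInter] at hm
    rcases X1_cover S m with ⟨x, rfl⟩ | ⟨i, rfl⟩
    · exact ⟨x, fun i hi => not_lt.1 fun h' => hm i (Or.inl ⟨x, ⟨hi, h'⟩, rfl⟩), rfl⟩
    · exact absurd (Or.inr rfl) (hm i)
  obtain ⟨m, -, hm⟩ := hK.ultrafilter_le_nhds F (le_principal_iff.2 hF)
  exact ⟨m, mem_univ _, hm⟩

theorem X1_dense : DenseRange (X1j S) := by
  refine dense_iff_inter_open.2 fun U hU ⟨m, hm⟩ => ?_
  rcases X1_cover S m with ⟨x, rfl⟩ | ⟨i, rfl⟩
  · exact ⟨_, hm, x, rfl⟩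
  · obtain ⟨r, hr, h⟩ := ((X1_isOpen S).1 hU).2 i hm
    have h0 : 0 < min r 1 / 2 := half_pos (lt_min hr one_pos)
    have hn : ‖((min r 1 / 2 : ℝ) : ℂ)‖ = min r 1 / 2 := by
      rw [Complex.norm_real, Real.norm_of_nonneg h0.le]
    have ht : ((min r 1 / 2 : ℝ) : ℂ) ∈ (S.e i).target :=
      X1_tgt S (Complex.ofReal_ne_zero.2 h0.ne') (by rw [hn]; linarith [min_le_right r 1])
    refine ⟨_, h ⟨(S.e i).map_target ht, ?_⟩, _, rfl⟩
    rw [(S.e i).right_inv ht, hn]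
    linarith [min_le_left r 1]

instance X1cn : ConnectedSpace (X1M S) := by
  rw [connectedSpace_iff_univ, ← (X1_dense S).closure_range]
  exact (isConnected_range (X1j_emb S).continuous).closure

/-- the extended coordinate -/
noncomputable def X1f (i : Fin n) : X1M S → ℂ := Sum.elim (S.e i) fun _ => 0

open Classical in
/-- the inverse of the extended coordinate -/
noncomputable def X1g (i : Fin n) (w : ℂ) : X1M S :=
  if w = 0 then X1p S i else X1j S ((S.e i).symm w)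

theorem X1f_j (i : Fin n) (q : S.Y) : X1f S i (X1j S q) = S.e i q := rfl

theorem X1f_p (i k : Fin n) : X1f S i (X1p S k) = 0 := rfl

theorem X1g_zero (i : Fin n) : X1g S i 0 = X1p S i := if_pos rfl

theorem X1g_ne (i : Fin n) {w : ℂ} (h : w ≠ 0) : X1g S i w = X1j S ((S.e i).symm w) := if_neg h

/-- the chart at an added point -/
noncomputable def X1e (i : Fin n) : OpenPartialHomeomorph (X1M S) ℂ where
  toFun := X1f S i
  invFun := X1g S i
  source := X1j S '' (S.e i).source ∪ {X1p S i}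
  target := ball 0 1
  map_source' := by
    rintro m (⟨q, hq, rfl⟩ | hm)
    · rw [X1f_j, mem_ball_zero_iff]
      exact (X1_e S hq).2
    · rw [hm, X1f_p]
      exact mem_ball_self one_pos
  map_target' w hw := by
    by_cases h : w = 0
    · rw [h, X1g_zero]
      exact Or.inr rfl
    · rw [X1g_ne S i h]
      exact Or.inl ⟨_, (S.e i).map_target (X1_tgt S h (mem_ball_zero_iff.1 hw)), rfl⟩
  left_inv' := by
    rintro m (⟨q, hq, rfl⟩ | hm)
    · rw [X1f_j, X1g_ne S i (X1_e S hq).1, (S.e i).left_inv hq]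
    · rw [hm, X1f_p, X1g_zero]
  right_inv' w hw := by
    by_cases h : w = 0
    · rw [h, X1g_zero, X1f_p]
    · rw [X1g_ne S i h, X1f_j, (S.e i).right_inv (X1_tgt S h (mem_ball_zero_iff.1 hw))]
  open_source := X1_open S (S.e i).open_source one_pos fun _ hq => hq.1
  open_target := isOpen_ball
  continuousOn_toFun := by
    rintro m (⟨q, hq, rfl⟩ | hm)
    · have hc : ContinuousAt (X1f S i ∘ X1j S) q := (S.e i).continuousAt hq
      exact ((X1j_emb S).continuousAt_iff.1 hc).continuousWithinAt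
    · rw [hm]
      refine ContinuousAt.continuousWithinAt ?_
      rw [ContinuousAt, X1f_p, Metric.tendsto_nhds]
      intro ε hε
      filter_upwards [X1_nhds S i hε] with m hm
      rcases hm with ⟨q, hq, rfl⟩ | hm
      · rw [X1f_j, dist_zero_right]
        exact hq.2
      · rw [hm, X1f_p, dist_self]
        exact hε
  continuousOn_invFun w hw := by
    refine ContinuousAt.continuousWithinAt ?_
    by_cases h : w = 0
    · rw [h, ContinuousAt, X1g_zero]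
      intro U hU
      obtain ⟨r, hr, hs⟩ := X1_of_nhds S hU
      rw [mem_map]
      filter_upwards [ball_mem_nhds (0 : ℂ) (lt_min hr one_pos)] with z hz
      rw [mem_ball_zero_iff, lt_min_iff] at hz
      refine hs ?_
      by_cases hz0 : z = 0
      · rw [hz0, X1g_zero]
        exact Or.inr rfl
      · have ht := X1_tgt S (i := i) hz0 hz.2
        rw [X1g_ne S i hz0]
        refine Or.inl ⟨_, ⟨(S.e i).map_target ht, ?_⟩, rfl⟩
        rw [(S.e i).right_inv ht]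
        exact hz.1
    · have hc : ContinuousAt (fun z => X1j S ((S.e i).symm z)) w :=
        (X1j_emb S).continuous.continuousAt.comp
          ((S.e i).continuousAt_symm (X1_tgt S h (mem_ball_zero_iff.1 hw)))
      refine hc.congr ?_
      filter_upwards [isOpen_ne.mem_nhds h] with z hz
      exact (X1g_ne S i hz).symm

end X1

theorem Flat.exists_cpt {n : ℕ} (S : Flat n) : Nonempty S.Cpt := by
  exact ⟨{
    M := X1M S
    j := X1j S
    j_emb := X1j_emb S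
    pt := X1p S
    pt_inj := X1p_inj S
    ne := X1_ne S
    cover := X1_cover S
    e := X1e S
    e_source := fun _ => rfl
    e_target := fun _ => rfl
    e_j := fun _ _ _ => rfl
    e_pt := fun _ => rfl }⟩

end Pool.Agent.MP_e62289_ag

end

section

open Set Filter Topology Complex MeasureTheory Metric
open scoped Manifold ContDiff ComplexConjugate NNReal ENNReal

namespace Pool.Agent.MP_e62289_ag

/-- the inverse function theorem with a parameter -/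
theorem X2c_plane {Z : ℂ × P2 → ℂ} {w₀ : ℂ × P2} (hZ : ContDiffAt ℝ 1 Z w₀)
    (hL : Function.Injective (fderiv ℝ (fun z => Z (z, w₀.2)) w₀.1)) :
    ∃ Φ : OpenPartialHomeomorph (ℂ × P2) (ℂ × P2), w₀ ∈ Φ.source ∧ ∀ w, Φ w = (Z w, w.2) := by
  have hA : HasFDerivAt Z (fderiv ℝ Z w₀) w₀ := (hZ.differentiableAt one_ne_zero).hasFDerivAt
  have hA' : HasFDerivAt Z (fderiv ℝ Z w₀) (w₀.1, w₀.2) := hA
  have h1 := (HasFDerivAt.comp (f := fun z : ℂ => (z, w₀.2)) w₀.1 hA'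
    (hasFDerivAt_prodMk_left (𝕜 := ℝ) w₀.1 w₀.2)).fderiv
  have h1' : fderiv ℝ (fun z => Z (z, w₀.2)) w₀.1 =
      (fderiv ℝ Z w₀).comp (ContinuousLinearMap.inl ℝ ℂ P2) := h1
  rw [h1'] at hL
  let f' : ℂ × P2 →L[ℝ] ℂ × P2 := (fderiv ℝ Z w₀).prod (ContinuousLinearMap.snd ℝ ℂ P2)
  have hinj : Function.Injective (f' : ℂ × P2 →ₗ[ℝ] ℂ × P2) := by
    refine (injective_iff_map_eq_zero _).2 ?_
    rintro ⟨v, t⟩ h
    have h2 : t = 0 := congrArg Prod.snd h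
    subst h2
    have h3 : fderiv ℝ Z w₀ (v, 0) = 0 := congrArg Prod.fst h
    have h4 : v = 0 := (injective_iff_map_eq_zero _).1 hL v h3
    rw [h4]
    rfl
  let e : (ℂ × P2) ≃L[ℝ] (ℂ × P2) :=
    (LinearEquiv.ofInjectiveEndo (f' : ℂ × P2 →ₗ[ℝ] ℂ × P2) hinj).toContinuousLinearEquiv
  have he : (e : ℂ × P2 →L[ℝ] ℂ × P2) = f' := ContinuousLinearMap.ext fun _ => rfl
  have hf : ContDiffAt ℝ 1 (fun w : ℂ × P2 => (Z w, w.2)) w₀ := hZ.prodMk contDiffAt_snd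
  have hf' : HasFDerivAt (fun w : ℂ × P2 => (Z w, w.2)) (e : ℂ × P2 →L[ℝ] ℂ × P2) w₀ := by
    rw [he]
    exact hA.prodMk hasFDerivAt_snd
  exact ⟨hf.toOpenPartialHomeomorph _ hf' one_ne_zero,
    hf.mem_toOpenPartialHomeomorph_source hf' one_ne_zero, fun _ => rfl⟩

namespace Flat

variable {n : ℕ} {S : Flat n} {a : Fin n → ℕ} {D : TopologicalSpace.Opens P2}

theorem X2c_local (δ : S.Defo a D) (q₀ : S.Y) (t₀ : D) {P₀ P₁ : S.Y → ℂ}
    (h₀ : ∀ᶠ q in 𝓝 q₀, HolAt P₀ q) (h₁ : ∀ᶠ q in 𝓝 q₀, HolAt P₁ q)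
    (e₀ : d1 P₀ q₀ = δ.g₀ q₀) (e₁ : d1 P₁ q₀ = δ.g₁ q₀) :
    ∃ Φ : OpenPartialHomeomorph (ℂ × P2) (ℂ × P2), (chartAt ℂ q₀ q₀, t₀.1) ∈ Φ.source ∧
      ∀ w, Φ w = (P₀ ((chartAt ℂ q₀).symm w.1) + w.2 1 * P₁ ((chartAt ℂ q₀).symm w.1) +
        δ.K w.2 ((chartAt ℂ q₀).symm w.1), w.2) := by
  have hq := mem_chart_source ℂ q₀
  refine X2c_plane (Z := fun w => P₀ ((chartAt ℂ q₀).symm w.1) +
    w.2 1 * P₁ ((chartAt ℂ q₀).symm w.1) + δ.K w.2 ((chartAt ℂ q₀).symm w.1)) ?_ ?_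
  · have c₀ : ContDiffAt ℝ 1 (fun w : ℂ × P2 => P₀ ((chartAt ℂ q₀).symm w.1))
        (chartAt ℂ q₀ q₀, t₀.1) :=
      ContDiffAt.comp (g := P₀ ∘ (chartAt ℂ q₀).symm) (f := Prod.fst) _
        (S.L1a_contDiffAt (ckAt_of_hol h₀ 1)) contDiffAt_fst
    have c₁ : ContDiffAt ℝ 1 (fun w : ℂ × P2 => P₁ ((chartAt ℂ q₀).symm w.1))
        (chartAt ℂ q₀ q₀, t₀.1) :=
      ContDiffAt.comp (g := P₁ ∘ (chartAt ℂ q₀).symm) (f := Prod.fst) _
        (S.L1a_contDiffAt (ckAt_of_hol h₁ 1)) contDiffAt_fst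
    have c₂ : ContDiffAt ℝ 1 (fun w : ℂ × P2 => w.2 1) (chartAt ℂ q₀ q₀, t₀.1) := by fun_prop
    have : IsManifold 𝓘(ℝ, ℂ) 1 S.Y := IsManifold.of_le (n := ω) le_top
    have hs : ContMDiffAt 𝓘(ℝ, ℂ) 𝓘(ℝ, ℂ) 1 (chartAt ℂ q₀).symm (chartAt ℂ q₀ q₀) :=
      (contMDiffOn_chart_symm (I := 𝓘(ℝ, ℂ)) (n := 1) (x := q₀)).contMDiffAt
        ((chartAt ℂ q₀).open_target.mem_nhds (mem_chart_target ℂ q₀))
    have hm : ContMDiffAt 𝓘(ℝ, ℂ × P2) (𝓘(ℝ, P2).prod 𝓘(ℝ, ℂ)) 1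
        (fun w : ℂ × P2 => (w.2, (chartAt ℂ q₀).symm w.1)) (chartAt ℂ q₀ q₀, t₀.1) :=
      contDiff_snd.contMDiff.contMDiffAt.prodMk
        (ContMDiffAt.comp (g := (chartAt ℂ q₀).symm) (f := Prod.fst) _ hs
          contDiff_fst.contMDiff.contMDiffAt)
    have c₃ : ContDiffAt ℝ 1 (fun w : ℂ × P2 => δ.K w.2 ((chartAt ℂ q₀).symm w.1))
        (chartAt ℂ q₀ q₀, t₀.1) :=
      contMDiffAt_iff_contDiffAt.1
        (((δ.smooth _).of_le (by norm_num)).comp _ hm)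
    exact (c₀.add (c₂.mul c₁)).add c₃
  · have r₀ := d2_of_hol h₀.self_of_nhds
    have r₁ := d2_of_hol h₁.self_of_nhds
    have rc : RDiffAt (fun _ : S.Y => t₀.1 1) q₀ := mdifferentiableAt_const
    have rK : RDiffAt (δ.K t₀.1) q₀ :=
      (((δ.smooth (t₀.1, q₀)).comp q₀
        (contMDiffAt_const.prodMk contMDiffAt_id)).mdifferentiableAt (by simp))
    have r₂ : RDiffAt (fun q => t₀.1 1 * P₁ q) q₀ := RDiffAt.mul rc r₁.1
    have r₃ : RDiffAt (fun q => P₀ q + t₀.1 1 * P₁ q) q₀ := RDiffAt.add r₀.1 r₂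
    have r₄ : RDiffAt (fun q => P₀ q + t₀.1 1 * P₁ q + δ.K t₀.1 q) q₀ := RDiffAt.add r₃ rK
    have hd := dd_eq_fderiv r₄
    have hp : ‖d2 (fun q => P₀ q + t₀.1 1 * P₁ q + δ.K t₀.1 q) q₀‖ <
        ‖d1 (fun q => P₀ q + t₀.1 1 * P₁ q + δ.K t₀.1 q) q₀‖ := by
      rw [(d_add r₃ rK).1, (d_add r₃ rK).2, (d_add r₀.1 r₂).1, (d_add r₀.1 r₂).2,
        (d_mul rc r₁.1).1, (d_mul rc r₁.1).2, (d_const _ q₀).1, (d_const _ q₀).2, r₀.2, r₁.2,
        e₀, e₁]
      simpa using δ.pos t₀.1 t₀.2 q₀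
    obtain ⟨e, he⟩ := exists_equiv_of_w hp
    have h2 : fderiv ℝ (fun z => P₀ ((chartAt ℂ q₀).symm z) +
        t₀.1 1 * P₁ ((chartAt ℂ q₀).symm z) + δ.K t₀.1 ((chartAt ℂ q₀).symm z))
        (chartAt ℂ q₀ q₀) = (e : ℂ →L[ℝ] ℂ) := (he.trans hd).symm
    dsimp only
    rw [h2]
    exact e.injective

/-- charts of the deformed structure at regular points -/
theorem Defo.reg_chart (δ : S.Defo a D) (c : S.Cpt) (q₀ : S.Y) (t₀ : D) :
    ∃ (N : Set S.Y) (P₀ P₁ : S.Y → ℂ) (ch : OpenPartialHomeomorph (c.M × D) (ℂ × D)),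
      IsOpen N ∧ (∀ q ∈ N, HolAt P₀ q ∧ d1 P₀ q = δ.g₀ q ∧ HolAt P₁ q ∧ d1 P₁ q = δ.g₁ q) ∧
      (c.j q₀, t₀) ∈ ch.source ∧ ∀ p ∈ ch.source, ∃ q ∈ N, c.j q = p.1 ∧
        ch p = (P₀ q + p.2.1 1 * P₁ q + δ.K p.2.1 q, p.2) := by
  obtain ⟨N, hN, hq₀, -⟩ := S.exists_disc (q := q₀) univ_mem
  have hNo := IsDisc.isOpen S hN
  obtain ⟨P₀, hP₀⟩ := IsDisc.prim S hN (u := δ.g₀) fun q _ => δ.hol₀ q
  obtain ⟨P₁, hP₁⟩ := IsDisc.prim S hN (u := δ.g₁) fun q _ => δ.hol₁ q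
  obtain ⟨Φ, hΦ, hΦe⟩ := X2c_local δ q₀ t₀ (P₀ := P₀) (P₁ := P₁)
    (mem_of_superset (hNo.mem_nhds hq₀) fun q hq => (hP₀ q hq).1)
    (mem_of_superset (hNo.mem_nhds hq₀) fun q hq => (hP₁ q hq).1) (hP₀ q₀ hq₀).2 (hP₁ q₀ hq₀).2
  have : Nonempty S.Y := ⟨q₀⟩
  let J : OpenPartialHomeomorph S.Y c.M := c.j_emb.toOpenPartialHomeomorph c.j
  have hJ : ∀ q, J.symm (c.j q) = q := fun q => J.left_inv (mem_univ q)
  let ι : OpenPartialHomeomorph D P2 := D.openPartialHomeomorphSubtypeCoe ⟨t₀⟩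
  have hι : ∀ t : D, ι.symm t.1 = t := fun t => ι.left_inv (mem_univ t)
  let A : OpenPartialHomeomorph (c.M × D) (ℂ × P2) :=
    (J.symm ≫ₕ (chartAt ℂ q₀).restrOpen N hNo).prod ι
  have hA : ∀ p : c.M × D, A p = (chartAt ℂ q₀ (J.symm p.1), p.2.1) := fun _ => rfl
  let B : OpenPartialHomeomorph (ℂ × P2) (ℂ × D) := ((OpenPartialHomeomorph.refl ℂ).prod ι).symm
  have hB : ∀ w : ℂ × P2, B w = (w.1, ι.symm w.2) := fun _ => rfl
  refine ⟨N, P₀, P₁, A ≫ₕ Φ ≫ₕ B, hNo,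
    fun q hq => ⟨(hP₀ q hq).1, (hP₀ q hq).2, (hP₁ q hq).1, (hP₁ q hq).2⟩, ⟨⟨⟨?_, ?_⟩, ?_⟩, ?_, ?_⟩,
    ?_⟩
  · exact J.map_source (mem_univ q₀)
  · change J.symm (c.j q₀) ∈ (chartAt ℂ q₀).source ∩ N
    rw [hJ]
    exact ⟨mem_chart_source ℂ q₀, hq₀⟩
  · exact mem_univ _
  · change A (c.j q₀, t₀) ∈ Φ.source
    rw [hA, hJ]
    exact hΦ
  · change Φ (A (c.j q₀, t₀)) ∈ B.source
    rw [hΦe, hA]
    exact ⟨mem_univ _, ι.map_source (mem_univ t₀)⟩
  · rintro p ⟨⟨⟨h1, h2⟩, -⟩, -⟩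
    have h2' : J.symm p.1 ∈ (chartAt ℂ q₀).source ∩ N := h2
    refine ⟨J.symm p.1, h2'.2, J.right_inv h1, ?_⟩
    change B (Φ (A p)) = _
    rw [hB, hΦe, hA]
    dsimp only
    rw [(chartAt ℂ q₀).left_inv h2'.1, hι]

end Flat

end Pool.Agent.MP_e62289_ag

end

section

open Set Filter Topology Complex MeasureTheory Metric
open scoped Manifold ContDiff ComplexConjugate NNReal ENNReal

namespace Pool.Agent.MP_e62289_ag

namespace Flat

variable {n : ℕ} {S : Flat n} {a : Fin n → ℕ} {D : TopologicalSpace.Opens P2}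

theorem Defo.x2d_ne (δ : S.Defo a D) {t : P2} (ht : t ∈ D) (q : S.Y) :
    δ.g₀ q + t 1 * δ.g₁ q + d1 (δ.K t) q ≠ 0 :=
  norm_pos_iff.1 ((norm_nonneg _).trans_lt (δ.pos t ht q))

theorem Defo.x2d_ck (δ : S.Defo a D) (t : P2) : Ck 1 (δ.K t) :=
  (δ.smooth.comp (f := fun q : S.Y => (t, q)) (contMDiff_const.prodMk contMDiff_id)).of_le
    (by norm_num)

theorem Defo.mu_cont (δ : S.Defo a D) {t : P2} (ht : t ∈ D) : Continuous (δ.mu t) := by
  have h1 : Continuous (d1 (δ.K t)) :=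
    continuous_iff_continuousAt.2 fun q => (S.continuousAt_d (δ.x2d_ck t q)).1
  have h2 : Continuous (d2 (δ.K t)) :=
    continuous_iff_continuousAt.2 fun q => (S.continuousAt_d (δ.x2d_ck t q)).2
  exact h2.div ((δ.hol₀.continuous.add (continuous_const.mul δ.hol₁.continuous)).add h1)
    (δ.x2d_ne ht)

theorem Defo.norm_mu_lt (δ : S.Defo a D) {t : P2} (ht : t ∈ D) (q : S.Y) : ‖δ.mu t q‖ < 1 := by
  rw [Defo.mu, norm_div, div_lt_one (norm_pos_iff.2 (δ.x2d_ne ht q))]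
  exact δ.pos t ht q

theorem Defo.mu_hol (δ : S.Defo a D) {φ : ℂ → P2} (hφ : Differentiable ℂ φ) {ζ : ℂ}
    (h : φ ζ ∈ D) (q : S.Y) : DifferentiableAt ℂ (fun ζ => δ.mu (φ ζ) q) ζ := by
  have h0 : ContDiff ℝ 1 φ := (hφ.contDiff (n := 1)).restrict_scalars ℝ
  have h1 : ContMDiff (𝓘(ℝ, ℂ).prod 𝓘(ℝ, ℂ)) 𝓘(ℝ, ℂ) 1
      fun p : ℂ × S.Y => δ.K (φ p.1) p.2 :=
    (δ.smooth.of_le (by norm_num)).comp (f := fun p : ℂ × S.Y => (φ p.1, p.2))
      ((h0.contMDiff.comp contMDiff_fst).prodMk contMDiff_snd)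
  have h2 := S.d_par_hol (g := fun p : ℂ × S.Y => δ.K (φ p.1) p.2) isOpen_univ h1.contMDiffOn
    (fun p _ => ((δ.holK p.2).comp hφ).differentiableAt) (p := (ζ, q)) (mem_univ _)
  have h3 : DifferentiableAt ℂ (fun ζ => φ ζ 1) ζ := differentiableAt_pi.1 (hφ ζ) 1
  exact h2.2.div (((differentiableAt_const _).add (h3.mul_const _)).add h2.1) (δ.x2d_ne h q)

end Flat

end Pool.Agent.MP_e62289_ag

end

section



end

section

open Set Filter Topology Complex MeasureTheory Metric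
open scoped Manifold ContDiff ComplexConjugate NNReal ENNReal

namespace Pool.Agent.MP_e62289_ag

/-- splitting of a real derivative that is complex in the parameter -/
theorem X2_split {F : ℂ × P2 → ℂ} {p : ℂ × P2} (hF : DifferentiableAt ℝ F p)
    (hF2 : DifferentiableAt ℂ (fun s => F (p.1, s)) p.2) :
    ∃ c : P2 →L[ℂ] ℂ, ∀ v τ, fderiv ℝ F p (v, τ) = fderiv ℝ (fun u => F (u, p.2)) p.1 v + c τ := by
  refine ⟨fderiv ℂ (fun s => F (p.1, s)) p.2, fun v τ => ?_⟩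
  have h1 : HasFDerivAt (fun u => F (u, p.2))
      ((fderiv ℝ F p).comp (ContinuousLinearMap.inl ℝ ℂ P2)) p.1 :=
    HasFDerivAt.comp (g := F) p.1 hF.hasFDerivAt (hasFDerivAt_prodMk_left p.1 p.2)
  have h2 : HasFDerivAt (fun s => F (p.1, s))
      ((fderiv ℝ F p).comp (ContinuousLinearMap.inr ℝ ℂ P2)) p.2 :=
    HasFDerivAt.comp (g := F) p.2 hF.hasFDerivAt (hasFDerivAt_prodMk_right p.1 p.2)
  have h3 := h2.unique (hF2.hasFDerivAt.restrictScalars ℝ)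
  have h4 : fderiv ℝ F p (0, τ) = fderiv ℂ (fun s => F (p.1, s)) p.2 τ :=
    DFunLike.congr_fun h3 τ
  rw [h1.fderiv, ← h4, ContinuousLinearMap.comp_apply, ContinuousLinearMap.inl_apply, ← map_add]
  simp

/-- two functions with proportional fibre derivatives differ by a holomorphic change -/
theorem X2_calc {F H : ℂ × P2 → ℂ} {G : ℂ × P2 → ℂ × P2} {w p : ℂ × P2} {l : ℂ} (hp : G w = p)
    (hF : DifferentiableAt ℝ F p) (hH : DifferentiableAt ℝ H p)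
    (hF2 : DifferentiableAt ℂ (fun s => F (p.1, s)) p.2)
    (hH2 : DifferentiableAt ℂ (fun s => H (p.1, s)) p.2)
    (hpos : ‖w2 (fderiv ℝ (fun u => F (u, p.2)) p.1)‖ < ‖w1 (fderiv ℝ (fun u => F (u, p.2)) p.1)‖)
    (h1 : w1 (fderiv ℝ (fun u => H (u, p.2)) p.1) = l * w1 (fderiv ℝ (fun u => F (u, p.2)) p.1))
    (h2 : w2 (fderiv ℝ (fun u => H (u, p.2)) p.1) = l * w2 (fderiv ℝ (fun u => F (u, p.2)) p.1))
    (hG : ContinuousAt G w) (hinv : ∀ᶠ y in 𝓝 w, (F (G y), (G y).2) = y) :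
    ∃ L : ℂ × P2 →L[ℂ] ℂ, HasFDerivAt (fun y => H (G y)) L w ∧ ∀ z, L (z, 0) = l * z := by
  obtain ⟨c, hc⟩ := X2_split hF hF2
  obtain ⟨c', hc'⟩ := X2_split hH hH2
  obtain ⟨eA, heA⟩ := exists_equiv_of_w hpos
  have hA : ∀ v, fderiv ℝ (fun u => F (u, p.2)) p.1 v = eA v := fun v => by
    rw [← heA]; rfl
  have hB : ∀ v, fderiv ℝ (fun u => H (u, p.2)) p.1 v = l * eA v := fun v => by
    rw [← hA, w_apply, w_apply (fderiv ℝ (fun u => F (u, p.2)) p.1), h1, h2]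
    ring
  let e : (ℂ × P2) ≃L[ℝ] (ℂ × P2) := ContinuousLinearEquiv.equivOfInverse
    ((fderiv ℝ F p).prod (ContinuousLinearMap.snd ℝ ℂ P2))
    (((eA.symm : ℂ →L[ℝ] ℂ).comp (ContinuousLinearMap.fst ℝ ℂ P2 -
      (c.restrictScalars ℝ).comp (ContinuousLinearMap.snd ℝ ℂ P2))).prod
      (ContinuousLinearMap.snd ℝ ℂ P2))
    (fun y => by
      obtain ⟨v, τ⟩ := y
      simp [hc, hA])
    (fun y => by
      obtain ⟨v, τ⟩ := y
      simp [hc, hA])
  have he : HasFDerivAt (fun y => (F y, y.2)) (e : (ℂ × P2) →L[ℝ] (ℂ × P2)) (G w) := by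
    rw [hp]
    exact hF.hasFDerivAt.prodMk hasFDerivAt_snd
  have hG' := HasFDerivAt.of_local_left_inverse hG he hinv
  have hHG : HasFDerivAt (fun y => H (G y))
      ((fderiv ℝ H p).comp (e.symm : (ℂ × P2) →L[ℝ] (ℂ × P2))) w :=
    HasFDerivAt.comp (g := H) w (by rw [hp]; exact hH.hasFDerivAt) hG'
  refine ⟨l • ContinuousLinearMap.fst ℂ ℂ P2 + (c' - l • c).comp (ContinuousLinearMap.snd ℂ ℂ P2),
    hasFDerivAt_of_restrictScalars ℝ hHG ?_, fun z => by simp⟩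
  refine ContinuousLinearMap.ext fun y => ?_
  obtain ⟨v, τ⟩ := y
  have h5 : (e.symm : (ℂ × P2) →L[ℝ] (ℂ × P2)) (v, τ) = (eA.symm (v - c τ), τ) := rfl
  rw [ContinuousLinearMap.comp_apply, h5, hc', hB]
  simp
  ring

/-- open embeddings have left inverses that are continuous along the image -/
theorem X2_inv {A B : Type} [TopologicalSpace A] [TopologicalSpace B] [Nonempty A] {j : A → B}
    (h : IsOpenEmbedding j) : ∃ k : B → A, (∀ x, k (j x) = x) ∧ ∀ x, ContinuousAt k (j x) := by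
  refine ⟨(h.toOpenPartialHomeomorph j).symm, fun x => h.toOpenPartialHomeomorph_left_inv,
    fun x => (h.toOpenPartialHomeomorph j).continuousAt_symm ?_⟩
  rw [h.toOpenPartialHomeomorph_target]
  exact mem_range_self x

/-- complex differentiability on `ℂ × D` -/
theorem X2_mdiff {D : TopologicalSpace.Opens P2} {T : ℂ × P2 → ℂ} {w : ℂ × D}
    (h : DifferentiableAt ℂ T (w.1, w.2.1)) :
    MDifferentiableAt (𝓘(ℂ, ℂ).prod 𝓘(ℂ, P2)) 𝓘(ℂ, ℂ) (fun y : ℂ × D => T (y.1, y.2.1)) w := by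
  have h1 : MDifferentiableAt (𝓘(ℂ, ℂ).prod 𝓘(ℂ, P2)) 𝓘(ℂ, P2) (fun y : ℂ × D => y.2.1) w :=
    ((contMDiff_subtype_val (n := 1)).mdifferentiableAt (by simp)).comp w mdifferentiableAt_snd
  exact DifferentiableAt.comp_mdifferentiableAt (g := T) (f := fun y : ℂ × D => (y.1, y.2.1)) h
    (mdifferentiableAt_fst.prodMk_space h1)

/-- reading a function with parameters in a chart -/
theorem X2_read {Y : Type} [TopologicalSpace Y] [ChartedSpace ℂ Y] [IsManifold 𝓘(ℝ, ℂ) ω Y]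
    {Z : P2 × Y → ℂ} {t : P2} {q : Y}
    (h : ContMDiffAt (𝓘(ℝ, P2).prod 𝓘(ℝ, ℂ)) 𝓘(ℝ, ℂ) 2 Z (t, q)) :
    DifferentiableAt ℝ (fun y : ℂ × P2 => Z (y.2, (chartAt ℂ q).symm y.1)) (chartAt ℂ q q, t) ∧
    d1 (fun y => Z (t, y)) q =
      w1 (fderiv ℝ (fun u => Z (t, (chartAt ℂ q).symm u)) (chartAt ℂ q q)) ∧
    d2 (fun y => Z (t, y)) q =
      w2 (fderiv ℝ (fun u => Z (t, (chartAt ℂ q).symm u)) (chartAt ℂ q q)) := by
  have hZ := h.mdifferentiableAt (by simp)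
  have hq : (chartAt ℂ q).symm (chartAt ℂ q q) = q := (chartAt ℂ q).left_inv (mem_chart_source ℂ q)
  refine ⟨?_, ?_⟩
  · have h1 : MDifferentiableAt 𝓘(ℝ, ℂ) 𝓘(ℝ, ℂ) (chartAt ℂ q).symm (chartAt ℂ q q) :=
      mdifferentiableAt_atlas_symm (chart_mem_atlas ℂ q) (mem_chart_target ℂ q)
    have h2 : MDifferentiableAt 𝓘(ℝ, ℂ × P2) 𝓘(ℝ, ℂ) (fun y : ℂ × P2 => (chartAt ℂ q).symm y.1)
        (chartAt ℂ q q, t) :=
      MDifferentiableAt.comp (g := (chartAt ℂ q).symm) (f := Prod.fst) _ h1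
        differentiableAt_fst.mdifferentiableAt
    have h3 : MDifferentiableAt 𝓘(ℝ, ℂ × P2) (𝓘(ℝ, P2).prod 𝓘(ℝ, ℂ))
        (fun y : ℂ × P2 => (y.2, (chartAt ℂ q).symm y.1)) (chartAt ℂ q q, t) :=
      differentiableAt_snd.mdifferentiableAt.prodMk h2
    have h4 : MDifferentiableAt 𝓘(ℝ, ℂ × P2) 𝓘(ℝ, ℂ)
        (fun y : ℂ × P2 => Z (y.2, (chartAt ℂ q).symm y.1)) (chartAt ℂ q q, t) :=
      MDifferentiableAt.comp (g := Z) _ (by simpa only [hq] using hZ) h3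
    exact mdifferentiableAt_iff_differentiableAt.1 h4
  · have h1 : RDiffAt (fun y => Z (t, y)) q :=
      MDifferentiableAt.comp (g := Z) (f := fun y => (t, y)) q hZ
        (mdifferentiableAt_const.prodMk mdifferentiableAt_id)
    rw [d1, d2, dd_eq_fderiv h1]
    exact ⟨rfl, rfl⟩

end Pool.Agent.MP_e62289_ag

end

section

open Set Filter Topology Complex MeasureTheory Metric
open scoped Manifold ContDiff ComplexConjugate NNReal ENNReal

namespace Pool.Agent.MP_e62289_ag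

namespace Flat

variable {n : ℕ} {S : Flat n} {a : Fin n → ℕ} {D : TopologicalSpace.Opens P2}

/-- charts in which the deformed form is `f dz` at the regular points -/
def Defo.X2Reg (δ : S.Defo a D) (c : S.Cpt) (ch : OpenPartialHomeomorph (c.M × D) (ℂ × D))
    (f : ℂ × D → ℂ) : Prop :=
  (∀ p ∈ ch.source, (ch p).2 = p.2) ∧
  ∀ (q : S.Y) (t : D), (c.j q, t) ∈ ch.source → ∃ Z : P2 × S.Y → ℂ,
    ContMDiffAt (𝓘(ℝ, P2).prod 𝓘(ℝ, ℂ)) 𝓘(ℝ, ℂ) 2 Z (t.1, q) ∧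
    DifferentiableAt ℂ (fun s => Z (s, q)) t.1 ∧
    (∀ᶠ p : D × S.Y in 𝓝 (t, q), (ch (c.j p.2, p.1)).1 = Z (p.1.1, p.2)) ∧
    f (ch (c.j q, t)) * d1 (fun y => Z (t.1, y)) q =
      δ.g₀ q + t.1 1 * δ.g₁ q + d1 (δ.K t.1) q ∧
    f (ch (c.j q, t)) * d2 (fun y => Z (t.1, y)) q = d2 (δ.K t.1) q

/-- transitions at regular points -/
theorem Defo.X2_trans (δ : S.Defo a D) (c : S.Cpt)
    {ch ch' : OpenPartialHomeomorph (c.M × D) (ℂ × D)} {f f' : ℂ × D → ℂ}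
    (h : δ.X2Reg c ch f) (h' : δ.X2Reg c ch' f') {q : S.Y} {t : D} (hq : (c.j q, t) ∈ ch.source)
    (hq' : (c.j q, t) ∈ ch'.source) :
    MDifferentiableAt (𝓘(ℂ, ℂ).prod 𝓘(ℂ, P2)) 𝓘(ℂ, ℂ) (fun w => (ch' (ch.symm w)).1)
      (ch (c.j q, t)) ∧
    f (ch (c.j q, t)) = f' (ch' (c.j q, t)) *
      deriv (fun z => (ch' (ch.symm (z, t))).1) (ch (c.j q, t)).1 := by
  obtain ⟨Z, z1, z2, z3, z4, z5⟩ := h.2 q t hq
  obtain ⟨Z', y1, y2, y3, y4, y5⟩ := h'.2 q t hq'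
  have hpos := δ.pos t.1 t.2 q
  have hA : δ.g₀ q + t.1 1 * δ.g₁ q + d1 (δ.K t.1) q ≠ 0 :=
    norm_pos_iff.1 ((norm_nonneg _).trans_lt hpos)
  have hf' : f' (ch' (c.j q, t)) ≠ 0 := fun e => hA (by rw [← y4, e, zero_mul])
  rw [← z4, ← z5, norm_mul, norm_mul] at hpos
  have hpos' := lt_of_mul_lt_mul_left hpos (norm_nonneg _)
  have e1 : d1 (fun y => Z' (t.1, y)) q =
      f (ch (c.j q, t)) / f' (ch' (c.j q, t)) * d1 (fun y => Z (t.1, y)) q := by
    field_simp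
    linear_combination y4 - z4
  have e2 : d2 (fun y => Z' (t.1, y)) q =
      f (ch (c.j q, t)) / f' (ch' (c.j q, t)) * d2 (fun y => Z (t.1, y)) q := by
    field_simp
    linear_combination y5 - z5
  obtain ⟨r1, r2, r3⟩ := X2_read z1
  obtain ⟨s1, s2, s3⟩ := X2_read y1
  rw [r2, r3] at hpos'
  rw [r2, s2] at e1
  rw [r3, s3] at e2
  have : Nonempty D := ⟨t⟩
  obtain ⟨ρ, ρ1, ρ2⟩ := X2_inv (j := (Subtype.val : D → P2)) D.isOpen.isOpenEmbedding_subtypeVal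
  obtain ⟨k, k1, k2⟩ := X2_inv c.j_emb
  have hφ : (chartAt ℂ q).symm (chartAt ℂ q q) = q := (chartAt ℂ q).left_inv (mem_chart_source ℂ q)
  have hw : ((ch (c.j q, t)).1, t) = ch (c.j q, t) := Prod.ext rfl (h.1 _ hq).symm
  let w : ℂ × P2 := ((ch (c.j q, t)).1, t.1)
  let m : ℂ × P2 → ℂ × D := fun y => (y.1, ρ y.2)
  have hm : m w = ch (c.j q, t) := by
    change ((ch (c.j q, t)).1, ρ t.1) = _
    rw [ρ1, hw]
  have cm : ContinuousAt m w :=
    continuousAt_fst.prodMk (ContinuousAt.comp (g := ρ) (f := Prod.snd) (ρ2 t) continuousAt_snd)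
  have hn : ch.symm (m w) = (c.j q, t) := by rw [hm, ch.left_inv hq]
  have cn : ContinuousAt (fun y => ch.symm (m y)) w :=
    ContinuousAt.comp (g := ch.symm) (by rw [hm]; exact ch.continuousAt_symm (ch.map_source hq)) cm
  let g : ℂ × P2 → S.Y := fun y => k (ch.symm (m y)).1
  have hg : g w = q := by
    change k (ch.symm (m w)).1 = q
    rw [hn, k1]
  have cg : ContinuousAt g w :=
    ContinuousAt.comp (g := k) (f := fun y => (ch.symm (m y)).1) (by rw [hn]; exact k2 q) cn.fst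
  have tt : Tendsto (fun y => ((m y).2, g y)) (𝓝 w) (𝓝 (t, q)) := by
    have := cm.snd.prodMk cg
    rw [ContinuousAt, hg, hm, h.1 _ hq] at this
    exact this
  have ev : ∀ᶠ y in 𝓝 w, m y ∈ ch.target ∧ (c.j (g y), (m y).2) = ch.symm (m y) ∧
      (m y).2.1 = y.2 ∧ (chartAt ℂ q).symm (chartAt ℂ q (g y)) = g y := by
    have a1 : ∀ᶠ y in 𝓝 w, m y ∈ ch.target :=
      cm.preimage_mem_nhds (by rw [hm]; exact ch.open_target.mem_nhds (ch.map_source hq))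
    have a2 : ∀ᶠ y in 𝓝 w, (ch.symm (m y)).1 ∈ range c.j :=
      cn.fst.preimage_mem_nhds (by
        rw [hn]; exact c.j_emb.isOpen_range.mem_nhds (mem_range_self q))
    have a3 : ∀ᶠ y in 𝓝 w, y.2 ∈ (D : Set P2) :=
      continuousAt_snd.preimage_mem_nhds (D.isOpen.mem_nhds t.2)
    have a4 : ∀ᶠ y in 𝓝 w, g y ∈ (chartAt ℂ q).source :=
      cg.preimage_mem_nhds (by rw [hg]; exact chart_source_mem_nhds ℂ q)
    filter_upwards [a1, a2, a3, a4] with y b1 b2 b3 b4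
    refine ⟨b1, Prod.ext ?_ ?_, congrArg Subtype.val (ρ1 ⟨y.2, b3⟩), (chartAt ℂ q).left_inv b4⟩
    · obtain ⟨x, hx⟩ := b2
      change c.j (k (ch.symm (m y)).1) = (ch.symm (m y)).1
      rw [← hx, k1]
    · have := h.1 _ (ch.map_target b1)
      rw [ch.right_inv b1] at this
      exact this
  obtain ⟨L, hL, hL2⟩ := X2_calc (F := fun y : ℂ × P2 => Z (y.2, (chartAt ℂ q).symm y.1))
    (H := fun y : ℂ × P2 => Z' (y.2, (chartAt ℂ q).symm y.1))
    (G := fun y => (chartAt ℂ q (g y), y.2)) (w := w) (p := (chartAt ℂ q q, t.1))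
    (by rw [hg]) r1 s1 (by simpa only [hφ] using z2) (by simpa only [hφ] using y2) hpos' e1 e2
    ((ContinuousAt.comp (g := chartAt ℂ q) (by
      rw [hg]; exact (chartAt ℂ q).continuousAt (mem_chart_source ℂ q)) cg).prodMk
      continuousAt_snd) (by
      filter_upwards [ev, tt.eventually z3] with y b1 b2
      refine Prod.ext ?_ rfl
      change Z (y.2, (chartAt ℂ q).symm (chartAt ℂ q (g y))) = y.1
      rw [b1.2.2.2, ← b1.2.2.1, ← b2, b1.2.1, ch.right_inv b1.1])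
  have hT : HasFDerivAt (fun y => (ch' (ch.symm (m y))).1) L w := by
    refine hL.congr_of_eventuallyEq ?_
    filter_upwards [ev, tt.eventually y3] with y b1 b2
    rw [b1.2.2.2, ← b1.2.2.1, ← b2, b1.2.1]
  constructor
  · have := X2_mdiff (w := ((ch (c.j q, t)).1, t)) hT.differentiableAt
    rw [hw] at this
    simpa only [m, ρ1] using this
  · have h1 : HasFDerivAt (fun z : ℂ => (ch' (ch.symm (m (z, t.1)))).1)
        (L.comp (ContinuousLinearMap.inl ℂ ℂ P2)) (ch (c.j q, t)).1 :=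
      HasFDerivAt.comp (g := fun y => (ch' (ch.symm (m y))).1) (f := fun z : ℂ => (z, t.1)) _ hT
        (hasFDerivAt_prodMk_left _ _)
    have h2 := h1.hasDerivAt.deriv
    simp only [m, ρ1] at h2
    rw [h2, ContinuousLinearMap.comp_apply, ContinuousLinearMap.inl_apply, hL2]
    field_simp

/-- the charts at regular points -/
theorem Defo.X2_reg (δ : S.Defo a D) (c : S.Cpt) (q₀ : S.Y) (t₀ : D) :
    ∃ ch : OpenPartialHomeomorph (c.M × D) (ℂ × D), (c.j q₀, t₀) ∈ ch.source ∧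
      δ.X2Reg c ch (fun _ => 1) ∧ ∀ i t, (c.pt i, t) ∉ ch.source := by
  obtain ⟨N, P₀, P₁, ch, hN, hP, h0, hch⟩ := δ.reg_chart c q₀ t₀
  refine ⟨ch, h0, ⟨fun p hp => ?_, fun q t hq => ?_⟩, fun i t hp => ?_⟩
  · obtain ⟨q, -, -, e⟩ := hch p hp
    rw [e]
  · obtain ⟨q', hq', e, -⟩ := hch _ hq
    obtain rfl : q' = q := c.j_emb.injective e
    have c0 : CkAt 2 P₀ q' :=
      ckAt_of_hol (Filter.eventually_of_mem (hN.mem_nhds hq') fun x hx => (hP x hx).1) 2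
    have c1 : CkAt 2 P₁ q' :=
      ckAt_of_hol (Filter.eventually_of_mem (hN.mem_nhds hq') fun x hx => (hP x hx).2.2.1) 2
    have d0 := d2_of_hol (hP q' hq').1
    have d1' := d2_of_hol (hP q' hq').2.2.1
    have dK : RDiffAt (δ.K t.1) q' :=
      MDifferentiableAt.comp (g := fun p : P2 × S.Y => δ.K p.1 p.2) (f := fun y => (t.1, y)) q'
        ((δ.smooth _).mdifferentiableAt (by simp))
        (mdifferentiableAt_const.prodMk mdifferentiableAt_id)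
    have dc : RDiffAt (fun _ : S.Y => t.1 1) q' := mdifferentiableAt_const
    have dm := RDiffAt.mul dc d1'.1
    have e1 := d_mul dc d1'.1
    have e2 := d_add d0.1 dm
    have e3 := d_add (RDiffAt.add d0.1 dm) dK
    have e4 := d_const (t.1 1) q'
    refine ⟨fun p => P₀ p.2 + p.1 1 * P₁ p.2 + δ.K p.1 p.2, ?_, ?_, ?_, ?_, ?_⟩
    · have a0 : ContMDiffAt (𝓘(ℝ, P2).prod 𝓘(ℝ, ℂ)) 𝓘(ℝ, ℂ) 2 (fun p : P2 × S.Y => P₀ p.2)
          (t.1, q') := ContMDiffAt.comp (g := P₀) (f := Prod.snd) _ c0 contMDiffAt_snd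
      have a1 : ContMDiffAt (𝓘(ℝ, P2).prod 𝓘(ℝ, ℂ)) 𝓘(ℝ, ℂ) 2 (fun p : P2 × S.Y => P₁ p.2)
          (t.1, q') := ContMDiffAt.comp (g := P₁) (f := Prod.snd) _ c1 contMDiffAt_snd
      have a2 : ContMDiffAt (𝓘(ℝ, P2).prod 𝓘(ℝ, ℂ)) 𝓘(ℝ, ℂ) 2 (fun p : P2 × S.Y => p.1 1)
          (t.1, q') :=
        ContDiffAt.comp_contMDiffAt (g := fun s : P2 => s 1) (f := Prod.fst) (by fun_prop)
          contMDiffAt_fst
      have a3 : ContMDiffAt (𝓘(ℝ, P2).prod 𝓘(ℝ, ℂ)) 𝓘(ℝ, ℂ) 2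
          (fun p : P2 × S.Y => p.1 1 * P₁ p.2) (t.1, q') :=
        ContDiffAt.comp_contMDiffAt (g := fun s : ℂ × ℂ => s.1 * s.2)
          (f := fun p : P2 × S.Y => (p.1 1, P₁ p.2)) (by fun_prop) (a2.prodMk_space a1)
      exact (a0.add a3).add (δ.smooth _)
    · have := δ.holK q' t.1
      change DifferentiableAt ℂ (fun s : P2 => P₀ q' + s 1 * P₁ q' + δ.K s q') t.1
      exact DifferentiableAt.add (by fun_prop) this
    · have cc : Continuous fun p : D × S.Y => (c.j p.2, p.1) :=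
        (c.j_emb.continuous.comp continuous_snd).prodMk continuous_fst
      filter_upwards [cc.continuousAt.preimage_mem_nhds (ch.open_source.mem_nhds hq)] with p hp
      obtain ⟨y, -, e, e'⟩ := hch _ hp
      obtain rfl : y = p.2 := c.j_emb.injective e
      rw [e']
    · rw [one_mul]
      change d1 (fun y => P₀ y + t.1 1 * P₁ y + δ.K t.1 y) q' = _
      rw [e3.1, e2.1, e1.1, e4.1, (hP q' hq').2.1, (hP q' hq').2.2.2]
      ring
    · rw [one_mul]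
      change d2 (fun y => P₀ y + t.1 1 * P₁ y + δ.K t.1 y) q' = _
      rw [e3.2, e2.2, e1.2, e4.2, d0.2, d1'.2]
      ring
  · obtain ⟨q, -, e, -⟩ := hch _ hp
    exact c.ne q i e

/-- the charts at the ends -/
theorem Defo.X2_end (δ : S.Defo a D) (c : S.Cpt) (i : Fin n) :
    ∃ ch : OpenPartialHomeomorph (c.M × D) (ℂ × D), (∀ t, (c.pt i, t) ∈ ch.source) ∧
      δ.X2Reg c ch (fun w => δ.Φ i (w.1, w.2.1)) ∧ (∀ i' t, (c.pt i', t) ∈ ch.source → i' = i) ∧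
      (∀ t, (ch (c.pt i, t)).1 = 0) ∧ ∀ w ∈ ch.target, w.1 ∈ ball (0 : ℂ) δ.r := by
  have hpt : c.pt i ∈ (c.e i).source := by
    rw [c.e_source]
    exact Or.inr rfl
  let e := (c.e i).restrOpen _ ((c.e i).isOpen_inter_preimage (isOpen_ball (x := 0) (ε := δ.r)))
  have es : ∀ m, m ∈ e.source ↔ m ∈ (c.e i).source ∧ c.e i m ∈ ball 0 δ.r := fun m => by
    simp [e]
  have key : ∀ q, c.j q ∈ e.source → q ∈ S.End i δ.r ∧ c.e i (c.j q) = S.e i q := fun q hq => by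
    obtain ⟨h1, h2⟩ := (es _).1 hq
    rw [c.e_source] at h1
    obtain ⟨y, hy, e'⟩ | h1 := h1
    · obtain rfl : y = q := c.j_emb.injective e'
      rw [c.e_j i y hy, mem_ball_zero_iff] at h2
      exact ⟨⟨hy, h2⟩, c.e_j i y hy⟩
    · exact (c.ne q i h1).elim
  refine ⟨e.prod (OpenPartialHomeomorph.refl D), fun t => ⟨(es _).2 ⟨hpt, ?_⟩, trivial⟩,
    ⟨fun p _ => rfl, fun q t hq => ?_⟩, fun i' t h => ?_, fun t => c.e_pt i, fun w hw => ?_⟩
  · rw [c.e_pt]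
    exact mem_ball_self δ.r_pos
  · obtain ⟨k1, k2⟩ := key q hq.1
    have hh := (coord_hol (S.e_hol i)).1
    have c0 : CkAt 2 (S.e i) q :=
      ckAt_of_hol (Filter.eventually_of_mem ((S.e i).open_source.mem_nhds k1.1)
        fun x hx => (hh x hx).1) 2
    obtain ⟨b1, b2⟩ := δ.endK i t.1 t.2 q k1
    refine ⟨fun p => S.e i p.2, ContMDiffAt.comp (g := S.e i) (f := Prod.snd) _ c0 contMDiffAt_snd,
      differentiableAt_const (S.e i q), ?_, ?_, ?_⟩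
    · filter_upwards [(c.j_emb.continuous.comp continuous_snd).continuousAt.preimage_mem_nhds
        (e.open_source.mem_nhds hq.1)] with p hp
      exact (key p.2 hp).2
    · change δ.Φ i (c.e i (c.j q), t.1) * d1 (S.e i) q = _
      rw [k2, b2]
    · change δ.Φ i (c.e i (c.j q), t.1) * d2 (S.e i) q = _
      rw [b1, (d2_of_hol (hh q k1.1).1).2, mul_zero]
  · have h1 := ((es _).1 h.1).1
    rw [c.e_source] at h1
    obtain ⟨y, -, e'⟩ | h1 := h1
    · exact (c.ne y i' e').elim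
    · exact c.pt_inj h1
  · have h1 := ((es _).1 (e.map_target hw.1)).2
    have h2 : c.e i (e.symm w.1) = w.1 := e.right_inv hw.1
    rwa [h2] at h1

end Flat

end Pool.Agent.MP_e62289_ag

end

section

open Set Filter Topology Complex MeasureTheory Metric
open scoped Manifold ContDiff ComplexConjugate NNReal ENNReal

namespace Pool.Agent.MP_e62289_ag

namespace Flat

variable {n : ℕ} {S : Flat n} {a : Fin n → ℕ} {D : TopologicalSpace.Opens P2}

/-- the atlas of the total space -/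
theorem Defo.X2_atlas (δ : S.Defo a D) (c : S.Cpt) :
    ∃ (ch : c.M × D → OpenPartialHomeomorph (c.M × D) (ℂ × D)) (f : c.M × D → ℂ × D → ℂ),
      (∀ x, x ∈ (ch x).source) ∧ (∀ x, δ.X2Reg c (ch x) (f x)) ∧
      (∀ x, MDifferentiableOn (𝓘(ℂ, ℂ).prod 𝓘(ℂ, P2)) 𝓘(ℂ, ℂ) (f x) (ch x).target) ∧
      (∀ x y i t, (c.pt i, t) ∈ (ch x).source → (c.pt i, t) ∈ (ch y).source →
        ch x = ch y ∧ f x = f y) ∧
      (∀ x i t, (c.pt i, t) ∈ (ch x).source → (ch x (c.pt i, t)).1 = 0) ∧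
      ∀ x, analyticOrderAt (fun z => f x (z, x.2)) (ch x x).1 =
        ((∑ᶠ (i) (_ : (c.pt i, x.2) = x), (a i - 1) : ℕ) : ℕ∞) := by
  classical
  choose E e1 e2 e3 e4 e5 using δ.X2_end c
  have key : ∀ x : c.M × D, ∃ (ch : OpenPartialHomeomorph (c.M × D) (ℂ × D)) (f : ℂ × D → ℂ),
      x ∈ ch.source ∧ δ.X2Reg c ch f ∧
      ((∃ i, x.1 = c.pt i ∧ ch = E i ∧ f = fun w => δ.Φ i (w.1, w.2.1)) ∨
        ((∀ i t, (c.pt i, t) ∉ ch.source) ∧ f = fun _ => 1)) := by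
    rintro ⟨m, t⟩
    obtain ⟨q, rfl⟩ | ⟨i, rfl⟩ := c.cover m
    · obtain ⟨ch, h1, h2, h3⟩ := δ.X2_reg c q t
      exact ⟨ch, _, h1, h2, Or.inr ⟨h3, rfl⟩⟩
    · exact ⟨E i, _, e1 i t, e2 i, Or.inl ⟨i, rfl, rfl, rfl⟩⟩
  choose ch f h1 h2 h3 using key
  have h4 : ∀ x i t, (c.pt i, t) ∈ (ch x).source →
      ch x = E i ∧ f x = fun w => δ.Φ i (w.1, w.2.1) := fun x i t h => by
    obtain ⟨i', -, b1, b2⟩ | ⟨b1, -⟩ := h3 x
    · obtain rfl : i = i' := e3 i' i t (b1 ▸ h)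
      exact ⟨b1, b2⟩
    · exact (b1 i t h).elim
  refine ⟨ch, f, h1, h2, fun x => ?_, fun x y i t hx hy => ?_, fun x i t hx => ?_, fun x => ?_⟩
  · obtain ⟨i, -, b1, b2⟩ | ⟨-, b2⟩ := h3 x
    · rw [b1, b2]
      intro w hw
      exact (X2_mdiff ((δ.holΦ i).differentiableAt ((isOpen_ball.prod D.isOpen).mem_nhds
        ⟨e5 i w hw, w.2.2⟩))).mdifferentiableWithinAt
    · rw [b2]
      exact mdifferentiableOn_const
  · exact ⟨(h4 x i t hx).1.trans (h4 y i t hy).1.symm, (h4 x i t hx).2.trans (h4 y i t hy).2.symm⟩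
  · rw [(h4 x i t hx).1, e4]
  · obtain ⟨i, b0, b1, b2⟩ | ⟨b1, b2⟩ := h3 x
    · obtain ⟨m, t⟩ := x
      obtain rfl : m = c.pt i := b0
      rw [b1, b2, e4, finsum_eq_single _ i, finsum_eq_if, if_pos rfl]
      · exact δ.ord i t.1 t.2
      · intro i' hi'
        rw [finsum_eq_if, if_neg]
        exact fun h => hi' (c.pt_inj (congrArg Prod.fst h))
    · rw [b2, finsum_eq_zero_of_forall_eq_zero]
      · exact analyticOrderAt_eq_zero.2 (Or.inr one_ne_zero)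
      · intro i
        rw [finsum_eq_if, if_neg]
        exact fun h => b1 i x.2 (h ▸ h1 x)

/-- the tautological marking -/
theorem Defo.X2_mark (δ : S.Defo a D) (C : Family P2 D a) (J : D × S.Y → C.X) (hJ : IsEmbedding J)
    (j1 : ∀ t q, C.proj (J (t, q)) = t) (j2 : ∀ t q i, J (t, q) ≠ C.sec i t)
    (j3 : ∀ x, (∀ i, x ≠ C.sec i (C.proj x)) → ∃ q, J (C.proj x, q) = x)
    (j4 : ∀ t q, ∃ (Z : S.Y → ℂ) (l : ℂ), CkAt 2 Z q ∧
      (fun y => (C.chart (J (t, q)) (J (t, y))).1) =ᶠ[𝓝 q] Z ∧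
      l * d1 Z q = δ.g₀ q + t.1 1 * δ.g₁ q + d1 (δ.K t.1) q ∧ l * d2 Z q = d2 (δ.K t.1) q) :
    ∃ M : C.MFam S.Y fun t => t, (∀ t : D, bel (M.G t).φ = δ.mu t) ∧
      ∀ t q, ((M.G t).φ q).1 = J (t, q) := by
  let G : ∀ t : D, S.Y → C.Fib t := fun t q => ⟨J (t, q), j1 t q, j2 t q⟩
  have hG : ∀ t q, ContMDiffAt 𝓘(ℝ, ℂ) 𝓘(ℝ, ℂ) 2 (G t) q ∧ ∃ l : ℂ,
      l * d1 (G t) q = δ.g₀ q + t.1 1 * δ.g₁ q + d1 (δ.K t.1) q ∧
      l * d2 (G t) q = d2 (δ.K t.1) q := fun t q => by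
    obtain ⟨Z, l', ck, ev, z4, z5⟩ := j4 t q
    have cG : Continuous (G t) := (hJ.continuous.comp (Continuous.prodMk_right t)).subtype_mk _
    obtain ⟨b1, l, -, b2, b3⟩ := C.contMDiffAt_fib (G := G t) (q := q) (x := J (t, q))
      cG.continuousAt (C.mem_source _) (ck.congr_of_eventuallyEq ev)
    rw [(d_congr ev).1] at b2
    rw [(d_congr ev).2] at b3
    refine ⟨b1, l' * l, ?_, ?_⟩
    · rw [mul_assoc, ← b2, z4]
    · rw [mul_assoc, ← b3, z5]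
  have hA : ∀ (t : D) q, δ.g₀ q + t.1 1 * δ.g₁ q + d1 (δ.K t.1) q ≠ 0 := fun t q =>
    norm_pos_iff.1 ((norm_nonneg _).trans_lt (δ.pos t.1 t.2 q))
  have hconf : ∀ t q, q ∉ S.core δ.r → d2 (G t) q = 0 := fun t q hq => by
    obtain ⟨-, l, b1, b2⟩ := hG t q
    obtain ⟨i, hi⟩ := not_forall.1 hq
    obtain ⟨hi, hi'⟩ := Classical.not_imp.1 hi
    rw [(δ.endK i t.1 t.2 q ⟨hi, not_le.1 hi'⟩).1] at b2
    exact (mul_eq_zero.1 b2).resolve_left fun e => hA t q (by rw [← b1, e, zero_mul])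
  have hK : IsCompact (S.core δ.r) := S.e_compact δ.r δ.r_pos
  have hAdm : ∀ t, ∃ A : Adm S.Y (C.Fib t), ⇑A.φ = G t := fun t => by
    refine Adm.exists_of_bij ⟨fun q q' h => ?_, ?_⟩ (fun q => (hG t q).1) (fun q => ?_)
      ⟨_, hK, hconf t⟩
    · exact congrArg Prod.snd (hJ.injective (congrArg Subtype.val h))
    · rintro ⟨x, rfl, hm⟩
      obtain ⟨q, hq⟩ := j3 x hm
      exact ⟨q, Subtype.ext hq⟩
    · obtain ⟨-, l, b1, b2⟩ := hG t q
      have hpos := δ.pos t.1 t.2 q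
      rw [← b1, ← b2, norm_mul, norm_mul] at hpos
      exact lt_of_mul_lt_mul_left hpos (norm_nonneg _)
  choose A hAG using hAdm
  refine ⟨⟨A, ?_, ?_, _, hK, fun t q hq => ?_⟩, fun t => ?_, fun t q => ?_⟩
  · simp only [hAG]
    exact hJ.continuous
  · have h1 : Continuous fun p : C.Tot fun t => t => (p.1.1, (A p.1.1).φ.symm ⟨p.1.2, p.2⟩) := by
      refine hJ.isInducing.continuous_iff.2 ?_
      have : (J ∘ fun p : C.Tot fun t => t => (p.1.1, (A p.1.1).φ.symm ⟨p.1.2, p.2⟩)) =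
          fun p => p.1.2 := by
        funext p
        have := (A p.1.1).φ.apply_symm_apply ⟨p.1.2, p.2⟩
        rw [hAG] at this
        exact congrArg Subtype.val this
      rw [this]
      exact continuous_snd.comp continuous_subtype_val
    exact h1.snd
  · rw [hAG]
    exact hconf t q hq
  · funext q
    change bel (A t).φ q = _
    obtain ⟨-, l, b1, b2⟩ := hG t q
    have hl : l ≠ 0 := fun e => hA t q (by rw [← b1, e, zero_mul])
    rw [hAG, bel, Defo.mu, ← b1, ← b2, mul_div_mul_left _ _ hl]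
  · change ((A t).φ q).1 = _
    rw [hAG]

/-- the family defined by a deformation, with its tautological marking -/
theorem Defo.build (δ : S.Defo a D) : ∃ (C : Family P2 D a) (M : C.MFam S.Y fun t => t),
    (∀ t : D, bel (M.G t).φ = δ.mu t) ∧
    ∀ i t, Tendsto (fun q => ((M.G t).φ q).1) (S.endF i) (𝓝 (C.sec i t)) := by
  obtain ⟨c⟩ := S.exists_cpt
  obtain ⟨ch, f, h1, h2, h3, h4, h5, h6⟩ := δ.X2_atlas c
  have tr : ∀ x y, ∀ p ∈ (ch x).source, p ∈ (ch y).source →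
      MDifferentiableAt (𝓘(ℂ, ℂ).prod 𝓘(ℂ, P2)) 𝓘(ℂ, ℂ) (fun w => (ch y ((ch x).symm w)).1)
        (ch x p) ∧
      f x (ch x p) = f y (ch y p) * deriv (fun z => (ch y ((ch x).symm (z, p.2))).1) (ch x p).1 := by
    rintro x y ⟨m, t⟩ hx hy
    obtain ⟨q, rfl⟩ | ⟨i, rfl⟩ := c.cover m
    · exact δ.X2_trans c (h2 x) (h2 y) hx hy
    · obtain ⟨b1, b2⟩ := h4 x y i t hx hy
      rw [← b1, ← b2]
      have ev : (fun w => (ch x ((ch x).symm w)).1) =ᶠ[𝓝 (ch x (c.pt i, t))] Prod.fst := by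
        filter_upwards [(ch x).open_target.mem_nhds ((ch x).map_source hx)] with w hw
        rw [(ch x).right_inv hw]
      refine ⟨mdifferentiableAt_fst.congr_of_eventuallyEq ev, ?_⟩
      have hw : ((ch x (c.pt i, t)).1, t) = ch x (c.pt i, t) :=
        Prod.ext rfl ((h2 x).1 _ hx).symm
      rw [← hw] at ev
      have ev2 : (fun z => (ch x ((ch x).symm (z, t))).1) =ᶠ[𝓝 (ch x (c.pt i, t)).1] id :=
        (Continuous.prodMk_left t).continuousAt.eventually ev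
      rw [ev2.deriv_eq, deriv_id, mul_one]
  let C : Family P2 D a :=
    { X := c.M × D
      proj := Prod.snd
      proper := isProperMap_snd_of_compactSpace
      conn := fun t => by
        have : (Prod.snd ⁻¹' {t} : Set (c.M × D)) = range fun m => (m, t) := by
          ext ⟨m, s⟩
          simp [eq_comm]
        rw [this]
        exact isConnected_range (Continuous.prodMk_left t)
      chart := ch
      mem_source := h1
      snd_chart := fun x => (h2 x).1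
      hol_chart := fun x y w hw => by
        have := (tr x y _ ((ch x).map_target hw.1) hw.2).1
        rw [(ch x).right_inv hw.1] at this
        exact this.mdifferentiableWithinAt
      sec := fun i t => (c.pt i, t)
      cont_sec := fun i => Continuous.prodMk_right _
      proj_sec := fun _ _ => rfl
      inj_sec := fun t i i' h => c.pt_inj (congrArg Prod.fst h)
      hol_sec := fun i x => (mdifferentiableOn_const (c := (0 : ℂ))).congr fun t ht => h5 x i t ht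
      form := fun t => ⟨univ, isOpen_univ, trivial, f, fun x => (h3 x).mono inter_subset_left,
        fun x y p hp _ => (tr x y p hp.1 hp.2).2, fun x _ => h6 x⟩ }
  have hJ : IsEmbedding fun p : D × S.Y => (c.j p.2, p.1) :=
    (Homeomorph.prodComm D c.M).isEmbedding.comp (IsEmbedding.id.prodMap c.j_emb.isEmbedding)
  obtain ⟨M, m1, m2⟩ := δ.X2_mark C (fun p => (c.j p.2, p.1)) hJ (fun _ _ => rfl)
    (fun t q i h => c.ne q i (congrArg Prod.fst h)) (by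
      rintro ⟨m, s⟩ hm
      obtain ⟨q, rfl⟩ | ⟨i, rfl⟩ := c.cover m
      · exact ⟨q, rfl⟩
      · exact (hm i rfl).elim) (fun t q => by
      obtain ⟨Z, z1, -, z3, z4, z5⟩ := (h2 (c.j q, t)).2 q t (h1 _)
      exact ⟨fun y => Z (t.1, y), _, ContMDiffAt.comp (g := Z) (f := fun y => (t.1, y)) q z1
        (contMDiffAt_const.prodMk contMDiffAt_id),
        (Continuous.prodMk_right t).continuousAt.eventually z3, z4, z5⟩)
  refine ⟨C, M, m1, fun i t => ?_⟩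
  simp only [m2]
  refine Tendsto.prodMk_nhds ?_ tendsto_const_nhds
  have hpt : c.pt i ∈ (c.e i).source := by
    rw [c.e_source]
    exact Or.inr rfl
  have b1 := (c.e i).continuousAt_symm ((c.e i).map_source hpt)
  rw [ContinuousAt, (c.e i).left_inv hpt, c.e_pt] at b1
  have b2 : Tendsto (S.e i) (S.endF i) (𝓝 0) := tendsto_comap.mono_left inf_le_left
  refine (b1.comp b2).congr' ?_
  filter_upwards [mem_inf_of_right (mem_principal_self (S.e i).source)] with q hq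
  rw [Function.comp_apply, ← c.e_j i q hq, (c.e i).left_inv]
  rw [c.e_source]
  exact Or.inl (mem_image_of_mem _ hq)

end Flat

end Pool.Agent.MP_e62289_ag

end

section

open Set Filter Topology Complex MeasureTheory Metric
open scoped Manifold ContDiff ComplexConjugate NNReal ENNReal

namespace Pool.Agent.MP_e62289_ag

/-- a half of the punctured plane -/
def X4aP : Set ℂ := {w | 0 < w.re ∨ (w.re = 0 ∧ 0 < w.im)}

theorem X4a_meas : MeasurableSet X4aP :=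
  (measurableSet_lt measurable_const measurable_re).union
    ((measurableSet_eq_fun measurable_re measurable_const).inter
      (measurableSet_lt measurable_const measurable_im))

theorem X4a_not {w : ℂ} (h : w ∈ X4aP) : -w ∉ X4aP := by
  simp only [X4aP, mem_ofPred_eq, neg_re, neg_im] at h ⊢
  rintro (a | ⟨a, b⟩) <;> rcases h with h | ⟨h, h'⟩ <;> linarith

theorem X4a_or {w : ℂ} (h : w ≠ 0) : w ∈ X4aP ∨ -w ∈ X4aP := by
  simp only [X4aP, mem_ofPred_eq, neg_re, neg_im]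
  rcases lt_trichotomy w.re 0 with a | a | a
  · exact Or.inr (Or.inl (by linarith))
  · rcases lt_trichotomy w.im 0 with b | b | b
    · exact Or.inr (Or.inr ⟨by linarith, by linarith⟩)
    · exact absurd (Complex.ext a b) h
    · exact Or.inl (Or.inr ⟨a, b⟩)
  · exact Or.inl (Or.inl a)

theorem X4a_fin {n : ℕ} (hn : 0 < n) (c : ℂ) : {z : ℂ | z ^ n = c}.Finite :=
  (Polynomial.nthRoots n c).finite_toSet.subset fun _ hz => (Polynomial.mem_nthRoots hn).2 hz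

theorem X4a_sheet {s : ℝ} (H : Hyp s) (g : ℂ → ℝ≥0∞) {ε : ℂ} (hε : ε ^ 2 = 1) :
    ∫⁻ q in {q | ε * H.y q ∈ X4aP}, ‖H.y q‖ₑ ^ 2 * g (H.x q) ∂H.S.lam = ∫⁻ z, g z := by
  have hA : MeasurableSet {q | ε * H.y q ∈ X4aP} :=
    (H.y_hol.continuous.measurable.const_mul ε) X4a_meas
  have hi : InjOn H.x {q | ε * H.y q ∈ X4aP} := fun q hq q' hq' e => by
    have h2 : H.y q ^ 2 = H.y q' ^ 2 := by rw [H.eqn, H.eqn, e]
    rcases sq_eq_sq_iff_eq_or_eq_neg.1 h2 with h | h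
    · exact H.inj (Prod.ext e h)
    · refine absurd hq ?_
      have := X4a_not hq'
      rwa [mem_ofPred_eq, h, mul_neg]
  have hc := H.S.cov_plane hA (fun q _ => (d2_of_hol (H.x_hol q)).1) hi g
  have hf : (H.x '' {q | ε * H.y q ∈ X4aP})ᶜ.Finite := by
    refine ((((X4a_fin (n := 4) (by norm_num) ((s : ℂ) ^ 4)).union
      (X4a_fin (n := 4) (by norm_num) ((s : ℂ) ^ 4)⁻¹)).union (X4a_fin one_pos 0)).union
      (X4a_fin two_pos (-1))).subset fun z hz => ?_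
    by_contra hn
    simp only [mem_union, mem_ofPred_eq, not_or, pow_one] at hn
    obtain ⟨⟨⟨n1, n2⟩, n3⟩, n4⟩ := hn
    have hP : PP s z ≠ 0 := mul_ne_zero (sub_ne_zero.2 n1) fun e =>
      n2 (eq_inv_of_mul_eq_one_right (sub_eq_zero.1 e).symm)
    obtain ⟨w, hw⟩ := IsAlgClosed.exists_pow_nat_eq (PP s z) two_pos
    have hw0 : w ≠ 0 := by
      rintro rfl
      exact hP (by rw [← hw]; simp)
    have key : ∀ w : ℂ, w ^ 2 = PP s z → w ∉ X4aP := fun w hw hP => by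
      obtain ⟨q, h1, h2⟩ := H.surj z (ε * w) (by rw [mul_pow, hε, one_mul, hw]) n3
        fun e => n4 (eq_neg_of_add_eq_zero_left e)
      refine hz ⟨q, ?_, h1⟩
      rwa [mem_ofPred_eq, h2, ← mul_assoc, ← sq, hε, one_mul]
    rcases X4a_or hw0 with h | h
    · exact key w hw h
    · exact key (-w) (by rw [neg_sq, hw]) h
  rw [Measure.restrict_eq_self_of_ae_mem (s := H.x '' {q | ε * H.y q ∈ X4aP})
    (hf.measure_zero volume)] at hc
  rw [hc]
  refine lintegral_congr fun q => ?_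
  rw [H.d1x, (d2_of_hol (H.x_hol q)).2, norm_zero, zero_pow two_ne_zero, sub_zero,
    abs_of_nonneg (sq_nonneg _), ENNReal.ofReal_pow (norm_nonneg _), ofReal_norm]

/-- integration over the two sheets -/
theorem Hyp.lintegral_x {s : ℝ} (H : Hyp s) (h0 : 0 < s) {g : ℂ → ℝ≥0∞} (hg : Measurable g) :
    ∫⁻ q, ‖H.y q‖ₑ ^ 2 * g (H.x q) ∂H.S.lam = 2 * ∫⁻ z, g z := by
  have hA : ∀ ε : ℂ, MeasurableSet {q | ε * H.y q ∈ X4aP} := fun ε =>
    (H.y_hol.continuous.measurable.const_mul ε) X4a_meas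
  have hm : Measurable fun q => ‖H.y q‖ₑ ^ 2 * g (H.x q) :=
    (H.y_hol.continuous.measurable.enorm.pow_const 2).mul (hg.comp H.x_hol.continuous.measurable)
  rw [two_mul]
  nth_rw 1 [← X4a_sheet H g (ε := 1) (by simp)]
  rw [← X4a_sheet H g (ε := -1) (by simp), ← lintegral_indicator (hA _),
    ← lintegral_indicator (hA _), ← lintegral_add_left (hm.indicator (hA _))]
  refine lintegral_congr fun q => ?_
  by_cases hy : H.y q = 0
  · simp [indicator, hy]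
  · rcases X4a_or hy with h | h
    · rw [indicator_of_mem (by simpa using h), indicator_of_notMem (by simpa using X4a_not h),
        add_zero]
    · rw [indicator_of_notMem (by simpa using X4a_not h), indicator_of_mem (by simpa using h),
        zero_add]

end Pool.Agent.MP_e62289_ag

end

section

open Set Filter Topology Complex MeasureTheory Metric
open scoped Manifold ContDiff ComplexConjugate NNReal ENNReal

namespace Pool.Agent.MP_e62289_ag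

/-- an integrable majorant -/
noncomputable def x4bG (w : ℂ) : ℝ := 1 / (‖w‖ * (1 + ‖w‖) ^ 2)

/-- four translates of the majorant -/
noncomputable def x4bH (c z : ℂ) : ℝ :=
  x4bG (z - c) + x4bG (z + c) + x4bG (z - I * c) + x4bG (z + I * c)

lemma x4bG_nonneg (w : ℂ) : 0 ≤ x4bG w := by unfold x4bG; positivity

lemma x4bH_nonneg (c z : ℂ) : 0 ≤ x4bH c z :=
  add_nonneg (add_nonneg (add_nonneg (x4bG_nonneg _) (x4bG_nonneg _)) (x4bG_nonneg _))
    (x4bG_nonneg _)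

lemma x4bG_int : Integrable x4bG := by
  have hm : AEStronglyMeasurable x4bG volume :=
    Measurable.aestronglyMeasurable (by unfold x4bG; fun_prop)
  rw [← integrableOn_univ, ← union_compl_self (ball (0 : ℂ) 1)]
  refine IntegrableOn.union ?_ ?_
  · refine integrableOn_ball_of_norm_le_rpow (C := 1) (α := 1) (by simp) (by simp)
      (Eventually.of_forall fun w => ?_) hm
    rw [Real.norm_of_nonneg (x4bG_nonneg w), Real.rpow_neg_one, one_mul, x4bG, one_div]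
    rcases (norm_nonneg w).eq_or_lt with h | h
    · simp [← h]
    · exact inv_anti₀ h (le_mul_of_one_le_right h.le (one_le_pow₀ (by linarith)))
  · refine Integrable.mono' ((integrable_one_add_norm (E := ℂ) (r := 3)
      (by simp; norm_num)).const_mul 2).integrableOn hm.restrict
      ((ae_restrict_iff' measurableSet_ball.compl).2 (Eventually.of_forall fun w hw => ?_))
    have h : 1 ≤ ‖w‖ := by simpa using hw
    rw [Real.norm_of_nonneg (x4bG_nonneg w), Real.rpow_neg (by positivity), x4bG,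
      show (3 : ℝ) = (3 : ℕ) by norm_num, Real.rpow_natCast, ← div_eq_mul_inv,
      div_le_div_iff₀ (by positivity) (by positivity)]
    nlinarith [sq_nonneg (1 + ‖w‖)]

lemma x4bH_int (c : ℂ) : Integrable (x4bH c) :=
  (((x4bG_int.comp_sub_right c).add (x4bG_int.comp_add_right c)).add
    (x4bG_int.comp_sub_right _)).add (x4bG_int.comp_add_right _)

lemma x4bH_eq (c : ℂ) : ∫ z, x4bH c z = 4 * ∫ z, x4bG z := by
  have a1 := x4bG_int.comp_sub_right c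
  have a2 := x4bG_int.comp_add_right c
  have a3 := x4bG_int.comp_sub_right (I * c)
  have a4 := x4bG_int.comp_add_right (I * c)
  show ∫ z, ((fun z => x4bG (z - c)) + (fun z => x4bG (z + c)) + (fun z => x4bG (z - I * c)) +
    fun z => x4bG (z + I * c)) z = _
  rw [integral_add' ((a1.add a2).add a3) a4, integral_add' (a1.add a2) a3, integral_add' a1 a2,
    integral_sub_right_eq_self, integral_sub_right_eq_self, integral_add_right_eq_self,
    integral_add_right_eq_self]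
  ring

lemma x4b_near {w : ℂ} (h : ‖w‖ ≤ 3) : ‖w‖⁻¹ ≤ 16 * x4bG w := by
  rcases (norm_nonneg w).eq_or_lt with h0 | h0
  · rw [← h0, inv_zero]
    exact mul_nonneg (by norm_num) (x4bG_nonneg w)
  · rw [x4bG, mul_one_div, ← one_div, div_le_div_iff₀ h0 (by positivity)]
    have : (1 + ‖w‖) ^ 2 ≤ 16 := by nlinarith
    nlinarith

lemma x4b_far {w : ℂ} (h : 1 ≤ ‖w‖) : 1 / ‖w‖ ^ 3 ≤ x4bH 0 w := by
  simp only [x4bH, x4bG, mul_zero, sub_zero, add_zero]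
  have : 1 / (4 * ‖w‖ ^ 3) ≤ 1 / (‖w‖ * (1 + ‖w‖) ^ 2) := by
    refine one_div_le_one_div_of_le (by positivity) ?_
    have : (1 + ‖w‖) ^ 2 ≤ 4 * ‖w‖ ^ 2 := by nlinarith
    nlinarith
  have e : 1 / ‖w‖ ^ 3 = 4 * (1 / (4 * ‖w‖ ^ 3)) := by field_simp
  linarith

lemma x4b_pf4 {z c : ℂ} (hz : ‖z‖ ≤ 2) (hc : ‖c‖ ≤ 1) :
    ‖z‖ ^ 3 / ‖z ^ 4 - c ^ 4‖ ≤ 4 * x4bH c z := by
  rcases eq_or_ne (z ^ 4 - c ^ 4) 0 with h | h
  · rw [h, norm_zero, div_zero]
    exact mul_nonneg (by norm_num) (x4bH_nonneg c z)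
  have e : z ^ 4 - c ^ 4 = (z - c) * (z + c) * (z - I * c) * (z + I * c) := by
    linear_combination (c ^ 2 * (z ^ 2 - c ^ 2)) * I_sq
  have h' := h
  simp only [e, mul_ne_zero_iff] at h'
  obtain ⟨⟨⟨h1, h2⟩, h3⟩, h4⟩ := h'
  have e2 : 4 * (z ^ 3 / (z ^ 4 - c ^ 4)) =
      (z - c)⁻¹ + (z + c)⁻¹ + (z - I * c)⁻¹ + (z + I * c)⁻¹ := by
    rw [inv_add_inv h1 h2, add_assoc, inv_add_inv h3 h4,
      div_add_div _ _ (mul_ne_zero h1 h2) (mul_ne_zero h3 h4),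
      ← mul_assoc ((z - c) * (z + c)), ← e, ← mul_div_assoc]
    congr 1
    linear_combination (2 * z * c ^ 2) * I_sq
  have e3 := congrArg norm e2
  rw [norm_mul, norm_div, norm_pow, Complex.norm_ofNat] at e3
  have hI : ‖I * c‖ ≤ 1 := by simpa using hc
  have a1 := x4b_near (w := z - c) ((norm_sub_le _ _).trans (by linarith))
  have a2 := x4b_near (w := z + c) ((norm_add_le _ _).trans (by linarith))
  have a3 := x4b_near (w := z - I * c) ((norm_sub_le _ _).trans (by linarith))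
  have a4 := x4b_near (w := z + I * c) ((norm_add_le _ _).trans (by linarith))
  have b := norm_add₄_le (a := (z - c)⁻¹) (b := (z + c)⁻¹) (c := (z - I * c)⁻¹) (d := (z + I * c)⁻¹)
  simp only [norm_inv] at b
  unfold x4bH
  linarith

lemma x4b_pf2 {z : ℂ} (hz : ‖z‖ ≤ 2) : 1 / ‖z ^ 2 + 1‖ ≤ 8 * x4bH 1 z := by
  rcases eq_or_ne (z ^ 2 + 1) 0 with h | h
  · rw [h, norm_zero, div_zero]
    exact mul_nonneg (by norm_num) (x4bH_nonneg 1 z)
  have e : z ^ 2 + 1 = (z - I) * (z + I) := by linear_combination I_sq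
  have h' := h
  simp only [e, mul_ne_zero_iff] at h'
  obtain ⟨h1, h2⟩ := h'
  have e2 : 2 * I * (1 / (z ^ 2 + 1)) = (z - I)⁻¹ - (z + I)⁻¹ := by
    rw [e]
    field_simp
    ring
  have e3 := congrArg norm e2
  rw [norm_mul, norm_mul, norm_div, norm_one, norm_I, Complex.norm_ofNat] at e3
  have a3 := x4b_near (w := z - I) ((norm_sub_le _ _).trans (by rw [norm_I]; linarith))
  have a4 := x4b_near (w := z + I) ((norm_add_le _ _).trans (by rw [norm_I]; linarith))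
  have b := norm_sub_le (z - I)⁻¹ (z + I)⁻¹
  simp only [norm_inv] at b
  simp only [x4bH, mul_one]
  linarith [x4bG_nonneg (z - 1), x4bG_nonneg (z + 1)]

lemma x4b_pf3 {z : ℂ} (hz : ‖z‖ ≤ 2) :
    ‖1 / (z * (z ^ 2 + 1))‖ ≤ 4 * x4bH 0 z + 8 * x4bH 1 z := by
  rcases eq_or_ne (z * (z ^ 2 + 1)) 0 with h | h
  · rw [h, div_zero, norm_zero]
    linarith [x4bH_nonneg 0 z, x4bH_nonneg 1 z]
  have e : z ^ 2 + 1 = (z - I) * (z + I) := by linear_combination I_sq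
  have h' := h
  simp only [e, mul_ne_zero_iff] at h'
  obtain ⟨h0, h1, h2⟩ := h'
  have e2 : 2 * (1 / (z * (z ^ 2 + 1))) = 2 * z⁻¹ - (z - I)⁻¹ - (z + I)⁻¹ := by
    rw [e]
    field_simp
    linear_combination 2 * I_sq
  have e3 := congrArg norm e2
  rw [norm_mul, Complex.norm_ofNat] at e3
  have a1 := x4b_near (w := z) (by linarith)
  have a3 := x4b_near (w := z - I) ((norm_sub_le _ _).trans (by rw [norm_I]; linarith))
  have a4 := x4b_near (w := z + I) ((norm_add_le _ _).trans (by rw [norm_I]; linarith))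
  have b1 := norm_sub_le (2 * z⁻¹ - (z - I)⁻¹) (z + I)⁻¹
  have b2 := norm_sub_le (2 * z⁻¹) (z - I)⁻¹
  simp only [norm_inv, norm_mul, Complex.norm_ofNat] at b1 b2
  simp only [x4bH, mul_one, mul_zero, sub_zero, add_zero]
  linarith [x4bG_nonneg (z - 1), x4bG_nonneg (z + 1)]

lemma x4b_div {x B D H m : ℝ} (hx : 0 ≤ x) (hB : 0 ≤ B) (h : x / B ≤ H) (hm : 0 < m)
    (hD : m ≤ D) : x / (B * D) ≤ H / m := by
  rw [← div_div]
  exact div_le_div₀ ((div_nonneg hx hB).trans h) h hm hD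

lemma x4b_bound {f : ℂ → ℂ} {F : ℂ → ℝ} (hF : Integrable F) (h : ∀ z, ‖f z‖ ≤ F z) :
    ∫⁻ z : ℂ, ‖f z‖ₑ ≤ ENNReal.ofReal (∫ z, F z) := by
  rw [ofReal_integral_eq_lintegral_ofReal hF
    (Eventually.of_forall fun z => (norm_nonneg _).trans (h z))]
  refine lintegral_mono fun z => ?_
  rw [← ofReal_norm]
  exact ENNReal.ofReal_le_ofReal (h z)

lemma x4b_pt {s : ℝ} (h0 : 0 < s) (h1 : s < 1 / 2) (z : ℂ) :
    ‖z ^ 3 / ((z ^ 2 + 1) * PP s z)‖ ≤
      512 * (x4bH s z + x4bH 1 z + x4bH 0 z + s ^ 2 * x4bH 1 (s • z)) := by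
  have p1 := x4bH_nonneg s z
  have p2 := x4bH_nonneg 1 z
  have p3 := x4bH_nonneg 0 z
  have p4 := x4bH_nonneg 1 (s • z)
  have p5 : 0 ≤ s ^ 2 * x4bH 1 (s • z) := by positivity
  have hs : ‖(s : ℂ)‖ = s := by rw [Complex.norm_real, Real.norm_of_nonneg h0.le]
  have hu : ‖s • z‖ = s * ‖z‖ := by rw [norm_smul, Real.norm_of_nonneg h0.le]
  have hC : ‖1 - (s : ℂ) ^ 4 * z ^ 4‖ = ‖(s • z) ^ 4 - 1 ^ 4‖ := by
    rw [norm_sub_rev, real_smul, mul_pow, one_pow]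
  have A1 : 1 - ‖z‖ ^ 2 ≤ ‖z ^ 2 + 1‖ := by
    have := norm_sub_le (z ^ 2 + 1) (z ^ 2)
    rw [add_sub_cancel_left, norm_one, norm_pow] at this
    linarith
  have A2 : ‖z‖ ^ 2 - 1 ≤ ‖z ^ 2 + 1‖ := by
    have := norm_sub_le (z ^ 2 + 1) 1
    rw [add_sub_cancel_right, norm_one, norm_pow] at this
    linarith
  have B1 : ‖z‖ ^ 4 - s ^ 4 ≤ ‖z ^ 4 - (s : ℂ) ^ 4‖ := by
    have := norm_sub_norm_le (z ^ 4) ((s : ℂ) ^ 4)
    rwa [norm_pow, norm_pow, hs] at this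
  have C1 : 1 - (s * ‖z‖) ^ 4 ≤ ‖1 - (s : ℂ) ^ 4 * z ^ 4‖ := by
    have := norm_sub_norm_le 1 ((s : ℂ) ^ 4 * z ^ 4)
    rwa [norm_one, norm_mul, norm_pow, norm_pow, hs, ← mul_pow] at this
  have C2 : (s * ‖z‖) ^ 4 - 1 ≤ ‖1 - (s : ℂ) ^ 4 * z ^ 4‖ := by
    have := norm_sub_norm_le ((s : ℂ) ^ 4 * z ^ 4) 1
    rwa [norm_one, norm_mul, norm_pow, norm_pow, hs, ← mul_pow, norm_sub_rev] at this
  have q1 := x4b_pf4 (z := z) (c := s)
  have q2 := x4b_pf2 (z := z)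
  have q3 := x4b_far (w := z)
  have q4 := x4b_pf4 (z := s • z) (c := 1)
  rw [← hC, hu] at q4
  rw [PP, norm_div, norm_mul, norm_mul, norm_pow]
  have hr := norm_nonneg z
  have hA := norm_nonneg (z ^ 2 + 1)
  have hB := norm_nonneg (z ^ 4 - (s : ℂ) ^ 4)
  have hCn := norm_nonneg (1 - (s : ℂ) ^ 4 * z ^ 4)
  rw [hs] at q1
  rw [norm_one] at q4
  generalize ‖z ^ 2 + 1‖ = A at *
  generalize ‖z ^ 4 - (s : ℂ) ^ 4‖ = B at *
  generalize ‖1 - (s : ℂ) ^ 4 * z ^ 4‖ = C at *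
  generalize x4bH s z = H1 at *
  generalize x4bH 1 z = H2 at *
  generalize x4bH 0 z = H3 at *
  generalize x4bH 1 (s • z) = H4 at *
  clear hs hu hC
  generalize ‖z‖ = r at *
  have s4 : s ^ 4 ≤ (1 / 2) ^ 4 := pow_le_pow_left₀ h0.le h1.le 4
  have hsr : 0 ≤ s * r := by positivity
  have hC34 : s * r ≤ 3 / 4 → 1 / 2 ≤ C := fun h => by
    have := pow_le_pow_left₀ hsr h 4
    linarith
  rcases le_total r (3 / 4) with ha | ha
  · have c1 := hC34 (by nlinarith)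
    have c2 : 7 / 16 ≤ A := by nlinarith
    have := x4b_div (D := A * C) (m := 7 / 32) (by positivity) hB (q1 (by linarith) (by linarith))
      (by norm_num) (by nlinarith)
    rw [mul_left_comm]
    linarith
  rcases le_total r (3 / 2) with hb | hb
  · have c1 := hC34 (by nlinarith)
    have c2 : 1 / 4 ≤ B := by
      have := pow_le_pow_left₀ (by norm_num) ha 4
      linarith
    have c3 : r ^ 3 / A ≤ 27 * H2 := by
      have := pow_le_pow_left₀ hr hb 3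
      have h2 := q2 (by linarith)
      have h3 : 0 ≤ 1 / A := by positivity
      rw [div_eq_mul_one_div]
      nlinarith
    have := x4b_div (D := B * C) (m := 1 / 8) (by positivity) hA c3 (by norm_num) (by nlinarith)
    linarith
  have r0 : 0 < r := by linarith
  have c1 : r ^ 2 / 2 ≤ A := by nlinarith
  have c2 : r ^ 4 / 2 ≤ B := by
    have := pow_le_pow_left₀ (by norm_num) hb 4
    linarith
  have c3 : r ^ 6 / 4 ≤ A * B := by
    have := mul_le_mul c1 c2 (by positivity) hA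
    linarith
  rw [← mul_assoc, mul_comm]
  by_cases hc : 1 / 2 ≤ C
  · have d1 : r ^ 3 / C ≤ r ^ 3 / (1 / 2) := div_le_div_of_nonneg_left (by positivity)
      (by norm_num) hc
    have := x4b_div (m := r ^ 6 / 4) (by positivity) hCn d1 (by positivity) c3
    have e : r ^ 3 / (1 / 2) / (r ^ 6 / 4) = 8 * (1 / r ^ 3) := by field_simp; norm_num
    have := q3 (by linarith)
    linarith
  · have d1 : 1 / 2 ≤ s * r := by
      by_contra h
      exact hc (hC34 (by linarith))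
    have d2 : s * r ≤ 2 := by
      by_contra h
      have := pow_le_pow_left₀ (by norm_num) (not_le.1 h).le 4
      exact hc (by linarith)
    have d3 : r ^ 3 / C ≤ 4 * H4 / s ^ 3 := by
      rw [le_div_iff₀ (by positivity)]
      have := q4 d2 le_rfl
      rw [mul_pow] at this
      calc r ^ 3 / C * s ^ 3 = s ^ 3 * r ^ 3 / C := by ring
        _ ≤ _ := this
    have d4 : 1 / (256 * s ^ 6) ≤ r ^ 6 / 4 := by
      have := pow_le_pow_left₀ (by norm_num) d1 6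
      rw [div_le_iff₀ (by positivity)]
      rw [mul_pow] at this
      linarith
    have := x4b_div (m := 1 / (256 * s ^ 6)) (by positivity) hCn d3 (by positivity) (d4.trans c3)
    have e : 4 * H4 / s ^ 3 / (1 / (256 * s ^ 6)) = 1024 * s * (s ^ 2 * H4) := by
      field_simp; ring
    nlinarith

theorem plane_int1 : ∫⁻ z : ℂ, ‖1 / (z * (z ^ 2 + 1))‖ₑ < ⊤ := by
  refine (x4b_bound (F := fun z => 4 * x4bH 0 z + 8 * x4bH 1 z)
    (((x4bH_int 0).const_mul 4).add ((x4bH_int 1).const_mul 8)) fun z => ?_).trans_lt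
    ENNReal.ofReal_lt_top
  rcases le_total ‖z‖ 2 with h | h
  · exact x4b_pf3 h
  · have A2 : ‖z‖ ^ 2 - 1 ≤ ‖z ^ 2 + 1‖ := by
      have := norm_sub_le (z ^ 2 + 1) 1
      rw [add_sub_cancel_right, norm_one, norm_pow] at this
      linarith
    have h1 := x4b_far (w := z) (by linarith)
    have h2 : 1 / (‖z‖ * ‖z ^ 2 + 1‖) ≤ 1 / (‖z‖ ^ 3 / 2) := by
      refine one_div_le_one_div_of_le (by positivity) ?_
      have : ‖z‖ ^ 2 / 2 ≤ ‖z ^ 2 + 1‖ := by nlinarith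
      nlinarith
    have e : 1 / (‖z‖ ^ 3 / 2) = 2 * (1 / ‖z‖ ^ 3) := by field_simp
    rw [norm_div, norm_one, norm_mul]
    linarith [x4bH_nonneg 0 z, x4bH_nonneg 1 z]

theorem plane_int2 : ∃ C : ℝ≥0, ∀ s : ℝ, 0 < s → s < 1 / 2 →
    ∫⁻ z : ℂ, ‖z ^ 3 / ((z ^ 2 + 1) * PP s z)‖ₑ ≤ C := by
  refine ⟨Real.toNNReal (8192 * ∫ z, x4bG z), fun s h0 h1 => ?_⟩
  have i4 := ((x4bH_int 1).comp_smul h0.ne').const_mul (s ^ 2)
  have i3 := ((x4bH_int s).add (x4bH_int 1)).add (x4bH_int 0)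
  refine (x4b_bound ((i3.add i4).const_mul 512) (x4b_pt h0 h1)).trans (le_of_eq ?_)
  refine congrArg ENNReal.ofReal ?_
  rw [integral_const_mul, integral_add' i3 i4, integral_add' ((x4bH_int s).add (x4bH_int 1))
    (x4bH_int 0), integral_add' (x4bH_int s) (x4bH_int 1), integral_const_mul,
    Measure.integral_comp_smul_of_nonneg _ _ _ (hR := h0.le), x4bH_eq, x4bH_eq, x4bH_eq,
    Complex.finrank_real_complex, smul_eq_mul]
  field_simp
  ring

end Pool.Agent.MP_e62289_ag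

end

section



end

section

open Set Filter Topology Complex MeasureTheory Metric
open scoped Manifold ContDiff ComplexConjugate NNReal ENNReal

namespace Pool.Agent.MP_e62289_ag

variable {L : ℝ}

theorem X6a_pow_le {t : ℝ} (ht : 0 < t) :
    t ^ 4 ≤ Real.exp (4 * |Real.log t|) ∧ (t ^ 4)⁻¹ ≤ Real.exp (4 * |Real.log t|) := by
  have h : t ^ 4 = Real.exp (4 * Real.log t) := by
    rw [show (4 : ℝ) * Real.log t = ((4 : ℕ) : ℝ) * Real.log t by norm_num, Real.exp_nat_mul,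
      Real.exp_log ht]
  rw [h, ← Real.exp_neg]
  constructor
  · exact Real.exp_le_exp.mpr (by linarith [le_abs_self (Real.log t)])
  · exact Real.exp_le_exp.mpr (by linarith [neg_abs_le (Real.log t)])

theorem X6a_Q (hL : 1 ≤ L) {x y : ℂ} (h : y ^ 2 = PP (Real.exp (-4 * L)) x) (hx : x ≠ 0) :
    ‖(y / x ^ 2) ^ 2 - 1‖ ≤ 3 * Real.exp (4 * |Real.log ‖x‖| - 16 * L) := by
  set s : ℝ := Real.exp (-4 * L) with hs
  have hs4 : s ^ 4 = Real.exp (-(16 * L)) := by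
    rw [hs, ← Real.exp_nat_mul]; congr 1; push_cast; ring
  have hs0 : 0 < s ^ 4 := by rw [hs4]; exact Real.exp_pos _
  have hs1 : s ^ 4 ≤ 1 := by rw [hs4]; exact Real.exp_le_one_iff.mpr (by linarith)
  have hQ : (y / x ^ 2) ^ 2 - 1 =
      ((s ^ 4 : ℝ) : ℂ) * (((s ^ 4 : ℝ) : ℂ) - x ^ 4 - (x ^ 4)⁻¹) := by
    rw [div_pow, h, PP]
    push_cast
    field_simp
    ring
  obtain ⟨h1, h2⟩ := X6a_pow_le (norm_pos_iff.mpr hx)
  have h3 : (1 : ℝ) ≤ Real.exp (4 * |Real.log ‖x‖|) := Real.one_le_exp (by positivity)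
  have h4 : ‖((s ^ 4 : ℝ) : ℂ) - x ^ 4 - (x ^ 4)⁻¹‖ ≤ 3 * Real.exp (4 * |Real.log ‖x‖|) := by
    refine (norm_sub_le _ _).trans ?_
    refine (add_le_add_left (norm_sub_le _ _) _).trans ?_
    rw [norm_inv, norm_pow, Complex.norm_real, Real.norm_eq_abs, abs_of_pos hs0]
    linarith
  rw [hQ, norm_mul, Complex.norm_real, Real.norm_eq_abs, abs_of_pos hs0, sub_eq_add_neg (4 * _),
    Real.exp_add, ← hs4]
  nlinarith [mul_le_mul_of_nonneg_left h4 hs0.le]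

theorem X6a_near {j : ℂ} (hj : 0 ≤ j.re) : ‖j - 1‖ ≤ ‖j ^ 2 - 1‖ := by
  have h1 : j ^ 2 - 1 = (j - 1) * (j + 1) := by ring
  have h2 : 1 ≤ ‖j + 1‖ := by
    refine le_trans ?_ (Complex.re_le_norm _)
    simp only [add_re, one_re]; linarith
  rw [h1, norm_mul]
  exact le_mul_of_one_le_right (norm_nonneg _) h2

/-- between the branch points the two sheets are separated -/
theorem sheet (hL : 1 ≤ L) {x y : ℂ} (h : y ^ 2 = PP (Real.exp (-4 * L)) x) (hx : x ≠ 0)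
    (hl : |Real.log ‖x‖| ≤ 3 * L) :
    (y / x ^ 2).re ≠ 0 ∧
      ‖sg x y * y / x ^ 2 - 1‖ ≤ 3 * Real.exp (4 * |Real.log ‖x‖| - 16 * L) := by
  have hQ := X6a_Q hL h hx
  constructor
  · intro h0
    have h1 : Real.exp (4 * |Real.log ‖x‖| - 16 * L) ≤ Real.exp (-4) :=
      Real.exp_le_exp.mpr (by linarith)
    have h2 : Real.exp (-4) < 1 / 3 := by
      have := Real.add_one_le_exp (4 : ℝ)
      rw [Real.exp_neg, inv_lt_comm₀ (Real.exp_pos _) (by norm_num)]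
      linarith
    have h3 : |((y / x ^ 2) ^ 2 - 1).re| ≤ ‖(y / x ^ 2) ^ 2 - 1‖ := Complex.abs_re_le_norm _
    have h4 : ((y / x ^ 2) ^ 2 - 1).re = -((y / x ^ 2).im * (y / x ^ 2).im) - 1 := by
      rw [sub_re, one_re, pow_two (y / x ^ 2), mul_re, h0]; ring
    have h5 := neg_abs_le ((y / x ^ 2) ^ 2 - 1).re
    nlinarith [mul_self_nonneg (y / x ^ 2).im]
  · refine le_trans ?_ hQ
    unfold sg
    split_ifs with h0
    · rw [one_mul]; exact X6a_near h0.le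
    · have h1 : (-1 : ℂ) * y / x ^ 2 = -(y / x ^ 2) := by ring
      rw [h1, ← neg_sq (y / x ^ 2)]
      exact X6a_near (by rw [neg_re]; linarith [not_lt.mp h0])

theorem X6a_mixed (Au Bu : ℂ → ℂ) (Ar Br a b w : ℂ) (hA : HasDerivAt Au a 0)
    (hB : HasDerivAt Bu b 0) (hA0 : Au 0 = w) (hB0 : Bu 0 = 0) (hw : w ≠ 0) (μ : ℂ → ℂ → ℂ)
    (hμ : ∀ u r, μ u r = (Bu u + r * Br) / (Au u + r * Ar)) :
    HasDerivAt (fun u => deriv (fun r => μ u r) 0) (-(Br * a + b * Ar) / w ^ 2) 0 := by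
  have hne : ∀ᶠ u in 𝓝 (0 : ℂ), Au u ≠ 0 := hA.continuousAt.eventually_ne (by rwa [hA0])
  have hev : (fun u => deriv (fun r => μ u r) 0) =ᶠ[𝓝 0]
      fun u => (Br * Au u - Bu u * Ar) / Au u ^ 2 := by
    filter_upwards [hne] with u hu
    have h1 : HasDerivAt (fun r : ℂ => Bu u + r * Br) Br 0 := by
      simpa using ((hasDerivAt_id (0 : ℂ)).mul_const Br).const_add (Bu u)
    have h2 : HasDerivAt (fun r : ℂ => Au u + r * Ar) Ar 0 := by
      simpa using ((hasDerivAt_id (0 : ℂ)).mul_const Ar).const_add (Au u)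
    have h3 := h1.div h2 (by simpa using hu)
    have h4 : (fun r => μ u r) = (fun r : ℂ => Bu u + r * Br) / fun r : ℂ => Au u + r * Ar := by
      funext r; simp [hμ]
    rw [h4, h3.deriv]
    simp
  refine HasDerivAt.congr_of_eventuallyEq ?_ hev
  have h5 := ((hA.const_mul Br).fun_sub (hB.mul_const Ar)).fun_div (hA.fun_pow 2)
    (by simpa [hA0] using hw)
  refine h5.congr_deriv ?_
  simp only [hA0, hB0]
  field_simp
  ring

theorem X6a_cases (hL : 1 ≤ L) {x : ℂ} :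
    (cZ (‖x ^ 2 + 1‖ ^ 2) = 0 ∧ deriv cZ (‖x ^ 2 + 1‖ ^ 2) = 0) ∨
      (cA (Real.log ‖x‖ / L) = 1 ∧ deriv cA (Real.log ‖x‖ / L) = 0) := by
  by_cases h : 1 / 4 < ‖x ^ 2 + 1‖ ^ 2
  · left
    have hev : cZ =ᶠ[𝓝 (‖x ^ 2 + 1‖ ^ 2)] fun _ => 0 := by
      filter_upwards [Ioi_mem_nhds h] with t ht
      exact Real.smoothTransition.zero_of_nonpos (by
        have : (1 : ℝ) / 4 < t := ht
        nlinarith)
    exact ⟨hev.self_of_nhds, by rw [hev.deriv_eq, deriv_const]⟩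
  · right
    have h1 : ‖x ^ 2 + 1‖ ≤ 1 / 2 := by
      nlinarith [norm_nonneg (x ^ 2 + 1), not_lt.mp h]
    have h2 : ‖x‖ ^ 2 ≤ 3 / 2 := by
      have := norm_sub_le (x ^ 2 + 1) 1
      rw [add_sub_cancel_right, norm_pow, norm_one] at this
      linarith
    have h3 : 1 / 2 ≤ ‖x‖ ^ 2 := by
      have := norm_sub_le (x ^ 2 + 1) (x ^ 2)
      rw [add_sub_cancel_left, norm_pow, norm_one] at this
      linarith
    have h4 : 1 / 2 < ‖x‖ := by nlinarith [norm_nonneg x]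
    have h5 : ‖x‖ < 2 := by nlinarith [norm_nonneg x]
    have h6 : |Real.log ‖x‖| < 1 := by
      have hp : 0 < ‖x‖ := by linarith
      have a1 := Real.log_le_sub_one_of_pos hp
      have a2 := Real.one_sub_inv_le_log_of_pos hp
      have a3 : ‖x‖⁻¹ < 2 := by
        rw [inv_lt_comm₀ hp (by norm_num)]; linarith
      rw [abs_lt]; constructor <;> linarith
    have h7 : |Real.log ‖x‖ / L| < 1 := by
      rw [abs_div, abs_of_pos (show (0 : ℝ) < L by linarith), div_lt_one (by linarith)]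
      linarith
    have hev : cA =ᶠ[𝓝 (Real.log ‖x‖ / L)] fun _ => 1 := by
      filter_upwards [Ioo_mem_nhds (abs_lt.mp h7).1 (abs_lt.mp h7).2] with t ht
      exact Real.smoothTransition.one_of_one_le (by nlinarith [ht.1, ht.2])
    exact ⟨hev.self_of_nhds, by rw [hev.deriv_eq, deriv_const]⟩

theorem nu_eq (hL : 1 ≤ L) {x y : ℂ} (hx : x ≠ 0) (hw : x ^ 2 + 1 ≠ 0) :
    ∃ ν : ℂ, HasDerivAt (fun u => deriv (fun r => muX L u r x y) 0) ν 0 ∧
      ν * (x * y / (x ^ 2 + 1)) = nuX L x y := by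
  have hσ : sg x y * sg x y = 1 := by unfold sg; split_ifs <;> norm_num
  have hL0 : (L : ℂ) ≠ 0 := by exact_mod_cast (show L ≠ 0 by linarith)
  have hcx : conj x ≠ 0 := by simpa using hx
  have hκ : (1 - (Real.exp (-4 * L) : ℂ) ^ 4) ≠ 0 := by
    have h1 : Real.exp (-4 * L) < 1 := Real.exp_lt_one_iff.mpr (by linarith)
    have h2 : Real.exp (-4 * L) ^ 4 < 1 := pow_lt_one₀ (Real.exp_pos _).le h1 (by norm_num)
    have h3 : (1 - Real.exp (-4 * L) ^ 4) ≠ 0 := by linarith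
    exact_mod_cast h3
  have hcase := X6a_cases hL (x := x)
  have hny : ((‖y‖ ^ 2 : ℝ) : ℂ) = y * conj y := by rw [Complex.mul_conj, Complex.normSq_eq_norm_sq]
  have hnx : ((‖x‖ ^ 2 : ℝ) : ℂ) = x * conj x := by rw [Complex.mul_conj, Complex.normSq_eq_norm_sq]
  unfold muX nuX K1 K2
  rw [hny, hnx]
  generalize sg x y = σ at hσ ⊢
  generalize (1 - (Real.exp (-4 * L) : ℂ) ^ 4) = κ at hκ ⊢
  generalize cA (Real.log ‖x‖ / L) = a at hcase ⊢
  generalize deriv cA (Real.log ‖x‖ / L) = a' at hcase ⊢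
  generalize cZ (‖x ^ 2 + 1‖ ^ 2) = z at hcase ⊢
  generalize deriv cZ (‖x ^ 2 + 1‖ ^ 2) = z' at hcase ⊢
  generalize ((‖x ^ 2 + 1‖ ^ 2 : ℝ) : ℂ) = N
  have hE : HasDerivAt (fun u : ℂ => exp (u * σ * a / 2)) (σ * a / 2) 0 := by
    have h1 : HasDerivAt (fun u : ℂ => u * σ * a / 2) (σ * a / 2) 0 := by
      simpa using (((hasDerivAt_id (0 : ℂ)).mul_const σ).mul_const (a : ℂ)).div_const 2
    simpa using h1.cexp
  have hEu : ∀ c : ℂ, HasDerivAt (fun u : ℂ => exp (u * σ * a / 2) * (u * c)) c 0 := by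
    intro c
    have h1 : HasDerivAt (fun u : ℂ => u * c) c 0 := by
      simpa using (hasDerivAt_id (0 : ℂ)).mul_const c
    exact (hE.fun_mul h1).congr_deriv (by simp)
  have hA : HasDerivAt (fun u : ℂ => x ^ 2 + 1 + σ * ((exp (u * σ * a / 2) - 1) * (1 + 1 / x ^ 2) +
      exp (u * σ * a / 2) * (u * (σ * a' / (4 * L * x))) * (x - 1 / x)) * y)
      (σ * (σ * a / 2 * (1 + 1 / x ^ 2) + σ * a' / (4 * L * x) * (x - 1 / x)) * y) 0 :=
    (((((hE.sub_const 1).mul_const _).add ((hEu _).mul_const _)).const_mul σ).mul_const y).const_add _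
  have hB : HasDerivAt (fun u : ℂ => σ * (exp (u * σ * a / 2) *
      (u * (σ * a' / (4 * L * conj x))) * (x - 1 / x)) * conj y)
      (σ * (σ * a' / (4 * L * conj x) * (x - 1 / x)) * conj y) 0 :=
    (((hEu _).mul_const _).const_mul σ).mul_const _
  refine ⟨_, X6a_mixed _ _ (x + σ * (1 / κ * x * (z + N * z')) * y)
    (σ * (1 / κ * (x ^ 2 + 1) ^ 2 * z' * conj x) * conj y) _ _ (x ^ 2 + 1) hA hB (by simp)
    (by simp) hw _ (fun u r => ?_), ?_⟩
  · congr 1 <;> ring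
  · rcases hcase with ⟨h1, h2⟩ | ⟨h1, h2⟩
    · subst h1 h2
      simp only [ofReal_zero]
      field_simp
      rw [pow_two σ, hσ]
      ring
    · subst h1 h2
      simp only [ofReal_zero, ofReal_one]
      field_simp
      rw [pow_two σ, hσ]
      ring

end Pool.Agent.MP_e62289_ag

end

section

open Set Filter Topology Complex MeasureTheory Metric
open scoped Manifold ContDiff ComplexConjugate NNReal ENNReal

namespace Pool.Agent.MP_e62289_ag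

variable {L : ℝ}

/-- the potential on a fixed sheet -/
noncomputable def X6b_F (σ : ℂ) (L : ℝ) (u r x : ℂ) : ℂ :=
  σ * ((exp (u * σ * cA (Real.log ‖x‖ / L) / 2) - 1) * (x - 1 / x) +
    r / (2 * (1 - (Real.exp (-4 * L) : ℂ) ^ 4)) * ((x ^ 2 + 1) * cZ (‖x ^ 2 + 1‖ ^ 2)))

theorem X6b_cA {k : ℕ∞} : ContDiff ℝ k cA :=
  Real.smoothTransition.contDiff.comp (f := fun t : ℝ => (4 - t ^ 2) / 3) (by fun_prop)

theorem X6b_cZ {k : ℕ∞} : ContDiff ℝ k cZ :=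
  Real.smoothTransition.contDiff.comp (f := fun t : ℝ => (1 / 4 - t) * (16 / 3)) (by fun_prop)

theorem X6b_zero (hL : 1 ≤ L) {x : ℂ} (hx : x ≠ 0) (h : 2 * L < |Real.log ‖x‖|) (σ u r : ℂ) :
    X6b_F σ L u r x = 0 := by
  have hL0 : 0 < L := by linarith
  have hn : 0 < ‖x‖ := norm_pos_iff.2 hx
  have h1 : cA (Real.log ‖x‖ / L) = 0 := by
    refine Real.smoothTransition.zero_of_nonpos ?_
    have h2 : 2 < |Real.log ‖x‖ / L| := by
      rw [abs_div, abs_of_pos hL0, lt_div_iff₀ hL0]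
      exact h
    have h3 := sq_abs (Real.log ‖x‖ / L)
    nlinarith
  have h4 : 1 / 2 ≤ ‖x ^ 2 + 1‖ := by
    rcases lt_abs.1 h with h5 | h5
    · have h6 := Real.log_le_sub_one_of_pos hn
      have h7 := norm_sub_le (x ^ 2 + 1) 1
      rw [add_sub_cancel_right, norm_pow, norm_one] at h7
      nlinarith
    · have h6 := Real.log_le_sub_one_of_pos (inv_pos.2 hn)
      rw [Real.log_inv] at h6
      have h8 : ‖x‖ ≤ 1 / 2 := by
        have h9 : 2 ≤ ‖x‖⁻¹ := by linarith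
        rw [le_inv_comm₀ two_pos hn] at h9
        linarith
      have h7 := norm_sub_le (x ^ 2 + 1) (x ^ 2)
      rw [add_sub_cancel_left, norm_pow, norm_one] at h7
      nlinarith
  have h2 : cZ (‖x ^ 2 + 1‖ ^ 2) = 0 :=
    Real.smoothTransition.zero_of_nonpos (by nlinarith)
  simp [X6b_F, h1, h2]

theorem X6b_loc (hL : 1 ≤ L) (H : Hyp (Real.exp (-4 * L))) (q : H.S.Y) :
    ∀ᶠ q' in 𝓝 q, ∀ u r, KK L u r (H.x q') (H.y q') =
      X6b_F (sg (H.x q) (H.y q)) L u r (H.x q') := by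
  have hx := H.x_hol.continuous
  have hy := H.y_hol.continuous
  rcases le_or_gt |Real.log ‖H.x q‖| (3 * L) with h | h
  · have hc : Continuous fun q => (H.y q / H.x q ^ 2).re :=
      continuous_re.comp (hy.div (hx.pow 2) fun q => pow_ne_zero 2 (H.x_ne q))
    have h1 : ∀ᶠ q' in 𝓝 q, sg (H.x q') (H.y q') = sg (H.x q) (H.y q) := by
      rcases lt_or_gt_of_ne (sheet hL (H.eqn q) (H.x_ne q) h).1 with h2 | h2
      · filter_upwards [(isOpen_lt hc continuous_const).mem_nhds h2] with q' hq'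
        rw [sg, sg, if_neg (not_lt.2 (le_of_lt hq')), if_neg (not_lt.2 h2.le)]
      · filter_upwards [(isOpen_lt continuous_const hc).mem_nhds h2] with q' hq'
        rw [sg, sg, if_pos hq', if_pos h2]
    filter_upwards [h1] with q' hq' u r
    rw [← hq']
    rfl
  · have hc : Continuous fun q => |Real.log ‖H.x q‖| :=
      (hx.norm.log fun q => norm_ne_zero_iff.2 (H.x_ne q)).abs
    have h1 : 2 * L < |Real.log ‖H.x q‖| := by linarith
    filter_upwards [(isOpen_lt continuous_const hc).mem_nhds h1] with q' hq' u r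
    rw [X6b_zero hL (H.x_ne q') hq']
    exact X6b_zero hL (H.x_ne q') hq' _ u r

theorem X6b_contDiffAt (σ : ℂ) (L : ℝ) {p : P2 × ℂ} (hp : p.2 ≠ 0) :
    ContDiffAt ℝ 2 (fun p : P2 × ℂ => X6b_F σ L (p.1 0) (p.1 1) p.2) p := by
  have h1 : ContDiffAt ℝ 2 (fun p : P2 × ℂ => ((cA (Real.log ‖p.2‖ / L) : ℝ) : ℂ)) p :=
    ofRealCLM.contDiff.contDiffAt.comp p ((X6b_cA (k := 2)).contDiffAt.comp p
      (((contDiffAt_snd.norm ℝ hp).log (norm_ne_zero_iff.2 hp)).div_const L))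
  have h0 : ContDiffAt ℝ 2 (fun p : P2 × ℂ => p.2 ^ 2 + 1) p := by fun_prop
  have h2 : ContDiffAt ℝ 2 (fun p : P2 × ℂ => ((cZ (‖p.2 ^ 2 + 1‖ ^ 2) : ℝ) : ℂ)) p :=
    ofRealCLM.contDiff.contDiffAt.comp p ((X6b_cZ (k := 2)).contDiffAt.comp p (h0.norm_sq ℝ))
  have h3 : ContDiffAt ℝ 2 (fun p : P2 × ℂ => 1 / p.2) p := by
    simp only [one_div]
    exact contDiffAt_snd.inv hp
  have h4 : ∀ i, ContDiffAt ℝ 2 (fun p : P2 × ℂ => p.1 i) p := fun i => by fun_prop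
  exact contDiffAt_const.mul
    (((((((h4 0).mul contDiffAt_const).mul h1).div_const 2).cexp.sub contDiffAt_const).mul
      (contDiffAt_snd.sub h3)).add (((h4 1).div_const _).mul (h0.mul h2)))

section W

variable {Y : Type} [TopologicalSpace Y] [ChartedSpace ℂ Y] {f g : Y → ℂ} {q : Y} {a b c d : ℂ}

/-- `f` is differentiable at `q` with Wirtinger derivatives `a`, `b` -/
def X6b_W (f : Y → ℂ) (q : Y) (a b : ℂ) : Prop := RDiffAt f q ∧ d1 f q = a ∧ d2 f q = b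

theorem X6b_W.const (c : ℂ) (q : Y) : X6b_W (fun _ => c) q 0 0 :=
  ⟨mdifferentiableAt_const, d_const c q⟩

theorem X6b_W.add (hf : X6b_W f q a b) (hg : X6b_W g q c d) :
    X6b_W (fun x => f x + g x) q (a + c) (b + d) := by
  obtain ⟨h1, rfl, rfl⟩ := hf
  obtain ⟨h2, rfl, rfl⟩ := hg
  exact ⟨RDiffAt.add h1 h2, d_add h1 h2⟩

theorem X6b_W.mul (hf : X6b_W f q a b) (hg : X6b_W g q c d) :
    X6b_W (fun x => f x * g x) q (a * g q + f q * c) (b * g q + f q * d) := by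
  obtain ⟨h1, rfl, rfl⟩ := hf
  obtain ⟨h2, rfl, rfl⟩ := hg
  exact ⟨RDiffAt.mul h1 h2, d_mul h1 h2⟩

theorem X6b_W.hol (hf : X6b_W f q a b) {G : ℂ → ℂ} (hG : HasDerivAt G c (f q)) :
    X6b_W (fun x => G (f x)) q (c * a) (c * b) := by
  obtain ⟨h1, rfl, rfl⟩ := hf
  exact d_hol_comp hG h1

theorem X6b_W.real (hf : X6b_W f q a 0) {G : ℝ → ℝ} {e : ℝ} (hG : HasDerivAt G e (‖f q‖ ^ 2)) :
    X6b_W (fun x => (G (‖f x‖ ^ 2) : ℂ)) q (e * conj (f q) * a) (e * f q * conj a) := by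
  obtain ⟨h1, rfl, h2⟩ := hf
  have h3 := ofRealCLM.hasFDerivAt.comp (f q)
    (hG.comp_hasFDerivAt (f q) (hasStrictFDerivAt_norm_sq (f q)).hasFDerivAt)
  have h4 : HasFDerivAt (fun z : ℂ => (G (‖z‖ ^ 2) : ℂ)) _ (f q) := h3
  have h5 := h4.differentiableAt.mdifferentiableAt
  have h6 := d_comp h5 h1
  have h7 := d_plane (fun z : ℂ => (G (‖z‖ ^ 2) : ℂ)) (f q)
  have h8 := w_eq (L := fderiv ℝ (fun z : ℂ => (G (‖z‖ ^ 2) : ℂ)) (f q))
    (a := e * conj (f q)) (b := e * f q) fun v => by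
      rw [h4.fderiv]
      apply Complex.ext <;> simp [Complex.inner] <;> ring
  rw [h7.1, h7.2, h8.1, h8.2, h2, map_zero, mul_zero, mul_zero, add_zero, zero_add] at h6
  exact ⟨h5.comp q h1, h6⟩

theorem X6b_W.logn (hf : X6b_W f q a 0) (h0 : f q ≠ 0) {L : ℝ} (hL : L ≠ 0) :
    X6b_W (fun x => (cA (Real.log ‖f x‖ / L) : ℂ)) q
      (deriv cA (Real.log ‖f q‖ / L) / (2 * L * f q) * a)
      (deriv cA (Real.log ‖f q‖ / L) / (2 * L * conj (f q)) * conj a) := by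
  have hn : ‖f q‖ ^ 2 ≠ 0 := pow_ne_zero 2 (norm_ne_zero_iff.2 h0)
  have hl : ∀ z : ℂ, Real.log (‖z‖ ^ 2) / (2 * L) = Real.log ‖z‖ / L := fun z => by
    rw [Real.log_pow, Nat.cast_ofNat, mul_div_mul_left _ _ two_ne_zero]
  have hA : HasDerivAt cA (deriv cA (Real.log ‖f q‖ / L)) (Real.log (‖f q‖ ^ 2) / (2 * L)) := by
    rw [hl]
    exact ((X6b_cA (k := 1)).differentiable (by simp) _).hasDerivAt
  have hB : HasDerivAt (fun t => cA (Real.log t / (2 * L)))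
      (deriv cA (Real.log ‖f q‖ / L) * ((‖f q‖ ^ 2)⁻¹ / (2 * L))) (‖f q‖ ^ 2) :=
    HasDerivAt.comp (h₂ := cA) _ hA ((Real.hasDerivAt_log hn).div_const (2 * L))
  have h1 := hf.real hB
  simp only [hl] at h1
  have n1 : ((‖f q‖ ^ 2 : ℝ) : ℂ) = f q * conj (f q) := by
    rw [mul_conj, normSq_eq_norm_sq]
  have hc0 : conj (f q) ≠ 0 := (map_ne_zero _).2 h0
  have hL0 : (L : ℂ) ≠ 0 := ofReal_ne_zero.2 hL
  rw [ofReal_mul, ofReal_div, ofReal_inv, n1, ofReal_mul, ofReal_ofNat] at h1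
  convert h1 using 2 <;> field_simp

theorem X6b_W.pot (hf : X6b_W f q a 0) (h0 : f q ≠ 0) {L : ℝ} (hL : L ≠ 0) (u r y : ℂ) :
    X6b_W (fun x => X6b_F (sg (f q) y) L u r (f x)) q (K1 L u r (f q) y * a)
      (K2 L u r (f q) y * conj a) := by
  rw [K1, K2]
  unfold X6b_F
  generalize sg (f q) y = σ
  generalize 1 - (Real.exp (-4 * L) : ℂ) ^ 4 = D
  have h1 := hf.logn h0 hL
  have g2 : ∀ z : ℂ, HasDerivAt (fun z => exp (u * σ * z / 2) - 1)
      (exp (u * σ * z / 2) * (u * σ * 1 / 2)) z := fun z =>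
    (((hasDerivAt_id' z).const_mul (u * σ)).div_const 2).cexp.sub_const 1
  have g3 : HasDerivAt (fun z : ℂ => z - 1 / z) (1 + 1 / f q ^ 2) (f q) := by
    simp only [one_div]
    exact ((hasDerivAt_id' (f q)).fun_sub (hasDerivAt_inv h0)).congr_deriv (sub_neg_eq_add _ _)
  have g4 : HasDerivAt (fun z : ℂ => z ^ 2 + 1) (2 * f q) (f q) := by
    simpa using (hasDerivAt_pow 2 (f q)).add_const 1
  have h2 := h1.hol (g2 _)
  have h3 := hf.hol g3
  have h4 := hf.hol g4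
  rw [mul_zero] at h4
  have h5 := h4.real ((X6b_cZ (k := 1)).differentiable (by simp) _).hasDerivAt
  have h6 := (X6b_W.const σ q).mul ((h2.mul h3).add
    ((X6b_W.const (r / (2 * D)) q).mul (h4.mul h5)))
  have n2 : ((‖f q ^ 2 + 1‖ ^ 2 : ℝ) : ℂ) = (f q ^ 2 + 1) * conj (f q ^ 2 + 1) := by
    rw [mul_conj, normSq_eq_norm_sq]
  refine ⟨h6.1, h6.2.1.trans ?_, h6.2.2.trans ?_⟩
  · rw [n2]
    ring
  · rw [map_mul, map_mul, map_ofNat]
    ring

end W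

theorem KK_smooth (hL : 1 ≤ L) (H : Hyp (Real.exp (-4 * L))) :
    ContMDiff (𝓘(ℝ, P2).prod 𝓘(ℝ, ℂ)) 𝓘(ℝ, ℂ) 2
      fun p : P2 × H.S.Y => KK L (p.1 0) (p.1 1) (H.x p.2) (H.y p.2) := by
  intro p
  have h1 : ContMDiffAt (𝓘(ℝ, P2).prod 𝓘(ℝ, ℂ)) 𝓘(ℝ, P2 × ℂ) 2
      (fun p : P2 × H.S.Y => (p.1, H.x p.2)) p :=
    contMDiffAt_fst.prodMk_space
      ((ckAt_of_hol (Eventually.of_forall H.x_hol) 2).comp p contMDiffAt_snd)
  refine ((X6b_contDiffAt (sg (H.x p.2) (H.y p.2)) L (p := (p.1, H.x p.2))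
    (H.x_ne p.2)).contMDiffAt.comp p h1).congr_of_eventuallyEq ?_
  filter_upwards [continuous_snd.continuousAt.eventually (X6b_loc hL H p.2)] with p' hp'
  exact hp' _ _

theorem KK_d (hL : 1 ≤ L) (H : Hyp (Real.exp (-4 * L))) (u r : ℂ) (q : H.S.Y) :
    d1 (fun q => KK L u r (H.x q) (H.y q)) q = K1 L u r (H.x q) (H.y q) * H.y q ∧
    d2 (fun q => KK L u r (H.x q) (H.y q)) q = K2 L u r (H.x q) (H.y q) * conj (H.y q) := by
  have e := d_congr (G := fun q => KK L u r (H.x q) (H.y q))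
    (G' := fun q' => X6b_F (sg (H.x q) (H.y q)) L u r (H.x q'))
    ((X6b_loc hL H q).mono fun q' h => h u r)
  have hx : X6b_W H.x q (H.y q) 0 := ⟨(d2_of_hol (H.x_hol q)).1, H.d1x q, (d2_of_hol (H.x_hol q)).2⟩
  have h := hx.pot (H.x_ne q) (L := L) (by linarith) u r (H.y q)
  exact ⟨e.1.trans h.2.1, e.2.trans h.2.2⟩

end Pool.Agent.MP_e62289_ag

end

section



end

section

open Set Filter Topology Complex MeasureTheory Metric
open scoped Manifold ContDiff ComplexConjugate NNReal ENNReal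

namespace Pool.Agent.MP_e62289_ag

theorem x7_top {f : ℝ → ℝ} {t : ℝ} (h : 1 ≤ f t) :
    Real.smoothTransition (f t) = 1 ∧ deriv (fun s => Real.smoothTransition (f s)) t = 0 := by
  have h1 := Real.smoothTransition.one_of_one_le h
  refine ⟨h1, IsLocalMax.deriv_eq_zero (Eventually.of_forall fun s => ?_)⟩
  change Real.smoothTransition (f s) ≤ Real.smoothTransition (f t)
  rw [h1]
  exact Real.smoothTransition.le_one _

theorem x7_bot {f : ℝ → ℝ} {t : ℝ} (h : f t ≤ 0) :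
    Real.smoothTransition (f t) = 0 ∧ deriv (fun s => Real.smoothTransition (f s)) t = 0 := by
  have h1 := Real.smoothTransition.zero_of_nonpos h
  refine ⟨h1, IsLocalMin.deriv_eq_zero (Eventually.of_forall fun s => ?_)⟩
  change Real.smoothTransition (f t) ≤ Real.smoothTransition (f s)
  rw [h1]
  exact Real.smoothTransition.nonneg _

theorem x7_cA_one {t : ℝ} (h : |t| ≤ 1) : cA t = 1 ∧ deriv cA t = 0 := by
  refine x7_top (f := fun t : ℝ => (4 - t ^ 2) / 3) ?_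
  have := (sq_le_one_iff_abs_le_one t).2 h
  change 1 ≤ (4 - t ^ 2) / 3
  linarith

theorem x7_cA_zero {t : ℝ} (h : 2 ≤ |t|) : cA t = 0 ∧ deriv cA t = 0 := by
  refine x7_bot (f := fun t : ℝ => (4 - t ^ 2) / 3) ?_
  have h1 : (2 : ℝ) ^ 2 ≤ |t| ^ 2 := pow_le_pow_left₀ (by norm_num) h 2
  rw [sq_abs] at h1
  change (4 - t ^ 2) / 3 ≤ 0
  linarith

theorem x7_cZ_one {t : ℝ} (h : t ≤ 1 / 16) : cZ t = 1 ∧ deriv cZ t = 0 := by
  refine x7_top (f := fun t : ℝ => (1 / 4 - t) * (16 / 3)) ?_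
  linarith

theorem x7_cZ_zero {t : ℝ} (h : 1 / 4 ≤ t) : cZ t = 0 ∧ deriv cZ t = 0 := by
  refine x7_bot (f := fun t : ℝ => (1 / 4 - t) * (16 / 3)) ?_
  linarith

theorem x7_bdd {f : ℝ → ℝ} (hf : ContDiff ℝ 1 f) {a b : ℝ}
    (h : ∀ t, t ∉ Icc a b → deriv f t = 0) : ∃ C, 0 ≤ C ∧ ∀ t, |deriv f t| ≤ C := by
  obtain ⟨C, hC⟩ := (hf.continuous_deriv le_rfl).bounded_above_of_compact_support
    (HasCompactSupport.intro isCompact_Icc h)
  exact ⟨C, (norm_nonneg _).trans (hC 0), hC⟩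

theorem x7_dA : ∃ C, 0 ≤ C ∧ ∀ t, |deriv cA t| ≤ C := by
  refine x7_bdd (a := -2) (b := 2)
    (Real.smoothTransition.contDiff.comp (f := fun t : ℝ => (4 - t ^ 2) / 3) (by fun_prop))
    fun t ht => (x7_cA_zero ?_).2
  by_contra h
  exact ht (abs_le.1 (not_le.1 h).le)

theorem x7_dZ : ∃ C, 0 ≤ C ∧ ∀ t, |deriv cZ t| ≤ C := by
  refine x7_bdd (a := 1 / 16) (b := 1 / 4)
    (Real.smoothTransition.contDiff.comp (f := fun t : ℝ => (1 / 4 - t) * (16 / 3)) (by fun_prop))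
    fun t ht => ?_
  rcases le_total t (1 / 16) with h | h
  · exact (x7_cZ_one h).2
  · refine (x7_cZ_zero ?_).2
    by_contra h'
    exact ht ⟨h, (not_le.1 h').le⟩

theorem x7_sg (x y : ℂ) : ‖sg x y‖ = 1 ∧ sg x y ^ 2 = 1 := by
  unfold sg
  split_ifs <;> simp

/-- the abstract lower bound -/
theorem x7_low {w j E R : ℂ} {b : ℝ} (hw : w ≠ 0) (hE : E ≠ 0) (h1 : ‖j - 1‖ ≤ 1 / 32)
    (h2 : ‖j - 1‖ ≤ 1 / 32 * ‖E‖) (h3 : ‖R‖ + b ≤ 3 / 4 * (‖E‖ * ‖w‖)) :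
    b < ‖w * (1 - j) + j * E * w + R‖ := by
  have hp : 0 < ‖E‖ * ‖w‖ := mul_pos (norm_pos_iff.2 hE) (norm_pos_iff.2 hw)
  have a1 : 31 / 32 ≤ ‖j‖ := by
    have := norm_sub_norm_le (1 : ℂ) j
    rw [norm_one, norm_sub_rev] at this
    linarith
  have a2 : ‖j * E * w‖ ≤ ‖w * (1 - j) + j * E * w + R‖ + ‖w * (j - 1)‖ + ‖R‖ := by
    have e : j * E * w = (w * (1 - j) + j * E * w + R) + w * (j - 1) - R := by ring
    conv_lhs => rw [e]
    exact (norm_sub_le _ _).trans (add_le_add_left (norm_add_le _ _) _)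
  rw [norm_mul, norm_mul, norm_mul, mul_assoc] at a2
  have a3 := mul_le_mul_of_nonneg_right a1 hp.le
  have a4 := mul_le_mul_of_nonneg_left h2 (norm_nonneg w)
  linarith

theorem x7_x_le {x : ℂ} (h : 1 / 4 ≤ ‖x ^ 2 + 1‖) :
    ‖x‖ ≤ 5 * ‖x ^ 2 + 1‖ ∧ ‖x ^ 2 - 1‖ ≤ 9 * ‖x ^ 2 + 1‖ := by
  constructor
  · have h1 := norm_sub_le (x ^ 2 + 1) 1
    rw [add_sub_cancel_right, norm_pow, norm_one] at h1
    rcases le_total ‖x‖ (5 / 4) with h2 | h2
    · linarith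
    · nlinarith
  · have h1 := norm_sub_le (x ^ 2 + 1) 2
    rw [show x ^ 2 + 1 - 2 = x ^ 2 - 1 by ring, Complex.norm_two] at h1
    linarith

theorem x7_far {x : ℂ} (hx : x ≠ 0) (h : 1 ≤ |Real.log ‖x‖|) : 1 / 2 ≤ ‖x ^ 2 + 1‖ := by
  have hx0 : 0 < ‖x‖ := norm_pos_iff.2 hx
  rcases le_abs'.1 h with h1 | h1
  · have h2 : ‖x‖ ≤ 1 / 2 := by
      have h3 := Real.add_one_le_exp (-Real.log ‖x‖)
      rw [Real.exp_neg, Real.exp_log hx0] at h3
      have h4 : 2 ≤ ‖x‖⁻¹ := by linarith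
      rwa [le_inv_comm₀ (by norm_num) hx0, ← one_div] at h4
    have h3 := norm_sub_le (x ^ 2 + 1) (x ^ 2)
    rw [add_sub_cancel_left, norm_pow, norm_one] at h3
    nlinarith
  · have h2 : 2 ≤ ‖x‖ := by
      have h3 := Real.add_one_le_exp (Real.log ‖x‖)
      rw [Real.exp_log hx0] at h3
      linarith
    have h3 := norm_sub_le (x ^ 2 + 1) 1
    rw [add_sub_cancel_right, norm_pow, norm_one] at h3
    nlinarith

theorem x7_core {C : ℝ} (hC0 : 0 ≤ C) (hC : ∀ t, |deriv cZ t| ≤ C) {x : ℂ}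
    (h : 1 / 4 ≤ ‖x ^ 2 + 1‖) :
    ‖x ^ 3 * ((cZ (‖x ^ 2 + 1‖ ^ 2) : ℂ) + (‖x ^ 2 + 1‖ ^ 2 : ℝ) * deriv cZ (‖x ^ 2 + 1‖ ^ 2))‖ +
      ‖x ^ 2 + 1‖ ^ 2 * |deriv cZ (‖x ^ 2 + 1‖ ^ 2)| * ‖x‖ ^ 3 ≤ (8 + 4 * C) * ‖x ^ 2 + 1‖ := by
  rcases le_total (1 / 2) ‖x ^ 2 + 1‖ with h1 | h1
  · have h2 := x7_cZ_zero (t := ‖x ^ 2 + 1‖ ^ 2) (by nlinarith)
    rw [h2.1, h2.2]
    simp only [ofReal_zero, mul_zero, add_zero, norm_zero, abs_zero, zero_mul]
    positivity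
  · have h2 := norm_sub_le (x ^ 2 + 1) 1
    rw [add_sub_cancel_right, norm_pow, norm_one] at h2
    have h0 := norm_nonneg x
    have h3 : ‖x‖ ≤ 4 / 3 := by nlinarith
    have h4 : ‖x‖ ^ 3 ≤ 2 := by nlinarith
    have h5 : ‖x ^ 2 + 1‖ ^ 2 ≤ 1 / 4 := by nlinarith [norm_nonneg (x ^ 2 + 1)]
    have h6 : ‖x ^ 2 + 1‖ ^ 2 * |deriv cZ (‖x ^ 2 + 1‖ ^ 2)| ≤ 1 / 4 * C :=
      mul_le_mul h5 (hC _) (abs_nonneg _) (by norm_num)
    have h7 : ‖(cZ (‖x ^ 2 + 1‖ ^ 2) : ℂ) +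
        (‖x ^ 2 + 1‖ ^ 2 : ℝ) * deriv cZ (‖x ^ 2 + 1‖ ^ 2)‖ ≤ 1 + 1 / 4 * C := by
      refine (norm_add_le _ _).trans (add_le_add ?_ ?_)
      · rw [norm_real, cZ, Real.norm_of_nonneg (Real.smoothTransition.nonneg _)]
        exact Real.smoothTransition.le_one _
      · rw [norm_mul, norm_real, norm_real, Real.norm_of_nonneg (sq_nonneg _)]
        exact h6
    rw [norm_mul, norm_pow]
    have h8 := mul_le_mul h4 h7 (norm_nonneg _) (by norm_num)
    have h9 := mul_le_mul h6 h4 (by positivity) (by positivity)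
    have h10 := mul_le_mul_of_nonneg_left h (by positivity : 0 ≤ 8 + 4 * C)
    linarith

theorem x7_exp {L : ℝ} (hL : 1 ≤ L) : 3 * Real.exp (-(7 * L)) ≤ 1 / 32 ∧
    Real.exp (-4 * L) ^ 4 ≤ 1 / 2 := by
  have h1 : (2 : ℝ) ≤ Real.exp L := by linarith [Real.add_one_le_exp L]
  constructor
  · have h2 : (2 : ℝ) ^ 7 ≤ Real.exp (7 * L) := by
      rw [show 7 * L = (7 : ℕ) * L by norm_num, Real.exp_nat_mul]
      exact pow_le_pow_left₀ (by norm_num) h1 7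
    rw [Real.exp_neg]
    have h3 := inv_anti₀ (by norm_num) h2
    norm_num at h3 ⊢
    linarith
  · rw [← Real.exp_nat_mul]
    have h2 : Real.exp ((4 : ℕ) * (-4 * L)) ≤ Real.exp (-L) :=
      Real.exp_le_exp.2 (by push_cast; linarith)
    have h3 := inv_anti₀ (by norm_num) h1
    rw [Real.exp_neg] at h2
    norm_num at h3
    linarith

theorem x7_E {u σ : ℂ} (hσ : ‖σ‖ = 1) {a : ℝ} (h0 : 0 ≤ a) (h1 : a ≤ 1) :
    Real.exp (-‖u‖ / 2) ≤ ‖exp (u * σ * a / 2)‖ := by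
  rw [Complex.norm_exp]
  refine Real.exp_le_exp.2 ?_
  have h2 := (abs_le.1 (abs_re_le_norm (u * σ * a / 2))).1
  rw [norm_div, norm_mul, norm_mul, hσ, norm_real, Real.norm_of_nonneg h0, Complex.norm_two] at h2
  have h3 := mul_le_mul_of_nonneg_left h1 (norm_nonneg u)
  linarith

/-- the behaviour of `j` near the zeros of `x ^ 2 + 1` -/
theorem x7_near {S : ℝ} (hS0 : 0 ≤ S) (hS : S ≤ 1 / 2) {x j : ℂ} (hw : ‖x ^ 2 + 1‖ ≤ 1 / 4)
    (hj : ‖j - 1‖ ≤ 1) (h : (j * x ^ 2) ^ 2 = (x ^ 4 - S) * (1 - S * x ^ 4)) :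
    ‖x * (1 + j * (1 - (S : ℂ))⁻¹ * x ^ 2)‖ ≤ 26 * ‖x ^ 2 + 1‖ := by
  have h0 := norm_nonneg x
  have w0 := norm_nonneg (x ^ 2 + 1)
  have h1 := norm_sub_le (x ^ 2 + 1) 1
  rw [add_sub_cancel_right, norm_pow, norm_one] at h1
  have h2 := norm_sub_le (x ^ 2 + 1) (x ^ 2)
  rw [add_sub_cancel_left, norm_pow, norm_one] at h2
  have h3 := norm_sub_le (x ^ 2 + 1) 2
  rw [show x ^ 2 + 1 - 2 = x ^ 2 - 1 by ring, Complex.norm_two] at h3
  have e : (j - (1 - S)) * (j + (1 - S)) * (x ^ 2) ^ 2 =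
      -S * ((x ^ 2 + 1) ^ 2 * (x ^ 2 - 1) ^ 2) := by linear_combination h
  have h4 : 1 / 2 ≤ ‖j + (1 - S)‖ := by
    have a1 := re_le_norm (j + (1 - S))
    have a2 := (abs_le.1 ((abs_re_le_norm (j - 1)).trans hj)).1
    simp only [add_re, sub_re, one_re, ofReal_re] at a1 a2
    linarith
  have h5 : ‖j - (1 - S)‖ ≤ 9 / 2 * ‖x ^ 2 + 1‖ := by
    have a1 := congrArg norm e
    simp only [norm_mul, norm_pow, norm_neg, norm_real, Real.norm_of_nonneg hS0] at a1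
    have a2 : (3 / 4 : ℝ) ^ 2 ≤ (‖x‖ ^ 2) ^ 2 := pow_le_pow_left₀ (by norm_num) (by linarith) 2
    have a3 : ‖x ^ 2 - 1‖ ^ 2 ≤ (9 / 4) ^ 2 := pow_le_pow_left₀ (norm_nonneg _) (by linarith) 2
    have a4 : ‖x ^ 2 + 1‖ ^ 2 ≤ 1 / 4 * ‖x ^ 2 + 1‖ := by nlinarith
    have a5 := mul_le_mul hS (mul_le_mul a4 a3 (by positivity) (by positivity)) (by positivity)
      (by norm_num)
    have a6 := mul_le_mul (mul_le_mul_of_nonneg_left h4 (norm_nonneg (j - (1 - S)))) a2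
      (by norm_num) (by positivity)
    linarith
  have h6 : (1 - (S : ℂ)) ≠ 0 := by
    have : (1 - S : ℝ) ≠ 0 := by linarith
    exact_mod_cast this
  have h7 : ‖(1 - (S : ℂ))⁻¹‖ ≤ 2 := by
    rw [norm_inv, ← ofReal_one, ← ofReal_sub, norm_real, Real.norm_of_nonneg (by linarith)]
    exact inv_le_of_inv_le₀ (by norm_num) (by linarith)
  have e2 : 1 + j * (1 - (S : ℂ))⁻¹ * x ^ 2 =
      (x ^ 2 + 1) + (j - (1 - S)) * (1 - (S : ℂ))⁻¹ * x ^ 2 := by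
    field_simp
    ring
  have h8 : ‖1 + j * (1 - (S : ℂ))⁻¹ * x ^ 2‖ ≤ 13 * ‖x ^ 2 + 1‖ := by
    rw [e2]
    refine (norm_add_le _ _).trans ?_
    rw [norm_mul, norm_mul, norm_pow]
    have a1 := mul_le_mul (mul_le_mul h5 h7 (norm_nonneg _) (by positivity))
      (show ‖x‖ ^ 2 ≤ 5 / 4 by linarith) (by positivity) (by positivity)
    linarith
  have h9 : ‖x‖ ≤ 2 := by nlinarith
  rw [norm_mul]
  have a1 := mul_le_mul h9 h8 (norm_nonneg _) (by norm_num)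
  linarith

theorem x7_A {L : ℝ} (hL : 1 ≤ L) {x : ℂ} (hx : x ≠ 0) (u r y : ℂ) :
    x ^ 2 + 1 + r * x + K1 L u r x y * y =
      (x ^ 2 + 1) * (1 - sg x y * y / x ^ 2) +
        sg x y * y / x ^ 2 * exp (u * sg x y * cA (Real.log ‖x‖ / L) / 2) * (x ^ 2 + 1) +
      (r * x + sg x y * y / x ^ 2 * (exp (u * sg x y * cA (Real.log ‖x‖ / L) / 2) *
          (u * sg x y * deriv cA (Real.log ‖x‖ / L) / (4 * L)) * (x ^ 2 - 1)) +
        sg x y * y / x ^ 2 * (r * (1 - (Real.exp (-4 * L) : ℂ) ^ 4)⁻¹ * (x ^ 3 *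
          (cZ (‖x ^ 2 + 1‖ ^ 2) + (‖x ^ 2 + 1‖ ^ 2 : ℝ) * deriv cZ (‖x ^ 2 + 1‖ ^ 2))))) := by
  have hL0 : (L : ℂ) ≠ 0 := by
    have : L ≠ 0 := by linarith
    exact_mod_cast this
  rw [K1, div_eq_mul_inv r]
  generalize (1 - (Real.exp (-4 * L) : ℂ) ^ 4)⁻¹ = J
  generalize exp (u * sg x y * cA (Real.log ‖x‖ / L) / 2) = E
  generalize ((cZ (‖x ^ 2 + 1‖ ^ 2) : ℂ) +
    (‖x ^ 2 + 1‖ ^ 2 : ℝ) * deriv cZ (‖x ^ 2 + 1‖ ^ 2)) = Z
  generalize (deriv cA (Real.log ‖x‖ / L) : ℝ) = a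
  field_simp
  ring

theorem x7_B {L : ℝ} (hL : 1 ≤ L) {x : ℂ} (hx : x ≠ 0) (u r y : ℂ) :
    ‖K2 L u r x y * conj y‖ ≤ ‖sg x y * y / x ^ 2‖ *
      (‖exp (u * sg x y * cA (Real.log ‖x‖ / L) / 2) *
          (u * sg x y * deriv cA (Real.log ‖x‖ / L) / (4 * L)) * (x ^ 2 - 1)‖ +
        ‖r‖ * ‖(1 - (Real.exp (-4 * L) : ℂ) ^ 4)⁻¹‖ *
          (‖x ^ 2 + 1‖ ^ 2 * |deriv cZ (‖x ^ 2 + 1‖ ^ 2)| * ‖x‖ ^ 3)) := by
  have hL0 : (L : ℂ) ≠ 0 := by
    have : L ≠ 0 := by linarith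
    exact_mod_cast this
  have hx' : conj x ≠ 0 := (map_ne_zero _).2 hx
  rw [norm_mul, RCLike.norm_conj, ← norm_mul, K2, div_eq_mul_inv r]
  generalize (1 - (Real.exp (-4 * L) : ℂ) ^ 4)⁻¹ = J
  generalize exp (u * sg x y * cA (Real.log ‖x‖ / L) / 2) = E
  generalize (deriv cA (Real.log ‖x‖ / L) : ℝ) = a
  generalize (deriv cZ (‖x ^ 2 + 1‖ ^ 2) : ℝ) = z
  have e : sg x y * (E * (u * sg x y * a / (4 * L * conj x)) * (x - 1 / x) +
      r * J * (x ^ 2 + 1) ^ 2 * z * conj x) * y = sg x y * y / x ^ 2 *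
      (E * (u * sg x y * a / (4 * L)) * (x ^ 2 - 1) * (x / conj x) +
        r * J * ((x ^ 2 + 1) ^ 2 * z * (conj x * x ^ 2))) := by
    field_simp
  rw [e, norm_mul]
  refine mul_le_mul_of_nonneg_left ((norm_add_le _ _).trans (le_of_eq ?_)) (norm_nonneg _)
  congr 1
  · rw [norm_mul _ (x / conj x), norm_div, RCLike.norm_conj, div_self (norm_ne_zero_iff.2 hx),
      mul_one]
  · simp only [norm_mul, norm_pow, RCLike.norm_conj, norm_real, Real.norm_eq_abs]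
    ring

/-- the deformed forms define complex structures -/
theorem K_pos : ∃ c ε L₀ : ℝ, 0 < c ∧ c ≤ 1 ∧ 0 < ε ∧ 1 ≤ L₀ ∧ ∀ L, L₀ ≤ L → ∀ x y u r : ℂ,
    y ^ 2 = PP (Real.exp (-4 * L)) x → x ≠ 0 → x ^ 2 + 1 ≠ 0 → ‖u‖ < c * L →
    ‖r‖ < ε * Real.exp (-‖u‖ / 2) →
    ‖K2 L u r x y * conj y‖ < ‖x ^ 2 + 1 + r * x + K1 L u r x y * y‖ := by
  obtain ⟨C1, hC1, hA⟩ := x7_dA
  obtain ⟨C2, hC2, hZ⟩ := x7_dZ
  have hc : 1 / (36 * C1 + 1) ≤ 1 := by
    rw [div_le_one (by positivity)]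
    linarith
  have hc' : 1 / (36 * C1 + 1) * C1 ≤ 1 / 36 := by
    rw [div_mul_eq_mul_div, div_le_iff₀ (by positivity)]
    linarith
  have hε : 1 / (80 + 32 * C2) * (40 + 16 * C2) = 1 / 2 := by
    field_simp
    ring
  refine ⟨1 / (36 * C1 + 1), 1 / (80 + 32 * C2), 1, by positivity, hc, by positivity, le_rfl,
    fun L hL x y u r h hx hw hu hr => ?_⟩
  have hc0 : 0 ≤ 1 / (36 * C1 + 1) := by positivity
  have hε0 : 0 ≤ 1 / (80 + 32 * C2) := by positivity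
  generalize 1 / (36 * C1 + 1) = c at hc hc' hu hc0
  generalize 1 / (80 + 32 * C2) = ε at hε hr hε0
  have hεC := mul_nonneg hε0 hC2
  have hL0 : 0 < L := by linarith
  have hw0 := norm_pos_iff.2 hw
  obtain ⟨hσ, hσ2⟩ := x7_sg x y
  obtain ⟨he1, he2⟩ := x7_exp hL
  have hB := x7_B hL hx u r y
  rw [x7_A hL hx]
  have hE := x7_E (u := u) hσ (a := cA (Real.log ‖x‖ / L)) (Real.smoothTransition.nonneg _)
    (Real.smoothTransition.le_one _)
  have hrE := hr.le.trans (mul_le_mul_of_nonneg_left hE hε0)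
  rcases le_total (2 * L) |Real.log ‖x‖| with hl | hl
  · have h1 := x7_cA_zero (t := Real.log ‖x‖ / L)
      (by rwa [abs_div, abs_of_pos hL0, le_div_iff₀ hL0])
    have h2 := x7_far hx (by linarith)
    have h3 := x7_cZ_zero (t := ‖x ^ 2 + 1‖ ^ 2) (by nlinarith)
    have h4 := (x7_x_le (x := x) (by linarith)).1
    rw [h1.1, h1.2, h3.2] at hB
    rw [h1.1] at hrE
    rw [h1.1, h1.2, h3.1, h3.2]
    simp only [ofReal_zero, mul_zero, zero_div, zero_mul, norm_zero, abs_zero, add_zero, exp_zero,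
      mul_one, norm_one] at hB hrE ⊢
    refine hB.trans_lt ?_
    have h5 := norm_sub_le ((x ^ 2 + 1) * (1 - sg x y * y / x ^ 2) +
      sg x y * y / x ^ 2 * (x ^ 2 + 1) + r * x) (r * x)
    rw [show (x ^ 2 + 1) * (1 - sg x y * y / x ^ 2) + sg x y * y / x ^ 2 * (x ^ 2 + 1) + r * x -
      r * x = x ^ 2 + 1 by ring, norm_mul r] at h5
    have h6 := mul_le_mul (show ‖r‖ ≤ 1 / 80 by linarith) h4 (norm_nonneg _) (by norm_num)
    linarith
  have hj := (sheet hL h hx (by linarith)).2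
  have hj1 : ‖sg x y * y / x ^ 2 - 1‖ ≤ 3 * Real.exp (-(7 * L)) * Real.exp (-L) := by
    rw [mul_assoc, ← Real.exp_add]
    exact hj.trans (mul_le_mul_of_nonneg_left (Real.exp_le_exp.2 (by linarith)) (by norm_num))
  have hj2 : ‖sg x y * y / x ^ 2 - 1‖ ≤ 1 / 32 * Real.exp (-L) :=
    hj1.trans (mul_le_mul_of_nonneg_right he1 (Real.exp_pos _).le)
  have hj3 : ‖sg x y * y / x ^ 2 - 1‖ ≤ 1 / 32 := by
    have := Real.exp_le_one_iff.2 (show -L ≤ 0 by linarith)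
    linarith
  have hj4 : ‖sg x y * y / x ^ 2 - 1‖ ≤
      1 / 32 * ‖exp (u * sg x y * cA (Real.log ‖x‖ / L) / 2)‖ := by
    have a1 := mul_le_mul_of_nonneg_right hc hL0.le
    have a2 := Real.exp_le_exp.2 (show -L ≤ -‖u‖ / 2 by linarith)
    linarith
  have hy : (sg x y * y / x ^ 2 * x ^ 2) ^ 2 = (x ^ 4 - (Real.exp (-4 * L) ^ 4 : ℝ)) *
      (1 - (Real.exp (-4 * L) ^ 4 : ℝ) * x ^ 4) := by
    rw [div_mul_cancel₀ _ (pow_ne_zero 2 hx), mul_pow, hσ2, one_mul, h, PP, ofReal_pow]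
  have hj5 : ‖sg x y * y / x ^ 2‖ ≤ 2 := by
    have := norm_sub_norm_le (sg x y * y / x ^ 2) 1
    rw [norm_one] at this
    linarith
  refine x7_low hw (exp_ne_zero _) hj3 hj4 ?_
  have hJ : ‖(1 - (Real.exp (-4 * L) : ℂ) ^ 4)⁻¹‖ ≤ 2 := by
    rw [norm_inv, ← ofReal_pow, ← ofReal_one, ← ofReal_sub, norm_real,
      Real.norm_of_nonneg (by linarith)]
    exact inv_le_of_inv_le₀ (by norm_num) (by linarith)
  have hE0 := norm_nonneg (exp (u * sg x y * cA (Real.log ‖x‖ / L) / 2))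
  have hEw := mul_nonneg hE0 hw0.le
  rcases le_total ‖x ^ 2 + 1‖ (1 / 4) with hs | hs
  · have h0 : |Real.log ‖x‖| ≤ 1 := by
      by_contra h'
      have := x7_far hx (not_le.1 h').le
      linarith
    have h1 := x7_cA_one (t := Real.log ‖x‖ / L)
      (by rw [abs_div, abs_of_pos hL0, div_le_one hL0]; linarith)
    have h3 := x7_cZ_one (t := ‖x ^ 2 + 1‖ ^ 2) (by nlinarith)
    have h4 := x7_near (by positivity) he2 hs (by linarith) hy
    rw [ofReal_pow] at h4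
    rw [h1.2, h3.2] at hB
    rw [h1.2, h3.1, h3.2]
    simp only [ofReal_zero, mul_zero, zero_div, zero_mul, norm_zero, abs_zero, add_zero,
      mul_one, ofReal_one] at hB ⊢
    rw [show r * x + sg x y * y / x ^ 2 * (r * (1 - (Real.exp (-4 * L) : ℂ) ^ 4)⁻¹ * x ^ 3) =
      r * (x * (1 + sg x y * y / x ^ 2 * (1 - (Real.exp (-4 * L) : ℂ) ^ 4)⁻¹ * x ^ 2)) by ring,
      norm_mul r]
    have h5 := mul_le_mul hrE h4 (norm_nonneg _) (mul_nonneg hε0 hE0)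
    have h6 := mul_le_mul_of_nonneg_right (show ε ≤ 1 / 80 by linarith) hEw
    linarith
  · obtain ⟨h1, h2⟩ := x7_x_le hs
    have h3 := x7_core hC2 hZ hs
    have h4 : ‖u * sg x y * deriv cA (Real.log ‖x‖ / L) / (4 * L)‖ ≤ 1 / 144 := by
      rw [norm_div, norm_mul, norm_mul, norm_mul, hσ, norm_real, norm_real, Real.norm_eq_abs,
        Real.norm_of_nonneg hL0.le, Complex.norm_ofNat, div_le_iff₀ (by positivity)]
      have a1 := mul_le_mul hu.le (hA (Real.log ‖x‖ / L)) (abs_nonneg _) (by positivity)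
      have a2 := mul_le_mul_of_nonneg_right hc' hL0.le
      linarith
    have h5 : ‖exp (u * sg x y * cA (Real.log ‖x‖ / L) / 2) *
        (u * sg x y * deriv cA (Real.log ‖x‖ / L) / (4 * L)) * (x ^ 2 - 1)‖ ≤
        1 / 16 * (‖exp (u * sg x y * cA (Real.log ‖x‖ / L) / 2)‖ * ‖x ^ 2 + 1‖) := by
      rw [norm_mul, norm_mul]
      have a1 := mul_le_mul (mul_le_mul_of_nonneg_left h4 hE0) h2 (norm_nonneg _) (by positivity)
      linarith
    refine (add_le_add ((norm_add_le _ _).trans (add_le_add_left (norm_add_le _ _) _)) hB).trans ?_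
    rw [norm_mul r x, norm_mul (sg x y * y / x ^ 2), norm_mul (sg x y * y / x ^ 2),
      norm_mul (r * _), norm_mul r]
    generalize ‖exp (u * sg x y * cA (Real.log ‖x‖ / L) / 2) *
        (u * sg x y * deriv cA (Real.log ‖x‖ / L) / (4 * L)) * (x ^ 2 - 1)‖ = P at h5 ⊢
    generalize hZ1 : ‖x ^ 3 * ((cZ (‖x ^ 2 + 1‖ ^ 2) : ℂ) +
      (‖x ^ 2 + 1‖ ^ 2 : ℝ) * deriv cZ (‖x ^ 2 + 1‖ ^ 2))‖ = Z1 at h3 ⊢
    generalize hZ2 : ‖x ^ 2 + 1‖ ^ 2 * |deriv cZ (‖x ^ 2 + 1‖ ^ 2)| * ‖x‖ ^ 3 = Z2 at h3 ⊢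
    have hZ0 : 0 ≤ Z1 + Z2 := by
      rw [← hZ1, ← hZ2]
      positivity
    have a1 := mul_le_mul hrE h1 (norm_nonneg _) (mul_nonneg hε0 hE0)
    have a3 := mul_le_mul hj5 (mul_le_mul (mul_le_mul hrE hJ (norm_nonneg _) (mul_nonneg hε0 hE0))
      h3 hZ0 (by positivity)) (by positivity) (by norm_num)
    have a4 := mul_le_mul_of_nonneg_right hε.le hEw
    have a5 := mul_nonneg hε0 hEw
    have a6 : ‖sg x y * y / x ^ 2‖ * P ≤
        2 * (1 / 16 * (‖exp (u * sg x y * cA (Real.log ‖x‖ / L) / 2)‖ * ‖x ^ 2 + 1‖)) :=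
      (mul_le_mul_of_nonneg_left h5 (norm_nonneg _)).trans
        (mul_le_mul_of_nonneg_right hj5 (by positivity))
    linarith

end Pool.Agent.MP_e62289_ag

end

section

open Set Filter Topology Complex MeasureTheory Metric
open scoped Manifold ContDiff ComplexConjugate NNReal ENNReal

namespace Pool.Agent.MP_e62289_ag

theorem X8_loc {f : ℝ → ℝ} {U : Set ℝ} (hU : IsOpen U) {c t : ℝ} (h : ∀ x ∈ U, f x = c)
    (ht : t ∈ U) : f t = c ∧ deriv f t = 0 :=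
  ⟨h t ht, by
    rw [EventuallyEq.deriv_eq (f := fun _ => c) (mem_of_superset (hU.mem_nhds ht) h), deriv_const]⟩

theorem X8_cA1 {t : ℝ} (h : t ^ 2 < 1) : cA t = 1 ∧ deriv cA t = 0 :=
  X8_loc (U := {x | x ^ 2 < 1}) (isOpen_lt (by fun_prop) (by fun_prop))
    (fun x (hx : x ^ 2 < 1) => Real.smoothTransition.one_of_one_le (by linarith)) h

theorem X8_cA0 {t : ℝ} (h : 4 < t ^ 2) : cA t = 0 ∧ deriv cA t = 0 :=
  X8_loc (U := {x | 4 < x ^ 2}) (isOpen_lt (by fun_prop) (by fun_prop))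
    (fun x (hx : 4 < x ^ 2) => Real.smoothTransition.zero_of_nonpos (by linarith)) h

theorem X8_cZ1 {t : ℝ} (h : t < 1 / 16) : cZ t = 1 ∧ deriv cZ t = 0 :=
  X8_loc (U := Iio (1 / 16)) isOpen_Iio
    (fun x (hx : x < 1 / 16) => Real.smoothTransition.one_of_one_le (by linarith)) h

theorem X8_cZ0 {t : ℝ} (h : 1 / 4 < t) : cZ t = 0 ∧ deriv cZ t = 0 :=
  X8_loc (U := Ioi (1 / 4)) isOpen_Ioi
    (fun x (hx : 1 / 4 < x) => Real.smoothTransition.zero_of_nonpos (by linarith)) h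

variable {L : ℝ}

theorem X8_s (hL : 1 ≤ L) : Real.exp (-4 * L) ≤ 1 / 16 := by
  have h1 : (2 : ℝ) ^ 4 ≤ Real.exp 1 ^ 4 :=
    pow_le_pow_left₀ (by norm_num) (by linarith [Real.add_one_le_exp 1]) 4
  rw [Real.exp_one_pow] at h1
  have h2 : Real.exp ((4 : ℕ) : ℝ) ≤ Real.exp (4 * L) := Real.exp_le_exp.2 (by push_cast; linarith)
  rw [neg_mul, Real.exp_neg, one_div]
  exact inv_anti₀ (by norm_num) (by linarith)

theorem X8_far (hL : 1 ≤ L) {x : ℂ} (h1 : 4 * L < |Real.log ‖x‖|) (h2 : 1 / 2 < ‖x ^ 2 + 1‖)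
    (u t y : ℂ) : K2 L u t x y = 0 ∧ K1 L u t x y = 0 := by
  have hA := X8_cA0 (t := Real.log ‖x‖ / L) (by
    rw [div_pow, lt_div_iff₀ (by positivity), ← sq_abs (Real.log _)]; nlinarith)
  have hZ := X8_cZ0 (t := ‖x ^ 2 + 1‖ ^ 2) (by nlinarith)
  simp [K1, K2, hA.1, hA.2, hZ.1, hZ.2]

theorem X8_log {a x : ℂ} (ha : a ^ 2 = -1) (h : ‖x - a‖ < 1 / 32) :
    x ≠ 0 ∧ |Real.log ‖x‖| < 1 ∧ ‖x ^ 2 + 1‖ ^ 2 < 1 / 16 := by
  have h0 : ‖a‖ = 1 := by
    have := congrArg norm ha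
    rw [norm_pow, norm_neg, norm_one] at this
    nlinarith [norm_nonneg a]
  have h1 := abs_lt.1 ((abs_norm_sub_norm_le x a).trans_lt h)
  have h2 : 0 < ‖x‖ := by linarith
  refine ⟨norm_pos_iff.1 h2, abs_lt.2 ⟨?_, ?_⟩, ?_⟩
  · have h3 := Real.one_sub_inv_le_log_of_pos h2
    have h4 : ‖x‖⁻¹ < 2 := by rw [inv_lt_comm₀ h2 (by norm_num)]; linarith
    linarith
  · linarith [Real.log_le_sub_one_of_pos h2]
  · have h3 : x ^ 2 + 1 = (x - a) * (x + a) := by linear_combination ha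
    have h4 := norm_add_le x a
    have h5 : ‖x ^ 2 + 1‖ ≤ 1 / 32 * 3 := by
      rw [h3, norm_mul]
      exact mul_le_mul h.le (by linarith) (norm_nonneg _) (by norm_num)
    nlinarith [norm_nonneg (x ^ 2 + 1)]

theorem X8_near (hL : 1 ≤ L) {a x : ℂ} (ha : a ^ 2 = -1) (h : ‖x - a‖ < 1 / 32) (u t y : ℂ) :
    K2 L u t x y = 0 ∧ K1 L u t x y = sg x y * ((exp (u * sg x y / 2) - 1) * (1 + 1 / x ^ 2) +
      t / (1 - (Real.exp (-4 * L) : ℂ) ^ 4) * x) := by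
  obtain ⟨_, h1, h2⟩ := X8_log ha h
  have hA := X8_cA1 (t := Real.log ‖x‖ / L) (by
    rw [div_pow, div_lt_one (by positivity), ← sq_abs (Real.log _)]
    nlinarith [abs_nonneg (Real.log ‖x‖)])
  have hZ := X8_cZ1 h2
  rw [K1, K2, hA.1, hA.2, hZ.1, hZ.2]
  simp

namespace Hyp

variable {s : ℝ} (H : Hyp s)

theorem X8_ball {i : Fin 8} {q : H.S.Y} (hq : q ∈ (H.S.e i).source) :
    H.S.e i q ∈ ball (0 : ℂ) 1 ∧ H.S.e i q ≠ 0 := by
  have := (H.S.e i).map_source hq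
  rwa [H.S.e_target] at this

theorem X8_d {i : Fin 8} {q : H.S.Y} (hq : q ∈ (H.S.e i).source) {g : ℂ → ℂ} {c : ℂ}
    (hg : HasDerivAt g c (H.S.e i q)) (h : ∀ q ∈ (H.S.e i).source, H.x q = g (H.S.e i q)) :
    H.y q = c * d1 (H.S.e i) q := by
  rw [← H.d1x, ← (d_hol_comp hg (d2_of_hol ((coord_hol (H.S.e_hol i)).1 q hq).1).1).2.1]
  exact (d_congr (mem_of_superset ((H.S.e i).open_source.mem_nhds hq) h)).1

theorem X8_fin {i : Fin 8} (hi : i.val < 6) {q : H.S.Y} (hq : q ∈ (H.S.e i).source) :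
    H.Yb i (H.S.e i q) = H.r * d1 (H.S.e i) q := by
  rw [← (H.fin i hi q hq).2]
  refine H.X8_d hq (g := fun z => xpt i + H.r * z) ?_ fun q hq => (H.fin i hi q hq).1
  simpa using ((hasDerivAt_id (H.S.e i q)).const_mul (H.r : ℂ)).const_add (xpt i)

theorem X8_inf {i : Fin 8} (hi : 6 ≤ i.val) {q : H.S.Y} (hq : q ∈ (H.S.e i).source) :
    H.y q = -H.r / (H.r * H.S.e i q) ^ 2 * d1 (H.S.e i) q := by
  refine H.X8_d hq (g := fun z => (H.r * z)⁻¹) ?_
    fun q hq => eq_inv_of_mul_eq_one_left (H.inf i hi q hq).1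
  have h0 : (H.r : ℂ) * H.S.e i q ≠ 0 := right_ne_zero_of_mul_eq_one (H.inf i hi q hq).1
  have := ((hasDerivAt_id (H.S.e i q)).const_mul (H.r : ℂ)).inv h0
  rwa [mul_one] at this

theorem X8_norm {z : ℂ} (hz : z ∈ ball (0 : ℂ) 1) : ‖(H.r : ℂ) * z‖ < s / 2 := by
  rw [norm_mul, norm_real, Real.norm_of_nonneg H.r_pos.le]
  nlinarith [mem_ball_zero_iff.1 hz, H.r_pos, H.r_le]

theorem X8_sq {i : Fin 8} (hi : i.val < 6) {z : ℂ} (hz : z ∈ ball (0 : ℂ) 1) :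
    H.Yb i z ^ 2 = PP s (xpt i + H.r * z) := by
  have key : ∀ z ∈ ball (0 : ℂ) 1, z ≠ 0 → H.Yb i z ^ 2 = PP s (xpt i + H.r * z) := by
    intro z hz h0
    have h1 : z ∈ (H.S.e i).target := by rw [H.S.e_target]; exact ⟨hz, h0⟩
    have h2 := H.fin i hi _ ((H.S.e i).map_target h1)
    rw [(H.S.e i).right_inv h1] at h2
    rw [← h2.1, ← h2.2, H.eqn]
  by_cases h0 : z = 0
  swap
  · exact key z hz h0
  subst h0
  have c1 : ContinuousAt (fun z => H.Yb i z ^ 2) 0 :=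
    ((H.Yb_hol i).continuousOn.continuousAt (ball_mem_nhds _ one_pos)).pow 2
  have c2 : ContinuousAt (fun z : ℂ => PP s (xpt i + H.r * z)) 0 := by unfold PP; fun_prop
  refine tendsto_nhds_unique (l := 𝓝[≠] 0) (c1.tendsto.mono_left nhdsWithin_le_nhds)
    ((c2.tendsto.mono_left nhdsWithin_le_nhds).congr' ?_)
  filter_upwards [self_mem_nhdsWithin, mem_nhdsWithin_of_mem_nhds (ball_mem_nhds (0 : ℂ) one_pos)]
    with w h1 h2 using (key w h2 h1).symm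

theorem X8_Yb (i : Fin 8) : DifferentiableOn ℂ (fun p : ℂ × P2 => H.Yb i p.1) (ball 0 1 ×ˢ univ) :=
  (H.Yb_hol i).comp differentiableOn_fst fun _ h => h.1

end Hyp

theorem X8_an {Φ : ℂ × P2 → ℂ} (h : DifferentiableOn ℂ Φ (ball 0 1 ×ˢ univ)) (t : P2) :
    AnalyticAt ℂ (fun z => Φ (z, t)) 0 :=
  DifferentiableOn.analyticAt (s := ball 0 1)
    (h.comp (f := fun z => (z, t)) (by fun_prop) fun _ hz => ⟨hz, trivial⟩)
    (ball_mem_nhds _ one_pos)

theorem X8_div {f g : ℂ × P2 → ℂ} {s : Set (ℂ × P2)} (hf : DifferentiableOn ℂ f s)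
    (hg : DifferentiableOn ℂ g s) (h : ∀ p ∈ s, g p ≠ 0) :
    DifferentiableOn ℂ (fun p => f p / g p) s := by
  simp only [div_eq_mul_inv]
  exact hf.mul (hg.inv h)

/-- the statement at one end -/
def X8P (H : Hyp (Real.exp (-4 * L))) (i : Fin 8) (k : ℕ) : Prop :=
  ∃ Φ : ℂ × P2 → ℂ, DifferentiableOn ℂ Φ (ball 0 1 ×ˢ univ) ∧
    (∀ (t : P2), ∀ q ∈ (H.S.e i).source, K2 L (t 0) (t 1) (H.x q) (H.y q) = 0 ∧
      H.x q ^ 2 + 1 + t 1 * H.x q + K1 L (t 0) (t 1) (H.x q) (H.y q) * H.y q =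
        Φ (H.S.e i q, t) * d1 (H.S.e i) q) ∧
    ∀ t ∈ DD 1 (1 / 2) L, analyticOrderAt (fun z => Φ (z, t)) 0 = (k : ℕ∞)

theorem X8_zero (hL : 1 ≤ L) (H : Hyp (Real.exp (-4 * L))) {i : Fin 8} (hi : i.val < 6)
    (h0 : xpt i = 0) : X8P H i 0 := by
  have hr : (H.r : ℂ) ≠ 0 := ofReal_ne_zero.2 H.r_pos.ne'
  refine ⟨fun p => H.r * ((H.r * p.1) ^ 2 + 1 + p.2 1 * (H.r * p.1)) / H.Yb i p.1,
    X8_div (by fun_prop) (H.X8_Yb i) fun p hp => H.Yb_ne i _ hp.1,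
    fun t q hq => ?_, fun t _ => analyticOrderAt_eq_zero.2 (Or.inr ?_)⟩
  · have h1 := (H.fin i hi q hq).1
    rw [h0, zero_add] at h1
    have h2 := H.X8_norm (H.X8_ball hq).1
    rw [← h1] at h2
    have h3 := X8_s hL
    have h4 := norm_pos_iff.2 (H.x_ne q)
    have h5 : Real.log ‖H.x q‖ < -4 * L := by
      rw [Real.log_lt_iff_lt_exp h4]; linarith [Real.exp_pos (-4 * L)]
    have h6 := X8_far hL (x := H.x q) (by rw [lt_abs]; right; linarith) (by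
      have := norm_sub_norm_le (1 : ℂ) (-H.x q ^ 2)
      rw [norm_neg, norm_pow, norm_one, sub_neg_eq_add, add_comm] at this
      nlinarith) (t 0) (t 1) (H.y q)
    refine ⟨h6.1, ?_⟩
    have h7 := H.Yb_ne i _ (H.X8_ball hq).1
    rw [h6.2, h1]
    field_simp
    rw [H.X8_fin hi hq]
    ring
  · simpa [hr] using H.Yb_ne i 0 (mem_ball_self one_pos)

theorem X8_infty (hL : 1 ≤ L) (H : Hyp (Real.exp (-4 * L))) {i : Fin 8} (hi : 6 ≤ i.val) :
    X8P H i 0 := by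
  have hr : (H.r : ℂ) ≠ 0 := ofReal_ne_zero.2 H.r_pos.ne'
  refine ⟨fun p => -((H.r : ℂ) ^ 3)⁻¹ * (1 + (H.r * p.1) ^ 2 + p.2 1 * (H.r * p.1)) / H.Yb i p.1,
    X8_div (by fun_prop) (H.X8_Yb i) fun p hp => H.Yb_ne i _ hp.1,
    fun t q hq => ?_, fun t _ => analyticOrderAt_eq_zero.2 (Or.inr ?_)⟩
  · obtain ⟨h1, h1'⟩ := H.inf i hi q hq
    obtain ⟨b1, b2⟩ := H.X8_ball hq
    have h2 := H.X8_norm b1
    have h3 := X8_s hL
    have h4 := norm_pos_iff.2 (H.x_ne q)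
    have h8 : ‖H.x q‖ * ‖(H.r : ℂ) * H.S.e i q‖ = 1 := by rw [← norm_mul, h1, norm_one]
    have h9 := Real.exp_pos (-4 * L)
    have h10 : 2 < ‖H.x q‖ * Real.exp (-4 * L) := by nlinarith
    have h5 : 4 * L < Real.log ‖H.x q‖ := by
      have := Real.log_pos (by linarith : 1 < ‖H.x q‖ * Real.exp (-4 * L))
      rw [Real.log_mul h4.ne' h9.ne', Real.log_exp] at this
      linarith
    have h6 := X8_far hL (x := H.x q) (h5.trans_le (le_abs_self _)) (by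
      have := norm_sub_norm_le (H.x q ^ 2) (-1)
      rw [norm_neg, norm_pow, norm_one, sub_neg_eq_add] at this
      have h11 : 2 < ‖H.x q‖ := by nlinarith
      nlinarith) (t 0) (t 1) (H.y q)
    refine ⟨h6.1, ?_⟩
    have h7 := H.Yb_ne i _ b1
    have h11 := H.X8_inf hi hq
    rw [h6.2, eq_inv_of_mul_eq_one_left h1]
    dsimp only
    rw [← h1', h11] at h7 ⊢
    have h12 : d1 (H.S.e i) q ≠ 0 := fun h => h7 (by rw [h]; simp)
    field_simp
    ring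
  · simpa [hr] using H.Yb_ne i 0 (mem_ball_self one_pos)

theorem X8_sg (hL : 1 ≤ L) (H : Hyp (Real.exp (-4 * L))) {i : Fin 8} (hi : i.val < 6)
    (ha : xpt i ^ 2 = -1) {z : ℂ} (hz : z ∈ ball (0 : ℂ) 1) :
    sg (xpt i + H.r * z) (H.Yb i z) = sg (xpt i + H.r * 0) (H.Yb i 0) := by
  have h1 : ∀ z ∈ ball (0 : ℂ) 1, ‖xpt i + H.r * z - xpt i‖ < 1 / 32 := fun z hz => by
    rw [add_sub_cancel_left]; linarith [H.X8_norm hz, X8_s hL]
  have h2 : ∀ z ∈ ball (0 : ℂ) 1, (H.Yb i z / (xpt i + H.r * z) ^ 2).re ≠ 0 := fun z hz =>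
    (sheet hL (H.X8_sq hi hz) (X8_log ha (h1 z hz)).1
      (by linarith [(X8_log ha (h1 z hz)).2.1])).1
  have h3 : ContinuousOn (fun z => (H.Yb i z / (xpt i + H.r * z) ^ 2).re) (ball 0 1) :=
    continuous_re.comp_continuousOn ((H.Yb_hol i).continuousOn.div (by fun_prop)
      fun z hz => pow_ne_zero 2 (X8_log ha (h1 z hz)).1)
  have h4 : ∀ z ∈ ball (0 : ℂ) 1, ∀ w ∈ ball (0 : ℂ) 1,
      0 < (H.Yb i z / (xpt i + H.r * z) ^ 2).re → 0 < (H.Yb i w / (xpt i + H.r * w) ^ 2).re := by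
    intro z hz w hw h
    by_contra h'
    obtain ⟨v, hv, e⟩ := (convex_ball (0 : ℂ) 1).isPreconnected.intermediate_value hw hz h3
      ⟨not_lt.1 h', h.le⟩
    exact h2 v hv e
  exact if_congr ⟨h4 _ hz _ (mem_ball_self one_pos), h4 _ (mem_ball_self one_pos) _ hz⟩ rfl rfl

theorem X8_j {a y : ℂ} {j : ℝ} (ha : a ^ 2 = -1) (hj : 0 < j) (h : y ^ 2 = j ^ 2) :
    sg a y * y = -j := by
  rw [sg, ha]
  rcases sq_eq_sq_iff_eq_or_eq_neg.1 h with rfl | rfl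
  · rw [if_neg (by simp [div_neg, hj.le])]; ring
  · rw [if_pos (by simp [div_neg, hj])]; ring

theorem X8_ne (hL : 1 ≤ L) {a σ : ℂ} (ha : ‖a‖ = 1) (hσ : ‖σ‖ = 1) {t : P2}
    (ht : t ∈ DD 1 (1 / 2) L) :
    1 + (1 - (Real.exp (-4 * L) : ℂ) ^ 4) * (exp (t 0 * σ / 2) - 1) + t 1 * a ≠ 0 := by
  obtain ⟨h1, h2⟩ : ‖t 0‖ < 1 * L ∧ ‖t 1‖ < 1 / 2 * Real.exp (-‖t 0‖ / 2) := ht
  have h3 := X8_s hL
  have h4 : Real.exp (-4 * L) ≤ Real.exp (-‖t 0‖ / 2) := Real.exp_le_exp.2 (by linarith)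
  have h5 : Real.exp (-‖t 0‖ / 2) ≤ ‖exp (t 0 * σ / 2)‖ := by
    rw [norm_exp, Real.exp_le_exp]
    have := (abs_le.1 (abs_re_le_norm (t 0 * σ / 2))).1
    rw [norm_div, norm_mul, hσ, mul_one, norm_ofNat] at this
    linarith
  have h6 := Real.exp_pos (-4 * L)
  generalize Real.exp (-4 * L) = s at *
  generalize Real.exp (-‖t 0‖ / 2) = m at *
  have h7 : s ^ 2 ≤ 1 / 16 := by nlinarith
  have h8 : s ^ 4 ≤ 1 / 16 * s := by nlinarith [mul_pos h6 h6]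
  intro h
  have h9 : ((1 - s ^ 4 : ℝ) : ℂ) * exp (t 0 * σ / 2) = -(((s ^ 4 : ℝ) : ℂ) + t 1 * a) := by
    push_cast; linear_combination h
  have h10 := congrArg norm h9
  have h11 := norm_add_le ((s ^ 4 : ℝ) : ℂ) (t 1 * a)
  rw [norm_mul, norm_neg, norm_real, Real.norm_of_nonneg (by nlinarith)] at h10
  rw [norm_mul, ha, norm_real, Real.norm_of_nonneg (by positivity)] at h11
  nlinarith

theorem X8_one (hL : 1 ≤ L) (H : Hyp (Real.exp (-4 * L))) {i : Fin 8} (hi : i.val < 6)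
    (ha : xpt i ^ 2 = -1) : X8P H i 1 := by
  have hr : (H.r : ℂ) ≠ 0 := ofReal_ne_zero.2 H.r_pos.ne'
  have h1 : ∀ z ∈ ball (0 : ℂ) 1, ‖xpt i + H.r * z - xpt i‖ < 1 / 32 := fun z hz => by
    rw [add_sub_cancel_left]; linarith [H.X8_norm hz, X8_s hL]
  obtain ⟨σ, hσ⟩ : ∃ σ, σ = sg (xpt i + H.r * 0) (H.Yb i 0) := ⟨_, rfl⟩
  obtain ⟨J, hJ⟩ : ∃ J : ℂ, J = 1 - (Real.exp (-4 * L) : ℂ) ^ 4 := ⟨_, rfl⟩
  have hd : DifferentiableOn ℂ (fun p : ℂ × P2 => H.r * ((xpt i + H.r * p.1) ^ 2 + 1 +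
      p.2 1 * (xpt i + H.r * p.1) + σ * ((exp (p.2 0 * σ / 2) - 1) *
        (1 + 1 / (xpt i + H.r * p.1) ^ 2) + p.2 1 / J * (xpt i + H.r * p.1)) * H.Yb i p.1) /
      H.Yb i p.1) (ball 0 1 ×ˢ univ) := by
    refine X8_div (DifferentiableOn.const_mul (DifferentiableOn.add (by fun_prop)
      (DifferentiableOn.mul (DifferentiableOn.const_mul (DifferentiableOn.add
        (DifferentiableOn.mul (by fun_prop) (DifferentiableOn.const_add _ ?_)) (by fun_prop)) _)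
        (H.X8_Yb i))) _) (H.X8_Yb i) fun p hp => H.Yb_ne i _ hp.1
    exact X8_div (by fun_prop) (by fun_prop)
      fun p hp => pow_ne_zero 2 (X8_log ha (h1 _ hp.1)).1
  refine ⟨_, hd, fun t q hq => ?_, fun t ht => ?_⟩
  · obtain ⟨b1, _⟩ := H.X8_ball hq
    obtain ⟨e1, e2⟩ := H.fin i hi q hq
    have h2 := X8_near hL ha (h1 _ b1) (t 0) (t 1) (H.Yb i (H.S.e i q))
    rw [X8_sg hL H hi ha b1, ← hσ, ← hJ] at h2
    rw [e1, e2, h2.2]
    refine ⟨h2.1, ?_⟩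
    have h7 := H.Yb_ne i _ b1
    dsimp only
    rw [div_mul_eq_mul_div _ (H.Yb i _), eq_div_iff h7]
    linear_combination ((xpt i + H.r * H.S.e i q) ^ 2 + 1 + t 1 * (xpt i + H.r * H.S.e i q) +
      σ * ((exp (t 0 * σ / 2) - 1) * (1 + 1 / (xpt i + H.r * H.S.e i q) ^ 2) +
        t 1 / J * (xpt i + H.r * H.S.e i q)) * H.Yb i (H.S.e i q)) * H.X8_fin hi hq
  have b0 := mem_ball_self (x := (0 : ℂ)) one_pos
  have a0 : xpt i ≠ 0 := fun h => by simp [h] at ha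
  have a1 : ‖xpt i‖ = 1 := by
    have := congrArg norm ha
    rw [norm_pow, norm_neg, norm_one] at this
    nlinarith [norm_nonneg (xpt i)]
  have hs := X8_s hL
  have hs0 := Real.exp_pos (-4 * L)
  have hj : 0 < 1 - Real.exp (-4 * L) ^ 4 := sub_pos.2 (pow_lt_one₀ hs0.le (by linarith) (by decide))
  have hJ' : J = ((1 - Real.exp (-4 * L) ^ 4 : ℝ) : ℂ) := by rw [hJ, ofReal_sub, ofReal_pow]; rfl
  have hJ0 : J ≠ 0 := hJ' ▸ ofReal_ne_zero.2 hj.ne'
  have a4 : xpt i ^ 4 = 1 := by linear_combination (xpt i ^ 2 - 1) * ha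
  have y0 : H.Yb i 0 ^ 2 = J ^ 2 := by
    rw [H.X8_sq hi b0, PP, mul_zero, add_zero, a4, hJ]; ring
  have y1 : σ * H.Yb i 0 = -J := by
    rw [hσ, mul_zero, add_zero, hJ']; exact X8_j ha hj (hJ' ▸ y0)
  have y2 := H.Yb_ne i 0 b0
  have s1 : ‖σ‖ = 1 := by rw [hσ, sg]; split_ifs <;> simp
  have hY := ((H.Yb_hol i).differentiableAt (ball_mem_nhds _ one_pos)).hasDerivAt
  generalize deriv (H.Yb i) 0 = Y' at hY
  have hx : HasDerivAt (fun z : ℂ => xpt i + H.r * z) H.r 0 := by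
    simpa using ((hasDerivAt_id (0 : ℂ)).const_mul (H.r : ℂ)).const_add (xpt i)
  have y3 : Y' = 2 * H.r * xpt i ^ 3 * H.Yb i 0 := by
    have d1 := hY.fun_pow 2
    have d2 := ((hx.fun_pow 4).sub_const ((Real.exp (-4 * L) : ℂ) ^ 4)).fun_mul
      (((hx.fun_pow 4).const_mul ((Real.exp (-4 * L) : ℂ) ^ 4)).const_sub 1)
    have d3 := d1.unique (d2.congr_of_eventuallyEq
      (mem_of_superset (ball_mem_nhds _ one_pos) fun z hz => H.X8_sq hi hz))
    apply mul_left_cancel₀ (mul_ne_zero two_ne_zero y2)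
    simp only [mul_zero, add_zero, a4] at d3
    push_cast at d3
    rw [hJ] at y0
    push_cast at y0
    linear_combination d3 - 4 * H.r * xpt i ^ 3 * y0
  have hN := (((((hx.fun_pow 2).add_const 1).fun_add (hx.const_mul (t 1))).fun_add
    (((((((hasDerivAt_const (0 : ℂ) (1 : ℂ)).fun_div (hx.fun_pow 2)
      (by simpa using a0)).const_add 1).const_mul (exp (t 0 * σ / 2) - 1)).fun_add
        (hx.const_mul (t 1 / J))).const_mul σ).fun_mul hY)).const_mul (H.r : ℂ)).fun_div hY y2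
  have v0 : (xpt i + H.r * 0) ^ 2 + 1 + t 1 * (xpt i + H.r * 0) + σ * ((exp (t 0 * σ / 2) - 1) *
      (1 + 1 / (xpt i + H.r * 0) ^ 2) + t 1 / J * (xpt i + H.r * 0)) * H.Yb i 0 = 0 := by
    rw [mul_zero, add_zero, ha]
    field_simp
    linear_combination (t 1 * xpt i) * y1
  refine (X8_an hd t).analyticOrderAt_eq_one_of_zero_deriv_ne_zero (by simp only [v0]; simp) ?_
  rw [hN.deriv, v0]
  have h5 := X8_ne hL a1 s1 ht
  rw [← hJ] at h5
  refine div_ne_zero ?_ (pow_ne_zero 2 y2)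
  rw [mul_zero (H.r : ℂ), zero_mul Y', sub_zero]
  refine mul_ne_zero (mul_ne_zero hr fun h => h5 ?_) y2
  apply mul_left_cancel₀ (mul_ne_zero (mul_ne_zero two_ne_zero hr) a0)
  rw [add_zero, ha, y3] at h
  have e : t 1 / J * J = t 1 := div_mul_cancel₀ _ hJ0
  generalize t 1 / J = τ at h e
  generalize exp (t 0 * σ / 2) = E at h ⊢
  push_cast at h
  linear_combination h - (-2 * xpt i * H.r * (E - 1) + τ * H.r + 2 * τ * H.r * xpt i ^ 4) * y1 +
    (H.r + 2 * H.r * xpt i ^ 4) * e + 2 * H.r * t 1 * xpt i ^ 2 * ha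

/-- the deformed forms at the marked points -/
theorem K_ends : ∃ ε L₀ : ℝ, 0 < ε ∧ 1 ≤ L₀ ∧ ∀ L, L₀ ≤ L → ∀ H : Hyp (Real.exp (-4 * L)),
    ∃ Φ : Fin 8 → ℂ × P2 → ℂ, (∀ i, DifferentiableOn ℂ (Φ i) (ball 0 1 ×ˢ univ)) ∧
      (∀ i (t : P2), ∀ q ∈ (H.S.e i).source, K2 L (t 0) (t 1) (H.x q) (H.y q) = 0 ∧
        H.x q ^ 2 + 1 + t 1 * H.x q + K1 L (t 0) (t 1) (H.x q) (H.y q) * H.y q =
          Φ i (H.S.e i q, t) * d1 (H.S.e i) q) ∧
      ∀ i, ∀ t ∈ DD 1 ε L, analyticOrderAt (fun z => Φ i (z, t)) 0 = ((aa i - 1 : ℕ) : ℕ∞) := by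
  refine ⟨1 / 2, 1, by norm_num, le_rfl, fun L hL H => ?_⟩
  have key : ∀ i, X8P H i (aa i - 1) := fun i => by
    fin_cases i
    exacts [X8_one hL H (by decide) I_sq, X8_one hL H (by decide) I_sq,
      X8_one hL H (by decide) ((neg_sq I).trans I_sq),
      X8_one hL H (by decide) ((neg_sq I).trans I_sq), X8_zero hL H (by decide) rfl,
      X8_zero hL H (by decide) rfl, X8_infty hL H (by decide), X8_infty hL H (by decide)]
  choose Φ h1 h2 h3 using key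
  exact ⟨Φ, h1, h2, h3⟩

end Pool.Agent.MP_e62289_ag

end

section

open Set Filter Topology Complex MeasureTheory Metric
open scoped Manifold ContDiff ComplexConjugate NNReal ENNReal

namespace Pool.Agent.MP_e62289_ag

/-- the main density -/
noncomputable def X9g (z : ℂ) : ℝ := ‖z‖ ^ 2 * -deriv cZ (‖z ^ 2 + 1‖ ^ 2)

/-- the density of the error term -/
noncomputable def X9h (z : ℂ) : ℝ := (1 + ‖z‖ ^ 2)⁻¹ ^ 2

theorem X9_cZ : ContDiff ℝ 1 cZ := by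
  unfold cZ
  exact Real.smoothTransition.contDiff.comp (by fun_prop)

theorem X9_cA : ContDiff ℝ 1 cA := by
  unfold cA
  exact Real.smoothTransition.contDiff.comp (by fun_prop)

theorem X9_dZ {t : ℝ} (h : deriv cZ t ≠ 0) : t ≤ 1 / 4 := by
  by_contra ht
  refine h ?_
  have e : cZ =ᶠ[𝓝 t] fun _ => 0 := by
    filter_upwards [lt_mem_nhds (not_le.1 ht)] with u hu
    exact Real.smoothTransition.zero_of_nonpos (by linarith)
  rw [e.deriv_eq, deriv_const]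

theorem X9_dA {t : ℝ} (h : deriv cA t ≠ 0) : 1 ≤ |t| := by
  by_contra ht
  refine h ?_
  have e : cA =ᶠ[𝓝 t] fun _ => 1 := by
    filter_upwards [(continuous_abs.tendsto t).eventually (gt_mem_nhds (not_le.1 ht))] with u hu
    have h1 : u ^ 2 ≤ 1 := (sq_le_one_iff_abs_le_one u).2 hu.le
    exact Real.smoothTransition.one_of_one_le (by linarith)
  rw [e.deriv_eq, deriv_const]

theorem X9_bA : ∃ C : ℝ, ∀ t, ‖deriv cA t‖ ≤ C := by
  refine (X9_cA.continuous_deriv le_rfl).bounded_above_of_compact_support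
    (HasCompactSupport.deriv (HasCompactSupport.intro (isCompact_Icc (a := -2) (b := 2)) ?_))
  intro t ht
  have h1 : 4 ≤ t ^ 2 := by
    by_contra h2
    refine ht ⟨?_, ?_⟩ <;> nlinarith
  exact Real.smoothTransition.zero_of_nonpos (by linarith)

theorem X9g_nonneg (z : ℂ) : 0 ≤ X9g z := by
  have h : Antitone cZ := fun a b hab => Real.smoothTransition.monotone (by linarith)
  exact mul_nonneg (sq_nonneg _) (neg_nonneg.2 h.deriv_nonpos)

theorem X9g_cont : Continuous X9g := by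
  have h := X9_cZ.continuous_deriv le_rfl
  unfold X9g
  fun_prop

theorem X9g_supp {z : ℂ} (h : X9g z ≠ 0) : 1 / 2 ≤ ‖z‖ ∧ ‖z‖ ≤ 2 := by
  have h1 := X9_dZ (neg_ne_zero.1 (right_ne_zero_of_mul h))
  have h2 : ‖z ^ 2 + 1‖ ≤ 1 / 2 := by nlinarith [norm_nonneg (z ^ 2 + 1)]
  have h3 := norm_sub_le (z ^ 2 + 1) 1
  have h4 := norm_sub_le (z ^ 2 + 1) (z ^ 2)
  rw [add_sub_cancel_right, norm_pow, norm_one] at h3
  rw [add_sub_cancel_left, norm_pow, norm_one] at h4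
  constructor <;> nlinarith [norm_nonneg z]

theorem X9g_cs : HasCompactSupport X9g :=
  HasCompactSupport.intro (isCompact_closedBall 0 2) fun z hz => by
    by_contra h
    exact hz (mem_closedBall_zero_iff.2 (X9g_supp h).2)

theorem X9g_pos : 0 < ∫ z, X9g z := by
  obtain ⟨t, ⟨h0, h1⟩, ht⟩ := exists_deriv_eq_slope cZ (a := 0) (b := 1 / 4) (by norm_num)
    X9_cZ.continuous.continuousOn (X9_cZ.differentiable one_ne_zero).differentiableOn
  have e0 : cZ 0 = 1 := Real.smoothTransition.one_of_one_le (by norm_num)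
  have e1 : cZ (1 / 4) = 0 := Real.smoothTransition.zero_of_nonpos (by norm_num)
  rw [e0, e1] at ht
  have h2 : √t < 1 := (Real.sqrt_lt' one_pos).2 (by linarith)
  have h3 : (I * (√(1 - √t) : ℝ)) ^ 2 + 1 = (√t : ℝ) := by
    rw [mul_pow, I_sq, ← ofReal_pow, Real.sq_sqrt (by linarith)]
    push_cast
    ring
  refine X9g_cont.integral_pos_of_hasCompactSupport_nonneg_nonzero X9g_cs X9g_nonneg
    (x := I * (√(1 - √t) : ℝ)) (mul_ne_zero (pow_ne_zero _ ?_) ?_)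
  · rw [norm_ne_zero_iff]
    exact mul_ne_zero I_ne_zero (ofReal_ne_zero.2 (Real.sqrt_pos.2 (by linarith)).ne')
  · rw [h3, norm_real, Real.norm_of_nonneg (Real.sqrt_nonneg t), Real.sq_sqrt h0.le, ht]
    norm_num

theorem X9h_int : Integrable X9h := by
  have h := integrable_rpow_neg_one_add_norm_sq (E := ℂ) (μ := volume) (r := 4) (by simp; norm_num)
  refine h.congr (Eventually.of_forall fun z => ?_)
  have e : (-4 : ℝ) / 2 = -((2 : ℕ) : ℝ) := by norm_num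
  simp only [X9h]
  rw [e, Real.rpow_neg (by positivity), Real.rpow_natCast, inv_pow]

theorem X9h_meas : Measurable X9h := by
  unfold X9h
  fun_prop

/-- transfer of integrals from the plane to the curve -/
theorem X9_transfer {s : ℝ} (H : Hyp s) (h0 : 0 < s) {g : ℂ → ℝ} (hm : Measurable g)
    (hg : ∀ z, 0 ≤ g z) (hi : Integrable g) :
    Integrable (fun q => ‖H.y q‖ ^ 2 * g (H.x q)) H.S.lam ∧
      ∫ q, ‖H.y q‖ ^ 2 * g (H.x q) ∂H.S.lam = 2 * ∫ z, g z := by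
  have hx := H.x_hol.continuous.measurable
  have hy := H.y_hol.continuous.measurable
  have h1 : ∫⁻ q, ENNReal.ofReal (‖H.y q‖ ^ 2 * g (H.x q)) ∂H.S.lam =
      ENNReal.ofReal (2 * ∫ z, g z) := by
    have h2 := H.lintegral_x h0 hm.ennreal_ofReal
    rw [← ofReal_integral_eq_lintegral_ofReal hi (Eventually.of_forall hg)] at h2
    rw [ENNReal.ofReal_mul zero_le_two, ENNReal.ofReal_ofNat, ← h2]
    refine lintegral_congr fun q => ?_
    rw [ENNReal.ofReal_mul (sq_nonneg _), ENNReal.ofReal_pow (norm_nonneg _), ofReal_norm_eq_enorm]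
  have h3 : AEStronglyMeasurable (fun q => ‖H.y q‖ ^ 2 * g (H.x q)) H.S.lam :=
    ((hy.norm.pow_const 2).mul (hm.comp hx)).aestronglyMeasurable
  have h4 : 0 ≤ᵐ[H.S.lam] fun q => ‖H.y q‖ ^ 2 * g (H.x q) :=
    Eventually.of_forall fun q => mul_nonneg (sq_nonneg _) (hg _)
  refine ⟨⟨h3, (hasFiniteIntegral_iff_ofReal h4).2 (h1 ▸ ENNReal.ofReal_lt_top)⟩, ?_⟩
  rw [integral_eq_lintegral_of_nonneg_ae h4 h3, h1, ENNReal.toReal_ofReal]
  exact mul_nonneg zero_le_two (integral_nonneg hg)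

theorem X9_main {L : ℝ} (hL : 1 ≤ L) {x y : ℂ} (h : y ^ 2 = PP (Real.exp (-4 * L)) x)
    (hx : x ≠ 0) {A : ℂ}
    (hA : A = X9g x * (sg x y * y / x ^ 2) / (2 * (1 - (Real.exp (-4 * L) : ℂ) ^ 4))) :
    X9g x / 4 ≤ A.re ∧ ‖A‖ ≤ 2 * X9g x := by
  by_cases h0 : X9g x = 0
  · simp [hA, h0]
  obtain ⟨h1, h2⟩ := X9g_supp h0
  have hg := X9g_nonneg x
  have h3 : |Real.log ‖x‖| ≤ 1 := by
    have a1 := Real.log_le_sub_one_of_pos (norm_pos_iff.2 hx)
    have a2 := Real.one_sub_inv_le_log_of_pos (norm_pos_iff.2 hx)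
    have a3 : ‖x‖⁻¹ ≤ 2 := by
      rw [inv_le_comm₀ (norm_pos_iff.2 hx) two_pos]
      linarith
    exact abs_le.2 ⟨by linarith, by linarith⟩
  have h4 := (sheet hL h hx (by linarith)).2
  have h5 : ∀ u : ℝ, u ≤ -12 → Real.exp u ≤ 1 / 6 := fun u hu => by
    have a1 := Real.add_one_le_exp (-u)
    have a2 : Real.exp u * Real.exp (-u) = 1 := by rw [← Real.exp_add]; simp
    nlinarith [Real.exp_pos u]
  have h6 := h5 (4 * |Real.log ‖x‖| - 16 * L) (by linarith)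
  generalize sg x y * y / x ^ 2 = j at *
  have h7 : 1 / 2 ≤ j.re := by
    have a1 := (abs_le.1 (abs_re_le_norm (j - 1))).1
    rw [sub_re, one_re] at a1
    linarith
  have h8 : ‖j‖ ≤ 2 := by
    have a1 := norm_add_le (j - 1) 1
    rw [sub_add_cancel, norm_one] at a1
    linarith
  obtain ⟨D, hD, d1, d2⟩ : ∃ D : ℝ, (2 * (1 - (Real.exp (-4 * L) : ℂ) ^ 4)) = D ∧ 1 ≤ D ∧
      D ≤ 2 := by
    refine ⟨2 * (1 - Real.exp (-4 * L) ^ 4), by push_cast; rfl, ?_, ?_⟩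
    · have a1 := h5 (((4 : ℕ) : ℝ) * (-4 * L)) (by push_cast; linarith)
      rw [Real.exp_nat_mul] at a1
      linarith
    · have a1 : 0 ≤ Real.exp (-4 * L) ^ 4 := by positivity
      linarith
  have d0 : 0 < D := by linarith
  rw [hA, hD]
  constructor
  · rw [div_ofReal_re, re_ofReal_mul, le_div_iff₀ d0]
    nlinarith [mul_le_mul_of_nonneg_left h7 hg, mul_le_mul_of_nonneg_left d2 hg]
  · rw [norm_div, norm_mul, norm_real, norm_real, Real.norm_of_nonneg hg,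
      Real.norm_of_nonneg d0.le, div_le_iff₀ d0]
    nlinarith [mul_le_mul_of_nonneg_left h8 hg, mul_le_mul_of_nonneg_left d1 hg]

theorem X9_err {L C : ℝ} (hL : 1 ≤ L) (hC : ∀ t, ‖deriv cA t‖ ≤ C) {x : ℂ} (hx : x ≠ 0) :
    ‖deriv cA (Real.log ‖x‖ / L) * (x ^ 2 - 1) * x / (4 * L * conj x * (x ^ 2 + 1) ^ 3)‖ ≤
      2 * C / L * X9h x := by
  have hC0 : 0 ≤ C := (norm_nonneg _).trans (hC 0)
  have hL0 : 0 < L := by linarith
  have hn := norm_pos_iff.2 hx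
  by_cases h0 : deriv cA (Real.log ‖x‖ / L) = 0
  · rw [h0, ofReal_zero, zero_mul, zero_mul, zero_div, norm_zero, X9h]
    positivity
  have h1 := X9_dA h0
  rw [abs_div, abs_of_pos hL0, one_le_div hL0] at h1
  have h2 : 3 / 5 * (1 + ‖x‖ ^ 2) ≤ ‖x ^ 2 + 1‖ := by
    have h3 := norm_sub_le (x ^ 2 + 1) 1
    have h4 := norm_sub_le (x ^ 2 + 1) (x ^ 2)
    rw [add_sub_cancel_right, norm_pow, norm_one] at h3
    rw [add_sub_cancel_left, norm_pow, norm_one] at h4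
    rcases le_abs.1 (hL.trans h1) with h5 | h5
    · have a1 := Real.log_le_sub_one_of_pos hn
      nlinarith
    · have a1 := Real.one_sub_inv_le_log_of_pos hn
      have a2 : 2 ≤ ‖x‖⁻¹ := by linarith
      rw [le_inv_comm₀ two_pos hn] at a2
      nlinarith
  have h3 : ‖x ^ 2 - 1‖ ≤ 1 + ‖x‖ ^ 2 := by
    have := norm_sub_le (x ^ 2) 1
    rw [norm_pow, norm_one] at this
    linarith
  have e4 : ‖(4 : ℂ)‖ = 4 := by simp
  rw [norm_div, norm_mul, norm_mul, norm_mul, norm_mul, norm_mul, norm_pow, norm_conj, norm_real,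
    norm_real, Real.norm_of_nonneg hL0.le, e4, X9h]
  have hb : 0 < 1 + ‖x‖ ^ 2 := by positivity
  calc _ ≤ C * (1 + ‖x‖ ^ 2) * ‖x‖ / (4 * L * ‖x‖ * (3 / 5 * (1 + ‖x‖ ^ 2)) ^ 3) := by
        gcongr
        exact hC _
    _ = 125 / 108 * (C / L * (1 + ‖x‖ ^ 2)⁻¹ ^ 2) := by
        field_simp
        ring
    _ ≤ 2 * (C / L * (1 + ‖x‖ ^ 2)⁻¹ ^ 2) := by
        gcongr
        norm_num
    _ = _ := by ring

theorem X9_point {L C : ℝ} (hL : 1 ≤ L) (hC : ∀ t, ‖deriv cA t‖ ≤ C) {x y : ℂ}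
    (h : y ^ 2 = PP (Real.exp (-4 * L)) x) (hx : x ≠ 0) :
    ‖y‖ ^ 2 * X9g x / 4 - 2 * C / L * (‖y‖ ^ 2 * X9h x) ≤ (nuX L x y).re ∧
      ‖nuX L x y‖ ≤ 2 * (‖y‖ ^ 2 * X9g x) + 2 * C / L * (‖y‖ ^ 2 * X9h x) := by
  obtain ⟨A, hA⟩ : ∃ A : ℂ,
      A = X9g x * (sg x y * y / x ^ 2) / (2 * (1 - (Real.exp (-4 * L) : ℂ) ^ 4)) := ⟨_, rfl⟩
  obtain ⟨a1, a2⟩ := X9_main hL h hx hA
  have b1 := X9_err hL hC hx
  obtain ⟨B, hB⟩ : ∃ B : ℂ, B = deriv cA (Real.log ‖x‖ / L) * (x ^ 2 - 1) * x /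
      (4 * L * conj x * (x ^ 2 + 1) ^ 3) := ⟨_, rfl⟩
  rw [← hB] at b1
  have e : nuX L x y = (‖y‖ ^ 2 : ℝ) * (A - B) := by
    rw [nuX, ← hB, hA, X9g, ofReal_mul, ofReal_neg]
    ring
  have hy := sq_nonneg ‖y‖
  rw [e]
  constructor
  · have b2 := (abs_le.1 (abs_re_le_norm B)).2
    rw [re_ofReal_mul, sub_re]
    have := mul_le_mul_of_nonneg_left (show X9g x / 4 - 2 * C / L * X9h x ≤ A.re - B.re by
      linarith) hy
    linarith
  · rw [norm_mul, norm_real, Real.norm_of_nonneg hy]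
    have := mul_le_mul_of_nonneg_left (show ‖A - B‖ ≤ 2 * X9g x + 2 * C / L * X9h x by
      linarith [norm_sub_le A B]) hy
    linarith

theorem X9_meas (L : ℝ) {Y : Type} [MeasurableSpace Y] {x y : Y → ℂ} (hx : Measurable x)
    (hy : Measurable y) : Measurable fun q => nuX L (x q) (y q) := by
  have h1 := (X9_cZ.continuous_deriv le_rfl).measurable
  have h2 := (X9_cA.continuous_deriv le_rfl).measurable
  have h3 : Measurable fun q => sg (x q) (y q) :=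
    Measurable.ite (measurableSet_lt measurable_const (by fun_prop)) measurable_const
      measurable_const
  have h4 : Measurable fun q => conj (x q) := continuous_conj.measurable.comp hx
  unfold nuX
  fun_prop

/-- the mixed second variation does not degenerate -/
theorem nu_lower : ∃ I₀ L₀ : ℝ, 0 < I₀ ∧ 1 ≤ L₀ ∧ ∀ L, L₀ ≤ L → ∀ H : Hyp (Real.exp (-4 * L)),
    I₀ ≤ ‖∫ q, nuX L (H.x q) (H.y q) ∂H.S.lam‖ := by
  obtain ⟨C, hC⟩ := X9_bA
  have hC0 : 0 ≤ C := (norm_nonneg _).trans (hC 0)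
  have hh : ∀ z, 0 ≤ X9h z := fun z => sq_nonneg _
  have hp := X9g_pos
  have hq : 0 ≤ ∫ z, X9h z := integral_nonneg hh
  refine ⟨(∫ z, X9g z) / 4, 1 + 16 * C * (∫ z, X9h z) / ∫ z, X9g z, by positivity,
    le_add_of_nonneg_right (by positivity), fun L hL H => ?_⟩
  have h0 : 0 ≤ 16 * C * (∫ z, X9h z) / ∫ z, X9g z := by positivity
  have hL1 : 1 ≤ L := by linarith
  have hL0 : 0 < L := by linarith
  obtain ⟨i1, e1⟩ := X9_transfer H (Real.exp_pos _) X9g_cont.measurable X9g_nonneg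
    (X9g_cont.integrable_of_hasCompactSupport X9g_cs)
  obtain ⟨i2, e2⟩ := X9_transfer H (Real.exp_pos _) X9h_meas hh X9h_int
  have hpt := fun q => X9_point hL1 hC (H.eqn q) (H.x_ne q)
  have i3 : Integrable (fun q => nuX L (H.x q) (H.y q)) H.S.lam :=
    ((i1.const_mul 2).add (i2.const_mul (2 * C / L))).mono'
      (X9_meas L H.x_hol.continuous.measurable H.y_hol.continuous.measurable).aestronglyMeasurable
      (Eventually.of_forall fun q => (hpt q).2)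
  have h1 := integral_mono ((i1.div_const 4).sub (i2.const_mul (2 * C / L))) i3.re
    fun q => (hpt q).1
  have h2 := integral_re i3
  simp only [Pi.sub_apply, RCLike.re_to_complex] at h1 h2
  rw [integral_sub (i1.div_const 4) (i2.const_mul (2 * C / L)), integral_div, integral_const_mul,
    e1, e2, h2] at h1
  refine le_trans ?_ (h1.trans (re_le_norm _))
  have h3 : 16 * C * (∫ z, X9h z) ≤ L * ∫ z, X9g z := by
    rw [← div_le_iff₀ hp]
    linarith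
  have h4 : 2 * C / L * (2 * ∫ z, X9h z) ≤ (∫ z, X9g z) / 4 := by
    rw [div_mul_eq_mul_div, div_le_iff₀ hL0]
    linarith
  linarith

end Pool.Agent.MP_e62289_ag

end
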