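import Pool.Agent.Mg.Fe62289.G7c39dc

section

open Set Filter Topology Complex MeasureTheory Metric
open scoped Manifold ContDiff ComplexConjugate NNReal ENNReal

namespace Pool.Agent.MP_e62289_ag

namespace Family

variable {E : Type} [NormedAddCommGroup E] [NormedSpace ℂ E] {B : Type} [TopologicalSpace B]
  [ChartedSpace E B] {n : ℕ} {a : Fin n → ℕ} {C : Family E B a} {V : Set B}
  {f : C.X → ℂ × B → ℂ} {b : B} {m : ℕ} {S : Flat m}

theorem F2a_chart {x : C.X} (y : C.Fib b) (hy : y.1 ∈ (C.chart x).source) :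
    ((C.chart x y.1).1, b) = C.chart x y.1 := by
  have e := C.chart_eq hy
  rwa [y.2.1] at e

theorem IsForm.analyticAt (hf : C.IsForm V f) (hV : IsOpen V) {x q : C.X}
    (hq : q ∈ (C.chart x).source) (hb : C.proj q ∈ V) :
    AnalyticAt ℂ (fun z => f x (z, C.proj q)) (C.chart x q).1 := by
  have ho : IsOpen ((C.chart x).target ∩ univ ×ˢ V) :=
    (C.chart x).open_target.inter (isOpen_univ.prod hV)
  have ho' := ho.preimage (Continuous.prodMk_left (C.proj q))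
  refine DifferentiableOn.analyticAt (fun z hz => ?_) (ho'.mem_nhds ?_)
  · have h1 := (hf.1 x _ hz).mdifferentiableAt (ho.mem_nhds hz)
    have h2 : MDifferentiableAt 𝓘(ℂ, ℂ) (𝓘(ℂ, ℂ).prod 𝓘(ℂ, E)) (fun z : ℂ => (z, C.proj q)) z :=
      mdifferentiableAt_id.prodMk mdifferentiableAt_const
    exact (mdifferentiableAt_iff_differentiableAt.1 (h1.comp z h2)).differentiableWithinAt
  · refine ⟨?_, mem_univ _, hb⟩
    change ((C.chart x q).1, C.proj q) ∈ _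
    rw [C.chart_eq hq]
    exact (C.chart x).map_source hq

/-- the pull back can be computed in any chart -/
theorem IsForm.pb_eq (hf : C.IsForm V f) (hb : b ∈ V) (G : Adm S.Y (C.Fib b)) {q : S.Y} {x : C.X}
    (hx : (G.φ q).1 ∈ (C.chart x).source) :
    C.pb1 f (fun y => (G.φ y).1) q =
      f x (C.chart x (G.φ q).1) * d1 (fun y => (C.chart x (G.φ y).1).1) q ∧
    C.pb2 f (fun y => (G.φ y).1) q =
      f x (C.chart x (G.φ q).1) * d2 (fun y => (C.chart x (G.φ y).1).1) q := by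
  have hp : ∀ y, C.proj (G.φ y).1 = b := fun y => (G.φ y).2.1
  have hc : Continuous fun y => (G.φ y).1 := continuous_subtype_val.comp G.φ.continuous
  have h1 := hf.2.1 x (G.φ q).1 (G.φ q).1 ⟨hx, C.mem_source _⟩ (by rw [hp]; exact hb)
  have h2 := (C.analyticAt_trans hx (C.mem_source _)).1.differentiableAt.hasDerivAt
  have h3 := d_hol_comp (u := fun y => (C.chart x (G.φ y).1).1) (q := q) h2
    ((C.ckAt_adm G hx).mdifferentiableAt (by simp))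
  have h4 : (fun y => (C.chart (G.φ q).1 (G.φ y).1).1) =ᶠ[𝓝 q] fun y => (C.chart (G.φ q).1
      ((C.chart x).symm ((C.chart x (G.φ y).1).1, C.proj (G.φ q).1))).1 := by
    filter_upwards [hc.continuousAt.preimage_mem_nhds ((C.chart x).open_source.mem_nhds hx)]
      with y hy
    rw [hp q, F2a_chart _ hy, (C.chart x).left_inv hy]
  rw [pb1, pb2, (d_congr h4).1, (d_congr h4).2, h3.2.1, h3.2.2, h1, mul_assoc, mul_assoc]
  exact ⟨rfl, rfl⟩

theorem IsForm.pb_closed (hf : C.IsForm V f) (hV : IsOpen V) (hb : b ∈ V) (G : Adm S.Y (C.Fib b))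
    (q : S.Y) : ∃ v : S.Y → ℂ, CkAt 2 v q ∧ C.pb1 f (fun y => (G.φ y).1) =ᶠ[𝓝 q] d1 v ∧
      C.pb2 f (fun y => (G.φ y).1) =ᶠ[𝓝 q] d2 v := by
  have hp : ∀ y, C.proj (G.φ y).1 = b := fun y => (G.φ y).2.1
  have hc : Continuous fun y => (G.φ y).1 := continuous_subtype_val.comp G.φ.continuous
  obtain ⟨x, hx⟩ : ∃ x, (G.φ q).1 ∈ (C.chart x).source := ⟨_, C.mem_source _⟩
  have h1 := hf.analyticAt hV hx (by rw [hp]; exact hb)
  rw [hp] at h1
  obtain ⟨r, hr, h2⟩ := Metric.eventually_nhds_iff_ball.1 h1.eventually_analyticAt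
  obtain ⟨P, hP⟩ := DifferentiableOn.isExactOn_ball
    (fun z hz => (h2 z hz).differentiableAt.differentiableWithinAt)
  have h3 := C.ckAt_adm G hx
  have h4 : AnalyticAt ℂ P (C.chart x (G.φ q).1).1 :=
    DifferentiableOn.analyticAt (fun z hz => (hP z hz).differentiableAt.differentiableWithinAt)
      (ball_mem_nhds _ hr)
  have h5 : ∀ᶠ y in 𝓝 q, C.pb1 f (fun y => (G.φ y).1) y =
      d1 (fun y => P (C.chart x (G.φ y).1).1) y ∧
      C.pb2 f (fun y => (G.φ y).1) y = d2 (fun y => P (C.chart x (G.φ y).1).1) y := by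
    filter_upwards [hc.continuousAt.preimage_mem_nhds ((C.chart x).open_source.mem_nhds hx),
      h3.continuousAt.preimage_mem_nhds (ball_mem_nhds _ hr)] with y hy hy'
    have h6 := d_hol_comp (u := fun y => (C.chart x (G.φ y).1).1) (q := y) (hP _ hy')
      ((C.ckAt_adm G hy).mdifferentiableAt (by simp))
    rw [(hf.pb_eq hb G hy).1, (hf.pb_eq hb G hy).2, h6.2.1, h6.2.2]
    simp only [F2a_chart _ hy, and_self]
  exact ⟨fun y => P (C.chart x (G.φ y).1).1,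
    ((h4.contDiffAt (n := 2)).restrict_scalars ℝ).contMDiffAt.comp q h3,
    h5.mono fun _ h => h.1, h5.mono fun _ h => h.2⟩

theorem pb2_eq (f : C.X → ℂ × B → ℂ) (G : Adm S.Y (C.Fib b)) (q : S.Y) :
    C.pb2 f (fun y => (G.φ y).1) q = bel G.φ q * C.pb1 f (fun y => (G.φ y).1) q := by
  have hx := C.mem_source (G.φ q).1
  obtain ⟨-, c, -, h1, h2⟩ := C.contMDiffAt_fib G.φ.continuous.continuousAt hx (C.ckAt_adm G hx)
  have h3 := G.d1_ne q
  rw [pb1, pb2, h1, h2, bel]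
  field_simp

theorem IsForm.pb1_ne (hf : C.IsForm V f) (hV : IsOpen V) (hb : b ∈ V) (G : Adm S.Y (C.Fib b))
    (q : S.Y) : C.pb1 f (fun y => (G.φ y).1) q ≠ 0 := by
  have hx := C.mem_source (G.φ q).1
  have hp : C.proj (G.φ q).1 ∈ V := by rw [(G.φ q).2.1]; exact hb
  obtain ⟨-, c, hc, h1, -⟩ := C.contMDiffAt_fib G.φ.continuous.continuousAt hx (C.ckAt_adm G hx)
  have h2 := hf.2.2 _ hp
  classical
  have h0 : (∑ᶠ (i) (_ : C.sec i (C.proj (G.φ q).1) = (G.φ q).1), (a i - 1) : ℕ) = 0 :=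
    finsum_eq_zero_of_forall_eq_zero fun i => by
      rw [finsum_eq_if, if_neg]
      rw [(G.φ q).2.1]
      exact Ne.symm ((G.φ q).2.2 i)
  rw [h0, Nat.cast_zero, analyticOrderAt_eq_zero] at h2
  have h3 := h2.resolve_left (not_not.2 (hf.analyticAt hV hx hp))
  rw [C.chart_eq hx] at h3
  rw [pb1, h1]
  exact mul_ne_zero h3 (mul_ne_zero hc (G.d1_ne q))

end Family

end Pool.Agent.MP_e62289_ag

end

section

open Set Filter Topology Complex MeasureTheory Metric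
open scoped Manifold ContDiff ComplexConjugate NNReal ENNReal

namespace Pool.Agent.MP_e62289_ag

section ends
variable {m : ℕ} (S : Flat m) (j : Fin m)

theorem f2b_src : ∀ᶠ q in S.endF j, q ∈ (S.e j).source :=
  mem_inf_of_right (mem_principal_self _)

theorem f2b_tgt : ∀ᶠ w in 𝓝[≠] (0 : ℂ), w ∈ (S.e j).target := by
  rw [S.e_target]
  exact inter_mem (mem_nhdsWithin_of_mem_nhds (ball_mem_nhds _ one_pos)) self_mem_nhdsWithin

theorem f2b_to : Tendsto (S.e j) (S.endF j) (𝓝[≠] 0) := by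
  refine tendsto_nhdsWithin_iff.2 ⟨tendsto_inf_left tendsto_comap, ?_⟩
  filter_upwards [f2b_src S j] with q hq
  have := (S.e j).map_source hq
  rw [S.e_target] at this
  exact this.2

theorem f2b_from : Tendsto (S.e j).symm (𝓝[≠] 0) (S.endF j) := by
  refine tendsto_inf.2 ⟨tendsto_comap_iff.2 ?_, tendsto_principal.2 ?_⟩
  · refine (tendsto_nhdsWithin_of_tendsto_nhds tendsto_id).congr' ?_
    filter_upwards [f2b_tgt S j] with w hw
    exact ((S.e j).right_inv hw).symm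
  · filter_upwards [f2b_tgt S j] with w hw
    exact (S.e j).map_target hw

theorem f2b_out {K : Set S.Y} (hK : IsCompact K) : ∀ᶠ q in S.endF j, q ∉ K := by
  obtain ⟨r, hr, -, h⟩ := S.subset_core hK
  filter_upwards [(S.hasBasis_endF j).mem_of_mem hr] with q hq hq'
  exact absurd (interior_subset (h hq') j hq.1) (not_le.2 hq.2)

open Asymptotics in
/-- a holomorphic function with a limit at an end -/
theorem f2b_hol {u : S.Y → ℂ} {z : ℂ} (hu : ∀ᶠ q in S.endF j, HolAt u q)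
    (hz : Tendsto u (S.endF j) (𝓝 z)) :
    (fun q => u q - z) =O[S.endF j] S.e j ∧ d1 u =O[S.endF j] d1 (S.e j) := by
  set g : ℂ → ℂ := Function.update (u ∘ (S.e j).symm) 0 z with hg
  have h1 : ∀ᶠ q in S.endF j, HasDerivAt g (d1 u q / d1 (S.e j) q) (S.e j q) ∧ g (S.e j q) = u q := by
    filter_upwards [hu, f2b_src S j, (f2b_to S j).eventually self_mem_nhdsWithin] with q h1 h2 h3
    refine ⟨(hasDerivAt_coord (S.e_hol j) h2 h1).congr_of_eventuallyEq ?_, ?_⟩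
    · filter_upwards [isOpen_ne.mem_nhds h3] with w hw
      exact Function.update_of_ne hw _ _
    · rw [hg, Function.update_of_ne h3, Function.comp_apply, (S.e j).left_inv h2]
  have h2 : AnalyticAt ℂ g 0 := by
    refine Complex.analyticAt_of_differentiable_on_punctured_nhds_of_continuousAt ?_
      (continuousAt_update_same.2 (hz.comp (f2b_from S j)))
    filter_upwards [(f2b_from S j).eventually h1, f2b_tgt S j] with w hw hw'
    have := hw.1.differentiableAt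
    rwa [(S.e j).right_inv hw'] at this
  have h3 : Tendsto (S.e j) (S.endF j) (𝓝 0) := (f2b_to S j).mono_right nhdsWithin_le_nhds
  constructor
  · refine (h2.differentiableAt.isBigO_sub.comp_tendsto h3).congr' ?_ (Eventually.of_forall ?_)
    · filter_upwards [h1] with q hq
      simp only [Function.comp_apply, hq.2]
      rw [hg, Function.update_self]
    · intro q
      simp
  · have h4 := ((h2.deriv.continuousAt.tendsto.comp h3).isBigO_one ℂ).mul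
      (isBigO_refl (d1 (S.e j)) (S.endF j))
    refine h4.congr' ?_ (Eventually.of_forall fun q => one_mul _)
    filter_upwards [h1, f2b_src S j] with q hq hq'
    simp only [Function.comp_apply, hq.1.deriv]
    exact div_mul_cancel₀ _ ((coord_hol (S.e_hol j)).1 q hq').2

end ends

open Asymptotics in
theorem f2b_ord {F : ℂ → ℂ} {z : ℂ} {k : ℕ} (hF : AnalyticAt ℂ F z)
    (hk : analyticOrderAt F z = k) : F =O[𝓝 z] fun w => (w - z) ^ k := by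
  obtain ⟨g, hg, -, h⟩ := hF.analyticOrderAt_eq_natCast.1 hk
  have h1 := (isBigO_refl (fun w => (w - z) ^ k) (𝓝 z)).mul (hg.continuousAt.tendsto.isBigO_one ℂ)
  exact h1.congr' (EventuallyEq.symm h) (Eventually.of_forall fun w => mul_one _)

namespace Family

variable {E : Type} [NormedAddCommGroup E] [NormedSpace ℂ E] {B : Type} [TopologicalSpace B]
  [ChartedSpace E B] {n : ℕ} {a : Fin n → ℕ} {C : Family E B a} {V : Set B}
  {f : C.X → ℂ × B → ℂ} {b : B} {m : ℕ} {S : Flat m}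

/-- the pull back vanishes at the ends to the prescribed order -/
theorem IsForm.pb1_end (hf : C.IsForm V f) (hV : IsOpen V) (hb : b ∈ V) (G : Adm S.Y (C.Fib b))
    {j : Fin m} {i : Fin n} (h : Tendsto (fun q => (G.φ q).1) (S.endF j) (𝓝 (C.sec i b))) :
    ∃ c : ℝ, ∀ᶠ q in S.endF j,
      ‖C.pb1 f (fun y => (G.φ y).1) q‖ ≤ c * ‖S.e j q‖ ^ (a i - 1) * ‖d1 (S.e j) q‖ := by
  set s := C.sec i b with hs
  have hp : C.proj s = b := C.proj_sec i b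
  have hsrc : ∀ᶠ q in S.endF j, (G.φ q).1 ∈ (C.chart s).source :=
    h.eventually ((C.chart s).open_source.mem_nhds (C.mem_source s))
  obtain ⟨K, hK, hK'⟩ := G.conf
  have hz : Tendsto (fun q => (C.chart s (G.φ q).1).1) (S.endF j) (𝓝 (C.chart s s).1) :=
    (continuous_fst.continuousAt.comp ((C.chart s).continuousAt (C.mem_source s))).tendsto.comp h
  have hu : ∀ᶠ q in S.endF j, HolAt (fun q => (C.chart s (G.φ q).1).1) q := by
    filter_upwards [hsrc, f2b_out S j hK] with q h1 h2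
    exact (C.holAt_chart h1).1.comp q (hol_of_d2 (G.md q) (hK' q h2))
  obtain ⟨h1, h2⟩ := f2b_hol S j hu hz
  have hF : AnalyticAt ℂ (fun z => f s (z, C.proj s)) (C.chart s s).1 :=
    hf.analyticAt hV (C.mem_source s) (hp ▸ hb)
  have hk : (∑ᶠ (i') (_ : C.sec i' (C.proj s) = s), (a i' - 1) : ℕ) = a i - 1 := by
    have : ∀ i', C.sec i' (C.proj s) = s ↔ i' = i := fun i' => by
      rw [hp]
      exact (C.inj_sec b).eq_iff
    simp only [this, finsum_cond_eq_left]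
  have h3 := (f2b_ord hF ((hf.2.2 s (hp ▸ hb)).trans (congrArg _ hk))).comp_tendsto hz
  obtain ⟨c, hc⟩ := ((h3.trans (h1.pow (a i - 1))).mul h2).bound
  refine ⟨c, ?_⟩
  filter_upwards [hc, hsrc] with q h4 h5
  rw [(hf.pb_eq hb G h5).1, ← C.chart_eq h5, (G.φ q).2.1, mul_assoc, ← norm_pow, ← norm_mul]
  simpa only [Function.comp_apply, hp] using h4

end Family

end Pool.Agent.MP_e62289_ag

end

section

open Set Filter Topology Complex MeasureTheory Metric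
open scoped Manifold ContDiff ComplexConjugate NNReal ENNReal

namespace Pool.Agent.MP_e62289_ag

namespace Family

variable {E : Type} [NormedAddCommGroup E] [NormedSpace ℂ E] {B : Type} [TopologicalSpace B]
  [ChartedSpace E B] {n : ℕ} {a : Fin n → ℕ} {C : Family E B a} {V : Set B}
  {f : C.X → ℂ × B → ℂ} {b : B} {m : ℕ} {S : Flat m}

/-- a fibrewise holomorphic bijection read in a chart of the target -/
theorem f2c_loc {E' : Type} [NormedAddCommGroup E'] [NormedSpace ℂ E'] {T : Type}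
    [TopologicalSpace T] [ChartedSpace E' T] {D : Family E' T a} {ψ : T → B}
    {Ψ : D.X → C.X} (hΨ : Continuous Ψ) (hb : ∀ t, BijOn Ψ (D.proj ⁻¹' {t}) (C.proj ⁻¹' {ψ t}))
    (hh : ∀ x y, MDifferentiableOn (𝓘(ℂ, ℂ).prod 𝓘(ℂ, E')) 𝓘(ℂ, ℂ)
      (fun w => (C.chart y (Ψ ((D.chart x).symm w))).1)
      ((D.chart x).target ∩ (fun w => Ψ ((D.chart x).symm w)) ⁻¹' (C.chart y).source))
    {t : T} {y : C.X} {q : D.Fib t} (hq : Ψ q.1 ∈ (C.chart y).source) :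
    HolAt (fun q' : D.Fib t => (C.chart y (Ψ q'.1)).1) q ∧
      d1 (fun q' : D.Fib t => (C.chart y (Ψ q'.1)).1) q ≠ 0 := by
  obtain ⟨x, hx⟩ : ∃ x, q.1 ∈ (D.chart x).source := ⟨_, D.mem_source q.1⟩
  let g : ℂ → ℂ := fun z => (C.chart y (Ψ ((D.chart x).symm (z, t)))).1
  let O : Set (ℂ × T) :=
    (D.chart x).target ∩ (fun w => Ψ ((D.chart x).symm w)) ⁻¹' (C.chart y).source
  have hO : IsOpen O :=
    (D.chart x).isOpen_inter_preimage_symm ((C.chart y).open_source.preimage hΨ)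
  have hs : IsOpen ((fun z : ℂ => (z, t)) ⁻¹' O) := hO.preimage (Continuous.prodMk_left t)
  have hg : DifferentiableOn ℂ g ((fun z : ℂ => (z, t)) ⁻¹' O) := by
    rw [← mdifferentiableOn_iff_differentiableOn]
    exact (hh x y).comp (f := fun z : ℂ => (z, t))
      (mdifferentiable_id.prodMk mdifferentiable_const).mdifferentiableOn fun z hz => hz
  have hi : InjOn g ((fun z : ℂ => (z, t)) ⁻¹' O) := by
    intro z₁ h₁ z₂ h₂ e
    have p₁ : D.proj ((D.chart x).symm (z₁, t)) = t := D.proj_symm h₁.1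
    have p₂ : D.proj ((D.chart x).symm (z₂, t)) = t := D.proj_symm h₂.1
    have c₁ := C.chart_eq h₁.2
    have c₂ := C.chart_eq h₂.2
    have r₁ : C.proj (Ψ ((D.chart x).symm (z₁, t))) = ψ t := (hb t).mapsTo p₁
    have r₂ : C.proj (Ψ ((D.chart x).symm (z₂, t))) = ψ t := (hb t).mapsTo p₂
    have e1 : C.chart y (Ψ ((D.chart x).symm (z₁, t))) =
        C.chart y (Ψ ((D.chart x).symm (z₂, t))) := by
      rw [← c₁, ← c₂, r₁, r₂]
      exact Prod.ext e rfl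
    have e2 := (hb t).injOn p₁ p₂ ((C.chart y).injOn h₁.2 h₂.2 e1)
    exact congrArg Prod.fst ((D.chart x).symm.injOn h₁.1 h₂.1 e2)
  have hc : ∀ q' : D.Fib t, q'.1 ∈ (D.chart x).source →
      (D.chart x).symm ((D.chart x q'.1).1, t) = q'.1 := by
    intro q' h'
    have e := D.chart_eq h'
    rw [q'.2.1] at e
    rw [e, (D.chart x).left_inv h']
  have hm : (D.chart x q.1).1 ∈ (fun z : ℂ => (z, t)) ⁻¹' O := by
    have e := D.chart_eq hx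
    rw [q.2.1] at e
    refine ⟨e ▸ (D.chart x).map_source hx, ?_⟩
    change Ψ ((D.chart x).symm ((D.chart x q.1).1, t)) ∈ (C.chart y).source
    rwa [hc q hx]
  have he : (fun q' : D.Fib t => (C.chart y (Ψ q'.1)).1) =ᶠ[𝓝 q]
      fun q' : D.Fib t => g (D.chart x q'.1).1 := by
    filter_upwards [((D.chart x).open_source.preimage continuous_subtype_val).mem_nhds hx]
      with q' h'
    simp only [g, hc q' h']
  obtain ⟨h1, h2⟩ := D.holAt_chart hx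
  have hd := hg.differentiableAt (hs.mem_nhds hm)
  constructor
  · exact (MDifferentiableAt.comp (g := g) q hd.mdifferentiableAt h1).congr_of_eventuallyEq he
  · rw [(d_congr he).1, (d_hol_comp (u := fun q' : D.Fib t => (D.chart x q'.1).1) hd.hasDerivAt
      (d2_of_hol h1).1).2.1]
    exact mul_ne_zero (deriv_ne_zero_of_injOn hs hg hi hm) h2

/-- the conformal maps between punctured fibres -/
theorem f2c_adm {E' : Type} [NormedAddCommGroup E'] [NormedSpace ℂ E'] {T : Type}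
    [TopologicalSpace T] [ChartedSpace E' T] {D : Family E' T a} {ψ : T → B}
    {Ψ : D.X → C.X} (hΨ : Continuous Ψ) (hb : ∀ t, BijOn Ψ (D.proj ⁻¹' {t}) (C.proj ⁻¹' {ψ t}))
    (hs : ∀ i t, Ψ (D.sec i t) = C.sec i (ψ t))
    (hh : ∀ x y, MDifferentiableOn (𝓘(ℂ, ℂ).prod 𝓘(ℂ, E')) 𝓘(ℂ, ℂ)
      (fun w => (C.chart y (Ψ ((D.chart x).symm w))).1)
      ((D.chart x).target ∩ (fun w => Ψ ((D.chart x).symm w)) ⁻¹' (C.chart y).source))
    (t : T) : ∃ A : Adm (D.Fib t) (C.Fib (ψ t)), (∀ q, (A.φ q).1 = Ψ q.1) ∧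
      ∀ q, d2 A.φ q = 0 := by
  let P : D.Fib t → C.Fib (ψ t) := fun q => ⟨Ψ q.1, (hb t).mapsTo q.2.1, fun i h =>
    q.2.2 i ((hb t).injOn q.2.1 (D.proj_sec i t) (h.trans (hs i t).symm))⟩
  have hP : Continuous P := (hΨ.comp continuous_subtype_val).subtype_mk _
  have hbij : Function.Bijective P := by
    constructor
    · intro q q' e
      exact Subtype.ext ((hb t).injOn q.2.1 q'.2.1 (congrArg Subtype.val e))
    · intro p
      obtain ⟨x, hx, e⟩ := (hb t).surjOn p.2.1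
      exact ⟨⟨x, hx, fun i h => p.2.2 i (by rw [← e, h, hs])⟩, Subtype.ext e⟩
  have key : ∀ q, ContMDiffAt 𝓘(ℝ, ℂ) 𝓘(ℝ, ℂ) 2 P q ∧ d1 P q ≠ 0 ∧ d2 P q = 0 := by
    intro q
    have hq := C.mem_source (Ψ q.1)
    have h1 : ∀ᶠ q' in 𝓝 q, HolAt (fun q' : D.Fib t => (C.chart (Ψ q.1) (Ψ q'.1)).1) q' := by
      filter_upwards [((C.chart (Ψ q.1)).open_source.preimage
        (hΨ.comp continuous_subtype_val)).mem_nhds hq] with q' h'
      exact (f2c_loc hΨ hb hh h').1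
    obtain ⟨h2, c, hc, h3, h4⟩ := C.contMDiffAt_fib (G := P) (x := Ψ q.1) hP.continuousAt hq
      (ckAt_of_hol h1 2)
    obtain ⟨h5, h6⟩ := f2c_loc hΨ hb hh hq
    refine ⟨h2, fun h => h6 (h3.trans (by rw [h, mul_zero])), ?_⟩
    exact (mul_eq_zero.1 (h4.symm.trans (d2_of_hol h5).2)).resolve_left hc
  obtain ⟨A, hA⟩ := Adm.exists_of_bij hbij (fun q => (key q).1)
    (fun q => by rw [(key q).2.2, norm_zero]; exact norm_pos_iff.2 (key q).2.1)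
    ⟨∅, isCompact_empty, fun q _ => (key q).2.2⟩
  exact ⟨A, fun q => by rw [hA], fun q => by rw [hA]; exact (key q).2.2⟩

/-- markings of an induced family -/
theorem MFam.pull {E' : Type} [NormedAddCommGroup E'] [NormedSpace ℂ E'] {T : Type}
    [TopologicalSpace T] [T2Space T] [ChartedSpace E' T] {D : Family E' T a} {Y : Type}
    [TopologicalSpace Y] [ChartedSpace ℂ Y] (M : D.MFam Y fun t => t) {ψ : T → B}
    {Ψ : D.X → C.X} (hΨ : Continuous Ψ) (hb : ∀ t, BijOn Ψ (D.proj ⁻¹' {t}) (C.proj ⁻¹' {ψ t}))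
    (hs : ∀ i t, Ψ (D.sec i t) = C.sec i (ψ t))
    (hh : ∀ x y, MDifferentiableOn (𝓘(ℂ, ℂ).prod 𝓘(ℂ, E')) 𝓘(ℂ, ℂ)
      (fun w => (C.chart y (Ψ ((D.chart x).symm w))).1)
      ((D.chart x).target ∩ (fun w => Ψ ((D.chart x).symm w)) ⁻¹' (C.chart y).source)) :
    ∃ M' : C.MFam Y ψ, (∀ t q, ((M'.G t).φ q).1 = Ψ ((M.G t).φ q).1) ∧
      ∀ t, bel (M'.G t).φ = bel (M.G t).φ := by
  choose A hA hA2 using f2c_adm hΨ hb hs hh
  have hΛc : Continuous fun d : D.X => (D.proj d, Ψ d) := D.proper.continuous.prodMk hΨ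
  have hΛ : Topology.IsClosedEmbedding fun d : D.X => (D.proj d, Ψ d) := by
    refine .of_continuous_injective_isClosedMap hΛc (fun d d' e => ?_)
      (isProperMap_of_comp_of_t2 hΛc continuous_fst D.proper).isClosedMap
    exact (hb (D.proj d)).injOn rfl (congrArg Prod.fst e).symm (congrArg Prod.snd e)
  have hj : Continuous fun p : C.Tot ψ => ((A p.1.1).φ.symm ⟨p.1.2, p.2⟩).1 := by
    refine hΛ.isInducing.continuous_iff.2 (continuous_subtype_val.congr fun p => ?_)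
    refine Prod.ext ((A p.1.1).φ.symm ⟨p.1.2, p.2⟩).2.1.symm ?_
    change p.1.2 = Ψ _
    rw [← hA, Diffeomorph.apply_symm_apply]
  refine ⟨⟨fun t => (M.G t).trans (A t), ?_, ?_, ?_⟩, fun t q => hA t _, fun t => ?_⟩
  · exact (hΨ.comp M.cont).congr fun p => (hA p.1 _).symm
  · exact M.cont'.comp (f := fun p : C.Tot ψ =>
      (⟨(p.1.1, ((A p.1.1).φ.symm ⟨p.1.2, p.2⟩).1), ((A p.1.1).φ.symm ⟨p.1.2, p.2⟩).2⟩ :
        D.Tot fun t => t))
      (((continuous_fst.comp continuous_subtype_val).prodMk hj).subtype_mk _)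
  · obtain ⟨K, hK, h⟩ := M.conf
    refine ⟨K, hK, fun t q hq => ?_⟩
    rw [((M.G t).d_trans (A t) q).2, h t q hq, hA2]
    simp
  · exact funext fun q => (M.G t).bel_trans_conf (A t) (hA2 t _)

end Family

end Pool.Agent.MP_e62289_ag

end

section



end

section

open Set Filter Topology Complex MeasureTheory Metric
open scoped Manifold ContDiff ComplexConjugate NNReal ENNReal

namespace Pool.Agent.MP_e62289_ag

namespace HData

variable {H : Type} [NormedAddCommGroup H] [InnerProductSpace ℂ H] (D : HData H)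

theorem H1b_c_zero : D.c 0 = 0 := by
  have h := D.c_add 0 0
  rw [add_zero] at h
  exact left_eq_add.mp h

theorem H1b_c_sub (x y : H) : D.c (x - y) = D.c x - D.c y := by
  have h := D.c_add (x - y) y
  rw [sub_add_cancel] at h
  rw [h]; abel

theorem H1b_cont_c : Continuous D.c := by
  have : Isometry D.c := by
    refine Isometry.of_dist_eq fun x y => ?_
    rw [dist_eq_norm, dist_eq_norm, ← H1b_c_sub, norm_c]
  exact this.continuous

theorem H1b_Eb_eq : D.Eb = (D.E.topologicalClosure : Set (H × H)) := rfl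

theorem H1b_add {e e' : H × H} (h : e ∈ D.Eb) (h' : e' ∈ D.Eb) : e + e' ∈ D.Eb :=
  D.E.topologicalClosure.add_mem h h'

theorem H1b_sub {e e' : H × H} (h : e ∈ D.Eb) (h' : e' ∈ D.Eb) : e - e' ∈ D.Eb :=
  D.E.topologicalClosure.sub_mem h h'

theorem H1b_stab {e : H × H} (h : e ∈ D.Eb) : (D.c e.2, D.c e.1) ∈ D.Eb := by
  have hc : Continuous fun e : H × H => (D.c e.2, D.c e.1) :=
    (D.H1b_cont_c.comp continuous_snd).prodMk (D.H1b_cont_c.comp continuous_fst)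
  exact map_mem_closure (f := fun e : H × H => (D.c e.2, D.c e.1)) hc h fun x hx => D.stab x hx

theorem H1b_β_add (A B C : H) : D.β A (B + C) = D.β A B + D.β A C := inner_add_right _ _ _

theorem H1b_W {A : H} (hA : A ∈ D.W) {e : H × H} (h : e ∈ D.Eb) : D.β A e.2 = 0 := by
  have hc : IsClosed {e : H × H | D.β A e.2 = 0} :=
    isClosed_eq (continuous_const.inner continuous_snd) continuous_const
  exact closure_minimal (fun x hx => hA x hx) hc h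

theorem H1b_Wb {A : H} (hA : A ∈ D.Wb) {e : H × H} (h : e ∈ D.Eb) : D.β A e.1 = 0 := by
  have hc : IsClosed {e : H × H | D.β A e.1 = 0} :=
    isClosed_eq (continuous_const.inner continuous_fst) continuous_const
  exact closure_minimal (fun x hx => hA x hx) hc h

theorem H1b_norm_eq {e : H × H} (h : e ∈ D.Eb) : ‖e.1‖ = ‖e.2‖ := by
  have hc : IsClosed {e : H × H | ‖e.1‖ = ‖e.2‖} :=
    isClosed_eq continuous_fst.norm continuous_snd.norm
  refine closure_minimal (fun x hx => ?_) hc h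
  have h1 := D.iso x hx _ (D.stab x hx)
  simp only [inner_self_eq_norm_sq_to_K, norm_c] at h1
  have h2 : ‖x.1‖ ^ 2 = ‖x.2‖ ^ 2 := by exact_mod_cast h1
  exact (pow_left_inj₀ (norm_nonneg _) (norm_nonneg _) two_ne_zero).mp h2

theorem H1b_orthW {A : H} (hA : A ∈ D.W) {e : H × H} (h : e ∈ D.Eb) : inner ℂ e.1 A = 0 := by
  have h1 := D.H1b_W hA (D.H1b_stab h)
  simpa only [β, D.inner_c] using h1

theorem H1b_orthWb {A : H} (hA : A ∈ D.Wb) {e : H × H} (h : e ∈ D.Eb) : inner ℂ e.2 A = 0 := by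
  have h1 := D.H1b_Wb hA (D.H1b_stab h)
  simpa only [β, D.inner_c] using h1

variable [CompleteSpace H]

theorem H1b_unit {m : H →L[ℂ] H} (h : ‖m‖ < 1) : IsUnit (1 - D.T * m) := by
  have h1 : ‖D.T * m‖ < 1 := by
    refine lt_of_le_of_lt (norm_mul_le _ _) ?_
    exact lt_of_le_of_lt (mul_le_of_le_one_left (norm_nonneg _) D.norm_T_le) h
  exact (Units.oneSub _ h1).isUnit

theorem H1b_eq {m : H →L[ℂ] H} (h : ‖m‖ < 1) (ξ : H) :
    Ring.inverse (1 - D.T * m) ξ - ξ = D.T (m (Ring.inverse (1 - D.T * m) ξ)) := by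
  have h1 := Ring.mul_inverse_cancel _ (D.H1b_unit h)
  have h2 := congrArg (fun L : H →L[ℂ] H => L ξ) h1
  simp only [mul_apply_eq_comp, sub_apply, one_apply_eq_self] at h2
  rw [sub_eq_iff_eq_add, ← sub_eq_iff_eq_add', h2]

theorem H1b_uniq {m : H →L[ℂ] H} (h : ‖m‖ < 1) {ξ a : H} (ha : a - ξ = D.T (m a)) :
    Ring.inverse (1 - D.T * m) ξ = a := by
  have h1 := Ring.inverse_mul_cancel _ (D.H1b_unit h)
  have h2 := congrArg (fun L : H →L[ℂ] H => L a) h1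
  simp only [mul_apply_eq_comp, sub_apply, one_apply_eq_self] at h2
  rw [← ha, sub_sub_cancel] at h2
  exact h2

theorem hv_bound {ξp ξm : H} (hp : ξp ∈ D.W) (hm : ξm ∈ D.W) {m : H →L[ℂ] H} (h : ‖m‖ < 1) :
    ‖D.hv ξp ξm m‖ ≤ ‖ξp‖ * ‖ξm‖ := by
  set a := Ring.inverse (1 - D.T * m) ξp with ha
  obtain ⟨η, hη, he⟩ := (D.isT.2 (a - ξp) (m a)).mpr (D.H1b_eq h ξp)
  have o1 : inner ℂ (a - ξp) ξp = 0 := D.H1b_orthW hp he
  have o2 : inner ℂ (m a - η) η = 0 := D.H1b_orthWb hη he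
  have n0 : ‖a - ξp‖ = ‖m a - η‖ := D.H1b_norm_eq he
  have n1 := norm_add_sq_eq_norm_sq_add_norm_sq_of_inner_eq_zero _ _ o1
  have n2 := norm_add_sq_eq_norm_sq_add_norm_sq_of_inner_eq_zero _ _ o2
  rw [sub_add_cancel] at n1 n2
  have n3 : ‖m a‖ ≤ ‖a‖ :=
    (m.le_opNorm a).trans (mul_le_of_le_one_left (norm_nonneg _) h.le)
  have n4 : ‖m a‖ * ‖m a‖ ≤ ‖a‖ * ‖a‖ := mul_self_le_mul_self (norm_nonneg _) n3
  have n5 : ‖η‖ ≤ ‖ξp‖ := by
    rw [n0] at n1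
    exact (mul_self_le_mul_self_iff (norm_nonneg _) (norm_nonneg _)).mpr (by linarith)
  have hb : D.hv ξp ξm m = D.β ξm η := by
    have h0 : D.β ξm (m a - η) = 0 := D.H1b_W hm he
    have h1 := D.H1b_β_add ξm (m a - η) η
    rw [sub_add_cancel, h0, zero_add] at h1
    exact h1
  rw [hb, mul_comm]
  exact (D.norm_β_le _ _).trans (mul_le_mul_of_nonneg_left n5 (norm_nonneg _))

/-- invariance under operators that act trivially on cohomology -/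
theorem hv_inv {ξp ξm : H} (hp : ξp ∈ D.W) (hm : ξm ∈ D.W) (U : H × H →L[ℂ] H × H)
    (hE : ∀ e ∈ D.E, U e ∈ D.Eb) (hW : ∀ ξ ∈ D.W, U (ξ, 0) - (ξ, 0) ∈ D.Eb)
    (hc : ∀ A B, U (D.c B, D.c A) = (D.c (U (A, B)).2, D.c (U (A, B)).1))
    {m m' : H →L[ℂ] H} (h : ‖m‖ < 1) (h' : ‖m'‖ < 1)
    (hmm : ∀ A, (U (A, m A)).2 = m' (U (A, m A)).1) : D.hv ξp ξm m' = D.hv ξp ξm m := by
  set a := Ring.inverse (1 - D.T * m) ξp with ha
  obtain ⟨η, hη, he⟩ := (D.isT.2 (a - ξp) (m a)).mpr (D.H1b_eq h ξp)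
  have hUE : ∀ e ∈ D.Eb, U e ∈ D.Eb := fun e he =>
    closure_minimal (s := (D.E : Set (H × H))) (t := U ⁻¹' D.Eb) (fun x hx => hE x hx)
      (isClosed_closure.preimage U.continuous) he
  have hη' : U (0, η) - (0, η) ∈ D.Eb := by
    have h1 := D.H1b_stab (hW _ (D.c_mem_W hη))
    have h2 := hc (D.c η) 0
    rw [H1b_c_zero, D.c_c] at h2
    rw [h2]
    simpa only [Prod.fst_sub, Prod.snd_sub, sub_zero, H1b_c_sub, D.c_c, Prod.mk_sub_mk,
      H1b_c_zero] using h1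
  have hdec : ((a, m a) : H × H) = (a - ξp, m a - η) + (ξp, 0) + (0, η) := by
    ext <;> simp
  have hU : U (a, m a) - (a, m a) ∈ D.Eb := by
    have h1 := D.H1b_add (D.H1b_add (D.H1b_sub (hUE _ he) he) (hW _ hp)) hη'
    have h2 : U (a, m a) - (a, m a) = U (a - ξp, m a - η) - (a - ξp, m a - η)
        + (U (ξp, 0) - (ξp, 0)) + (U (0, η) - (0, η)) := by
      conv_lhs => rw [hdec]
      rw [map_add, map_add]; abel
    rw [h2]; exact h1
  set a' := (U (a, m a)).1 with ha'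
  have hU2 : U (a, m a) = (a', m' a') := Prod.ext rfl (hmm a)
  rw [hU2] at hU
  have he' : ((a' - ξp, m' a' - η) : H × H) ∈ D.Eb := by
    have h1 := D.H1b_add hU he
    have h2 : ((a' - ξp, m' a' - η) : H × H) = (a', m' a') - (a, m a) + (a - ξp, m a - η) := by
      ext <;> simp
    rw [h2]; exact h1
  have hT : a' - ξp = D.T (m' a') := (D.isT.2 _ _).mp ⟨η, hη, he'⟩
  have h0 : D.β ξm (m' a' - m a) = 0 := D.H1b_W hm hU
  have h1 := D.H1b_β_add ξm (m' a' - m a) (m a)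
  rw [sub_add_cancel, h0, zero_add] at h1
  unfold hv
  rw [D.H1b_uniq h' hT, h1]

end HData

end Pool.Agent.MP_e62289_ag

end

section



end

section

open Set Filter Topology Complex MeasureTheory Metric
open scoped Manifold ContDiff ComplexConjugate NNReal ENNReal

namespace Pool.Agent.MP_e62289_ag

namespace Flat

variable {n : ℕ} (S : Flat n)

theorem memLp_D {κ : S.Y → ℂ} (h : Ck 2 κ) (hc : HasCompactSupport κ) :
    MemLp (S.D1 κ) 2 S.lamf ∧ MemLp (d2 κ) 2 S.lamf :=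
  ⟨(S.L4_cont_D1 h).memLp_of_hasCompactSupport (S.L4_supp_D1 hc),
    (S.L4_ck_d h).2.continuous.memLp_of_hasCompactSupport (L4_supp hc).2⟩

theorem exists_hdata : ∃ D : HData S.H,
    (∀ A : S.H, (D.c A : S.Y → ℂ) =ᵐ[S.lamf] fun q => (‖S.f q‖ : ℂ) / S.f q * conj (A q)) ∧
    ∀ e, e ∈ D.E ↔ S.IsExact e :=
  ⟨⟨S.L4c, S.L4c_add, S.L4c_smul, S.L4c_c, S.L4c_inner, S.L4E, S.L4E_iso, S.L4E_stab⟩,
    S.L4c_ae, fun _ => Iff.rfl⟩

/-- the twisted square integrable forms -/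
noncomputable def hd : HData S.H := S.exists_hdata.choose

theorem hd_c (A : S.H) :
    (S.hd.c A : S.Y → ℂ) =ᵐ[S.lamf] fun q => (‖S.f q‖ : ℂ) / S.f q * conj (A q) :=
  S.exists_hdata.choose_spec.1 A

theorem hd_E (e : S.H × S.H) : e ∈ S.hd.E ↔ S.IsExact e := S.exists_hdata.choose_spec.2 e

theorem hd_β (A B : S.H) : S.hd.β A B = ∫ q, S.f q * A q * B q ∂S.lam :=
  S.L4_inner (S.hd_c A)

/-- the period function -/
noncomputable def Hval (ξp ξm : S.H) (μ : S.Y → ℂ) : ℂ := S.hd.hv ξp ξm (S.mulOp μ)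

end Flat

end Pool.Agent.MP_e62289_ag

end

section

open Set Filter Topology Complex MeasureTheory Metric
open scoped Manifold ContDiff ComplexConjugate NNReal ENNReal

namespace Pool.Agent.MP_e62289_ag

theorem Cx3_deriv {g : ℂ → ℂ} {ρ M : ℝ} (hρ : 0 < ρ) (hg : DifferentiableOn ℂ g (ball 0 ρ))
    (hM : ∀ z ∈ ball (0 : ℂ) ρ, ‖g z‖ ≤ M) : ‖deriv g 0‖ ≤ M / ρ := by
  have h1 : ∀ r : ℝ, 0 < r → r < ρ → ‖deriv g 0‖ ≤ M / r := by
    intro r hr0 hr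
    refine Complex.norm_deriv_le_of_forall_mem_sphere_norm_le hr0 ?_ ?_
    · refine DifferentiableOn.diffContOnCl ?_
      rw [closure_ball _ hr0.ne']
      exact hg.mono (closedBall_subset_ball hr)
    · intro z hz
      exact hM z (closedBall_subset_ball hr (sphere_subset_closedBall hz))
  have h2 : Tendsto (fun r : ℝ => M / r) (𝓝[<] ρ) (𝓝 (M / ρ)) :=
    ((continuousAt_const.div continuousAt_id hρ.ne').tendsto).mono_left nhdsWithin_le_nhds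
  refine ge_of_tendsto h2 ?_
  filter_upwards [Ioo_mem_nhdsLT hρ] with r hr
  exact h1 r hr.1 hr.2

theorem Cx3_maps {g : ℂ → ℂ} {ρ M : ℝ} (hρ : 0 < ρ)
    (hM : ∀ z ∈ ball (0 : ℂ) ρ, ‖g z‖ ≤ M) : MapsTo g (ball 0 ρ) (closedBall (g 0) (2 * M)) := by
  intro w hw
  rw [mem_closedBall, dist_eq_norm]
  have h1 := hM w hw
  have h2 := hM 0 (mem_ball_self hρ)
  have h3 := norm_sub_le (g w) (g 0)
  linarith

theorem Cx3_first {g : ℂ → ℂ} {ρ M : ℝ} (hρ : 0 < ρ) (hg : DifferentiableOn ℂ g (ball 0 ρ))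
    (hM : ∀ z ∈ ball (0 : ℂ) ρ, ‖g z‖ ≤ M) {z : ℂ} (hz : z ∈ ball (0 : ℂ) ρ) :
    ‖g z - g 0‖ ≤ 2 * M / ρ * ‖z‖ := by
  have h := Complex.dist_le_div_mul_dist_of_mapsTo_ball hg (Cx3_maps hρ hM) hz
  rwa [dist_eq_norm, dist_zero_right] at h

/-- second order Schwarz lemma -/
theorem schwarz_two {g : ℂ → ℂ} {ρ M : ℝ} (hρ : 0 < ρ) (hg : DifferentiableOn ℂ g (ball 0 ρ))
    (hM : ∀ z ∈ ball (0 : ℂ) ρ, ‖g z‖ ≤ M) :
    ‖deriv g 0‖ ≤ M / ρ ∧ ∀ z ∈ ball (0 : ℂ) ρ, ‖g z - g 0‖ ≤ 2 * M / ρ * ‖z‖ ∧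
      ‖g z - g 0 - z * deriv g 0‖ ≤ 6 * M / ρ ^ 2 * ‖z‖ ^ 2 := by
  refine ⟨Cx3_deriv hρ hg hM, fun z hz => ⟨Cx3_first hρ hg hM hz, ?_⟩⟩
  have hM0 : 0 ≤ M := (norm_nonneg _).trans (hM 0 (mem_ball_self hρ))
  have hd : DifferentiableOn ℂ (dslope g 0) (ball 0 ρ) :=
    (Complex.differentiableOn_dslope (ball_mem_nhds _ hρ)).2 hg
  have hb : ∀ w ∈ ball (0 : ℂ) ρ, ‖dslope g 0 w‖ ≤ 2 * M / ρ := fun w hw =>
    Complex.norm_dslope_le_div_of_mapsTo_ball hg (Cx3_maps hρ hM) hw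
  have h1 := Cx3_first hρ hd hb hz
  have h2 : g z - g 0 - z * deriv g 0 = z * (dslope g 0 z - dslope g 0 0) := by
    have h3 := sub_smul_dslope g 0 z
    rw [sub_zero, smul_eq_mul] at h3
    rw [dslope_same, mul_sub, h3]
  rw [h2, norm_mul]
  calc ‖z‖ * ‖dslope g 0 z - dslope g 0 0‖ ≤ ‖z‖ * (2 * (2 * M / ρ) / ρ * ‖z‖) :=
        mul_le_mul_of_nonneg_left h1 (norm_nonneg _)
    _ = 4 * (M / ρ ^ 2 * ‖z‖ ^ 2) := by field_simp; ring
    _ ≤ 6 * (M / ρ ^ 2 * ‖z‖ ^ 2) := by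
        have : 0 ≤ M / ρ ^ 2 * ‖z‖ ^ 2 := by positivity
        linarith
    _ = 6 * M / ρ ^ 2 * ‖z‖ ^ 2 := by ring

theorem Cx3_psi {g : ℂ → ℂ → ℂ} {ρ : ℝ} (hρ : 0 < ρ)
    (hu : ∀ r ∈ ball (0 : ℂ) ρ, DifferentiableOn ℂ (fun u => g u r) (ball 0 ρ))
    (hr : ∀ u ∈ ball (0 : ℂ) ρ, DifferentiableOn ℂ (g u) (ball 0 ρ))
    (hb : ∀ u ∈ ball (0 : ℂ) ρ, ∀ r ∈ ball (0 : ℂ) ρ, ‖g u r‖ ≤ 1) :
    DifferentiableOn ℂ (fun u => deriv (g u) 0) (ball 0 ρ) := by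
  have hT : TendstoUniformlyOn (fun (r : ℂ) (u : ℂ) => (g u r - g u 0) / r)
      (fun u => deriv (g u) 0) (𝓝[≠] 0) (ball 0 ρ) := by
    rw [Metric.tendstoUniformlyOn_iff]
    intro ε hε
    have hc : Tendsto (fun r : ℂ => 6 * 1 / ρ ^ 2 * ‖r‖) (𝓝 0) (𝓝 (6 * 1 / ρ ^ 2 * ‖(0 : ℂ)‖)) :=
      (continuous_const.mul continuous_norm).tendsto 0
    rw [norm_zero, mul_zero] at hc
    have h1 : ∀ᶠ r : ℂ in 𝓝[≠] 0, 6 * 1 / ρ ^ 2 * ‖r‖ < ε :=
      nhdsWithin_le_nhds (hc.eventually (gt_mem_nhds hε))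
    have h2 : ∀ᶠ r : ℂ in 𝓝[≠] 0, r ∈ ball (0 : ℂ) ρ :=
      nhdsWithin_le_nhds (ball_mem_nhds _ hρ)
    filter_upwards [h1, h2, self_mem_nhdsWithin] with r h1 h2 h3 u hu'
    have h3' : r ≠ 0 := h3
    have h4 := ((schwarz_two hρ (hr u hu') (hb u hu')).2 r h2).2
    have h5 : deriv (g u) 0 - (g u r - g u 0) / r = -((g u r - g u 0 - r * deriv (g u) 0) / r) := by
      field_simp
      ring
    have h6 : 0 < ‖r‖ := norm_pos_iff.2 h3'
    rw [dist_eq_norm, h5, norm_neg, norm_div, div_lt_iff₀ h6]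
    calc _ ≤ 6 * 1 / ρ ^ 2 * ‖r‖ ^ 2 := h4
      _ = 6 * 1 / ρ ^ 2 * ‖r‖ * ‖r‖ := by ring
      _ < ε * ‖r‖ := mul_lt_mul_of_pos_right h1 h6
  refine hT.tendstoLocallyUniformlyOn.differentiableOn ?_ isOpen_ball
  filter_upwards [nhdsWithin_le_nhds (ball_mem_nhds (0 : ℂ) hρ)] with r hr'
  exact ((hu r hr').sub (hu 0 (mem_ball_self hρ))).div_const r

/-- mixed second order expansion on a bidisc -/
theorem bidisc {g : ℂ → ℂ → ℂ} {ρ : ℝ} (hρ : 0 < ρ)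
    (hu : ∀ r ∈ ball (0 : ℂ) ρ, DifferentiableOn ℂ (fun u => g u r) (ball 0 ρ))
    (hr : ∀ u ∈ ball (0 : ℂ) ρ, DifferentiableOn ℂ (g u) (ball 0 ρ))
    (hb : ∀ u ∈ ball (0 : ℂ) ρ, ∀ r ∈ ball (0 : ℂ) ρ, ‖g u r‖ ≤ 1) {ν : ℂ}
    (hν : HasDerivAt (fun u => deriv (g u) 0) ν 0) :
    ‖ν‖ ≤ 4 / ρ ^ 2 ∧ ∀ u ∈ ball (0 : ℂ) ρ, ∀ r ∈ ball (0 : ℂ) ρ,
      ‖g u r - g u 0 - g 0 r + g 0 0 - u * r * ν‖ ≤ 100 / ρ ^ 3 * (‖u‖ * ‖r‖ * (‖u‖ + ‖r‖)) := by
  have h0 : (0 : ℂ) ∈ ball (0 : ℂ) ρ := mem_ball_self hρ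
  have hψ := Cx3_psi hρ hu hr hb
  have hψb : ∀ u ∈ ball (0 : ℂ) ρ, ‖deriv (g u) 0‖ ≤ 1 / ρ := fun u hu' =>
    Cx3_deriv hρ (hr u hu') (hb u hu')
  have hS := schwarz_two hρ hψ hψb
  rw [hν.deriv] at hS
  constructor
  · calc ‖ν‖ ≤ 1 / ρ / ρ := hS.1
      _ = 1 / ρ ^ 2 := by field_simp
      _ ≤ 4 / ρ ^ 2 := by gcongr; norm_num
  · intro u hu' r hr'
    have h1 := (hS.2 u hu').2
    have hγ : DifferentiableOn ℂ (fun s => g u s - g 0 s) (ball 0 ρ) := (hr u hu').sub (hr 0 h0)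
    have hγb : ∀ s ∈ ball (0 : ℂ) ρ, ‖g u s - g 0 s‖ ≤ 2 * 1 / ρ * ‖u‖ := fun s hs =>
      Cx3_first hρ (hu s hs) (fun w hw => hb w hw s hs) hu'
    have h2 := ((schwarz_two hρ hγ hγb).2 r hr').2
    have h3 : deriv (fun s => g u s - g 0 s) 0 = deriv (g u) 0 - deriv (g 0) 0 :=
      (((hr u hu').differentiableAt (ball_mem_nhds _ hρ)).hasDerivAt.sub
        ((hr 0 h0).differentiableAt (ball_mem_nhds _ hρ)).hasDerivAt).deriv
    rw [h3] at h2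
    have h4 : g u r - g u 0 - g 0 r + g 0 0 - u * r * ν =
        (g u r - g 0 r - (g u 0 - g 0 0) - r * (deriv (g u) 0 - deriv (g 0) 0)) +
          r * (deriv (g u) 0 - deriv (g 0) 0 - u * ν) := by ring
    rw [h4]
    have h5 : ‖r * (deriv (g u) 0 - deriv (g 0) 0 - u * ν)‖ ≤
        ‖r‖ * (6 * (1 / ρ) / ρ ^ 2 * ‖u‖ ^ 2) := by
      rw [norm_mul]
      exact mul_le_mul_of_nonneg_left h1 (norm_nonneg _)
    have h6 : 0 ≤ 1 / ρ ^ 3 * (‖u‖ * ‖r‖ * ‖r‖) := by positivity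
    have h7 : 0 ≤ 1 / ρ ^ 3 * (‖u‖ * ‖r‖ * ‖u‖) := by positivity
    calc _ ≤ 6 * (2 * 1 / ρ * ‖u‖) / ρ ^ 2 * ‖r‖ ^ 2 + ‖r‖ * (6 * (1 / ρ) / ρ ^ 2 * ‖u‖ ^ 2) :=
          (norm_add_le _ _).trans (add_le_add h2 h5)
      _ = 12 * (1 / ρ ^ 3 * (‖u‖ * ‖r‖ * ‖r‖)) + 6 * (1 / ρ ^ 3 * (‖u‖ * ‖r‖ * ‖u‖)) := by
          field_simp; ring
      _ ≤ 100 * (1 / ρ ^ 3 * (‖u‖ * ‖r‖ * ‖r‖)) + 100 * (1 / ρ ^ 3 * (‖u‖ * ‖r‖ * ‖u‖)) := by
          linarith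
      _ = _ := by ring

end Pool.Agent.MP_e62289_ag

end

section

open Set Filter Topology Complex MeasureTheory Metric
open scoped Manifold ContDiff ComplexConjugate NNReal ENNReal

namespace Pool.Agent.MP_e62289_ag

namespace Flat

variable {n : ℕ} (S : Flat n)

theorem mem_W {A : S.H} {u : S.Y → ℂ} (hu : Hol u) (h : (A : S.Y → ℂ) =ᵐ[S.lamf] u) :
    A ∈ S.hd.W := by
  intro e he
  obtain ⟨κ, hκ, hc, -, h2⟩ := (S.hd_E e).1 he
  have hfu : Hol fun q => S.f q * u q := S.f_hol.mul hu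
  have hg : Ck 1 fun q => S.f q * u q * κ q := fun q =>
    contDiff_mul.contDiffAt.comp_contMDiffAt (f := fun q => (S.f q * u q, κ q))
      ((ckAt_of_hol (.of_forall hfu) 1).prodMk_space ((hκ q).of_le (by norm_num)))
  rw [S.hd_β, ← (S.stokes hg hc.mul_left).2]
  refine integral_congr_ae ?_
  filter_upwards [S.ae_lamf.1 h, S.ae_lamf.1 h2] with q e1 e2
  rw [e1, e2, (d_mul (d2_of_hol (hfu q)).1 ((hκ q).mdifferentiableAt (by norm_num))).2,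
    (d2_of_hol (hfu q)).2, zero_mul, zero_add]

theorem L5a_pos : S.lam.IsOpenPosMeasure := ⟨fun U hU ⟨q, hq⟩ h0 => by
  have h1 := S.area q (U ∩ (chartAt ℂ q).source) (hU.inter (chartAt ℂ q).open_source).measurableSet
    inter_subset_right
  rw [measure_mono_null inter_subset_left h0] at h1
  exact ((chartAt ℂ q).isOpen_image_of_subset_source (hU.inter (chartAt ℂ q).open_source)
    inter_subset_right).measure_ne_zero volume ⟨_, q, ⟨hq, mem_chart_source ℂ q⟩, rfl⟩ h1.symm⟩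

theorem L5a_aem (x : S.Y) : AEMeasurable (chartAt ℂ x) (S.lam.restrict (chartAt ℂ x).source) :=
  (chartAt ℂ x).continuousOn.aemeasurable (chartAt ℂ x).open_source.measurableSet

theorem L5a_loc (A : S.H) : LocallyIntegrable (fun q => S.f q * A q) S.lam := fun q => by
  obtain ⟨s, hs, hi⟩ := (Lp.memLp A).locallyIntegrable (by norm_num) q
  obtain ⟨t, hts, ht, hq⟩ := mem_nhds_iff.1 hs
  refine ⟨t, ht.mem_nhds hq, (S.f_hol.continuous.stronglyMeasurable.mul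
    (Lp.stronglyMeasurable A)).aestronglyMeasurable, ?_⟩
  have h1 := (hi.mono_set hts).2
  rw [hasFiniteIntegral_iff_enorm, ← lintegral_indicator ht.measurableSet] at h1 ⊢
  rw [S.lintegral_lamf] at h1
  refine lt_of_eq_of_lt (lintegral_congr fun y => ?_) h1
  by_cases hy : y ∈ t <;> simp [hy]

theorem L5a_loc_chart (x : S.Y) {F : S.Y → ℂ} (hm : Measurable F) (hF : LocallyIntegrable F S.lam) :
    LocallyIntegrableOn (fun z => F ((chartAt ℂ x).symm z)) (chartAt ℂ x).target := by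
  have ho := (chartAt ℂ x).open_target
  rw [locallyIntegrableOn_iff ho.isLocallyClosed]
  intro k hk hc
  have hK : IsCompact ((chartAt ℂ x).symm '' k) :=
    hc.image_of_continuousOn ((chartAt ℂ x).continuousOn_symm.mono hk)
  have h1 : AEStronglyMeasurable (k.indicator fun z => F ((chartAt ℂ x).symm z))
      (volume.restrict (chartAt ℂ x).target) :=
    ((hm.comp_aemeasurable ((chartAt ℂ x).continuousOn_symm.aemeasurable
      ho.measurableSet)).indicator hc.measurableSet).aestronglyMeasurable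
  have h2 : Integrable (k.indicator fun z => F ((chartAt ℂ x).symm z))
      (volume.restrict (chartAt ℂ x).target) := by
    rw [← S.map_chart] at h1 ⊢
    rw [integrable_map_measure h1 (S.L5a_aem x)]
    refine (((integrable_indicator_iff hK.measurableSet).2
      (hF.integrableOn_isCompact hK)).restrict (s := (chartAt ℂ x).source)).congr ?_
    filter_upwards [ae_restrict_mem (chartAt ℂ x).open_source.measurableSet] with q hq
    by_cases h : chartAt ℂ x q ∈ k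
    · rw [Function.comp_apply, indicator_of_mem h, (chartAt ℂ x).left_inv hq,
        indicator_of_mem (s := (chartAt ℂ x).symm '' k) ⟨_, h, (chartAt ℂ x).left_inv hq⟩]
    · rw [Function.comp_apply, indicator_of_notMem h, indicator_of_notMem]
      rintro ⟨z, hz, rfl⟩
      exact h (by rwa [(chartAt ℂ x).right_inv (hk hz)])
  rw [integrable_indicator_iff hc.measurableSet, IntegrableOn,
    Measure.restrict_restrict hc.measurableSet, inter_eq_left.2 hk] at h2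
  exact h2

theorem L5a_test {A : S.H} (h : A ∈ S.hd.W) (x : S.Y) {κ₀ : ℂ → ℂ} (h1 : ContDiff ℝ ∞ κ₀)
    (h2 : HasCompactSupport κ₀) (h3 : tsupport κ₀ ⊆ (chartAt ℂ x).target) :
    ∫ z, S.f ((chartAt ℂ x).symm z) * A ((chartAt ℂ x).symm z) * w2 (fderiv ℝ κ₀ z) = 0 := by
  set c := chartAt ℂ x with hc
  let κ : S.Y → ℂ := c.source.indicator fun q => κ₀ (c q)
  have hK : IsCompact (c.symm '' tsupport κ₀) :=
    h2.isCompact.image_of_continuousOn (c.continuousOn_symm.mono h3)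
  have hKs : c.symm '' tsupport κ₀ ⊆ c.source := by
    rintro _ ⟨z, hz, rfl⟩
    exact c.map_target (h3 hz)
  have h0 : ∀ q, q ∉ c.symm '' tsupport κ₀ → κ q = 0 := fun q hq => by
    by_cases hs : q ∈ c.source
    · rw [show κ q = κ₀ (c q) from indicator_of_mem hs _]
      exact image_eq_zero_of_notMem_tsupport fun h' => hq ⟨_, h', c.left_inv hs⟩
    · exact indicator_of_notMem hs _
  have h0' : ∀ q, q ∉ c.source → κ =ᶠ[𝓝 q] fun _ => 0 := fun q hq =>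
    Filter.eventually_of_mem (hK.isClosed.isOpen_compl.mem_nhds fun h' => hq (hKs h')) h0
  have hκ : Ck 2 κ := fun q => by
    by_cases hs : q ∈ c.source
    · have e1 : CkAt 2 c q :=
        ckAt_of_hol (Filter.eventually_of_mem (c.open_source.mem_nhds hs)
          fun y hy => (chart_hol hy).1) 2
      refine ((h1.of_le (m := 2) (by norm_cast)).contDiffAt.comp_contMDiffAt
        e1).congr_of_eventuallyEq ?_
      exact Filter.eventually_of_mem (c.open_source.mem_nhds hs) fun y hy => indicator_of_mem hy _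
    · exact contMDiffAt_const.congr_of_eventuallyEq (h0' q hs)
  obtain ⟨m1, m2⟩ := S.memLp_D hκ (HasCompactSupport.intro hK h0)
  have key := h (m1.toLp _, m2.toLp _) ((S.hd_E _).2
    ⟨κ, hκ, HasCompactSupport.intro hK h0, m1.coeFn_toLp, m2.coeFn_toLp⟩)
  rw [S.hd_β, integral_congr_ae (g := fun q => S.f q * A q * d2 κ q)
    ((S.ae_lamf.1 m2.coeFn_toLp).mono fun q hq => by simp only [hq]),
    S.integral_chart x fun q hq => by
      by_contra hs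
      exact hq (by simp only [(d_congr (h0' q hs)).2, (d_const 0 q).2, mul_zero])] at key
  rw [← key, ← setIntegral_eq_integral_of_forall_compl_eq_zero (s := c.target) fun z hz => by
    rw [(notMem_tsupport_iff_eventuallyEq.1 fun h' => hz (h3 h')).fderiv_eq]
    simp [w2]]
  refine setIntegral_congr_fun c.open_target.measurableSet fun z hz => ?_
  have e1 : κ ∘ c.symm =ᶠ[𝓝 z] κ₀ :=
    Filter.eventually_of_mem (c.open_target.mem_nhds hz) fun w hw => by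
      rw [Function.comp_apply, show κ (c.symm w) = κ₀ (c (c.symm w)) from
        indicator_of_mem (c.map_target hw) _, c.right_inv hw]
  simp only [d2]
  rw [S.dd_eq (x := x) (c.map_target hz) ((hκ _).mdifferentiableAt (by norm_num)), ← hc,
    c.right_inv hz, e1.fderiv_eq]

theorem L5a_local {A : S.H} (h : A ∈ S.hd.W) (x : S.Y) : ∃ v : S.Y → ℂ,
    (∀ q ∈ (chartAt ℂ x).source, HolAt v q) ∧
      ∀ᵐ q ∂S.lam, q ∈ (chartAt ℂ x).source → A q = v q := by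
  obtain ⟨g, hg, hg'⟩ := weyl_plane (chartAt ℂ x).open_target
    (S.L5a_loc_chart x (S.f_hol.continuous.measurable.mul (Lp.stronglyMeasurable A).measurable)
      (S.L5a_loc A)) fun κ h1 h2 h3 => S.L5a_test h x h1 h2 h3
  refine ⟨fun q => g (chartAt ℂ x q) * (S.f q)⁻¹, fun q hq => ?_, ?_⟩
  · exact ((hg.differentiableAt ((chartAt ℂ x).open_target.mem_nhds
      ((chartAt ℂ x).map_source hq))).comp_mdifferentiableAt (chart_hol hq).1).mul
      ((differentiableAt_inv (S.f_ne q)).comp_mdifferentiableAt (S.f_hol q))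
  · rw [← ae_restrict_iff' (chartAt ℂ x).open_target.measurableSet, ← S.map_chart] at hg'
    have h1 := ae_of_ae_map (S.L5a_aem x) hg'
    rw [ae_restrict_iff' (chartAt ℂ x).open_source.measurableSet] at h1
    filter_upwards [h1] with q hq hs
    have h2 := hq hs
    simp only [(chartAt ℂ x).left_inv hs] at h2
    rw [← h2, Pi.mul_apply, mul_comm (S.f q), mul_inv_cancel_right₀ (S.f_ne q)]

/-- the lemma of Weyl -/
theorem weyl {A : S.H} (h : A ∈ S.hd.W) : ∃ u : S.Y → ℂ, Hol u ∧ (A : S.Y → ℂ) =ᵐ[S.lamf] u := by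
  choose v hv hv' using S.L5a_local h
  have := S.L5a_pos
  have hov : ∀ x y, EqOn (v x) (v y) ((chartAt ℂ x).source ∩ (chartAt ℂ y).source) := fun x y => by
    have ho := (chartAt ℂ x).open_source.inter (chartAt ℂ y).open_source
    refine Measure.eqOn_open_of_ae_eq (μ := S.lam) ?_ ho
      (fun q hq => (hv x q hq.1).continuousAt.continuousWithinAt)
      (fun q hq => (hv y q hq.2).continuousAt.continuousWithinAt)
    rw [Filter.EventuallyEq, ae_restrict_iff' ho.measurableSet]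
    filter_upwards [hv' x, hv' y] with q h1 h2 hq
    rw [← h1 hq.1, h2 hq.2]
  refine ⟨fun q => v q q, fun q => (hv q q (mem_chart_source ℂ q)).congr_of_eventuallyEq
    (Filter.eventually_of_mem (chart_source_mem_nhds ℂ q) fun y hy =>
      hov y q ⟨mem_chart_source ℂ y, hy⟩), S.ae_lamf.2 ?_⟩
  obtain ⟨s, hs, hs'⟩ := TopologicalSpace.countable_cover_nhds fun x : S.Y =>
    chart_source_mem_nhds ℂ x
  filter_upwards [(ae_ball_iff hs).2 fun x _ => hv' x] with q hq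
  obtain ⟨x, hx, hqx⟩ := mem_iUnion₂.1 (hs'.ge (mem_univ q))
  rw [hq x hx hqx]
  exact hov x q ⟨hqx, mem_chart_source ℂ q⟩

variable {μ : S.Y → ℂ} {κ : ℝ}

end Flat

end Pool.Agent.MP_e62289_ag

end

section

open Set Filter Topology Complex MeasureTheory Metric
open scoped Manifold ContDiff ComplexConjugate NNReal ENNReal

namespace Pool.Agent.MP_e62289_ag

namespace Flat

variable {n : ℕ} (S : Flat n)

variable {μ : S.Y → ℂ} {κ : ℝ}

theorem L5b_mem (hμ : AEStronglyMeasurable μ S.lamf) (hb : ∀ q, ‖μ q‖ ≤ κ) :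
    MemLp μ ⊤ S.lamf :=
  memLp_top_of_bound hμ κ (Eventually.of_forall hb)

theorem mulOp_apply (hμ : AEStronglyMeasurable μ S.lamf) (hb : ∀ q, ‖μ q‖ ≤ κ) (A : S.H) :
    (S.mulOp μ A : S.Y → ℂ) =ᵐ[S.lamf] fun q => μ q * A q := by
  have h := S.L5b_mem hμ hb
  unfold mulOp
  rw [dif_pos h]
  have h1 := (ContinuousLinearMap.mul ℂ ℂ).coeFn_holder (r := 2) (h.toLp μ) A
  filter_upwards [h1, h.coeFn_toLp] with q h1 h2
  refine Eq.trans h1 ?_
  rw [h2]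
  rfl

theorem norm_mulOp (hμ : AEStronglyMeasurable μ S.lamf) (hb : ∀ q, ‖μ q‖ ≤ κ) :
    ‖S.mulOp μ‖ ≤ κ := by
  have hκ : 0 ≤ κ := (norm_nonneg _).trans (hb (Classical.arbitrary _))
  refine ContinuousLinearMap.opNorm_le_bound _ hκ fun A => ?_
  refine Lp.norm_le_mul_norm_of_ae_le_mul ?_
  filter_upwards [S.mulOp_apply hμ hb A] with q hq
  rw [hq, norm_mul]
  exact mul_le_mul_of_nonneg_right (hb q) (norm_nonneg _)

theorem mulOp_add {μ' : S.Y → ℂ} {κ' : ℝ} (hμ : AEStronglyMeasurable μ S.lamf)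
    (hb : ∀ q, ‖μ q‖ ≤ κ) (hμ' : AEStronglyMeasurable μ' S.lamf) (hb' : ∀ q, ‖μ' q‖ ≤ κ') :
    S.mulOp (fun q => μ q + μ' q) = S.mulOp μ + S.mulOp μ' := by
  have hs : ∀ q, ‖μ q + μ' q‖ ≤ κ + κ' := fun q =>
    (norm_add_le _ _).trans (add_le_add (hb q) (hb' q))
  refine ContinuousLinearMap.ext fun A => Lp.ext ?_
  filter_upwards [S.mulOp_apply (μ := fun q => μ q + μ' q) (hμ.add hμ') hs A,
    S.mulOp_apply hμ hb A, S.mulOp_apply hμ' hb' A,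
    Lp.coeFn_add (S.mulOp μ A) (S.mulOp μ' A)] with q h1 h2 h3 h4
  rw [h1, _root_.add_apply, h4, Pi.add_apply, h2, h3]
  ring

theorem mulOp_smul (hμ : AEStronglyMeasurable μ S.lamf) (hb : ∀ q, ‖μ q‖ ≤ κ) (c : ℂ) :
    S.mulOp (fun q => c * μ q) = c • S.mulOp μ := by
  have hs : ∀ q, ‖c * μ q‖ ≤ ‖c‖ * κ := fun q => by
    rw [norm_mul]
    exact mul_le_mul_of_nonneg_left (hb q) (norm_nonneg _)
  refine ContinuousLinearMap.ext fun A => Lp.ext ?_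
  filter_upwards [S.mulOp_apply (μ := fun q => c * μ q) (hμ.const_mul c) hs A,
    S.mulOp_apply hμ hb A, Lp.coeFn_smul c (S.mulOp μ A)] with q h1 h2 h4
  rw [h1, _root_.smul_apply, h4, Pi.smul_apply, h2, smul_eq_mul]
  ring

theorem β_mulOp (hμ : AEStronglyMeasurable μ S.lamf) (hb : ∀ q, ‖μ q‖ ≤ κ) (A B : S.H) :
    S.hd.β A (S.mulOp μ B) = ∫ q, μ q * (S.f q * B q * A q) ∂S.lam := by
  rw [S.hd_β]
  refine integral_congr_ae ?_
  filter_upwards [S.ae_lamf.1 (S.mulOp_apply hμ hb B)] with q hq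
  rw [hq]
  ring

theorem Hval_bound {ξp ξm : S.H} (hp : ξp ∈ S.hd.W) (hm : ξm ∈ S.hd.W)
    (hμ : AEStronglyMeasurable μ S.lamf) (hb : ∀ q, ‖μ q‖ ≤ κ) (hκ : κ < 1) :
    ‖S.Hval ξp ξm μ‖ ≤ ‖ξp‖ * ‖ξm‖ :=
  S.hd.hv_bound hp hm ((S.norm_mulOp hμ hb).trans_lt hκ)

/-- multiplication operators depend holomorphically on parameters -/
theorem L5b_diff {ν : ℂ → S.Y → ℂ} {ζ₀ : ℂ} {ρ : ℝ} (hρ : 0 < ρ)
    (hm : ∀ ζ ∈ ball ζ₀ ρ, AEStronglyMeasurable (ν ζ) S.lamf)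
    (hb : ∀ ζ ∈ ball ζ₀ ρ, ∀ q, ‖ν ζ q‖ ≤ κ)
    (hd : ∀ q, DifferentiableOn ℂ (fun ζ => ν ζ q) (ball ζ₀ ρ)) :
    DifferentiableAt ℂ (fun ζ => S.mulOp (ν ζ)) ζ₀ := by
  have hmem : ∀ z ∈ ball (0 : ℂ) ρ, ζ₀ + z ∈ ball ζ₀ ρ := fun z hz => by
    simpa using hz
  have h0 : ζ₀ ∈ ball ζ₀ ρ := mem_ball_self hρ
  set ν' : S.Y → ℂ := fun q => deriv (fun z => ν (ζ₀ + z) q) 0 with hν'
  have hs : ∀ q, ‖ν' q‖ ≤ κ / ρ ∧ ∀ z ∈ ball (0 : ℂ) ρ,
      ‖ν (ζ₀ + z) q - ν ζ₀ q - z * ν' q‖ ≤ 6 * κ / ρ ^ 2 * ‖z‖ ^ 2 := by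
    intro q
    have hg : DifferentiableOn ℂ (fun z => ν (ζ₀ + z) q) (ball 0 ρ) :=
      (hd q).comp (f := fun z : ℂ => ζ₀ + z) (by fun_prop) hmem
    obtain ⟨h1, h2⟩ := schwarz_two hρ hg (fun z hz => hb _ (hmem z hz) q)
    refine ⟨h1, fun z hz => ?_⟩
    simpa using (h2 z hz).2
  -- measurability of the derivative
  have hmeas : AEStronglyMeasurable ν' S.lamf := by
    let t : ℕ → ℝ := fun k => ρ / 2 * (1 / ((k : ℝ) + 1))
    have ht0 : ∀ k, 0 < t k := fun k => by positivity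
    have ht1 : ∀ k, t k < ρ := fun k => by
      have h1 : 1 / ((k : ℝ) + 1) ≤ 1 := by
        rw [div_le_one (by positivity)]
        linarith [(Nat.cast_nonneg k : (0 : ℝ) ≤ k)]
      have h2 : ρ / 2 * (1 / ((k : ℝ) + 1)) ≤ ρ / 2 * 1 :=
        mul_le_mul_of_nonneg_left h1 (by positivity)
      show ρ / 2 * (1 / ((k : ℝ) + 1)) < ρ
      linarith
    have htb : ∀ k, ((t k : ℝ) : ℂ) ∈ ball (0 : ℂ) ρ := fun k => by
      rw [mem_ball_zero_iff, Complex.norm_real, Real.norm_of_nonneg (ht0 k).le]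
      exact ht1 k
    have htl : Tendsto t atTop (𝓝 0) := by
      have h1 := (tendsto_one_div_add_atTop_nhds_zero_nat (𝕜 := ℝ)).const_mul (ρ / 2)
      rw [mul_zero] at h1
      exact h1
    refine aestronglyMeasurable_of_tendsto_ae atTop
      (f := fun k q => ((t k : ℝ) : ℂ)⁻¹ * (ν (ζ₀ + (t k : ℝ)) q - ν ζ₀ q)) (fun k => ?_)
      (Eventually.of_forall fun q => ?_)
    · exact ((hm _ (hmem _ (htb k))).sub (hm _ h0)).const_mul _
    · rw [tendsto_iff_norm_sub_tendsto_zero]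
      have h1 := htl.const_mul (6 * κ / ρ ^ 2)
      rw [mul_zero] at h1
      refine squeeze_zero (fun k => norm_nonneg _) (fun k => ?_) h1
      have h2 := (hs q).2 _ (htb k)
      have hne : ((t k : ℝ) : ℂ) ≠ 0 := by exact_mod_cast (ht0 k).ne'
      have h3 : ((t k : ℝ) : ℂ)⁻¹ * (ν (ζ₀ + (t k : ℝ)) q - ν ζ₀ q) - ν' q =
          ((t k : ℝ) : ℂ)⁻¹ * (ν (ζ₀ + (t k : ℝ)) q - ν ζ₀ q - (t k : ℝ) * ν' q) := by
        field_simp
      rw [h3, norm_mul, norm_inv, Complex.norm_real, Real.norm_of_nonneg (ht0 k).le]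
      rw [Complex.norm_real, Real.norm_of_nonneg (ht0 k).le] at h2
      rw [inv_mul_le_iff₀ (ht0 k)]
      refine h2.trans (le_of_eq ?_)
      ring
  have key : ∀ ζ ∈ ball ζ₀ ρ, ‖S.mulOp (ν ζ) - S.mulOp (ν ζ₀) - (ζ - ζ₀) • S.mulOp ν'‖ ≤
      6 * κ / ρ ^ 2 * ‖ζ - ζ₀‖ ^ 2 := by
    intro ζ hζ
    have hz : ζ - ζ₀ ∈ ball (0 : ℂ) ρ := by
      rw [mem_ball_zero_iff]
      rwa [mem_ball, dist_eq_norm] at hζ
    have hr : ∀ q, ‖ν ζ q - ν ζ₀ q - (ζ - ζ₀) * ν' q‖ ≤ 6 * κ / ρ ^ 2 * ‖ζ - ζ₀‖ ^ 2 :=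
      fun q => by simpa using (hs q).2 _ hz
    have hrm : AEStronglyMeasurable (fun q => ν ζ q - ν ζ₀ q - (ζ - ζ₀) * ν' q) S.lamf :=
      ((hm _ hζ).sub (hm _ h0)).sub (hmeas.const_mul _)
    have hb2 : ∀ q, ‖(ζ - ζ₀) * ν' q‖ ≤ ‖ζ - ζ₀‖ * (κ / ρ) := fun q => by
      rw [norm_mul]
      exact mul_le_mul_of_nonneg_left (hs q).1 (norm_nonneg _)
    have hb3 : ∀ q, ‖ν ζ₀ q + (ζ - ζ₀) * ν' q‖ ≤ κ + ‖ζ - ζ₀‖ * (κ / ρ) := fun q =>
      (norm_add_le _ _).trans (add_le_add (hb _ h0 q) (hb2 q))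
    have e1 := S.mulOp_add (μ := fun q => ν ζ₀ q + (ζ - ζ₀) * ν' q)
      ((hm _ h0).add (hmeas.const_mul _)) hb3 hrm hr
    have e2 := S.mulOp_add (μ' := fun q => (ζ - ζ₀) * ν' q) (hm _ h0) (hb _ h0)
      (hmeas.const_mul _) hb2
    have e3 := S.mulOp_smul hmeas (fun q => (hs q).1) (ζ - ζ₀)
    have e4 : (fun q => ν ζ₀ q + (ζ - ζ₀) * ν' q + (ν ζ q - ν ζ₀ q - (ζ - ζ₀) * ν' q)) = ν ζ := by
      funext q
      ring
    rw [e4, e2, e3] at e1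
    have e5 : S.mulOp (ν ζ) - S.mulOp (ν ζ₀) - (ζ - ζ₀) • S.mulOp ν' =
        S.mulOp (fun q => ν ζ q - ν ζ₀ q - (ζ - ζ₀) * ν' q) := by
      rw [e1]
      abel
    rw [e5]
    exact S.norm_mulOp hrm hr
  have hder : HasDerivAt (fun ζ => S.mulOp (ν ζ)) (S.mulOp ν') ζ₀ := by
    rw [hasDerivAt_iff_isLittleO]
    have h1 : (fun ζ : ℂ => S.mulOp (ν ζ) - S.mulOp (ν ζ₀) - (ζ - ζ₀) • S.mulOp ν')
        =O[𝓝 ζ₀] fun ζ : ℂ => ‖ζ - ζ₀‖ ^ 2 := by
      refine Asymptotics.IsBigO.of_bound (6 * κ / ρ ^ 2) ?_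
      filter_upwards [ball_mem_nhds ζ₀ hρ] with ζ hζ
      rw [Real.norm_of_nonneg (by positivity)]
      exact key ζ hζ
    exact h1.trans_isLittleO (Asymptotics.isLittleO_pow_sub_sub ζ₀ one_lt_two)
  exact hder.differentiableAt

/-- holomorphic dependence on parameters -/
theorem Hval_hol (ξp ξm : S.H) {ν : ℂ → S.Y → ℂ} {ζ₀ : ℂ} {ρ : ℝ} (hρ : 0 < ρ) (hκ : κ < 1)
    (hm : ∀ ζ ∈ ball ζ₀ ρ, AEStronglyMeasurable (ν ζ) S.lamf)
    (hb : ∀ ζ ∈ ball ζ₀ ρ, ∀ q, ‖ν ζ q‖ ≤ κ)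
    (hd : ∀ q, DifferentiableOn ℂ (fun ζ => ν ζ q) (ball ζ₀ ρ)) :
    DifferentiableAt ℂ (fun ζ => S.Hval ξp ξm (ν ζ)) ζ₀ := by
  have h0 : ζ₀ ∈ ball ζ₀ ρ := mem_ball_self hρ
  have h1 : S.mulOp (ν ζ₀) ∈ ball (0 : S.H →L[ℂ] S.H) 1 := by
    rw [mem_ball_zero_iff]
    exact (S.norm_mulOp (hm _ h0) (hb _ h0)).trans_lt hκ
  have h2 := (S.hd.hv_diff ξp ξm).differentiableAt (isOpen_ball.mem_nhds h1)
  exact h2.comp ζ₀ (S.L5b_diff hρ hm hb hd)

end Flat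

end Pool.Agent.MP_e62289_ag

end

section



end

section

open Set Filter Topology Complex MeasureTheory Metric
open scoped Manifold ContDiff ComplexConjugate NNReal ENNReal

namespace Pool.Agent.MP_e62289_ag

namespace Family

variable {E : Type} [NormedAddCommGroup E] [NormedSpace ℂ E] {B : Type} [TopologicalSpace B]
  [ChartedSpace E B] {n : ℕ} {a : Fin n → ℕ} {C : Family E B a} {b₀ : B} {m : ℕ} {S : Flat m}

open Classical in
/-- the Beltrami coefficients of the transported marking -/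
noncomputable def Triv.mu (τ : C.Triv b₀) (G₀ : Adm S.Y (C.Fib b₀)) (b : B) : S.Y → ℂ :=
  if h : b ∈ τ.U then bel (G₀.trans (τ.M.G ⟨b, h⟩)).φ else 0

theorem Triv.mu_eq (τ : C.Triv b₀) (G₀ : Adm S.Y (C.Fib b₀)) {b : B} (h : b ∈ τ.U) :
    τ.mu G₀ b = bel (G₀.trans (τ.M.G ⟨b, h⟩)).φ := dif_pos h

/-- the fibre coordinate of the transported marking -/
noncomputable def Triv.F3a_g (τ : C.Triv b₀) (G₀ : Adm S.Y (C.Fib b₀)) (x : C.X) (p : B × S.Y) :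
    ℂ := (C.chart x (τ.F p.1 (G₀.φ p.2).1)).1

/-- the domain of `F3a_g` -/
def Triv.F3a_O (τ : C.Triv b₀) (G₀ : Adm S.Y (C.Fib b₀)) (x : C.X) : Set (B × S.Y) :=
  {p | p.1 ∈ τ.U ∧ τ.F p.1 (G₀.φ p.2).1 ∈ (C.chart x).source}

theorem Triv.F3a_open (τ : C.Triv b₀) (G₀ : Adm S.Y (C.Fib b₀)) (x : C.X) :
    IsOpen (τ.F3a_O G₀ x) := by
  have h1 : ContinuousOn (fun p : B × S.Y => τ.F p.1 (G₀.φ p.2).1) (τ.U ×ˢ univ) :=
    τ.contF.comp (f := fun p : B × S.Y => (p.1, (G₀.φ p.2).1))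
      (continuous_fst.prodMk
        (continuous_subtype_val.comp (G₀.φ.continuous.comp continuous_snd))).continuousOn
      fun p hp => ⟨hp.1, (G₀.φ p.2).2.1⟩
  have h2 := h1.isOpen_inter_preimage (τ.isOpen.prod isOpen_univ) (C.chart x).open_source
  convert h2 using 1
  ext p
  simp [Triv.F3a_O]

theorem Triv.F3a_smooth (τ : C.Triv b₀) (G₀ : Adm S.Y (C.Fib b₀)) (x : C.X) :
    ContMDiffOn (𝓘(ℝ, E).prod 𝓘(ℝ, ℂ)) 𝓘(ℝ, ℂ) 1 (τ.F3a_g G₀ x) (τ.F3a_O G₀ x) := by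
  have h1 : ContMDiff (𝓘(ℝ, E).prod 𝓘(ℝ, ℂ)) (𝓘(ℝ, E).prod 𝓘(ℝ, ℂ)) 2
      (fun p : B × S.Y => (p.1, G₀.φ p.2)) :=
    contMDiff_fst.prodMk (G₀.φ.contMDiff.comp contMDiff_snd)
  exact ((τ.smooth x).comp h1.contMDiffOn fun p hp => hp).of_le one_le_two

theorem Triv.F3a_mem (τ : C.Triv b₀) (G₀ : Adm S.Y (C.Fib b₀)) {p : B × S.Y} (h : p.1 ∈ τ.U) :
    p ∈ τ.F3a_O G₀ (τ.F p.1 (G₀.φ p.2).1) := ⟨h, C.mem_source _⟩

theorem Triv.F3a_loc (τ : C.Triv b₀) (G₀ : Adm S.Y (C.Fib b₀)) {x : C.X} {p : B × S.Y}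
    (hp : p ∈ τ.F3a_O G₀ x) :
    d1 (fun y => τ.F3a_g G₀ x (p.1, y)) p.2 ≠ 0 ∧
    τ.mu G₀ p.1 p.2 =
      d2 (fun y => τ.F3a_g G₀ x (p.1, y)) p.2 / d1 (fun y => τ.F3a_g G₀ x (p.1, y)) p.2 := by
  obtain ⟨b, q⟩ := p
  obtain ⟨h, hx⟩ := hp
  let A : Adm S.Y (C.Fib b) := G₀.trans (τ.M.G ⟨b, h⟩)
  have hA : ∀ y, (A.φ y).1 = τ.F b (G₀.φ y).1 := fun y => τ.eq ⟨b, h⟩ (G₀.φ y)
  have e : (fun y => τ.F3a_g G₀ x (b, y)) = (fun y : C.Fib b => (C.chart x y.1).1) ∘ A.φ :=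
    funext fun y => by simp only [Triv.F3a_g, Function.comp_apply, hA]
  have hx' : (A.φ q).1 ∈ (C.chart x).source := by rw [hA]; exact hx
  have hc := C.holAt_chart hx'
  have hb := bel_comp_hol (A.md q) hc.1 hc.2
  refine ⟨?_, ?_⟩
  · change d1 (fun y => τ.F3a_g G₀ x (b, y)) q ≠ 0
    rw [e, hb.1]
    exact mul_ne_zero hc.2 (A.d1_ne q)
  · change τ.mu G₀ b q =
      d2 (fun y => τ.F3a_g G₀ x (b, y)) q / d1 (fun y => τ.F3a_g G₀ x (b, y)) q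
    rw [e, τ.mu_eq G₀ h]
    exact hb.2.2.symm

variable [FiniteDimensional ℂ E] [IsManifold 𝓘(ℂ, E) ω B] [IsManifold 𝓘(ℝ, E) ∞ B]
  (τ : C.Triv b₀) (G₀ : Adm S.Y (C.Fib b₀))

theorem Triv.mu_cont : ContinuousOn (fun p : B × S.Y => τ.mu G₀ p.1 p.2) (τ.U ×ˢ univ) := by
  intro p hp
  have hm := τ.F3a_mem G₀ hp.1
  have ho := τ.F3a_open G₀ (τ.F p.1 (G₀.φ p.2).1)
  have hd := S.continuousOn_d_par ho (τ.F3a_smooth G₀ _)
  have hc : ContinuousOn (fun p : B × S.Y => τ.mu G₀ p.1 p.2) (τ.F3a_O G₀ _) :=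
    (hd.2.div hd.1 fun p hp => (τ.F3a_loc G₀ hp).1).congr fun p hp => (τ.F3a_loc G₀ hp).2
  exact (hc.continuousAt (ho.mem_nhds hm)).continuousWithinAt

theorem Triv.mu_supp : ∃ K, IsCompact K ∧ ∀ b q, q ∉ K → τ.mu G₀ b q = 0 := by
  obtain ⟨K, hK, h⟩ := (τ.M.pre G₀).conf
  refine ⟨K, hK, fun b q hq => ?_⟩
  by_cases hb : b ∈ τ.U
  · have h0 : d2 (G₀.trans (τ.M.G ⟨b, hb⟩)).φ q = 0 := h ⟨b, hb⟩ q hq
    rw [τ.mu_eq G₀ hb, bel, h0, zero_div]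
  · simp only [Triv.mu, dif_neg hb, Pi.zero_apply]

theorem Triv.mu_bound {b₁ : B} (h : b₁ ∈ τ.U) :
    ∃ κ : ℝ, κ < 1 ∧ ∀ᶠ b in 𝓝 b₁, ∀ q, ‖τ.mu G₀ b q‖ ≤ κ := by
  obtain ⟨K, hK, h0⟩ := τ.mu_supp G₀
  obtain ⟨-, κ, hκ0, hκ1, hb⟩ := S.bel_adm (G₀.trans (τ.M.G ⟨b₁, h⟩))
  refine ⟨(κ + 1) / 2, by linarith, ?_⟩
  have h1 : ∀ᶠ b in 𝓝 b₁, ∀ q ∈ K, ‖τ.mu G₀ b q‖ < (κ + 1) / 2 := by
    refine hK.eventually_forall_of_forall_eventually fun q _ => ?_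
    have hc : ContinuousAt (fun p : B × S.Y => τ.mu G₀ p.1 p.2) (b₁, q) :=
      (τ.mu_cont G₀).continuousAt ((τ.isOpen.prod isOpen_univ).mem_nhds ⟨h, mem_univ _⟩)
    refine hc.norm.eventually_lt continuousAt_const ?_
    have h2 := hb q
    rw [← τ.mu_eq G₀ h] at h2
    change ‖τ.mu G₀ b₁ q‖ < _
    linarith
  filter_upwards [h1] with b hb q
  by_cases hq : q ∈ K
  · exact (hb q hq).le
  · rw [h0 b q hq, norm_zero]
    linarith

theorem Triv.mu_hol {x : B} {φ : ℂ → E} {ζ₀ : ℂ} (hφ : AnalyticAt ℂ φ ζ₀)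
    (hx : φ ζ₀ ∈ (chartAt E x).target) (hU : (chartAt E x).symm (φ ζ₀) ∈ τ.U) (q : S.Y) :
    DifferentiableAt ℂ (fun ζ => τ.mu G₀ ((chartAt E x).symm (φ ζ)) q) ζ₀ := by
  let ψ : ℂ → B := fun ζ => (chartAt E x).symm (φ ζ)
  let W : Set ℂ := {ζ | AnalyticAt ℂ φ ζ ∧ φ ζ ∈ (chartAt E x).target}
  have hW : IsOpen W := isOpen_iff_mem_nhds.2 fun ζ hζ =>
    hζ.1.eventually_analyticAt.and
      (hζ.1.continuousAt.preimage_mem_nhds ((chartAt E x).open_target.mem_nhds hζ.2))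
  have hψ : ContMDiffOn 𝓘(ℝ, ℂ) 𝓘(ℝ, E) 1 ψ W := by
    have h1 : ContMDiffOn 𝓘(ℝ, ℂ) 𝓘(ℝ, E) 1 φ W := fun ζ hζ =>
      ((hζ.1.contDiffAt (n := 1)).restrict_scalars ℝ).contMDiffAt.contMDiffWithinAt
    exact (contMDiffOn_chart_symm (I := 𝓘(ℝ, E)) (n := 1) (x := x)).comp h1 fun ζ hζ => hζ.2
  have hψ' : ∀ ζ ∈ W, MDifferentiableAt 𝓘(ℂ, ℂ) 𝓘(ℂ, E) ψ ζ := fun ζ hζ =>
    (((contMDiffOn_chart_symm (I := 𝓘(ℂ, E)) (n := 1) (x := x)).contMDiffAt
      ((chartAt E x).open_target.mem_nhds hζ.2)).mdifferentiableAt one_ne_zero).comp ζ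
      hζ.1.differentiableAt.mdifferentiableAt
  let y : C.X := τ.F (ψ ζ₀) (G₀.φ q).1
  have ho := τ.F3a_open G₀ y
  let O : Set (ℂ × S.Y) := W ×ˢ univ ∩ (fun p => (ψ p.1, p.2)) ⁻¹' τ.F3a_O G₀ y
  have hP : ContMDiffOn (𝓘(ℝ, ℂ).prod 𝓘(ℝ, ℂ)) (𝓘(ℝ, E).prod 𝓘(ℝ, ℂ)) 1
      (fun p : ℂ × S.Y => (ψ p.1, p.2)) (W ×ˢ univ) :=
    (hψ.comp contMDiffOn_fst fun p hp => hp.1).prodMk contMDiffOn_snd
  have hO : IsOpen O := hP.continuousOn.isOpen_inter_preimage (hW.prod isOpen_univ) ho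
  have hm : (ζ₀, q) ∈ O := ⟨⟨⟨hφ, hx⟩, mem_univ _⟩, τ.F3a_mem G₀ (p := (ψ ζ₀, q)) hU⟩
  have hd := S.d_par_hol (g := fun p => τ.F3a_g G₀ y (ψ p.1, p.2)) hO
    ((τ.F3a_smooth G₀ y).comp (hP.mono inter_subset_left) fun p hp => hp.2)
    (fun p hp => by
      have h1 : IsOpen {b | b ∈ τ.U ∧ τ.F b (G₀.φ p.2).1 ∈ (C.chart y).source} :=
        ho.preimage (Continuous.prodMk_left p.2)
      have h2 := ((τ.hol y (G₀.φ p.2)).mdifferentiableAt (h1.mem_nhds hp.2)).comp p.1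
        (hψ' p.1 hp.1.1)
      exact mdifferentiableAt_iff_differentiableAt.1 h2) hm
  refine (hd.2.div hd.1 (τ.F3a_loc G₀ hm.2).1).congr_of_eventuallyEq ?_
  filter_upwards [(hO.preimage (Continuous.prodMk_left q)).mem_nhds hm] with ζ hζ
  exact (τ.F3a_loc G₀ hζ.2).2

theorem Triv.hval_hol (ξp ξm : S.H) {x : B} {φ : ℂ → E} {ζ₀ : ℂ} (hφ : AnalyticAt ℂ φ ζ₀)
    (hx : φ ζ₀ ∈ (chartAt E x).target) (hU : (chartAt E x).symm (φ ζ₀) ∈ τ.U) :
    DifferentiableAt ℂ (fun ζ => S.Hval ξp ξm (τ.mu G₀ ((chartAt E x).symm (φ ζ)))) ζ₀ := by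
  obtain ⟨κ, hκ, hb⟩ := τ.mu_bound G₀ hU
  have hc : ContinuousAt (fun ζ => (chartAt E x).symm (φ ζ)) ζ₀ :=
    ((chartAt E x).continuousAt_symm hx).comp hφ.continuousAt
  have h1 := ((hφ.eventually_analyticAt.and
    (hφ.continuousAt.preimage_mem_nhds ((chartAt E x).open_target.mem_nhds hx))).and
    (hc.preimage_mem_nhds (τ.isOpen.mem_nhds hU))).and (hc.eventually hb)
  obtain ⟨ρ, hρ, h2⟩ := Metric.eventually_nhds_iff_ball.1 h1
  refine S.Hval_hol ξp ξm hρ hκ (fun ζ hζ => ?_) (fun ζ hζ => (h2 ζ hζ).2) fun q ζ hζ =>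
    (τ.mu_hol G₀ (h2 ζ hζ).1.1.1 (h2 ζ hζ).1.1.2 (h2 ζ hζ).1.2 q).differentiableWithinAt
  rw [τ.mu_eq G₀ (h2 ζ hζ).1.2]
  exact (S.bel_adm _).1.aestronglyMeasurable

variable {V : Set B} {f : C.X → ℂ × B → ℂ}

end Family

end Pool.Agent.MP_e62289_ag

end

section

open Set Filter Topology Complex MeasureTheory Metric
open scoped Manifold ContDiff ComplexConjugate NNReal ENNReal

namespace Pool.Agent.MP_e62289_ag

namespace Family

variable {E : Type} [NormedAddCommGroup E] [NormedSpace ℂ E] {B : Type} [TopologicalSpace B]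
  [ChartedSpace E B] {n : ℕ} {a : Fin n → ℕ} {C : Family E B a} {b₀ : B} {m : ℕ} {S : Flat m}

section Aux

variable (τ : C.Triv b₀) (G₀ : Adm S.Y (C.Fib b₀))

/-- the fibre coordinate of the transported marking in the chart at `x` -/
noncomputable def F3b_g (x : C.X) (p : B × S.Y) : ℂ := (C.chart x (τ.F p.1 (G₀.φ p.2).1)).1

/-- the domain of the fibre coordinate -/
def F3b_O (x : C.X) : Set (B × S.Y) :=
  {p | p.1 ∈ τ.U ∧ τ.F p.1 (G₀.φ p.2).1 ∈ (C.chart x).source}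

theorem F3b_proj {b : B} (hb : b ∈ τ.U) (q : C.Fib b₀) : C.proj (τ.F b q.1) = b := by
  rw [← τ.eq ⟨b, hb⟩ q]
  exact ((τ.M.G ⟨b, hb⟩).φ q).2.1

theorem F3b_contF :
    ContinuousOn (fun p : B × S.Y => τ.F p.1 (G₀.φ p.2).1) (τ.U ×ˢ univ) :=
  τ.contF.comp (f := fun p : B × S.Y => (p.1, (G₀.φ p.2).1))
    (continuous_fst.prodMk
      (continuous_subtype_val.comp (G₀.φ.continuous.comp continuous_snd))).continuousOn
    fun p hp => ⟨hp.1, (G₀.φ p.2).2.1⟩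

theorem F3b_open (x : C.X) : IsOpen (F3b_O τ G₀ x) := by
  have h := (F3b_contF τ G₀).isOpen_inter_preimage (τ.isOpen.prod isOpen_univ)
    (C.chart x).open_source
  convert h using 1
  ext p
  simp [F3b_O]

theorem F3b_smooth (x : C.X) :
    ContMDiffOn (𝓘(ℝ, E).prod 𝓘(ℝ, ℂ)) 𝓘(ℝ, ℂ) 2 (F3b_g τ G₀ x) (F3b_O τ G₀ x) :=
  (τ.smooth x).comp (f := fun p : B × S.Y => (p.1, G₀.φ p.2))
    (contMDiff_fst.prodMk (G₀.φ.contMDiff.comp contMDiff_snd)).contMDiffOn fun _ hp => hp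

theorem F3b_chart {x : C.X} {p : B × S.Y} (hp : p ∈ F3b_O τ G₀ x) :
    (F3b_g τ G₀ x p, p.1) = C.chart x (τ.F p.1 (G₀.φ p.2).1) := by
  rw [← C.chart_eq hp.2, F3b_proj τ hp.1]
  rfl

theorem F3b_target {x : C.X} {p : B × S.Y} (hp : p ∈ F3b_O τ G₀ x) :
    (F3b_g τ G₀ x p, p.1) ∈ (C.chart x).target := by
  rw [F3b_chart τ G₀ hp]
  exact (C.chart x).map_source hp.2

theorem F3b_pb {V : Set B} {f : C.X → ℂ × B → ℂ} (hf : C.IsForm V f) {x : C.X} {p : B × S.Y}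
    (hp : p ∈ F3b_O τ G₀ x) (hV : p.1 ∈ V) :
    C.pb1 f (fun y => τ.F p.1 (G₀.φ y).1) p.2 =
      f x (F3b_g τ G₀ x p, p.1) * d1 (fun y => F3b_g τ G₀ x (p.1, y)) p.2 := by
  have e : ∀ y, ((G₀.trans (τ.M.G ⟨p.1, hp.1⟩)).φ y).1 = τ.F p.1 (G₀.φ y).1 := fun y =>
    τ.eq ⟨p.1, hp.1⟩ (G₀.φ y)
  have h := (hf.pb_eq hV (G₀.trans (τ.M.G ⟨p.1, hp.1⟩)) (q := p.2) (x := x)
    (by rw [e]; exact hp.2)).1
  simp only [e] at h
  rw [h, F3b_chart τ G₀ hp]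
  rfl

end Aux

variable [FiniteDimensional ℂ E] [IsManifold 𝓘(ℂ, E) ω B] [IsManifold 𝓘(ℝ, E) ∞ B]
  (τ : C.Triv b₀) (G₀ : Adm S.Y (C.Fib b₀))

variable {V : Set B} {f : C.X → ℂ × B → ℂ}

theorem Triv.pb_cont (hf : C.IsForm V f) (hV : IsOpen V) :
    ContinuousOn (fun p : B × S.Y => C.pb1 f (fun y => τ.F p.1 (G₀.φ y).1) p.2)
      ((τ.U ∩ V) ×ˢ univ) := by
  intro p₀ hp₀
  refine ContinuousAt.continuousWithinAt ?_
  set x := τ.F p₀.1 (G₀.φ p₀.2).1 with hx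
  have hO := F3b_open τ G₀ x
  have hm : p₀ ∈ F3b_O τ G₀ x := ⟨hp₀.1.1, C.mem_source x⟩
  have hs := F3b_smooth τ G₀ x
  have h1 := (S.continuousOn_d_par hO (hs.of_le (by norm_num))).1.continuousAt (hO.mem_nhds hm)
  have h2 : ContinuousAt (fun p : B × S.Y => (F3b_g τ G₀ x p, p.1)) p₀ :=
    (hs.continuousOn.continuousAt (hO.mem_nhds hm)).prodMk continuousAt_fst
  have h3 : ContinuousAt (f x) (F3b_g τ G₀ x p₀, p₀.1) :=
    (hf.1 x).continuousOn.continuousAt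
      (((C.chart x).open_target.inter (isOpen_univ.prod hV)).mem_nhds
        ⟨F3b_target τ G₀ hm, mem_univ _, hp₀.1.2⟩)
  refine ((ContinuousAt.comp (f := fun p : B × S.Y => (F3b_g τ G₀ x p, p.1)) h3 h2).mul h1).congr ?_
  filter_upwards [hO.mem_nhds hm, (hV.preimage continuous_fst).mem_nhds hp₀.1.2] with p hp hp'
  exact (F3b_pb τ G₀ hf hp hp').symm

theorem Triv.pb_hol (hf : C.IsForm V f) (hV : IsOpen V) {x : B} {φ : ℂ → E} {ζ₀ : ℂ}
    (hφ : AnalyticAt ℂ φ ζ₀) (hx : φ ζ₀ ∈ (chartAt E x).target)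
    (hU : (chartAt E x).symm (φ ζ₀) ∈ τ.U ∩ V) (q : S.Y) :
    DifferentiableAt ℂ
      (fun ζ => C.pb1 f (fun y => τ.F ((chartAt E x).symm (φ ζ)) (G₀.φ y).1) q) ζ₀ := by
  set ψ : ℂ → B := fun ζ => (chartAt E x).symm (φ ζ) with hψ
  set x' := τ.F (ψ ζ₀) (G₀.φ q).1 with hx'
  have hO := F3b_open τ G₀ x'
  have hm : (ψ ζ₀, q) ∈ F3b_O τ G₀ x' := ⟨hU.1, C.mem_source x'⟩
  have hs := F3b_smooth τ G₀ x'
  obtain ⟨W, hW, hWo, hW₀⟩ := _root_.mem_nhds_iff.1 (hφ.eventually_analyticAt.and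
    (hφ.continuousAt.eventually ((chartAt E x).open_target.mem_nhds hx)))
  have hψR : ContMDiffOn 𝓘(ℝ, ℂ) 𝓘(ℝ, E) 1 ψ W :=
    (contMDiffOn_chart_symm (I := 𝓘(ℝ, E)) (n := 1) (x := x)).comp
      (fun ζ hζ => (((hW hζ).1.contDiffAt (n := 1)).restrict_scalars ℝ).contMDiffAt.contMDiffWithinAt)
      fun ζ hζ => (hW hζ).2
  have hψC : ∀ ζ ∈ W, MDifferentiableAt 𝓘(ℂ, ℂ) 𝓘(ℂ, E) ψ ζ := fun ζ hζ =>
    ((mdifferentiable_chart (I := 𝓘(ℂ, E)) x).mdifferentiableAt_symm (hW hζ).2).comp ζ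
      (hW hζ).1.differentiableAt.mdifferentiableAt
  have hP : ContMDiffOn (𝓘(ℝ, ℂ).prod 𝓘(ℝ, ℂ)) (𝓘(ℝ, E).prod 𝓘(ℝ, ℂ)) 1
      (fun p : ℂ × S.Y => (ψ p.1, p.2)) (W ×ˢ univ) :=
    (hψR.comp contMDiff_fst.contMDiffOn fun _ hp => hp.1).prodMk contMDiff_snd.contMDiffOn
  set O' : Set (ℂ × S.Y) := W ×ˢ univ ∩ (fun p : ℂ × S.Y => (ψ p.1, p.2)) ⁻¹' F3b_O τ G₀ x'
    with hO'def
  have hO' : IsOpen O' := hP.continuousOn.isOpen_inter_preimage (hWo.prod isOpen_univ) hO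
  have hg : ContMDiffOn (𝓘(ℝ, ℂ).prod 𝓘(ℝ, ℂ)) 𝓘(ℝ, ℂ) 1
      (fun p : ℂ × S.Y => F3b_g τ G₀ x' (ψ p.1, p.2)) O' :=
    (hs.of_le (by norm_num)).comp (hP.mono inter_subset_left) fun _ hp => hp.2
  have hh : ∀ p ∈ O', MDifferentiableAt 𝓘(ℂ, ℂ) 𝓘(ℂ, ℂ)
      (fun t => F3b_g τ G₀ x' (ψ t, p.2)) p.1 := fun p hp => by
    have h1 := (τ.hol x' (G₀.φ p.2)).mdifferentiableAt (x := ψ p.1)
      ((hO.preimage (Continuous.prodMk_left p.2)).mem_nhds hp.2)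
    exact h1.comp p.1 (hψC _ hp.1.1)
  have hm' : (ζ₀, q) ∈ O' := ⟨⟨hW₀, mem_univ _⟩, hm⟩
  have h1 := (S.d_par_hol hO' hg (fun p hp => (hh p hp).differentiableAt) hm').1
  have h2 : MDifferentiableAt (𝓘(ℂ, ℂ).prod 𝓘(ℂ, E)) 𝓘(ℂ, ℂ) (f x')
      (F3b_g τ G₀ x' (ψ ζ₀, q), ψ ζ₀) :=
    (hf.1 x').mdifferentiableAt
      (((C.chart x').open_target.inter (isOpen_univ.prod hV)).mem_nhds
        ⟨F3b_target τ G₀ hm, mem_univ _, hU.2⟩)
  have h3 : DifferentiableAt ℂ (fun t => f x' (F3b_g τ G₀ x' (ψ t, q), ψ t)) ζ₀ :=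
    (h2.comp (f := fun t => (F3b_g τ G₀ x' (ψ t, q), ψ t)) ζ₀
      ((hh _ hm').prodMk (hψC _ hW₀))).differentiableAt
  refine (h3.mul h1).congr_of_eventuallyEq ?_
  filter_upwards [(hO'.preimage (Continuous.prodMk_left q)).mem_nhds hm',
    (hψC _ hW₀).continuousAt.eventually (hV.mem_nhds hU.2)] with ζ hζ hζ'
  exact F3b_pb τ G₀ hf (p := (ψ ζ, q)) hζ.2 hζ'

end Family

end Pool.Agent.MP_e62289_ag

end

section



end

section

open Set Filter Topology Complex MeasureTheory Metric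
open scoped Manifold ContDiff ComplexConjugate NNReal ENNReal

namespace Pool.Agent.MP_e62289_ag

lemma L9a_tendsto_eLp {Y : Type} [MeasurableSpace Y] {μ : Measure Y} {u : ℕ → Y → ℂ}
    (h : Tendsto (fun k => ∫⁻ q, ‖u k q‖ₑ ^ 2 ∂μ) atTop (𝓝 0)) :
    Tendsto (fun k => eLpNorm (u k) 2 μ) atTop (𝓝 0) := by
  have e : ∀ k, eLpNorm (u k) 2 μ = (∫⁻ q, ‖u k q‖ₑ ^ 2 ∂μ) ^ (1 / 2 : ℝ) := by
    intro k
    rw [eLpNorm_eq_lintegral_rpow_enorm_toReal (by norm_num) (by norm_num)]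
    simp
  simp only [e]
  have h2 := (ENNReal.continuous_rpow_const (y := (1 / 2 : ℝ))).tendsto 0
  rw [ENNReal.zero_rpow_of_pos (by norm_num)] at h2
  exact h2.comp h

/-- the radii -/
noncomputable def L9a_r (k : ℕ) : ℝ := 1 / ((k : ℝ) + 5)

lemma L9a_r_pos (k : ℕ) : 0 < L9a_r k := by
  unfold L9a_r
  positivity

lemma L9a_r_lt (k : ℕ) : L9a_r k < 1 / 4 := by
  unfold L9a_r
  have : (0 : ℝ) ≤ k := Nat.cast_nonneg k
  exact one_div_lt_one_div_of_lt (by norm_num) (by linarith)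

lemma L9a_r_tendsto : Tendsto L9a_r atTop (𝓝 0) := by
  unfold L9a_r
  exact tendsto_const_nhds.div_atTop
    (tendsto_atTop_add_const_right _ _ tendsto_natCast_atTop_atTop)

lemma L9a_r_ev (c : ℝ) {ρ : ℝ} (hρ : 0 < ρ) : ∀ᶠ k in atTop, c * L9a_r k ≤ ρ := by
  have h := L9a_r_tendsto.const_mul c
  rw [mul_zero] at h
  exact (h.eventually (gt_mem_nhds hρ)).mono fun k hk => hk.le

namespace Flat

variable {n : ℕ} (S : Flat n)

lemma L9a_core (q : S.Y) : ∀ᶠ k in atTop, q ∈ S.core (2 * L9a_r k) := by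
  have : ∀ᶠ k in atTop, ∀ i, q ∈ (S.e i).source → 2 * L9a_r k ≤ ‖S.e i q‖ := by
    rw [eventually_all]
    intro i
    by_cases hq : q ∈ (S.e i).source
    · have h1 := (S.e i).map_source hq
      rw [S.e_target] at h1
      have h2 : 0 < ‖S.e i q‖ := norm_pos_iff.2 h1.2
      exact (L9a_r_ev 2 h2).mono fun k hk _ => hk
    · exact Eventually.of_forall fun k h => absurd h hq
  exact this

lemma L9a_first (A : S.H) {χ : ℕ → S.Y → ℂ} (hc : ∀ k, Continuous (χ k))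
    (h1 : ∀ k q, ‖χ k q‖ ≤ 1) (h2 : ∀ k, ∀ q ∈ S.core (2 * L9a_r k), χ k q = 1) :
    Tendsto (fun k => eLpNorm (fun q => (χ k q - 1) * A q) 2 S.lamf) atTop (𝓝 0) := by
  apply L9a_tendsto_eLp
  have hA := Lp.aestronglyMeasurable A
  have hfin : ∫⁻ q, 4 * ‖A q‖ₑ ^ 2 ∂S.lamf ≠ ⊤ := by
    rw [lintegral_const_mul' _ _ (by norm_num)]
    refine ENNReal.mul_ne_top (by norm_num) ?_
    have := lintegral_rpow_enorm_lt_top_of_eLpNorm_lt_top (p := 2) (μ := S.lamf) (f := A)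
      (by norm_num) (by norm_num) (Lp.eLpNorm_lt_top A)
    simpa using this.ne
  have := tendsto_lintegral_of_dominated_convergence' (μ := S.lamf)
    (F := fun k q => ‖(χ k q - 1) * A q‖ₑ ^ 2) (f := fun _ => 0)
    (fun q => 4 * ‖A q‖ₑ ^ 2) (fun k => ?_) (fun k => ?_) hfin ?_
  · simpa using this
  · exact ((((hc k).sub continuous_const).aestronglyMeasurable.mul hA).enorm).pow_const 2
  · refine Eventually.of_forall fun q => ?_
    have h3 : ‖χ k q - 1‖ₑ ≤ 2 := by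
      have : ‖χ k q - 1‖ ≤ 2 := by
        have := norm_sub_le (χ k q) 1
        have := h1 k q
        rw [norm_one] at *
        linarith
      rw [← ofReal_norm]
      calc ENNReal.ofReal ‖χ k q - 1‖ ≤ ENNReal.ofReal 2 := ENNReal.ofReal_le_ofReal this
        _ = 2 := by simp
    change ‖(χ k q - 1) * A q‖ₑ ^ 2 ≤ 4 * ‖A q‖ₑ ^ 2
    rw [enorm_mul, mul_pow]
    gcongr
    calc ‖χ k q - 1‖ₑ ^ 2 ≤ 2 ^ 2 := by gcongr
      _ = 4 := by norm_num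
  · refine Eventually.of_forall fun q => ?_
    refine tendsto_const_nhds.congr' ?_
    filter_upwards [S.L9a_core q] with k hk
    simp [h2 k q hk]

lemma L9a_bound {κ w : S.Y → ℂ} {C r ε : ℝ} (hr : 0 < r) (hr' : r < 1 / 4) (hε : 0 ≤ ε)
    (hw : ∀ q, w q = 0 ∨ ∃ i, q ∈ (S.e i).source ∧ ‖S.e i q‖ ≤ 2 * r ∧
      ‖w q‖ ≤ C / r * ‖d1 (S.e i) q‖)
    (hκ : ∀ i, ∀ q ∈ S.End i (3 * r), ‖κ q‖ ^ 2 * ‖S.f q‖ ≤ ε) :
    ∫⁻ q, ‖κ q * w q‖ₑ ^ 2 ∂S.lamf ≤ n * ENNReal.ofReal (ε * (9 * C ^ 2 * Real.pi)) := by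
  rw [S.lintegral_lamf]
  set U : Set ℂ := ball 0 (3 * r) \ {0} with hU
  have hUo : IsOpen U := isOpen_ball.sdiff isClosed_singleton
  have hU1 : U ⊆ ball 0 1 \ {0} := sdiff_subset_sdiff_left (ball_subset_ball (by linarith))
  set T : Fin n → Set S.Y := fun i => (S.e i).source ∩ S.e i ⁻¹' U with hT
  have hTo : ∀ i, IsOpen (T i) := fun i => (S.e i).isOpen_inter_preimage hUo
  have hsupp : Function.support (fun q => ‖S.f q‖ₑ * ‖κ q * w q‖ₑ ^ 2) ⊆ ⋃ i, T i := by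
    intro q hq
    rcases hw q with h0 | ⟨i, hi, h2, -⟩
    · simp [h0] at hq
    · refine mem_iUnion.2 ⟨i, hi, ?_, ?_⟩
      · rw [mem_ball_zero_iff]
        linarith
      · have h1 := (S.e i).map_source hi
        rw [S.e_target] at h1
        exact h1.2
  rw [← setLIntegral_eq_of_support_subset hsupp]
  refine (lintegral_iUnion_le _ _).trans ?_
  have key : ∀ i, ∫⁻ q in T i, ‖S.f q‖ₑ * ‖κ q * w q‖ₑ ^ 2 ∂S.lam ≤
      ENNReal.ofReal (ε * (9 * C ^ 2 * Real.pi)) := by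
    intro i
    calc ∫⁻ q in T i, ‖S.f q‖ₑ * ‖κ q * w q‖ₑ ^ 2 ∂S.lam
        ≤ ∫⁻ q in T i, ENNReal.ofReal (ε * (C / r) ^ 2) *
          (‖d1 (S.e i) q‖ₑ ^ 2 * (fun _ : ℂ => (1 : ℝ≥0∞)) (S.e i q)) ∂S.lam := by
          refine setLIntegral_mono' (hTo i).measurableSet fun q hq => ?_
          have hq3 : q ∈ S.End i (3 * r) := ⟨hq.1, mem_ball_zero_iff.1 hq.2.1⟩
          have hwq : ‖w q‖ ^ 2 ≤ (C / r * ‖d1 (S.e i) q‖) ^ 2 := by
            rcases hw q with h0 | ⟨j, hj, -, h3⟩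
            · rw [h0, norm_zero, zero_pow two_ne_zero]
              positivity
            · have hij : j = i := by
                by_contra hne
                exact Set.disjoint_left.1 (S.e_disj hne) hj hq.1
              subst hij
              exact pow_le_pow_left₀ (norm_nonneg _) h3 2
          have hreal : ‖S.f q‖ * ‖κ q * w q‖ ^ 2 ≤ ε * (C / r) ^ 2 * ‖d1 (S.e i) q‖ ^ 2 := by
            calc ‖S.f q‖ * ‖κ q * w q‖ ^ 2 = (‖κ q‖ ^ 2 * ‖S.f q‖) * ‖w q‖ ^ 2 := by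
                  rw [norm_mul]; ring
              _ ≤ ε * (C / r * ‖d1 (S.e i) q‖) ^ 2 :=
                  mul_le_mul (hκ i q hq3) hwq (by positivity) hε
              _ = _ := by ring
          simp only [mul_one]
          rw [← ofReal_norm, ← ofReal_norm, ← ofReal_norm,
            ← ENNReal.ofReal_pow (norm_nonneg _), ← ENNReal.ofReal_pow (norm_nonneg _),
            ← ENNReal.ofReal_mul (norm_nonneg _), ← ENNReal.ofReal_mul (by positivity)]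
          exact ENNReal.ofReal_le_ofReal hreal
      _ = ENNReal.ofReal (ε * (C / r) ^ 2) * ∫⁻ z in U, (fun _ : ℂ => (1 : ℝ≥0∞)) z := by
          rw [lintegral_const_mul' _ _ ENNReal.ofReal_ne_top]
          congr 1
          exact S.lintegral_end i hUo.measurableSet hU1 fun _ => 1
      _ ≤ ENNReal.ofReal (ε * (C / r) ^ 2) * volume (ball (0 : ℂ) (3 * r)) := by
          gcongr
          rw [setLIntegral_one]
          exact measure_mono sdiff_subset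
      _ = ENNReal.ofReal (ε * (9 * C ^ 2 * Real.pi)) := by
          rw [Complex.volume_ball, ← ENNReal.ofReal_pow (by positivity),
            ← ENNReal.ofReal_coe_nnreal, ← ENNReal.ofReal_mul (by positivity),
            ← ENNReal.ofReal_mul (by positivity), NNReal.coe_real_pi]
          congr 1
          field_simp
          ring
  calc ∑' i, ∫⁻ q in T i, ‖S.f q‖ₑ * ‖κ q * w q‖ₑ ^ 2 ∂S.lam
      ≤ ∑' _ : Fin n, ENNReal.ofReal (ε * (9 * C ^ 2 * Real.pi)) := ENNReal.tsum_le_tsum key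
    _ = n * ENNReal.ofReal (ε * (9 * C ^ 2 * Real.pi)) := by
      rw [tsum_fintype]
      simp

lemma L9a_second {κ : S.Y → ℂ} {w : ℕ → S.Y → ℂ} {C : ℝ}
    (hw : ∀ k q, w k q = 0 ∨ ∃ i, q ∈ (S.e i).source ∧ ‖S.e i q‖ ≤ 2 * L9a_r k ∧
      ‖w k q‖ ≤ C / L9a_r k * ‖d1 (S.e i) q‖)
    (he : ∀ i, Tendsto (fun q => ‖κ q‖ ^ 2 * ‖S.f q‖) (S.endF i) (𝓝 0)) :
    Tendsto (fun k => eLpNorm (fun q => κ q * w k q) 2 S.lamf) atTop (𝓝 0) := by
  apply L9a_tendsto_eLp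
  rw [ENNReal.tendsto_nhds_zero]
  intro η hη
  have h1 : Tendsto (fun ε : ℝ => (n : ℝ≥0∞) * ENNReal.ofReal (ε * (9 * C ^ 2 * Real.pi)))
      (𝓝[>] 0) (𝓝 0) := by
    have h2 : Tendsto (fun ε : ℝ => ε * (9 * C ^ 2 * Real.pi)) (𝓝[>] 0) (𝓝 0) := by
      have hc : Continuous fun ε : ℝ => ε * (9 * C ^ 2 * Real.pi) := by fun_prop
      have := hc.tendsto (0 : ℝ)
      rw [zero_mul] at this
      exact this.mono_left nhdsWithin_le_nhds
    have h3 := ENNReal.tendsto_ofReal h2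
    rw [ENNReal.ofReal_zero] at h3
    have h4 := ENNReal.Tendsto.const_mul (a := (n : ℝ≥0∞)) h3 (Or.inr (by simp))
    simpa using h4
  obtain ⟨ε, hε1, hε2⟩ :=
    ((ENNReal.tendsto_nhds_zero.1 h1 η hη).and self_mem_nhdsWithin).exists
  have hε : 0 < ε := hε2
  have h5 : ∀ᶠ k in atTop, ∀ i, ∀ q ∈ S.End i (3 * L9a_r k), ‖κ q‖ ^ 2 * ‖S.f q‖ ≤ ε := by
    rw [eventually_all]
    intro i
    obtain ⟨ρ, hρ, h6⟩ := (S.hasBasis_endF i).eventually_iff.1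
      ((he i).eventually (gt_mem_nhds hε))
    filter_upwards [L9a_r_ev 3 hρ] with k hk q hq
    exact (h6 ⟨hq.1, hq.2.trans_le hk⟩).le
  filter_upwards [h5] with k hk
  exact (S.L9a_bound (L9a_r_pos k) (L9a_r_lt k) hε.le (hw k) hk).trans hε1

lemma L9a_conv {κ a : S.Y → ℂ} (hκ : Continuous κ) {A : S.H} (hA : (A : S.Y → ℂ) =ᵐ[S.lamf] a)
    {χ w u : ℕ → S.Y → ℂ} {C : ℝ} (hc : ∀ k, Continuous (χ k)) (hcw : ∀ k, Continuous (w k))
    (h1 : ∀ k q, ‖χ k q‖ ≤ 1) (h2 : ∀ k, ∀ q ∈ S.core (2 * L9a_r k), χ k q = 1)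
    (hw : ∀ k q, w k q = 0 ∨ ∃ i, q ∈ (S.e i).source ∧ ‖S.e i q‖ ≤ 2 * L9a_r k ∧
      ‖w k q‖ ≤ C / L9a_r k * ‖d1 (S.e i) q‖)
    (he : ∀ i, Tendsto (fun q => ‖κ q‖ ^ 2 * ‖S.f q‖) (S.endF i) (𝓝 0))
    (hu : ∀ k, MemLp (u k) 2 S.lamf) (hu' : ∀ k q, u k q = χ k q * a q + κ q * w k q) :
    Tendsto (fun k => (hu k).toLp (u k)) atTop (𝓝 A) := by
  rw [Lp.tendsto_Lp_iff_tendsto_eLpNorm']
  have h3 := (S.L9a_first A hc h1 h2).add (S.L9a_second hw he)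
  rw [add_zero] at h3
  refine tendsto_of_tendsto_of_tendsto_of_le_of_le tendsto_const_nhds h3
    (fun _ => zero_le) fun k => ?_
  have h4 : (⇑((hu k).toLp (u k)) - ⇑A) =ᵐ[S.lamf]
      (fun q => (χ k q - 1) * A q) + fun q => κ q * w k q := by
    filter_upwards [(hu k).coeFn_toLp, hA] with q h5 h6
    simp only [Pi.sub_apply, Pi.add_apply, h5, h6, hu']
    ring
  change eLpNorm (⇑((hu k).toLp (u k)) - ⇑A) 2 S.lamf ≤ _
  rw [eLpNorm_congr_ae h4]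
  exact eLpNorm_add_le
    (((hc k).sub continuous_const).aestronglyMeasurable.mul (Lp.aestronglyMeasurable A))
    (hκ.mul (hcw k)).aestronglyMeasurable (by norm_num)

/-- forms with a primitive that decays at the ends are limits of exact forms -/
theorem mem_Eb {κ : S.Y → ℂ} (hκ : Ck 2 κ) {A B : S.H} (hA : (A : S.Y → ℂ) =ᵐ[S.lamf] S.D1 κ)
    (hB : (B : S.Y → ℂ) =ᵐ[S.lamf] d2 κ)
    (he : ∀ i, Tendsto (fun q => ‖κ q‖ ^ 2 * ‖S.f q‖) (S.endF i) (𝓝 0)) : (A, B) ∈ S.hd.Eb := by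
  obtain ⟨C, hC⟩ := S.cutoff
  choose χ hχ hcs h1 h2 hw using fun k => hC (L9a_r k) (L9a_r_pos k) (L9a_r_lt k)
  have hp : ∀ k, Ck 2 (fun q => χ k q * κ q) := fun k =>
    (contDiff_mul (𝕜 := ℝ) (𝔸 := ℂ)).comp_contMDiff ((hχ k).prodMk_space hκ)
  have hps : ∀ k, HasCompactSupport (fun q => χ k q * κ q) := fun k => (hcs k).mul_right
  have hd : ∀ k q, d1 (fun q => χ k q * κ q) q = d1 (χ k) q * κ q + χ k q * d1 κ q ∧
      d2 (fun q => χ k q * κ q) q = d2 (χ k) q * κ q + χ k q * d2 κ q := fun k q =>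
    d_mul ((hχ k q).mdifferentiableAt (by simp)) ((hκ q).mdifferentiableAt (by simp))
  have hcd : ∀ k, Continuous (d1 (χ k)) ∧ Continuous (d2 (χ k)) := fun k =>
    ⟨continuous_iff_continuousAt.2 fun q =>
      (S.continuousAt_d ((hχ k q).of_le (by norm_num))).1,
    continuous_iff_continuousAt.2 fun q =>
      (S.continuousAt_d ((hχ k q).of_le (by norm_num))).2⟩
  have t1 := S.L9a_conv (C := C) hκ.continuous hA (fun k => (hχ k).continuous)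
    (fun k => (hcd k).1) h1 h2 (fun k q => ?_) he (fun k => (S.memLp_D (hp k) (hps k)).1)
    (fun k q => ?_)
  · have t2 := S.L9a_conv (C := C) hκ.continuous hB (fun k => (hχ k).continuous)
      (fun k => (hcd k).2) h1 h2 (fun k q => ?_) he (fun k => (S.memLp_D (hp k) (hps k)).2)
      (fun k q => ?_)
    · refine mem_closure_of_tendsto (t1.prodMk_nhds t2) (Eventually.of_forall fun k => ?_)
      exact (S.hd_E _).2 ⟨_, hp k, hps k, (S.memLp_D (hp k) (hps k)).1.coeFn_toLp,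
        (S.memLp_D (hp k) (hps k)).2.coeFn_toLp⟩
    · rcases hw k q with h | ⟨i, hi, -, h3, -, h4⟩
      · exact Or.inl h.2
      · exact Or.inr ⟨i, hi, h3, h4⟩
    · rw [(hd k q).2]
      ring
  · rcases hw k q with h | ⟨i, hi, -, h3, h4, -⟩
    · exact Or.inl h.1
    · exact Or.inr ⟨i, hi, h3, h4⟩
  · simp only [D1]
    rw [(hd k q).1]
    ring

end Flat

end Pool.Agent.MP_e62289_ag

end

section

open Set Filter Topology Complex MeasureTheory Metric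
open scoped Manifold ContDiff ComplexConjugate NNReal ENNReal

namespace Pool.Agent.MP_e62289_ag

namespace Flat

variable {n : ℕ} (S : Flat n)

theorem L9b_meas (i : Fin n) {r : ℝ} (hr : r < 1 / 4) :
    MeasurableSet ((S.e i).source ∩ S.e i ⁻¹' (closedBall (0 : ℂ) (2 * r) \ ball 0 r)) := by
  have h : (S.e i).source ∩ S.e i ⁻¹' (closedBall (0 : ℂ) (2 * r) \ ball 0 r) =
      {q | q ∈ (S.e i).source ∧ ‖S.e i q‖ ≤ 2 * r} \ S.End i r := by
    ext q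
    simp only [mem_inter_iff, mem_preimage, Set.mem_sdiff, mem_closedBall, mem_ball, dist_zero_right,
      mem_ofPred_eq, End]
    tauto
  rw [h]
  exact (S.e_closed i (2 * r) (by linarith)).measurableSet.diff (S.isOpen_End i r).measurableSet

theorem L9b_annulus (i : Fin n) {r K : ℝ} (hr0 : 0 < r) (hr : r < 1 / 4) (hK : 0 ≤ K) :
    ∫⁻ q in (S.e i).source ∩ S.e i ⁻¹' (closedBall (0 : ℂ) (2 * r) \ ball 0 r),
      ‖d1 (S.e i) q‖ₑ ^ 2 * ENNReal.ofReal (K / r) ∂S.lam ≤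
        ENNReal.ofReal (K * (4 * Real.pi) * r) := by
  have hA : closedBall (0 : ℂ) (2 * r) \ ball 0 r ⊆ ball 0 1 \ {0} := by
    intro z hz
    simp only [Set.mem_sdiff, mem_closedBall, mem_ball, dist_zero_right, mem_singleton_iff,
      not_lt] at hz ⊢
    refine ⟨by linarith [hz.1], fun h => ?_⟩
    rw [h, norm_zero] at hz
    linarith [hz.2]
  rw [S.lintegral_end i (measurableSet_closedBall.diff measurableSet_ball) hA
    (fun _ => ENNReal.ofReal (K / r)), setLIntegral_const]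
  calc ENNReal.ofReal (K / r) * volume (closedBall (0 : ℂ) (2 * r) \ ball 0 r)
      ≤ ENNReal.ofReal (K / r) * volume (closedBall (0 : ℂ) (2 * r)) := by
        gcongr
        exact Set.sdiff_subset
    _ = ENNReal.ofReal (K * (4 * Real.pi) * r) := by
        rw [Complex.volume_closedBall, ← ENNReal.ofReal_pow (by positivity),
          ← ENNReal.ofReal_coe_nnreal, ← ENNReal.ofReal_mul (by positivity),
          ← ENNReal.ofReal_mul (by positivity)]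
        congr 1
        rw [NNReal.coe_real_pi]
        field_simp
        ring

theorem L9b_bound {g : S.Y → ℂ} {r : ℝ} {K : Fin n → ℝ} (hr0 : 0 < r) (hr : r < 1 / 4)
    (hK : ∀ i, 0 ≤ K i)
    (hg : ∀ q, g q = 0 ∨ ∃ i, q ∈ (S.e i).source ∧ r ≤ ‖S.e i q‖ ∧ ‖S.e i q‖ ≤ 2 * r)
    (hb : ∀ i, ∀ q ∈ (S.e i).source, ‖S.e i q‖ ≤ 2 * r →
      ‖g q‖ ≤ K i / r * ‖d1 (S.e i) q‖ ^ 2) :
    ∫⁻ q, ‖g q‖ₑ ∂S.lam ≤ ENNReal.ofReal ((∑ i, K i) * (4 * Real.pi) * r) := by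
  set A : Fin n → Set S.Y := fun i =>
    (S.e i).source ∩ S.e i ⁻¹' (closedBall (0 : ℂ) (2 * r) \ ball 0 r) with hA
  have h1 : ∀ q, ‖g q‖ₑ ≤ (⋃ i, A i).indicator (fun q => ‖g q‖ₑ) q := by
    intro q
    rcases hg q with h | ⟨i, h1, h2, h3⟩
    · simp [h]
    · rw [indicator_of_mem]
      refine mem_iUnion.2 ⟨i, h1, ?_⟩
      simp only [mem_preimage, Set.mem_sdiff, mem_closedBall, mem_ball, dist_zero_right, not_lt]
      exact ⟨h3, h2⟩
  calc ∫⁻ q, ‖g q‖ₑ ∂S.lam ≤ ∫⁻ q, (⋃ i, A i).indicator (fun q => ‖g q‖ₑ) q ∂S.lam :=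
        lintegral_mono h1
    _ ≤ ∫⁻ q in ⋃ i, A i, ‖g q‖ₑ ∂S.lam := lintegral_indicator_le _ _
    _ ≤ ∑' i, ∫⁻ q in A i, ‖g q‖ₑ ∂S.lam := lintegral_iUnion_le _ _
    _ = ∑ i, ∫⁻ q in A i, ‖g q‖ₑ ∂S.lam := tsum_fintype _
    _ ≤ ∑ i, ENNReal.ofReal (K i * (4 * Real.pi) * r) := by
        refine Finset.sum_le_sum fun i _ => ?_
        refine le_trans ?_ (S.L9b_annulus i hr0 hr (hK i))
        refine setLIntegral_mono' (S.L9b_meas i hr) fun q hq => ?_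
        have h2 : ‖S.e i q‖ ≤ 2 * r := by simpa using hq.2.1
        have h3 := hb i q hq.1 h2
        rw [← ofReal_norm, ← ofReal_norm, ← ENNReal.ofReal_pow (norm_nonneg _),
          ← ENNReal.ofReal_mul (by positivity), mul_comm]
        exact ENNReal.ofReal_le_ofReal h3
    _ = ENNReal.ofReal ((∑ i, K i) * (4 * Real.pi) * r) := by
        rw [← ENNReal.ofReal_sum_of_nonneg fun i _ => by have := hK i; positivity,
          Finset.sum_mul, Finset.sum_mul]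

/-- vanishing of the first variation -/
theorem stokes_ends {a b R : S.Y → ℂ} (hR : Hol R)
    (hab : ∀ q, ∃ v : S.Y → ℂ, CkAt 2 v q ∧ a =ᶠ[𝓝 q] d1 v ∧ b =ᶠ[𝓝 q] d2 v)
    (hb : HasCompactSupport b)
    (he : ∀ i, ∃ C : ℝ, ∀ᶠ q in S.endF i, ‖R q * a q‖ ≤ C * ‖d1 (S.e i) q‖) :
    ∫ q, b q * d1 R q ∂S.lam = 0 := by
  obtain ⟨C0, hC0⟩ := S.cutoff
  choose C hC using he
  have hC' : ∀ i, ∃ ρ : ℝ, 0 < ρ ∧ ∀ q ∈ S.End i ρ, ‖R q * a q‖ ≤ C i * ‖d1 (S.e i) q‖ :=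
    fun i => (S.hasBasis_endF i).eventually_iff.1 (hC i)
  choose ρ hρ0 hρ using hC'
  obtain ⟨r0, hr0, -, hr0K⟩ := S.subset_core hb.isCompact
  have hac : Continuous a := continuous_iff_continuousAt.2 fun q => by
    obtain ⟨v, hv, h1, -⟩ := hab q
    exact (S.continuousAt_d (hv.of_le (by norm_num))).1.congr h1.symm
  have hbc : Continuous b := continuous_iff_continuousAt.2 fun q => by
    obtain ⟨v, hv, -, h1⟩ := hab q
    exact (S.continuousAt_d (hv.of_le (by norm_num))).2.congr h1.symm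
  have hRk : ∀ k, Ck k R := fun k q => ckAt_of_hol (Eventually.of_forall hR) k
  have hdR : Continuous (d1 R) :=
    continuous_iff_continuousAt.2 fun q => (S.continuousAt_d (hRk 1 q)).1
  have hint : Integrable (fun q => b q * d1 R q) S.lam :=
    (hbc.mul hdR).integrable_of_hasCompactSupport hb.mul_right
  set K : ℝ := (∑ i, |C0| * |C i|) * (4 * Real.pi) with hK
  have hK0 : 0 ≤ K := by positivity
  have key : ∀ r : ℝ, 0 < r → r < 1 / 4 → 2 * r < r0 → (∀ i, 2 * r < ρ i) →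
      ‖∫ q, b q * d1 R q ∂S.lam‖ ≤ K * r := by
    intro r h0 h1 h2 h3
    obtain ⟨χ, hχ, hχc, -, hχ1, hχd⟩ := hC0 r h0 h1
    have hχ' : Ck 1 χ := hχ.of_le (by norm_num)
    have hu : Ck 1 fun q => χ q * R q :=
      (contDiff_mul (𝕜 := ℝ) (𝔸 := ℂ)).comp_contMDiff (hχ'.prodMk_space (hRk 1))
    have hst := S.stokes_closed hu hχc.mul_right hab
    have hd : ∀ q, d1 (fun q => χ q * R q) q * b q - d2 (fun q => χ q * R q) q * a q =
        b q * d1 R q - d2 χ q * (R q * a q) := by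
      intro q
      have hm := d_mul ((hχ' q).mdifferentiableAt one_ne_zero) (d2_of_hol (hR q)).1
      rw [hm.1, hm.2, (d2_of_hol (hR q)).2]
      by_cases hq : b q = 0
      · rw [hq]
        ring
      · have hq' : q ∈ S.core r0 := interior_subset (hr0K (subset_tsupport _ hq))
        have e1 : χ q = 1 := hχ1 q fun i hi => h2.le.trans (hq' i hi)
        have e2 : d1 χ q = 0 := by
          rcases hχd q with h | ⟨i, hi, -, h4, -⟩
          · exact h.1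
          · exact absurd ((hq' i hi).trans h4) (not_le.2 h2)
        rw [e1, e2]
        ring
    have hgc : Continuous fun q => d2 χ q * (R q * a q) :=
      (continuous_iff_continuousAt.2 fun q => (S.continuousAt_d (hχ' q)).2).mul
        (hR.continuous.mul hac)
    have hbd := S.L9b_bound (g := fun q => d2 χ q * (R q * a q)) (K := fun i => |C0| * |C i|)
      h0 h1 (fun i => by positivity) (fun q => by
        rcases hχd q with h | ⟨i, hi, h4, h5, -⟩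
        · left
          simp [h.2]
        · exact Or.inr ⟨i, hi, h4, h5⟩) (fun i q hi hq => by
        rcases hχd q with h | ⟨j, hj, -, -, -, h6⟩
        · simp only [h.2, zero_mul, norm_zero]
          positivity
        · obtain rfl : i = j := by
            by_contra hne
            exact disjoint_left.1 (S.e_disj hne) hi hj
          have h7 := hρ i q ⟨hi, hq.trans_lt (h3 i)⟩
          have h8 : ‖d2 χ q‖ ≤ |C0| / r * ‖d1 (S.e i) q‖ :=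
            h6.trans (by gcongr; exact le_abs_self _)
          have h9 : ‖R q * a q‖ ≤ |C i| * ‖d1 (S.e i) q‖ :=
            h7.trans (by gcongr; exact le_abs_self _)
          rw [norm_mul]
          calc ‖d2 χ q‖ * ‖R q * a q‖
              ≤ (|C0| / r * ‖d1 (S.e i) q‖) * (|C i| * ‖d1 (S.e i) q‖) := by gcongr
            _ = |C0| * |C i| / r * ‖d1 (S.e i) q‖ ^ 2 := by ring)
    have hgi : Integrable (fun q => d2 χ q * (R q * a q)) S.lam :=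
      ⟨hgc.aestronglyMeasurable, hbd.trans_lt ENNReal.ofReal_lt_top⟩
    simp only [hd] at hst
    rw [integral_sub hint hgi, sub_eq_zero] at hst
    rw [hst]
    have h10 := (enorm_integral_le_lintegral_enorm (μ := S.lam)
      (fun q => d2 χ q * (R q * a q))).trans hbd
    rw [← ofReal_norm, ENNReal.ofReal_le_ofReal_iff (by positivity)] at h10
    exact h10
  have hev : ∀ᶠ r in 𝓝[>] (0 : ℝ), ‖∫ q, b q * d1 R q ∂S.lam‖ ≤ K * r := by
    have h2 : ∀ c : ℝ, 0 < c → ∀ᶠ r in 𝓝[>] (0 : ℝ), 2 * r < c := fun c hc => by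
      have : ∀ᶠ r in 𝓝 (0 : ℝ), r < c / 2 := eventually_lt_nhds (by linarith)
      exact (this.filter_mono nhdsWithin_le_nhds).mono fun r hr => by linarith
    filter_upwards [self_mem_nhdsWithin, h2 (1 / 2) (by norm_num), h2 r0 hr0,
      eventually_all.2 fun i => h2 (ρ i) (hρ0 i)] with r e0 e1 e2 e3
    exact key r e0 (by linarith) e2 e3
  have ht : Tendsto (fun r : ℝ => K * r) (𝓝[>] 0) (𝓝 0) := by
    have : Tendsto (fun r : ℝ => K * r) (𝓝 0) (𝓝 (K * 0)) :=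
      (continuous_const.mul continuous_id).tendsto 0
    rw [mul_zero] at this
    exact this.mono_left nhdsWithin_le_nhds
  exact norm_le_zero_iff.1 (ge_of_tendsto ht hev)

end Flat

end Pool.Agent.MP_e62289_ag

end

section



end

section

open Set Filter Topology Complex MeasureTheory Metric
open scoped Manifold ContDiff ComplexConjugate NNReal ENNReal

namespace Pool.Agent.MP_e62289_ag

/-- the Schwarz lemma along complex lines in a chart -/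
theorem F4_schwarz {E : Type} [NormedAddCommGroup E] [NormedSpace ℂ E] {B : Type}
    [TopologicalSpace B] [ChartedSpace E B] {b₀ : B} {Y : Type} {g : B → Y → ℂ} {K : Set Y}
    {N : Set B} (hN : N ∈ 𝓝 b₀) {M : ℝ} (hM0 : 0 ≤ M) (hM : ∀ b ∈ N, ∀ q ∈ K, ‖g b q‖ ≤ M)
    (hh : ∀ (φ : ℂ → E) (ζ₀ : ℂ), AnalyticAt ℂ φ ζ₀ → φ ζ₀ ∈ (chartAt E b₀).target →
      (chartAt E b₀).symm (φ ζ₀) ∈ N → ∀ q,
        DifferentiableAt ℂ (fun ζ => g ((chartAt E b₀).symm (φ ζ)) q) ζ₀) :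
    ∃ L : ℝ, 0 ≤ L ∧ ∀ᶠ b in 𝓝 b₀, ∀ q ∈ K,
      ‖g b q - g b₀ q‖ ≤ L * ‖chartAt E b₀ b - chartAt E b₀ b₀‖ := by
  set e := chartAt E b₀ with he
  have hs : b₀ ∈ e.source := mem_chart_source E b₀
  have ht : e b₀ ∈ e.target := e.map_source hs
  have h1 : e.target ∩ e.symm ⁻¹' N ∈ 𝓝 (e b₀) := by
    refine inter_mem (e.open_target.mem_nhds ht) ?_
    refine (e.continuousAt_symm ht).preimage_mem_nhds ?_
    rwa [e.left_inv hs]
  obtain ⟨ρ, hρ, hb⟩ := Metric.mem_nhds_iff.1 h1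
  refine ⟨2 * M / ρ, by positivity, ?_⟩
  have h2 : ∀ᶠ b in 𝓝 b₀, e b ∈ ball (e b₀) ρ :=
    (e.continuousAt hs).preimage_mem_nhds (ball_mem_nhds _ hρ)
  filter_upwards [h2, e.open_source.mem_nhds hs] with b hb1 hb2 q hq
  by_cases h0 : e b - e b₀ = 0
  · have : b = b₀ := e.injOn hb2 hs (sub_eq_zero.1 h0)
    subst this
    simp
  set v := e b - e b₀ with hv
  have ht0 : 0 < ‖v‖ := norm_pos_iff.2 h0
  have ht0' : ((‖v‖ : ℝ) : ℂ) ≠ 0 := by exact_mod_cast ht0.ne'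
  set u : E := ((‖v‖ : ℝ) : ℂ)⁻¹ • v with hu
  have hu1 : ‖u‖ = 1 := by
    rw [hu, norm_smul, norm_inv, Complex.norm_real, norm_norm, inv_mul_cancel₀ ht0.ne']
  have hφ : ∀ ζ ∈ ball (0 : ℂ) ρ, e b₀ + ζ • u ∈ e.target ∩ e.symm ⁻¹' N := fun ζ hζ => hb (by
    rw [mem_ball_iff_norm, add_sub_cancel_left, norm_smul, hu1, mul_one]
    exact mem_ball_zero_iff.1 hζ)
  have key := (schwarz_two (g := fun ζ => g (e.symm (e b₀ + ζ • u)) q) (M := M) hρ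
    (fun ζ hζ => (hh (fun ζ => e b₀ + ζ • u) ζ (by fun_prop) (hφ ζ hζ).1 (hφ ζ hζ).2
      q).differentiableWithinAt)
    (fun ζ hζ => hM _ (hφ ζ hζ).2 q hq)).2 ((‖v‖ : ℝ) : ℂ) (by
      rw [mem_ball_zero_iff, Complex.norm_real, norm_norm]
      exact mem_ball_iff_norm.1 hb1)
  have e1 : e b₀ + ((‖v‖ : ℝ) : ℂ) • u = e b := by
    rw [hu, smul_smul, mul_inv_cancel₀ ht0', one_smul, hv, add_sub_cancel]
  have k1 := key.1
  simp only [e1, zero_smul, add_zero, e.left_inv hs, e.left_inv hb2, Complex.norm_real,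
    norm_norm] at k1
  exact k1

namespace Family

variable {E : Type} [NormedAddCommGroup E] [NormedSpace ℂ E] {B : Type} [TopologicalSpace B]
  [ChartedSpace E B] {n : ℕ} {a : Fin n → ℕ} {C : Family E B a} {b₀ : B} {S : Flat n}

theorem Triv.F4_map (τ : C.Triv b₀) (G₀ : Adm S.Y (C.Fib b₀)) {b : B} (h : b ∈ τ.U) :
    (fun y => ((G₀.trans (τ.M.G ⟨b, h⟩)).φ y).1) = fun y => τ.F b (G₀.φ y).1 :=
  funext fun y => τ.eq ⟨b, h⟩ (G₀.φ y)

theorem Triv.F4_end (τ : C.Triv b₀) (G₀ : Adm S.Y (C.Fib b₀)) {b : B} (h : b ∈ τ.U) {i : Fin n}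
    (he : Tendsto (fun q => (G₀.φ q).1) (S.endF i) (𝓝 (C.sec i b₀))) :
    Tendsto (fun q => τ.F b (G₀.φ q).1) (S.endF i) (𝓝 (C.sec i b)) := by
  have h1 := τ.contF (b, C.sec i b₀) ⟨h, C.proj_sec i b₀⟩
  have h2 : Tendsto (fun q => (b, (G₀.φ q).1)) (S.endF i)
      (𝓝[τ.U ×ˢ (C.proj ⁻¹' {b₀})] (b, C.sec i b₀)) :=
    tendsto_nhdsWithin_iff.2 ⟨tendsto_const_nhds.prodMk_nhds he,
      Eventually.of_forall fun q => ⟨h, (G₀.φ q).2.1⟩⟩
  have h3 := h1.tendsto.comp h2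
  rwa [τ.sec b h i] at h3

theorem Triv.F4_mu0 (τ : C.Triv b₀) (G₀ : Adm S.Y (C.Fib b₀)) (hc : ∀ q, d2 G₀.φ q = 0)
    (q : S.Y) : τ.mu G₀ b₀ q = 0 := by
  rw [τ.mu_eq G₀ τ.mem]
  have e : (⇑(G₀.trans (τ.M.G ⟨b₀, τ.mem⟩)).φ : S.Y → C.Fib b₀) = G₀.φ := funext fun y =>
    Subtype.ext ((τ.eq ⟨b₀, τ.mem⟩ (G₀.φ y)).trans (τ.base _ (G₀.φ y).2.1))
  change bel (⇑(G₀.trans (τ.M.G ⟨b₀, τ.mem⟩)).φ : S.Y → C.Fib b₀) q = 0
  rw [e, bel, hc, zero_div]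

variable {V : Set B} {f : C.X → ℂ × B → ℂ} {ξp ξm : S.H}

/-- at the base point the pull back of the form is proportional to `w` -/
theorem IsForm.F4_base (hf : C.IsForm V f) (hV : IsOpen V) (hb : b₀ ∈ V)
    (G₀ : Adm S.Y (C.Fib b₀)) (d : S.FV a ξp ξm) (hc : ∀ q, d2 G₀.φ q = 0)
    (he : ∀ i, Tendsto (fun q => (G₀.φ q).1) (S.endF i) (𝓝 (C.sec i b₀))) :
    ∃ c : ℂ, c ≠ 0 ∧ ∀ q, C.pb1 f (fun y => (G₀.φ y).1) q = c * d.w q := by
  have h1 : Hol (C.pb1 f fun y => (G₀.φ y).1) := fun q => by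
    obtain ⟨v, v1, v2, v3⟩ := hf.pb_closed hV hb G₀ q
    have v4 : ∀ᶠ x in 𝓝 q, CkAt 2 v x := (contMDiffAt_iff_contMDiffAt_nhds (by simp)).1 v1
    have v5 : ∀ᶠ x in 𝓝 q, HolAt v x := by
      filter_upwards [v4, v3] with x x1 x2
      refine hol_of_d2 (x1.mdifferentiableAt (by simp)) ?_
      rw [← x2, pb2_eq, bel, hc, zero_div, zero_mul]
    exact (S.holAt_d1 v5).self_of_nhds.congr_of_eventuallyEq v2
  have h2 : Hol fun q => C.pb1 f (fun y => (G₀.φ y).1) q / d.w q := fun q =>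
    (h1 q).div (d.w_hol q) (d.w_ne q)
  obtain ⟨c, hc'⟩ := S.const_of_bounded h2 fun i => by
    obtain ⟨c₁, h₁⟩ := hf.pb1_end hV hb G₀ (he i)
    obtain ⟨c₂, c0, h₂⟩ := d.ends i
    refine ⟨|c₁| / c₂, ?_⟩
    filter_upwards [h₁, h₂] with q q1 q2
    have hw : 0 < ‖d.w q‖ := norm_pos_iff.2 (d.w_ne q)
    rw [norm_div, div_le_div_iff₀ hw c0]
    have hX : 0 ≤ ‖S.e i q‖ ^ (a i - 1) * ‖d1 (S.e i) q‖ := by positivity
    have k1 : ‖C.pb1 f (fun y => (G₀.φ y).1) q‖ ≤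
        |c₁| * (‖S.e i q‖ ^ (a i - 1) * ‖d1 (S.e i) q‖) := by
      rw [mul_assoc] at q1
      exact q1.trans (mul_le_mul_of_nonneg_right (le_abs_self _) hX)
    have k2 := mul_le_mul_of_nonneg_left q2.1 (abs_nonneg c₁)
    have k3 := mul_le_mul_of_nonneg_right k1 c0.le
    nlinarith
  have h3 : ∀ q, C.pb1 f (fun y => (G₀.φ y).1) q = c * d.w q := fun q => by
    rw [← hc' q, div_mul_cancel₀ _ (d.w_ne q)]
  refine ⟨c, fun h0 => ?_, h3⟩
  obtain ⟨q⟩ : Nonempty S.Y := inferInstance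
  exact hf.pb1_ne hV hb G₀ q (by rw [h3, h0, zero_mul])

variable [FiniteDimensional ℂ E] [IsManifold 𝓘(ℂ, E) ω B] [IsManifold 𝓘(ℝ, E) ∞ B]

/-- the theorem of Stokes on the nearby fibres -/
theorem Triv.F4_stokes (τ : C.Triv b₀) (G₀ : Adm S.Y (C.Fib b₀)) (hf : C.IsForm V f)
    (hV : IsOpen V) (d : S.FV a ξp ξm)
    (he : ∀ i, Tendsto (fun q => (G₀.φ q).1) (S.endF i) (𝓝 (C.sec i b₀))) {b : B}
    (h : b ∈ τ.U) (hb : b ∈ V) :
    ∫ q, τ.mu G₀ b q * C.pb1 f (fun y => τ.F b (G₀.φ y).1) q * d1 d.R q ∂S.lam = 0 := by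
  obtain ⟨K, hK, hK'⟩ := τ.mu_supp G₀
  let G : Adm S.Y (C.Fib b) := G₀.trans (τ.M.G ⟨b, h⟩)
  have e : (fun y => (G.φ y).1) = fun y => τ.F b (G₀.φ y).1 := τ.F4_map G₀ h
  have e2 : ∀ q, C.pb2 f (fun y => (G.φ y).1) q =
      τ.mu G₀ b q * C.pb1 f (fun y => τ.F b (G₀.φ y).1) q := fun q => by
    rw [pb2_eq, e, τ.mu_eq G₀ h]
  have key := S.stokes_ends d.R_hol (hf.pb_closed hV hb G)
    (HasCompactSupport.intro hK fun q hq => by rw [e2, hK' b q hq, zero_mul]) fun i => by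
      obtain ⟨c₁, h₁⟩ := hf.pb1_end hV hb G (j := i) (i := i) (by
        rw [e]
        exact τ.F4_end G₀ h (he i))
      obtain ⟨c₂, c0, h₂⟩ := d.ends i
      refine ⟨|c₁| / c₂, ?_⟩
      filter_upwards [h₁, h₂] with q q1 q2
      rw [norm_mul, div_mul_eq_mul_div, le_div_iff₀ c0]
      have hX : 0 ≤ ‖S.e i q‖ ^ (a i - 1) * ‖d1 (S.e i) q‖ := by positivity
      have k1 : ‖C.pb1 f (fun y => (G.φ y).1) q‖ ≤
          |c₁| * (‖S.e i q‖ ^ (a i - 1) * ‖d1 (S.e i) q‖) := by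
        rw [mul_assoc] at q1
        exact q1.trans (mul_le_mul_of_nonneg_right (le_abs_self _) hX)
      have k2 := mul_le_mul_of_nonneg_left q2.2
        (mul_nonneg (abs_nonneg c₁) (norm_nonneg (d1 (S.e i) q)))
      have k3 := mul_le_mul_of_nonneg_left k1 (mul_nonneg (norm_nonneg (d.R q)) c0.le)
      nlinarith
  simpa only [e2] using key

/-- the period function vanishes to second order at the base point -/
theorem Triv.fv (τ : C.Triv b₀) (G₀ : Adm S.Y (C.Fib b₀)) {ξp ξm : S.H} (d : S.FV a ξp ξm)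
    (hc : ∀ q, d2 G₀.φ q = 0)
    (he : ∀ i, Tendsto (fun q => (G₀.φ q).1) (S.endF i) (𝓝 (C.sec i b₀))) :
    ∃ K : ℝ, ∀ᶠ b in 𝓝 b₀,
      ‖S.Hval ξp ξm (τ.mu G₀ b)‖ ≤ K * ‖chartAt E b₀ b - chartAt E b₀ b₀‖ ^ 2 := by
  obtain ⟨V, hV, hbV, f, hf⟩ := C.exists_form b₀
  obtain ⟨K, hK, hK'⟩ := τ.mu_supp G₀
  set A : B → S.Y → ℂ := fun b q => C.pb1 f (fun y => τ.F b (G₀.φ y).1) q with hA
  have hUV : IsOpen (τ.U ∩ V) := τ.isOpen.inter hV
  have hb0 : b₀ ∈ τ.U ∩ V := ⟨τ.mem, hbV⟩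
  have cA : ContinuousOn (fun p : B × S.Y => A p.1 p.2) ((τ.U ∩ V) ×ˢ univ) := τ.pb_cont G₀ hf hV
  have cA' : ∀ b ∈ τ.U ∩ V, Continuous (A b) := fun b hb =>
    cA.comp_continuous (Continuous.prodMk_right b) fun q => ⟨hb, mem_univ q⟩
  have cmu : ∀ b ∈ τ.U, Continuous (τ.mu G₀ b) := fun b hb =>
    (τ.mu_cont G₀).comp_continuous (Continuous.prodMk_right b) fun q => ⟨hb, mem_univ q⟩
  have cR : Continuous (d1 d.R) := continuous_iff_continuousAt.2 fun q =>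
    (S.continuousAt_d (ckAt_of_hol (Eventually.of_forall d.R_hol) 1)).1
  obtain ⟨c, c0, hcw⟩ := hf.F4_base hV hbV G₀ d hc he
  have hA0 : ∀ q, A b₀ q = c * d.w q := fun q => by
    have e : (fun y => τ.F b₀ (G₀.φ y).1) = fun y => (G₀.φ y).1 :=
      funext fun y => τ.base _ (G₀.φ y).2.1
    rw [← hcw q, hA]
    simp only [e]
  -- the Beltrami coefficients are of first order
  obtain ⟨κ, -, hκ⟩ := τ.mu_bound G₀ τ.mem
  obtain ⟨L₁, l1, hL₁⟩ := F4_schwarz (E := E) (g := τ.mu G₀) (K := univ) (M := |κ|)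
    (inter_mem (τ.isOpen.mem_nhds τ.mem) hκ) (abs_nonneg κ)
    (fun b hb q _ => (hb.2 q).trans (le_abs_self κ))
    (fun φ ζ₀ h1 h2 h3 q => τ.mu_hol G₀ h1 h2 h3.1 q)
  -- the forms are Lipschitz on the compact set
  obtain ⟨M₀, hM₀⟩ := hK.exists_bound_of_continuousOn (cA' b₀ hb0).continuousOn
  have hbd : ∀ᶠ b in 𝓝 b₀, ∀ q ∈ K, ‖A b q‖ ≤ |M₀| + 1 := by
    refine hK.eventually_forall_of_forall_eventually fun q hq => ?_
    have h1 : ContinuousAt (fun p : B × S.Y => A p.1 p.2) (b₀, q) :=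
      cA.continuousAt ((hUV.prod isOpen_univ).mem_nhds ⟨hb0, mem_univ q⟩)
    have h2 : ‖A b₀ q‖ < |M₀| + 1 := by linarith [hM₀ q hq, le_abs_self M₀]
    exact (h1.norm.eventually_lt continuousAt_const h2).mono fun p hp => hp.le
  obtain ⟨L₂, l2, hL₂⟩ := F4_schwarz (E := E) (g := A) (K := K) (M := |M₀| + 1)
    (inter_mem (hUV.mem_nhds hb0) hbd) (by positivity) (fun b hb q hq => hb.2 q hq)
    (fun φ ζ₀ h1 h2 h3 q => τ.pb_hol G₀ hf hV h1 h2 h3.1 q)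
  obtain ⟨M₁, hM₁⟩ := hK.exists_bound_of_continuousOn cR.continuousOn
  have hδ : ∀ᶠ b in 𝓝 b₀, L₁ * ‖chartAt E b₀ b - chartAt E b₀ b₀‖ < 1 / 2 := by
    have h1 : ContinuousAt (fun b => L₁ * ‖chartAt E b₀ b - chartAt E b₀ b₀‖) b₀ :=
      continuousAt_const.mul
        (((chartAt E b₀).continuousAt (mem_chart_source E b₀)).sub continuousAt_const).norm
    exact h1.eventually_lt continuousAt_const (by simp)
  refine ⟨2 * L₁ ^ 2 * (‖ξp‖ * ‖ξm‖) + ‖c‖⁻¹ * (L₁ * L₂ * |M₁| * S.lam.real K), ?_⟩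
  filter_upwards [hL₁, hL₂, hδ, hUV.mem_nhds hb0] with b b1 b2 b3 hb
  set δ := ‖chartAt E b₀ b - chartAt E b₀ b₀‖ with hδ'
  have δ0 : 0 ≤ δ := norm_nonneg _
  have m1 : ∀ q, ‖τ.mu G₀ b q‖ ≤ L₁ * δ := fun q => by
    have := b1 q (mem_univ q)
    rwa [τ.F4_mu0 G₀ hc q, sub_zero] at this
  have m2 : AEStronglyMeasurable (τ.mu G₀ b) S.lamf := (cmu b hb.1).aestronglyMeasurable
  have m3 := S.norm_mulOp m2 m1
  have m4 := S.hd.hv_lin ξp ξm (m3.trans b3.le)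
  have m5 : 2 * ‖S.mulOp (τ.mu G₀ b)‖ ^ 2 * (‖ξp‖ * ‖ξm‖) ≤
      2 * (L₁ * δ) ^ 2 * (‖ξp‖ * ‖ξm‖) := by gcongr
  have cs : ∀ g : S.Y → ℂ, Continuous g →
      Integrable (fun q => τ.mu G₀ b q * g q * d1 d.R q) S.lam := fun g hg =>
    (((cmu b hb.1).mul hg).mul cR).integrable_of_hasCompactSupport
      (HasCompactSupport.intro hK fun q hq => by simp [hK' b q hq])
  have i1 : S.hd.β ξm (S.mulOp (τ.mu G₀ b) ξp) =
      c⁻¹ * ∫ q, τ.mu G₀ b q * (A b₀ q - A b q) * d1 d.R q ∂S.lam := by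
    have j1 : ∫ q, τ.mu G₀ b q * (A b₀ q - A b q) * d1 d.R q ∂S.lam =
        ∫ q, τ.mu G₀ b q * A b₀ q * d1 d.R q ∂S.lam := by
      have j2 := integral_sub (cs _ (cA' b₀ hb0)) (cs _ (cA' b hb))
      rw [τ.F4_stokes G₀ hf hV d he hb.1 hb.2, sub_zero] at j2
      rw [← j2]
      exact integral_congr_ae (Eventually.of_forall fun q => by ring)
    rw [S.β_mulOp m2 m1, j1, ← integral_const_mul]
    refine integral_congr_ae (d.prod.mono fun q hq => ?_)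
    simp only [hq, hA0]
    field_simp
  have i2 : ‖∫ q, τ.mu G₀ b q * (A b₀ q - A b q) * d1 d.R q ∂S.lam‖ ≤
      L₁ * δ * (L₂ * δ) * |M₁| * S.lam.real K := by
    rw [← setIntegral_eq_integral_of_forall_compl_eq_zero (s := K) fun q hq => by
      rw [hK' b q hq, zero_mul, zero_mul]]
    refine norm_setIntegral_le_of_norm_le_const hK.measure_lt_top fun q hq => ?_
    rw [norm_mul, norm_mul, norm_sub_rev]
    have := (hM₁ q hq).trans (le_abs_self M₁)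
    have := b2 q hq
    have := m1 q
    gcongr
  have i3 : ‖S.hd.β ξm (S.mulOp (τ.mu G₀ b) ξp)‖ ≤
      ‖c‖⁻¹ * (L₁ * δ * (L₂ * δ) * |M₁| * S.lam.real K) := by
    rw [i1, norm_mul, norm_inv]
    gcongr
  have i4 := norm_le_insert' (S.hd.hv ξp ξm (S.mulOp (τ.mu G₀ b)))
    (S.hd.β ξm (S.mulOp (τ.mu G₀ b) ξp))
  change ‖S.hd.hv ξp ξm (S.mulOp (τ.mu G₀ b))‖ ≤ _
  calc _ ≤ _ := i4
    _ ≤ ‖c‖⁻¹ * (L₁ * δ * (L₂ * δ) * |M₁| * S.lam.real K) + 2 * (L₁ * δ) ^ 2 * (‖ξp‖ * ‖ξm‖) :=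
      add_le_add i3 (m4.trans m5)
    _ = _ := by ring

end Family

end Pool.Agent.MP_e62289_ag

end

section

open Set Filter Topology Complex MeasureTheory Metric
open scoped Manifold ContDiff ComplexConjugate NNReal ENNReal

namespace Pool.Agent.MP_e62289_ag

namespace Flat

variable {n : ℕ} (S : Flat n)

/-- `U` is the pull back of twisted forms by `Θ` with multiplier `k` -/
def IsPull (Θ : Adm S.Y S.Y) (k : S.Y → ℂ) (U : S.H × S.H →L[ℂ] S.H × S.H) : Prop :=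
  ∀ A B : S.H,
    ((U (A, B)).1 : S.Y → ℂ) =ᵐ[S.lamf]
      (fun q => k q * (A (Θ.φ q) * d1 Θ.φ q + B (Θ.φ q) * conj (d2 Θ.φ q))) ∧
    ((U (A, B)).2 : S.Y → ℂ) =ᵐ[S.lamf]
      (fun q => k q * (A (Θ.φ q) * d2 Θ.φ q + B (Θ.φ q) * conj (d1 Θ.φ q)))

variable {S} {Θ : Adm S.Y S.Y} {k : S.Y → ℂ} {U : S.H × S.H →L[ℂ] S.H × S.H}

theorem L6a_lint (Θ : Adm S.Y S.Y) (hf : ∀ q, k q ^ 2 * S.f q = S.f (Θ.φ q)) {g : S.Y → ℂ}
    {C : ℝ} (hC : 0 ≤ C) (hg : ∀ q, ‖g q‖ ^ 2 ≤ C * (‖d1 Θ.φ q‖ ^ 2 - ‖d2 Θ.φ q‖ ^ 2))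
    (A : S.Y → ℂ) :
    ∫⁻ q, ‖k q * (A (Θ.φ q) * g q)‖ₑ ^ 2 ∂S.lamf ≤
      ENNReal.ofReal C * ∫⁻ q, ‖A q‖ₑ ^ 2 ∂S.lamf := by
  rw [S.lintegral_lamf, S.lintegral_lamf, S.cov_adm Θ (fun q => ‖S.f q‖ₑ * ‖A q‖ₑ ^ 2),
    ← lintegral_const_mul' _ _ ENNReal.ofReal_ne_top]
  refine lintegral_mono fun q => ?_
  have h1 : ‖S.f (Θ.φ q)‖ = ‖k q‖ ^ 2 * ‖S.f q‖ := by rw [← hf q, norm_mul, norm_pow]
  have h2 := (Θ.sq_pos q).le
  simp only [← ofReal_norm]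
  rw [← ENNReal.ofReal_pow (norm_nonneg _), ← ENNReal.ofReal_pow (norm_nonneg _),
    ← ENNReal.ofReal_mul (norm_nonneg _), ← ENNReal.ofReal_mul (norm_nonneg _),
    ← ENNReal.ofReal_mul h2, ← ENNReal.ofReal_mul hC]
  refine ENNReal.ofReal_le_ofReal ?_
  rw [h1, norm_mul, norm_mul]
  have h3 : 0 ≤ ‖S.f q‖ * ‖k q‖ ^ 2 * ‖A (Θ.φ q)‖ ^ 2 := by positivity
  have h4 := mul_le_mul_of_nonneg_left (hg q) h3
  nlinarith [h4]

theorem L6a_norm (Θ : Adm S.Y S.Y) (hf : ∀ q, k q ^ 2 * S.f q = S.f (Θ.φ q)) {g : S.Y → ℂ}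
    {C : ℝ} (hC : 0 ≤ C) (hg : ∀ q, ‖g q‖ ^ 2 ≤ C * (‖d1 Θ.φ q‖ ^ 2 - ‖d2 Θ.φ q‖ ^ 2))
    (A : S.Y → ℂ) :
    eLpNorm (fun q => k q * (A (Θ.φ q) * g q)) 2 S.lamf ≤
      ENNReal.ofReal (√C) * eLpNorm A 2 S.lamf := by
  have h2 : ∀ F : S.Y → ℂ,
      eLpNorm F 2 S.lamf = (∫⁻ q, ‖F q‖ₑ ^ 2 ∂S.lamf) ^ (1 / 2 : ℝ) := by
    intro F
    rw [eLpNorm_eq_lintegral_rpow_enorm_toReal (by norm_num) (by norm_num)]
    simp
  rw [h2, h2, Real.sqrt_eq_rpow, ← ENNReal.ofReal_rpow_of_nonneg hC (by norm_num),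
    ← ENNReal.mul_rpow_of_nonneg _ _ (by norm_num)]
  exact ENNReal.rpow_le_rpow (L6a_lint Θ hf hC hg A) (by norm_num)

theorem L6a_op (Θ : Adm S.Y S.Y) (hk : Continuous k)
    (hf : ∀ q, k q ^ 2 * S.f q = S.f (Θ.φ q)) {g : S.Y → ℂ} (hgc : Continuous g)
    {C : ℝ} (hC : 0 ≤ C) (hg : ∀ q, ‖g q‖ ^ 2 ≤ C * (‖d1 Θ.φ q‖ ^ 2 - ‖d2 Θ.φ q‖ ^ 2)) :
    ∃ P : S.H →L[ℂ] S.H, ∀ A : S.H,
      (P A : S.Y → ℂ) =ᵐ[S.lamf] fun q => k q * (A (Θ.φ q) * g q) := by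
  have hq := S.qmp_adm Θ
  have hm : ∀ A : S.H, MemLp (fun q => k q * (A (Θ.φ q) * g q)) 2 S.lamf := by
    intro A
    refine ⟨hk.aestronglyMeasurable.mul
      (((Lp.aestronglyMeasurable A).comp_quasiMeasurePreserving hq).mul
        hgc.aestronglyMeasurable), (L6a_norm Θ hf hC hg A).trans_lt ?_⟩
    exact ENNReal.mul_lt_top ENNReal.ofReal_lt_top (Lp.eLpNorm_lt_top A)
  let L : S.H →ₗ[ℂ] S.H :=
    { toFun := fun A => (hm A).toLp _
      map_add' := fun A B => by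
        refine Lp.ext ?_
        filter_upwards [(hm (A + B)).coeFn_toLp, (hm A).coeFn_toLp, (hm B).coeFn_toLp,
          Lp.coeFn_add ((hm A).toLp _) ((hm B).toLp _), hq.ae (Lp.coeFn_add A B)]
          with q h1 h2 h3 h4 h5
        rw [h1, h4, Pi.add_apply, h2, h3, h5, Pi.add_apply]
        ring
      map_smul' := fun c A => by
        refine Lp.ext ?_
        filter_upwards [(hm (c • A)).coeFn_toLp, (hm A).coeFn_toLp,
          Lp.coeFn_smul c ((hm A).toLp _), hq.ae (Lp.coeFn_smul c A)] with q h1 h2 h4 h5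
        rw [RingHom.id_apply, h1, h4, Pi.smul_apply, h2, h5, Pi.smul_apply, smul_eq_mul,
          smul_eq_mul]
        ring }
  refine ⟨L.mkContinuous (√C) fun A => ?_, fun A => (hm A).coeFn_toLp⟩
  change ‖(hm A).toLp _‖ ≤ _
  rw [Lp.norm_toLp, Lp.norm_def, ← ENNReal.toReal_ofReal (Real.sqrt_nonneg C),
    ← ENNReal.toReal_mul]
  exact ENNReal.toReal_mono
    (ENNReal.mul_ne_top ENNReal.ofReal_ne_top (Lp.eLpNorm_ne_top A)) (L6a_norm Θ hf hC hg A)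

theorem L6a_bound (Θ : Adm S.Y S.Y) : ∃ C : ℝ, 0 ≤ C ∧ ∀ q,
    ‖d1 Θ.φ q‖ ^ 2 ≤ C * (‖d1 Θ.φ q‖ ^ 2 - ‖d2 Θ.φ q‖ ^ 2) ∧
    ‖d2 Θ.φ q‖ ^ 2 ≤ C * (‖d1 Θ.φ q‖ ^ 2 - ‖d2 Θ.φ q‖ ^ 2) := by
  obtain ⟨-, κ, h0, h1, hb⟩ := S.bel_adm Θ
  have hκ : 0 < 1 - κ ^ 2 := by nlinarith
  refine ⟨(1 - κ ^ 2)⁻¹, inv_nonneg.2 hκ.le, fun q => ?_⟩
  have h2 : ‖d2 Θ.φ q‖ ≤ κ * ‖d1 Θ.φ q‖ := by
    have := hb q
    rwa [bel, norm_div, div_le_iff₀ (norm_pos_iff.2 (Θ.d1_ne q))] at this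
  have h3 : ‖d2 Θ.φ q‖ ^ 2 ≤ κ ^ 2 * ‖d1 Θ.φ q‖ ^ 2 := by
    rw [← mul_pow]; exact pow_le_pow_left₀ (norm_nonneg _) h2 2
  have h4 : ‖d1 Θ.φ q‖ ^ 2 ≤ (1 - κ ^ 2)⁻¹ * (‖d1 Θ.φ q‖ ^ 2 - ‖d2 Θ.φ q‖ ^ 2) := by
    rw [le_inv_mul_iff₀ hκ]; nlinarith
  exact ⟨h4, le_trans (by nlinarith [Θ.sq_pos q]) h4⟩

theorem exists_pull (Θ : Adm S.Y S.Y) (hk : Continuous k)
    (hf : ∀ q, k q ^ 2 * S.f q = S.f (Θ.φ q)) : ∃ U, S.IsPull Θ k U := by
  obtain ⟨C, hC, hb⟩ := L6a_bound Θ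
  obtain ⟨c1, c2⟩ := S.continuous_d_adm Θ
  obtain ⟨P1, h1⟩ := L6a_op Θ hk hf c1 hC fun q => (hb q).1
  obtain ⟨P2, h2⟩ := L6a_op Θ hk hf c2 hC fun q => (hb q).2
  obtain ⟨P3, h3⟩ := L6a_op Θ hk hf (g := fun q => conj (d1 Θ.φ q))
    (continuous_conj.comp c1) hC fun q => by rw [Complex.norm_conj]; exact (hb q).1
  obtain ⟨P4, h4⟩ := L6a_op Θ hk hf (g := fun q => conj (d2 Θ.φ q))
    (continuous_conj.comp c2) hC fun q => by rw [Complex.norm_conj]; exact (hb q).2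
  refine ⟨(P1.coprod P4).prod (P2.coprod P3), fun A B => ⟨?_, ?_⟩⟩
  · change ((P1 A + P4 B : S.H) : S.Y → ℂ) =ᵐ[S.lamf] _
    filter_upwards [Lp.coeFn_add (P1 A) (P4 B), h1 A, h4 B] with q e1 e2 e3
    rw [e1, Pi.add_apply, e2, e3]; ring
  · change ((P2 A + P3 B : S.H) : S.Y → ℂ) =ᵐ[S.lamf] _
    filter_upwards [Lp.coeFn_add (P2 A) (P3 B), h2 A, h3 B] with q e1 e2 e3
    rw [e1, Pi.add_apply, e2, e3]; ring

end Flat

end Pool.Agent.MP_e62289_ag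

end

section

open Set Filter Topology Complex MeasureTheory Metric
open scoped Manifold ContDiff ComplexConjugate NNReal ENNReal

namespace Pool.Agent.MP_e62289_ag

namespace Flat

variable {n : ℕ} (S : Flat n)

variable {S} {Θ : Adm S.Y S.Y} {k : S.Y → ℂ} {U : S.H × S.H →L[ℂ] S.H × S.H}

theorem L6b_ne (hf : ∀ q, k q ^ 2 * S.f q = S.f (Θ.φ q)) (q : S.Y) : k q ≠ 0 := fun h => by
  have := hf q
  rw [h] at this
  exact S.f_ne (Θ.φ q) (by rw [← this]; simp)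

theorem L6b_der (hk : Ck 2 k) (hf : ∀ q, k q ^ 2 * S.f q = S.f (Θ.φ q)) (q : S.Y) :
    2 * k q * d1 k q * S.f q + k q ^ 2 * d1 S.f q = d1 S.f (Θ.φ q) * d1 Θ.φ q ∧
      2 * k q * d2 k q * S.f q = d1 S.f (Θ.φ q) * d2 Θ.φ q := by
  have kd : RDiffAt k q := hk.mdifferentiableAt (by simp)
  have f1 := d2_of_hol (S.f_hol q)
  have f2 := d2_of_hol (S.f_hol (Θ.φ q))
  have h1 := d_comp f2.1 (Θ.md q)
  have e : S.f ∘ Θ.φ = fun x => k x * k x * S.f x := funext fun x => by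
    rw [Function.comp_apply, ← hf x, sq]
  have h2 := d_mul (kd.mul kd) f1.1
  have h3 := d_mul kd kd
  rw [e, h2.1, h2.2, h3.1, h3.2, f1.2, f2.2] at h1
  exact ⟨by linear_combination h1.1, by linear_combination h1.2⟩

theorem IsPull.exact (hU : S.IsPull Θ k U) (hk : Ck 2 k)
    (hf : ∀ q, k q ^ 2 * S.f q = S.f (Θ.φ q)) {e : S.H × S.H} (he : e ∈ S.hd.E) :
    U e ∈ S.hd.E := by
  obtain ⟨A, B⟩ := e
  obtain ⟨κ, hκ, hc, hA, hB⟩ := (S.hd_E _).1 he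
  have hκΘ : Ck 2 (κ ∘ Θ.φ) := hκ.comp Θ.φ.contMDiff
  have q1 := (S.qmp_adm Θ).ae_eq_comp hA
  have q2 := (S.qmp_adm Θ).ae_eq_comp hB
  have hd : ∀ q, d1 (fun x => k x * (κ ∘ Θ.φ) x) q = d1 k q * κ (Θ.φ q) +
      k q * (d1 κ (Θ.φ q) * d1 Θ.φ q + d2 κ (Θ.φ q) * conj (d2 Θ.φ q)) ∧
      d2 (fun x => k x * (κ ∘ Θ.φ) x) q = d2 k q * κ (Θ.φ q) +
      k q * (d1 κ (Θ.φ q) * d2 Θ.φ q + d2 κ (Θ.φ q) * conj (d1 Θ.φ q)) := fun q => by
    have h1 := d_mul (u := k) (v := κ ∘ Θ.φ) (q := q) (hk.mdifferentiableAt (by simp))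
      (hκΘ.mdifferentiableAt (by simp))
    have h2 := d_comp (G := κ) (hκ.mdifferentiableAt (by simp)) (Θ.md q)
    rw [h2.1, h2.2] at h1
    exact h1
  refine (S.hd_E _).2 ⟨fun x => k x * (κ ∘ Θ.φ) x, ?_, ?_, ?_, ?_⟩
  · exact (contDiff_mul (𝕜 := ℝ) (𝔸 := ℂ)).comp_contMDiff (hk.prodMk_space hκΘ)
  · exact (hc.comp_homeomorph Θ.φ.toHomeomorph).mul_left
  · filter_upwards [(hU A B).1, q1, q2] with q h1 h2 h3
    simp only [Function.comp_apply] at h2 h3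
    have k0 := L6b_ne hf q
    have f0 := S.f_ne q
    rw [h1, h2, h3, D1, D1, (hd q).1, ← hf q, Function.comp_apply]
    field_simp
    linear_combination (-κ (Θ.φ q)) * (L6b_der hk hf q).1
  · filter_upwards [(hU A B).2, q1, q2] with q h1 h2 h3
    simp only [Function.comp_apply] at h2 h3
    have k0 := L6b_ne hf q
    have f0 := S.f_ne q
    rw [h1, h2, h3, D1, (hd q).2, ← hf q]
    field_simp
    linear_combination (-κ (Θ.φ q)) * (L6b_der hk hf q).2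

theorem L6b_phase (hf : ∀ q, k q ^ 2 * S.f q = S.f (Θ.φ q)) (q : S.Y) :
    k q * ((‖S.f (Θ.φ q)‖ : ℂ) / S.f (Θ.φ q)) = (‖S.f q‖ : ℂ) / S.f q * conj (k q) := by
  have k0 := L6b_ne hf q
  have f0 := S.f_ne q
  rw [← hf q, norm_mul, norm_pow, ofReal_mul, ofReal_pow, ← Complex.mul_conj']
  field_simp

theorem IsPull.conj (hU : S.IsPull Θ k U) (hf : ∀ q, k q ^ 2 * S.f q = S.f (Θ.φ q)) (A B : S.H) :
    U (S.hd.c B, S.hd.c A) = (S.hd.c (U (A, B)).2, S.hd.c (U (A, B)).1) := by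
  have q1 := (S.qmp_adm Θ).ae_eq_comp (S.hd_c A)
  have q2 := (S.qmp_adm Θ).ae_eq_comp (S.hd_c B)
  refine Prod.ext (Lp.ext ?_) (Lp.ext ?_)
  · filter_upwards [(hU (S.hd.c B) (S.hd.c A)).1, (hU A B).2, S.hd_c (U (A, B)).2, q1, q2]
      with q h1 h2 h3 h4 h5
    simp only [Function.comp_apply] at h4 h5
    rw [h1, h3, h2, h4, h5]
    simp only [map_mul, map_add, conj_conj]
    linear_combination (conj (B (Θ.φ q)) * d1 Θ.φ q + conj (A (Θ.φ q)) * conj (d2 Θ.φ q)) *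
      L6b_phase hf q
  · filter_upwards [(hU (S.hd.c B) (S.hd.c A)).2, (hU A B).1, S.hd_c (U (A, B)).1, q1, q2]
      with q h1 h2 h3 h4 h5
    simp only [Function.comp_apply] at h4 h5
    rw [h1, h3, h2, h4, h5]
    simp only [map_mul, map_add, conj_conj]
    linear_combination (conj (B (Θ.φ q)) * d2 Θ.φ q + conj (A (Θ.φ q)) * conj (d1 Θ.φ q)) *
      L6b_phase hf q

theorem IsPull.graph (hU : S.IsPull Θ k U) {μ : S.Y → ℂ} (hμ : Continuous μ) {κ : ℝ} (hκ : κ < 1)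
    (hb : ∀ q, ‖μ q‖ ≤ κ) (A : S.H) :
    (U (A, S.mulOp μ A)).2 = S.mulOp (Θ.act μ) (U (A, S.mulOp μ A)).1 := by
  obtain ⟨hc, ⟨κ', -, -, hb'⟩, hne⟩ := S.act_bound Θ hμ hκ hb
  have q1 := (S.qmp_adm Θ).ae_eq_comp (S.mulOp_apply hμ.aestronglyMeasurable hb A)
  refine Lp.ext ?_
  filter_upwards [(hU A (S.mulOp μ A)).1, (hU A (S.mulOp μ A)).2, q1,
    S.mulOp_apply hc.aestronglyMeasurable hb' (U (A, S.mulOp μ A)).1] with q h1 h2 h3 h4
  simp only [Function.comp_apply] at h3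
  have h0 := hne q
  rw [h4, h1, h2, h3, Adm.act]
  field_simp

end Flat

end Pool.Agent.MP_e62289_ag

end

section



end

section

open Set Filter Topology Complex MeasureTheory Metric
open scoped Manifold ContDiff ComplexConjugate NNReal ENNReal

namespace Pool.Agent.MP_e62289_ag

namespace Flat

variable {n : ℕ} (S : Flat n) {T : Type} [TopologicalSpace T]

/-- admissible maps close to the identity do not change the period function -/
theorem lc [LocallyConnectedSpace T] (t₀ : T) (Θ : T → Adm S.Y S.Y)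
    (hc : Continuous fun p : T × S.Y => (Θ p.1).φ p.2)
    (hc' : Continuous fun p : T × S.Y => (Θ p.1).φ.symm p.2) (h0 : ∀ q, (Θ t₀).φ q = q)
    (hK : ∃ K, IsCompact K ∧ ∀ t q, q ∉ K → (Θ t).φ q ∉ K → d2 (Θ t).φ q = 0) :
    ∀ᶠ t in 𝓝 t₀, ∀ ξp ∈ S.hd.W, ∀ ξm ∈ S.hd.W, ∀ μ : S.Y → ℂ, Continuous μ →
      (∃ κ : ℝ, κ < 1 ∧ ∀ q, ‖μ q‖ ≤ κ) → S.Hval ξp ξm ((Θ t).act μ) = S.Hval ξp ξm μ := by
  obtain ⟨T', hT', hT, hs⟩ := S.exists_small t₀ Θ hc hc' h0 hK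
  filter_upwards [hT'] with t ht ξp hp ξm hm μ hμ ⟨κ, hκ, hb⟩
  obtain ⟨k, k1, k2, k3⟩ := S.exists_prim hT (mem_of_mem_nhds hT') ht hc h0 hs
  obtain ⟨U, hU⟩ := exists_pull (Θ t) k1.continuous k2
  obtain ⟨a1, ⟨κ', -, hκ', hb'⟩, -⟩ := S.act_bound (Θ t) hμ hκ hb
  refine S.hd.hv_inv hp hm U (fun e he => subset_closure (hU.exact k1 k2 he)) (fun ξ hξ => ?_)
    (hU.conj k2) ((S.norm_mulOp hμ.aestronglyMeasurable hb).trans_lt hκ)
    ((S.norm_mulOp a1.aestronglyMeasurable hb').trans_lt hκ') (hU.graph hμ hκ hb)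
  obtain ⟨A, hA, hAe⟩ := S.weyl hξ
  obtain ⟨κ₁, c1, c2, c3⟩ := k3 A hA ((Lp.memLp ξ).ae_eq hAe)
  have q1 := (S.qmp_adm (Θ t)).ae_eq_comp hAe
  have q2 := (S.qmp_adm (Θ t)).ae_eq_comp (Lp.coeFn_zero ℂ 2 S.lamf)
  refine S.mem_Eb (A := (U (ξ, 0)).1 - ξ) (B := (U (ξ, 0)).2 - 0) c1 ?_ ?_ c3
  · filter_upwards [Lp.coeFn_sub (U (ξ, 0)).1 ξ, (hU ξ 0).1, q1, q2, hAe] with q e1 e2 e3 e4 e5
    simp only [Function.comp_apply, Pi.zero_apply] at e3 e4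
    rw [e1, Pi.sub_apply, e2, e3, e4, e5, (c2 q).1, zero_mul, add_zero]
  · rw [sub_zero]
    filter_upwards [(hU ξ 0).2, q1, q2] with q e2 e3 e4
    simp only [Function.comp_apply, Pi.zero_apply] at e3 e4
    rw [e2, e3, e4, (c2 q).2, zero_mul, add_zero]

end Flat

end Pool.Agent.MP_e62289_ag

end

section

open Set Filter Topology Complex MeasureTheory Metric
open scoped Manifold ContDiff ComplexConjugate NNReal ENNReal

namespace Pool.Agent.MP_e62289_ag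

theorem L11_abs {H : Type} [NormedAddCommGroup H] [InnerProductSpace ℂ H] [CompleteSpace H]
    (D : HData H) (ξp ξm : H) {A B N : H →L[ℂ] H} (hA : ‖A‖ ≤ 1) (hB : ‖B‖ ≤ 1)
    {M : ℂ → ℂ → ℝ → H →L[ℂ] H}
    (h1 : ∀ ε δ : ℂ, (ε = 1 ∨ ε = -1) → (δ = 1 ∨ δ = -1) →
      Tendsto (fun t : ℝ => (t : ℂ)⁻¹ • M ε δ t) (𝓝[>] 0) (𝓝 (ε • A + δ • B)))
    (h2 : Tendsto (fun t : ℝ => (4 * (t : ℂ) ^ 2)⁻¹ •
      (M 1 1 t + (-1 : ℂ) • M 1 (-1) t + (-1 : ℂ) • M (-1) 1 t + M (-1) (-1) t)) (𝓝[>] 0) (𝓝 N))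
    {Bd : ℝ} (h3 : ∀ η : ℝ, 0 < η → ∀ ε δ : ℂ, (ε = 1 ∨ ε = -1) → (δ = 1 ∨ δ = -1) →
      ∀ᶠ t : ℝ in 𝓝[>] 0, ‖D.hv ξp ξm (M ε δ t)‖ ≤ (Bd + η) * t ^ 2) :
    ‖D.β ξm (N ξp)‖ ≤ Bd + 2 * (‖ξp‖ * ‖ξm‖) := by
  let L : (H →L[ℂ] H) →L[ℂ] ℂ := (innerSL ℂ (D.c ξm)).comp (ContinuousLinearMap.apply ℂ H ξp)
  have hL : ∀ m, D.β ξm (m ξp) = L m := fun m => rfl
  have hQ : ∀ m m' : H →L[ℂ] H, D.β ξm (m (D.T (m' ξp))) = L (m * D.T * m') := fun m m' => rfl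
  have hid : Tendsto (fun t : ℝ => t) (𝓝[>] 0) (𝓝 0) := nhdsWithin_le_nhds
  have key : ∀ ε δ : ℂ, (ε = 1 ∨ ε = -1) → (δ = 1 ∨ δ = -1) →
      Tendsto (fun t : ℝ => ((t : ℂ) ^ 2)⁻¹ * (D.hv ξp ξm (M ε δ t) - L (M ε δ t))) (𝓝[>] 0)
        (𝓝 (L ((ε • A + δ • B) * D.T * (ε • A + δ • B)))) := by
    intro ε δ hε hδ
    have a1 := h1 ε δ hε hδ
    set m : ℝ → H →L[ℂ] H := fun t => (t : ℂ)⁻¹ • M ε δ t with hm
    have hMm : ∀ t : ℝ, 0 < t → M ε δ t = (t : ℂ) • m t := fun t ht => by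
      simp only [hm]
      rw [smul_smul, mul_inv_cancel₀ (by exact_mod_cast ht.ne'), one_smul]
    have hn : ∀ t : ℝ, 0 < t → ‖M ε δ t‖ = t * ‖m t‖ := fun t ht => by
      rw [hMm t ht, norm_smul, Complex.norm_real, Real.norm_of_nonneg ht.le]
    have a2 : Tendsto (fun t => L (m t * D.T * m t)) (𝓝[>] 0)
        (𝓝 (L ((ε • A + δ • B) * D.T * (ε • A + δ • B)))) :=
      (L.continuous.tendsto _).comp ((a1.mul_const _).mul a1)
    have a3 : Tendsto (fun t : ℝ => t * ‖m t‖) (𝓝[>] 0) (𝓝 0) := by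
      simpa using hid.mul a1.norm
    have a4 : Tendsto (fun t : ℝ => ((t : ℂ) ^ 2)⁻¹ * (D.hv ξp ξm (M ε δ t) - L (M ε δ t)) -
        L (m t * D.T * m t)) (𝓝[>] 0) (𝓝 0) := by
      have b1 : Tendsto (fun t : ℝ => 2 * (t * ‖m t‖ ^ 3) * (‖ξp‖ * ‖ξm‖)) (𝓝[>] 0) (𝓝 0) := by
        simpa using ((hid.mul (a1.norm.pow 3)).const_mul 2).mul_const (‖ξp‖ * ‖ξm‖)
      refine squeeze_zero_norm' ?_ b1
      filter_upwards [self_mem_nhdsWithin, a3.eventually (ge_mem_nhds (by norm_num : (0 : ℝ) < 1 / 2))]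
        with t ht ht2
      have ht : 0 < t := ht
      have htc : (t : ℂ) ≠ 0 := by exact_mod_cast ht.ne'
      have b2 := D.hv_quad ξp ξm (m := M ε δ t) (by rw [hn t ht]; exact ht2)
      rw [hL, hQ, hn t ht] at b2
      have b3 : L (M ε δ t * D.T * M ε δ t) = (t : ℂ) ^ 2 * L (m t * D.T * m t) := by
        rw [hMm t ht]
        simp only [smul_mul_assoc, mul_smul_comm, map_smul, smul_eq_mul]
        ring
      have b4 : ((t : ℂ) ^ 2)⁻¹ * (D.hv ξp ξm (M ε δ t) - L (M ε δ t)) - L (m t * D.T * m t) =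
          ((t : ℂ) ^ 2)⁻¹ * (D.hv ξp ξm (M ε δ t) - L (M ε δ t) - L (M ε δ t * D.T * M ε δ t)) := by
        rw [b3]
        field_simp
      rw [b4, norm_mul, norm_inv, norm_pow, Complex.norm_real, Real.norm_of_nonneg ht.le,
        inv_mul_le_iff₀ (by positivity)]
      refine b2.trans (le_of_eq ?_)
      ring
    simpa using a4.add a2
  have k1 := key 1 1 (Or.inl rfl) (Or.inl rfl)
  have k2 := key 1 (-1) (Or.inl rfl) (Or.inr rfl)
  have k3 := key (-1) 1 (Or.inr rfl) (Or.inl rfl)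
  have k4 := key (-1) (-1) (Or.inr rfl) (Or.inr rfl)
  have k5 := (((L.continuous.tendsto _).comp h2).const_mul 4).add (((k1.sub k2).sub k3).add k4)
  have e1 : 4 * L N + (L (((1 : ℂ) • A + (1 : ℂ) • B) * D.T * ((1 : ℂ) • A + (1 : ℂ) • B)) -
      L (((1 : ℂ) • A + (-1 : ℂ) • B) * D.T * ((1 : ℂ) • A + (-1 : ℂ) • B)) -
      L (((-1 : ℂ) • A + (1 : ℂ) • B) * D.T * ((-1 : ℂ) • A + (1 : ℂ) • B)) +
      L (((-1 : ℂ) • A + (-1 : ℂ) • B) * D.T * ((-1 : ℂ) • A + (-1 : ℂ) • B))) =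
      4 * (L N + L (A * D.T * B) + L (B * D.T * A)) := by
    simp only [add_mul, mul_add, smul_mul_assoc, mul_smul_comm, map_add, map_smul, smul_eq_mul]
    ring
  rw [e1] at k5
  have k6 : Tendsto (fun t : ℝ => ((t : ℂ) ^ 2)⁻¹ * (D.hv ξp ξm (M 1 1 t) - D.hv ξp ξm (M 1 (-1) t) -
      D.hv ξp ξm (M (-1) 1 t) + D.hv ξp ξm (M (-1) (-1) t))) (𝓝[>] 0)
      (𝓝 (4 * (L N + L (A * D.T * B) + L (B * D.T * A)))) := by
    refine k5.congr fun t => ?_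
    simp only [Function.comp_apply, map_add, map_smul, smul_eq_mul, mul_inv]
    ring
  have k7 : ‖L N + L (A * D.T * B) + L (B * D.T * A)‖ ≤ Bd := by
    refine le_of_forall_pos_le_add fun η hη => ?_
    have b1 : ‖4 * (L N + L (A * D.T * B) + L (B * D.T * A))‖ ≤ 4 * (Bd + η) := by
      refine le_of_tendsto k6.norm ?_
      filter_upwards [self_mem_nhdsWithin, h3 η hη 1 1 (Or.inl rfl) (Or.inl rfl),
        h3 η hη 1 (-1) (Or.inl rfl) (Or.inr rfl), h3 η hη (-1) 1 (Or.inr rfl) (Or.inl rfl),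
        h3 η hη (-1) (-1) (Or.inr rfl) (Or.inr rfl)] with t ht c1 c2 c3 c4
      have ht : 0 < t := ht
      rw [norm_mul, norm_inv, norm_pow, Complex.norm_real, Real.norm_of_nonneg ht.le,
        inv_mul_le_iff₀ (by positivity)]
      have c5 := norm_add_le (D.hv ξp ξm (M 1 1 t) - D.hv ξp ξm (M 1 (-1) t) -
        D.hv ξp ξm (M (-1) 1 t)) (D.hv ξp ξm (M (-1) (-1) t))
      have c6 := norm_sub_le (D.hv ξp ξm (M 1 1 t) - D.hv ξp ξm (M 1 (-1) t))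
        (D.hv ξp ξm (M (-1) 1 t))
      have c7 := norm_sub_le (D.hv ξp ξm (M 1 1 t)) (D.hv ξp ξm (M 1 (-1) t))
      linarith
    rw [norm_mul] at b1
    have : ‖(4 : ℂ)‖ = 4 := by simp
    rw [this] at b1
    linarith
  have k8 : ∀ X Y : H →L[ℂ] H, ‖X‖ ≤ 1 → ‖Y‖ ≤ 1 → ‖L (X * D.T * Y)‖ ≤ ‖ξp‖ * ‖ξm‖ := by
    intro X Y hX hY
    rw [← hL, mul_comm ‖ξp‖]
    refine (D.norm_β_le _ _).trans (mul_le_mul_of_nonneg_left ?_ (norm_nonneg _))
    have b1 : ‖X * D.T * Y‖ ≤ 1 := by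
      refine (norm_mul_le _ _).trans (mul_le_one₀ ?_ (norm_nonneg _) hY)
      exact (norm_mul_le _ _).trans (mul_le_one₀ hX (norm_nonneg _) D.norm_T_le)
    exact ((X * D.T * Y).le_of_opNorm_le b1 ξp).trans (one_mul _).le
  rw [hL]
  have e2 : L N = (L N + L (A * D.T * B) + L (B * D.T * A)) - L (A * D.T * B) - L (B * D.T * A) := by
    ring
  rw [e2]
  have c6 := norm_sub_le (L N + L (A * D.T * B) + L (B * D.T * A) - L (A * D.T * B))
    (L (B * D.T * A))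
  have c7 := norm_sub_le (L N + L (A * D.T * B) + L (B * D.T * A)) (L (A * D.T * B))
  linarith [k8 A B hA hB, k8 B A hB hA]

namespace Flat

variable {n : ℕ} (S : Flat n)

/-- bounded measurable functions -/
def L11BM (μ : S.Y → ℂ) : Prop := AEStronglyMeasurable μ S.lamf ∧ ∃ κ : ℝ, ∀ q, ‖μ q‖ ≤ κ

variable {S} in
theorem L11BM.add {μ ν : S.Y → ℂ} (h : S.L11BM μ) (h' : S.L11BM ν) :
    S.L11BM (fun q => μ q + ν q) ∧ S.mulOp (fun q => μ q + ν q) = S.mulOp μ + S.mulOp ν := by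
  obtain ⟨h1, κ, h2⟩ := h
  obtain ⟨h3, κ', h4⟩ := h'
  exact ⟨⟨h1.add h3, κ + κ', fun q => (norm_add_le _ _).trans (add_le_add (h2 q) (h4 q))⟩,
    S.mulOp_add h1 h2 h3 h4⟩

variable {S} in
theorem L11BM.smul {μ : S.Y → ℂ} (h : S.L11BM μ) (c : ℂ) :
    S.L11BM (fun q => c * μ q) ∧ S.mulOp (fun q => c * μ q) = c • S.mulOp μ := by
  obtain ⟨h1, κ, h2⟩ := h
  exact ⟨⟨h1.const_mul c, ‖c‖ * κ, fun q => by
    rw [norm_mul]; exact mul_le_mul_of_nonneg_left (h2 q) (norm_nonneg _)⟩, S.mulOp_smul h1 h2 c⟩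

theorem L11_lim {f : ℝ → S.Y → ℂ} {g : S.Y → ℂ} {c : ℝ → ℝ}
    (hf : ∀ᶠ t in 𝓝[>] (0 : ℝ), S.L11BM (f t) ∧ ∀ q, ‖f t q - g q‖ ≤ c t)
    (hc : Tendsto c (𝓝[>] 0) (𝓝 0)) :
    S.L11BM g ∧ Tendsto (fun t => S.mulOp (f t)) (𝓝[>] 0) (𝓝 (S.mulOp g)) := by
  classical
  have hg : S.L11BM g := by
    constructor
    · refine aestronglyMeasurable_of_tendsto_ae (𝓝[>] (0 : ℝ))
        (f := fun t => if S.L11BM (f t) then f t else 0) (fun t => ?_) (ae_of_all _ fun q => ?_)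
      · split_ifs with h
        · exact h.1
        · exact aestronglyMeasurable_zero
      · rw [tendsto_iff_norm_sub_tendsto_zero]
        refine squeeze_zero' (Eventually.of_forall fun _ => norm_nonneg _) ?_ hc
        filter_upwards [hf] with t ht
        rw [if_pos ht.1]
        exact ht.2 q
    · obtain ⟨t, ⟨-, κ, h1⟩, h2⟩ := hf.exists
      refine ⟨κ + c t, fun q => ?_⟩
      have : g q = f t q - (f t q - g q) := by ring
      rw [this]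
      exact (norm_sub_le _ _).trans (add_le_add (h1 q) (h2 q))
  refine ⟨hg, ?_⟩
  rw [tendsto_iff_norm_sub_tendsto_zero]
  refine squeeze_zero' (Eventually.of_forall fun _ => norm_nonneg _) ?_ hc
  filter_upwards [hf] with t ht
  obtain ⟨a1, a2⟩ := ht.1.add (hg.smul (-1)).1
  rw [(hg.smul (-1)).2, neg_one_smul, ← sub_eq_add_neg] at a2
  rw [← a2]
  exact S.norm_mulOp a1.1 fun q => by simpa [sub_eq_add_neg] using ht.2 q

/-- the mixed second derivative of the period function -/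
theorem second (ξp ξm : S.H) {μ : ℂ → ℂ → S.Y → ℂ} {ν : S.Y → ℂ} {ρ : ℝ} (hρ : 0 < ρ)
    (hρ1 : ρ ≤ 1) (hm : ∀ u ∈ ball (0 : ℂ) ρ, ∀ r ∈ ball (0 : ℂ) ρ, Continuous (μ u r))
    (h0 : ∀ q, μ 0 0 q = 0)
    (hb : ∀ u ∈ ball (0 : ℂ) ρ, ∀ r ∈ ball (0 : ℂ) ρ, ∀ q, ‖μ u r q‖ ≤ 1)
    (hu : ∀ r ∈ ball (0 : ℂ) ρ, ∀ q, DifferentiableOn ℂ (fun u => μ u r q) (ball 0 ρ))
    (hr : ∀ u ∈ ball (0 : ℂ) ρ, ∀ q, DifferentiableOn ℂ (fun r => μ u r q) (ball 0 ρ))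
    (au : ∀ q, DifferentiableOn ℂ (fun u => μ u 0 q) (ball 0 1) ∧
      ∀ u ∈ ball (0 : ℂ) 1, ‖μ u 0 q‖ ≤ 1)
    (ar : ∀ q, DifferentiableOn ℂ (fun r => μ 0 r q) (ball 0 1) ∧
      ∀ r ∈ ball (0 : ℂ) 1, ‖μ 0 r q‖ ≤ 1)
    (hν : ∀ q, HasDerivAt (fun u => deriv (fun r => μ u r q) 0) (ν q) 0) {Bd : ℝ}
    (hB : ∀ η : ℝ, 0 < η → ∀ ε δ : ℂ, (ε = 1 ∨ ε = -1) → (δ = 1 ∨ δ = -1) →
      ∀ᶠ t : ℝ in 𝓝[>] 0, ‖S.Hval ξp ξm (μ (ε * t) (δ * t))‖ ≤ (Bd + η) * t ^ 2) :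
    ‖∫ q, ν q * (S.f q * ξp q * ξm q) ∂S.lam‖ ≤ Bd + 2 * (‖ξp‖ * ‖ξm‖) := by
  set a : S.Y → ℂ := fun q => deriv (fun u => μ u 0 q) 0 with ha
  set b : S.Y → ℂ := fun q => deriv (fun r => μ 0 r q) 0 with hb'
  have sa := fun q => schwarz_two one_pos (au q).1 (au q).2
  have sb := fun q => schwarz_two one_pos (ar q).1 (ar q).2
  have bd := fun q => bidisc (g := fun u r => μ u r q) hρ (fun r h => hu r h q)
    (fun u h => hr u h q) (fun u h r h' => hb u h r h' q) (hν q)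
  have hid : Tendsto (fun t : ℝ => t) (𝓝[>] 0) (𝓝 0) := nhdsWithin_le_nhds
  have ev : ∀ᶠ t : ℝ in 𝓝[>] 0, 0 < t ∧ t < ρ := Ioo_mem_nhdsGT hρ
  have z0 : (0 : ℂ) ∈ ball (0 : ℂ) ρ := mem_ball_self hρ
  have bm : ∀ u ∈ ball (0 : ℂ) ρ, ∀ r ∈ ball (0 : ℂ) ρ, S.L11BM (μ u r) := fun u h r h' =>
    ⟨(hm u h r h').aestronglyMeasurable, 1, hb u h r h'⟩
  have nm : ∀ ε : ℂ, (ε = 1 ∨ ε = -1) → ∀ t : ℝ, 0 < t → ‖ε * t‖ = t := by
    rintro ε (rfl | rfl) t ht <;> simp [ht.le]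
  have mb : ∀ ε : ℂ, (ε = 1 ∨ ε = -1) → ∀ t : ℝ, 0 < t → t < ρ → ε * t ∈ ball (0 : ℂ) ρ :=
    fun ε h t ht ht' => by rw [mem_ball_zero_iff, nm ε h t ht]; exact ht'
  have one : ∀ {g : ℂ → S.Y → ℂ} {d : S.Y → ℂ}, (∀ u ∈ ball (0 : ℂ) ρ, S.L11BM (g u)) →
      (∀ u ∈ ball (0 : ℂ) ρ, ∀ q, ‖g u q - u * d q‖ ≤ 6 * ‖u‖ ^ 2) → S.L11BM d := by
    intro g d g1 g2
    refine (S.L11_lim (f := fun t q => (t : ℂ)⁻¹ * g (1 * t) q) (c := fun t => 6 * t) ?_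
      (by simpa using hid.const_mul 6)).1
    filter_upwards [ev] with t ht
    refine ⟨((g1 _ (mb 1 (Or.inl rfl) t ht.1 ht.2)).smul _).1, fun q => ?_⟩
    have htc : (t : ℂ) ≠ 0 := by exact_mod_cast ht.1.ne'
    have e : (t : ℂ)⁻¹ * g (1 * t) q - d q = (t : ℂ)⁻¹ * (g (1 * t) q - 1 * t * d q) := by
      field_simp
    have := g2 _ (mb 1 (Or.inl rfl) t ht.1 ht.2) q
    rw [nm 1 (Or.inl rfl) t ht.1] at this
    rw [e, norm_mul, norm_inv, Complex.norm_real, Real.norm_of_nonneg ht.1.le,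
      inv_mul_le_iff₀ ht.1]
    exact this.trans (le_of_eq (by ring))
  have la : ∀ u ∈ ball (0 : ℂ) ρ, ∀ q, ‖μ u 0 q - u * a q‖ ≤ 6 * ‖u‖ ^ 2 := fun u h q => by
    simpa [h0] using ((sa q).2 u (ball_subset_ball hρ1 h)).2
  have lb : ∀ u ∈ ball (0 : ℂ) ρ, ∀ q, ‖μ 0 u q - u * b q‖ ≤ 6 * ‖u‖ ^ 2 := fun u h q => by
    simpa [h0] using ((sb q).2 u (ball_subset_ball hρ1 h)).2
  have ma : S.L11BM a := one (g := fun u => μ u 0) (fun u h => bm u h 0 z0) la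
  have mb' : S.L11BM b := one (g := fun u => μ 0 u) (fun u h => bm 0 z0 u h) lb
  have rem : ∀ ε δ : ℂ, (ε = 1 ∨ ε = -1) → (δ = 1 ∨ δ = -1) → ∀ t : ℝ, 0 < t → t < ρ → ∀ q,
      ‖μ (ε * t) (δ * t) q - μ (ε * t) 0 q - μ 0 (δ * t) q - ε * t * (δ * t) * ν q‖ ≤
        200 / ρ ^ 3 * t ^ 3 := by
    intro ε δ hε hδ t ht ht' q
    have := (bd q).2 _ (mb ε hε t ht ht') _ (mb δ hδ t ht ht')
    rw [nm ε hε t ht, nm δ hδ t ht, h0, add_zero] at this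
    exact this.trans (le_of_eq (by ring))
  have two : S.L11BM ν ∧ Tendsto (fun t : ℝ => S.mulOp (fun q => (4 * (t : ℂ) ^ 2)⁻¹ *
      (μ (1 * t) (1 * t) q + (-1) * μ (1 * t) (-1 * t) q + (-1) * μ (-1 * t) (1 * t) q +
        μ (-1 * t) (-1 * t) q))) (𝓝[>] 0) (𝓝 (S.mulOp ν)) := by
    refine S.L11_lim (c := fun t => 200 / ρ ^ 3 * t) ?_ (by simpa using hid.const_mul (200 / ρ ^ 3))
    filter_upwards [ev] with t ht
    have p := mb 1 (Or.inl rfl) t ht.1 ht.2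
    have p' := mb (-1) (Or.inr rfl) t ht.1 ht.2
    refine ⟨(((((bm _ p _ p).add ((bm _ p _ p').smul (-1)).1).1.add
      ((bm _ p' _ p).smul (-1)).1).1.add (bm _ p' _ p')).1.smul _).1, fun q => ?_⟩
    have htc : (t : ℂ) ≠ 0 := by exact_mod_cast ht.1.ne'
    have r1 := rem 1 1 (Or.inl rfl) (Or.inl rfl) t ht.1 ht.2 q
    have r2 := rem 1 (-1) (Or.inl rfl) (Or.inr rfl) t ht.1 ht.2 q
    have r3 := rem (-1) 1 (Or.inr rfl) (Or.inl rfl) t ht.1 ht.2 q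
    have r4 := rem (-1) (-1) (Or.inr rfl) (Or.inr rfl) t ht.1 ht.2 q
    set R1 := μ (1 * t) (1 * t) q - μ (1 * t) 0 q - μ 0 (1 * t) q - 1 * t * (1 * t) * ν q with e1
    set R2 := μ (1 * t) (-1 * t) q - μ (1 * t) 0 q - μ 0 (-1 * t) q - 1 * t * (-1 * t) * ν q with e2
    set R3 := μ (-1 * t) (1 * t) q - μ (-1 * t) 0 q - μ 0 (1 * t) q - -1 * t * (1 * t) * ν q with e3
    set R4 := μ (-1 * t) (-1 * t) q - μ (-1 * t) 0 q - μ 0 (-1 * t) q - -1 * t * (-1 * t) * ν q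
      with e4
    have e : (4 * (t : ℂ) ^ 2)⁻¹ * (μ (1 * t) (1 * t) q + (-1) * μ (1 * t) (-1 * t) q +
        (-1) * μ (-1 * t) (1 * t) q + μ (-1 * t) (-1 * t) q) - ν q =
        (4 * (t : ℂ) ^ 2)⁻¹ * (R1 - R2 - R3 + R4) := by
      rw [e1, e2, e3, e4]
      generalize μ (1 * t) (1 * t) q = x1
      generalize μ (1 * t) (-1 * t) q = x2
      generalize μ (-1 * t) (1 * t) q = x3
      generalize μ (-1 * t) (-1 * t) q = x4
      generalize μ (1 * t) 0 q = y1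
      generalize μ (-1 * t) 0 q = y2
      generalize μ 0 (1 * t) q = y3
      generalize μ 0 (-1 * t) q = y4
      field_simp
      ring
    have n4 : ‖4 * (t : ℂ) ^ 2‖ = 4 * t ^ 2 := by simp
    have ht0 := ht.1
    rw [e, norm_mul, norm_inv, n4, inv_mul_le_iff₀ (by positivity)]
    have c5 := norm_add_le (R1 - R2 - R3) R4
    have c6 := norm_sub_le (R1 - R2) R3
    have c7 := norm_sub_le R1 R2
    have : 4 * t ^ 2 * (200 / ρ ^ 3 * t) = 4 * (200 / ρ ^ 3 * t ^ 3) := by ring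
    linarith
  obtain ⟨⟨mν, κ, hκ⟩, two⟩ := two
  rw [← S.β_mulOp mν hκ ξm ξp]
  refine L11_abs S.hd ξp ξm (A := S.mulOp a) (B := S.mulOp b)
    (S.norm_mulOp ma.1 fun q => by simpa using (sa q).1)
    (S.norm_mulOp mb'.1 fun q => by simpa using (sb q).1)
    (M := fun ε δ t => S.mulOp (μ (ε * t) (δ * t))) ?_ ?_ hB
  · intro ε δ hε hδ
    have lim := (S.L11_lim (f := fun t q => (t : ℂ)⁻¹ * μ (ε * t) (δ * t) q)
      (g := fun q => ε * a q + δ * b q) (c := fun t => 200 / ρ ^ 3 * t ^ 2 + (4 / ρ ^ 2 + 12) * t) ?_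
      (by simpa using ((hid.pow 2).const_mul (200 / ρ ^ 3)).add (hid.const_mul (4 / ρ ^ 2 + 12)))).2
    · rw [((ma.smul ε).1.add (mb'.smul δ).1).2, (ma.smul ε).2, (mb'.smul δ).2] at lim
      refine lim.congr' ?_
      filter_upwards [ev] with t ht
      exact ((bm _ (mb ε hε t ht.1 ht.2) _ (mb δ hδ t ht.1 ht.2)).smul _).2
    · filter_upwards [ev] with t ht
      refine ⟨((bm _ (mb ε hε t ht.1 ht.2) _ (mb δ hδ t ht.1 ht.2)).smul _).1, fun q => ?_⟩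
      have htc : (t : ℂ) ≠ 0 := by exact_mod_cast ht.1.ne'
      have r1 := rem ε δ hε hδ t ht.1 ht.2 q
      have r2 := la _ (mb ε hε t ht.1 ht.2) q
      have r3 := lb _ (mb δ hδ t ht.1 ht.2) q
      have r4 : ‖ε * t * (δ * t) * ν q‖ ≤ t * t * (4 / ρ ^ 2) := by
        rw [norm_mul, norm_mul (ε * t), nm ε hε t ht.1, nm δ hδ t ht.1]
        exact mul_le_mul_of_nonneg_left (bd q).1 (mul_pos ht.1 ht.1).le
      rw [nm ε hε t ht.1] at r2
      rw [nm δ hδ t ht.1] at r3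
      set R1 := μ (ε * t) (δ * t) q - μ (ε * t) 0 q - μ 0 (δ * t) q - ε * t * (δ * t) * ν q with e1
      set R2 := μ (ε * t) 0 q - ε * t * a q with e2
      set R3 := μ 0 (δ * t) q - δ * t * b q with e3
      set R4 := ε * t * (δ * t) * ν q with e4
      have e : (t : ℂ)⁻¹ * μ (ε * t) (δ * t) q - (ε * a q + δ * b q) =
          (t : ℂ)⁻¹ * (R1 + R2 + R3 + R4) := by
        rw [e1, e2, e3]
        generalize μ (ε * t) (δ * t) q = x1
        generalize μ (ε * t) 0 q = y1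
        generalize μ 0 (δ * t) q = y3
        field_simp
        ring
      rw [e, norm_mul, norm_inv, Complex.norm_real, Real.norm_of_nonneg ht.1.le,
        inv_mul_le_iff₀ ht.1]
      have c5 := norm_add_le (R1 + R2 + R3) R4
      have c6 := norm_add_le (R1 + R2) R3
      have c7 := norm_add_le R1 R2
      have : t * (200 / ρ ^ 3 * t ^ 2 + (4 / ρ ^ 2 + 12) * t) =
        200 / ρ ^ 3 * t ^ 3 + 6 * t ^ 2 + 6 * t ^ 2 + t * t * (4 / ρ ^ 2) := by ring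
      linarith
  · refine two.congr' ?_
    filter_upwards [ev] with t ht
    have p := mb 1 (Or.inl rfl) t ht.1 ht.2
    have p' := mb (-1) (Or.inr rfl) t ht.1 ht.2
    have s1 := (bm _ p _ p').smul (-1)
    have s2 := (bm _ p' _ p).smul (-1)
    have s3 := (bm _ p _ p).add s1.1
    have s4 := s3.1.add s2.1
    have s5 := s4.1.add (bm _ p' _ p')
    rw [(s5.1.smul _).2, s5.2, s4.2, s3.2, s2.2, s1.2]

end Flat

end Pool.Agent.MP_e62289_ag

end
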