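import Pool.Agent.MP_e62289_ag.Pub

section

open Set Filter Topology Complex MeasureTheory Metric
open scoped Manifold ContDiff ComplexConjugate NNReal ENNReal

namespace Pool.Agent.MP_e62289_ag

variable (E : Type) [NormedAddCommGroup E] [NormedSpace ℂ E] (B : Type) [EMetricSpace B]
  [ChartedSpace E B]

/-- A complete Kähler metric of bounded bisectional curvature, read in charts. -/
structure KData where
  G : B → E → E →L[ℝ] E →L[ℝ] ℝ
  Γ : B → E → E →L[ℝ] E →L[ℝ] E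
  K : ℝ
  K_nonneg : 0 ≤ K
  smooth : ∀ x, ContDiffOn ℝ ∞ (G x) (chartAt E x).target
  symm : ∀ x, ∀ z ∈ (chartAt E x).target, ∀ v w, G x z v w = G x z w v
  pos : ∀ x, ∀ z ∈ (chartAt E x).target, ∀ v, v ≠ 0 → 0 < G x z v v
  herm : ∀ x, ∀ z ∈ (chartAt E x).target, ∀ v w, G x z (I • v) (I • w) = G x z v w
  compat : ∀ x y, ∀ q ∈ (chartAt E x).source ∩ (chartAt E y).source, ∀ v w,
    G y (chartAt E y q) (fderiv ℝ (chartAt E y ∘ (chartAt E x).symm) (chartAt E x q) v)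
      (fderiv ℝ (chartAt E y ∘ (chartAt E x).symm) (chartAt E x q) w) = G x (chartAt E x q) v w
  Γ_cont : ∀ x, ContinuousOn (Γ x) (chartAt E x).target
  Γ_symm : ∀ x, ∀ z ∈ (chartAt E x).target, ∀ u v, Γ x z u v = Γ x z v u
  Γ_I : ∀ x, ∀ z ∈ (chartAt E x).target, ∀ u v, Γ x z u (I • v) = I • Γ x z u v
  metric : ∀ x, ∀ z ∈ (chartAt E x).target, ∀ u v w,
    fderiv ℝ (fun z => G x z v w) z u = G x z (Γ x z u v) w + G x z v (Γ x z u w)
  bisec : ∀ x, ∀ z ∈ (chartAt E x).target, ∀ V X,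
    |2 * G x z (Γ x z V X) (Γ x z V X) -
      (fderiv ℝ (fun z => fderiv ℝ (fun z => G x z X X) z V) z V +
        fderiv ℝ (fun z => fderiv ℝ (fun z => G x z X X) z (I • V)) z (I • V)) / 2| ≤
      K * G x z V V * G x z X X
  length : ∀ x (c c' : ℝ → E), ContinuousOn c' (Icc 0 1) →
    (∀ t ∈ Icc (0 : ℝ) 1, HasDerivWithinAt c (c' t) (Icc 0 1) t) →
    MapsTo c (Icc 0 1) (chartAt E x).target →
    edist ((chartAt E x).symm (c 0)) ((chartAt E x).symm (c 1)) ≤
      ENNReal.ofReal (∫ t in (0 : ℝ)..1, √(G x (c t) (c' t) (c' t)))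
  compact : ∀ (p : B) (r : ℝ≥0), IsCompact {q | edist p q ≤ r}
  lower : ∀ p : B, ∃ C : ℝ≥0, ∀ᶠ q in 𝓝 p, ‖chartAt E p q - chartAt E p p‖ₑ ≤ C * edist p q

variable {E B}

/-- A bounded primitive of the Kähler form, read in charts. -/
structure DData (k : KData E B) where
  α : B → E → E →L[ℝ] ℝ
  C : ℝ
  smooth : ∀ x, ContDiffOn ℝ 1 (α x) (chartAt E x).target
  compat : ∀ x y, ∀ q ∈ (chartAt E x).source ∩ (chartAt E y).source, ∀ v,
    α y (chartAt E y q) (fderiv ℝ (chartAt E y ∘ (chartAt E x).symm) (chartAt E x q) v) =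
      α x (chartAt E x q) v
  bound : ∀ x, ∀ z ∈ (chartAt E x).target, ∀ v, |α x z v| ≤ C * √(k.G x z v v)
  d : ∀ x, ∀ z ∈ (chartAt E x).target, ∀ v w,
    fderiv ℝ (α x) z v w - fderiv ℝ (α x) z w v = k.G x z (I • v) w

variable (E) in
/-- `h` is holomorphic along holomorphic discs -/
def DiscHol {B : Type} [TopologicalSpace B] [ChartedSpace E B] (h : B → ℂ) : Prop :=
  ∀ (x : B) (φ : ℂ → E) (ζ₀ : ℂ), AnalyticAt ℂ φ ζ₀ → φ ζ₀ ∈ (chartAt E x).target →
    DifferentiableAt ℂ (fun ζ => h ((chartAt E x).symm (φ ζ))) ζ₀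

variable (E) in
/-- paths from `p` made of `n` arcs of class `C¹`, each in one chart -/
structure Chain (n : ℕ) (p : B) where
  x : ℕ → B
  q : ℕ → B
  c : ℕ → ℝ → E
  c' : ℕ → ℝ → E
  q0 : q 0 = p
  cont : ∀ j < n, ContinuousOn (c' j) (Icc 0 1)
  der : ∀ j < n, ∀ t ∈ Icc (0 : ℝ) 1, HasDerivWithinAt (c j) (c' j t) (Icc 0 1) t
  maps : ∀ j < n, MapsTo (c j) (Icc 0 1) (chartAt E (x j)).target
  left : ∀ j < n, (chartAt E (x j)).symm (c j 0) = q j
  right : ∀ j < n, (chartAt E (x j)).symm (c j 1) = q (j + 1)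

/-- energy of one arc -/
noncomputable def Chain.seg (k : KData E B) {n : ℕ} {p : B} (γ : Chain E n p) (j : ℕ) : ℝ :=
  ∫ t in (0 : ℝ)..1, k.G (γ.x j) (γ.c j t) (γ.c' j t) (γ.c' j t)

/-- energy of a chain, each arc being run through in time `1 / n` -/
noncomputable def Chain.energy (k : KData E B) {n : ℕ} {p : B} (γ : Chain E n p) : ℝ :=
  n * ∑ j ∈ Finset.range n, γ.seg k j

/-- uniform bounds on the metric near the point `z` of the chart at `y` -/
def KData.Bd (k : KData E B) (r M : ℝ) (y : B) (z : E) : Prop :=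
  closedBall z r ⊆ (chartAt E y).target ∧ ∀ w ∈ closedBall z r,
    (∀ v, ‖v‖ ^ 2 ≤ M * k.G y w v v) ∧ (∀ i ≤ 3, ‖iteratedFDeriv ℝ i (k.G y) w‖ ≤ M) ∧
      ‖k.Γ y w‖ ≤ M

end Pool.Agent.MP_e62289_ag

end

section

open Set Filter Topology Complex MeasureTheory Metric
open scoped Manifold ContDiff ComplexConjugate NNReal ENNReal

namespace Pool.Agent.MP_e62289_ag

section gen
variable {E F : Type} [NormedAddCommGroup E] [NormedSpace ℝ E] [NormedAddCommGroup F]
  [NormedSpace ℝ F]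

theorem s2a_le (n : ℕ) : (n : WithTop ℕ∞) ≤ (∞ : WithTop ℕ∞) := by exact_mod_cast le_top

theorem s2a_rem {f : E → ℝ} {z s : E} {C : ℝ} (n : ℕ)
    (hf : ∀ t ∈ Icc (0 : ℝ) 1, ContDiffAt ℝ ∞ f (z + t • s))
    (hC : ∀ t ∈ Icc (0 : ℝ) 1, |iteratedFDeriv ℝ (n + 1) f (z + t • s) (fun _ => s)| ≤ C) :
    |f (z + s) - ∑ k ∈ Finset.range (n + 1),
      (k.factorial : ℝ)⁻¹ * iteratedFDeriv ℝ k f z (fun _ => s)| ≤ C := by
  have h := map_add_eq_sum_add_integral_iteratedFDeriv (f := f) (x := z) (y := s) (n := n)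
    fun t ht => (hf t ht).of_le (by exact_mod_cast le_top)
  simp only [smul_eq_mul] at h
  rw [h, add_sub_cancel_left, abs_mul]
  have h0 : 0 ≤ C := (abs_nonneg _).trans (hC 0 (left_mem_Icc.2 zero_le_one))
  have h1 : |(n.factorial : ℝ)⁻¹| ≤ 1 := by
    rw [abs_of_nonneg (by positivity)]
    exact inv_le_one_of_one_le₀ (by exact_mod_cast n.factorial_pos)
  have h2 := intervalIntegral.norm_integral_le_of_norm_le_const (a := 0) (b := 1) (C := C)
    (f := fun t : ℝ => (1 - t) ^ n * iteratedFDeriv ℝ (n + 1) f (z + t • s) (fun _ => s))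
    fun t ht => by
      rw [uIoc_of_le zero_le_one] at ht
      rw [Real.norm_eq_abs, abs_mul, abs_pow, abs_of_nonneg (sub_nonneg.2 ht.2)]
      have h3 : (1 - t) ^ n ≤ 1 := pow_le_one₀ (sub_nonneg.2 ht.2) (by linarith [ht.1])
      exact (mul_le_of_le_one_left (abs_nonneg _) h3).trans (hC t ⟨ht.1.le, ht.2⟩)
  rw [sub_zero, abs_one, mul_one, Real.norm_eq_abs] at h2
  exact (mul_le_of_le_one_left (abs_nonneg _) h1).trans h2

theorem s2a_two {f : E → ℝ} {z : E} (hf : ContDiffAt ℝ ∞ f z) (s s' : E) :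
    fderiv ℝ (fun w => fderiv ℝ f w s') z s = iteratedFDeriv ℝ 2 f z ![s, s'] := by
  have h : DifferentiableAt ℝ (fderiv ℝ f) z :=
    (hf.fderiv_right (m := 1) (s2a_le 2)).differentiableAt one_ne_zero
  rw [iteratedFDeriv_two_apply, fderiv_clm_apply h (differentiableAt_const _)]
  simp

theorem s2a_comp {g : E → F} {z : E} (hg : ContDiffAt ℝ ∞ g z) (L : F →L[ℝ] ℝ) (i : ℕ)
    (m : Fin i → E) :
    iteratedFDeriv ℝ i (fun w => L (g w)) z m = L (iteratedFDeriv ℝ i g z m) := by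
  have := L.iteratedFDeriv_comp_left hg (i := i) (by exact_mod_cast le_top)
  exact congrArg (fun T : ContinuousMultilinearMap ℝ (fun _ : Fin i => E) ℝ => T m) this

/-- evaluation of a bilinear form -/
noncomputable def s2aEv (X Y : E) : (E →L[ℝ] E →L[ℝ] ℝ) →L[ℝ] ℝ :=
  (ContinuousLinearMap.apply ℝ ℝ Y).comp (ContinuousLinearMap.apply ℝ (E →L[ℝ] ℝ) X)

theorem s2a_ev {g : E → E →L[ℝ] E →L[ℝ] ℝ} {z : E} (hg : ContDiffAt ℝ ∞ g z) (X Y : E) (i : ℕ)
    (m : Fin i → E) :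
    iteratedFDeriv ℝ i (fun w => g w X Y) z m = iteratedFDeriv ℝ i g z m X Y :=
  s2a_comp hg (s2aEv X Y) i m

theorem s2a_cd {g : E → E →L[ℝ] E →L[ℝ] ℝ} {z : E} (hg : ContDiffAt ℝ ∞ g z) (X Y : E) :
    ContDiffAt ℝ ∞ (fun w => g w X Y) z :=
  (hg.clm_apply contDiffAt_const).clm_apply contDiffAt_const

theorem s2a_bd {g : E → E →L[ℝ] E →L[ℝ] ℝ} {z : E} {M : ℝ} {i : ℕ}
    (hM : ‖iteratedFDeriv ℝ i g z‖ ≤ M) (m : Fin i → E) (X Y : E) :
    |iteratedFDeriv ℝ i g z m X Y| ≤ M * (∏ j, ‖m j‖) * ‖X‖ * ‖Y‖ := by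
  have h1 := (iteratedFDeriv ℝ i g z m).le_opNorm₂ X Y
  have h2 := (iteratedFDeriv ℝ i g z).le_opNorm m
  have h3 : 0 ≤ ∏ j, ‖m j‖ := Finset.prod_nonneg fun _ _ => norm_nonneg _
  rw [Real.norm_eq_abs] at h1
  refine h1.trans ?_
  gcongr
  exact h2.trans (mul_le_mul_of_nonneg_right hM h3)

end gen

variable {E : Type} [NormedAddCommGroup E] [NormedSpace ℂ E] [FiniteDimensional ℂ E]
  {B : Type} [EMetricSpace B] [ChartedSpace E B]

omit [FiniteDimensional ℂ E] in
theorem s2a_at {k : KData E B} {r M : ℝ} {y : B} {z w : E} (h : k.Bd r M y z)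
    (hw : w ∈ closedBall z r) : ContDiffAt ℝ ∞ (k.G y) w :=
  (k.smooth y).contDiffAt ((chartAt E y).open_target.mem_nhds (h.1 hw))

omit [FiniteDimensional ℂ E] in
/-- Taylor expansion of the metric coefficients -/
theorem KData.Bd.taylor {k : KData E B} {r M : ℝ} {y : B} {z : E} (h : k.Bd r M y z) {s : E}
    (hs : ‖s‖ ≤ r) (X Y : E) :
    |k.G y (z + s) X Y - k.G y z X Y| ≤ M * ‖s‖ * ‖X‖ * ‖Y‖ ∧
    |k.G y (z + s) X Y - k.G y z X Y - fderiv ℝ (fun w => k.G y w X Y) z s| ≤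
      M * ‖s‖ ^ 2 * ‖X‖ * ‖Y‖ ∧
    |k.G y (z + s) X Y - k.G y z X Y - fderiv ℝ (fun w => k.G y w X Y) z s -
      fderiv ℝ (fun w => fderiv ℝ (fun w => k.G y w X Y) w s) z s / 2| ≤
      M * ‖s‖ ^ 3 * ‖X‖ * ‖Y‖ := by
  have hm : ∀ t ∈ Icc (0 : ℝ) 1, z + t • s ∈ closedBall z r := fun t ht => by
    rw [mem_closedBall, dist_self_add_left, norm_smul, Real.norm_eq_abs, abs_of_nonneg ht.1]
    exact (mul_le_of_le_one_left (norm_nonneg _) ht.2).trans hs
  have key : ∀ n, n + 1 ≤ 3 → |k.G y (z + s) X Y - ∑ j ∈ Finset.range (n + 1),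
      (j.factorial : ℝ)⁻¹ * iteratedFDeriv ℝ j (fun w => k.G y w X Y) z (fun _ => s)| ≤
      M * ‖s‖ ^ (n + 1) * ‖X‖ * ‖Y‖ := fun n hn =>
    s2a_rem (f := fun w => k.G y w X Y) n (fun t ht => s2a_cd (s2a_at h (hm t ht)) X Y)
      fun t ht => by
        rw [s2a_ev (s2a_at h (hm t ht))]
        simpa using s2a_bd ((h.2 _ (hm t ht)).2.1 _ hn) (fun _ => s) X Y
  have hz : z ∈ closedBall z r := mem_closedBall_self ((norm_nonneg _).trans hs)
  have e2 : iteratedFDeriv ℝ 2 (fun w => k.G y w X Y) z (fun _ => s) =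
      fderiv ℝ (fun w => fderiv ℝ (fun w => k.G y w X Y) w s) z s := by
    rw [s2a_two (s2a_cd (s2a_at h hz) X Y)]
    congr 1
    funext j
    fin_cases j <;> rfl
  have k0 := key 0 (by norm_num)
  have k1 := key 1 (by norm_num)
  have k2 := key 2 (by norm_num)
  simp only [Finset.sum_range_succ, Finset.sum_range_zero, iteratedFDeriv_zero_apply,
    iteratedFDeriv_one_apply, e2, Nat.factorial, zero_add] at k0 k1 k2
  refine ⟨?_, ?_, ?_⟩
  · convert k0 using 2 <;> norm_num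
  · convert k1 using 2
    norm_num
    ring
  · convert k2 using 2
    norm_num
    ring

omit [FiniteDimensional ℂ E] in
/-- the first two derivatives as bounded multilinear maps -/
theorem KData.Bd.exists_jet {k : KData E B} {r M : ℝ} {y : B} {z : E} (h : k.Bd r M y z)
    (hr : 0 ≤ r) : ∃ (D₁ : E →L[ℝ] E →L[ℝ] E →L[ℝ] ℝ) (D₂ : E → E → E →L[ℝ] E →L[ℝ] ℝ),
      (∀ s X Y, fderiv ℝ (fun w => k.G y w X Y) z s = D₁ s X Y) ∧
      (∀ s s' X Y, fderiv ℝ (fun w => fderiv ℝ (fun w => k.G y w X Y) w s') z s = D₂ s s' X Y) ∧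
      (∀ s s' s'', D₂ (s + s') s'' = D₂ s s'' + D₂ s' s'') ∧
      (∀ (c : ℝ) s s', D₂ (c • s) s' = c • D₂ s s') ∧ (∀ s s', D₂ s s' = D₂ s' s) ∧
      (∀ X Y, |k.G y z X Y| ≤ M * ‖X‖ * ‖Y‖) ∧ (∀ s X Y, |D₁ s X Y| ≤ M * ‖s‖ * ‖X‖ * ‖Y‖) ∧
      ∀ s s' X Y, |D₂ s s' X Y| ≤ M * ‖s‖ * ‖s'‖ * ‖X‖ * ‖Y‖ := by
  have hz : z ∈ closedBall z r := mem_closedBall_self hr
  have hg := s2a_at h hz
  have hM := (h.2 z hz).2.1
  refine ⟨fderiv ℝ (k.G y) z, fun s s' => iteratedFDeriv ℝ 2 (k.G y) z ![s, s'],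
    fun s X Y => ?_, fun s s' X Y => ?_, fun s s' s'' => ?_, fun c s s' => ?_, fun s s' => ?_,
    fun X Y => ?_, fun s X Y => ?_, fun s s' X Y => ?_⟩
  · simpa only [iteratedFDeriv_one_apply] using s2a_ev hg X Y 1 fun _ => s
  · rw [s2a_two (s2a_cd hg X Y), s2a_ev hg]
  · exact (iteratedFDeriv ℝ 2 (k.G y) z).cons_add ![s''] s s'
  · exact (iteratedFDeriv ℝ 2 (k.G y) z).cons_smul ![s'] c s
  · ext X Y
    rw [← s2a_ev hg, ← s2a_ev hg]
    exact IsSymmSndFDerivAt.iteratedFDeriv_cons (hf := (s2a_cd hg X Y).isSymmSndFDerivAt (by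
      rw [minSmoothness_of_isRCLikeNormedField]
      exact s2a_le 2))
  · simpa using s2a_bd (hM 0 (by norm_num)) (fun _ => 0) X Y
  · simpa using s2a_bd (hM 1 (by norm_num)) (fun _ => s) X Y
  · simpa [mul_assoc] using s2a_bd (hM 2 (by norm_num)) ![s, s'] X Y

end Pool.Agent.MP_e62289_ag

end

section

open Set Filter Topology Complex MeasureTheory Metric
open scoped Manifold ContDiff ComplexConjugate NNReal ENNReal

namespace Pool.Agent.MP_e62289_ag

/-- a cut-off factor -/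
noncomputable def S1a_cut (R s : ℝ) : ℝ := max 0 (min 1 (R + 1 - s))

theorem S1a_cut_nonneg (R s : ℝ) : 0 ≤ S1a_cut R s := le_max_left _ _

theorem S1a_cut_le_one (R s : ℝ) : S1a_cut R s ≤ 1 := max_le zero_le_one (min_le_left _ _)

theorem S1a_cut_one {R s : ℝ} (h : s ≤ R) : S1a_cut R s = 1 := by
  unfold S1a_cut
  rw [min_eq_left (by linarith), max_eq_right zero_le_one]

theorem S1a_cut_mul {R s : ℝ} (hR : 0 ≤ R) : S1a_cut R s * s ≤ R + 1 := by
  rcases le_total s (R + 1) with h | h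
  · rcases le_total 0 s with h0 | h0
    · nlinarith [S1a_cut_nonneg R s, S1a_cut_le_one R s]
    · nlinarith [S1a_cut_nonneg R s, S1a_cut_le_one R s]
  · have : S1a_cut R s = 0 := by
      unfold S1a_cut
      exact max_eq_left ((min_le_right _ _).trans (by linarith))
    rw [this]
    linarith

theorem S1a_cut_lip (R s t : ℝ) : |S1a_cut R s - S1a_cut R t| ≤ |s - t| := by
  unfold S1a_cut
  have h1 : |max 0 (min 1 (R + 1 - s)) - max 0 (min 1 (R + 1 - t))| ≤
      max |(0 : ℝ) - 0| |min 1 (R + 1 - s) - min 1 (R + 1 - t)| := abs_max_sub_max_le_max _ _ _ _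
  have h2 : |min 1 (R + 1 - s) - min 1 (R + 1 - t)| ≤
      max |(1 : ℝ) - 1| |(R + 1 - s) - (R + 1 - t)| := abs_min_sub_min_le_max _ _ _ _
  have h3 : |(R + 1 - s) - (R + 1 - t)| = |s - t| := by
    rw [abs_sub_comm s t]
    congr 1
    ring
  rw [h3] at h2
  simp only [sub_self, abs_zero] at h1 h2
  exact h1.trans (max_le (abs_nonneg _) (h2.trans (max_le (abs_nonneg _) le_rfl)))

/-- linear ordinary differential equations with continuous coefficients -/
theorem lin_ode {F : Type} [NormedAddCommGroup F] [NormedSpace ℝ F] [CompleteSpace F]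
    {A : ℝ → F →L[ℝ] F} {b : ℝ → F} (hA : ContinuousOn A (Icc 0 1)) (hb : ContinuousOn b (Icc 0 1))
    (v : F) : ∃ V : ℝ → F, V 0 = v ∧
      ∀ t ∈ Icc (0 : ℝ) 1, HasDerivWithinAt V (b t - A t (V t)) (Icc 0 1) t := by
  obtain ⟨M, hM⟩ := (isCompact_Icc (a := (0 : ℝ)) (b := 1)).exists_bound_of_continuousOn hA
  obtain ⟨N, hN⟩ := (isCompact_Icc (a := (0 : ℝ)) (b := 1)).exists_bound_of_continuousOn hb
  have hM0 : 0 ≤ M := (norm_nonneg _).trans (hM 0 ⟨le_rfl, zero_le_one⟩)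
  have hN0 : 0 ≤ N := (norm_nonneg _).trans (hN 0 ⟨le_rfl, zero_le_one⟩)
  set R := gronwallBound ‖v‖ M N 1 with hR
  have hR0 : 0 ≤ R := by
    have := gronwallBound_mono (norm_nonneg v) hN0 hM0 (zero_le_one (α := ℝ))
    rw [gronwallBound_x0] at this
    exact (norm_nonneg v).trans this
  let ρ : F → F := fun x => S1a_cut R ‖x‖ • x
  have hρ1 : ∀ x, ‖ρ x‖ ≤ ‖x‖ := fun x => by
    rw [norm_smul, Real.norm_of_nonneg (S1a_cut_nonneg _ _)]
    exact mul_le_of_le_one_left (norm_nonneg _) (S1a_cut_le_one _ _)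
  have hρ2 : ∀ x, ‖ρ x‖ ≤ R + 1 := fun x => by
    rw [norm_smul, Real.norm_of_nonneg (S1a_cut_nonneg _ _)]
    exact S1a_cut_mul hR0
  have hlin : ∀ t ∈ Icc (0 : ℝ) 1, ∀ x, ‖b t - A t x‖ ≤ M * ‖x‖ + N := fun t ht x => by
    have h1 := norm_sub_le (b t) (A t x)
    have h2 := (A t).le_opNorm x
    have h3 := mul_le_mul_of_nonneg_right (hM t ht) (norm_nonneg x)
    linarith [hN t ht]
  let L : ℝ≥0 := ⟨M * (R + 1) + N, by positivity⟩
  let K : ℝ≥0 := ⟨M * (1 + (‖v‖ + L)), by positivity⟩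
  have hpl : IsPicardLindelof (fun t x => b t - A t (ρ x)) (tmin := 0) (tmax := 1)
      ⟨0, le_rfl, zero_le_one⟩ v L 0 L K :=
    { lipschitzOnWith := fun t ht => LipschitzOnWith.of_dist_le_mul fun x _ y hy => by
        have hy' : ‖y‖ ≤ ‖v‖ + L := by
          have h1 := norm_le_norm_add_norm_sub' y v
          rw [mem_closedBall, dist_eq_norm] at hy
          linarith
        have h1 : ρ x - ρ y = S1a_cut R ‖x‖ • (x - y) + (S1a_cut R ‖x‖ - S1a_cut R ‖y‖) • y := by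
          simp only [ρ, smul_sub, sub_smul]
          abel
        have h2 : ‖ρ x - ρ y‖ ≤ (1 + (‖v‖ + L)) * ‖x - y‖ := by
          rw [h1]
          refine (norm_add_le _ _).trans ?_
          rw [norm_smul, norm_smul, Real.norm_of_nonneg (S1a_cut_nonneg _ _), Real.norm_eq_abs]
          have h3 := (S1a_cut_lip R ‖x‖ ‖y‖).trans (abs_norm_sub_norm_le x y)
          have h4 := mul_le_mul h3 hy' (norm_nonneg _) (norm_nonneg _)
          have h5 := mul_le_mul_of_nonneg_right (S1a_cut_le_one R ‖x‖) (norm_nonneg (x - y))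
          linarith
        rw [dist_eq_norm, dist_eq_norm]
        have h6 : b t - A t (ρ x) - (b t - A t (ρ y)) = -(A t (ρ x - ρ y)) := by
          rw [map_sub]
          abel
        rw [h6, norm_neg]
        refine ((A t).le_opNorm _).trans ?_
        change _ ≤ M * (1 + (‖v‖ + L)) * ‖x - y‖
        rw [mul_assoc]
        exact mul_le_mul (hM t ht) h2 (norm_nonneg _) hM0
      continuousOn := fun x _ => hb.sub (hA.clm_apply continuousOn_const)
      norm_le := fun t ht x _ => (hlin t ht _).trans (by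
        change _ ≤ M * (R + 1) + N
        gcongr
        exact hρ2 x)
      mul_max_le := by simp }
  obtain ⟨V, h0, hV⟩ := hpl.exists_eq_forall_mem_Icc_hasDerivWithinAt₀
  have h0' : V 0 = v := h0
  refine ⟨V, h0', fun t ht => ?_⟩
  have hcont : ContinuousOn V (Icc 0 1) := fun s hs => (hV s hs).continuousWithinAt
  have h1 := norm_le_gronwallBound_of_norm_deriv_right_le (δ := ‖v‖) (K := M) (ε := N) hcont
    (f' := fun s => b s - A s (ρ (V s)))
    (fun s hs => (hV s (Ico_subset_Icc_self hs)).mono_of_mem_nhdsWithin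
      (Icc_mem_nhdsGE_of_mem hs)) (le_of_eq (congrArg _ h0'))
    (fun s hs => (hlin s (Ico_subset_Icc_self hs) _).trans (by gcongr; exact hρ1 _)) t ht
  have h2 : ‖V t‖ ≤ R :=
    h1.trans (gronwallBound_mono (norm_nonneg v) hN0 hM0 (by linarith [ht.2]))
  have h3 : ρ (V t) = V t := by
    simp only [ρ, S1a_cut_one h2, one_smul]
  have h4 := hV t ht
  rwa [h3] at h4

theorem S1a_cs {F : Type} [NormedAddCommGroup F] [NormedSpace ℝ F] (G : F →L[ℝ] F →L[ℝ] ℝ)
    (hs : ∀ v w, G v w = G w v) (hp : ∀ v, 0 ≤ G v v) (v w : F) :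
    G v w ≤ √(G v v) * √(G w w) := by
  have h : ∀ t : ℝ, 0 ≤ G v v * (t * t) + (2 * G v w) * t + G w w := fun t => by
    have h1 := hp (t • v + w)
    simp only [map_add, map_smul, add_apply, smul_apply,
      smul_eq_mul, hs w v] at h1
    linarith
  have h2 := discrim_le_zero h
  rw [discrim] at h2
  rw [← Real.sqrt_mul (hp v)]
  refine (le_abs_self _).trans (Real.abs_le_sqrt ?_)
  nlinarith

theorem S1a_int_sqrt {f : ℝ → ℝ} (hf : ContinuousOn f (Icc 0 1)) (h0 : ∀ t ∈ Icc (0 : ℝ) 1, 0 ≤ f t) :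
    ∫ s in (0 : ℝ)..1, √(f s) ≤ √(∫ s in (0 : ℝ)..1, f s) := by
  have hi : IntervalIntegrable f volume 0 1 :=
    ContinuousOn.intervalIntegrable (by rwa [uIcc_of_le zero_le_one])
  have hi2 : IntervalIntegrable (fun s => √(f s)) volume 0 1 :=
    ContinuousOn.intervalIntegrable (by rw [uIcc_of_le zero_le_one]; exact hf.sqrt)
  set m := ∫ s in (0 : ℝ)..1, √(f s) with hm
  have h1 : ∫ s in (0 : ℝ)..1, (2 * m * √(f s) - m ^ 2) ≤ ∫ s in (0 : ℝ)..1, f s := by
    refine intervalIntegral.integral_mono_on zero_le_one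
      ((hi2.const_mul _).sub intervalIntegrable_const) hi fun s hs => ?_
    have := Real.sq_sqrt (h0 s hs)
    nlinarith [sq_nonneg (√(f s) - m)]
  rw [intervalIntegral.integral_sub (hi2.const_mul _) intervalIntegrable_const,
    intervalIntegral.integral_const_mul, intervalIntegral.integral_const, ← hm] at h1
  refine (le_abs_self _).trans (Real.abs_le_sqrt ?_)
  simp only [sub_zero, smul_eq_mul, one_mul] at h1
  nlinarith

variable {E : Type} [NormedAddCommGroup E] [NormedSpace ℂ E] [FiniteDimensional ℂ E]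
  {B : Type} [EMetricSpace B] [ChartedSpace E B]

omit [FiniteDimensional ℂ E] in
theorem S1a_nonneg (k : KData E B) (x : B) {z : E} (hz : z ∈ (chartAt E x).target) (v : E) :
    0 ≤ k.G x z v v := by
  by_cases h : v = 0
  · simp [h]
  · exact (k.pos x z hz v h).le

omit [FiniteDimensional ℂ E] in
theorem S1a_deriv (k : KData E B) (x : B) {c V : ℝ → E} {c' : E} {s : Set ℝ} {t : ℝ}
    (hd : HasDerivWithinAt c c' s t) (hm : c t ∈ (chartAt E x).target)
    (hV : HasDerivWithinAt V (c' - k.Γ x (c t) c' (V t)) s t) :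
    HasDerivWithinAt (fun u => k.G x (c u) (V u) (V u)) (2 * k.G x (c t) c' (V t)) s t := by
  have hG : DifferentiableAt ℝ (k.G x) (c t) :=
    ((k.smooth x).contDiffAt ((chartAt E x).open_target.mem_nhds hm)).differentiableAt (by simp)
  have h1 : HasDerivWithinAt (fun u => k.G x (c u)) (fderiv ℝ (k.G x) (c t) c') s t :=
    HasFDerivAt.comp_hasDerivWithinAt (𝕜 := ℝ) (F := E) (E := E →L[ℝ] E →L[ℝ] ℝ) (l := k.G x) t
      hG.hasFDerivAt hd
  have h2 := (h1.clm_apply hV).clm_apply hV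
  have h3 : fderiv ℝ (fun z => k.G x z (V t) (V t)) (c t) c' =
      fderiv ℝ (k.G x) (c t) c' (V t) (V t) := by
    have h4 := ((hG.hasFDerivAt.clm_apply (hasFDerivAt_const (V t) (c t))).clm_apply
      (hasFDerivAt_const (V t) (c t))).fderiv
    rw [h4]
    simp
  have h5 := k.metric x (c t) hm c' (V t) (V t)
  rw [h3] at h5
  refine h2.congr_deriv ?_
  simp only [add_apply, map_sub, sub_apply, h5]
  rw [k.symm x (c t) hm (V t) c']
  ring

/-- growth of a field with covariant derivative `c'` -/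
theorem field_norm (k : KData E B) (x : B) {c c' V : ℝ → E} (hc : ContinuousOn c' (Icc 0 1))
    (hd : ∀ t ∈ Icc (0 : ℝ) 1, HasDerivWithinAt c (c' t) (Icc 0 1) t)
    (hm : MapsTo c (Icc 0 1) (chartAt E x).target)
    (hV : ∀ t ∈ Icc (0 : ℝ) 1,
      HasDerivWithinAt V (c' t - k.Γ x (c t) (c' t) (V t)) (Icc 0 1) t) :
    ∀ t ∈ Icc (0 : ℝ) 1, √(k.G x (c t) (V t) (V t)) ≤ √(k.G x (c 0) (V 0) (V 0)) +
      √(∫ s in (0 : ℝ)..1, k.G x (c s) (c' s) (c' s)) := by
  intro t ht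
  set g : ℝ → ℝ := fun u => k.G x (c u) (V u) (V u) with hg
  set e : ℝ → ℝ := fun u => k.G x (c u) (c' u) (c' u) with he
  have hcc : ContinuousOn c (Icc 0 1) := fun s hs => (hd s hs).continuousWithinAt
  have hGc : ContinuousOn (fun u => k.G x (c u)) (Icc 0 1) :=
    (k.smooth x).continuousOn.comp hcc hm
  have hec : ContinuousOn e (Icc 0 1) := (hGc.clm_apply hc).clm_apply hc
  have he0 : ∀ s ∈ Icc (0 : ℝ) 1, 0 ≤ e s := fun s hs => S1a_nonneg k x (hm hs) _
  have hg0 : ∀ s ∈ Icc (0 : ℝ) 1, 0 ≤ g s := fun s hs => S1a_nonneg k x (hm hs) _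
  have hgd : ∀ s ∈ Icc (0 : ℝ) 1,
      HasDerivWithinAt g (2 * k.G x (c s) (c' s) (V s)) (Icc 0 1) s := fun s hs =>
    S1a_deriv k x (hd s hs) (hm hs) (hV s hs)
  have hsc : ContinuousOn (fun s => √(e s)) (Icc 0 1) := hec.sqrt
  have hsub : Icc 0 t ⊆ Icc (0 : ℝ) 1 := Icc_subset_Icc le_rfl ht.2
  have hi1 : IntervalIntegrable (fun s => √(e s)) volume 0 1 :=
    ContinuousOn.intervalIntegrable (by rwa [uIcc_of_le zero_le_one])
  have hit : IntervalIntegrable (fun s => √(e s)) volume 0 t :=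
    ContinuousOn.intervalIntegrable (by rw [uIcc_of_le ht.1]; exact hsc.mono hsub)
  have key : ∀ ε : ℝ, 0 < ε → √(g t + ε) - √(g 0 + ε) ≤ ∫ s in (0 : ℝ)..t, √(e s) := by
    intro ε hε
    have hpos : ∀ s ∈ Icc (0 : ℝ) 1, 0 < g s + ε := fun s hs => by linarith [hg0 s hs]
    have hder : ∀ s ∈ Icc (0 : ℝ) 1, HasDerivWithinAt (fun u => √(g u + ε))
        (2 * k.G x (c s) (c' s) (V s) / (2 * √(g s + ε))) (Icc 0 1) s := fun s hs =>
      ((hgd s hs).add_const ε).sqrt (hpos s hs).ne'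
    refine intervalIntegral.sub_le_integral_of_hasDeriv_right_of_le (g := fun u => √(g u + ε))
      (g' := fun s => 2 * k.G x (c s) (c' s) (V s) / (2 * √(g s + ε))) ht.1
      (fun s hs => ((hder s (hsub hs)).continuousWithinAt).mono hsub) (fun s hs => ?_)
      ((intervalIntegrable_iff_integrableOn_Icc_of_le ht.1).1 hit) (fun s hs => ?_)
    · have hs1 : s ∈ Ioo (0 : ℝ) 1 := ⟨hs.1, hs.2.trans_le ht.2⟩
      exact ((hder s (Ioo_subset_Icc_self hs1)).hasDerivAt
        (Icc_mem_nhds hs1.1 hs1.2)).hasDerivWithinAt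
    · have hs1 : s ∈ Icc (0 : ℝ) 1 := hsub (Ioo_subset_Icc_self hs)
      have h1 := S1a_cs (k.G x (c s)) (k.symm x _ (hm hs1)) (S1a_nonneg k x (hm hs1)) (c' s) (V s)
      have h2 : 0 < √(g s + ε) := Real.sqrt_pos.2 (hpos s hs1)
      have h3 : √(g s) ≤ √(g s + ε) := Real.sqrt_le_sqrt (by linarith)
      rw [mul_div_mul_left _ _ two_ne_zero, div_le_iff₀ h2]
      exact h1.trans (mul_le_mul_of_nonneg_left h3 (Real.sqrt_nonneg _))
  have h1 : ∫ s in (0 : ℝ)..t, √(e s) ≤ ∫ s in (0 : ℝ)..1, √(e s) :=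
    intervalIntegral.integral_mono_interval le_rfl ht.1 ht.2
      (Eventually.of_forall fun s => Real.sqrt_nonneg _) hi1
  have h2 := S1a_int_sqrt hec he0
  refine le_of_forall_pos_le_add fun δ hδ => ?_
  have h3 := key (δ ^ 2) (by positivity)
  have h4 : √(g t) ≤ √(g t + δ ^ 2) := Real.sqrt_le_sqrt (by nlinarith)
  have h5 : √(g 0 + δ ^ 2) ≤ √(g 0) + δ := by
    have h6 := hg0 0 ⟨le_rfl, zero_le_one⟩
    refine Real.sqrt_le_iff.2 ⟨by positivity, ?_⟩
    nlinarith [Real.sq_sqrt h6, Real.sqrt_nonneg (g 0)]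
  change √(g t) ≤ √(g 0) + √(∫ s in (0 : ℝ)..1, e s) + δ
  linarith

end Pool.Agent.MP_e62289_ag

end

section

open Set Filter Topology Complex MeasureTheory Metric
open scoped Manifold ContDiff ComplexConjugate NNReal ENNReal

namespace Pool.Agent.MP_e62289_ag

theorem S1b_cs {h : ℝ → ℝ} (hc : ContinuousOn h (Icc 0 1)) (h0 : ∀ s ∈ Icc (0 : ℝ) 1, 0 ≤ h s) :
    ∫ s in (0 : ℝ)..1, √(h s) ≤ √(∫ s in (0 : ℝ)..1, h s) := by
  have e : uIcc (0 : ℝ) 1 = Icc 0 1 := uIcc_of_le zero_le_one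
  have i1 : IntervalIntegrable h volume 0 1 := (e ▸ hc).intervalIntegrable
  have i2 : IntervalIntegrable (fun s => √(h s)) volume 0 1 := (e ▸ hc.sqrt).intervalIntegrable
  set a := ∫ s in (0 : ℝ)..1, √(h s) with ha
  refine Real.le_sqrt_of_sq_le ?_
  have h1 : ∫ s in (0 : ℝ)..1, (2 * a * √(h s) - a ^ 2) ≤ ∫ s in (0 : ℝ)..1, h s := by
    refine intervalIntegral.integral_mono_on zero_le_one
      ((i2.const_mul _).sub intervalIntegrable_const) i1 fun s hs => ?_
    have := Real.sq_sqrt (h0 s hs)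
    nlinarith [sq_nonneg (√(h s) - a)]
  rw [intervalIntegral.integral_sub (i2.const_mul _) intervalIntegrable_const,
    intervalIntegral.integral_const_mul, ← ha, intervalIntegral.integral_const] at h1
  simp only [sub_zero, smul_eq_mul, one_mul] at h1
  nlinarith

variable {E : Type} [NormedAddCommGroup E] [NormedSpace ℂ E] [FiniteDimensional ℂ E]
  {B : Type} [EMetricSpace B] [ChartedSpace E B]

omit [FiniteDimensional ℂ E] in
theorem S1b_nonneg (k : KData E B) {x : B} {z : E} (hz : z ∈ (chartAt E x).target) (v : E) :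
    0 ≤ k.G x z v v := by
  rcases eq_or_ne v 0 with rfl | hv
  · simp
  · exact (k.pos x z hz v hv).le

omit [FiniteDimensional ℂ E] in
theorem S1b_cont (k : KData E B) {n : ℕ} {p : B} (γ : Chain E n p) {j : ℕ} (hj : j < n) :
    ContinuousOn (fun t => k.G (γ.x j) (γ.c j t) (γ.c' j t) (γ.c' j t)) (Icc 0 1) := by
  have h1 : ContinuousOn (γ.c j) (Icc 0 1) := fun t ht => (γ.der j hj t ht).continuousWithinAt
  have h2 : ContinuousOn (fun t => k.G (γ.x j) (γ.c j t)) (Icc 0 1) :=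
    (k.smooth (γ.x j)).continuousOn.comp h1 (γ.maps j hj)
  exact (h2.clm_apply (γ.cont j hj)).clm_apply (γ.cont j hj)

omit [FiniteDimensional ℂ E] in
theorem Chain.seg_nonneg (k : KData E B) {n : ℕ} {p : B} (γ : Chain E n p) {j : ℕ} (hj : j < n) :
    0 ≤ γ.seg k j :=
  intervalIntegral.integral_nonneg zero_le_one fun _ ht => S1b_nonneg k (γ.maps j hj ht) _

omit [FiniteDimensional ℂ E] in
/-- points on one arc are close -/
theorem Chain.edist_seg (k : KData E B) {n : ℕ} {p : B} (γ : Chain E n p) {j : ℕ} (hj : j < n)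
    {t : ℝ} (ht : t ∈ Icc (0 : ℝ) 1) :
    edist (γ.q j) ((chartAt E (γ.x j)).symm (γ.c j t)) ≤ ENNReal.ofReal √(γ.seg k j) := by
  have hm : MapsTo (fun s => t * s) (Icc (0 : ℝ) 1) (Icc (0 : ℝ) 1) := fun s hs =>
    ⟨mul_nonneg ht.1 hs.1, mul_le_one₀ ht.2 hs.1 hs.2⟩
  have hmc : ContinuousOn (fun s : ℝ => t * s) (Icc (0 : ℝ) 1) := by fun_prop
  have h := k.length (γ.x j) (fun s => γ.c j (t * s)) (fun s => t • γ.c' j (t * s))
    (((γ.cont j hj).comp hmc hm).const_smul t)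
    (fun s hs => by
      have h1 : HasDerivWithinAt (fun s : ℝ => t * s) t (Icc 0 1) s := by
        simpa using ((hasDerivAt_id s).const_mul t).hasDerivWithinAt
      exact (γ.der j hj _ (hm hs)).scomp s h1 hm)
    (fun s hs => γ.maps j hj (hm hs))
  simp only [mul_zero, mul_one] at h
  rw [γ.left j hj] at h
  refine h.trans (ENNReal.ofReal_le_ofReal ?_)
  set g : ℝ → ℝ := fun t => k.G (γ.x j) (γ.c j t) (γ.c' j t) (γ.c' j t) with hg
  have gc : ContinuousOn g (Icc 0 1) := S1b_cont k γ hj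
  have g0 : ∀ s ∈ Icc (0 : ℝ) 1, 0 ≤ g s := fun s hs => S1b_nonneg k (γ.maps j hj hs) _
  have e1 : ∀ s, k.G (γ.x j) (γ.c j (t * s)) (t • γ.c' j (t * s)) (t • γ.c' j (t * s)) =
      t * (t * g (t * s)) := fun s => by
    simp only [map_smul, smul_apply, smul_eq_mul, hg]
  simp only [e1]
  refine (S1b_cs (h := fun s => t * (t * g (t * s))) (continuousOn_const.mul (continuousOn_const.mul (gc.comp hmc hm)))
    fun s hs => mul_nonneg ht.1 (mul_nonneg ht.1 (g0 _ (hm hs)))).trans (Real.sqrt_le_sqrt ?_)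
  rw [intervalIntegral.integral_const_mul, intervalIntegral.integral_const_mul,
    intervalIntegral.mul_integral_comp_mul_left (f := g), mul_zero, mul_one]
  have i1 : IntervalIntegrable g volume 0 1 :=
    ((uIcc_of_le (zero_le_one' ℝ)).symm ▸ gc).intervalIntegrable
  have a1 : ∫ s in (0 : ℝ)..t, g s ≤ ∫ s in (0 : ℝ)..1, g s :=
    intervalIntegral.integral_mono_interval le_rfl ht.1 ht.2
      ((ae_restrict_mem measurableSet_Ioc).mono fun s hs => g0 s (Ioc_subset_Icc_self hs)) i1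
  have a2 : 0 ≤ ∫ s in (0 : ℝ)..t, g s :=
    intervalIntegral.integral_nonneg ht.1 fun s hs => g0 s ⟨hs.1, hs.2.trans ht.2⟩
  exact (mul_le_of_le_one_left a2 ht.2).trans a1

omit [FiniteDimensional ℂ E] in
theorem Chain.sum_sqrt_le (k : KData E B) {n : ℕ} {p : B} (γ : Chain E n p) {j : ℕ} (hj : j ≤ n) :
    ∑ i ∈ Finset.range j, √(γ.seg k i) ≤ √(γ.energy k) := by
  refine (Finset.sum_le_sum_of_subset_of_nonneg (Finset.range_subset_range.2 hj)
    fun i _ _ => Real.sqrt_nonneg _).trans (Real.le_sqrt_of_sq_le ?_)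
  refine sq_sum_le_card_mul_sum_sq.trans (le_of_eq ?_)
  rw [Finset.card_range, Chain.energy]
  congr 1
  exact Finset.sum_congr rfl fun i hi => Real.sq_sqrt (γ.seg_nonneg k (Finset.mem_range.1 hi))

omit [FiniteDimensional ℂ E] in
theorem Chain.edist_le (k : KData E B) {n : ℕ} {p : B} (γ : Chain E n p) {j : ℕ} (hj : j ≤ n) :
    edist p (γ.q j) ≤ ENNReal.ofReal √(γ.energy k) := by
  refine le_trans ?_ (ENNReal.ofReal_le_ofReal (γ.sum_sqrt_le k hj))
  induction j with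
  | zero => simp [γ.q0]
  | succ j ih =>
    have h := γ.edist_seg k (j := j) hj (t := 1) ⟨zero_le_one, le_rfl⟩
    rw [γ.right j hj] at h
    rw [Finset.sum_range_succ, ENNReal.ofReal_add
      (Finset.sum_nonneg fun i _ => Real.sqrt_nonneg _) (Real.sqrt_nonneg _)]
    exact (edist_triangle _ _ _).trans (add_le_add (ih (Nat.le_of_succ_le hj)) h)

end Pool.Agent.MP_e62289_ag

end

section



end

section

open Set Filter Topology Complex MeasureTheory Metric
open scoped Manifold ContDiff ComplexConjugate NNReal ENNReal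

namespace Pool.Agent.MP_e62289_ag

variable {E : Type} [NormedAddCommGroup E] [NormedSpace ℂ E] [FiniteDimensional ℂ E]
  {B : Type} [EMetricSpace B] [ChartedSpace E B] [IsManifold 𝓘(ℂ, E) ω B]

omit [IsManifold 𝓘(ℂ, E) ω B] in
/-- a lower bound of the metric on a compact set -/
theorem s3a_low (k : KData E B) (y : B) {T : Set E} (hT : IsCompact T)
    (hs : T ⊆ (chartAt E y).target) :
    ∃ M : ℝ, ∀ w ∈ T, ∀ v, 0 ≤ k.G y w v v ∧ ‖v‖ ^ 2 ≤ M * k.G y w v v := by
  have : ProperSpace E := FiniteDimensional.proper ℂ E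
  have hc : ContinuousOn (fun x : E × E => k.G y x.1 x.2 x.2) (T ×ˢ sphere (0 : E) 1) := by
    have h1 : ContinuousOn (fun x : E × E => k.G y x.1) (T ×ˢ sphere (0 : E) 1) :=
      (k.smooth y).continuousOn.comp continuousOn_fst fun x hx => hs hx.1
    exact (h1.clm_apply continuousOn_snd).clm_apply continuousOn_snd
  obtain ⟨a, ha, h⟩ := (hT.prod (isCompact_sphere (0 : E) 1)).exists_forall_le' hc (a := 0)
    fun x hx => k.pos y x.1 (hs hx.1) x.2 (by
      intro h0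
      have := hx.2
      rw [h0] at this
      simp at this)
  refine ⟨a⁻¹, fun w hw v => ?_⟩
  by_cases hv : v = 0
  · simp [hv]
  refine ⟨(k.pos y w (hs hw) v hv).le, ?_⟩
  have hn : 0 < ‖v‖ := norm_pos_iff.2 hv
  have h1 := h (w, (‖v‖⁻¹ : ℝ) • v) ⟨hw, by
    simp only [mem_sphere_iff_norm, sub_zero, norm_smul, norm_inv, norm_norm]
    exact inv_mul_cancel₀ hn.ne'⟩
  simp only [map_smul, _root_.smul_apply, smul_eq_mul] at h1
  rw [← div_eq_inv_mul, le_div_iff₀ ha]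
  have h2 : ‖v‖ ^ 2 * (‖v‖⁻¹ * (‖v‖⁻¹ * k.G y w v v)) = k.G y w v v := by field_simp
  calc ‖v‖ ^ 2 * a ≤ ‖v‖ ^ 2 * (‖v‖⁻¹ * (‖v‖⁻¹ * k.G y w v v)) := by gcongr
    _ = _ := h2

omit [IsManifold 𝓘(ℂ, E) ω B] in
/-- all bounds on a compact set -/
theorem s3a_bd (k : KData E B) (y : B) {T : Set E} (hT : IsCompact T)
    (hs : T ⊆ (chartAt E y).target) :
    ∀ᶠ M : ℝ in atTop, ∀ w ∈ T, (∀ v, ‖v‖ ^ 2 ≤ M * k.G y w v v) ∧
      (∀ i ≤ 3, ‖iteratedFDeriv ℝ i (k.G y) w‖ ≤ M) ∧ ‖k.Γ y w‖ ≤ M := by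
  obtain ⟨M₁, h₁⟩ := s3a_low k y hT hs
  obtain ⟨M₂, h₂⟩ := hT.exists_bound_of_continuousOn (f := k.Γ y) ((k.Γ_cont y).mono hs)
  have h₃ : ∀ i : ℕ, ∀ᶠ M : ℝ in atTop, ∀ w ∈ T, ‖iteratedFDeriv ℝ i (k.G y) w‖ ≤ M := by
    intro i
    have ho := (chartAt E y).open_target
    have hc : ContinuousOn (iteratedFDeriv ℝ i (k.G y)) (chartAt E y).target :=
      ((k.smooth y).continuousOn_iteratedFDerivWithin (m := i) (by exact_mod_cast le_top)
        ho.uniqueDiffOn).congr fun x hx => (iteratedFDerivWithin_of_isOpen i ho hx).symm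
    obtain ⟨M, hM⟩ := hT.exists_bound_of_continuousOn (hc.mono hs)
    filter_upwards [eventually_ge_atTop M] with M' hM' w hw using (hM w hw).trans hM'
  have h₄ : ∀ᶠ M : ℝ in atTop, ∀ i ∈ Finset.range 4, ∀ w ∈ T,
      ‖iteratedFDeriv ℝ i (k.G y) w‖ ≤ M :=
    (Filter.eventually_all_finset _).2 fun i _ => h₃ i
  filter_upwards [eventually_ge_atTop M₁, eventually_ge_atTop M₂, h₄] with M a1 a2 a3 w hw
  refine ⟨fun v => (h₁ w hw v).2.trans (mul_le_mul_of_nonneg_right a1 (h₁ w hw v).1),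
    fun i hi => a3 i (Finset.mem_range.2 (by omega)) w hw, (h₂ w hw).trans a2⟩

omit [FiniteDimensional ℂ E] in
theorem s3a_diff (y y' : B) : DifferentiableOn ℂ (chartAt E y' ∘ (chartAt E y).symm)
    ((chartAt E y).target ∩ (chartAt E y).symm ⁻¹' (chartAt E y').source) := by
  have h := contDiffOn_ext_coord_change (I := 𝓘(ℂ, E)) (n := ω) y' y
  simp only [mfld_simps] at h
  exact h.differentiableOn (by simp)

/-- bounds for one transition map -/
theorem s3a_tr (y y' : B) {T T' : Set E} (hT : IsCompact T) (hs : T ⊆ (chartAt E y).target)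
    (hT' : IsCompact T') (hs' : T' ⊆ (chartAt E y').target) :
    ∀ᶠ x : ℝ × ℝ in (𝓝[>] 0) ×ˢ atTop, ∀ q ∈ (chartAt E y).source ∩ (chartAt E y').source,
      chartAt E y q ∈ T → chartAt E y' q ∈ T' →
      DifferentiableOn ℂ (chartAt E y' ∘ (chartAt E y).symm) (ball (chartAt E y q) x.1) ∧
      ∀ w ∈ ball (chartAt E y q) x.1, (chartAt E y).symm w ∈ (chartAt E y').source ∧
        ‖chartAt E y' ((chartAt E y).symm w) - chartAt E y' q‖ ≤ x.2 := by
  have : ProperSpace E := FiniteDimensional.proper ℂ E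
  have hc' : IsCompact ((chartAt E y').symm '' T') :=
    hT'.image_of_continuousOn ((chartAt E y').continuousOn_symm.mono hs')
  have hK : IsCompact (T ∩ (chartAt E y).symm ⁻¹' ((chartAt E y').symm '' T')) :=
    hT.of_isClosed_subset (((chartAt E y).continuousOn_symm.mono hs).preimage_isClosed_of_isClosed
      hT.isClosed hc'.isClosed) inter_subset_left
  have hU : IsOpen ((chartAt E y).target ∩ (chartAt E y).symm ⁻¹' (chartAt E y').source) :=
    (chartAt E y).isOpen_inter_preimage_symm (chartAt E y').open_source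
  obtain ⟨δ, hδ, hsub⟩ := hK.exists_cthickening_subset_open hU (by
    rintro w ⟨h1, z, hz, h2⟩
    refine ⟨hs h1, ?_⟩
    change (chartAt E y).symm w ∈ (chartAt E y').source
    rw [← h2]
    exact (chartAt E y').map_target (hs' hz))
  obtain ⟨M, hM⟩ := (hK.cthickening (r := δ)).exists_bound_of_continuousOn
    ((s3a_diff y y').continuousOn.mono hsub)
  filter_upwards [prod_mem_prod (Ioo_mem_nhdsGT hδ) (eventually_ge_atTop (2 * M))]
  rintro ⟨r, N⟩ ⟨hr, hN⟩ q hq h1 h2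
  have hq1 : chartAt E y q ∈ T ∩ (chartAt E y).symm ⁻¹' ((chartAt E y').symm '' T') := by
    refine ⟨h1, chartAt E y' q, h2, ?_⟩
    rw [(chartAt E y').left_inv hq.2, (chartAt E y).left_inv hq.1]
  have hb : ball (chartAt E y q) r ⊆
      cthickening δ (T ∩ (chartAt E y).symm ⁻¹' ((chartAt E y').symm '' T')) :=
    (ball_subset_closedBall.trans (closedBall_subset_closedBall hr.2.le)).trans
      (closedBall_subset_cthickening hq1 δ)
  refine ⟨(s3a_diff y y').mono (hb.trans hsub), fun w hw => ⟨(hsub (hb hw)).2, ?_⟩⟩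
  have a1 := hM w (hb hw)
  have a2 := hM _ (self_subset_cthickening _ hq1)
  simp only [Function.comp_apply, (chartAt E y).left_inv hq.1] at a1 a2
  have hN' : 2 * M ≤ N := hN
  exact (norm_sub_le _ _).trans (by linarith)

/-- a finite uniform system of charts on the closed unit ball -/
theorem unif_cover (k : KData E B) (p : B) :
    ∃ (s : Finset B) (A : B → Set E) (r M δ : ℝ), 0 < r ∧ 0 < M ∧ 0 < δ ∧
      (∀ y ∈ s, ∀ z ∈ A y, k.Bd r M y z) ∧
      (∀ y ∈ s, ∀ y' ∈ s, ∀ q ∈ (chartAt E y).source ∩ (chartAt E y').source,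
        chartAt E y q ∈ A y → chartAt E y' q ∈ A y' →
        DifferentiableOn ℂ (chartAt E y' ∘ (chartAt E y).symm) (ball (chartAt E y q) r) ∧
        ∀ w ∈ ball (chartAt E y q) r, (chartAt E y).symm w ∈ (chartAt E y').source ∧
          ‖chartAt E y' ((chartAt E y).symm w) - chartAt E y' q‖ ≤ M) ∧
      ∀ q, edist p q ≤ 1 → ∃ y ∈ s, ∀ q', edist q q' < ENNReal.ofReal δ →
        q' ∈ (chartAt E y).source ∧ chartAt E y q' ∈ A y := by
  have : ProperSpace E := FiniteDimensional.proper ℂ E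
  have h0 : ∀ y : B, ∃ ρ : ℝ, 0 < ρ ∧
      closedBall (chartAt E y y) (2 * ρ) ⊆ (chartAt E y).target := by
    intro y
    obtain ⟨ε, hε, h⟩ := nhds_basis_closedBall.mem_iff.1 (chart_target_mem_nhds E y)
    exact ⟨ε / 2, by positivity, by rwa [mul_div_cancel₀ _ two_ne_zero]⟩
  choose ρ hρ hsub using h0
  have hsub1 : ∀ y, closedBall (chartAt E y y) (ρ y) ⊆ (chartAt E y).target := fun y =>
    (closedBall_subset_closedBall (by linarith [hρ y])).trans (hsub y)
  let O : B → Set B := fun y => (chartAt E y).source ∩ chartAt E y ⁻¹' ball (chartAt E y y) (ρ y)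
  have hO : ∀ y, IsOpen (O y) := fun y => (chartAt E y).isOpen_inter_preimage isOpen_ball
  have hK : IsCompact {q | edist p q ≤ 1} := by simpa using k.compact p 1
  obtain ⟨s, -, hs⟩ := hK.elim_nhds_subcover O fun y _ =>
    (hO y).mem_nhds ⟨mem_chart_source E y, mem_ball_self (hρ y)⟩
  obtain ⟨δ, hδ, hleb⟩ := lebesgue_number_lemma_of_emetric (c := fun y : s => O y) hK
    (fun y => hO y) (by
      intro q hq
      obtain ⟨y, hy, h⟩ := mem_iUnion₂.1 (hs hq)
      exact mem_iUnion.2 ⟨⟨y, hy⟩, h⟩)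
  obtain ⟨δ', hδ'0, hδ'⟩ : ∃ δ' : ℝ, 0 < δ' ∧ ENNReal.ofReal δ' ≤ δ := by
    obtain ⟨c, hc0, hc⟩ := ENNReal.lt_iff_exists_nnreal_btwn.1 hδ
    exact ⟨c, by exact_mod_cast hc0, by simpa using hc.le⟩
  have e1 : ∀ᶠ x : ℝ × ℝ in (𝓝[>] 0) ×ˢ atTop, ∀ y ∈ s,
      ∀ z ∈ closedBall (chartAt E y y) (ρ y), k.Bd x.1 x.2 y z := by
    refine (Filter.eventually_all_finset _).2 fun y _ => ?_
    filter_upwards [prod_mem_prod (Ioo_mem_nhdsGT (hρ y))
      (s3a_bd k y (isCompact_closedBall _ _) (hsub y))]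
    rintro ⟨r, N⟩ ⟨hr, hN⟩ z hz
    have hb : closedBall z r ⊆ closedBall (chartAt E y y) (2 * ρ y) :=
      closedBall_subset_closedBall' (by linarith [hr.2, mem_closedBall.1 hz])
    exact ⟨hb.trans (hsub y), fun w hw => hN w (hb hw)⟩
  have e2 := (Filter.eventually_all_finset s).2 fun y _ =>
    (Filter.eventually_all_finset s).2 fun y' _ =>
      s3a_tr y y' (isCompact_closedBall _ _) (hsub1 y) (isCompact_closedBall _ _) (hsub1 y')
  have e3 : ∀ᶠ x : ℝ × ℝ in (𝓝[>] 0) ×ˢ atTop, 0 < x.1 ∧ 0 < x.2 := by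
    filter_upwards [prod_mem_prod (self_mem_nhdsWithin (a := (0 : ℝ)) (s := Ioi 0))
      (eventually_gt_atTop (0 : ℝ))]
    rintro ⟨r, N⟩ ⟨hr, hN⟩
    exact ⟨hr, hN⟩
  obtain ⟨⟨r, M⟩, a1, a2, a3, a4⟩ := (e1.and (e2.and e3)).exists
  refine ⟨s, fun y => closedBall (chartAt E y y) (ρ y), r, M, δ', a3, a4, hδ'0, a1, a2,
    fun q hq => ?_⟩
  obtain ⟨y, hy⟩ := hleb q hq
  refine ⟨y, y.2, fun q' hq' => ?_⟩
  have : q' ∈ O y := hy (by
    rw [Metric.mem_eball, edist_comm]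
    exact hq'.trans_le hδ')
  exact ⟨this.1, ball_subset_closedBall this.2⟩

end Pool.Agent.MP_e62289_ag

end

section

open Set Filter Topology Complex MeasureTheory Metric
open scoped Manifold ContDiff ComplexConjugate NNReal ENNReal

namespace Pool.Agent.MP_e62289_ag

variable {E : Type} [NormedAddCommGroup E] [NormedSpace ℂ E] [FiniteDimensional ℂ E]
  {B : Type} [EMetricSpace B] [ChartedSpace E B] [IsManifold 𝓘(ℂ, E) ω B]

omit [FiniteDimensional ℂ E] in
theorem S3b_trans (x y : B) :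
    ContDiffOn ℝ 1 (chartAt E y ∘ (chartAt E x).symm)
      ((chartAt E x).target ∩ (chartAt E x).symm ⁻¹' (chartAt E y).source) := by
  have h1 : ContMDiffOn 𝓘(ℂ, E) 𝓘(ℂ, E) ω (chartAt E y) (chartAt E y).source := contMDiffOn_chart
  have h2 : ContMDiffOn 𝓘(ℂ, E) 𝓘(ℂ, E) ω (chartAt E x).symm (chartAt E x).target :=
    contMDiffOn_chart_symm
  have h3 : ContMDiffOn 𝓘(ℂ, E) 𝓘(ℂ, E) ω (chartAt E y ∘ (chartAt E x).symm)
      ((chartAt E x).target ∩ (chartAt E x).symm ⁻¹' (chartAt E y).source) :=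
    h1.comp (h2.mono inter_subset_left) (fun z hz => hz.2)
  have h4 := contMDiffOn_iff_contDiffOn.mp h3
  exact (h4.of_le le_top).restrict_scalars ℝ

omit [FiniteDimensional ℂ E] in
/-- moving the arcs of a chain into prescribed charts -/
theorem Chain.rechart (k : KData E B) {n : ℕ} {p : B} (γ : Chain E n p) (y : ℕ → B)
    (hy : ∀ j < n, ∀ t ∈ Icc (0 : ℝ) 1,
      (chartAt E (γ.x j)).symm (γ.c j t) ∈ (chartAt E (y j)).source) :
    ∃ γ' : Chain E n p, γ'.x = y ∧ γ'.q = γ.q ∧ (∀ j < n, γ'.seg k j = γ.seg k j) ∧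
      ∀ j < n, ∀ t ∈ Icc (0 : ℝ) 1,
        γ'.c j t = chartAt E (y j) ((chartAt E (γ.x j)).symm (γ.c j t)) := by
  have hU : ∀ j, IsOpen ((chartAt E (γ.x j)).target ∩
      (chartAt E (γ.x j)).symm ⁻¹' (chartAt E (y j)).source) := fun j =>
    (chartAt E (γ.x j)).isOpen_inter_preimage_symm (chartAt E (y j)).open_source
  have hmem : ∀ j < n, ∀ t ∈ Icc (0 : ℝ) 1, γ.c j t ∈ ((chartAt E (γ.x j)).target ∩
      (chartAt E (γ.x j)).symm ⁻¹' (chartAt E (y j)).source) := fun j hj t ht =>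
    ⟨γ.maps j hj ht, hy j hj t ht⟩
  have hcc : ∀ j < n, ContinuousOn (γ.c j) (Icc 0 1) := fun j hj t ht =>
    (γ.der j hj t ht).continuousWithinAt
  refine ⟨{ x := y
            q := γ.q
            c := fun j t => chartAt E (y j) ((chartAt E (γ.x j)).symm (γ.c j t))
            c' := fun j t => fderiv ℝ (chartAt E (y j) ∘ (chartAt E (γ.x j)).symm) (γ.c j t)
              (γ.c' j t)
            q0 := γ.q0
            cont := ?_
            der := ?_
            maps := ?_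
            left := ?_
            right := ?_ }, rfl, rfl, ?_, fun _ _ _ _ => rfl⟩
  · intro j hj
    have h1 := (S3b_trans (E := E) (γ.x j) (y j)).continuousOn_fderiv_of_isOpen (hU j) le_rfl
    have h2 := h1.comp (hcc j hj) (fun t ht => hmem j hj t ht)
    exact h2.clm_apply (γ.cont j hj)
  · intro j hj t ht
    have h1 : DifferentiableAt ℝ (chartAt E (y j) ∘ (chartAt E (γ.x j)).symm) (γ.c j t) :=
      ((S3b_trans (E := E) (γ.x j) (y j)).differentiableOn one_ne_zero).differentiableAt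
        ((hU j).mem_nhds (hmem j hj t ht))
    exact h1.hasFDerivAt.comp_hasDerivWithinAt t (γ.der j hj t ht)
  · intro j hj t ht
    exact (chartAt E (y j)).map_source (hy j hj t ht)
  · intro j hj
    rw [(chartAt E (y j)).left_inv (hy j hj 0 (by simp))]
    exact γ.left j hj
  · intro j hj
    rw [(chartAt E (y j)).left_inv (hy j hj 1 (by simp))]
    exact γ.right j hj
  · intro j hj
    unfold Chain.seg
    refine intervalIntegral.integral_congr fun t ht => ?_
    rw [uIcc_of_le zero_le_one] at ht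
    have h := k.compat (γ.x j) (y j) ((chartAt E (γ.x j)).symm (γ.c j t))
      ⟨(chartAt E (γ.x j)).map_target (γ.maps j hj ht), hy j hj t ht⟩ (γ.c' j t) (γ.c' j t)
    rw [(chartAt E (γ.x j)).right_inv (γ.maps j hj ht)] at h
    exact h

omit [FiniteDimensional ℂ E] in
theorem S3b_step [CompleteSpace E] {g : ℂ → E} {R A : ℝ} (hR : 0 < R)
    (hd : DifferentiableOn ℂ g (ball 0 R)) (hb : ∀ ξ ∈ ball (0 : ℂ) R, ‖g ξ - g 0‖ ≤ A) :
    DifferentiableOn ℂ (dslope g 0) (ball 0 R) ∧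
      (∀ ξ ∈ ball (0 : ℂ) R, ‖dslope g 0 ξ‖ ≤ A / R) ∧
      ∀ ξ ∈ ball (0 : ℂ) R, ‖dslope g 0 ξ - dslope g 0 0‖ ≤ 2 * A / R := by
  have h1 : ∀ ξ ∈ ball (0 : ℂ) R, ‖dslope g 0 ξ‖ ≤ A / R := fun ξ hξ =>
    Complex.norm_dslope_le_div_of_mapsTo_ball hd
      (fun w hw => by rw [mem_closedBall, dist_eq_norm]; exact hb w hw) hξ
  refine ⟨(Complex.differentiableOn_dslope (ball_mem_nhds _ hR)).mpr hd, h1, fun ξ hξ => ?_⟩
  have h2 := h1 ξ hξ
  have h3 := h1 0 (mem_ball_self hR)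
  calc ‖dslope g 0 ξ - dslope g 0 0‖ ≤ ‖dslope g 0 ξ‖ + ‖dslope g 0 0‖ := norm_sub_le _ _
    _ ≤ A / R + A / R := add_le_add h2 h3
    _ = 2 * A / R := by ring

/-- Taylor expansion of a holomorphic map along a complex line -/
theorem line_taylor {r M : ℝ} (hr : 0 < r) (hM : 0 < M) : ∃ M' ρ : ℝ, 0 < M' ∧ 0 < ρ ∧
    ∀ (τ : E → E) (z V : E), DifferentiableOn ℂ τ (ball z r) →
      (∀ w ∈ ball z r, ‖τ w - τ z‖ ≤ M) → ‖V‖ ≤ M → ∃ R₂ : E, ‖R₂‖ ≤ M' ∧
        ∀ ξ : ℂ, ‖ξ‖ ≤ ρ → z + ξ • V ∈ ball z r ∧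
          ‖τ (z + ξ • V) - τ z - ξ • fderiv ℝ τ z V - ξ ^ 2 • R₂‖ ≤ M' * ‖ξ‖ ^ 3 := by
  have : CompleteSpace E := FiniteDimensional.complete ℂ E
  have hR : 0 < r / M := div_pos hr hM
  set R := r / M with hRdef
  have hA2 : 0 < 2 * M / R / R := by positivity
  have hA3 : 0 < 2 * (2 * M / R) / R / R := by positivity
  refine ⟨2 * M / R / R + 2 * (2 * M / R) / R / R, R / 2, by positivity, by positivity,
    fun τ z V hτ hb hV => ?_⟩
  have hin : ∀ ξ ∈ ball (0 : ℂ) R, z + ξ • V ∈ ball z r := by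
    intro ξ hξ
    rw [mem_ball_zero_iff] at hξ
    rw [mem_ball, dist_eq_norm, add_sub_cancel_left, norm_smul]
    calc ‖ξ‖ * ‖V‖ ≤ ‖ξ‖ * M := mul_le_mul_of_nonneg_left hV (norm_nonneg _)
      _ < R * M := mul_lt_mul_of_pos_right hξ hM
      _ = r := by rw [hRdef]; field_simp
  set g : ℂ → E := fun ξ => τ (z + ξ • V) with hg
  have hg0 : g 0 = τ z := by simp [hg]
  have hgd : DifferentiableOn ℂ g (ball 0 R) :=
    hτ.comp (by fun_prop) (fun ξ hξ => hin ξ hξ)
  have hgb : ∀ ξ ∈ ball (0 : ℂ) R, ‖g ξ - g 0‖ ≤ M := fun ξ hξ => by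
    rw [hg0]; exact hb _ (hin ξ hξ)
  obtain ⟨d1, -, b1⟩ := S3b_step hR hgd hgb
  obtain ⟨d2, a2, b2⟩ := S3b_step hR d1 b1
  obtain ⟨-, a3, -⟩ := S3b_step hR d2 b2
  have hτz : DifferentiableAt ℂ τ z := hτ.differentiableAt (ball_mem_nhds _ hr)
  have hder : dslope g 0 0 = fderiv ℝ τ z V := by
    rw [dslope_same]
    have h1 : HasDerivAt (fun ξ : ℂ => z + ξ • V) V 0 := by
      simpa using ((hasDerivAt_id (0 : ℂ)).smul_const V).const_add z
    have h2 : HasFDerivAt τ (fderiv ℂ τ z) (z + (0 : ℂ) • V) := by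
      simpa using hτz.hasFDerivAt
    have h3 : HasDerivAt g (fderiv ℂ τ z V) 0 := h2.comp_hasDerivAt 0 h1
    rw [h3.deriv, (hτz.hasFDerivAt.restrictScalars ℝ).fderiv]
    rfl
  refine ⟨dslope (dslope g 0) 0 0, (a2 0 (mem_ball_self hR)).trans (by linarith), fun ξ hξ => ?_⟩
  have hξ' : ξ ∈ ball (0 : ℂ) R := by
    rw [mem_ball_zero_iff]; linarith
  refine ⟨hin ξ hξ', ?_⟩
  have e1 := sub_smul_dslope g 0 ξ
  have e2 := sub_smul_dslope (dslope g 0) 0 ξ
  have e3 := sub_smul_dslope (dslope (dslope g 0) 0) 0 ξ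
  rw [sub_zero] at e1 e2 e3
  have e : τ (z + ξ • V) - τ z - ξ • fderiv ℝ τ z V - ξ ^ 2 • dslope (dslope g 0) 0 0 =
      ξ ^ 3 • dslope (dslope (dslope g 0) 0) 0 ξ := by
    have f1 : τ (z + ξ • V) - τ z = ξ • dslope g 0 ξ := by rw [e1, hg0]
    rw [f1, ← hder, ← smul_sub, ← e2, pow_succ ξ 2, mul_smul, e3, smul_sub, smul_smul, ← sq]
  rw [e, norm_smul, norm_pow, mul_comm]
  exact mul_le_mul_of_nonneg_right ((a3 ξ hξ').trans (by linarith)) (by positivity)

end Pool.Agent.MP_e62289_ag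

end

section

open Set Filter Topology Complex MeasureTheory Metric
open scoped Manifold ContDiff ComplexConjugate NNReal ENNReal

namespace Pool.Agent.MP_e62289_ag

open Bundle

variable {E : Type} [NormedAddCommGroup E] [NormedSpace ℂ E] [FiniteDimensional ℂ E]
  {B : Type} [EMetricSpace B] [ChartedSpace E B]
  [IsManifold 𝓘(ℝ, E) ∞ B] [RiemannianBundle fun x : B => TangentSpace 𝓘(ℝ, E) x]
  [IsContMDiffRiemannianBundle 𝓘(ℝ, E) ∞ E fun x : B => TangentSpace 𝓘(ℝ, E) x]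

omit [FiniteDimensional ℂ E] [RiemannianBundle fun x : B => TangentSpace 𝓘(ℝ, E) x]
  [IsContMDiffRiemannianBundle 𝓘(ℝ, E) ∞ E fun x : B => TangentSpace 𝓘(ℝ, E) x] in
theorem R1a_tv (x : B) (v : E) : ContMDiffOn 𝓘(ℝ, E) 𝓘(ℝ, E).tangent ∞
    (fun z => (tv E x z v : TangentBundle 𝓘(ℝ, E) B)) (chartAt E x).target := by
  have ho := (chartAt E x).open_target
  have h1 := (contMDiffOn_chart_symm (I := 𝓘(ℝ, E)) (n := ∞) (x := x)).contMDiffOn_tangentMapWithin
    (m := ∞) le_rfl ho.uniqueMDiffOn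
  have h2 : ContMDiffOn 𝓘(ℝ, E) 𝓘(ℝ, E).tangent ∞
      (fun z : E => (TotalSpace.mk' E z v : TangentBundle 𝓘(ℝ, E) E)) (chartAt E x).target :=
    contMDiffOn_vectorSpace_iff_contDiffOn.2 contDiffOn_const
  refine (h1.comp h2 fun z hz => hz).congr fun z hz => ?_
  simp only [Function.comp, tangentMapWithin, tv, mfderivWithin_of_isOpen ho hz]

variable (E B) in
/-- the metric coefficients as smooth fields of bilinear forms -/
theorem exists_G : ∃ G : B → E → E →L[ℝ] E →L[ℝ] ℝ, (∀ x z v w, G x z v w = cm E x z v w) ∧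
    (∀ x, ContDiffOn ℝ ∞ (G x) (chartAt E x).target) ∧
    (∀ x, ∀ z ∈ (chartAt E x).target, ∀ v, v ≠ 0 → 0 < G x z v v) := by
  have : FiniteDimensional ℝ E := FiniteDimensional.complexToReal E
  have key : ∀ (x : B) (z : E), ∃ g : E →L[ℝ] E →L[ℝ] ℝ, ∀ v w, g v w = cm E x z v w := by
    intro x z
    let l : E →ₗ[ℝ] E →ₗ[ℝ] ℝ := LinearMap.mk₂ ℝ (cm E x z)
      (fun v v' w => by simp only [cm, tv]; rw [← inner_add_left, ← map_add]; rfl)
      (fun r v w => by simp only [cm, tv]; rw [smul_eq_mul, ← real_inner_smul_left, ← map_smul]; rfl)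
      (fun v w w' => by simp only [cm, tv]; rw [← inner_add_right, ← map_add]; rfl)
      (fun r v w => by simp only [cm, tv]; rw [smul_eq_mul, ← real_inner_smul_right, ← map_smul]; rfl)
    exact ⟨LinearMap.toContinuousLinearMap
      ((LinearMap.toContinuousLinearMap : (E →ₗ[ℝ] ℝ) ≃ₗ[ℝ] E →L[ℝ] ℝ).toLinearMap ∘ₗ l),
      fun v w => rfl⟩
  choose G hG using key
  refine ⟨G, hG, fun x => ?_, fun x z hz v hv => ?_⟩
  · refine contDiffOn_clm_apply.2 fun v => contDiffOn_clm_apply.2 fun w => ?_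
    simp only [hG, cm]
    have h := fun h1 h2 => ContMDiffOn.inner_bundle (IB := 𝓘(ℝ, E)) (F := E) (n := ∞)
      (E := fun x : B => TangentSpace 𝓘(ℝ, E) x) (IM := 𝓘(ℝ, E)) (b := (chartAt E x).symm)
      (v := fun z => tv E x z v) (w := fun z => tv E x z w) (s := (chartAt E x).target) h1 h2
    exact (h (R1a_tv x v) (R1a_tv x w)).contDiffOn
  · rw [hG, cm]
    refine real_inner_self_pos.2 fun h => hv ?_
    exact (mdifferentiable_chart (I := 𝓘(ℝ, E)) x).symm.mfderiv_injective hz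
      (h.trans (map_zero _).symm)

end Pool.Agent.MP_e62289_ag

end

section

open Set Filter Topology Complex MeasureTheory Metric
open scoped Manifold ContDiff ComplexConjugate NNReal ENNReal

namespace Pool.Agent.MP_e62289_ag

open Bundle

variable {E : Type} [NormedAddCommGroup E] [NormedSpace ℂ E] [FiniteDimensional ℂ E]
  {B : Type} [EMetricSpace B] [ChartedSpace E B]
  [IsManifold 𝓘(ℝ, E) ∞ B] [RiemannianBundle fun x : B => TangentSpace 𝓘(ℝ, E) x]
  [IsContMDiffRiemannianBundle 𝓘(ℝ, E) ∞ E fun x : B => TangentSpace 𝓘(ℝ, E) x]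

omit [FiniteDimensional ℂ E] [RiemannianBundle fun x : B => TangentSpace 𝓘(ℝ, E) x]
  [IsContMDiffRiemannianBundle 𝓘(ℝ, E) ∞ E fun x : B => TangentSpace 𝓘(ℝ, E) x] in
theorem R1b_symm_mdiff (x : B) {z : E} (hz : z ∈ (chartAt E x).target) :
    MDifferentiableAt 𝓘(ℝ, E) 𝓘(ℝ, E) (chartAt E x).symm z :=
  mdifferentiableAt_atlas_symm (chart_mem_atlas E x) hz

omit [FiniteDimensional ℂ E] [RiemannianBundle fun x : B => TangentSpace 𝓘(ℝ, E) x]
  [IsContMDiffRiemannianBundle 𝓘(ℝ, E) ∞ E fun x : B => TangentSpace 𝓘(ℝ, E) x] in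
set_option backward.isDefEq.respectTransparency false in
/-- change of chart for coordinate vectors -/
theorem tv_compat {x y q : B} (hx : q ∈ (chartAt E x).source) (hy : q ∈ (chartAt E y).source)
    (v : E) : (tv E y (chartAt E y q)
      (fderiv ℝ (chartAt E y ∘ (chartAt E x).symm) (chartAt E x q) v) : E) =
      (tv E x (chartAt E x q) v : E) := by
  have hq : (chartAt E x).symm (chartAt E x q) = q := (chartAt E x).left_inv hx
  have hz : chartAt E x q ∈ (chartAt E x).target := (chartAt E x).map_source hx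
  have hz' : chartAt E y q ∈ (chartAt E y).target := (chartAt E y).map_source hy
  have h1 := R1b_symm_mdiff (E := E) x hz
  have h2 : MDifferentiableAt 𝓘(ℝ, E) 𝓘(ℝ, E) (chartAt E y)
      ((chartAt E x).symm (chartAt E x q)) := by
    rw [hq]; exact mdifferentiableAt_atlas (chart_mem_atlas E y) hy
  have h3 : MDifferentiableAt 𝓘(ℝ, E) 𝓘(ℝ, E) (chartAt E y ∘ (chartAt E x).symm)
      (chartAt E x q) := h2.comp _ h1
  have hφ : (chartAt E y ∘ (chartAt E x).symm) (chartAt E x q) = chartAt E y q := by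
    simp only [Function.comp_apply, hq]
  have h4 := R1b_symm_mdiff (E := E) y hz'
  have hev : (chartAt E y).symm ∘ (chartAt E y ∘ (chartAt E x).symm) =ᶠ[𝓝 (chartAt E x q)]
      (chartAt E x).symm := by
    have hc : ContinuousAt (chartAt E x).symm (chartAt E x q) := h1.continuousAt
    have hn : (chartAt E y).source ∈ 𝓝 ((chartAt E x).symm (chartAt E x q)) := by
      rw [hq]; exact (chartAt E y).open_source.mem_nhds hy
    filter_upwards [hc.preimage_mem_nhds hn] with w hw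
    exact (chartAt E y).left_inv hw
  have h5 := mfderiv_comp_apply_of_eq (chartAt E x q) h4 h3 hφ v
  have h6 := hev.mfderiv_eq (I := 𝓘(ℝ, E)) (I' := 𝓘(ℝ, E))
  unfold tv
  rw [← mfderiv_eq_fderiv]
  exact h5.symm.trans (congrArg (fun L : E →L[ℝ] E => L v) h6)

omit [FiniteDimensional ℂ E] [IsManifold 𝓘(ℝ, E) ∞ B]
  [IsContMDiffRiemannianBundle 𝓘(ℝ, E) ∞ E fun x : B => TangentSpace 𝓘(ℝ, E) x] in
theorem R1b_inner_congr {a b : B} (h : a = b) (u v : TangentSpace 𝓘(ℝ, E) a)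
    (u' v' : TangentSpace 𝓘(ℝ, E) b) (hu : (u : E) = (u' : E)) (hv : (v : E) = (v' : E)) :
    inner ℝ u v = inner ℝ u' v' := by
  subst h
  have hu' : u = u' := hu
  have hv' : v = v' := hv
  rw [hu', hv']

omit [FiniteDimensional ℂ E]
  [IsContMDiffRiemannianBundle 𝓘(ℝ, E) ∞ E fun x : B => TangentSpace 𝓘(ℝ, E) x] in
theorem cm_compat {x y q : B} (hx : q ∈ (chartAt E x).source) (hy : q ∈ (chartAt E y).source)
    (v w : E) :
    cm E y (chartAt E y q) (fderiv ℝ (chartAt E y ∘ (chartAt E x).symm) (chartAt E x q) v)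
      (fderiv ℝ (chartAt E y ∘ (chartAt E x).symm) (chartAt E x q) w) =
      cm E x (chartAt E x q) v w := by
  unfold cm
  exact R1b_inner_congr (((chartAt E y).left_inv hy).trans ((chartAt E x).left_inv hx).symm)
    _ _ _ _ (tv_compat hx hy v) (tv_compat hx hy w)

set_option backward.isDefEq.respectTransparency false in
theorem cm_length [IsRiemannianManifold 𝓘(ℝ, E) B] (x : B) (c c' : ℝ → E)
    (hc : ContinuousOn c' (Icc 0 1))
    (hd : ∀ t ∈ Icc (0 : ℝ) 1, HasDerivWithinAt c (c' t) (Icc 0 1) t)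
    (hm : MapsTo c (Icc 0 1) (chartAt E x).target) :
    edist ((chartAt E x).symm (c 0)) ((chartAt E x).symm (c 1)) ≤
      ENNReal.ofReal (∫ t in (0 : ℝ)..1, √(cm E x (c t) (c' t) (c' t))) := by
  have hu : UniqueDiffOn ℝ (Icc (0 : ℝ) 1) := uniqueDiffOn_Icc zero_lt_one
  have hc1 : ContDiffOn ℝ 1 c (Icc 0 1) := by
    rw [contDiffOn_one_iff_derivWithin hu]
    refine ⟨fun t ht => (hd t ht).differentiableWithinAt, ?_⟩
    exact hc.congr fun t ht => (hd t ht).derivWithin (hu t ht)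
  have hγ : ContMDiffOn 𝓘(ℝ, ℝ) 𝓘(ℝ, E) 1 ((chartAt E x).symm ∘ c) (Icc 0 1) :=
    (contMDiffOn_chart_symm (I := 𝓘(ℝ, E)) (n := 1) (x := x)).comp
      (contMDiffOn_iff_contDiffOn.2 hc1) hm
  rw [IsRiemannianManifold.out (I := 𝓘(ℝ, E))]
  refine (Manifold.riemannianEDist_le_pathELength hγ rfl rfl zero_le_one).trans_eq ?_
  obtain ⟨G, hG, hGs, -⟩ := exists_G E B
  have hcont : ContinuousOn (fun t => √(cm E x (c t) (c' t) (c' t))) (Icc 0 1) := by
    have h1 : ContinuousOn (fun t => G x (c t)) (Icc 0 1) :=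
      (hGs x).continuousOn.comp hc1.continuousOn hm
    have h2 : ContinuousOn (fun t => G x (c t) (c' t) (c' t)) (Icc 0 1) :=
      (h1.clm_apply hc).clm_apply hc
    simp only [hG] at h2
    exact h2.sqrt
  have hint : IntegrableOn (fun t => √(cm E x (c t) (c' t) (c' t))) (Ioo 0 1) volume :=
    (hcont.integrableOn_Icc).mono_set Ioo_subset_Icc_self
  rw [Manifold.pathELength_eq_lintegral_mfderiv_Ioo, intervalIntegral.integral_of_le zero_le_one,
    integral_Ioc_eq_integral_Ioo,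
    ofReal_integral_eq_lintegral_ofReal hint (Eventually.of_forall fun t => Real.sqrt_nonneg _)]
  refine setLIntegral_congr_fun measurableSet_Ioo fun t ht => ?_
  have ht' : t ∈ Icc (0 : ℝ) 1 := Ioo_subset_Icc_self ht
  have hdt : HasDerivAt c (c' t) t := (hd t ht').hasDerivAt (Icc_mem_nhds ht.1 ht.2)
  have h1 : MDifferentiableAt 𝓘(ℝ, ℝ) 𝓘(ℝ, E) c t :=
    hdt.differentiableAt.mdifferentiableAt
  have h2 := mfderiv_comp_apply t (R1b_symm_mdiff (E := E) x (hm ht')) h1 (1 : ℝ)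
  have h3 : mfderiv 𝓘(ℝ, ℝ) 𝓘(ℝ, E) c t (1 : ℝ) = c' t := by
    rw [mfderiv_eq_fderiv]
    exact hdt.deriv
  have h4 : mfderiv 𝓘(ℝ, ℝ) 𝓘(ℝ, E) ((chartAt E x).symm ∘ c) t (1 : ℝ) =
      tv E x (c t) (c' t) := by
    rw [h2, h3]; rfl
  rw [h4, ← ofReal_norm, norm_eq_sqrt_real_inner]
  rfl

end Pool.Agent.MP_e62289_ag

end

section



end

section

open Set Filter Topology Complex MeasureTheory Metric
open scoped Manifold ContDiff ComplexConjugate NNReal ENNReal

namespace Pool.Agent.MP_e62289_ag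

open Bundle

lemma R2a_closed {B : Type} [EMetricSpace B] (p : B) (r : ℝ≥0) :
    IsClosed {q | edist p q ≤ r} :=
  isClosed_le (continuous_const.edist continuous_id) continuous_const

lemma R2a_up {B : Type} [EMetricSpace B] [CompleteSpace B]
    (hmid : ∀ (p q : B) (a b : ℝ≥0), edist p q < (a : ℝ≥0∞) + b →
      ∃ z, edist p z ≤ a ∧ edist z q ≤ b)
    (p : B) (s : ℝ≥0) (h : ∀ r < s, IsCompact {q | edist p q ≤ (r : ℝ≥0)}) :
    IsCompact {q | edist p q ≤ s} := by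
  rcases eq_or_lt_of_le (zero_le : 0 ≤ s) with h0 | h0
  · subst h0
    have : {q | edist p q ≤ ((0 : ℝ≥0) : ℝ≥0∞)} = {p} := by
      ext q
      simp [eq_comm]
    rw [this]
    exact isCompact_singleton
  · rw [isCompact_iff_totallyBounded_isComplete]
    refine ⟨?_, (R2a_closed p s).isComplete⟩
    rw [EMetric.totallyBounded_iff]
    intro ε hε
    have hε2 : (0 : ℝ≥0∞) < ε / 2 := ENNReal.half_pos hε.ne'
    obtain ⟨δ, hδ0, hδ⟩ := ENNReal.lt_iff_exists_nnreal_btwn.1 hε2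
    have hδ0' : 0 < δ := by exact_mod_cast hδ0
    have hr : s - δ / 2 < s := tsub_lt_self h0 (by positivity)
    have hr2 : s < (s - δ / 2) + δ := by
      have h1 : s ≤ (s - δ / 2) + δ / 2 := le_tsub_add
      have h2 : δ / 2 < δ := by
        apply NNReal.half_lt_self hδ0'.ne'
      exact h1.trans_lt (by gcongr)
    have htb := (h _ hr).totallyBounded
    rw [EMetric.totallyBounded_iff] at htb
    obtain ⟨t, htf, ht⟩ := htb δ hδ0
    refine ⟨t, htf, fun q hq => ?_⟩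
    have hq' : edist p q < ((s - δ / 2 : ℝ≥0) : ℝ≥0∞) + δ := by
      refine lt_of_le_of_lt hq ?_
      exact_mod_cast hr2
    obtain ⟨z, hz1, hz2⟩ := hmid p q _ _ hq'
    have hz := ht hz1
    simp only [mem_iUnion] at hz ⊢
    obtain ⟨y, hy, hzy⟩ := hz
    refine ⟨y, hy, ?_⟩
    have hzy' : edist z y < δ := hzy
    have : edist q y < ε := by
      calc edist q y ≤ edist q z + edist z y := edist_triangle _ _ _
        _ ≤ δ + δ := by
          rw [edist_comm q z]
          exact add_le_add hz2 hzy'.le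
        _ < ε / 2 + ε / 2 := ENNReal.add_lt_add hδ hδ
        _ = ε := ENNReal.add_halves ε
    exact this

lemma R2a_open {B : Type} [EMetricSpace B] [LocallyCompactSpace B]
    (hmid : ∀ (p q : B) (a b : ℝ≥0), edist p q < (a : ℝ≥0∞) + b →
      ∃ z, edist p z ≤ a ∧ edist z q ≤ b)
    (p : B) (s : ℝ≥0) (h : IsCompact {q | edist p q ≤ s}) :
    ∃ ε : ℝ≥0, 0 < ε ∧ ∀ r < s + ε, IsCompact {q | edist p q ≤ (r : ℝ≥0)} := by
  obtain ⟨δ, hδ, hc⟩ := h.exists_isCompact_cthickening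
  lift δ to ℝ≥0 using hδ.le
  refine ⟨δ, by exact_mod_cast hδ, fun r hr => ?_⟩
  refine hc.of_isClosed_subset (R2a_closed p r) fun q hq => ?_
  have hq0 : edist p q ≤ r := hq
  have hq' : edist p q < (s : ℝ≥0∞) + δ := by
    refine lt_of_le_of_lt hq0 ?_
    exact_mod_cast hr
  obtain ⟨z, hz1, hz2⟩ := hmid p q _ _ hq'
  refine Metric.mem_cthickening_of_edist_le q z δ _ hz1 ?_
  rw [edist_comm, ENNReal.ofReal_coe_nnreal]
  exact hz2

lemma R2a_abstract {B : Type} [EMetricSpace B] [CompleteSpace B] [LocallyCompactSpace B]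
    (hmid : ∀ (p q : B) (a b : ℝ≥0), edist p q < (a : ℝ≥0∞) + b →
      ∃ z, edist p z ≤ a ∧ edist z q ≤ b)
    (p : B) (r : ℝ≥0) : IsCompact {q | edist p q ≤ r} := by
  by_contra hr
  set T : Set ℝ≥0 := {r | ¬ IsCompact {q | edist p q ≤ (r : ℝ≥0)}} with hT
  have hne : T.Nonempty := ⟨r, hr⟩
  have h1 : IsCompact {q | edist p q ≤ ((sInf T : ℝ≥0) : ℝ≥0∞)} := by
    refine R2a_up hmid p _ fun u hu => ?_
    by_contra hu'
    have : sInf T ≤ u := csInf_le (OrderBot.bddBelow T) hu'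
    exact absurd hu (not_lt.2 this)
  obtain ⟨ε, hε, h2⟩ := R2a_open hmid p _ h1
  have h3 : sInf T + ε ≤ sInf T := by
    refine le_csInf hne fun u hu => ?_
    by_contra hlt
    exact hu (h2 u (not_le.1 hlt))
  exact absurd h3 (not_le.2 (lt_add_of_pos_right _ hε))

variable {E : Type} [NormedAddCommGroup E] [NormedSpace ℂ E] [FiniteDimensional ℂ E]
  {B : Type} [EMetricSpace B] [ChartedSpace E B]
  [IsManifold 𝓘(ℝ, E) ∞ B] [RiemannianBundle fun x : B => TangentSpace 𝓘(ℝ, E) x]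
  [IsContMDiffRiemannianBundle 𝓘(ℝ, E) ∞ E fun x : B => TangentSpace 𝓘(ℝ, E) x]
  [IsRiemannianManifold 𝓘(ℝ, E) B]

omit [FiniteDimensional ℂ E] [IsManifold 𝓘(ℝ, E) ∞ B]
  [IsContMDiffRiemannianBundle 𝓘(ℝ, E) ∞ E fun x : B => TangentSpace 𝓘(ℝ, E) x] in
variable (E) in
include E in
lemma R2a_mid (p q : B) (a b : ℝ≥0) (h : edist p q < (a : ℝ≥0∞) + b) :
    ∃ z, edist p z ≤ a ∧ edist z q ≤ b := by
  by_cases ha : edist p q ≤ a
  · exact ⟨q, ha, by simp⟩
  have hout := IsRiemannianManifold.out (I := 𝓘(ℝ, E)) (M := B)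
  rw [hout] at h
  obtain ⟨γ, h0, h1, hγ, hlen⟩ := Manifold.exists_lt_of_riemannianEDist_lt h
  have hcont : ContinuousOn (fun t => edist p (γ t)) (Icc 0 1) :=
    (continuous_const.edist continuous_id).comp_continuousOn hγ.continuousOn
  have hmem : (a : ℝ≥0∞) ∈ Icc (edist p (γ 0)) (edist p (γ 1)) := by
    rw [h0, h1]
    exact ⟨by simp, (not_le.1 ha).le⟩
  obtain ⟨t, ht, hta⟩ := intermediate_value_Icc zero_le_one hcont hmem
  have hta' : edist p (γ t) = a := hta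
  refine ⟨γ t, hta'.le, ?_⟩
  have e1 : edist p (γ t) ≤ Manifold.pathELength 𝓘(ℝ, E) γ 0 t := by
    rw [hout]
    exact Manifold.riemannianEDist_le_pathELength (hγ.mono (Icc_subset_Icc le_rfl ht.2)) h0 rfl ht.1
  have e2 : edist (γ t) q ≤ Manifold.pathELength 𝓘(ℝ, E) γ t 1 := by
    rw [hout]
    exact Manifold.riemannianEDist_le_pathELength (hγ.mono (Icc_subset_Icc ht.1 le_rfl)) rfl h1 ht.2
  have e3 : (a : ℝ≥0∞) + edist (γ t) q < a + b := by
    calc (a : ℝ≥0∞) + edist (γ t) q ≤ Manifold.pathELength 𝓘(ℝ, E) γ 0 t +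
          Manifold.pathELength 𝓘(ℝ, E) γ t 1 := add_le_add (hta' ▸ e1) e2
      _ = Manifold.pathELength 𝓘(ℝ, E) γ 0 1 := Manifold.pathELength_add ht.1 ht.2
      _ < a + b := hlen
  exact (lt_of_add_lt_add_left e3).le

variable (E) in
include E in
/-- Hopf and Rinow: closed balls of a complete Riemannian manifold are compact -/
theorem hopf_rinow [CompleteSpace B] (p : B) (r : ℝ≥0) : IsCompact {q | edist p q ≤ r} := by
  have : LocallyCompactSpace B := Manifold.locallyCompact_of_finiteDimensional 𝓘(ℝ, E)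
  exact R2a_abstract (R2a_mid E) p r

end Pool.Agent.MP_e62289_ag

end

section

open Set Filter Topology Complex MeasureTheory Metric
open scoped Manifold ContDiff ComplexConjugate NNReal ENNReal

namespace Pool.Agent.MP_e62289_ag

open Bundle

variable {E : Type} [NormedAddCommGroup E] [NormedSpace ℂ E] [FiniteDimensional ℂ E]
  {B : Type} [EMetricSpace B] [ChartedSpace E B]
  [IsManifold 𝓘(ℝ, E) ∞ B] [RiemannianBundle fun x : B => TangentSpace 𝓘(ℝ, E) x]
  [IsContMDiffRiemannianBundle 𝓘(ℝ, E) ∞ E fun x : B => TangentSpace 𝓘(ℝ, E) x]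
  [IsRiemannianManifold 𝓘(ℝ, E) B]

attribute [local instance] normedAddCommGroupTangentSpaceVectorSpace
  normedSpaceTangentSpaceVectorSpace

omit [FiniteDimensional ℂ E]
  [IsContMDiffRiemannianBundle 𝓘(ℝ, E) ∞ E fun x : B => TangentSpace 𝓘(ℝ, E) x]
  [IsRiemannianManifold 𝓘(ℝ, E) B] in
set_option backward.isDefEq.respectTransparency false in
theorem R2b_path (p : B) (C : ℝ≥0) (γ : ℝ → B)
    (hγ : ContMDiff 𝓘(ℝ, ℝ) 𝓘(ℝ, E) 1 γ)
    (hs : ∀ t ∈ Icc (0 : ℝ) 1, γ t ∈ (chartAt E p).source)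
    (hC : ∀ t ∈ Icc (0 : ℝ) 1,
      ‖mfderiv 𝓘(ℝ, E) 𝓘(ℝ, E) (extChartAt 𝓘(ℝ, E) p) (γ t)‖ₑ < C) :
    ‖chartAt E p (γ 1) - chartAt E p (γ 0)‖ₑ ≤ C * Manifold.pathELength 𝓘(ℝ, E) γ 0 1 := by
  let γ' := extChartAt 𝓘(ℝ, E) p ∘ γ
  have hD : ContMDiffOn 𝓘(ℝ, ℝ) 𝓘(ℝ, E) 1 γ' (Icc 0 1) :=
    contMDiffOn_extChartAt.comp (I' := 𝓘(ℝ, E)) (t := (chartAt E p).source)
      hγ.contMDiffOn (fun t' ht' ↦ hs t' ht')
  calc
      ‖chartAt E p (γ 1) - chartAt E p (γ 0)‖ₑ = ‖γ' 1 - γ' 0‖ₑ := by simp [γ']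
    _ ≤ ∫⁻ t' in Icc 0 1, ‖derivWithin γ' (Icc 0 1) t'‖ₑ := by
      apply enorm_sub_le_lintegral_derivWithin_Icc_of_contDiffOn_Icc _ zero_le_one
      rwa [← contMDiffOn_iff_contDiffOn]
    _ = ∫⁻ t' in Icc 0 1, ‖mfderivWithin 𝓘(ℝ, ℝ) 𝓘(ℝ, E) γ' (Icc 0 1) t' 1‖ₑ := by
      simp_rw [← fderivWithin_derivWithin, mfderivWithin_eq_fderivWithin]
      rfl
    _ ≤ ∫⁻ t' in Icc 0 1, C * ‖mfderivWithin 𝓘(ℝ, ℝ) 𝓘(ℝ, E) γ (Icc 0 1) t' 1‖ₑ := by
      apply setLIntegral_mono' measurableSet_Icc (fun t' ht' ↦ ?_)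
      have h1 : mfderivWithin 𝓘(ℝ, ℝ) 𝓘(ℝ, E) γ' (Icc 0 1) t' =
          (mfderiv 𝓘(ℝ, E) 𝓘(ℝ, E) (extChartAt 𝓘(ℝ, E) p) (γ t')) ∘L
            (mfderivWithin 𝓘(ℝ, ℝ) 𝓘(ℝ, E) γ (Icc 0 1) t') := by
        apply mfderiv_comp_mfderivWithin
        · exact mdifferentiableAt_extChartAt (hs t' ht')
        · exact (hγ.mdifferentiable one_ne_zero).mdifferentiableOn _ ht'
        · rw [uniqueMDiffWithinAt_iff_uniqueDiffWithinAt]
          exact uniqueDiffOn_Icc zero_lt_one _ ht'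
      have h2 : mfderivWithin 𝓘(ℝ, ℝ) 𝓘(ℝ, E) γ' (Icc 0 1) t' 1 =
          (mfderiv 𝓘(ℝ, E) 𝓘(ℝ, E) (extChartAt 𝓘(ℝ, E) p) (γ t'))
            (mfderivWithin 𝓘(ℝ, ℝ) 𝓘(ℝ, E) γ (Icc 0 1) t' 1) :=
        congr($h1 1)
      rw [h2]
      apply (ContinuousLinearMap.le_opENorm _ _).trans
      gcongr
      exact (hC t' ht').le
    _ = C * Manifold.pathELength 𝓘(ℝ, E) γ 0 1 := by
      rw [lintegral_const_mul' _ _ ENNReal.coe_ne_top,
          Manifold.pathELength_eq_lintegral_mfderivWithin_Icc]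

omit [FiniteDimensional ℂ E] in
variable (E) in
/-- charts are locally Lipschitz at their centre -/
theorem chart_lower (p : B) :
    ∃ C : ℝ≥0, ∀ᶠ q in 𝓝 p, ‖chartAt E p q - chartAt E p p‖ₑ ≤ C * edist p q := by
  have : IsContinuousRiemannianBundle E (fun x : B => TangentSpace 𝓘(ℝ, E) x) := by
    obtain ⟨g, hg, hg'⟩ := IsContMDiffRiemannianBundle.exists_contMDiff (IB := 𝓘(ℝ, E))
      (n := ∞) (F := E) (E := fun x : B => TangentSpace 𝓘(ℝ, E) x)
    exact ⟨g, hg.continuous, hg'⟩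
  rcases eventually_enorm_mfderiv_extChartAt_lt 𝓘(ℝ, E) p with ⟨C, C_pos, hC⟩
  obtain ⟨r, r_pos, hr⟩ := EMetric.mem_nhds_iff.1 (hC.and (chart_source_mem_nhds E p))
  refine ⟨C, ?_⟩
  filter_upwards [Metric.eball_mem_nhds p r_pos] with q hq
  have hq' : edist p q < r := by simpa [Metric.mem_eball, edist_comm] using hq
  have key : ∀ s, edist p q < s → s ≤ r → ‖chartAt E p q - chartAt E p p‖ₑ ≤ C * s := by
    intro s hs hsr
    rw [IsRiemannianManifold.out (I := 𝓘(ℝ, E))] at hs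
    rcases Manifold.exists_lt_locally_constant_of_riemannianEDist_lt hs zero_lt_one
      with ⟨γ, hγx, hγy, γ_smooth, hγ, -⟩
    have hin : ∀ t ∈ Icc (0 : ℝ) 1, γ t ∈ Metric.eball p r := by
      intro t ht
      rw [Metric.mem_eball, edist_comm, IsRiemannianManifold.out (I := 𝓘(ℝ, E))]
      have h1 : Manifold.riemannianEDist 𝓘(ℝ, E) p (γ t) ≤
          Manifold.pathELength 𝓘(ℝ, E) γ 0 t :=
        Manifold.riemannianEDist_le_pathELength γ_smooth.contMDiffOn hγx rfl ht.1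
      have h2 : Manifold.pathELength 𝓘(ℝ, E) γ 0 t ≤ Manifold.pathELength 𝓘(ℝ, E) γ 0 1 :=
        Manifold.pathELength_mono le_rfl ht.2
      exact ((h1.trans h2).trans_lt hγ).trans_le hsr
    have h3 := R2b_path p C γ γ_smooth (fun t ht => (hr (hin t ht)).2)
      (fun t ht => (hr (hin t ht)).1)
    rw [hγx, hγy] at h3
    refine h3.trans ?_
    gcongr
  have hlim : Tendsto (fun s : ℝ≥0∞ => (C : ℝ≥0∞) * s) (𝓝[>] (edist p q))
      (𝓝 (C * edist p q)) :=
    (ENNReal.Tendsto.const_mul tendsto_id (Or.inr ENNReal.coe_ne_top)).mono_left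
      nhdsWithin_le_nhds
  have : (𝓝[>] (edist p q)).NeBot := nhdsGT_neBot_of_exists_gt ⟨r, hq'⟩
  refine ge_of_tendsto hlim ?_
  filter_upwards [Ioc_mem_nhdsGT hq'] with s hs using key s hs.1 hs.2

end Pool.Agent.MP_e62289_ag

end

section



end

section

open Set Filter Topology Complex MeasureTheory Metric
open scoped Manifold ContDiff ComplexConjugate NNReal ENNReal

set_option maxSynthPendingDepth 3

namespace Pool.Agent.MP_e62289_ag

variable {E : Type} [NormedAddCommGroup E] [NormedSpace ℂ E] [FiniteDimensional ℂ E]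

theorem R3a_isInvertible {g : E →L[ℝ] E →L[ℝ] ℝ} (hp : ∀ v, v ≠ 0 → 0 < g v v) :
    ∃ e : E ≃L[ℝ] (E →L[ℝ] ℝ), (e : E →L[ℝ] E →L[ℝ] ℝ) = g := by
  have hinj : Function.Injective (g : E →ₗ[ℝ] E →L[ℝ] ℝ) := by
    rw [injective_iff_map_eq_zero]
    intro v hv
    by_contra h0
    have h1 := hp v h0
    have h2 : g v = 0 := hv
    rw [h2] at h1
    simp at h1
  have hr : Module.finrank ℝ E = Module.finrank ℝ (E →L[ℝ] ℝ) := by
    rw [← (LinearMap.toContinuousLinearMap (𝕜 := ℝ) (E := E) (F' := ℝ)).finrank_eq]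
    exact Subspace.dual_finrank_eq.symm
  refine ⟨(LinearEquiv.ofInjectiveOfFinrankEq _ hinj hr).toContinuousLinearEquiv, ?_⟩
  ext v w
  rfl

/-- The Koszul form of a trilinear map. -/
noncomputable def R3a_koszul (T : E →L[ℝ] E →L[ℝ] E →L[ℝ] ℝ) : E →L[ℝ] E →L[ℝ] E →L[ℝ] ℝ :=
  (1 / 2 : ℝ) • (T + T.flip -
    (ContinuousLinearMap.flipₗᵢ ℝ E E ℝ).toContinuousLinearEquiv.toContinuousLinearMap.comp T.flip)

omit [FiniteDimensional ℂ E] in
theorem R3a_koszul_apply (T : E →L[ℝ] E →L[ℝ] E →L[ℝ] ℝ) (u v w : E) :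
    R3a_koszul T u v w = (T u v w + T v u w - T w u v) / 2 := by
  simp [R3a_koszul]
  ring

omit [FiniteDimensional ℂ E] in
theorem R3a_fderiv {G : E → E →L[ℝ] E →L[ℝ] ℝ} {z : E} (h : DifferentiableAt ℝ G z)
    (u v w : E) : fderiv ℝ (fun z => G z v w) z u = fderiv ℝ G z u v w := by
  have h1 : HasFDerivAt (fun z => G z v w)
      (((ContinuousLinearMap.apply ℝ ℝ w).comp
        (ContinuousLinearMap.apply ℝ (E →L[ℝ] ℝ) v)).comp (fderiv ℝ G z)) z :=
    ((ContinuousLinearMap.apply ℝ ℝ w).comp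
        (ContinuousLinearMap.apply ℝ (E →L[ℝ] ℝ) v)).hasFDerivAt.comp z h.hasFDerivAt
  rw [h1.fderiv]
  rfl

/-- Christoffel symbols of a Kähler metric on an open set -/
theorem exists_christoffel {U : Set E} (hU : IsOpen U) {G : E → E →L[ℝ] E →L[ℝ] ℝ}
    (hG : ContDiffOn ℝ ∞ G U) (hs : ∀ z ∈ U, ∀ v w, G z v w = G z w v)
    (hp : ∀ z ∈ U, ∀ v, v ≠ 0 → 0 < G z v v)
    (hh : ∀ z ∈ U, ∀ v w, G z (I • v) (I • w) = G z v w)
    (hk : ∀ z ∈ U, ∀ u v w, fderiv ℝ (fun z => G z (I • v) w) z u +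
      fderiv ℝ (fun z => G z (I • w) u) z v + fderiv ℝ (fun z => G z (I • u) v) z w = 0) :
    ∃ Γ : E → E →L[ℝ] E →L[ℝ] E, ContinuousOn Γ U ∧ ∀ z ∈ U,
      (∀ u v w, 2 * G z (Γ z u v) w = fderiv ℝ (fun z => G z v w) z u +
        fderiv ℝ (fun z => G z u w) z v - fderiv ℝ (fun z => G z u v) z w) ∧
      (∀ u v, Γ z u v = Γ z v u) ∧ (∀ u v, Γ z u (I • v) = I • Γ z u v) ∧
      ∀ u v w, fderiv ℝ (fun z => G z v w) z u = G z (Γ z u v) w + G z v (Γ z u w) := by
  have hat : ∀ z ∈ U, ContDiffAt ℝ ∞ G z := fun z hz => hG.contDiffAt (hU.mem_nhds hz)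
  have hd : ∀ z ∈ U, DifferentiableAt ℝ G z := fun z hz => (hat z hz).differentiableAt (by simp)
  have hc : ContinuousOn (fderiv ℝ G) U := hG.continuousOn_fderiv_of_isOpen hU (by simp)
  have hinv : ContinuousOn (fun z => (G z).inverse) U := fun z hz => by
    obtain ⟨e, he⟩ := R3a_isInvertible (hp z hz)
    have h1 : ContinuousAt ContinuousLinearMap.inverse (G z) := by
      rw [← he]
      exact (contDiffAt_map_inverse (n := 0) e).continuousAt
    exact (ContinuousAt.comp (f := G) h1 (hat z hz).continuousAt).continuousWithinAt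
  refine ⟨fun z => (ContinuousLinearMap.compL ℝ E (E →L[ℝ] ℝ) E (G z).inverse).comp
    (R3a_koszul (fderiv ℝ G z)), ?_, fun z hz => ?_⟩
  · rw [continuousOn_clm_apply]
    intro u
    rw [continuousOn_clm_apply]
    intro v
    show ContinuousOn (fun z => (G z).inverse (R3a_koszul (fderiv ℝ G z) u v)) U
    refine hinv.clm_apply ?_
    rw [continuousOn_clm_apply]
    intro w
    simp only [R3a_koszul_apply]
    have h3 : ∀ a b c : E, ContinuousOn (fun z => fderiv ℝ G z a b c) U := fun a b c =>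
      ((hc.clm_apply continuousOn_const).clm_apply continuousOn_const).clm_apply
        continuousOn_const
    exact (((h3 u v w).add (h3 v u w)).sub (h3 w u v)).div_const 2
  obtain ⟨e, he⟩ := R3a_isInvertible (hp z hz)
  have hker : ∀ a b : E, (∀ w, G z a w = G z b w) → a = b := fun a b h => by
    apply e.injective
    ext w
    have := h w
    rw [← he] at this
    exact this
  have hD := R3a_fderiv (hd z hz)
  have hk' := hk z hz
  simp only [hD] at hk' ⊢
  have hsym : ∀ u v w, fderiv ℝ G z u v w = fderiv ℝ G z u w v := fun u v w => by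
    rw [← hD, ← hD]
    congr 1
    exact Filter.EventuallyEq.fderiv_eq
      (Filter.eventually_of_mem (hU.mem_nhds hz) fun y hy => hs y hy v w)
  have hI : ∀ u v w, fderiv ℝ G z u (I • v) (I • w) = fderiv ℝ G z u v w := fun u v w => by
    rw [← hD, ← hD]
    congr 1
    exact Filter.EventuallyEq.fderiv_eq
      (Filter.eventually_of_mem (hU.mem_nhds hz) fun y hy => hh y hy v w)
  have hII : ∀ v : E, I • I • v = -v := fun v => by rw [smul_smul, I_mul_I, neg_one_smul]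
  have hI' : ∀ u v w, fderiv ℝ G z u (I • v) w = -fderiv ℝ G z u v (I • w) := fun u v w => by
    have := hI u v (I • w)
    rw [hII, map_neg] at this
    linarith
  have hG' : ∀ v w, G z (I • v) w = -G z v (I • w) := fun v w => by
    have := hh z hz v (I • w)
    rw [hII, map_neg] at this
    linarith
  have hΓ : ∀ u v w, G z (((ContinuousLinearMap.compL ℝ E (E →L[ℝ] ℝ) E (G z).inverse).comp
      (R3a_koszul (fderiv ℝ G z))) u v) w =
      (fderiv ℝ G z u v w + fderiv ℝ G z v u w - fderiv ℝ G z w u v) / 2 := fun u v w => by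
    rw [← R3a_koszul_apply]
    show G z ((G z).inverse (R3a_koszul (fderiv ℝ G z) u v)) w = _
    rw [← he, ContinuousLinearMap.inverse_equiv]
    simp
  generalize ((ContinuousLinearMap.compL ℝ E (E →L[ℝ] ℝ) E (G z).inverse).comp
      (R3a_koszul (fderiv ℝ G z))) = Γ at hΓ ⊢
  generalize fderiv ℝ G z = D at hΓ hsym hI hI' hk' ⊢
  refine ⟨fun u v w => ?_, fun u v => hker _ _ fun w => ?_, fun u v => hker _ _ fun w => ?_,
    fun u v w => ?_⟩
  · rw [hΓ]; ring
  · rw [hΓ, hΓ, hsym w u v]; ring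
  · rw [hG', hΓ, hΓ]
    have a1 := hk' u v w
    have a2 := hk' u (I • v) (I • w)
    rw [hII, hII, hI] at a2
    simp only [map_neg, neg_apply] at a2
    have a3 := hI' u v w
    have a4 := hI' w u v
    have a5 := hsym v (I • w) u
    have a6 := hsym (I • v) w u
    linarith
  · rw [hs z hz v, hΓ, hΓ, hsym u w v]; ring

end Pool.Agent.MP_e62289_ag

end

section

open Set Filter Topology Complex MeasureTheory Metric
open scoped Manifold ContDiff ComplexConjugate NNReal ENNReal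

namespace Pool.Agent.MP_e62289_ag

variable {E : Type} [NormedAddCommGroup E] [NormedSpace ℂ E] [FiniteDimensional ℂ E]

/-- numerator of the sectional curvature -/
noncomputable def secNum (G : E → E →L[ℝ] E →L[ℝ] ℝ) (Γ : E → E →L[ℝ] E →L[ℝ] E) (z u v : E) :
    ℝ :=
  fderiv ℝ (fun z => fderiv ℝ (fun z => G z u v) z v) z u -
    fderiv ℝ (fun z => fderiv ℝ (fun z => G z v v) z u) z u / 2 -
    fderiv ℝ (fun z => fderiv ℝ (fun z => G z u u) z v) z v / 2 +
    G z (Γ z u v) (Γ z u v) - G z (Γ z u u) (Γ z v v)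

omit [FiniteDimensional ℂ E] in
theorem R3b_cd {U : Set E} (hU : IsOpen U) {G : E → E →L[ℝ] E →L[ℝ] ℝ}
    (hG : ContDiffOn ℝ ∞ G U) {z : E} (hz : z ∈ U) (v w : E) :
    ContDiffAt ℝ ∞ (fun z => G z v w) z :=
  ((hG.contDiffAt (hU.mem_nhds hz)).clm_apply contDiffAt_const).clm_apply contDiffAt_const

omit [FiniteDimensional ℂ E] in
theorem R3b_diff {f : E → ℝ} {z : E} (hf : ContDiffAt ℝ ∞ f z) :
    DifferentiableAt ℝ (fderiv ℝ f) z :=
  (hf.fderiv_right (m := 1) (WithTop.coe_le_coe.2 (le_top : (2 : ℕ∞) ≤ ⊤))).differentiableAt (by simp)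

omit [FiniteDimensional ℂ E] in
theorem R3b_snd {f : E → ℝ} {z : E} (hf : ContDiffAt ℝ ∞ f z) (a b : E) :
    fderiv ℝ (fun z => fderiv ℝ f z b) z a = fderiv ℝ (fderiv ℝ f) z a b := by
  rw [fderiv_clm_apply (R3b_diff hf) (differentiableAt_const b)]
  simp

omit [FiniteDimensional ℂ E] in
theorem R3b_symm {f : E → ℝ} {z : E} (hf : ContDiffAt ℝ ∞ f z) (a b : E) :
    fderiv ℝ (fun z => fderiv ℝ f z b) z a = fderiv ℝ (fun z => fderiv ℝ f z a) z b := by
  rw [R3b_snd hf, R3b_snd hf]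
  refine (hf.isSymmSndFDerivAt ?_) a b
  simp only [minSmoothness_of_isRCLikeNormedField]
  exact WithTop.coe_le_coe.2 (le_top : (2 : ℕ∞) ≤ ⊤)

omit [FiniteDimensional ℂ E] in
theorem R3b_congr {U : Set E} (hU : IsOpen U) {f g : E → ℝ} (h : ∀ z ∈ U, f z = g z) {z : E}
    (hz : z ∈ U) (a b : E) :
    fderiv ℝ (fun z => fderiv ℝ f z b) z a = fderiv ℝ (fun z => fderiv ℝ g z b) z a := by
  have e : (fun z => fderiv ℝ f z b) =ᶠ[𝓝 z] fun z => fderiv ℝ g z b := by
    filter_upwards [hU.mem_nhds hz] with y hy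
    have : f =ᶠ[𝓝 y] g := by
      filter_upwards [hU.mem_nhds hy] with x hx using h x hx
    rw [this.fderiv_eq]
  rw [e.fderiv_eq]

omit [FiniteDimensional ℂ E] in
theorem R3b_II (x : E) : I • I • x = -x := by
  rw [smul_smul, I_mul_I, neg_smul, one_smul]

omit [FiniteDimensional ℂ E] in
/-- the bisectional curvature is a sum of two sectional curvatures -/
theorem bisec_eq {U : Set E} (hU : IsOpen U) {G : E → E →L[ℝ] E →L[ℝ] ℝ}
    {Γ : E → E →L[ℝ] E →L[ℝ] E}
    (hG : ContDiffOn ℝ ∞ G U) (hs : ∀ z ∈ U, ∀ v w, G z v w = G z w v)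
    (hh : ∀ z ∈ U, ∀ v w, G z (I • v) (I • w) = G z v w)
    (h1 : ∀ z ∈ U, ∀ u v, Γ z u v = Γ z v u) (h2 : ∀ z ∈ U, ∀ u v, Γ z u (I • v) = I • Γ z u v)
    (h3 : ∀ z ∈ U, ∀ u v w,
      fderiv ℝ (fun z => G z v w) z u = G z (Γ z u v) w + G z v (Γ z u w))
    {z : E} (hz : z ∈ U) (V X : E) :
    2 * G z (Γ z V X) (Γ z V X) -
      (fderiv ℝ (fun z => fderiv ℝ (fun z => G z X X) z V) z V +
        fderiv ℝ (fun z => fderiv ℝ (fun z => G z X X) z (I • V)) z (I • V)) / 2 =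
      secNum G Γ z V X + secNum G Γ z V (I • X) := by
  have hII : ∀ y ∈ U, ∀ u, Γ y (I • u) (I • u) = -Γ y u u := fun y hy u => by
    rw [h2 y hy, h1 y hy, h2 y hy, R3b_II]
  have key : ∀ y ∈ U, ∀ v x, fderiv ℝ (fun z => G z v x) y x +
      fderiv ℝ (fun z => G z v (I • x)) y (I • x) = fderiv ℝ (fun z => G z x x) y v := by
    intro y hy v x
    rw [h3 y hy, h3 y hy, h3 y hy, hII y hy, h1 y hy (I • x) v, h2 y hy, hh y hy, map_neg,
      h1 y hy x v, hs y hy x (Γ y v x)]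
    ring
  have ks : ∀ a v x, fderiv ℝ (fun z => fderiv ℝ (fun z => G z v x) z x) z a +
      fderiv ℝ (fun z => fderiv ℝ (fun z => G z v (I • x)) z (I • x)) z a =
      fderiv ℝ (fun z => fderiv ℝ (fun z => G z x x) z v) z a := by
    intro a v x
    have e : (fun z => fderiv ℝ (fun z => G z x x) z v) =ᶠ[𝓝 z] fun z =>
        fderiv ℝ (fun z => G z v x) z x + fderiv ℝ (fun z => G z v (I • x)) z (I • x) := by
      filter_upwards [hU.mem_nhds hz] with y hy using (key y hy v x).symm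
    rw [e.fderiv_eq, fderiv_fun_add
      ((R3b_diff (R3b_cd hU hG hz v x)).clm_apply (differentiableAt_const x))
      ((R3b_diff (R3b_cd hU hG hz v (I • x))).clm_apply (differentiableAt_const (I • x)))]
    rfl
  have sw : ∀ a b, fderiv ℝ (fun z => fderiv ℝ (fun z => G z a b) z b) z a =
      fderiv ℝ (fun z => fderiv ℝ (fun z => G z b a) z a) z b := by
    intro a b
    rw [R3b_symm (R3b_cd hU hG hz a b) a b]
    exact R3b_congr hU (fun y hy => hs y hy a b) hz b a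
  have hX := R3b_congr hU (fun y hy => hh y hy X X) hz V V
  have k1 := ks X X V
  have k2 := ks (I • X) (I • X) V
  have k3 := ks V V X
  have k4 := ks (I • V) (I • V) X
  rw [sw X V, sw X (I • V)] at k1
  rw [sw (I • X) V, sw (I • X) (I • V)] at k2
  simp only [secNum]
  rw [hX, hII z hz, h2 z hz, hh z hz, map_neg]
  linarith

end Pool.Agent.MP_e62289_ag

end

section



end

section

open Set Filter Topology Complex MeasureTheory Metric
open scoped Manifold ContDiff ComplexConjugate NNReal ENNReal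

namespace Pool.Agent.MP_e62289_ag

open Bundle

variable {E : Type} [NormedAddCommGroup E] [NormedSpace ℂ E] [FiniteDimensional ℂ E]
  {B : Type} [EMetricSpace B] [ChartedSpace E B]
  [IsManifold 𝓘(ℝ, E) ∞ B] [RiemannianBundle fun x : B => TangentSpace 𝓘(ℝ, E) x]
  [IsContMDiffRiemannianBundle 𝓘(ℝ, E) ∞ E fun x : B => TangentSpace 𝓘(ℝ, E) x]
  [IsRiemannianManifold 𝓘(ℝ, E) B]

theorem exists_kdata [CompleteSpace B] (h1 : IsKahler E B) (h2 : SecBounded E B)
    (h3 : DBounded E B) : ∃ k : KData E B, Nonempty (DData k) := by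
  obtain ⟨G, hG, hsm, hpos⟩ := exists_G E B
  have hGf : ∀ x v w, (fun z => cm E x z v w) = fun z => G x z v w :=
    fun x v w => funext fun z => (hG x z v w).symm
  have hs : ∀ x z v w, G x z v w = G x z w v := fun x z v w => by
    rw [hG, hG, cm, cm, real_inner_comm]
  have hh : ∀ x, ∀ z ∈ (chartAt E x).target, ∀ v w, G x z (I • v) (I • w) = G x z v w :=
    fun x z hz v w => by rw [hG, hG]; exact (h1 x z hz).1 v w
  have hk : ∀ x, ∀ z ∈ (chartAt E x).target, ∀ u v w,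
      fderiv ℝ (fun z => G x z (I • v) w) z u + fderiv ℝ (fun z => G x z (I • w) u) z v +
        fderiv ℝ (fun z => G x z (I • u) v) z w = 0 := fun x z hz u v w => by
    rw [← hGf, ← hGf, ← hGf]; exact (h1 x z hz).2 u v w
  choose Γ hΓc hΓ using fun x => exists_christoffel (chartAt E x).open_target (hsm x)
    (fun z _ => hs x z) (hpos x) (hh x) (hk x)
  obtain ⟨K, hK⟩ := h2
  have hc : ∀ x, ∀ z ∈ (chartAt E x).target, ∀ u v, IsChristoffel E x z u v (Γ x z u v) :=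
    fun x z hz u v w => by
      rw [hGf, hGf, hGf, ← hG]; exact (hΓ x z hz).1 u v w
  have hcs : ∀ x z u v, G x z u v ^ 2 ≤ G x z u u * G x z v v := fun x z u v => by
    rw [hG, hG, hG, cm, cm, cm, sq]; exact real_inner_mul_inner_self_le _ _
  have hsec : ∀ x, ∀ z ∈ (chartAt E x).target, ∀ u v,
      |secNum (G x) (Γ x) z u v| ≤ |K| * (G x z u u * G x z v v) := fun x z hz u v => by
    have h := hK x z hz u v _ _ _ (hc x z hz u v) (hc x z hz u u) (hc x z hz v v)
    simp only [← hG] at h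
    refine le_trans h ?_
    have h0 := hcs x z u v
    have h4 := sq_nonneg (G x z u v)
    calc K * (G x z u u * G x z v v - G x z u v ^ 2)
        ≤ |K| * (G x z u u * G x z v v - G x z u v ^ 2) :=
          mul_le_mul_of_nonneg_right (le_abs_self K) (by linarith)
      _ ≤ _ := mul_le_mul_of_nonneg_left (by linarith) (abs_nonneg K)
  obtain ⟨α, C, hb, hα⟩ := h3
  refine ⟨{ G := G
            Γ := Γ
            K := 2 * |K|
            K_nonneg := by positivity
            smooth := hsm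
            symm := fun x z _ => hs x z
            pos := hpos
            herm := hh
            compat := fun x y q hq v w => by rw [hG, hG]; exact cm_compat hq.1 hq.2 v w
            Γ_cont := hΓc
            Γ_symm := fun x z hz => (hΓ x z hz).2.1
            Γ_I := fun x z hz => (hΓ x z hz).2.2.1
            metric := fun x z hz => (hΓ x z hz).2.2.2
            bisec := fun x z hz V X => ?_
            length := fun x c c' hc hd hm => by
              simp only [hG]; exact cm_length x c c' hc hd hm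
            compact := hopf_rinow E
            lower := chart_lower E }, ⟨?_⟩⟩
  · rw [bisec_eq (chartAt E x).open_target (hsm x) (fun z _ => hs x z) (hh x)
      (fun z hz => (hΓ x z hz).2.1) (fun z hz => (hΓ x z hz).2.2.1)
      (fun z hz => (hΓ x z hz).2.2.2) hz V X]
    have a1 := hsec x z hz V X
    have a2 := hsec x z hz V (I • X)
    rw [hh x z hz X X] at a2
    refine (abs_add_le _ _).trans ?_
    linarith
  · let β : B → E → E →L[ℝ] ℝ := fun x z =>
      (α _).comp (mfderiv 𝓘(ℝ, E) 𝓘(ℝ, E) (chartAt E x).symm z)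
    have hβ : ∀ x z v, β x z v = α _ (tv E x z v) := fun _ _ _ => rfl
    have hsβ : ∀ x, ContDiffOn ℝ 1 (β x) (chartAt E x).target := fun x =>
      contDiffOn_clm_apply.2 (hα x).1
    have hd : ∀ x, ∀ z ∈ (chartAt E x).target, ∀ v w,
        fderiv ℝ (β x) z v w = fderiv ℝ (fun z => α _ (tv E x z w)) z v := fun x z hz v w => by
      have h5 : DifferentiableAt ℝ (β x) z :=
        ((hsβ x).contDiffAt ((chartAt E x).open_target.mem_nhds hz)).differentiableAt one_ne_zero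
      have h6 := fderiv_clm_apply h5 (differentiableAt_const w)
      change _ = fderiv ℝ (fun z => β x z w) z v
      rw [h6]
      simp
    refine
      { α := β
        C := C
        smooth := hsβ
        compat := fun x y q hq v => ?_
        bound := fun x z _ v => ?_
        d := fun x z hz v w => ?_ }
    · rw [hβ, hβ]
      have key : ∀ (p p' : B) (a b : E), p = p' → a = b → α p a = α p' b := by
        rintro p _ a _ rfl rfl
        rfl
      exact key _ _ _ _ (((chartAt E y).left_inv hq.2).trans ((chartAt E x).left_inv hq.1).symm)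
        (tv_compat hq.1 hq.2 v)
    · rw [hβ]
      change _ ≤ C * √(G x z v v)
      rw [hG, cm, ← norm_eq_sqrt_real_inner]
      exact hb _ _
    · rw [hd x z hz, hd x z hz]
      change _ = G x z (I • v) w
      rw [hG]
      exact (hα x).2 z hz v w

end Pool.Agent.MP_e62289_ag

end
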