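import Pool.Agent.MP_e62289_ag.Pub
import Pool.Agent.Mg.Fe62289.Gcfc865

section

/-! Wirtinger parts of real-linear maps of `ℂ`, derivatives of maps between surfaces and
admissible diffeomorphisms. -/

open Set Filter Topology Complex
open scoped Manifold ContDiff ComplexConjugate

namespace Pool.Agent.MP_e62289_ag

/-- complex-linear part of a real-linear map of `ℂ` -/
noncomputable def w1 (L : ℂ →L[ℝ] ℂ) : ℂ := (L 1 - I * L I) / 2
/-- conjugate-linear part of a real-linear map of `ℂ` -/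
noncomputable def w2 (L : ℂ →L[ℝ] ℂ) : ℂ := (L 1 + I * L I) / 2

theorem w_apply (L : ℂ →L[ℝ] ℂ) (v : ℂ) : L v = w1 L * v + w2 L * conj v := by
  have h : v = v.re • (1 : ℂ) + v.im • I := by
    simp [Complex.re_add_im]
  have h2 : L v = v.re * L 1 + v.im * L I := by
    conv_lhs => rw [h]
    rw [map_add, map_smul, map_smul]
    simp
  rw [h2, w1, w2]
  conv_rhs => rw [← Complex.re_add_im v]
  simp only [map_add, map_mul, conj_ofReal, conj_I]
  linear_combination (v.im * L I) * I_mul_I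

theorem w_eq {L : ℂ →L[ℝ] ℂ} {a b : ℂ} (h : ∀ v, L v = a * v + b * conj v) :
    w1 L = a ∧ w2 L = b := by
  constructor
  · rw [w1, h, h, conj_I, map_one]
    linear_combination (-(a - b) / 2) * I_mul_I
  · rw [w2, h, h, conj_I, map_one]
    linear_combination ((a - b) / 2) * I_mul_I

theorem w_comp (L M : ℂ →L[ℝ] ℂ) :
    w1 (L.comp M) = w1 L * w1 M + w2 L * conj (w2 M) ∧
    w2 (L.comp M) = w1 L * w2 M + w2 L * conj (w1 M) := by
  refine w_eq fun v => ?_
  rw [ContinuousLinearMap.comp_apply, w_apply L, w_apply M]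
  simp only [map_add, map_mul, conj_conj]
  ring

theorem w_id : w1 (ContinuousLinearMap.id ℝ ℂ) = 1 ∧ w2 (ContinuousLinearMap.id ℝ ℂ) = 0 :=
  w_eq fun v => by simp

theorem w_det (a b c d : ℂ) : ‖a * c + b * conj d‖ ^ 2 - ‖a * d + b * conj c‖ ^ 2 =
    (‖a‖ ^ 2 - ‖b‖ ^ 2) * (‖c‖ ^ 2 - ‖d‖ ^ 2) := by
  simp only [Complex.sq_norm, normSq_apply, add_re, add_im, mul_re, mul_im, conj_re, conj_im]
  ring

section Surf

variable {Y Y' Y'' : Type} [TopologicalSpace Y] [ChartedSpace ℂ Y] [TopologicalSpace Y']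
  [ChartedSpace ℂ Y'] [TopologicalSpace Y''] [ChartedSpace ℂ Y'']

/-- the real derivative of a map between surfaces in the preferred charts -/
noncomputable def dd (G : Y → Y') (q : Y) : ℂ →L[ℝ] ℂ := mfderiv 𝓘(ℝ, ℂ) 𝓘(ℝ, ℂ) G q
/-- `∂ G` -/
noncomputable def d1 (G : Y → Y') (q : Y) : ℂ := w1 (dd G q)
/-- `∂bar G` -/
noncomputable def d2 (G : Y → Y') (q : Y) : ℂ := w2 (dd G q)
/-- the Beltrami coefficient -/
noncomputable def bel (G : Y → Y') (q : Y) : ℂ := d2 G q / d1 G q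

theorem dd_comp {G : Y' → Y''} {F : Y → Y'} {q : Y}
    (hG : MDifferentiableAt 𝓘(ℝ, ℂ) 𝓘(ℝ, ℂ) G (F q)) (hF : MDifferentiableAt 𝓘(ℝ, ℂ) 𝓘(ℝ, ℂ) F q) :
    dd (G ∘ F) q = (dd G (F q)).comp (dd F q) := mfderiv_comp q hG hF

theorem d_comp {G : Y' → Y''} {F : Y → Y'} {q : Y}
    (hG : MDifferentiableAt 𝓘(ℝ, ℂ) 𝓘(ℝ, ℂ) G (F q)) (hF : MDifferentiableAt 𝓘(ℝ, ℂ) 𝓘(ℝ, ℂ) F q) :
    d1 (G ∘ F) q = d1 G (F q) * d1 F q + d2 G (F q) * conj (d2 F q) ∧
    d2 (G ∘ F) q = d1 G (F q) * d2 F q + d2 G (F q) * conj (d1 F q) := by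
  simp only [d1, d2, dd_comp hG hF]
  exact w_comp _ _

theorem d_id (q : Y) : d1 (id : Y → Y) q = 1 ∧ d2 (id : Y → Y) q = 0 := by
  have : dd (id : Y → Y) q = ContinuousLinearMap.id ℝ ℂ := mfderiv_id
  simp only [d1, d2, this]
  exact w_id

theorem d_congr {G G' : Y → Y'} {q : Y} (h : G =ᶠ[𝓝 q] G') :
    d1 G q = d1 G' q ∧ d2 G q = d2 G' q := by
  have : dd G q = dd G' q := h.mfderiv_eq
  simp only [d1, d2, this, and_self]

variable (Y Y') in
/-- admissible maps: orientation preserving `C²` diffeomorphisms, conformal off a compact set -/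
structure Adm where
  φ : Diffeomorph 𝓘(ℝ, ℂ) 𝓘(ℝ, ℂ) Y Y' 2
  pos : ∀ q, ‖d2 φ q‖ < ‖d1 φ q‖
  conf : ∃ K, IsCompact K ∧ ∀ q, q ∉ K → d2 φ q = 0

namespace Adm

theorem md (A : Adm Y Y') (q : Y) : MDifferentiableAt 𝓘(ℝ, ℂ) 𝓘(ℝ, ℂ) A.φ q :=
  A.φ.contMDiff.mdifferentiableAt (by simp)

theorem md' (A : Adm Y Y') (q : Y') : MDifferentiableAt 𝓘(ℝ, ℂ) 𝓘(ℝ, ℂ) A.φ.symm q :=
  A.φ.symm.contMDiff.mdifferentiableAt (by simp)

theorem d1_ne (A : Adm Y Y') (q : Y) : d1 A.φ q ≠ 0 :=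
  norm_pos_iff.1 ((norm_nonneg _).trans_lt (A.pos q))

theorem sq_pos (A : Adm Y Y') (q : Y) : 0 < ‖d1 A.φ q‖ ^ 2 - ‖d2 A.φ q‖ ^ 2 :=
  sub_pos.2 (pow_lt_pow_left₀ (A.pos q) (norm_nonneg _) two_ne_zero)

theorem norm_bel_lt (A : Adm Y Y') (q : Y) : ‖bel A.φ q‖ < 1 := by
  rw [bel, norm_div, div_lt_one (norm_pos_iff.2 (A.d1_ne q))]
  exact A.pos q

theorem d_symm (A : Adm Y Y') (q : Y') :
    d1 A.φ (A.φ.symm q) * d1 A.φ.symm q + d2 A.φ (A.φ.symm q) * conj (d2 A.φ.symm q) = 1 ∧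
    d1 A.φ (A.φ.symm q) * d2 A.φ.symm q + d2 A.φ (A.φ.symm q) * conj (d1 A.φ.symm q) = 0 := by
  have h := d_comp (A.md (A.φ.symm q)) (A.md' q)
  have e : (A.φ : Y → Y') ∘ A.φ.symm = id := funext fun y => A.φ.apply_symm_apply y
  rw [e, (d_id q).1, (d_id q).2] at h
  exact ⟨h.1.symm, h.2.symm⟩

theorem d2_symm (A : Adm Y Y') {q : Y'} (h : d2 A.φ (A.φ.symm q) = 0) : d2 A.φ.symm q = 0 := by
  have := (A.d_symm q).2
  rw [h, zero_mul, add_zero] at this
  exact (mul_eq_zero.1 this).resolve_left (A.d1_ne _)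

variable (Y) in
/-- the identity -/
noncomputable def refl : Adm Y Y where
  φ := Diffeomorph.refl _ _ _
  pos q := by
    have := d_id q
    change ‖d2 id q‖ < ‖d1 id q‖
    rw [this.1, this.2]
    simp
  conf := ⟨∅, isCompact_empty, fun q _ => (d_id q).2⟩

/-- composition: first `A`, then `A'` -/
noncomputable def trans (A : Adm Y Y') (A' : Adm Y' Y'') : Adm Y Y'' where
  φ := A.φ.trans A'.φ
  pos q := by
    have h := d_comp (A'.md (A.φ q)) (A.md q)
    change ‖d2 (A'.φ ∘ A.φ) q‖ < ‖d1 (A'.φ ∘ A.φ) q‖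
    rw [h.1, h.2]
    refine lt_of_pow_lt_pow_left₀ 2 (norm_nonneg _) (sub_pos.1 ?_)
    rw [w_det]
    exact mul_pos (A'.sq_pos _) (A.sq_pos q)
  conf := by
    obtain ⟨K, hK, h⟩ := A.conf
    obtain ⟨K', hK', h'⟩ := A'.conf
    refine ⟨K ∪ A.φ.symm '' K', hK.union (hK'.image A.φ.symm.continuous), fun q hq => ?_⟩
    change d2 (A'.φ ∘ A.φ) q = 0
    rw [(d_comp (A'.md (A.φ q)) (A.md q)).2, h q fun h => hq (Or.inl h),
      h' (A.φ q) fun h => hq (Or.inr ⟨_, h, A.φ.symm_apply_apply q⟩)]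
    simp

/-- the inverse -/
noncomputable def symm (A : Adm Y Y') : Adm Y' Y where
  φ := A.φ.symm
  pos q := by
    have h := w_det (d1 A.φ (A.φ.symm q)) (d2 A.φ (A.φ.symm q)) (d1 A.φ.symm q) (d2 A.φ.symm q)
    rw [(A.d_symm q).1, (A.d_symm q).2] at h
    refine lt_of_pow_lt_pow_left₀ 2 (norm_nonneg _) (sub_pos.1 ?_)
    refine (pos_iff_pos_of_mul_pos ?_).1 (A.sq_pos (A.φ.symm q))
    rw [← h]
    simp
  conf := by
    obtain ⟨K, hK, h⟩ := A.conf
    exact ⟨A.φ '' K, hK.image A.φ.continuous, fun q hq =>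
      A.d2_symm (h _ fun h' => hq ⟨_, h', A.φ.apply_symm_apply q⟩)⟩

@[simp] theorem refl_apply (q : Y) : (refl Y).φ q = q := rfl
@[simp] theorem trans_apply (A : Adm Y Y') (A' : Adm Y' Y'') (q : Y) :
    (A.trans A').φ q = A'.φ (A.φ q) := rfl
theorem trans_coe (A : Adm Y Y') (A' : Adm Y' Y'') : ⇑(A.trans A').φ = A'.φ ∘ A.φ := rfl
@[simp] theorem symm_apply (A : Adm Y Y') (q : Y') : A.symm.φ q = A.φ.symm q := rfl
@[simp] theorem trans_symm_apply (A : Adm Y Y') (A' : Adm Y' Y'') (q : Y'') :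
    (A.trans A').φ.symm q = A.φ.symm (A'.φ.symm q) := rfl
@[simp] theorem symm_symm_apply (A : Adm Y Y') (q : Y) : A.symm.φ.symm q = A.φ q := rfl

theorem d_trans (A : Adm Y Y') (A' : Adm Y' Y'') (q : Y) :
    d1 (A.trans A').φ q = d1 A'.φ (A.φ q) * d1 A.φ q + d2 A'.φ (A.φ q) * conj (d2 A.φ q) ∧
    d2 (A.trans A').φ q = d1 A'.φ (A.φ q) * d2 A.φ q + d2 A'.φ (A.φ q) * conj (d1 A.φ q) := by
  rw [trans_coe]
  exact d_comp (A'.md (A.φ q)) (A.md q)

/-- the transformation rule of Beltrami coefficients -/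
noncomputable def act (Θ : Adm Y Y') (μ : Y' → ℂ) (q : Y) : ℂ :=
  (d2 Θ.φ q + μ (Θ.φ q) * conj (d1 Θ.φ q)) / (d1 Θ.φ q + μ (Θ.φ q) * conj (d2 Θ.φ q))

theorem bel_trans (A : Adm Y Y') (A' : Adm Y' Y'') : bel (A.trans A').φ = A.act (bel A'.φ) := by
  funext q
  have h := A'.d1_ne (A.φ q)
  rw [bel, (A.d_trans A' q).1, (A.d_trans A' q).2, act, bel]
  conv_rhs => rw [← mul_div_mul_left _ _ h, mul_add, mul_add, ← mul_assoc, ← mul_assoc,
    mul_div_cancel₀ _ h]

theorem bel_trans_conf (A : Adm Y Y') (A' : Adm Y' Y'') {q : Y} (h : d2 A'.φ (A.φ q) = 0) :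
    bel (A.trans A').φ q = bel A.φ q := by
  rw [bel_trans, act, bel, h]
  simp [bel]

end Adm

end Surf

end Pool.Agent.MP_e62289_ag

end

section

open Set Filter Topology Complex MeasureTheory Metric
open scoped Manifold ContDiff ComplexConjugate NNReal ENNReal

namespace Pool.Agent.MP_e62289_ag

/-- A connected flat surface with `n` ends conformally equivalent to punctured discs and a
nowhere vanishing holomorphic function `f` (the twist). -/
structure Flat (n : ℕ) where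
  Y : Type
  [top : TopologicalSpace Y]
  [t2 : T2Space Y]
  [sc : SecondCountableTopology Y]
  [cn : ConnectedSpace Y]
  [ms : MeasurableSpace Y]
  [bor : BorelSpace Y]
  [ch : ChartedSpace ℂ Y]
  [mC : IsManifold 𝓘(ℂ, ℂ) ω Y]
  [mR : IsManifold 𝓘(ℝ, ℂ) ω Y]
  flat : ∀ x y : Y, ∀ q ∈ (chartAt ℂ x).source ∩ (chartAt ℂ y).source, ∀ᶠ q' in 𝓝 q,
    chartAt ℂ x q' - chartAt ℂ y q' = chartAt ℂ x q - chartAt ℂ y q
  lam : Measure Y
  area : ∀ (x : Y) (A : Set Y), MeasurableSet A → A ⊆ (chartAt ℂ x).source →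
    lam A = volume (chartAt ℂ x '' A)
  e : Fin n → OpenPartialHomeomorph Y ℂ
  e_target : ∀ i, (e i).target = ball 0 1 \ {0}
  e_hol : ∀ i, MDifferentiableOn 𝓘(ℂ, ℂ) 𝓘(ℂ, ℂ) (e i) (e i).source
  e_disj : Pairwise fun i j => Disjoint (e i).source (e j).source
  e_closed : ∀ i r, r < 1 → IsClosed {q | q ∈ (e i).source ∧ ‖e i q‖ ≤ r}
  e_compact : ∀ r, 0 < r → IsCompact {q | ∀ i, q ∈ (e i).source → r ≤ ‖e i q‖}
  f : Y → ℂ
  f_hol : MDifferentiable 𝓘(ℂ, ℂ) 𝓘(ℂ, ℂ) f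
  f_ne : ∀ q, f q ≠ 0

attribute [instance] Flat.top Flat.t2 Flat.sc Flat.cn Flat.ms Flat.bor Flat.ch Flat.mC Flat.mR

/-- holomorphic functions on a surface -/
abbrev Hol {Y : Type} [TopologicalSpace Y] [ChartedSpace ℂ Y] (u : Y → ℂ) : Prop :=
  MDifferentiable 𝓘(ℂ, ℂ) 𝓘(ℂ, ℂ) u
/-- holomorphic at a point -/
abbrev HolAt {Y : Type} [TopologicalSpace Y] [ChartedSpace ℂ Y] (u : Y → ℂ) (q : Y) : Prop :=
  MDifferentiableAt 𝓘(ℂ, ℂ) 𝓘(ℂ, ℂ) u q
/-- real differentiable at a point -/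
abbrev RDiffAt {Y : Type} [TopologicalSpace Y] [ChartedSpace ℂ Y] (u : Y → ℂ) (q : Y) : Prop :=
  MDifferentiableAt 𝓘(ℝ, ℂ) 𝓘(ℝ, ℂ) u q
/-- functions of class `C ^ k` -/
abbrev Ck {Y : Type} [TopologicalSpace Y] [ChartedSpace ℂ Y] (k : ℕ∞ω) (u : Y → ℂ) : Prop :=
  ContMDiff 𝓘(ℝ, ℂ) 𝓘(ℝ, ℂ) k u
/-- of class `C ^ k` at a point -/
abbrev CkAt {Y : Type} [TopologicalSpace Y] [ChartedSpace ℂ Y] (k : ℕ∞ω) (u : Y → ℂ) (q : Y) :
    Prop := ContMDiffAt 𝓘(ℝ, ℂ) 𝓘(ℝ, ℂ) k u q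

namespace Flat

variable {n : ℕ} (S : Flat n)

/-- the twisted area measure -/
noncomputable def lamf : Measure S.Y := S.lam.withDensity fun q => ‖S.f q‖ₑ

/-- square integrable coefficients -/
abbrev H : Type := Lp ℂ 2 S.lamf

/-- twisted `∂` -/
noncomputable def D1 (κ : S.Y → ℂ) (q : S.Y) : ℂ := d1 κ q + κ q * d1 S.f q / (2 * S.f q)

/-- the neighbourhood of radius `r` of the end `i` -/
def End (i : Fin n) (r : ℝ) : Set S.Y := {q | q ∈ (S.e i).source ∧ ‖S.e i q‖ < r}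

/-- the compact core -/
def core (r : ℝ) : Set S.Y := {q | ∀ i, q ∈ (S.e i).source → r ≤ ‖S.e i q‖}

/-- the filter of neighbourhoods of the end `i` -/
noncomputable def endF (i : Fin n) : Filter S.Y := comap (S.e i) (𝓝 0) ⊓ 𝓟 (S.e i).source

open Classical in
/-- multiplication by a bounded function -/
noncomputable def mulOp (μ : S.Y → ℂ) : S.H →L[ℂ] S.H :=
  if h : MemLp μ ⊤ S.lamf then
    (ContinuousLinearMap.mul ℂ ℂ).holderL S.lamf ⊤ 2 2 (h.toLp μ) else 0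

/-- the exact forms -/
def IsExact (e : S.H × S.H) : Prop := ∃ κ : S.Y → ℂ, Ck 2 κ ∧ HasCompactSupport κ ∧
  (e.1 : S.Y → ℂ) =ᵐ[S.lamf] S.D1 κ ∧ (e.2 : S.Y → ℂ) =ᵐ[S.lamf] d2 κ

/-- discs in holomorphic coordinates -/
def IsDisc (N : Set S.Y) : Prop := ∃ (φ : OpenPartialHomeomorph S.Y ℂ) (c : ℂ) (ρ : ℝ),
  MDifferentiableOn 𝓘(ℂ, ℂ) 𝓘(ℂ, ℂ) φ φ.source ∧ ball c ρ ⊆ φ.target ∧
    N = φ.source ∩ φ ⁻¹' ball c ρ

end Flat

end Pool.Agent.MP_e62289_ag

end

section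

open Set Filter Topology Complex MeasureTheory Metric
open scoped Manifold ContDiff ComplexConjugate NNReal ENNReal

namespace Pool.Agent.MP_e62289_ag

namespace Family

variable {E : Type} [NormedAddCommGroup E] [NormedSpace ℂ E] {B : Type} [TopologicalSpace B]
  [ChartedSpace E B] {n : ℕ} {a : Fin n → ℕ} (C : Family E B a)

/-- the fibre over `b` without its marked points -/
abbrev Fib (b : B) : Type := {x : C.X // C.proj x = b ∧ ∀ i, x ≠ C.sec i b}

theorem proj_symm {x : C.X} {w : ℂ × B} (h : w ∈ (C.chart x).target) :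
    C.proj ((C.chart x).symm w) = w.2 := by
  rw [← C.snd_chart x _ ((C.chart x).map_target h), (C.chart x).right_inv h]

theorem chart_eq {x q : C.X} (h : q ∈ (C.chart x).source) :
    ((C.chart x q).1, C.proj q) = C.chart x q := by
  rw [← C.snd_chart x q h]

open Classical in
/-- the chart of the punctured fibre given by the chart at `x` of the total space; `y` is a
default value -/
noncomputable def fchart {b : B} (y : C.Fib b) (x : C.X) : OpenPartialHomeomorph (C.Fib b) ℂ where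
  toFun q := (C.chart x q.1).1
  invFun z := if h : (z, b) ∈ (C.chart x).target ∧ ∀ i, (C.chart x).symm (z, b) ≠ C.sec i b then
    ⟨(C.chart x).symm (z, b), C.proj_symm h.1, h.2⟩ else y
  source := {q | q.1 ∈ (C.chart x).source}
  target := {z | (z, b) ∈ (C.chart x).target ∧ ∀ i, (C.chart x).symm (z, b) ≠ C.sec i b}
  map_source' q hq := by
    have e := C.chart_eq hq
    rw [q.2.1] at e
    exact ⟨e ▸ (C.chart x).map_source hq, fun i => by
      rw [e, (C.chart x).left_inv hq]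
      exact q.2.2 i⟩
  map_target' z hz := by
    have hz' : (z, b) ∈ (C.chart x).target ∧ ∀ i, (C.chart x).symm (z, b) ≠ C.sec i b := hz
    rw [dif_pos hz']
    exact (C.chart x).map_target hz.1
  left_inv' q hq := by
    have e := C.chart_eq hq
    rw [q.2.1] at e
    have hz' : ((C.chart x q.1).1, b) ∈ (C.chart x).target ∧
        ∀ i, (C.chart x).symm ((C.chart x q.1).1, b) ≠ C.sec i b :=
      ⟨e ▸ (C.chart x).map_source hq, fun i => by
        rw [e, (C.chart x).left_inv hq]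
        exact q.2.2 i⟩
    rw [dif_pos hz']
    exact Subtype.ext (by
      change (C.chart x).symm (_, b) = q.1
      rw [e, (C.chart x).left_inv hq])
  right_inv' z hz := by
    have hz' : (z, b) ∈ (C.chart x).target ∧ ∀ i, (C.chart x).symm (z, b) ≠ C.sec i b := hz
    rw [dif_pos hz']
    change (C.chart x ((C.chart x).symm (z, b))).1 = z
    rw [(C.chart x).right_inv hz.1]
  open_source := (C.chart x).open_source.preimage continuous_subtype_val
  open_target := by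
    have h1 : IsOpen ((C.chart x).target ∩ (C.chart x).symm ⁻¹' (range fun i => C.sec i b)ᶜ) :=
      (C.chart x).isOpen_inter_preimage_symm (finite_range _).isClosed.isOpen_compl
    have h2 := h1.preimage (Continuous.prodMk_left b)
    convert h2 using 1
    ext z
    simp [eq_comm]
  continuousOn_toFun := continuous_fst.comp_continuousOn
    ((C.chart x).continuousOn.comp continuous_subtype_val.continuousOn fun _ h => h)
  continuousOn_invFun := by
    refine Topology.IsInducing.subtypeVal.continuousOn_iff.2 ?_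
    refine ((C.chart x).continuousOn_symm.comp (Continuous.prodMk_left b).continuousOn
      fun z hz => hz.1).congr fun z hz => ?_
    have hz' : (z, b) ∈ (C.chart x).target ∧ ∀ i, (C.chart x).symm (z, b) ≠ C.sec i b := hz
    simp only [Function.comp_apply, dif_pos hz']

noncomputable instance (b : B) : ChartedSpace ℂ (C.Fib b) where
  atlas := range fun y : C.Fib b => C.fchart y y.1
  chartAt y := C.fchart y y.1
  mem_chart_source y := C.mem_source y.1
  chart_mem_atlas y := mem_range_self y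

theorem chartAt_fib {b : B} (y : C.Fib b) : chartAt ℂ y = C.fchart y y.1 := rfl

theorem fchart_apply {b : B} (y : C.Fib b) (x : C.X) (q : C.Fib b) :
    C.fchart y x q = (C.chart x q.1).1 := rfl

theorem mem_fchart_source {b : B} (y : C.Fib b) (x : C.X) (q : C.Fib b) :
    q ∈ (C.fchart y x).source ↔ q.1 ∈ (C.chart x).source := Iff.rfl

theorem mem_fchart_target {b : B} (y : C.Fib b) (x : C.X) (z : ℂ) :
    z ∈ (C.fchart y x).target ↔
      (z, b) ∈ (C.chart x).target ∧ ∀ i, (C.chart x).symm (z, b) ≠ C.sec i b := Iff.rfl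

theorem fchart_symm {b : B} (y : C.Fib b) (x : C.X) {z : ℂ} (hz : z ∈ (C.fchart y x).target) :
    ((C.fchart y x).symm z).1 = (C.chart x).symm (z, b) := by
  have hz' : (z, b) ∈ (C.chart x).target ∧ ∀ i, (C.chart x).symm (z, b) ≠ C.sec i b := hz
  exact congrArg Subtype.val (dif_pos hz')

/-- the punctured total space of the family induced by `ψ` -/
abbrev Tot {T : Type} (ψ : T → B) : Type :=
  {p : T × C.X // C.proj p.2 = ψ p.1 ∧ ∀ i, p.2 ≠ C.sec i (ψ p.1)}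

/-- continuous families of markings of the fibres by a fixed surface -/
structure MFam (Y : Type) [TopologicalSpace Y] [ChartedSpace ℂ Y] {T : Type} [TopologicalSpace T]
    (ψ : T → B) where
  G : ∀ t, Adm Y (C.Fib (ψ t))
  cont : Continuous fun p : T × Y => ((G p.1).φ p.2).1
  cont' : Continuous fun p : C.Tot ψ => (G p.1.1).φ.symm ⟨p.1.2, p.2⟩
  conf : ∃ K, IsCompact K ∧ ∀ t q, q ∉ K → d2 (G t).φ q = 0

/-- local trivialisations that are holomorphic in the base -/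
structure Triv (b₀ : B) where
  U : Set B
  isOpen : IsOpen U
  mem : b₀ ∈ U
  M : C.MFam (C.Fib b₀) (Subtype.val : U → B)
  F : B → C.X → C.X
  eq : ∀ (b : U) (q : C.Fib b₀), ((M.G b).φ q).1 = F b q.1
  base : ∀ x, C.proj x = b₀ → F b₀ x = x
  contF : ContinuousOn (fun p : B × C.X => F p.1 p.2) (U ×ˢ (C.proj ⁻¹' {b₀}))
  sec : ∀ b ∈ U, ∀ i, F b (C.sec i b₀) = C.sec i b
  smooth : ∀ x, ContMDiffOn (𝓘(ℝ, E).prod 𝓘(ℝ, ℂ)) 𝓘(ℝ, ℂ) 2
    (fun p : B × C.Fib b₀ => (C.chart x (F p.1 p.2.1)).1)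
    {p | p.1 ∈ U ∧ F p.1 p.2.1 ∈ (C.chart x).source}
  hol : ∀ x (q : C.Fib b₀), MDifferentiableOn 𝓘(ℂ, E) 𝓘(ℂ, ℂ) (fun b => (C.chart x (F b q.1)).1)
    {b | b ∈ U ∧ F b q.1 ∈ (C.chart x).source}

/-- `f` is a relative holomorphic form over `V` with the prescribed zeros -/
def IsForm (V : Set B) (f : C.X → ℂ × B → ℂ) : Prop :=
  (∀ x, MDifferentiableOn (𝓘(ℂ, ℂ).prod 𝓘(ℂ, E)) 𝓘(ℂ, ℂ) (f x)
      ((C.chart x).target ∩ univ ×ˢ V)) ∧
    (∀ x y, ∀ q ∈ (C.chart x).source ∩ (C.chart y).source, C.proj q ∈ V →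
      f x (C.chart x q) = f y (C.chart y q) *
        deriv (fun z => (C.chart y ((C.chart x).symm (z, C.proj q))).1) (C.chart x q).1) ∧
    (∀ x, C.proj x ∈ V → analyticOrderAt (fun z => f x (z, C.proj x)) (C.chart x x).1 =
      ((∑ᶠ (i) (_ : C.sec i (C.proj x) = x), (a i - 1) : ℕ) : ℕ∞))

theorem exists_form (b : B) : ∃ V : Set B, IsOpen V ∧ b ∈ V ∧ ∃ f, C.IsForm V f := C.form b

/-- the coefficients of the pull back of the form `f` by a map `G` into the total space -/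
noncomputable def pb1 {Y : Type} [TopologicalSpace Y] [ChartedSpace ℂ Y] (f : C.X → ℂ × B → ℂ)
    (G : Y → C.X) (q : Y) : ℂ :=
  f (G q) (C.chart (G q) (G q)) * d1 (fun y => (C.chart (G q) (G y)).1) q

/-- the coefficients of the pull back of the form `f` by a map `G` into the total space -/
noncomputable def pb2 {Y : Type} [TopologicalSpace Y] [ChartedSpace ℂ Y] (f : C.X → ℂ × B → ℂ)
    (G : Y → C.X) (q : Y) : ℂ :=
  f (G q) (C.chart (G q) (G q)) * d2 (fun y => (C.chart (G q) (G y)).1) q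

end Family

/-- the data on the base surface that make the first variation vanish -/
structure Flat.FV {n : ℕ} (S : Flat n) (a : Fin n → ℕ) (ξp ξm : S.H) where
  w : S.Y → ℂ
  R : S.Y → ℂ
  w_hol : Hol w
  R_hol : Hol R
  w_ne : ∀ q, w q ≠ 0
  prod : ∀ᵐ q ∂S.lam, S.f q * ξp q * ξm q = w q * d1 R q
  ends : ∀ i, ∃ c : ℝ, 0 < c ∧ ∀ᶠ q in S.endF i,
    c * ‖S.e i q‖ ^ (a i - 1) * ‖d1 (S.e i) q‖ ≤ ‖w q‖ ∧ c * ‖S.e i q‖ ^ (a i - 1) * ‖R q‖ ≤ 1

end Pool.Agent.MP_e62289_ag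

end

section

open Set Filter Topology Complex MeasureTheory Metric
open scoped Manifold ContDiff ComplexConjugate NNReal ENNReal

namespace Pool.Agent.MP_e62289_ag

section Aux

variable {E F : Type} [NormedAddCommGroup E] [NormedSpace ℂ E]
  [NormedAddCommGroup F] [NormedSpace ℂ F]

/-- Cauchy estimate -/
theorem cx1a_cauchy {h : E → F} {x : E} {r M : ℝ} (hr : 0 < r)
    (hd : DifferentiableOn ℂ h (ball x r)) (hb : ∀ y ∈ ball x r, ‖h y‖ ≤ M) :
    ‖fderiv ℂ h x‖ ≤ 2 * M / r := by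
  refine norm_fderiv_le_div_of_mapsTo_ball hd (fun y hy => ?_) hr
  rw [mem_closedBall, dist_eq_norm]
  have h1 := hb y hy
  have h2 := hb x (mem_ball_self hr)
  have h3 := norm_sub_le (h y) (h x)
  linarith

/-- Weierstrass: uniform limits of complex differentiable maps are differentiable -/
theorem cx1a_weierstrass [CompleteSpace F] {g : ℕ → E → F} {G : E → F} {c : E} {r : ℝ}
    (hr : 0 < r) (hd : ∀ n, DifferentiableOn ℂ (g n) (ball c (2 * r)))
    (hu : TendstoUniformlyOn g G atTop (ball c (2 * r))) : DifferentiableAt ℂ G c := by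
  have hsub : ∀ x ∈ ball c r, ball x r ⊆ ball c (2 * r) := by
    intro x hx y hy
    rw [mem_ball] at *
    have := dist_triangle y x c
    linarith
  have hat : ∀ n, ∀ x ∈ ball c r, DifferentiableAt ℂ (g n) x := fun n x hx =>
    (hd n).differentiableAt (isOpen_ball.mem_nhds (hsub x hx (mem_ball_self hr)))
  have hC : UniformCauchySeqOn (fun n x => fderiv ℂ (g n) x) atTop (ball c r) := by
    rw [Metric.uniformCauchySeqOn_iff]
    intro ε hε
    obtain ⟨N, hN⟩ := Metric.uniformCauchySeqOn_iff.1 hu.uniformCauchySeqOn (ε * r / 4)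
      (by positivity)
    refine ⟨N, fun m hm n hn x hx => ?_⟩
    have h1 : ‖fderiv ℂ (g m - g n) x‖ ≤ 2 * (ε * r / 4) / r := by
      refine cx1a_cauchy hr (((hd m).sub (hd n)).mono (hsub x hx)) fun y hy => ?_
      have := hN m hm n hn y (hsub x hx hy)
      rw [dist_eq_norm] at this
      exact this.le
    rw [fderiv_sub (hat m x hx) (hat n x hx)] at h1
    rw [dist_eq_norm]
    have h2 : 2 * (ε * r / 4) / r = ε / 2 := by field_simp; ring
    linarith
  have hlim : ∀ x ∈ ball c r, ∃ L, Tendsto (fun n => fderiv ℂ (g n) x) atTop (𝓝 L) :=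
    fun x hx => cauchySeq_tendsto_of_complete (hC.cauchySeq hx)
  choose! G' hG' using hlim
  have hT := hC.tendstoUniformlyOn_of_tendsto hG'
  exact (hasFDerivAt_of_tendstoUniformlyOn isOpen_ball hT
    (fun n x hx => (hat n x hx).hasFDerivAt)
    (fun x hx => hu.tendsto_at (hsub x hx (mem_ball_self hr))) (mem_ball_self hr)).differentiableAt

/-- uniform second order Taylor estimate -/
theorem cx1a_taylor {h : E → F} {x : E} {r M : ℝ} (hr : 0 < r)
    (hd : DifferentiableOn ℂ h (ball x r)) (hb : ∀ y ∈ ball x r, ‖h y‖ ≤ M) {y : E}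
    (hy : y ∈ ball x r) :
    ‖h y - h x - fderiv ℂ h x (y - x)‖ ≤ 4 * M * (‖y - x‖ / r) ^ 2 := by
  have hx : DifferentiableAt ℂ h x := hd.differentiableAt (ball_mem_nhds x hr)
  have hc := cx1a_cauchy hr hd hb
  set L := fderiv ℂ h x with hL
  have key := dist_le_mul_div_pow_of_mapsTo_ball_of_isLittleO
    (f := fun w => h w - L (w - x)) (c := x) (z := y) (R₁ := r) (R₂ := 4 * M) (n := 1)
    (hd.sub (by fun_prop)) ?_ ?_ hy
  · rw [dist_eq_norm, dist_eq_norm] at key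
    simp only [sub_self, map_zero, sub_zero] at key
    have e : h y - h x - L (y - x) = h y - L (y - x) - h x := by abel
    rw [e]
    exact key
  · intro w hw
    simp only [sub_self, map_zero, sub_zero, mem_closedBall, dist_eq_norm]
    have h1 := hb w hw
    have h2 := hb x (mem_ball_self hr)
    have h3 : ‖L (w - x)‖ ≤ 2 * M := by
      have h4 : ‖w - x‖ ≤ r := by
        rw [mem_ball, dist_eq_norm] at hw
        exact hw.le
      calc ‖L (w - x)‖ ≤ ‖L‖ * ‖w - x‖ := L.le_opNorm _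
        _ ≤ (2 * M / r) * r := by
          refine mul_le_mul hc h4 (norm_nonneg _) ((norm_nonneg _).trans hc)
        _ = 2 * M := by field_simp
    have h5 := norm_sub_le (h w - L (w - x)) (h x)
    have h6 := norm_sub_le (h w) (L (w - x))
    linarith
  · have h1 := hx.hasFDerivAt.isLittleO
    simp only [sub_self, map_zero, sub_zero, pow_one]
    rw [Asymptotics.isLittleO_norm_right]
    refine h1.congr_left fun w => ?_
    rw [hL]
    abel

/-- directional derivatives of complex differentiable maps are differentiable -/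
theorem cx1a_dir [CompleteSpace F] {f : E → F} {s : Set E} (hs : IsOpen s)
    (hf : DifferentiableOn ℂ f s) (v : E) : DifferentiableOn ℂ (fun x => fderiv ℂ f x v) s := by
  intro c hc
  refine DifferentiableAt.differentiableWithinAt ?_
  have hcont : ContinuousAt f c := (hf.differentiableAt (hs.mem_nhds hc)).continuousAt
  have hev : ∀ᶠ y in 𝓝 c, y ∈ s ∧ ‖f y‖ ≤ ‖f c‖ + 1 := by
    refine (hs.eventually_mem hc).and ?_
    exact (hcont.norm.eventually (Iic_mem_nhds (lt_add_one ‖f c‖)))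
  obtain ⟨ρ, hρ, hball⟩ := Metric.eventually_nhds_iff_ball.1 hev
  set M := ‖f c‖ + 1 with hM
  have hM0 : 0 < M := by positivity
  set r := ρ / 3 with hr
  have hr0 : 0 < r := by positivity
  have hsub : ∀ x ∈ ball c (2 * r), ball x r ⊆ ball c ρ := by
    intro x hx y hy
    rw [mem_ball] at *
    have := dist_triangle y x c
    linarith
  set a : ℝ := r / (‖v‖ + 1) with ha
  have ha0 : 0 < a := by positivity
  have hav : a * ‖v‖ < r := by
    rw [ha, div_mul_eq_mul_div, div_lt_iff₀ (by positivity)]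
    nlinarith
  set t : ℕ → ℝ := fun n => a / ((n : ℝ) + 1) with ht
  have ht0 : ∀ n, 0 < t n := fun n => by positivity
  have hta : ∀ n, t n ≤ a := fun n => div_le_self ha0.le (by simp)
  have hnorm : ∀ n, ‖(t n : ℂ) • v‖ = t n * ‖v‖ := fun n => by
    rw [norm_smul, Complex.norm_real, Real.norm_of_nonneg (ht0 n).le]
  have hmem : ∀ n x, x + (t n : ℂ) • v ∈ ball x r := fun n x => by
    rw [mem_ball, dist_eq_norm, add_sub_cancel_left, hnorm]
    exact lt_of_le_of_lt (mul_le_mul_of_nonneg_right (hta n) (norm_nonneg _)) hav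
  have hlim : Tendsto t atTop (𝓝 0) := by
    have := tendsto_one_div_add_atTop_nhds_zero_nat (𝕜 := ℝ) |>.const_mul a
    simpa [ht, div_eq_mul_inv] using this
  refine cx1a_weierstrass (g := fun n x => ((t n : ℂ))⁻¹ • (f (x + (t n : ℂ) • v) - f x)) hr0
    (fun n x hx => ?_) ?_
  · refine DifferentiableAt.differentiableWithinAt ?_
    have h1 : DifferentiableAt ℂ f x :=
      hf.differentiableAt (hs.mem_nhds (hball _ (hsub x hx (mem_ball_self hr0))).1)
    have h2 : DifferentiableAt ℂ f (x + (t n : ℂ) • v) :=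
      hf.differentiableAt (hs.mem_nhds (hball _ (hsub x hx (hmem n x))).1)
    have h3 : DifferentiableAt ℂ (fun x => f (x + (t n : ℂ) • v)) x :=
      h2.comp x (by fun_prop)
    exact (h3.sub h1).const_smul _
  · rw [Metric.tendstoUniformlyOn_iff]
    intro ε hε
    have h0 : Tendsto (fun n => t n * (4 * M * (‖v‖ / r) ^ 2)) atTop (𝓝 0) := by
      simpa using hlim.mul_const (4 * M * (‖v‖ / r) ^ 2)
    filter_upwards [h0.eventually (Iio_mem_nhds hε)] with n hn x hx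
    have h1 := cx1a_taylor hr0 (hf.mono fun y hy => (hball _ (hsub x hx hy)).1)
      (fun y hy => (hball _ (hsub x hx hy)).2) (hmem n x)
    rw [add_sub_cancel_left, hnorm] at h1
    have hne : (t n : ℂ) ≠ 0 := by exact_mod_cast (ht0 n).ne'
    have e : ((t n : ℂ))⁻¹ • (f (x + (t n : ℂ) • v) - f x) - fderiv ℂ f x v =
        ((t n : ℂ))⁻¹ • (f (x + (t n : ℂ) • v) - f x - fderiv ℂ f x ((t n : ℂ) • v)) := by
      rw [map_smul, smul_sub ((t n : ℂ))⁻¹ _ ((t n : ℂ) • _), inv_smul_smul₀ hne]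
    rw [dist_comm, dist_eq_norm, e, norm_smul, norm_inv, Complex.norm_real,
      Real.norm_of_nonneg (ht0 n).le]
    refine lt_of_le_of_lt ?_ hn
    have h2 := ht0 n
    calc (t n)⁻¹ * ‖f (x + (t n : ℂ) • v) - f x - fderiv ℂ f x ((t n : ℂ) • v)‖
        ≤ (t n)⁻¹ * (4 * M * (t n * ‖v‖ / r) ^ 2) :=
          mul_le_mul_of_nonneg_left h1 (by positivity)
      _ = t n * (4 * M * (‖v‖ / r) ^ 2) := by field_simp

/-- a family of continuous linear maps is differentiable if all its applications are -/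
theorem cx1a_clm [FiniteDimensional ℂ E] {f : E → E →L[ℂ] F} {s : Set E}
    (h : ∀ y, DifferentiableOn ℂ (fun x => f x y) s) : DifferentiableOn ℂ f s := by
  let d := Module.finrank ℂ E
  have hd : d = Module.finrank ℂ (Fin d → ℂ) := (Module.finrank_fin_fun ℂ).symm
  let e₁ := ContinuousLinearEquiv.ofFinrankEq hd
  let e₂ := (e₁.arrowCongr (1 : F ≃L[ℂ] F)).trans (ContinuousLinearEquiv.piRing (Fin d))
  rw [← e₂.comp_differentiableOn_iff]
  exact differentiableOn_pi.mpr fun i => h _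

end Aux

/-- Osgood: complex differentiable maps on open subsets of finite-dimensional spaces are
smooth. -/
theorem osgood {E F : Type} [NormedAddCommGroup E] [NormedSpace ℂ E] [FiniteDimensional ℂ E]
    [NormedAddCommGroup F] [NormedSpace ℂ F] [CompleteSpace F] {f : E → F} {s : Set E}
    (hs : IsOpen s) (hf : DifferentiableOn ℂ f s) : ContDiffOn ℂ ∞ f s := by
  rw [contDiffOn_infty]
  intro n
  induction n generalizing F with
  | zero => simpa using hf.continuousOn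
  | succ n ih =>
    have h1 : DifferentiableOn ℂ (fderiv ℂ f) s :=
      cx1a_clm fun v => cx1a_dir hs hf v
    rw [Nat.cast_succ, contDiffOn_succ_iff_fderiv_of_isOpen hs]
    exact ⟨hf, fun h => absurd h (by simp), ih h1⟩

end Pool.Agent.MP_e62289_ag

end

section

open Set Filter Topology Complex MeasureTheory Metric
open scoped Manifold ContDiff ComplexConjugate NNReal ENNReal

namespace Pool.Agent.MP_e62289_ag

/-- real differentiable and separately complex differentiable implies complex differentiable -/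
theorem sep_hol {P Q F : Type} [NormedAddCommGroup P] [NormedSpace ℂ P] [NormedAddCommGroup Q]
    [NormedSpace ℂ Q] [NormedAddCommGroup F] [NormedSpace ℂ F] {g : P × Q → F} {p : P × Q}
    (h : DifferentiableAt ℝ g p) (h1 : DifferentiableAt ℂ (fun x => g (x, p.2)) p.1)
    (h2 : DifferentiableAt ℂ (fun y => g (p.1, y)) p.2) : DifferentiableAt ℂ g p := by
  have hL := h.hasFDerivAt
  set L := fderiv ℝ g p with hLdef
  have a1 : HasFDerivAt (fun x => g (x, p.2)) (L.comp (ContinuousLinearMap.inl ℝ P Q)) p.1 :=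
    hL.comp p.1 (hasFDerivAt_prodMk_left p.1 p.2)
  have a2 : HasFDerivAt (fun y => g (p.1, y)) (L.comp (ContinuousLinearMap.inr ℝ P Q)) p.2 :=
    hL.comp p.2 (hasFDerivAt_prodMk_right p.1 p.2)
  have b1 := a1.unique (h1.hasFDerivAt.restrictScalars ℝ)
  have b2 := a2.unique (h2.hasFDerivAt.restrictScalars ℝ)
  refine (differentiableAt_iff_restrictScalars ℝ h).2
    ⟨(fderiv ℂ (fun x => g (x, p.2)) p.1).coprod (fderiv ℂ (fun y => g (p.1, y)) p.2), ?_⟩
  refine ContinuousLinearMap.ext fun q => ?_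
  have c1 := congrArg (fun T => T q.1) b1
  have c2 := congrArg (fun T => T q.2) b2
  simp only [ContinuousLinearMap.comp_apply, ContinuousLinearMap.inl_apply,
    ContinuousLinearMap.inr_apply, ContinuousLinearMap.coe_restrictScalars'] at c1 c2
  simp only [ContinuousLinearMap.coe_restrictScalars', ContinuousLinearMap.coprod_apply]
  rw [← c1, ← c2, ← map_add, ← hLdef]
  simp

/-- a real differentiable function with vanishing `∂bar` is complex differentiable -/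
theorem hasDerivAt_of_w2 {g : ℂ → ℂ} {z : ℂ} (h : DifferentiableAt ℝ g z)
    (h2 : w2 (fderiv ℝ g z) = 0) : HasDerivAt g (w1 (fderiv ℝ g z)) z := by
  have hL := h.hasFDerivAt
  rw [hasDerivAt_iff_hasFDerivAt]
  refine hasFDerivAt_of_restrictScalars ℝ hL ?_
  refine ContinuousLinearMap.ext fun v => ?_
  rw [w_apply (fderiv ℝ g z) v, h2]
  simp [mul_comm]

theorem w_of_hasDerivAt {g : ℂ → ℂ} {z c : ℂ} (h : HasDerivAt g c z) :
    w1 (fderiv ℝ g z) = c ∧ w2 (fderiv ℝ g z) = 0 := by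
  refine w_eq fun v => ?_
  rw [h.complexToReal_fderiv.fderiv]
  simp

/-- the Jacobian determinant -/
theorem det_eq_w (L : ℂ →L[ℝ] ℂ) : L.det = ‖w1 L‖ ^ 2 - ‖w2 L‖ ^ 2 := by
  have h : L.det = LinearMap.det (L : ℂ →ₗ[ℝ] ℂ) := rfl
  rw [h, ← LinearMap.det_toMatrix Complex.basisOneI, Matrix.det_fin_two]
  simp only [LinearMap.toMatrix_apply, Complex.coe_basisOneI_repr, Complex.coe_basisOneI,
    Matrix.cons_val_zero, Matrix.cons_val_one, ContinuousLinearMap.coe_coe, w1, w2,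
    Complex.sq_norm, normSq_apply, Matrix.cons_val_fin_one]
  simp
  ring

/-- an orientation preserving map is invertible -/
theorem exists_equiv_of_w {L : ℂ →L[ℝ] ℂ} (h : ‖w2 L‖ < ‖w1 L‖) :
    ∃ e : ℂ ≃L[ℝ] ℂ, (e : ℂ →L[ℝ] ℂ) = L := by
  have hd : L.det ≠ 0 := by
    rw [det_eq_w]
    exact (sub_pos.2 (pow_lt_pow_left₀ h (norm_nonneg _) two_ne_zero)).ne'
  exact ⟨L.toContinuousLinearEquivOfDetNeZero hd,
    L.coe_toContinuousLinearEquivOfDetNeZero hd⟩

theorem Cx1b_not_const {U : Set ℂ} (hU : IsOpen U) {f : ℂ → ℂ} (hi : InjOn f U)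
    {z₀ : ℂ} (hz₀ : z₀ ∈ U) : ¬ ∀ᶠ z in 𝓝 z₀, f z = f z₀ := by
  intro h
  have h1 : ∀ᶠ z in 𝓝[≠] z₀, z = z₀ := by
    apply Eventually.filter_mono nhdsWithin_le_nhds
    filter_upwards [h, hU.mem_nhds hz₀] with z hz hzU
    exact hi hzU hz₀ hz
  obtain ⟨z, hz1, hz2⟩ := (h1.and self_mem_nhdsWithin).exists
  exact hz2 hz1

theorem Cx1b_nhds_le_map {U : Set ℂ} (hU : IsOpen U) {f : ℂ → ℂ} (hf : DifferentiableOn ℂ f U)
    (hi : InjOn f U) {z₀ : ℂ} (hz₀ : z₀ ∈ U) : 𝓝 (f z₀) ≤ map f (𝓝 z₀) :=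
  ((hf.analyticAt (hU.mem_nhds hz₀)).eventually_constant_or_nhds_le_map_nhds).resolve_left
    (Cx1b_not_const hU hi hz₀)

theorem Cx1b_isOpen_image {U : Set ℂ} (hU : IsOpen U) {f : ℂ → ℂ} (hf : DifferentiableOn ℂ f U)
    (hi : InjOn f U) : IsOpen (f '' U) := by
  rw [isOpen_iff_mem_nhds]
  rintro _ ⟨z, hz, rfl⟩
  exact Cx1b_nhds_le_map hU hf hi hz (image_mem_map (hU.mem_nhds hz))

/-- The inverse of an injective holomorphic map is holomorphic. -/
theorem Cx1b_exists_inverse {U : Set ℂ} (hU : IsOpen U) {f : ℂ → ℂ} (hf : DifferentiableOn ℂ f U)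
    (hi : InjOn f U) : ∃ g : ℂ → ℂ, DifferentiableOn ℂ g (f '' U) ∧ ∀ z ∈ U, g (f z) = z := by
  set g := Function.invFunOn f U with hg
  have hgf : ∀ z ∈ U, g (f z) = z := fun z hz => hi.leftInvOn_invFunOn hz
  have hV := Cx1b_isOpen_image hU hf hi
  have hcont : ∀ z ∈ U, ContinuousAt g (f z) := by
    intro z hz
    rw [ContinuousAt, hgf z hz]
    refine Tendsto.mono_left ?_ (Cx1b_nhds_le_map hU hf hi hz)
    rw [tendsto_map'_iff]
    apply tendsto_id.congr'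
    filter_upwards [hU.mem_nhds hz] with w hw
    exact (hgf w hw).symm
  have hfg : ∀ w ∈ f '' U, f (g w) = w := by
    rintro _ ⟨z, hz, rfl⟩; rw [hgf z hz]
  refine ⟨g, ?_, hgf⟩
  rintro _ ⟨z, hz, rfl⟩
  apply DifferentiableAt.differentiableWithinAt
  apply AnalyticAt.differentiableAt
  apply Complex.analyticAt_of_differentiable_on_punctured_nhds_of_continuousAt _ (hcont z hz)
  have han : AnalyticAt ℂ (deriv f) z := (hf.analyticAt (hU.mem_nhds hz)).deriv
  have hne : ∀ᶠ u in 𝓝[≠] z, deriv f u ≠ 0 := by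
    refine han.eventually_eq_zero_or_eventually_ne_zero.resolve_left fun h => ?_
    apply Cx1b_not_const hU hi hz
    obtain ⟨r, hr, hsub⟩ := Metric.nhds_basis_ball.mem_iff.1 (inter_mem h (hU.mem_nhds hz))
    filter_upwards [ball_mem_nhds z hr] with u hu
    exact isOpen_ball.is_const_of_deriv_eq_zero (convex_ball z r).isPreconnected
      (hf.mono fun v hv => (hsub hv).2) (fun v hv => (hsub hv).1) hu (mem_ball_self hr)
  rw [eventually_nhdsWithin_iff] at hne ⊢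
  have ht : Tendsto g (𝓝 (f z)) (𝓝 z) := by simpa [ContinuousAt, hgf z hz] using hcont z hz
  filter_upwards [ht.eventually hne, hV.mem_nhds (mem_image_of_mem f hz)] with w hw hwV hwne
  obtain ⟨u, hu, rfl⟩ := hwV
  have hu' : u ≠ z := fun h => hwne (by simp [h])
  rw [hgf u hu] at hw
  refine (HasDerivAt.of_local_left_inverse (f := f) (f' := deriv f u) (hcont u hu) ?_ (hw hu')
    ?_).differentiableAt
  · rw [hgf u hu]
    exact (hf.differentiableAt (hU.mem_nhds hu)).hasDerivAt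
  · filter_upwards [hV.mem_nhds (mem_image_of_mem f hu)] with y hy using hfg y hy

/-- injective holomorphic maps have non-vanishing derivative -/
theorem deriv_ne_zero_of_injOn {f : ℂ → ℂ} {s : Set ℂ} (hs : IsOpen s)
    (hf : DifferentiableOn ℂ f s) (hi : InjOn f s) {z : ℂ} (hz : z ∈ s) : deriv f z ≠ 0 := by
  obtain ⟨g, hg, hgf⟩ := Cx1b_exists_inverse hs hf hi
  have hV := Cx1b_isOpen_image hs hf hi
  have h1 := (hg.differentiableAt (hV.mem_nhds (mem_image_of_mem f hz))).hasDerivAt.comp z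
    (hf.differentiableAt (hs.mem_nhds hz)).hasDerivAt
  have h2 : HasDerivAt (g ∘ f) 1 z := by
    apply (hasDerivAt_id z).congr_of_eventuallyEq
    filter_upwards [hs.mem_nhds hz] with w hw using hgf w hw
  have := h1.unique h2
  intro h
  simp [h] at this

/-- spatial derivatives of a `C¹` function that is holomorphic in a parameter are holomorphic in
the parameter -/
theorem par_hol {g : ℂ × ℂ → ℂ} {O : Set (ℂ × ℂ)} (hO : IsOpen O) (hg : ContDiffOn ℝ 1 g O)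
    (hh : ∀ p ∈ O, DifferentiableAt ℂ (fun t => g (t, p.2)) p.1) {p : ℂ × ℂ} (hp : p ∈ O)
    (v : ℂ) : DifferentiableAt ℂ (fun t => fderiv ℝ (fun z => g (t, z)) p.2 v) p.1 := by
  obtain ⟨r, hr, hball⟩ := Metric.isOpen_iff.1 hO p hp
  have hmem : ∀ t ∈ ball p.1 r, ∀ z ∈ ball p.2 r, (t, z) ∈ O := fun t ht z hz =>
    hball (by rw [← ball_prod_same]; exact ⟨ht, hz⟩)
  have hd : ∀ q ∈ O, HasFDerivAt g (fderiv ℝ g q) q := fun q hq =>
    ((hg.differentiableOn one_ne_zero).differentiableAt (hO.mem_nhds hq)).hasFDerivAt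
  have hc : ContinuousOn (fderiv ℝ g) O := hg.continuousOn_fderiv_of_isOpen hO le_rfl
  have hs : ∀ t z, (t, z) ∈ O → HasFDerivAt (fun z => g (t, z))
      ((fderiv ℝ g (t, z)).comp (ContinuousLinearMap.inr ℝ ℂ ℂ)) z := fun t z htz =>
    (hd _ htz).comp z (hasFDerivAt_prodMk_right t z)
  have hsmall : ∀ δ : ℝ, 0 < δ → ∀ᶠ h : ℝ in 𝓝[≠] 0, p.2 + h • v ∈ ball p.2 δ := by
    intro δ hδ
    have : Tendsto (fun h : ℝ => p.2 + h • v) (𝓝 0) (𝓝 p.2) := by
      have : Continuous (fun h : ℝ => p.2 + h • v) := by fun_prop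
      simpa using this.tendsto 0
    exact (this.eventually (ball_mem_nhds _ hδ)).filter_mono nhdsWithin_le_nhds
  have key : TendstoLocallyUniformlyOn
      (fun (h : ℝ) (t : ℂ) => (h : ℂ)⁻¹ * (g (t, p.2 + h • v) - g (t, p.2)))
      (fun t => fderiv ℝ (fun z => g (t, z)) p.2 v) (𝓝[≠] 0) (ball p.1 r) := by
    rw [Metric.tendstoLocallyUniformlyOn_iff]
    intro ε hε t₀ ht₀
    have ht₀O : (t₀, p.2) ∈ O := hmem _ ht₀ _ (mem_ball_self hr)
    set η : ℝ := ε / (4 * (‖v‖ + 1)) with hη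
    have hηpos : 0 < η := by positivity
    have h1 : ∀ᶠ q in 𝓝 (t₀, p.2), q ∈ O ∧ dist (fderiv ℝ g q) (fderiv ℝ g (t₀, p.2)) < η :=
      Filter.Eventually.and (hO.mem_nhds ht₀O)
        (Metric.tendsto_nhds.1 (hc.continuousAt (hO.mem_nhds ht₀O)) η hηpos)
    obtain ⟨δ, hδ, hsub⟩ := Metric.eventually_nhds_iff_ball.1 h1
    have hsub' : ∀ t ∈ ball t₀ δ, ∀ z ∈ ball p.2 δ,
        (t, z) ∈ O ∧ dist (fderiv ℝ g (t, z)) (fderiv ℝ g (t₀, p.2)) < η := fun t ht z hz =>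
      hsub _ (by rw [← ball_prod_same]; exact ⟨ht, hz⟩)
    refine ⟨ball t₀ δ, mem_nhdsWithin_of_mem_nhds (ball_mem_nhds _ hδ), ?_⟩
    filter_upwards [hsmall δ hδ, self_mem_nhdsWithin] with h hh1 hh0 t ht
    have hh0' : (h : ℂ) ≠ 0 := by exact_mod_cast hh0
    have hp2 := hsub' t ht p.2 (mem_ball_self hδ)
    have hmv := (convex_ball p.2 δ).norm_image_sub_le_of_norm_hasFDerivWithin_le'
      (f := fun z => g (t, z))
      (f' := fun z => (fderiv ℝ g (t, z)).comp (ContinuousLinearMap.inr ℝ ℂ ℂ))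
      (φ := (fderiv ℝ g (t, p.2)).comp (ContinuousLinearMap.inr ℝ ℂ ℂ)) (C := 2 * η)
      (fun z hz => (hs t z (hsub' t ht z hz).1).hasFDerivWithinAt)
      (fun z hz => by
        rw [← ContinuousLinearMap.sub_comp]
        refine (ContinuousLinearMap.opNorm_comp_le _ _).trans ?_
        have e1 : ‖ContinuousLinearMap.inr ℝ ℂ ℂ‖ ≤ 1 := ContinuousLinearMap.norm_inr_le_one ℝ ℂ ℂ
        have e2 : ‖fderiv ℝ g (t, z) - fderiv ℝ g (t, p.2)‖ ≤ 2 * η := by
          rw [← dist_eq_norm]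
          have := dist_triangle_right (fderiv ℝ g (t, z)) (fderiv ℝ g (t, p.2))
            (fderiv ℝ g (t₀, p.2))
          linarith [(hsub' t ht z hz).2, hp2.2]
        calc _ ≤ 2 * η * 1 := by gcongr
          _ = 2 * η := mul_one _)
      (mem_ball_self hδ) hh1
    rw [(hs t p.2 hp2.1).fderiv, dist_eq_norm]
    rw [add_sub_cancel_left, map_smul, norm_smul] at hmv
    set A := (fderiv ℝ g (t, p.2)).comp (ContinuousLinearMap.inr ℝ ℂ ℂ) v
    have e : A - (h : ℂ)⁻¹ * (g (t, p.2 + h • v) - g (t, p.2)) =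
        -((h : ℂ)⁻¹ * (g (t, p.2 + h • v) - g (t, p.2) - h • A)) := by
      rw [Complex.real_smul (x := h) (z := A)]
      generalize g (t, p.2 + h • v) = B
      field_simp
      ring
    rw [e, norm_neg, norm_mul, norm_inv, Complex.norm_real]
    have hpos : 0 < ‖h‖ := norm_pos_iff.2 hh0
    calc ‖h‖⁻¹ * ‖g (t, p.2 + h • v) - g (t, p.2) - h • A‖
        ≤ ‖h‖⁻¹ * (2 * η * (‖h‖ * ‖v‖)) := by gcongr
      _ = 2 * η * ‖v‖ := by field_simp
      _ ≤ 2 * η * (‖v‖ + 1) := by gcongr; linarith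
      _ = ε / 2 := by rw [hη]; field_simp; ring
      _ < ε := half_lt_self hε
  have hdiff := key.differentiableOn (by
    filter_upwards [hsmall r hr] with h hh1 t ht
    refine DifferentiableAt.differentiableWithinAt ?_
    exact ((hh (t, p.2 + h • v) (hmem t ht _ hh1)).sub
      (hh (t, p.2) (hmem t ht _ (mem_ball_self hr)))).const_mul _) isOpen_ball
  exact hdiff.differentiableAt (ball_mem_nhds _ hr)

end Pool.Agent.MP_e62289_ag

end

section



end

section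

open Set Filter Topology Complex MeasureTheory Metric
open scoped Manifold ContDiff ComplexConjugate NNReal ENNReal

namespace Pool.Agent.MP_e62289_ag

/-! Calculus of `d1`, `d2` for functions on surfaces. -/

section General

variable {Y : Type} [TopologicalSpace Y] [ChartedSpace ℂ Y] {u v : Y → ℂ} {q : Y}

theorem d_plane (g : ℂ → ℂ) (z : ℂ) :
    d1 g z = w1 (fderiv ℝ g z) ∧ d2 g z = w2 (fderiv ℝ g z) := by
  have : dd g z = fderiv ℝ g z := mfderiv_eq_fderiv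
  simp only [d1, d2, this, and_self]

theorem L0a_of {L : ℂ →L[ℝ] ℂ} (h : HasMFDerivAt 𝓘(ℝ, ℂ) 𝓘(ℝ, ℂ) u q L) {a b : ℂ}
    (e : ∀ z, L z = a * z + b * conj z) : d1 u q = a ∧ d2 u q = b := by
  have : dd u q = L := h.mfderiv
  simp only [d1, d2, this]
  exact w_eq e

theorem L0a_has (hu : RDiffAt u q) : HasMFDerivAt 𝓘(ℝ, ℂ) 𝓘(ℝ, ℂ) u q (dd u q) := hu.hasMFDerivAt

theorem L0a_app (u : Y → ℂ) (q : Y) (z : ℂ) : dd u q z = d1 u q * z + d2 u q * conj z :=
  w_apply _ _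

theorem d_const (c : ℂ) (q : Y) : d1 (fun _ : Y => c) q = 0 ∧ d2 (fun _ : Y => c) q = 0 :=
  L0a_of (L := 0) (hasMFDerivAt_const c q) fun z => by simp

theorem L0a_bin {g : ℂ × ℂ → ℂ} {L : ℂ × ℂ →L[ℝ] ℂ} (hu : RDiffAt u q) (hv : RDiffAt v q)
    (hg : HasFDerivAt g L (u q, v q)) :
    HasMFDerivAt 𝓘(ℝ, ℂ) 𝓘(ℝ, ℂ) (fun x => g (u x, v x)) q (L.comp ((dd u q).prod (dd v q))) := by
  have h1 : HasMFDerivAt 𝓘(ℝ, ℂ) 𝓘(ℝ, ℂ × ℂ) (fun x => (u x, v x)) q ((dd u q).prod (dd v q)) :=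
    ⟨hu.continuousAt.prodMk hv.continuousAt, (L0a_has hu).2.prodMk (L0a_has hv).2⟩
  exact HasMFDerivAt.comp q (g := g) hg.hasMFDerivAt h1

theorem L0a_add (hu : RDiffAt u q) (hv : RDiffAt v q) :
    HasMFDerivAt 𝓘(ℝ, ℂ) 𝓘(ℝ, ℂ) (fun x => u x + v x) q
      ((ContinuousLinearMap.fst ℝ ℂ ℂ + ContinuousLinearMap.snd ℝ ℂ ℂ).comp
        ((dd u q).prod (dd v q))) :=
  L0a_bin (g := fun p => p.1 + p.2) hu hv (hasFDerivAt_fst.add hasFDerivAt_snd)

theorem L0a_sub (hu : RDiffAt u q) (hv : RDiffAt v q) :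
    HasMFDerivAt 𝓘(ℝ, ℂ) 𝓘(ℝ, ℂ) (fun x => u x - v x) q
      ((ContinuousLinearMap.fst ℝ ℂ ℂ - ContinuousLinearMap.snd ℝ ℂ ℂ).comp
        ((dd u q).prod (dd v q))) :=
  L0a_bin (g := fun p => p.1 - p.2) hu hv (hasFDerivAt_fst.sub hasFDerivAt_snd)

theorem L0a_mul (hu : RDiffAt u q) (hv : RDiffAt v q) :
    HasMFDerivAt 𝓘(ℝ, ℂ) 𝓘(ℝ, ℂ) (fun x => u x * v x) q
      ((u q • ContinuousLinearMap.snd ℝ ℂ ℂ + v q • ContinuousLinearMap.fst ℝ ℂ ℂ).comp
        ((dd u q).prod (dd v q))) :=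
  L0a_bin (g := fun p => p.1 * p.2) hu hv (by
    have := (hasFDerivAt_fst (𝕜 := ℝ) (p := (u q, v q))).fun_mul
      (hasFDerivAt_snd (𝕜 := ℝ) (p := (u q, v q)))
    exact this)

theorem d_add (hu : RDiffAt u q) (hv : RDiffAt v q) :
    d1 (fun x => u x + v x) q = d1 u q + d1 v q ∧ d2 (fun x => u x + v x) q = d2 u q + d2 v q :=
  L0a_of (L0a_add hu hv) fun z => by
    change dd u q z + dd v q z = _
    rw [L0a_app, L0a_app]
    ring

theorem d_sub (hu : RDiffAt u q) (hv : RDiffAt v q) :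
    d1 (fun x => u x - v x) q = d1 u q - d1 v q ∧ d2 (fun x => u x - v x) q = d2 u q - d2 v q :=
  L0a_of (L0a_sub hu hv) fun z => by
    change dd u q z - dd v q z = _
    rw [L0a_app, L0a_app]
    ring

theorem d_mul (hu : RDiffAt u q) (hv : RDiffAt v q) :
    d1 (fun x => u x * v x) q = d1 u q * v q + u q * d1 v q ∧
    d2 (fun x => u x * v x) q = d2 u q * v q + u q * d2 v q :=
  L0a_of (L0a_mul hu hv) fun z => by
    change u q * dd v q z + v q * dd u q z = _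
    rw [L0a_app, L0a_app]
    ring

theorem L0a_conj (hu : RDiffAt u q) : HasMFDerivAt 𝓘(ℝ, ℂ) 𝓘(ℝ, ℂ) (fun x => conj (u x)) q
    ((conjCLE : ℂ →L[ℝ] ℂ).comp (dd u q)) :=
  HasMFDerivAt.comp q (g := conjCLE) conjCLE.hasFDerivAt.hasMFDerivAt (L0a_has hu)

theorem d_conj (u : Y → ℂ) (q : Y) :
    d1 (fun x => conj (u x)) q = conj (d2 u q) ∧ d2 (fun x => conj (u x)) q = conj (d1 u q) := by
  by_cases hu : RDiffAt u q
  · refine L0a_of (L0a_conj hu) fun z => ?_
    change conj (dd u q z) = _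
    rw [L0a_app]
    simp only [map_add, map_mul, conj_conj]
    ring
  · have h2 : ¬ RDiffAt (fun x => conj (u x)) q := fun h => hu (by
      simpa only [conj_conj] using (L0a_conj h).mdifferentiableAt)
    have e1 : dd u q = 0 := mfderiv_zero_of_not_mdifferentiableAt hu
    have e2 : dd (fun x => conj (u x)) q = 0 := mfderiv_zero_of_not_mdifferentiableAt h2
    simp [d1, d2, e1, e2, w1, w2]

/-- chain rule with a holomorphic outer function -/
theorem d_hol_comp {g : ℂ → ℂ} {c : ℂ} (hg : HasDerivAt g c (u q)) (hu : RDiffAt u q) :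
    RDiffAt (fun x => g (u x)) q ∧
    d1 (fun x => g (u x)) q = c * d1 u q ∧ d2 (fun x => g (u x)) q = c * d2 u q := by
  have h := HasMFDerivAt.comp q (g := g) hg.complexToReal_fderiv.hasMFDerivAt (L0a_has hu)
  refine ⟨h.mdifferentiableAt, L0a_of h fun z => ?_⟩
  change c * dd u q z = _
  rw [L0a_app]
  ring

theorem RDiffAt.add (hu : RDiffAt u q) (hv : RDiffAt v q) : RDiffAt (fun x => u x + v x) q :=
  (L0a_add hu hv).mdifferentiableAt

theorem RDiffAt.sub (hu : RDiffAt u q) (hv : RDiffAt v q) : RDiffAt (fun x => u x - v x) q :=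
  (L0a_sub hu hv).mdifferentiableAt

theorem RDiffAt.mul (hu : RDiffAt u q) (hv : RDiffAt v q) : RDiffAt (fun x => u x * v x) q :=
  (L0a_mul hu hv).mdifferentiableAt

theorem RDiffAt.conj (hu : RDiffAt u q) : RDiffAt (fun x => conj (u x)) q :=
  (L0a_conj hu).mdifferentiableAt

variable {Y' : Type} [TopologicalSpace Y'] [ChartedSpace ℂ Y'] {G : Y → Y'}

theorem L0a_iff (𝕜 : Type) [NontriviallyNormedField 𝕜] [NormedSpace 𝕜 ℂ] :
    MDifferentiableAt 𝓘(𝕜, ℂ) 𝓘(𝕜, ℂ) G q ↔ ContinuousAt G q ∧ DifferentiableAt 𝕜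
      (chartAt ℂ (G q) ∘ G ∘ (chartAt ℂ q).symm) (chartAt ℂ q q) := by
  rw [mdifferentiableAt_iff]
  simp only [writtenInExtChartAt, mfld_simps, differentiableWithinAt_univ]

theorem L0a_dd (h : MDifferentiableAt 𝓘(ℝ, ℂ) 𝓘(ℝ, ℂ) G q) :
    dd G q = fderiv ℝ (chartAt ℂ (G q) ∘ G ∘ (chartAt ℂ q).symm) (chartAt ℂ q q) := by
  rw [dd, h.mfderiv]
  simp only [writtenInExtChartAt, mfld_simps, fderivWithin_univ]

/-- holomorphic maps of surfaces are conformal -/
theorem d2_of_hol (h : MDifferentiableAt 𝓘(ℂ, ℂ) 𝓘(ℂ, ℂ) G q) :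
    MDifferentiableAt 𝓘(ℝ, ℂ) 𝓘(ℝ, ℂ) G q ∧ d2 G q = 0 := by
  rw [L0a_iff] at h
  have h' : MDifferentiableAt 𝓘(ℝ, ℂ) 𝓘(ℝ, ℂ) G q :=
    (L0a_iff ℝ).2 ⟨h.1, h.2.restrictScalars ℝ⟩
  exact ⟨h', by rw [d2, L0a_dd h', (w_of_hasDerivAt h.2.hasDerivAt).2]⟩

/-- conformal maps of surfaces are holomorphic -/
theorem hol_of_d2 (h : MDifferentiableAt 𝓘(ℝ, ℂ) 𝓘(ℝ, ℂ) G q) (h2 : d2 G q = 0) :
    MDifferentiableAt 𝓘(ℂ, ℂ) 𝓘(ℂ, ℂ) G q := by
  rw [d2, L0a_dd h] at h2
  rw [L0a_iff] at h ⊢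
  exact ⟨h.1, (hasDerivAt_of_w2 h.2 h2).differentiableAt⟩

/-- the derivative of a function in the preferred chart -/
theorem dd_eq_fderiv (hu : RDiffAt u q) :
    dd u q = fderiv ℝ (u ∘ (chartAt ℂ q).symm) (chartAt ℂ q q) := L0a_dd hu

/-- the Beltrami coefficient can be computed in any holomorphic coordinate of the target -/
theorem bel_comp_hol {z : Y' → ℂ} (hG : MDifferentiableAt 𝓘(ℝ, ℂ) 𝓘(ℝ, ℂ) G q)
    (hz : HolAt z (G q)) (h1 : d1 z (G q) ≠ 0) :
    d1 (z ∘ G) q = d1 z (G q) * d1 G q ∧ d2 (z ∘ G) q = d1 z (G q) * d2 G q ∧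
      bel (z ∘ G) q = bel G q := by
  have h := d_comp (d2_of_hol hz).1 hG
  rw [(d2_of_hol hz).2, zero_mul, add_zero, zero_mul, add_zero] at h
  exact ⟨h.1, h.2, by rw [bel, h.1, h.2, mul_div_mul_left _ _ h1, bel]⟩

end General

end Pool.Agent.MP_e62289_ag

end

section

open Set Filter Topology Complex MeasureTheory Metric
open scoped Manifold ContDiff ComplexConjugate NNReal ENNReal

namespace Pool.Agent.MP_e62289_ag

/-! Calculus of `d1`, `d2` for functions on surfaces. -/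

section General

variable {Y : Type} [TopologicalSpace Y] [ChartedSpace ℂ Y] {u v : Y → ℂ} {q : Y}

variable {Y' : Type} [TopologicalSpace Y'] [ChartedSpace ℂ Y'] {G : Y → Y'}

theorem L0b_hasDerivAt (hu : HolAt u q) :
    HasDerivAt (u ∘ (chartAt ℂ q).symm) (d1 u q) (chartAt ℂ q q) := by
  have h := ((mdifferentiableAt_iff _ _).1 hu).2
  simp only [mfld_simps, differentiableWithinAt_univ] at h
  have h2 := h.hasDerivAt
  have h3 := (w_of_hasDerivAt h2).1
  rw [← dd_eq_fderiv (d2_of_hol hu).1] at h3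
  rw [d1, h3]
  exact h2

theorem L0b_diff [IsManifold 𝓘(ℂ, ℂ) ω Y] {x : Y} {z : ℂ} (hz : z ∈ (chartAt ℂ x).target)
    (hu : HolAt u ((chartAt ℂ x).symm z)) : DifferentiableAt ℂ (u ∘ (chartAt ℂ x).symm) z :=
  mdifferentiableAt_iff_differentiableAt.1
    (hu.comp z (mdifferentiableAt_atlas_symm (chart_mem_atlas ℂ x) hz))

/-- functions that are holomorphic near a point are smooth -/
theorem ckAt_of_hol [IsManifold 𝓘(ℂ, ℂ) ω Y] [IsManifold 𝓘(ℝ, ℂ) ω Y]
    (h : ∀ᶠ x in 𝓝 q, HolAt u x) (k : ℕ∞ω) : CkAt k u q := by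
  have hq := mem_chart_source ℂ q
  have ht := (chartAt ℂ q).map_source hq
  have h1 : ∀ᶠ z in 𝓝 (chartAt ℂ q q), HolAt u ((chartAt ℂ q).symm z) := by
    have := (chartAt ℂ q).continuousAt_symm ht
    rw [ContinuousAt, (chartAt ℂ q).left_inv hq] at this
    exact this.eventually h
  have h2 : AnalyticAt ℂ (u ∘ (chartAt ℂ q).symm) (chartAt ℂ q q) := by
    rw [analyticAt_iff_eventually_differentiableAt]
    filter_upwards [h1, (chartAt ℂ q).open_target.mem_nhds ht] with z a b using L0b_diff b a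
  refine contMDiffAt_iff.2 ⟨h.self_of_nhds.continuousAt, ?_⟩
  simp only [mfld_simps, contDiffWithinAt_univ]
  exact (h2.contDiffAt (n := k)).restrict_scalars ℝ

theorem L0b_coord [IsManifold 𝓘(ℂ, ℂ) ω Y] {φ : OpenPartialHomeomorph Y ℂ}
    (h : MDifferentiableOn 𝓘(ℂ, ℂ) 𝓘(ℂ, ℂ) φ φ.source) (hq : q ∈ φ.source) :
    HolAt φ q ∧ d1 φ q ≠ 0 ∧ HasDerivAt (chartAt ℂ q ∘ φ.symm) (d1 φ q)⁻¹ (φ q) := by
  have hol : ∀ x ∈ φ.source, HolAt φ x := fun x hx =>
    (h x hx).mdifferentiableAt (φ.open_source.mem_nhds hx)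
  have hc := mem_chart_source ℂ q
  let ψ := (chartAt ℂ q).symm ≫ₕ φ
  have hs : chartAt ℂ q q ∈ ψ.source := by
    simp only [ψ, mfld_simps, hq]
  have hd := L0b_hasDerivAt (hol q hq)
  have hne : d1 φ q ≠ 0 := by
    rw [← hd.deriv]
    refine deriv_ne_zero_of_injOn ψ.open_source (fun z hz => ?_) ψ.injOn hs
    exact (L0b_diff hz.1 (hol _ hz.2)).differentiableWithinAt
  refine ⟨hol q hq, hne, ?_⟩
  have e : ψ (chartAt ℂ q q) = φ q := by
    simp only [ψ, mfld_simps]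
  have ht : φ q ∈ ψ.target := e ▸ ψ.map_source hs
  refine ψ.hasDerivAt_symm ht hne ?_
  rw [← e, ψ.left_inv hs]
  exact hd

/-- charts are holomorphic with non-vanishing derivative -/
theorem chart_hol [IsManifold 𝓘(ℂ, ℂ) ω Y] {x : Y} (hq : q ∈ (chartAt ℂ x).source) :
    HolAt (chartAt ℂ x) q ∧ d1 (chartAt ℂ x) q ≠ 0 :=
  have h := L0b_coord (mdifferentiableOn_atlas (chart_mem_atlas ℂ x)) hq
  ⟨h.1, h.2.1⟩

/-- holomorphic coordinates have non-vanishing derivative and holomorphic inverse -/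
theorem coord_hol [IsManifold 𝓘(ℂ, ℂ) ω Y] {φ : OpenPartialHomeomorph Y ℂ}
    (h : MDifferentiableOn 𝓘(ℂ, ℂ) 𝓘(ℂ, ℂ) φ φ.source) :
    (∀ q ∈ φ.source, HolAt φ q ∧ d1 φ q ≠ 0) ∧
    ∀ z ∈ φ.target, MDifferentiableAt 𝓘(ℂ, ℂ) 𝓘(ℂ, ℂ) φ.symm z := by
  refine ⟨fun q hq => ⟨(L0b_coord h hq).1, (L0b_coord h hq).2.1⟩, fun z hz => ?_⟩
  have h3 := (L0b_coord h (φ.map_target hz)).2.2
  rw [φ.right_inv hz] at h3
  refine (mdifferentiableAt_iff _ _).2 ⟨φ.continuousAt_symm hz, ?_⟩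
  simp only [mfld_simps, differentiableWithinAt_univ]
  exact h3.differentiableAt

/-- the derivative of a holomorphic function in a holomorphic coordinate -/
theorem hasDerivAt_coord [IsManifold 𝓘(ℂ, ℂ) ω Y] {φ : OpenPartialHomeomorph Y ℂ}
    (h : MDifferentiableOn 𝓘(ℂ, ℂ) 𝓘(ℂ, ℂ) φ φ.source) (hq : q ∈ φ.source) (hu : HolAt u q) :
    HasDerivAt (u ∘ φ.symm) (d1 u q / d1 φ q) (φ q) := by
  have h1 := L0b_hasDerivAt hu
  have h3 := (L0b_coord h hq).2.2
  have e : chartAt ℂ q q = (chartAt ℂ q ∘ φ.symm) (φ q) := by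
    rw [Function.comp_apply, φ.left_inv hq]
  rw [e] at h1
  rw [div_eq_mul_inv]
  refine (h1.comp (φ q) h3).congr_of_eventuallyEq ?_
  have hc := φ.continuousAt_symm (φ.map_source hq)
  rw [ContinuousAt, φ.left_inv hq] at hc
  filter_upwards [hc.eventually (chart_source_mem_nhds ℂ q)] with z hz
  simp only [Function.comp_apply, (chartAt ℂ q).left_inv hz]

end General

end Pool.Agent.MP_e62289_ag

end

section

open Set Filter Topology Complex MeasureTheory Metric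
open scoped Manifold ContDiff ComplexConjugate NNReal ENNReal

namespace Pool.Agent.MP_e62289_ag

/-! Calculus of `d1`, `d2` for functions on surfaces. -/

section General

variable {Y : Type} [TopologicalSpace Y] [ChartedSpace ℂ Y] {u v : Y → ℂ} {q : Y}

variable {Y' : Type} [TopologicalSpace Y'] [ChartedSpace ℂ Y'] {G : Y → Y'}

theorem L0c_inv [IsManifold 𝓘(ℝ, ℂ) ω Y] [IsManifold 𝓘(ℝ, ℂ) ω Y'] {H : Y' → Y}
    (hH : Function.LeftInverse H G) (hs : ContMDiffAt 𝓘(ℝ, ℂ) 𝓘(ℝ, ℂ) 2 G q)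
    (hp : ‖d2 G q‖ < ‖d1 G q‖) : ContMDiffAt 𝓘(ℝ, ℂ) 𝓘(ℝ, ℂ) 2 H (G q) := by
  obtain ⟨e, he⟩ := exists_equiv_of_w hp
  have h1 := (contMDiffAt_iff.1 hs).2
  have h2 := (hs.mdifferentiableAt (by simp)).hasMFDerivAt.2
  simp only [mfld_simps, contDiffWithinAt_univ, hasFDerivWithinAt_univ] at h1 h2
  have hq := mem_chart_source ℂ q
  have hq' := mem_chart_source ℂ (G q)
  set χ := chartAt ℂ q with hχ
  set χ' := chartAt ℂ (G q) with hχ'
  have h3 : HasFDerivAt (χ' ∘ G ∘ χ.symm) (e : ℂ →L[ℝ] ℂ) (χ q) := by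
    rw [he]
    exact h2
  have e1 : (χ' ∘ G ∘ χ.symm) (χ q) = χ' (G q) := by
    simp only [Function.comp_apply, χ.left_inv hq]
  have h4 := h1.to_localInverse h3 (by simp)
  have h5 := h1.localInverse_apply_image h3 (by simp)
  have h6 : ∀ᶠ y in 𝓝 ((χ' ∘ G ∘ χ.symm) (χ q)),
      (χ' ∘ G ∘ χ.symm) (h1.localInverse h3 (by simp) y) = y :=
    (h1.hasStrictFDerivAt' h3 (by simp)).eventually_right_inverse
  rw [e1] at h4 h5 h6
  generalize h1.localInverse h3 _ = k at h4 h5 h6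
  have a1 : ContMDiffAt 𝓘(ℝ, ℂ) 𝓘(ℝ, ℂ) 2 χ' (G q) :=
    contMDiffAt_of_mem_maximalAtlas (IsManifold.chart_mem_maximalAtlas _) hq'
  have a2 : ContMDiffAt 𝓘(ℝ, ℂ) 𝓘(ℝ, ℂ) 2 χ.symm (k (χ' (G q))) := by
    rw [h5]
    exact contMDiffAt_symm_of_mem_maximalAtlas (IsManifold.chart_mem_maximalAtlas _)
      (χ.map_source hq)
  have a3 : ContMDiffAt 𝓘(ℝ, ℂ) 𝓘(ℝ, ℂ) 2 (χ.symm ∘ k ∘ χ') (G q) :=
    a2.comp (G q) (h4.contMDiffAt.comp (G q) a1)
  have e2 : (χ.symm ∘ k ∘ χ') (G q) = q := by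
    simp only [Function.comp_apply, h5, χ.left_inv hq]
  have c1 : Tendsto (G ∘ χ.symm ∘ k ∘ χ') (𝓝 (G q)) (𝓝 (G q)) := by
    have := a3.continuousAt
    rw [ContinuousAt, e2] at this
    exact hs.continuousAt.tendsto.comp this
  refine a3.congr_of_eventuallyEq ?_
  filter_upwards [a1.continuousAt.eventually h6, χ'.open_source.mem_nhds hq',
    c1.eventually (χ'.open_source.mem_nhds hq')] with y b1 b2 b3
  have := χ'.injOn b3 b2 b1
  conv_lhs => rw [← this]
  exact hH _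

/-- bijective `C²` local diffeomorphisms are admissible -/
theorem Adm.exists_of_bij [IsManifold 𝓘(ℝ, ℂ) ω Y] [IsManifold 𝓘(ℝ, ℂ) ω Y']
    (hb : Function.Bijective G) (hs : ContMDiff 𝓘(ℝ, ℂ) 𝓘(ℝ, ℂ) 2 G)
    (hp : ∀ q, ‖d2 G q‖ < ‖d1 G q‖) (hc : ∃ K, IsCompact K ∧ ∀ q, q ∉ K → d2 G q = 0) :
    ∃ A : Adm Y Y', ⇑A.φ = G := by
  let e := Equiv.ofBijective G hb
  refine ⟨⟨⟨e, hs, fun y => ?_⟩, hp, hc⟩, rfl⟩
  obtain ⟨x, rfl⟩ := hb.2 y
  exact L0c_inv e.left_inv (hs x) (hp x)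

end General

end Pool.Agent.MP_e62289_ag

end

section



end

section

open Set Filter Topology Complex MeasureTheory Metric
open scoped Manifold ContDiff ComplexConjugate NNReal ENNReal

namespace Pool.Agent.MP_e62289_ag

/-- holomorphic functions on `ℂ × B` are smooth in the real sense -/
theorem smooth_of_hol {E : Type} [NormedAddCommGroup E] [NormedSpace ℂ E] [FiniteDimensional ℂ E]
    {B : Type} [TopologicalSpace B] [ChartedSpace E B] [IsManifold 𝓘(ℂ, E) ω B]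
    [IsManifold 𝓘(ℝ, E) ∞ B] {g : ℂ × B → ℂ} {O : Set (ℂ × B)} (hO : IsOpen O)
    (hg : MDifferentiableOn (𝓘(ℂ, ℂ).prod 𝓘(ℂ, E)) 𝓘(ℂ, ℂ) g O) :
    ContMDiffOn (𝓘(ℝ, ℂ).prod 𝓘(ℝ, E)) 𝓘(ℝ, ℂ) ∞ g O := by
  intro p hp
  let e := chartAt E p.2
  have hc : ContinuousOn (fun w : ℂ × E => (w.1, e.symm w.2)) (Prod.snd ⁻¹' e.target) :=
    continuousOn_fst.prodMk (e.continuousOn_symm.comp continuousOn_snd fun _ h => h)
  have hs := hc.isOpen_inter_preimage (e.open_target.preimage continuous_snd) hO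
  have hd := osgood (f := fun w : ℂ × E => g (w.1, e.symm w.2)) hs fun w hw => by
    have h1 : MDifferentiableAt 𝓘(ℂ, ℂ × E) (𝓘(ℂ, ℂ).prod 𝓘(ℂ, E))
        (fun w : ℂ × E => (w.1, e.symm w.2)) w :=
      differentiableAt_fst.mdifferentiableAt.prodMk
        ((mdifferentiableAt_atlas_symm (chart_mem_atlas E p.2) hw.1).comp w
          differentiableAt_snd.mdifferentiableAt)
    exact (((hg _ hw.2).mdifferentiableAt (hO.mem_nhds hw.2)).comp w
      h1).differentiableAt.differentiableWithinAt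
  have hm : (p.1, e p.2) ∈ Prod.snd ⁻¹' e.target ∩ (fun w : ℂ × E => (w.1, e.symm w.2)) ⁻¹' O :=
    ⟨mem_chart_target E p.2, by
      simpa only [mem_preimage, e.left_inv (mem_chart_source E p.2)] using hp⟩
  have h2 : ContMDiffAt (𝓘(ℝ, ℂ).prod 𝓘(ℝ, E)) 𝓘(ℝ, ℂ × E) ∞ (fun p : ℂ × B => (p.1, e p.2)) p :=
    contMDiffAt_fst.prodMk_space ((contMDiffOn_chart.contMDiffAt
      (chart_source_mem_nhds E p.2)).comp p contMDiffAt_snd)
  have h3 := ((hd.restrict_scalars ℝ).contDiffAt (hs.mem_nhds hm)).contMDiffAt.comp p h2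
  refine (h3.congr_of_eventuallyEq ?_).contMDiffWithinAt
  filter_upwards [continuous_snd.continuousAt.preimage_mem_nhds (chart_source_mem_nhds E p.2)]
    with w hw
  simp only [Function.comp_apply, e.left_inv hw]

/-- holomorphic functions on `B` are smooth in the real sense -/
theorem smooth_of_hol' {E : Type} [NormedAddCommGroup E] [NormedSpace ℂ E] [FiniteDimensional ℂ E]
    {B : Type} [TopologicalSpace B] [ChartedSpace E B] [IsManifold 𝓘(ℂ, E) ω B]
    [IsManifold 𝓘(ℝ, E) ∞ B] {g : B → ℂ} {O : Set B} (hO : IsOpen O)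
    (hg : MDifferentiableOn 𝓘(ℂ, E) 𝓘(ℂ, ℂ) g O) : ContMDiffOn 𝓘(ℝ, E) 𝓘(ℝ, ℂ) ∞ g O := by
  have h := smooth_of_hol (g := fun p : ℂ × B => g p.2) (hO.preimage continuous_snd)
    (hg.comp mdifferentiableOn_snd fun _ h => h)
  exact h.comp (f := fun b : B => ((0 : ℂ), b)) (contMDiffOn_const.prodMk contMDiffOn_id)
    fun _ h => h

namespace Family

variable {E : Type} [NormedAddCommGroup E] [NormedSpace ℂ E] {B : Type} [TopologicalSpace B]
  [ChartedSpace E B] {n : ℕ} {a : Fin n → ℕ} (C : Family E B a)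

theorem F1_open (x y : C.X) (b : B) :
    IsOpen {z : ℂ | (z, b) ∈ ((C.chart x).symm ≫ₕ C.chart y).source} :=
  ((C.chart x).symm ≫ₕ C.chart y).open_source.preimage (Continuous.prodMk_left b)

theorem F1_analytic {x y : C.X} {b : B} {z : ℂ}
    (hz : (z, b) ∈ ((C.chart x).symm ≫ₕ C.chart y).source) :
    AnalyticAt ℂ (fun z => (C.chart y ((C.chart x).symm (z, b))).1) z := by
  refine DifferentiableOn.analyticAt (fun w hw => ?_) ((C.F1_open x y b).mem_nhds hz)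
  have h1 : MDifferentiableAt 𝓘(ℂ, ℂ) (𝓘(ℂ, ℂ).prod 𝓘(ℂ, E)) (fun z : ℂ => (z, b)) w :=
    mdifferentiableAt_id.prodMk mdifferentiableAt_const
  exact (((C.hol_chart x y _ hw).mdifferentiableAt
    (((C.chart x).symm ≫ₕ C.chart y).open_source.mem_nhds hw)).comp w
      h1).differentiableAt.differentiableWithinAt

theorem F1_mem {x y q : C.X} (hx : q ∈ (C.chart x).source) (hy : q ∈ (C.chart y).source) :
    ((C.chart x q).1, C.proj q) ∈ ((C.chart x).symm ≫ₕ C.chart y).source := by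
  rw [C.chart_eq hx]
  refine ⟨(C.chart x).map_source hx, ?_⟩
  change (C.chart x).symm (C.chart x q) ∈ (C.chart y).source
  rwa [(C.chart x).left_inv hx]

/-- coordinate changes along a fibre -/
theorem analyticAt_trans {x y q : C.X} (hx : q ∈ (C.chart x).source)
    (hy : q ∈ (C.chart y).source) :
    AnalyticAt ℂ (fun z => (C.chart y ((C.chart x).symm (z, C.proj q))).1) (C.chart x q).1 ∧
    deriv (fun z => (C.chart y ((C.chart x).symm (z, C.proj q))).1) (C.chart x q).1 ≠ 0 := by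
  have h1 := C.F1_analytic (C.F1_mem hx hy)
  have h2 := C.F1_analytic (C.F1_mem hy hx)
  refine ⟨h1, fun h0 => ?_⟩
  have e : (C.chart y ((C.chart x).symm ((C.chart x q).1, C.proj q))).1 = (C.chart y q).1 := by
    rw [C.chart_eq hx, (C.chart x).left_inv hx]
  have h3 := (e ▸ h2.differentiableAt.hasDerivAt).comp (C.chart x q).1
    h1.differentiableAt.hasDerivAt
  rw [h0, mul_zero] at h3
  refine zero_ne_one (h3.unique ((hasDerivAt_id _).congr_of_eventuallyEq ?_))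
  filter_upwards [(C.F1_open x y _).mem_nhds (C.F1_mem hx hy)] with z hz
  have h4 : (C.chart x).symm (z, C.proj q) ∈ (C.chart y).source := hz.2
  have h5 := C.chart_eq h4
  rw [C.proj_symm hz.1] at h5
  simp only [Function.comp_apply, id, h5, (C.chart y).left_inv h4, (C.chart x).right_inv hz.1]

theorem F1_trans {b : B} (y y' : C.Fib b) (x x' : C.X) {z : ℂ}
    (hz : z ∈ ((C.fchart y x).symm ≫ₕ C.fchart y' x').source) :
    AnalyticAt ℂ (C.fchart y' x' ∘ (C.fchart y x).symm) z := by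
  have h1 : ((C.fchart y x).symm z).1 ∈ (C.chart x').source := hz.2
  rw [C.fchart_symm y x hz.1] at h1
  refine (C.F1_analytic (x := x) (y := x') (b := b) ⟨hz.1.1, h1⟩).congr ?_
  filter_upwards [(C.fchart y x).open_target.mem_nhds hz.1] with w hw
  rw [Function.comp_apply, fchart_apply, C.fchart_symm y x hw]

instance (b : B) : IsManifold 𝓘(ℂ, ℂ) ω (C.Fib b) := by
  refine isManifold_of_contDiffOn _ _ _ ?_
  rintro _ _ ⟨y, rfl⟩ ⟨y', rfl⟩ z hz
  simp only [mfld_simps] at hz ⊢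
  exact (C.F1_trans y y' _ _ hz).contDiffAt.contDiffWithinAt

instance (b : B) : IsManifold 𝓘(ℝ, ℂ) ω (C.Fib b) := by
  refine isManifold_of_contDiffOn _ _ _ ?_
  rintro _ _ ⟨y, rfl⟩ ⟨y', rfl⟩ z hz
  simp only [mfld_simps] at hz ⊢
  exact ((C.F1_trans y y' _ _ hz).contDiffAt.restrict_scalars ℝ).contDiffWithinAt

theorem fchart_hol {b : B} (y : C.Fib b) (x : C.X) :
    MDifferentiableOn 𝓘(ℂ, ℂ) 𝓘(ℂ, ℂ) (C.fchart y x) (C.fchart y x).source := by
  intro q hq
  have h0 := mem_chart_source ℂ q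
  have h1 := C.F1_trans q y q.1 x (z := chartAt ℂ q q) ⟨mem_chart_target ℂ q, by
    have := (chartAt ℂ q).left_inv h0
    change (chartAt ℂ q).symm (chartAt ℂ q q) ∈ (C.fchart y x).source
    rwa [this]⟩
  have h2 := h1.differentiableAt.mdifferentiableAt.comp q
    (mdifferentiableAt_atlas (I := 𝓘(ℂ, ℂ)) (chart_mem_atlas ℂ q) h0)
  refine (h2.congr_of_eventuallyEq ?_).mdifferentiableWithinAt
  filter_upwards [chart_source_mem_nhds ℂ q] with w hw
  exact congrArg _ ((chartAt ℂ q).left_inv hw).symm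

theorem holAt_chart {b : B} {x : C.X} {q : C.Fib b} (h : q.1 ∈ (C.chart x).source) :
    HolAt (fun y : C.Fib b => (C.chart x y.1).1) q ∧
      d1 (fun y : C.Fib b => (C.chart x y.1).1) q ≠ 0 := by
  exact (coord_hol (C.fchart_hol q x)).1 q h

variable {Y : Type} [TopologicalSpace Y] [ChartedSpace ℂ Y]

/-- smoothness of a map into a fibre can be tested in any chart of the total space -/
theorem contMDiffAt_fib {b : B} {G : Y → C.Fib b} {q : Y} {x : C.X} (hc : ContinuousAt G q)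
    (hx : (G q).1 ∈ (C.chart x).source) (h : CkAt 2 (fun y => (C.chart x (G y).1).1) q) :
    ContMDiffAt 𝓘(ℝ, ℂ) 𝓘(ℝ, ℂ) 2 G q ∧
    (∃ c : ℂ, c ≠ 0 ∧ d1 (fun y => (C.chart x (G y).1).1) q = c * d1 G q ∧
      d2 (fun y => (C.chart x (G y).1).1) q = c * d2 G q) := by
  have h0 : G q ∈ (C.fchart (G q) x).source := hx
  have h1 := C.F1_trans (G q) (G q) x (G q).1 (z := C.fchart (G q) x (G q))
    ⟨(C.fchart (G q) x).map_source h0, by
      change (C.fchart (G q) x).symm _ ∈ (C.fchart (G q) (G q).1).source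
      rw [(C.fchart (G q) x).left_inv h0]
      exact C.mem_source _⟩
  have h2 : ContMDiffAt 𝓘(ℝ, ℂ) 𝓘(ℝ, ℂ) 2 G q := by
    refine contMDiffAt_iff_target.2 ⟨hc, ?_⟩
    refine ((h1.contDiffAt.restrict_scalars ℝ).contMDiffAt.comp q h).congr_of_eventuallyEq ?_
    filter_upwards [hc.preimage_mem_nhds ((C.fchart (G q) x).open_source.mem_nhds h0)] with w hw
    exact congrArg (C.fchart (G q) (G q).1) ((C.fchart (G q) x).left_inv hw).symm
  obtain ⟨h3, h4⟩ := C.holAt_chart hx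
  obtain ⟨h5, h6, -⟩ := bel_comp_hol (h2.mdifferentiableAt (by simp)) h3 h4
  exact ⟨h2, _, h4, h5, h6⟩

theorem ckAt_adm {b : B} (G : Adm Y (C.Fib b)) {q : Y} {x : C.X}
    (hx : (G.φ q).1 ∈ (C.chart x).source) : CkAt 2 (fun y => (C.chart x (G.φ y).1).1) q := by
  have h1 : CkAt 2 (fun y : C.Fib b => (C.chart x y.1).1) (G.φ q) := by
    refine ckAt_of_hol ?_ 2
    filter_upwards [(C.fchart (G.φ q) x).open_source.mem_nhds hx] with w hw
    exact (C.holAt_chart hw).1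
  exact h1.comp q (G.φ.contMDiff q)

variable {C} {T T' : Type} [TopologicalSpace T] [TopologicalSpace T'] {ψ : T → B}
  {Y' : Type} [TopologicalSpace Y'] [ChartedSpace ℂ Y']

/-- change of the marking surface -/
noncomputable def MFam.pre (M : C.MFam Y' ψ) (A : Adm Y Y') : C.MFam Y ψ where
  G t := A.trans (M.G t)
  cont := M.cont.comp (continuous_fst.prodMk (A.φ.continuous.comp continuous_snd))
  cont' := A.φ.symm.continuous.comp M.cont'
  conf := by
    obtain ⟨K, hK, h⟩ := A.conf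
    obtain ⟨K', hK', h'⟩ := M.conf
    refine ⟨K ∪ A.φ.symm '' K', hK.union (hK'.image A.φ.symm.continuous), fun t q hq => ?_⟩
    rw [(A.d_trans (M.G t) q).2, h q fun h => hq (Or.inl h),
      h' t (A.φ q) fun h => hq (Or.inr ⟨_, h, A.φ.symm_apply_apply q⟩)]
    simp

/-- change of the parameter space -/
noncomputable def MFam.comap (M : C.MFam Y ψ) (g : T' → T) (hg : Continuous g) :
    C.MFam Y fun t => ψ (g t) where
  G t := M.G (g t)
  cont := M.cont.comp ((hg.comp continuous_fst).prodMk continuous_snd)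
  cont' := M.cont'.comp (f := fun p : C.Tot fun t => ψ (g t) => (⟨(g p.1.1, p.1.2), p.2⟩ : C.Tot ψ))
    (((hg.comp (continuous_fst.comp continuous_subtype_val)).prodMk
      (continuous_snd.comp continuous_subtype_val)).subtype_mk _)
  conf := let ⟨K, hK, h⟩ := M.conf; ⟨K, hK, fun t => h (g t)⟩

end Family

end Pool.Agent.MP_e62289_ag

end

section

open Set Filter Topology Complex MeasureTheory Metric
open scoped Manifold ContDiff ComplexConjugate NNReal ENNReal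

namespace Pool.Agent.MP_e62289_ag

/-- `w1` as a continuous linear map -/
noncomputable def L1a_W1 : (ℂ →L[ℝ] ℂ) →L[ℝ] ℂ :=
  (2⁻¹ : ℂ) • (ContinuousLinearMap.apply ℝ ℂ (1 : ℂ) - I • ContinuousLinearMap.apply ℝ ℂ I)

/-- `w2` as a continuous linear map -/
noncomputable def L1a_W2 : (ℂ →L[ℝ] ℂ) →L[ℝ] ℂ :=
  (2⁻¹ : ℂ) • (ContinuousLinearMap.apply ℝ ℂ (1 : ℂ) + I • ContinuousLinearMap.apply ℝ ℂ I)

theorem L1a_W1_apply (L : ℂ →L[ℝ] ℂ) : L1a_W1 L = w1 L := by
  simp [L1a_W1, w1]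
  ring

theorem L1a_W2_apply (L : ℂ →L[ℝ] ℂ) : L1a_W2 L = w2 L := by
  simp [L1a_W2, w2]
  ring

namespace Flat

variable {n : ℕ} (S : Flat n) {u : S.Y → ℂ} {q : S.Y}

theorem L1a_tendsto_symm (q : S.Y) :
    Tendsto (chartAt ℂ q).symm (𝓝 (chartAt ℂ q q)) (𝓝 q) :=
  (chartAt ℂ q).tendsto_symm (mem_chart_source ℂ q)

/-- the derivative can be computed in any flat chart -/
theorem dd_eq {x : S.Y} (hq : q ∈ (chartAt ℂ x).source) (hu : RDiffAt u q) :
    dd u q = fderiv ℝ (u ∘ (chartAt ℂ x).symm) (chartAt ℂ x q) := by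
  rw [dd_eq_fderiv hu]
  set c : ℂ := chartAt ℂ x q - chartAt ℂ q q with hc
  have h1 := (S.L1a_tendsto_symm q).eventually
    ((S.flat x q q ⟨hq, mem_chart_source ℂ q⟩).and
      ((chartAt ℂ x).open_source.mem_nhds hq))
  have h2 : ∀ᶠ z in 𝓝 (chartAt ℂ q q), z ∈ (chartAt ℂ q).target :=
    (chartAt ℂ q).open_target.mem_nhds (mem_chart_target ℂ q)
  have h3 : u ∘ (chartAt ℂ q).symm =ᶠ[𝓝 (chartAt ℂ q q)]
      fun z => (u ∘ (chartAt ℂ x).symm) (z + c) := by
    filter_upwards [h1, h2] with z hz hz'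
    have e : z + c = chartAt ℂ x ((chartAt ℂ q).symm z) := by
      have := hz.1
      rw [(chartAt ℂ q).right_inv hz'] at this
      rw [hc, ← this]
      ring
    simp only [Function.comp_apply]
    rw [e, (chartAt ℂ x).left_inv hz.2]
  rw [h3.fderiv_eq, fderiv_comp_add_right]
  congr 1
  rw [hc]
  ring

theorem d_chart {x : S.Y} (hq : q ∈ (chartAt ℂ x).source) :
    d1 (chartAt ℂ x) q = 1 ∧ d2 (chartAt ℂ x) q = 0 := by
  have hu : RDiffAt (chartAt ℂ x) q := (mdifferentiable_chart x).mdifferentiableAt hq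
  have h : (chartAt ℂ x) ∘ (chartAt ℂ x).symm =ᶠ[𝓝 (chartAt ℂ x q)] id := by
    filter_upwards [(chartAt ℂ x).open_target.mem_nhds ((chartAt ℂ x).map_source hq)] with z hz
    exact (chartAt ℂ x).right_inv hz
  simp only [d1, d2, S.dd_eq hq hu, h.fderiv_eq, fderiv_id]
  exact w_id

theorem L1a_contDiffAt {m : ℕ∞ω} (hu : CkAt m u q) :
    ContDiffAt ℝ m (u ∘ (chartAt ℂ q).symm) (chartAt ℂ q q) := by
  have h := (contMDiffAt_iff.1 hu).2
  simpa [contDiffWithinAt_univ] using h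

theorem L1a_ev {k : ℕ} (hu : CkAt (k + 1 : ℕ) u q) :
    ∀ᶠ x in 𝓝 q, dd u x = fderiv ℝ (u ∘ (chartAt ℂ q).symm) (chartAt ℂ q x) := by
  have h1 := (contMDiffAt_iff_contMDiffAt_nhds (by simp)).1 hu
  filter_upwards [h1, (chartAt ℂ q).open_source.mem_nhds (mem_chart_source ℂ q)] with x hx hx'
  exact S.dd_eq hx' (hx.mdifferentiableAt (by simp))

theorem ckAt_d {k : ℕ} (hu : CkAt (k + 1 : ℕ) u q) : CkAt k (d1 u) q ∧ CkAt k (d2 u) q := by
  have h1 : ContDiffAt ℝ k (fderiv ℝ (u ∘ (chartAt ℂ q).symm)) (chartAt ℂ q q) :=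
    (S.L1a_contDiffAt hu).fderiv_right (by simp)
  have hc : ContMDiffAt 𝓘(ℝ, ℂ) 𝓘(ℝ, ℂ) k (chartAt ℂ q) q :=
    contMDiffOn_chart.contMDiffAt ((chartAt ℂ q).open_source.mem_nhds (mem_chart_source ℂ q))
  have h2 := h1.contMDiffAt.comp q hc
  constructor
  · refine ((L1a_W1.contMDiff (n := k)).contMDiffAt.comp q h2).congr_of_eventuallyEq ?_
    filter_upwards [S.L1a_ev hu] with x hx
    simp only [Function.comp_apply, L1a_W1_apply, d1, hx]
  · refine ((L1a_W2.contMDiff (n := k)).contMDiffAt.comp q h2).congr_of_eventuallyEq ?_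
    filter_upwards [S.L1a_ev hu] with x hx
    simp only [Function.comp_apply, L1a_W2_apply, d2, hx]

theorem continuousAt_d (hu : CkAt 1 u q) : ContinuousAt (d1 u) q ∧ ContinuousAt (d2 u) q := by
  have h := S.ckAt_d (k := 0) (u := u) (q := q) (by simpa using hu)
  exact ⟨h.1.continuousAt, h.2.continuousAt⟩

theorem d1_d2 (hu : CkAt 2 u q) : d1 (d2 u) q = d2 (d1 u) q := by
  have hu' : CkAt ((1 : ℕ) + 1 : ℕ) u q := hu
  have hd := S.ckAt_d hu'
  have hg := S.L1a_contDiffAt hu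
  set g := u ∘ (chartAt ℂ q).symm with hgdef
  have h1 : HasFDerivAt (fderiv ℝ g) (fderiv ℝ (fderiv ℝ g) (chartAt ℂ q q)) (chartAt ℂ q q) :=
    ((hg.fderiv_right (m := 1) le_rfl).differentiableAt one_ne_zero).hasFDerivAt
  have hs := hg.isSymmSndFDerivAt (by simp)
  have h2 : ∀ᶠ z in 𝓝 (chartAt ℂ q q), dd u ((chartAt ℂ q).symm z) = fderiv ℝ g z := by
    filter_upwards [(S.L1a_tendsto_symm q).eventually (S.L1a_ev hu'),
      (chartAt ℂ q).open_target.mem_nhds (mem_chart_target ℂ q)] with z hz hz'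
    rw [hz, (chartAt ℂ q).right_inv hz']
  have e1 : d1 u ∘ (chartAt ℂ q).symm =ᶠ[𝓝 (chartAt ℂ q q)] L1a_W1 ∘ fderiv ℝ g := by
    filter_upwards [h2] with z hz
    simp only [Function.comp_apply, L1a_W1_apply, d1, hz]
  have e2 : d2 u ∘ (chartAt ℂ q).symm =ᶠ[𝓝 (chartAt ℂ q q)] L1a_W2 ∘ fderiv ℝ g := by
    filter_upwards [h2] with z hz
    simp only [Function.comp_apply, L1a_W2_apply, d2, hz]
  have f1 := (L1a_W1.hasFDerivAt.comp _ h1).fderiv
  have f2 := (L1a_W2.hasFDerivAt.comp _ h1).fderiv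
  rw [d1, dd_eq_fderiv (hd.2.mdifferentiableAt (by simp)), e2.fderiv_eq, f2, d2,
    dd_eq_fderiv (hd.1.mdifferentiableAt (by simp)), e1.fderiv_eq, f1]
  simp only [w1, w2, ContinuousLinearMap.comp_apply, L1a_W1_apply, L1a_W2_apply]
  rw [hs 1 I]
  ring

theorem holAt_d1 (h : ∀ᶠ x in 𝓝 q, HolAt u x) : ∀ᶠ x in 𝓝 q, HolAt (d1 u) x := by
  filter_upwards [h.eventually_nhds] with y hy
  have hk : CkAt 2 u y := ckAt_of_hol hy 2
  have hk' : CkAt ((1 : ℕ) + 1 : ℕ) u y := hk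
  refine hol_of_d2 ((S.ckAt_d hk').1.mdifferentiableAt (by simp)) ?_
  have e : d2 u =ᶠ[𝓝 y] fun _ => 0 := hy.mono fun x hx => (d2_of_hol hx).2
  rw [← S.d1_d2 hk, (d_congr e).1, (d_const 0 y).1]

end Flat

end Pool.Agent.MP_e62289_ag

end

section

open Set Filter Topology Complex MeasureTheory Metric
open scoped Manifold ContDiff ComplexConjugate NNReal ENNReal

namespace Pool.Agent.MP_e62289_ag

theorem L1b_bound {Y : Type} [TopologicalSpace Y] {f : Y → ℝ} (hf : Continuous f) {K : Set Y}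
    (hK : IsCompact K) (h1 : ∀ q, f q < 1) {κ : ℝ} (hκ : κ < 1) (h2 : ∀ q, q ∉ K → f q ≤ κ) :
    ∃ κ' : ℝ, 0 ≤ κ' ∧ κ' < 1 ∧ ∀ q, f q ≤ κ' := by
  rcases K.eq_empty_or_nonempty with rfl | hne
  · exact ⟨max κ 0, le_max_right _ _, max_lt hκ one_pos,
      fun q => (h2 q (notMem_empty q)).trans (le_max_left _ _)⟩
  · obtain ⟨x, -, hx⟩ := hK.exists_isMaxOn hne hf.continuousOn
    refine ⟨max (max κ (f x)) 0, le_max_right _ _, max_lt (max_lt hκ (h1 x)) one_pos, fun q => ?_⟩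
    refine le_trans ?_ (le_max_left _ _)
    by_cases hq : q ∈ K
    · exact le_trans (hx hq) (le_max_right _ _)
    · exact (h2 q hq).trans (le_max_left _ _)

theorem L1b_cont_w : Continuous w1 ∧ Continuous w2 := by
  constructor
  · unfold w1
    fun_prop
  · unfold w2
    fun_prop

theorem L1b_chart {Y : Type} [TopologicalSpace Y] [ChartedSpace ℂ Y] [IsManifold 𝓘(ℝ, ℂ) ω Y]
    {x q : Y} (hq : q ∈ (chartAt ℂ x).source) : CkAt 1 (chartAt ℂ x) q := by
  haveI : IsManifold 𝓘(ℝ, ℂ) 1 Y := IsManifold.of_le (n := ω) le_top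
  exact (contMDiffOn_chart (I := 𝓘(ℝ, ℂ)) (n := 1) (x := x)).contMDiffAt
    ((chartAt ℂ x).open_source.mem_nhds hq)

namespace Flat

variable {n : ℕ} (S : Flat n) {u : S.Y → ℂ} {q : S.Y}

theorem L1b_loc {E T : Type} [NormedAddCommGroup E] [NormedSpace ℝ E]
    [TopologicalSpace T] [ChartedSpace E T] [IsManifold 𝓘(ℝ, E) 1 T] {g : T × S.Y → ℂ}
    {O : Set (T × S.Y)} (hO : IsOpen O)
    (hg : ContMDiffOn (𝓘(ℝ, E).prod 𝓘(ℝ, ℂ)) 𝓘(ℝ, ℂ) 1 g O) (t : T) (x : S.Y) :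
    ∃ U : Set (E × ℂ), IsOpen U ∧
      ContDiffOn ℝ 1 (fun w : E × ℂ => g ((chartAt E t).symm w.1, (chartAt ℂ x).symm w.2)) U ∧
      (∀ w ∈ U, ((chartAt E t).symm w.1, (chartAt ℂ x).symm w.2) ∈ O) ∧
      ∀ p ∈ O, p.1 ∈ (chartAt E t).source → p.2 ∈ (chartAt ℂ x).source →
        (chartAt E t p.1, chartAt ℂ x p.2) ∈ U ∧
        dd (fun y => g (p.1, y)) p.2 = fderiv ℝ (fun z =>
          g ((chartAt E t).symm (chartAt E t p.1), (chartAt ℂ x).symm z)) (chartAt ℂ x p.2) := by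
  haveI : IsManifold 𝓘(ℝ, ℂ) 1 S.Y := IsManifold.of_le (n := ω) le_top
  have hm : ContMDiffOn 𝓘(ℝ, E × ℂ) (𝓘(ℝ, E).prod 𝓘(ℝ, ℂ)) 1
      (fun w : E × ℂ => ((chartAt E t).symm w.1, (chartAt ℂ x).symm w.2))
      ((chartAt E t).target ×ˢ (chartAt ℂ x).target) := by
    refine ContMDiffOn.prodMk ?_ ?_
    · exact (contMDiffOn_chart_symm (I := 𝓘(ℝ, E)) (n := 1) (x := t)).comp
        (contDiff_fst.contMDiff.contMDiffOn) (fun w hw => hw.1)
    · exact (contMDiffOn_chart_symm (I := 𝓘(ℝ, ℂ)) (n := 1) (x := x)).comp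
        (contDiff_snd.contMDiff.contMDiffOn) (fun w hw => hw.2)
  refine ⟨((chartAt E t).target ×ˢ (chartAt ℂ x).target) ∩
    (fun w : E × ℂ => ((chartAt E t).symm w.1, (chartAt ℂ x).symm w.2)) ⁻¹' O,
    hm.continuousOn.isOpen_inter_preimage
      ((chartAt E t).open_target.prod (chartAt ℂ x).open_target) hO, ?_, fun w hw => hw.2, ?_⟩
  · rw [← contMDiffOn_iff_contDiffOn]
    exact hg.comp (hm.mono inter_subset_left) (fun w hw => hw.2)
  · intro p hp h1 h2
    refine ⟨⟨⟨(chartAt E t).map_source h1, (chartAt ℂ x).map_source h2⟩, ?_⟩, ?_⟩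
    · show ((chartAt E t).symm (chartAt E t p.1), (chartAt ℂ x).symm (chartAt ℂ x p.2)) ∈ O
      rw [(chartAt E t).left_inv h1, (chartAt ℂ x).left_inv h2]
      exact hp
    · rw [(chartAt E t).left_inv h1]
      have hd : ContMDiffAt 𝓘(ℝ, ℂ) 𝓘(ℝ, ℂ) 1 (fun y => g (p.1, y)) p.2 :=
        (hg.contMDiffAt (hO.mem_nhds hp)).comp p.2 (contMDiffAt_const.prodMk contMDiffAt_id)
      exact S.dd_eq h2 (hd.mdifferentiableAt (by simp))

/-- joint continuity of the derivatives of a function with a parameter in a manifold -/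
theorem continuousOn_d_par {E T : Type} [NormedAddCommGroup E] [NormedSpace ℝ E]
    [TopologicalSpace T] [ChartedSpace E T] [IsManifold 𝓘(ℝ, E) 1 T] {g : T × S.Y → ℂ}
    {O : Set (T × S.Y)} (hO : IsOpen O)
    (hg : ContMDiffOn (𝓘(ℝ, E).prod 𝓘(ℝ, ℂ)) 𝓘(ℝ, ℂ) 1 g O) :
    ContinuousOn (fun p : T × S.Y => d1 (fun x => g (p.1, x)) p.2) O ∧
    ContinuousOn (fun p : T × S.Y => d2 (fun x => g (p.1, x)) p.2) O := by
  have key : ContinuousOn (fun p : T × S.Y => dd (fun x => g (p.1, x)) p.2) O := by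
    intro p0 hp0
    obtain ⟨U, hU, hd, -, hl⟩ := S.L1b_loc hO hg p0.1 p0.2
    set G : E × ℂ → ℂ := fun w => g ((chartAt E p0.1).symm w.1, (chartAt ℂ p0.2).symm w.2)
      with hG
    have hc : ContinuousAt (fun p : T × S.Y => (chartAt E p0.1 p.1, chartAt ℂ p0.2 p.2)) p0 :=
      (((chartAt E p0.1).continuousAt (mem_chart_source E p0.1)).comp continuousAt_fst).prodMk
        (((chartAt ℂ p0.2).continuousAt (mem_chart_source ℂ p0.2)).comp continuousAt_snd)
    have h0 := (hl p0 hp0 (mem_chart_source E p0.1) (mem_chart_source ℂ p0.2)).1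
    have hf : ContinuousAt (fderiv ℝ G) (chartAt E p0.1 p0.1, chartAt ℂ p0.2 p0.2) :=
      (hd.continuousOn_fderiv_of_isOpen hU le_rfl).continuousAt (hU.mem_nhds h0)
    have h2 : ContinuousAt (fun p : T × S.Y =>
        (fderiv ℝ G (chartAt E p0.1 p.1, chartAt ℂ p0.2 p.2)).comp
          (ContinuousLinearMap.inr ℝ E ℂ)) p0 :=
      (ContinuousAt.comp (f := fun p : T × S.Y => (chartAt E p0.1 p.1, chartAt ℂ p0.2 p.2))
        hf hc).clm_comp continuousAt_const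
    refine (h2.congr ?_).continuousWithinAt
    have e1 : ∀ᶠ p : T × S.Y in 𝓝 p0, p.1 ∈ (chartAt E p0.1).source :=
      continuousAt_fst.preimage_mem_nhds (chart_source_mem_nhds E p0.1)
    have e2 : ∀ᶠ p : T × S.Y in 𝓝 p0, p.2 ∈ (chartAt ℂ p0.2).source :=
      continuousAt_snd.preimage_mem_nhds (chart_source_mem_nhds ℂ p0.2)
    filter_upwards [e1, e2, hO.mem_nhds hp0] with p h1 h2 hp
    obtain ⟨hpU, he⟩ := hl p hp h1 h2
    rw [he]
    have hdf : HasFDerivAt G (fderiv ℝ G (chartAt E p0.1 p.1, chartAt ℂ p0.2 p.2))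
        (chartAt E p0.1 p.1, chartAt ℂ p0.2 p.2) :=
      ((hd.contDiffAt (hU.mem_nhds hpU)).differentiableAt (by simp)).hasFDerivAt
    exact ((hdf.comp (chartAt ℂ p0.2 p.2)
      (hasFDerivAt_prodMk_right (chartAt E p0.1 p.1) (chartAt ℂ p0.2 p.2))).fderiv).symm
  exact ⟨L1b_cont_w.1.comp_continuousOn key, L1b_cont_w.2.comp_continuousOn key⟩

/-- the derivatives depend holomorphically on a holomorphic parameter -/
theorem d_par_hol {g : ℂ × S.Y → ℂ} {O : Set (ℂ × S.Y)} (hO : IsOpen O)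
    (hg : ContMDiffOn (𝓘(ℝ, ℂ).prod 𝓘(ℝ, ℂ)) 𝓘(ℝ, ℂ) 1 g O)
    (hh : ∀ p ∈ O, DifferentiableAt ℂ (fun t => g (t, p.2)) p.1) {p : ℂ × S.Y} (hp : p ∈ O) :
    DifferentiableAt ℂ (fun t => d1 (fun x => g (t, x)) p.2) p.1 ∧
    DifferentiableAt ℂ (fun t => d2 (fun x => g (t, x)) p.2) p.1 := by
  obtain ⟨U, hU, hd, hUO, hl⟩ := S.L1b_loc hO hg p.1 p.2
  simp only [chartAt_self_eq, OpenPartialHomeomorph.refl_symm, OpenPartialHomeomorph.refl_apply,
    id, OpenPartialHomeomorph.refl_partialEquiv, PartialEquiv.refl_source, mem_univ,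
    forall_true_left] at hd hUO hl
  have h0 := (hl p hp (mem_chart_source ℂ p.2)).1
  have key := fun v => par_hol hU hd (fun w hw => hh _ (hUO w hw)) h0 v
  have e : ∀ᶠ t in 𝓝 p.1, dd (fun x => g (t, x)) p.2 =
      fderiv ℝ (fun z => g (t, (chartAt ℂ p.2).symm z)) (chartAt ℂ p.2 p.2) := by
    have hc : ContinuousAt (fun t : ℂ => (t, p.2)) p.1 := by fun_prop
    filter_upwards [hc.preimage_mem_nhds (hO.mem_nhds hp)] with t ht
    exact (hl (t, p.2) ht (mem_chart_source ℂ p.2)).2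
  constructor
  · refine (((key 1).sub ((key I).const_mul I)).div_const 2).congr_of_eventuallyEq ?_
    filter_upwards [e] with t ht
    rw [d1, ht]
    rfl
  · refine (((key 1).add ((key I).const_mul I)).div_const 2).congr_of_eventuallyEq ?_
    filter_upwards [e] with t ht
    rw [d2, ht]
    rfl

/-- derivatives of self-maps are continuous -/
theorem continuous_d_adm (Θ : Adm S.Y S.Y) : Continuous (d1 Θ.φ) ∧ Continuous (d2 Θ.φ) := by
  have key : ∀ q0, ContinuousAt (d1 Θ.φ) q0 ∧ ContinuousAt (d2 Θ.φ) q0 := by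
    intro q0
    have hc : CkAt 1 (chartAt ℂ (Θ.φ q0) ∘ Θ.φ) q0 :=
      (L1b_chart (mem_chart_source ℂ (Θ.φ q0))).comp q0
        ((Θ.φ.contMDiff q0).of_le (by norm_num))
    have h := S.continuousAt_d hc
    have e : ∀ᶠ q in 𝓝 q0, d1 (chartAt ℂ (Θ.φ q0) ∘ Θ.φ) q = d1 Θ.φ q ∧
        d2 (chartAt ℂ (Θ.φ q0) ∘ Θ.φ) q = d2 Θ.φ q := by
      filter_upwards [Θ.φ.continuous.continuousAt.preimage_mem_nhds
        (chart_source_mem_nhds ℂ (Θ.φ q0))] with q hq
      have h1 := d_comp ((L1b_chart hq).mdifferentiableAt (by simp)) (Θ.md q)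
      have h2 := S.d_chart hq
      rw [h1.1, h1.2, h2.1, h2.2]
      simp
    exact ⟨h.1.congr (e.mono fun q hq => hq.1), h.2.congr (e.mono fun q hq => hq.2)⟩
  exact ⟨continuous_iff_continuousAt.2 fun q => (key q).1,
    continuous_iff_continuousAt.2 fun q => (key q).2⟩

/-- Beltrami coefficients of admissible maps -/
theorem bel_adm {Y' : Type} [TopologicalSpace Y'] [ChartedSpace ℂ Y'] [IsManifold 𝓘(ℂ, ℂ) ω Y']
    [IsManifold 𝓘(ℝ, ℂ) ω Y'] (G : Adm S.Y Y') :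
    Continuous (bel G.φ) ∧ ∃ κ : ℝ, 0 ≤ κ ∧ κ < 1 ∧ ∀ q, ‖bel G.φ q‖ ≤ κ := by
  have hcont : Continuous (bel G.φ) := by
    refine continuous_iff_continuousAt.2 fun q0 => ?_
    have hc : CkAt 1 (chartAt ℂ (G.φ q0) ∘ G.φ) q0 :=
      (L1b_chart (mem_chart_source ℂ (G.φ q0))).comp q0
        ((G.φ.contMDiff q0).of_le (by norm_num))
    have h := S.continuousAt_d hc
    have h0 := chart_hol (mem_chart_source ℂ (G.φ q0))
    have hne : d1 (chartAt ℂ (G.φ q0) ∘ G.φ) q0 ≠ 0 := by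
      rw [(bel_comp_hol (G.md q0) h0.1 h0.2).1]
      exact mul_ne_zero h0.2 (G.d1_ne q0)
    refine (h.2.div h.1 hne).congr ?_
    filter_upwards [G.φ.continuous.continuousAt.preimage_mem_nhds
      (chart_source_mem_nhds ℂ (G.φ q0))] with q hq
    have h1 := chart_hol hq
    exact (bel_comp_hol (G.md q) h1.1 h1.2).2.2
  refine ⟨hcont, ?_⟩
  obtain ⟨K, hK, h⟩ := G.conf
  refine L1b_bound hcont.norm hK G.norm_bel_lt one_half_lt_one fun q hq => ?_
  rw [bel, h q hq]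
  simp

theorem act_bound (Θ : Adm S.Y S.Y) {μ : S.Y → ℂ} (hμ : Continuous μ) {κ : ℝ} (hκ : κ < 1)
    (hb : ∀ q, ‖μ q‖ ≤ κ) :
    Continuous (Θ.act μ) ∧ (∃ κ' : ℝ, 0 ≤ κ' ∧ κ' < 1 ∧ ∀ q, ‖Θ.act μ q‖ ≤ κ') ∧
      ∀ q, d1 Θ.φ q + μ (Θ.φ q) * conj (d2 Θ.φ q) ≠ 0 := by
  have hlt : ∀ q, ‖d2 Θ.φ q + μ (Θ.φ q) * conj (d1 Θ.φ q)‖ <
      ‖d1 Θ.φ q + μ (Θ.φ q) * conj (d2 Θ.φ q)‖ := by
    intro q
    refine lt_of_pow_lt_pow_left₀ 2 (norm_nonneg _) (sub_pos.1 ?_)
    have h := w_det 1 (μ (Θ.φ q)) (d1 Θ.φ q) (d2 Θ.φ q)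
    rw [one_mul, one_mul] at h
    rw [h]
    refine mul_pos (sub_pos.2 (pow_lt_pow_left₀ ?_ (norm_nonneg _) two_ne_zero)) (Θ.sq_pos q)
    rw [norm_one]
    exact (hb _).trans_lt hκ
  have hne : ∀ q, d1 Θ.φ q + μ (Θ.φ q) * conj (d2 Θ.φ q) ≠ 0 := fun q =>
    norm_pos_iff.1 ((norm_nonneg _).trans_lt (hlt q))
  obtain ⟨c1, c2⟩ := S.continuous_d_adm Θ
  have c3 : Continuous fun q => μ (Θ.φ q) := hμ.comp Θ.φ.continuous
  have hcont : Continuous (Θ.act μ) :=
    (c2.add (c3.mul (continuous_conj.comp c1))).div (c1.add (c3.mul (continuous_conj.comp c2))) hne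
  refine ⟨hcont, ?_, hne⟩
  obtain ⟨K, hK, h⟩ := Θ.conf
  refine L1b_bound hcont.norm hK (fun q => ?_) hκ fun q hq => ?_
  · rw [Adm.act, norm_div, div_lt_one (norm_pos_iff.2 (hne q))]
    exact hlt q
  · rw [Adm.act, h q hq, map_zero, mul_zero, add_zero, zero_add, norm_div, norm_mul, norm_conj,
      mul_div_cancel_right₀ _ (norm_ne_zero_iff.2 (Θ.d1_ne q))]
    exact hb _

end Flat

end Pool.Agent.MP_e62289_ag

end

section

open Set Filter Topology Complex MeasureTheory Metric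
open scoped Manifold ContDiff ComplexConjugate NNReal ENNReal

namespace Pool.Agent.MP_e62289_ag

namespace Flat

variable {n : ℕ} (S : Flat n) {u : S.Y → ℂ} {q : S.Y}

theorem l1c_isOpen {N : Set S.Y} (hN : S.IsDisc N) : IsOpen N := by
  obtain ⟨φ, c, ρ, -, -, rfl⟩ := hN
  exact φ.continuousOn.isOpen_inter_preimage φ.open_source isOpen_ball

theorem l1c_comp {g : ℂ → ℂ} {c : ℂ} (hg : HasDerivAt g c (u q)) (hu : HolAt u q) :
    HolAt (fun x => g (u x)) q ∧ d1 (fun x => g (u x)) q = c * d1 u q := by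
  have h := d_hol_comp hg (d2_of_hol hu).1
  refine ⟨hol_of_d2 h.1 ?_, h.2.1⟩
  rw [h.2.2, (d2_of_hol hu).2, mul_zero]

theorem l1c_mul {v : S.Y → ℂ} (hu : HolAt u q) (hv : HolAt v q) :
    HolAt (fun x => u x * v x) q := by
  refine hol_of_d2 ((d2_of_hol hu).1.mul (d2_of_hol hv).1) ?_
  rw [(d_mul (d2_of_hol hu).1 (d2_of_hol hv).1).2, (d2_of_hol hu).2, (d2_of_hol hv).2]
  simp

theorem l1c_div {v : S.Y → ℂ} (hu : HolAt u q) (hv : HolAt v q) (h0 : v q ≠ 0) :
    HolAt (fun x => u x / v x) q := by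
  have h := (S.l1c_comp (hasDerivAt_inv h0) hv).1
  simpa only [div_eq_mul_inv] using S.l1c_mul hu h

/-- a holomorphic function with vanishing derivative on a disc is constant -/
theorem l1c_const {N : Set S.Y} (hN : S.IsDisc N) (hu : ∀ q ∈ N, HolAt u q ∧ d1 u q = 0) :
    ∃ c, ∀ q ∈ N, u q = c := by
  obtain ⟨φ, c, ρ, hφ, hb, rfl⟩ := hN
  have key : ∀ z ∈ ball c ρ, HasDerivAt (u ∘ φ.symm) 0 z := by
    intro z hz
    have hs : φ.symm z ∈ φ.source := φ.map_target (hb hz)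
    have hm : φ.symm z ∈ φ.source ∩ φ ⁻¹' ball c ρ := by
      refine ⟨hs, ?_⟩
      rw [mem_preimage, φ.right_inv (hb hz)]
      exact hz
    have h := hasDerivAt_coord hφ hs (hu _ hm).1
    rw [(hu _ hm).2, zero_div, φ.right_inv (hb hz)] at h
    exact h
  obtain ⟨a, ha⟩ := isOpen_ball.exists_is_const_of_deriv_eq_zero (f := u ∘ φ.symm)
    (convex_ball c ρ).isPreconnected
    (fun z hz => (key z hz).differentiableAt.differentiableWithinAt)
    (fun z hz => (key z hz).deriv)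
  refine ⟨a, fun q hq => ?_⟩
  have := ha _ hq.2
  rwa [Function.comp_apply, φ.left_inv hq.1] at this

/-- primitives and square roots on discs -/
theorem IsDisc.prim {N : Set S.Y} (hN : S.IsDisc N) (hu : ∀ q ∈ N, HolAt u q) :
    ∃ P : S.Y → ℂ, ∀ q ∈ N, HolAt P q ∧ d1 P q = u q := by
  obtain ⟨φ, c, ρ, hφ, hb, rfl⟩ := hN
  have hc := (coord_hol hφ).1
  have hd : ∀ q ∈ φ.source, HolAt (d1 φ) q := fun q hq =>
    (S.holAt_d1 (u := φ) ((φ.open_source.eventually_mem hq).mono fun x hx =>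
      (hc x hx).1)).self_of_nhds
  have key : DifferentiableOn ℂ ((fun x => u x / d1 φ x) ∘ φ.symm) (ball c ρ) := by
    intro z hz
    have hs : φ.symm z ∈ φ.source := φ.map_target (hb hz)
    have hm : φ.symm z ∈ φ.source ∩ φ ⁻¹' ball c ρ := by
      refine ⟨hs, ?_⟩
      rw [mem_preimage, φ.right_inv (hb hz)]
      exact hz
    have h := hasDerivAt_coord hφ hs (S.l1c_div (hu _ hm) (hd _ hs) (hc _ hs).2)
    rw [φ.right_inv (hb hz)] at h
    exact h.differentiableAt.differentiableWithinAt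
  obtain ⟨F, hF⟩ := key.isExactOn_ball
  refine ⟨fun x => F (φ x), fun q hq => ?_⟩
  have h := S.l1c_comp (u := φ) (hF _ hq.2) (hc q hq.1).1
  refine ⟨h.1, ?_⟩
  rw [h.2, Function.comp_apply, φ.left_inv hq.1, div_mul_cancel₀ _ (hc q hq.1).2]

theorem IsDisc.sqrt {N : Set S.Y} (hN : S.IsDisc N) :
    ∃ ρ : S.Y → ℂ, ∀ q ∈ N, HolAt ρ q ∧ ρ q ^ 2 = S.f q := by
  have hd : ∀ q, HolAt (d1 S.f) q := fun q =>
    (S.holAt_d1 (u := S.f) (Eventually.of_forall fun x => S.f_hol x)).self_of_nhds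
  obtain ⟨P, hP⟩ := IsDisc.prim S (u := fun x => d1 S.f x / S.f x) hN
    (fun q _ => S.l1c_div (hd q) (S.f_hol q) (S.f_ne q))
  have hE : ∀ (a : ℂ), ∀ q ∈ N, HolAt (fun x => cexp (a * P x)) q ∧
      d1 (fun x => cexp (a * P x)) q = cexp (a * P q) * a * d1 P q := by
    intro a q hq
    have h : HasDerivAt (fun w => cexp (a * w)) (cexp (a * P q) * a) (P q) := by
      simpa using ((hasDerivAt_id (P q)).const_mul a).cexp
    exact S.l1c_comp h (hP q hq).1
  obtain ⟨c, hc⟩ := S.l1c_const (u := fun x => S.f x * cexp (-1 * P x)) hN (fun q hq => by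
    refine ⟨S.l1c_mul (S.f_hol q) (hE _ q hq).1, ?_⟩
    rw [(d_mul (d2_of_hol (S.f_hol q)).1 (d2_of_hol (hE _ q hq).1).1).1, (hE _ q hq).2,
      (hP q hq).2]
    field_simp [S.f_ne q]
    ring)
  obtain ⟨w, hw⟩ := IsAlgClosed.exists_pow_nat_eq c (n := 2) two_pos
  refine ⟨fun x => w * cexp (1 / 2 * P x), fun q hq => ⟨?_, ?_⟩⟩
  · exact S.l1c_mul mdifferentiableAt_const (hE _ q hq).1
  · rw [mul_pow, hw, ← hc q hq, ← Complex.exp_nat_mul, mul_assoc, ← Complex.exp_add]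
    have : -1 * P q + ((2 : ℕ) : ℂ) * (1 / 2 * P q) = 0 := by
      push_cast
      ring
    rw [this, Complex.exp_zero, mul_one]

theorem IsDisc.isOpen {N : Set S.Y} (hN : S.IsDisc N) : IsOpen N := S.l1c_isOpen hN

theorem exists_disc {V : Set S.Y} (hV : V ∈ 𝓝 q) : ∃ N, S.IsDisc N ∧ q ∈ N ∧ N ⊆ V := by
  have hq := mem_chart_source ℂ q
  have h1 : (chartAt ℂ q).target ∈ 𝓝 (chartAt ℂ q q) :=
    (chartAt ℂ q).open_target.mem_nhds ((chartAt ℂ q).map_source hq)
  have h2 : (chartAt ℂ q).symm ⁻¹' V ∈ 𝓝 (chartAt ℂ q q) := by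
    refine ((chartAt ℂ q).continuousAt_symm ((chartAt ℂ q).map_source hq)).preimage_mem_nhds ?_
    rwa [(chartAt ℂ q).left_inv hq]
  obtain ⟨r, hr, hb⟩ := Metric.mem_nhds_iff.1 (inter_mem h1 h2)
  refine ⟨(chartAt ℂ q).source ∩ chartAt ℂ q ⁻¹' ball (chartAt ℂ q q) r,
    ⟨chartAt ℂ q, chartAt ℂ q q, r, fun x hx => (chart_hol hx).1.mdifferentiableWithinAt,
      fun z hz => (hb hz).1, rfl⟩, ⟨hq, mem_ball_self hr⟩, fun x hx => ?_⟩
  have := (hb hx.2).2
  rwa [mem_preimage, (chartAt ℂ q).left_inv hx.1] at this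

end Flat

end Pool.Agent.MP_e62289_ag

end

section

open Set Filter Topology Complex MeasureTheory Metric
open scoped Manifold ContDiff ComplexConjugate NNReal ENNReal

namespace Pool.Agent.MP_e62289_ag

/-- the punctured disc is connected -/
theorem L1d_punct (ρ : ℝ) : IsPreconnected (ball (0 : ℂ) ρ \ {0}) := by
  have h : ball (0 : ℂ) ρ \ {0} =
      (fun p : ℝ × ℝ => (p.1 : ℂ) * exp (p.2 * I)) '' (Ioo 0 ρ ×ˢ univ) := by
    ext z
    constructor
    · rintro ⟨h1, h2⟩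
      exact ⟨(‖z‖, arg z), ⟨⟨norm_pos_iff.2 h2, mem_ball_zero_iff.1 h1⟩, mem_univ _⟩,
        norm_mul_exp_arg_mul_I z⟩
    · rintro ⟨⟨t, θ⟩, ⟨⟨h1, h2⟩, -⟩, rfl⟩
      have hn : ‖(t : ℂ) * exp (θ * I)‖ = t := by
        rw [norm_mul, norm_exp_ofReal_mul_I, mul_one, norm_real, Real.norm_of_nonneg h1.le]
      refine ⟨mem_ball_zero_iff.2 (hn.trans_lt h2), fun h0 => ?_⟩
      have h3 : (t : ℂ) * exp (θ * I) = 0 := h0
      rw [h3, norm_zero] at hn
      exact h1.ne hn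
  rw [h]
  exact (isPreconnected_Ioo.prod isPreconnected_univ).image _ (by fun_prop)

namespace Flat

variable {n : ℕ} (S : Flat n) {u : S.Y → ℂ} {q : S.Y}

theorem L1d_mem_target {i : Fin n} {z : ℂ} (h0 : z ≠ 0) (h1 : ‖z‖ < 1) : z ∈ (S.e i).target := by
  rw [S.e_target]
  exact ⟨mem_ball_zero_iff.2 h1, h0⟩

theorem L1d_map {i : Fin n} (hq : q ∈ (S.e i).source) : S.e i q ≠ 0 ∧ ‖S.e i q‖ < 1 := by
  have h := (S.e i).map_source hq
  rw [S.e_target] at h
  exact ⟨h.2, mem_ball_zero_iff.1 h.1⟩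

theorem L1d_mem_core {i : Fin n} {r : ℝ} (hq : q ∈ (S.e i).source) (hr : r ≤ ‖S.e i q‖) :
    q ∈ S.core r := by
  intro j hj
  by_cases hij : i = j
  · exact hij ▸ hr
  · exact absurd hj (disjoint_left.1 (S.e_disj hij) hq)

theorem isOpen_End (i : Fin n) (r : ℝ) : IsOpen (S.End i r) := by
  have h := (S.e i).isOpen_inter_preimage (isOpen_ball (x := (0 : ℂ)) (ε := r))
  convert h using 1
  ext q
  simp [End]

theorem L1d_End_eq (i : Fin n) (r : ℝ) :
    S.End i r = (S.e i).symm '' (ball (0 : ℂ) (min r 1) \ {0}) := by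
  ext q
  constructor
  · rintro ⟨h1, h2⟩
    have h := S.L1d_map h1
    exact ⟨S.e i q, ⟨mem_ball_zero_iff.2 (lt_min h2 h.2), h.1⟩, (S.e i).left_inv h1⟩
  · rintro ⟨z, ⟨h1, h2⟩, rfl⟩
    have h3 := lt_min_iff.1 (mem_ball_zero_iff.1 h1)
    have h4 := S.L1d_mem_target (i := i) h2 h3.2
    refine ⟨(S.e i).map_target h4, ?_⟩
    rw [(S.e i).right_inv h4]
    exact h3.1

theorem isPreconnected_End (i : Fin n) (r : ℝ) : IsPreconnected (S.End i r) := by
  rw [L1d_End_eq]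
  refine (L1d_punct _).image _ ((S.e i).continuousOn_symm.mono fun z hz => ?_)
  exact S.L1d_mem_target hz.2 ((mem_ball_zero_iff.1 hz.1).trans_le (min_le_right _ _))

theorem hasBasis_endF (i : Fin n) : (S.endF i).HasBasis (fun r : ℝ => 0 < r) (S.End i) := by
  have h := ((nhds_basis_ball (x := (0 : ℂ))).comap (S.e i)).inf_principal (S.e i).source
  refine h.congr (fun _ => Iff.rfl) fun r _ => ?_
  ext q
  simp [End, and_comm]

theorem neBot_endF (i : Fin n) : (S.endF i).NeBot := by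
  refine (S.hasBasis_endF i).neBot_iff.2 fun {r} hr => ?_
  rw [L1d_End_eq]
  have h : 0 < min r 1 := lt_min hr one_pos
  refine Nonempty.image _ ⟨((min r 1 / 2 : ℝ) : ℂ), mem_ball_zero_iff.2 ?_, ?_⟩
  · rw [norm_real, Real.norm_of_nonneg (by positivity)]
    linarith
  · exact ofReal_ne_zero.2 (by positivity)

/-- every compact set lies in the interior of a core -/
theorem subset_core {K : Set S.Y} (hK : IsCompact K) :
    ∃ r : ℝ, 0 < r ∧ r < 1 ∧ K ⊆ interior (S.core r) := by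
  have hpos : ∀ k : ℕ, (0 : ℝ) < 1 / ((k : ℝ) + 2) := fun k => by positivity
  have hlt : ∀ k : ℕ, 1 / ((k : ℝ) + 2) < 1 := fun k => by
    rw [div_lt_one (by positivity)]
    have : (0 : ℝ) ≤ k := Nat.cast_nonneg k
    linarith
  have hanti : ∀ {k l : ℕ}, k ≤ l → 1 / ((l : ℝ) + 2) ≤ 1 / ((k : ℝ) + 2) := fun {k l} h => by
    have : (k : ℝ) ≤ l := Nat.cast_le.2 h
    exact one_div_le_one_div_of_le (by positivity) (by linarith)
  have hmono : Monotone fun k : ℕ => interior (S.core (1 / ((k : ℝ) + 2))) := by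
    intro k l h
    exact interior_mono fun q hq i hi => (hanti h).trans (hq i hi)
  have hcov : K ⊆ ⋃ k : ℕ, interior (S.core (1 / ((k : ℝ) + 2))) := by
    intro q _
    have hev : ∀ᶠ k : ℕ in atTop, ∀ i, q ∈ (S.e i).source → 1 / ((k : ℝ) + 2) < ‖S.e i q‖ := by
      rw [eventually_all]
      intro i
      by_cases hi : q ∈ (S.e i).source
      · obtain ⟨k, hk⟩ := exists_nat_one_div_lt (norm_pos_iff.2 (S.L1d_map hi).1)
        filter_upwards [eventually_ge_atTop k] with l hl _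
        refine lt_of_le_of_lt ?_ hk
        have : (k : ℝ) ≤ l := Nat.cast_le.2 hl
        exact one_div_le_one_div_of_le (by positivity) (by linarith)
      · exact Eventually.of_forall fun _ h => absurd h hi
    obtain ⟨k, hk⟩ := hev.exists
    refine mem_iUnion.2 ⟨k, mem_interior.2
      ⟨(⋃ i, {q | q ∈ (S.e i).source ∧ ‖S.e i q‖ ≤ 1 / ((k : ℝ) + 2)})ᶜ, ?_, ?_, ?_⟩⟩
    · intro x hx i hi
      by_contra hc
      exact hx (mem_iUnion.2 ⟨i, hi, (not_le.1 hc).le⟩)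
    · exact (isClosed_iUnion_of_finite fun i => S.e_closed i _ (hlt k)).isOpen_compl
    · intro hx
      obtain ⟨i, hi, h2⟩ := mem_iUnion.1 hx
      exact absurd (hk i hi) (not_lt.2 h2)
  obtain ⟨k, hk⟩ := hK.elim_directed_cover _ (fun _ => isOpen_interior) hcov hmono.directed_le
  exact ⟨_, hpos k, hlt k, hk⟩

/-- the maximum principle in an end -/
theorem L1d_max (hu : Hol u) {i : Fin n} (hb : ∃ C : ℝ, ∀ᶠ q in S.endF i, ‖u q‖ ≤ C) {M : ℝ}
    (hM : ∀ q ∈ S.core (1 / 2), ‖u q‖ ≤ M) (hq : q ∈ S.End i (1 / 2)) : ‖u q‖ ≤ M := by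
  obtain ⟨C, hC⟩ := hb
  obtain ⟨r, hr, hC⟩ := (S.hasBasis_endF i).eventually_iff.1 hC
  have hg : ∀ z : ℂ, z ≠ 0 → ‖z‖ < 1 → DifferentiableAt ℂ (u ∘ (S.e i).symm) z := by
    intro z h0 h1
    exact mdifferentiableAt_iff_differentiableAt.1
      ((hu _).comp z ((coord_hol (S.e_hol i)).2 z (S.L1d_mem_target h0 h1)))
  have hρ : 0 < min r 1 := lt_min hr one_pos
  have h1 := differentiableOn_update_limUnder_of_bddAbove (f := u ∘ (S.e i).symm)
    (ball_mem_nhds (0 : ℂ) hρ)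
    (fun z hz => (hg z hz.2
      ((mem_ball_zero_iff.1 hz.1).trans_le (min_le_right _ _))).differentiableWithinAt)
    ⟨C, by
      rintro _ ⟨z, hz, rfl⟩
      exact hC (by rw [L1d_End_eq]; exact ⟨z, hz, rfl⟩)⟩
  set G := Function.update (u ∘ (S.e i).symm) 0 (limUnder (𝓝[≠] 0) (u ∘ (S.e i).symm)) with hG
  have h2 : DifferentiableOn ℂ G (closure (ball (0 : ℂ) (1 / 2))) := by
    intro z hz
    refine DifferentiableAt.differentiableWithinAt ?_
    by_cases h0 : z = 0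
    · rw [h0]
      exact h1.differentiableAt (ball_mem_nhds _ hρ)
    · have h3 : ‖z‖ ≤ 1 / 2 := mem_closedBall_zero_iff.1 (closure_ball_subset_closedBall hz)
      refine (hg z h0 (by linarith)).congr_of_eventuallyEq ?_
      filter_upwards [isOpen_ne.mem_nhds h0] with w hw
      exact Function.update_of_ne hw _ _
  have h3 := norm_le_of_forall_mem_frontier_norm_le (C := M) (z := S.e i q) isBounded_ball
    h2.diffContOnCl (fun z hz => by
      rw [frontier_ball _ (by norm_num), mem_sphere_zero_iff_norm] at hz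
      have h0 : z ≠ 0 := norm_pos_iff.1 (by rw [hz]; norm_num)
      have ht := S.L1d_mem_target (i := i) h0 (by rw [hz]; norm_num)
      rw [hG, Function.update_of_ne h0]
      refine hM _ (S.L1d_mem_core ((S.e i).map_target ht) ?_)
      rw [(S.e i).right_inv ht, hz])
    (subset_closure (mem_ball_zero_iff.2 hq.2))
  rwa [hG, Function.update_of_ne (S.L1d_map hq.1).1, Function.comp_apply,
    (S.e i).left_inv hq.1] at h3

/-- a bounded holomorphic function is constant -/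
theorem const_of_bounded (hu : Hol u) (hb : ∀ i, ∃ C : ℝ, ∀ᶠ q in S.endF i, ‖u q‖ ≤ C) :
    ∃ c : ℂ, ∀ q, u q = c := by
  have hne : (S.core (1 / 2)).Nonempty := by
    obtain ⟨q⟩ : Nonempty S.Y := inferInstance
    by_cases hq : q ∈ S.core (1 / 2)
    · exact ⟨q, hq⟩
    · obtain ⟨i, -⟩ := not_forall.1 hq
      have hn : ‖((1 / 2 : ℝ) : ℂ)‖ = 1 / 2 := by
        rw [norm_real, Real.norm_of_nonneg (by norm_num)]
      have ht := S.L1d_mem_target (i := i) (z := ((1 / 2 : ℝ) : ℂ))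
        (ofReal_ne_zero.2 (by norm_num)) (by rw [hn]; norm_num)
      refine ⟨_, S.L1d_mem_core ((S.e i).map_target ht) ?_⟩
      rw [(S.e i).right_inv ht, hn]
  obtain ⟨q₀, -, hq₀⟩ := (S.e_compact (1 / 2) (by norm_num)).exists_isMaxOn hne
    (f := fun q => ‖u q‖) hu.continuous.norm.continuousOn
  have hmax : IsMaxOn (norm ∘ u) univ q₀ := by
    intro q _
    by_cases hq : q ∈ S.core (1 / 2)
    · exact hq₀ hq
    · obtain ⟨i, hi⟩ := not_forall.1 hq
      obtain ⟨h1, h2⟩ := Classical.not_imp.1 hi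
      exact S.L1d_max hu (hb i) (fun x hx => hq₀ hx) ⟨h1, not_le.1 h2⟩
  exact ⟨u q₀, fun q => hu.mdifferentiableOn.eqOn_of_isPreconnected_of_isMaxOn_norm
    isPreconnected_univ isOpen_univ (mem_univ _) hmax (mem_univ q)⟩

end Flat

end Pool.Agent.MP_e62289_ag

end

section



end

section

open Set Filter Topology Complex MeasureTheory Metric
open scoped Manifold ContDiff ComplexConjugate NNReal ENNReal

namespace Pool.Agent.MP_e62289_ag

namespace Flat

variable {n : ℕ} (S : Flat n)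

theorem L2a_area (x : S.Y) {B : Set ℂ} (hB : MeasurableSet B) :
    S.lam (chartAt ℂ x ⁻¹' B ∩ (chartAt ℂ x).source) = volume (B ∩ (chartAt ℂ x).target) := by
  have h1 := (chartAt ℂ x).open_source.measurableSet.subtype_image
    ((chartAt ℂ x).continuousOn.domRestrict.measurable hB)
  have h2 : Subtype.val '' ((chartAt ℂ x).source.domRestrict (chartAt ℂ x) ⁻¹' B) =
      chartAt ℂ x ⁻¹' B ∩ (chartAt ℂ x).source := by
    ext q
    constructor
    · rintro ⟨q, hq, rfl⟩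
      exact ⟨hq, q.2⟩
    · exact fun h => ⟨⟨q, h.2⟩, h.1, rfl⟩
  rw [h2] at h1
  rw [S.area x _ h1 inter_subset_right, image_preimage_inter,
    (chartAt ℂ x).image_source_eq_target]

instance : IsLocallyFiniteMeasure S.lam := by
  refine ⟨fun x => ⟨chartAt ℂ x ⁻¹' ball (chartAt ℂ x x) 1 ∩ (chartAt ℂ x).source, ?_, ?_⟩⟩
  · exact inter_mem ((chartAt ℂ x).continuousAt (mem_chart_source ℂ x) (ball_mem_nhds _ one_pos))
      (chart_source_mem_nhds ℂ x)
  · rw [S.L2a_area x measurableSet_ball]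
    exact (measure_mono inter_subset_left).trans_lt measure_ball_lt_top

instance : IsLocallyFiniteMeasure S.lamf :=
  IsLocallyFiniteMeasure.withDensity_coe (f := fun q => ‖S.f q‖₊) S.f_hol.continuous.nnnorm

theorem ae_lamf {p : S.Y → Prop} : (∀ᵐ q ∂S.lamf, p q) ↔ ∀ᵐ q ∂S.lam, p q := by
  rw [lamf, ae_withDensity_iff S.f_hol.continuous.enorm.measurable]
  simp [S.f_ne]

theorem integral_lamf (g : S.Y → ℂ) :
    ∫ q, g q ∂S.lamf = ∫ q, (‖S.f q‖ : ℂ) * g q ∂S.lam := by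
  have := integral_withDensity_eq_integral_smul (μ := S.lam) (f := fun q => ‖S.f q‖₊)
    S.f_hol.continuous.nnnorm.measurable g
  simp only [NNReal.smul_def, coe_nnnorm, Complex.real_smul] at this
  exact this

theorem lintegral_lamf (g : S.Y → ℝ≥0∞) :
    ∫⁻ q, g q ∂S.lamf = ∫⁻ q, ‖S.f q‖ₑ * g q ∂S.lam :=
  lintegral_withDensity_eq_lintegral_mul_non_measurable S.lam S.f_hol.continuous.enorm.measurable
    (ae_of_all _ fun _ => enorm_lt_top) g

theorem L2a_aem (x : S.Y) :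
    AEMeasurable (chartAt ℂ x) (S.lam.restrict (chartAt ℂ x).source) :=
  (chartAt ℂ x).continuousOn.aemeasurable (chartAt ℂ x).open_source.measurableSet

/-- integrals over subsets of flat charts -/
theorem map_chart (x : S.Y) : (S.lam.restrict (chartAt ℂ x).source).map (chartAt ℂ x) =
    volume.restrict (chartAt ℂ x).target := by
  ext B hB
  rw [Measure.map_apply_of_aemeasurable (S.L2a_aem x) hB,
    Measure.restrict_apply' (chartAt ℂ x).open_source.measurableSet, S.L2a_area x hB,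
    Measure.restrict_apply hB]

theorem L2a_aem' (x : S.Y) :
    AEMeasurable (chartAt ℂ x).symm (volume.restrict (chartAt ℂ x).target) :=
  (chartAt ℂ x).continuousOn_symm.aemeasurable (chartAt ℂ x).open_target.measurableSet

theorem L2a_left (x : S.Y) :
    (chartAt ℂ x).symm ∘ chartAt ℂ x =ᵐ[S.lam.restrict (chartAt ℂ x).source] id :=
  ae_restrict_of_forall_mem (chartAt ℂ x).open_source.measurableSet fun _ h =>
    (chartAt ℂ x).left_inv h

theorem L2a_map_symm (x : S.Y) : (volume.restrict (chartAt ℂ x).target).map (chartAt ℂ x).symm =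
    S.lam.restrict (chartAt ℂ x).source := by
  rw [← S.map_chart x, AEMeasurable.map_map_of_aemeasurable (S.map_chart x ▸ S.L2a_aem' x)
    (S.L2a_aem x), Measure.map_congr (S.L2a_left x), Measure.map_id]

theorem integral_chart (x : S.Y) {g : S.Y → ℂ} (hg : Function.support g ⊆ (chartAt ℂ x).source) :
    ∫ q, g q ∂S.lam = ∫ z in (chartAt ℂ x).target, g ((chartAt ℂ x).symm z) := by
  rw [← setIntegral_eq_integral_of_forall_compl_eq_zero (s := (chartAt ℂ x).source)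
    fun q hq => Function.notMem_support.1 fun h => hq (hg h)]
  by_cases h : AEStronglyMeasurable g (S.lam.restrict (chartAt ℂ x).source)
  · rw [← S.L2a_map_symm x] at h ⊢
    exact integral_map (S.L2a_aem' x) h
  · rw [integral_non_aestronglyMeasurable h, integral_non_aestronglyMeasurable fun h' => h ?_]
    rw [← S.map_chart x] at h'
    refine (h'.comp_aemeasurable (S.L2a_aem x)).congr ?_
    filter_upwards [S.L2a_left x] with q hq
    exact congrArg g hq

end Flat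

end Pool.Agent.MP_e62289_ag

end

section

open Set Filter Topology Complex MeasureTheory Metric
open scoped Manifold ContDiff ComplexConjugate NNReal ENNReal

namespace Pool.Agent.MP_e62289_ag

theorem L2b_plane {G : ℂ → ℂ} (hG : ContDiff ℝ 1 G) (hc : HasCompactSupport G) (v : ℂ) :
    Integrable (fun z => fderiv ℝ G z v) ∧ ∫ z, fderiv ℝ G z v = 0 := by
  have h1 : Integrable (fun z => fderiv ℝ G z v) :=
    ((hG.continuous_fderiv one_ne_zero).clm_apply continuous_const).integrable_of_hasCompactSupport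
      (hc.fderiv_apply ℝ v)
  refine ⟨h1, ?_⟩
  have := integral_mul_fderiv_eq_neg_fderiv_mul_of_integrable (μ := (volume : Measure ℂ))
    (f := fun _ : ℂ => (1 : ℂ)) (g := G) (v := v) (by simp) (by simpa using h1)
    (by simpa using hG.continuous.integrable_of_hasCompactSupport hc)
    (fun _ _ => differentiableAt_const _) (fun x _ => hG.differentiable one_ne_zero x)
  simpa using this

theorem L2b_plane_w {G : ℂ → ℂ} (hG : ContDiff ℝ 1 G) (hc : HasCompactSupport G) :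
    ∫ z, w1 (fderiv ℝ G z) = 0 ∧ ∫ z, w2 (fderiv ℝ G z) = 0 := by
  obtain ⟨h1, h2⟩ := L2b_plane hG hc 1
  obtain ⟨h3, h4⟩ := L2b_plane hG hc I
  simp only [w1, w2]
  rw [integral_div, integral_div, integral_sub h1 (h3.const_mul I),
    integral_add h1 (h3.const_mul I), integral_const_mul, h2, h4]
  simp

theorem L2b_zero {Y : Type} [TopologicalSpace Y] [ChartedSpace ℂ Y] {g : Y → ℂ} {q : Y}
    (hq : q ∉ tsupport g) : d1 g q = 0 ∧ d2 g q = 0 := by
  have h : g =ᶠ[𝓝 q] fun _ => 0 := notMem_tsupport_iff_eventuallyEq.1 hq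
  rw [(d_congr h).1, (d_congr h).2]
  exact d_const 0 q

namespace Flat

variable {n : ℕ} (S : Flat n)

theorem L2b_int {g : S.Y → ℂ} (hg : Ck 1 g) (hc : HasCompactSupport g) :
    Integrable (d1 g) S.lam ∧ Integrable (d2 g) S.lam :=
  ⟨(continuous_iff_continuousAt.2 fun q =>
      (S.continuousAt_d (hg q)).1).integrable_of_hasCompactSupport
      (hc.mono' fun _ hq => by_contra fun h => hq (L2b_zero h).1),
    (continuous_iff_continuousAt.2 fun q =>
      (S.continuousAt_d (hg q)).2).integrable_of_hasCompactSupport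
      (hc.mono' fun _ hq => by_contra fun h => hq (L2b_zero h).2)⟩

theorem L2b_chart {g : S.Y → ℂ} (hg : Ck 1 g) (hc : HasCompactSupport g) (x : S.Y)
    (hx : tsupport g ⊆ (chartAt ℂ x).source) :
    ∫ q, d1 g q ∂S.lam = 0 ∧ ∫ q, d2 g q ∂S.lam = 0 := by
  obtain ⟨G, hG⟩ : ∃ G : ℂ → ℂ,
    G = (chartAt ℂ x).target.indicator (g ∘ (chartAt ℂ x).symm) := ⟨_, rfl⟩
  have hK : IsCompact (chartAt ℂ x '' tsupport g) :=
    hc.isCompact.image_of_continuousOn ((chartAt ℂ x).continuousOn.mono hx)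
  have h0 : ∀ z, z ∉ chartAt ℂ x '' tsupport g → G z = 0 := fun z hz => by
    rw [hG]
    by_cases h : z ∈ (chartAt ℂ x).target
    · rw [indicator_of_mem h]
      exact image_eq_zero_of_notMem_tsupport (f := g) fun h' =>
        hz ⟨_, h', (chartAt ℂ x).right_inv h⟩
    · exact indicator_of_notMem h _
  have h1 : ∀ z ∈ (chartAt ℂ x).target, G =ᶠ[𝓝 z] g ∘ (chartAt ℂ x).symm := fun z hz => by
    filter_upwards [(chartAt ℂ x).open_target.mem_nhds hz] with y hy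
    rw [hG, indicator_of_mem hy]
  have h2 : ∀ z, z ∉ (chartAt ℂ x).target → G =ᶠ[𝓝 z] fun _ => 0 := fun z hz => by
    have : z ∉ chartAt ℂ x '' tsupport g := by
      rintro ⟨q, hq, rfl⟩
      exact hz ((chartAt ℂ x).map_source (hx hq))
    filter_upwards [hK.isClosed.isOpen_compl.mem_nhds this] with y hy using h0 y hy
  have hGc : HasCompactSupport G := HasCompactSupport.intro hK h0
  have hGd : ContDiff ℝ 1 G := contDiff_iff_contDiffAt.2 fun z => by
    by_cases hz : z ∈ (chartAt ℂ x).target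
    · refine ContDiffAt.congr_of_eventuallyEq ?_ (h1 z hz)
      refine contMDiffAt_iff_contDiffAt.1 ((hg _).comp z ?_)
      exact (contMDiffOn_chart_symm (I := 𝓘(ℝ, ℂ)) (n := 1) (x := x)).contMDiffAt
        ((chartAt ℂ x).open_target.mem_nhds hz)
    · exact contDiffAt_const.congr_of_eventuallyEq (h2 z hz)
  have h3 : ∀ z ∈ (chartAt ℂ x).target, dd g ((chartAt ℂ x).symm z) = fderiv ℝ G z :=
    fun z hz => by
      rw [S.dd_eq ((chartAt ℂ x).map_target hz) ((hg _).mdifferentiableAt one_ne_zero),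
        (chartAt ℂ x).right_inv hz, (h1 z hz).fderiv_eq]
  have h4 : ∀ z, z ∉ (chartAt ℂ x).target → fderiv ℝ G z = 0 := fun z hz => by
    rw [(h2 z hz).fderiv_eq]
    simp
  obtain ⟨e1, e2⟩ := L2b_plane_w hGd hGc
  have hm := (chartAt ℂ x).open_target.measurableSet
  constructor
  · rw [S.integral_chart x fun q hq => hx (by_contra fun h => hq (L2b_zero h).1)]
    refine Eq.trans (setIntegral_congr_fun hm fun z hz => congrArg w1 (h3 z hz)) ?_
    rw [setIntegral_eq_integral_of_forall_compl_eq_zero fun z hz => by simp [h4 z hz, w1], e1]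
  · rw [S.integral_chart x fun q hq => hx (by_contra fun h => hq (L2b_zero h).2)]
    refine Eq.trans (setIntegral_congr_fun hm fun z hz => congrArg w2 (h3 z hz)) ?_
    rw [setIntegral_eq_integral_of_forall_compl_eq_zero fun z hz => by simp [h4 z hz, w2], e2]

/-- the theorem of Stokes -/
theorem stokes {g : S.Y → ℂ} (hg : Ck 1 g) (hc : HasCompactSupport g) :
    ∫ q, d1 g q ∂S.lam = 0 ∧ ∫ q, d2 g q ∂S.lam = 0 := by
  classical
  have : LocallyCompactSpace S.Y := ChartedSpace.locallyCompactSpace ℂ S.Y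
  obtain ⟨ρ, hρ⟩ := SmoothPartitionOfUnity.exists_isSubordinate_chartAt_source 𝓘(ℝ, ℂ) S.Y
  have hfin := ρ.locallyFinite.finite_nonempty_inter_compact hc.isCompact
  have hsum : g = ∑ i ∈ hfin.toFinset, fun q => ρ i q • g q := by
    funext q
    rw [Finset.sum_apply, ← Finset.sum_smul]
    by_cases hq : q ∈ tsupport g
    · rw [ρ.sum_finsupport' q (mem_univ q), one_smul]
      intro i hi
      exact hfin.mem_toFinset.2 ⟨q, (ρ.mem_finsupport q).1 hi, hq⟩
    · rw [image_eq_zero_of_notMem_tsupport hq, smul_zero]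
  have key : ∀ f : S.Y → ℂ, f = ∑ i ∈ hfin.toFinset, (fun q => ρ i q • g q) →
      Ck 1 f ∧ HasCompactSupport f ∧ ∫ q, d1 f q ∂S.lam = 0 ∧ ∫ q, d2 f q ∂S.lam = 0 := by
    rintro f rfl
    refine Finset.sum_induction _ (fun f : S.Y → ℂ => Ck 1 f ∧ HasCompactSupport f ∧
      ∫ q, d1 f q ∂S.lam = 0 ∧ ∫ q, d2 f q ∂S.lam = 0) ?_ ?_ ?_
    · rintro a b ⟨a1, a2, a3, a4⟩ ⟨b1, b2, b3, b4⟩
      have hd := fun q => d_add ((a1 q).mdifferentiableAt one_ne_zero)
        ((b1 q).mdifferentiableAt one_ne_zero)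
      refine ⟨a1.add b1, a2.add b2, ?_, ?_⟩
      · refine (integral_congr_ae (ae_of_all _ fun q => (hd q).1)).trans ?_
        rw [integral_add (S.L2b_int a1 a2).1 (S.L2b_int b1 b2).1, a3, b3, add_zero]
      · refine (integral_congr_ae (ae_of_all _ fun q => (hd q).2)).trans ?_
        rw [integral_add (S.L2b_int a1 a2).2 (S.L2b_int b1 b2).2, a4, b4, add_zero]
    · refine ⟨contMDiff_const, HasCompactSupport.zero, ?_, ?_⟩
      · exact integral_eq_zero_of_ae (ae_of_all _ fun q => (d_const 0 q).1)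
      · exact integral_eq_zero_of_ae (ae_of_all _ fun q => (d_const 0 q).2)
    · intro i _
      have h1 : Ck 1 fun q => ρ i q • g q := ρ.contMDiff_smul (n := 1) fun q _ => hg q
      have h2 : HasCompactSupport fun q => ρ i q • g q :=
        hc.mono' ((subset_tsupport _).trans (tsupport_smul_subset_right (ρ i) g))
      exact ⟨h1, h2, S.L2b_chart h1 h2 i ((tsupport_smul_subset_left (ρ i) g).trans (hρ i))⟩
  exact (key g hsum).2.2

/-- the theorem of Stokes for a closed form `a θ + b θbar` -/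
theorem stokes_closed {u a b : S.Y → ℂ} (hu : Ck 1 u) (hc : HasCompactSupport u)
    (hab : ∀ q, ∃ v : S.Y → ℂ, CkAt 2 v q ∧ a =ᶠ[𝓝 q] d1 v ∧ b =ᶠ[𝓝 q] d2 v) :
    ∫ q, (d1 u q * b q - d2 u q * a q) ∂S.lam = 0 := by
  have ha : Ck 1 a := fun q => by
    obtain ⟨v, h1, h2, -⟩ := hab q
    exact (S.ckAt_d (k := 1) h1).1.congr_of_eventuallyEq h2
  have hb : Ck 1 b := fun q => by
    obtain ⟨v, h1, -, h2⟩ := hab q
    exact (S.ckAt_d (k := 1) h1).2.congr_of_eventuallyEq h2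
  have hd : ∀ q, d1 b q = d2 a q := fun q => by
    obtain ⟨v, h1, h2, h3⟩ := hab q
    rw [(d_congr h2).2, (d_congr h3).1]
    exact S.d1_d2 h1
  have hua : Ck 1 fun q => u q * a q := fun q =>
    (contDiff_mul (𝕜 := ℝ)).contDiffAt.comp_contMDiffAt (f := fun q => (u q, a q))
      ((hu q).prodMk_space (ha q))
  have hub : Ck 1 fun q => u q * b q := fun q =>
    (contDiff_mul (𝕜 := ℝ)).contDiffAt.comp_contMDiffAt (f := fun q => (u q, b q))
      ((hu q).prodMk_space (hb q))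
  have ca : HasCompactSupport fun q => u q * a q := hc.mul_right
  have cb : HasCompactSupport fun q => u q * b q := hc.mul_right
  have e : ∀ q, d1 u q * b q - d2 u q * a q =
      d1 (fun q => u q * b q) q - d2 (fun q => u q * a q) q := fun q => by
    rw [(d_mul ((hu q).mdifferentiableAt one_ne_zero) ((hb q).mdifferentiableAt one_ne_zero)).1,
      (d_mul ((hu q).mdifferentiableAt one_ne_zero) ((ha q).mdifferentiableAt one_ne_zero)).2,
      hd q]
    ring
  simp_rw [e]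
  rw [integral_sub (S.L2b_int hub cb).1 (S.L2b_int hua ca).2, (S.stokes hub cb).1,
    (S.stokes hua ca).2, sub_zero]

end Flat

end Pool.Agent.MP_e62289_ag

end

section



end

section

open Set Filter Topology Complex MeasureTheory Metric
open scoped Manifold ContDiff ComplexConjugate NNReal ENNReal

namespace Pool.Agent.MP_e62289_ag

/-- An abstract space of square integrable forms: conjugation `c` and exact forms `E`. -/
structure HData (H : Type) [NormedAddCommGroup H] [InnerProductSpace ℂ H] where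
  c : H → H
  c_add : ∀ x y, c (x + y) = c x + c y
  c_smul : ∀ (a : ℂ) x, c (a • x) = conj a • c x
  c_c : ∀ x, c (c x) = x
  inner_c : ∀ x y, inner ℂ (c x) (c y) = inner ℂ y x
  E : Submodule ℂ (H × H)
  iso : ∀ e ∈ E, ∀ e' ∈ E, inner ℂ (c e.1) e'.2 = inner ℂ (c e.2) e'.1
  stab : ∀ e ∈ E, (c e.2, c e.1) ∈ E

namespace HData

variable {H : Type} [NormedAddCommGroup H] [InnerProductSpace ℂ H] (D : HData H)

/-- the symmetric bilinear pairing -/
noncomputable def β (A B : H) : ℂ := inner ℂ (D.c A) B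

/-- holomorphic forms -/
def W : Set H := {A | ∀ e ∈ D.E, D.β A e.2 = 0}

/-- antiholomorphic forms -/
def Wb : Set H := {A | ∀ e ∈ D.E, D.β A e.1 = 0}

/-- the closure of the exact forms -/
def Eb : Set (H × H) := closure (D.E : Set (H × H))

/-- `T` has graph `Eb + Wb` -/
def IsT (T : H →L[ℂ] H) : Prop :=
  ‖T‖ ≤ 1 ∧ ∀ A B : H, (∃ η ∈ D.Wb, (A, B - η) ∈ D.Eb) ↔ A = T B

open Classical in
/-- the singular integral operator -/
noncomputable def T : H →L[ℂ] H := if h : ∃ T, D.IsT T then h.choose else 0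

/-- an entry of the period matrix -/
noncomputable def hv (ξp ξm : H) (m : H →L[ℂ] H) : ℂ :=
  D.β ξm (m (Ring.inverse (1 - D.T * m) ξp))

end HData

end Pool.Agent.MP_e62289_ag

end

section

open Set Filter Topology Complex MeasureTheory Metric
open scoped Manifold ContDiff ComplexConjugate NNReal ENNReal

namespace Pool.Agent.MP_e62289_ag

namespace HData

variable {H : Type} [NormedAddCommGroup H] [InnerProductSpace ℂ H] (D : HData H)

theorem β_symm (A B : H) : D.β A B = D.β B A := by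
  unfold β
  rw [← D.inner_c B (D.c A), D.c_c]

theorem norm_c (A : H) : ‖D.c A‖ = ‖A‖ := by
  rw [@norm_eq_sqrt_re_inner ℂ, @norm_eq_sqrt_re_inner ℂ, D.inner_c]

theorem norm_β_le (A B : H) : ‖D.β A B‖ ≤ ‖A‖ * ‖B‖ := by
  rw [← D.norm_c A]
  exact norm_inner_le_norm _ _

theorem c_mem_W {A : H} (h : A ∈ D.Wb) : D.c A ∈ D.W := by
  intro e he
  have h1 := h _ (D.stab e he)
  unfold β at h1 ⊢
  rw [D.inner_c] at h1
  rw [D.c_c, inner_eq_zero_symm]
  exact h1

theorem norm_T_le : ‖D.T‖ ≤ 1 := by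
  unfold T
  split_ifs with h
  · exact h.choose_spec.1
  · simp

theorem H1a_norm {e : H × H} (he : e ∈ D.Eb) : ‖e.1‖ = ‖e.2‖ := by
  have hc : IsClosed {e : H × H | ‖e.1‖ = ‖e.2‖} :=
    isClosed_eq (by fun_prop) (by fun_prop)
  refine closure_minimal (fun e he => ?_) hc he
  have h1 := D.iso e he _ (D.stab e he)
  simp only [D.inner_c] at h1
  show ‖e.1‖ = ‖e.2‖
  rw [@norm_eq_sqrt_re_inner ℂ, @norm_eq_sqrt_re_inner ℂ, h1]

theorem H1a_Wb (η : H) : η ∈ D.Wb ↔ ∀ e ∈ D.Eb, inner ℂ e.2 η = 0 := by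
  constructor
  · intro h e he
    have hc : IsClosed {e : H × H | inner ℂ e.2 η = (0 : ℂ)} :=
      isClosed_eq (by fun_prop) (by fun_prop)
    refine closure_minimal (fun e he => ?_) hc he
    have h1 := h _ (D.stab e he)
    unfold β at h1
    rw [D.inner_c] at h1
    exact h1
  · intro h e he
    have h1 := h _ (subset_closure (D.stab e he))
    unfold β
    rw [← D.c_c e.1, D.inner_c]
    exact h1

/-- the second projection is isometric on the closure of the exact forms -/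
noncomputable def H1aS : D.E.topologicalClosure →ₗᵢ[ℂ] H where
  toLinearMap := (LinearMap.snd ℂ H H).comp D.E.topologicalClosure.subtype
  norm_map' e := by
    have h1 : ‖e.1.1‖ = ‖e.1.2‖ := D.H1a_norm e.2
    show ‖e.1.2‖ = ‖e.1‖
    rw [Prod.norm_def, h1, max_self]

variable [CompleteSpace H]

theorem H1a_ex : ∃ T, D.IsT T := by
  let K : Submodule ℂ H := LinearMap.range D.H1aS.toLinearMap
  have : CompleteSpace D.E.topologicalClosure :=
    D.E.isClosed_topologicalClosure.completeSpace_coe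
  have : CompleteSpace K := D.H1aS.isometry.isClosedEmbedding.isClosed_range.completeSpace_coe
  let q : D.E.topologicalClosure ≃ₗᵢ[ℂ] K := D.H1aS.equivRange
  have hq : ∀ e, (q e : H) = e.1.2 := fun e => rfl
  have hq' : ∀ k : K, (q.symm k).1.2 = k := fun k => by rw [← hq, q.apply_symm_apply]
  let T : H →L[ℂ] H := (ContinuousLinearMap.fst ℂ H H).comp (D.E.topologicalClosure.subtypeL.comp
    ((q.symm.toContinuousLinearEquiv : K →L[ℂ] D.E.topologicalClosure).comp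
      K.orthogonalProjectionOnto))
  have hT : ∀ B, T B = (q.symm (K.orthogonalProjectionOnto B)).1.1 := fun B => rfl
  have hW : ∀ η, η ∈ D.Wb ↔ η ∈ Kᗮ := by
    intro η
    rw [D.H1a_Wb, Submodule.mem_orthogonal]
    constructor
    · rintro h u ⟨e, rfl⟩
      exact h e.1 e.2
    · intro h e he
      exact h e.2 ⟨⟨e, he⟩, rfl⟩
  refine ⟨T, T.opNorm_le_bound zero_le_one fun B => ?_, fun A B => ⟨?_, ?_⟩⟩
  · rw [hT, D.H1a_norm (q.symm (K.orthogonalProjectionOnto B)).2, hq', one_mul]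
    exact K.norm_starProjection_apply_le B
  · rintro ⟨η, hη, he⟩
    have h1 : K.starProjection B = B - η :=
      Submodule.eq_starProjection_of_mem_orthogonal ⟨⟨_, he⟩, rfl⟩ (by
        rw [sub_sub_cancel]; exact (hW η).1 hη)
    have h2 : K.orthogonalProjectionOnto B = q ⟨_, he⟩ := Subtype.ext h1
    rw [hT, h2, q.symm_apply_apply]
  · rintro rfl
    refine ⟨B - K.starProjection B, (hW _).2 (K.sub_starProjection_mem_orthogonal B), ?_⟩
    have h1 : (T B, B - (B - K.starProjection B)) = (q.symm (K.orthogonalProjectionOnto B)).1 := by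
      refine Prod.ext (hT B) ?_
      rw [hq', sub_sub_cancel]
      rfl
    rw [h1]
    exact (q.symm (K.orthogonalProjectionOnto B)).2

theorem isT : D.IsT D.T := by
  have h := D.H1a_ex
  unfold T
  rw [dif_pos h]
  exact h.choose_spec

end HData

end Pool.Agent.MP_e62289_ag

end

section

open Set Filter Topology Complex MeasureTheory Metric
open scoped Manifold ContDiff ComplexConjugate NNReal ENNReal

namespace Pool.Agent.MP_e62289_ag

namespace HData

variable {H : Type} [NormedAddCommGroup H] [InnerProductSpace ℂ H] (D : HData H)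

theorem H1c_norm_T (A : H) : ‖D.T A‖ ≤ ‖A‖ :=
  (D.T.le_opNorm A).trans (by
    have := mul_le_mul_of_nonneg_right D.norm_T_le (norm_nonneg A)
    rwa [one_mul] at this)

theorem H1c_step (m : H →L[ℂ] H) (A : H) : ‖m (D.T A)‖ ≤ ‖m‖ * ‖A‖ :=
  (m.le_opNorm _).trans (mul_le_mul_of_nonneg_left (D.H1c_norm_T A) (norm_nonneg m))

theorem H1c_β_add (ξ A B : H) : D.β ξ (A + B) = D.β ξ A + D.β ξ B := inner_add_right _ _ _

variable [CompleteSpace H]

theorem H1c_unit {m : H →L[ℂ] H} (h : ‖m‖ < 1) : IsUnit (1 - D.T * m) := by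
  refine isUnit_one_sub_of_norm_lt_one ((norm_mul_le _ _).trans_lt ?_)
  have := mul_le_mul_of_nonneg_right D.norm_T_le (norm_nonneg m)
  linarith

theorem H1c_fix (ξp : H) {m : H →L[ℂ] H} (h : ‖m‖ ≤ 1 / 2) :
    ∃ a : H, a = Ring.inverse (1 - D.T * m) ξp ∧ a = ξp + D.T (m a) ∧ ‖a‖ ≤ 2 * ‖ξp‖ := by
  have hu := D.H1c_unit (m := m) (by linarith)
  have h1 : (1 - D.T * m) (Ring.inverse (1 - D.T * m) ξp) = ξp := by
    rw [← mul_apply_eq_comp, Ring.mul_inverse_cancel _ hu, one_apply_eq_self]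
  generalize Ring.inverse (1 - D.T * m) ξp = a at h1
  have h2 : a = ξp + D.T (m a) := by
    rw [← h1]
    simp
  refine ⟨a, rfl, h2, ?_⟩
  have h3 : ‖a‖ ≤ ‖ξp‖ + ‖D.T (m a)‖ := by
    conv_lhs => rw [h2]
    exact norm_add_le _ _
  have h4 := D.H1c_norm_T (m a)
  have h5 := m.le_opNorm a
  have h6 := mul_le_mul_of_nonneg_right h (norm_nonneg a)
  linarith

theorem hv_diff (ξp ξm : H) : DifferentiableOn ℂ (D.hv ξp ξm) (ball 0 1) := by
  intro m hm
  have hu := D.H1c_unit (mem_ball_zero_iff.1 hm)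
  refine DifferentiableAt.differentiableWithinAt ?_
  have h1 : DifferentiableAt ℂ (fun m : H →L[ℂ] H => 1 - D.T * m) m := by fun_prop
  have h2 : DifferentiableAt ℂ (fun m : H →L[ℂ] H => Ring.inverse (1 - D.T * m)) m :=
    DifferentiableAt.comp (g := Ring.inverse) (f := fun m : H →L[ℂ] H => 1 - D.T * m) m
      (differentiableAt_inverse hu) h1
  have h3 : DifferentiableAt ℂ (fun m : H →L[ℂ] H => Ring.inverse (1 - D.T * m) ξp) m :=
    h2.clm_apply (differentiableAt_const ξp)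
  have h4 : DifferentiableAt ℂ (fun m : H →L[ℂ] H => m (Ring.inverse (1 - D.T * m) ξp)) m :=
    differentiableAt_fun_id.clm_apply h3
  exact ((innerSL ℂ (D.c ξm)).differentiableAt).comp m h4

theorem hv_lin (ξp ξm : H) {m : H →L[ℂ] H} (h : ‖m‖ ≤ 1 / 2) :
    ‖D.hv ξp ξm m - D.β ξm (m ξp)‖ ≤ 2 * ‖m‖ ^ 2 * (‖ξp‖ * ‖ξm‖) := by
  obtain ⟨a, ha, h1, h2⟩ := D.H1c_fix ξp h
  have e : D.hv ξp ξm m - D.β ξm (m ξp) = D.β ξm (m (D.T (m a))) := by
    rw [hv, ← ha]
    conv_lhs => rw [h1, map_add, D.H1c_β_add]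
    ring
  rw [e]
  refine (D.norm_β_le _ _).trans ?_
  have h3 : ‖m (D.T (m a))‖ ≤ ‖m‖ * (‖m‖ * (2 * ‖ξp‖)) :=
    (D.H1c_step m _).trans (mul_le_mul_of_nonneg_left ((m.le_opNorm a).trans
      (mul_le_mul_of_nonneg_left h2 (norm_nonneg m))) (norm_nonneg m))
  calc _ ≤ ‖ξm‖ * (‖m‖ * (‖m‖ * (2 * ‖ξp‖))) := mul_le_mul_of_nonneg_left h3 (norm_nonneg _)
    _ = _ := by ring

theorem hv_quad (ξp ξm : H) {m : H →L[ℂ] H} (h : ‖m‖ ≤ 1 / 2) :
    ‖D.hv ξp ξm m - D.β ξm (m ξp) - D.β ξm (m (D.T (m ξp)))‖ ≤ 2 * ‖m‖ ^ 3 * (‖ξp‖ * ‖ξm‖) := by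
  obtain ⟨a, ha, h1, h2⟩ := D.H1c_fix ξp h
  have h1' : a = ξp + (D.T (m ξp) + D.T (m (D.T (m a)))) := by
    rw [← map_add, ← map_add, ← h1]
    exact h1
  have e : D.hv ξp ξm m - D.β ξm (m ξp) - D.β ξm (m (D.T (m ξp)))
      = D.β ξm (m (D.T (m (D.T (m a))))) := by
    rw [hv, ← ha]
    conv_lhs => rw [h1', map_add, map_add, D.H1c_β_add, D.H1c_β_add]
    ring
  rw [e]
  refine (D.norm_β_le _ _).trans ?_
  have h3 : ‖m (D.T (m a))‖ ≤ ‖m‖ * (‖m‖ * (2 * ‖ξp‖)) :=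
    (D.H1c_step m _).trans (mul_le_mul_of_nonneg_left ((m.le_opNorm a).trans
      (mul_le_mul_of_nonneg_left h2 (norm_nonneg m))) (norm_nonneg m))
  have h4 : ‖m (D.T (m (D.T (m a))))‖ ≤ ‖m‖ * (‖m‖ * (‖m‖ * (2 * ‖ξp‖))) :=
    (D.H1c_step m _).trans (mul_le_mul_of_nonneg_left h3 (norm_nonneg m))
  calc _ ≤ ‖ξm‖ * (‖m‖ * (‖m‖ * (‖m‖ * (2 * ‖ξp‖)))) :=
      mul_le_mul_of_nonneg_left h4 (norm_nonneg _)
    _ = _ := by ring

end HData

end Pool.Agent.MP_e62289_ag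

end

section

open Set Filter Topology Complex MeasureTheory Metric
open scoped Manifold ContDiff ComplexConjugate NNReal ENNReal

namespace Pool.Agent.MP_e62289_ag

section General

variable {Y : Type} [TopologicalSpace Y] [ChartedSpace ℂ Y] {u v : Y → ℂ} {q : Y}

theorem L4_supp (hc : HasCompactSupport u) :
    HasCompactSupport (d1 u) ∧ HasCompactSupport (d2 u) := by
  have key : ∀ x, x ∉ tsupport u → d1 u x = 0 ∧ d2 u x = 0 := by
    intro x hx
    have h : u =ᶠ[𝓝 x] fun _ => (0 : ℂ) := notMem_tsupport_iff_eventuallyEq.1 hx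
    rw [(d_congr h).1, (d_congr h).2]
    exact d_const 0 x
  constructor
  · exact hc.mono' fun x hx => by_contra fun h => hx (key x h).1
  · exact hc.mono' fun x hx => by_contra fun h => hx (key x h).2

theorem L4_ck_mul {k : ℕ∞ω} (hu : Ck k u) (hv : Ck k v) : Ck k fun x => u x * v x :=
  (contDiff_fst.mul contDiff_snd : ContDiff ℝ k fun p : ℂ × ℂ => p.1 * p.2).comp_contMDiff
    (hu.prodMk_space hv)

theorem L4_ck_add {k : ℕ∞ω} (hu : Ck k u) (hv : Ck k v) : Ck k fun x => u x + v x :=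
  (contDiff_fst.add contDiff_snd : ContDiff ℝ k fun p : ℂ × ℂ => p.1 + p.2).comp_contMDiff
    (hu.prodMk_space hv)

theorem L4_ck_conj {k : ℕ∞ω} (hu : Ck k u) : Ck k fun x => conj (u x) :=
  (conjCLE.contDiff : ContDiff ℝ k conjCLE).comp_contMDiff hu

theorem L4_rd {k : ℕ∞ω} (hu : Ck k u) (hk : k ≠ 0) (q : Y) : RDiffAt u q :=
  hu.mdifferentiableAt hk

end General

namespace Flat

variable {n : ℕ} (S : Flat n)

theorem L4_f_ck (k : ℕ∞ω) : Ck k S.f := fun _ =>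
  ckAt_of_hol (Eventually.of_forall S.f_hol) k

theorem L4_df_hol (q : S.Y) : ∀ᶠ x in 𝓝 q, HolAt (d1 S.f) x :=
  S.holAt_d1 (Eventually.of_forall S.f_hol)

theorem L4_df_ck (k : ℕ∞ω) : Ck k (d1 S.f) := fun q => ckAt_of_hol (S.L4_df_hol q) k

theorem L4_d2_f (q : S.Y) : d2 S.f q = 0 := (d2_of_hol (S.f_hol q)).2

theorem L4_d2_df (q : S.Y) : d2 (d1 S.f) q = 0 := (d2_of_hol (S.L4_df_hol q).self_of_nhds).2

theorem L4_ck_d {κ : S.Y → ℂ} (h : Ck 2 κ) : Ck 1 (d1 κ) ∧ Ck 1 (d2 κ) := by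
  have h' : ∀ q, CkAt (1 + 1 : ℕ) κ q := fun q => by exact_mod_cast h q
  constructor
  · intro q
    exact_mod_cast (S.ckAt_d (h' q)).1
  · intro q
    exact_mod_cast (S.ckAt_d (h' q)).2

theorem L4_cont_d {g : S.Y → ℂ} (h : Ck 1 g) : Continuous (d1 g) ∧ Continuous (d2 g) :=
  ⟨continuous_iff_continuousAt.2 fun q => (S.continuousAt_d (h q)).1,
    continuous_iff_continuousAt.2 fun q => (S.continuousAt_d (h q)).2⟩

theorem L4_cont_D1 {κ : S.Y → ℂ} (h : Ck 2 κ) : Continuous (S.D1 κ) := by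
  have h1 := (S.L4_ck_d h).1.continuous
  have h2 := h.continuous
  have h3 := (S.L4_df_ck 0).continuous
  have h4 := (S.L4_f_ck 0).continuous
  exact h1.add ((h2.mul h3).div (continuous_const.mul h4) fun q =>
    mul_ne_zero two_ne_zero (S.f_ne q))

theorem L4_supp_D1 {κ : S.Y → ℂ} (hc : HasCompactSupport κ) : HasCompactSupport (S.D1 κ) := by
  have h1 := (L4_supp hc).1
  have h2 : HasCompactSupport fun q => κ q * (d1 S.f q / (2 * S.f q)) := hc.mul_right
  have e : S.D1 κ = d1 κ + fun q => κ q * (d1 S.f q / (2 * S.f q)) := by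
    funext q
    simp only [D1, Pi.add_apply, mul_div_assoc]
  rw [e]
  exact h1.add h2

/-- the unimodular factor -/
noncomputable def L4u (q : S.Y) : ℂ := (‖S.f q‖ : ℂ) / S.f q

theorem L4u_ck (k : ℕ∞ω) : Ck k S.L4u := by
  intro q
  have h1 : ContDiffAt ℝ k (fun z : ℂ => (‖z‖ : ℂ) / z) (S.f q) := by
    have h2 : ContDiffAt ℝ k (fun z : ℂ => ‖z‖) (S.f q) := contDiffAt_norm ℝ (S.f_ne q)
    have h3 : ContDiffAt ℝ k (fun z : ℂ => ((‖z‖ : ℝ) : ℂ)) (S.f q) :=
      (ofRealCLM.contDiff.contDiffAt).comp _ h2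
    have h4 : ContDiffAt ℝ k (fun z : ℂ => z⁻¹) (S.f q) := contDiffAt_inv ℝ (S.f_ne q)
    simpa only [div_eq_mul_inv] using h3.mul h4
  exact h1.comp_contMDiffAt (S.L4_f_ck k q)

theorem L4u_norm (q : S.Y) : ‖S.L4u q‖ = 1 := by
  rw [L4u, norm_div, norm_real, norm_norm, div_self (norm_ne_zero_iff.2 (S.f_ne q))]

theorem L4u_ne (q : S.Y) : S.L4u q ≠ 0 := norm_ne_zero_iff.1 (by rw [S.L4u_norm]; simp)

theorem L4u_sq (q : S.Y) : S.L4u q * S.L4u q * S.f q = conj (S.f q) := by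
  have h := S.f_ne q
  have h2 : (‖S.f q‖ : ℂ) ^ 2 = conj (S.f q) * S.f q := (conj_mul' _).symm
  rw [L4u]
  field_simp
  rw [h2]
  ring

theorem L4u_conj (q : S.Y) : S.L4u q * conj (S.L4u q) = 1 := by
  rw [mul_conj', S.L4u_norm]
  simp

theorem L4u_f (q : S.Y) : (‖S.f q‖ : ℂ) * conj (S.L4u q) = S.f q := by
  have h := S.f_ne q
  have h1 : (‖S.f q‖ : ℂ) = S.L4u q * S.f q := by
    rw [L4u]
    field_simp
  rw [h1]
  linear_combination S.f q * S.L4u_conj q

theorem L4u_d (q : S.Y) : d1 S.L4u q = -(S.L4u q * d1 S.f q / (2 * S.f q)) ∧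
    d2 S.L4u q = S.L4u q * conj (d1 S.f q / (2 * S.f q)) := by
  have hu := L4_rd (S.L4u_ck 1) one_ne_zero q
  have hf := L4_rd (S.L4_f_ck 1) one_ne_zero q
  have e : (fun x => S.L4u x * S.L4u x * S.f x) = fun x => conj (S.f x) := funext S.L4u_sq
  have h1 := d_mul (hu.mul hu) hf
  rw [e, (d_conj _ _).1, (d_conj _ _).2, (d_mul hu hu).1, (d_mul hu hu).2, S.L4_d2_f] at h1
  have h := S.f_ne q
  have h' := S.L4u_ne q
  have hs := S.L4u_sq q
  obtain ⟨h2, h3⟩ := h1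
  rw [map_zero] at h2
  constructor
  · field_simp
    refine mul_left_cancel₀ h' ?_
    linear_combination -h2
  · rw [map_div₀, map_mul, ← hs, h3, map_ofNat]
    field_simp
    ring

theorem L4_stab {κ : S.Y → ℂ} (h : Ck 2 κ) (q : S.Y) :
    S.D1 (fun x => S.L4u x * conj (κ x)) q = S.L4u q * conj (d2 κ q) ∧
    d2 (fun x => S.L4u x * conj (κ x)) q = S.L4u q * conj (S.D1 κ q) := by
  have hu := L4_rd (S.L4u_ck 1) one_ne_zero q
  have hk := L4_rd h two_ne_zero q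
  have h1 := d_mul hu hk.conj
  rw [(d_conj _ _).1, (d_conj _ _).2, (S.L4u_d q).1, (S.L4u_d q).2] at h1
  constructor
  · rw [D1, h1.1]
    ring
  · rw [h1.2, D1, mul_div_assoc (κ q), map_add, map_mul]
    ring

theorem L4_int_d {g : S.Y → ℂ} (hg : Ck 1 g) (hc : HasCompactSupport g) :
    Integrable (d1 g) S.lam ∧ Integrable (d2 g) S.lam :=
  ⟨(S.L4_cont_d hg).1.integrable_of_hasCompactSupport (L4_supp hc).1,
    (S.L4_cont_d hg).2.integrable_of_hasCompactSupport (L4_supp hc).2⟩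

theorem L4_iso {κ κ' : S.Y → ℂ} (h : Ck 2 κ) (h' : Ck 2 κ') (hc' : HasCompactSupport κ') :
    ∫ q, S.f q * S.D1 κ q * d2 κ' q ∂S.lam = ∫ q, S.f q * d2 κ q * S.D1 κ' q ∂S.lam := by
  have h1 : Ck 1 κ := h.of_le (by norm_num)
  have h1' : Ck 1 κ' := h'.of_le (by norm_num)
  have hf := S.L4_f_ck 1
  have hd := S.L4_ck_d h
  have hd' := S.L4_ck_d h'
  have ha : Ck 1 fun q => S.f q * κ q * d2 κ' q := L4_ck_mul (L4_ck_mul hf h1) hd'.2
  have hb : Ck 1 fun q => S.f q * κ q * d1 κ' q := L4_ck_mul (L4_ck_mul hf h1) hd'.1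
  have he : Ck 1 fun q => d1 S.f q * κ q * κ' q := L4_ck_mul (L4_ck_mul (S.L4_df_ck 1) h1) h1'
  have sa : HasCompactSupport fun q => S.f q * κ q * d2 κ' q := (L4_supp hc').2.mul_left
  have sb : HasCompactSupport fun q => S.f q * κ q * d1 κ' q := (L4_supp hc').1.mul_left
  have se : HasCompactSupport fun q => d1 S.f q * κ q * κ' q := hc'.mul_left
  have i1 : Integrable (fun q => S.f q * S.D1 κ q * d2 κ' q) S.lam :=
    ((hf.continuous.mul (S.L4_cont_D1 h)).mul hd'.2.continuous).integrable_of_hasCompactSupport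
      (L4_supp hc').2.mul_left
  have i2 : Integrable (fun q => S.f q * d2 κ q * S.D1 κ' q) S.lam :=
    ((hf.continuous.mul hd.2.continuous).mul (S.L4_cont_D1 h')).integrable_of_hasCompactSupport
      (S.L4_supp_D1 hc').mul_left
  rw [← sub_eq_zero, ← integral_sub i1 i2]
  have key : ∀ q, S.f q * S.D1 κ q * d2 κ' q - S.f q * d2 κ q * S.D1 κ' q =
      d1 (fun q => S.f q * κ q * d2 κ' q) q - d2 (fun q => S.f q * κ q * d1 κ' q) q -
        (1 / 2 : ℂ) * d2 (fun q => d1 S.f q * κ q * κ' q) q := by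
    intro q
    have r0 := L4_rd hf one_ne_zero q
    have r1 := L4_rd h1 one_ne_zero q
    have r2 := L4_rd h1' one_ne_zero q
    have r3 := L4_rd hd'.1 one_ne_zero q
    have r4 := L4_rd hd'.2 one_ne_zero q
    have r5 := L4_rd (S.L4_df_ck 1) one_ne_zero q
    rw [(d_mul (r0.mul r1) r4).1, (d_mul (r0.mul r1) r3).2, (d_mul (r5.mul r1) r2).2,
      (d_mul r0 r1).1, (d_mul r0 r1).2, (d_mul r5 r1).2, S.d1_d2 (h' q), S.L4_d2_f, S.L4_d2_df,
      D1, D1]
    have := S.f_ne q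
    field_simp
    ring
  simp_rw [key]
  have i3 : Integrable (fun x => d1 (fun q => S.f q * κ q * d2 κ' q) x -
      d2 (fun q => S.f q * κ q * d1 κ' q) x) S.lam := (S.L4_int_d ha sa).1.sub (S.L4_int_d hb sb).2
  rw [integral_sub i3 ((S.L4_int_d he se).2.const_mul _), integral_sub (S.L4_int_d ha sa).1 (S.L4_int_d hb sb).2,
    integral_const_mul, (S.stokes ha sa).1, (S.stokes hb sb).2, (S.stokes he se).2]
  simp

theorem L4_memLp (A : S.H) : MemLp (fun q => S.L4u q * conj (A q)) 2 S.lamf := by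
  refine (Lp.memLp A).of_le ?_ (Eventually.of_forall fun q => ?_)
  · exact (S.L4u_ck 0).continuous.aestronglyMeasurable.mul
      (continuous_conj.comp_aestronglyMeasurable (Lp.aestronglyMeasurable A))
  · rw [norm_mul, S.L4u_norm, one_mul, norm_conj]

/-- the conjugation -/
noncomputable def L4c (A : S.H) : S.H := (S.L4_memLp A).toLp _

theorem L4c_ae (A : S.H) : (S.L4c A : S.Y → ℂ) =ᵐ[S.lamf] fun q => S.L4u q * conj (A q) :=
  MemLp.coeFn_toLp _

theorem L4_inner {C A B : S.H} (hC : (C : S.Y → ℂ) =ᵐ[S.lamf] fun q => S.L4u q * conj (A q)) :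
    inner ℂ C B = ∫ q, S.f q * A q * B q ∂S.lam := by
  rw [L2.inner_def]
  have h1 : ∀ᵐ q ∂S.lamf, inner ℂ (C q) (B q) = conj (S.L4u q) * A q * B q := by
    filter_upwards [hC] with q hq
    rw [hq, RCLike.inner_apply', map_mul, conj_conj]
  rw [integral_congr_ae h1, S.integral_lamf]
  refine integral_congr_ae (Eventually.of_forall fun q => ?_)
  simp only
  rw [← mul_assoc, ← mul_assoc, S.L4u_f]

theorem L4c_add (x y : S.H) : S.L4c (x + y) = S.L4c x + S.L4c y := by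
  refine Lp.ext ?_
  filter_upwards [S.L4c_ae (x + y), S.L4c_ae x, S.L4c_ae y, Lp.coeFn_add x y,
    Lp.coeFn_add (S.L4c x) (S.L4c y)] with q h1 h2 h3 h4 h5
  rw [h1, h5, h4, Pi.add_apply, Pi.add_apply, h2, h3, map_add, mul_add]

theorem L4c_smul (a : ℂ) (x : S.H) : S.L4c (a • x) = conj a • S.L4c x := by
  refine Lp.ext ?_
  filter_upwards [S.L4c_ae (a • x), S.L4c_ae x, Lp.coeFn_smul a x,
    Lp.coeFn_smul (conj a) (S.L4c x)] with q h1 h2 h4 h5
  rw [h1, h5, h4, Pi.smul_apply, Pi.smul_apply, h2, smul_eq_mul, smul_eq_mul, map_mul]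
  ring

theorem L4c_c (x : S.H) : S.L4c (S.L4c x) = x := by
  refine Lp.ext ?_
  filter_upwards [S.L4c_ae (S.L4c x), S.L4c_ae x] with q h1 h2
  rw [h1, h2, map_mul, conj_conj, ← mul_assoc, S.L4u_conj, one_mul]

theorem L4c_inner (x y : S.H) : inner ℂ (S.L4c x) (S.L4c y) = inner ℂ y x := by
  rw [L2.inner_def, L2.inner_def]
  refine integral_congr_ae ?_
  filter_upwards [S.L4c_ae x, S.L4c_ae y] with q h1 h2
  rw [h1, h2, RCLike.inner_apply', RCLike.inner_apply', map_mul, conj_conj]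
  linear_combination x q * conj (y q) * S.L4u_conj q

/-- the exact forms -/
def L4E : Submodule ℂ (S.H × S.H) where
  carrier := {e | S.IsExact e}
  add_mem' := by
    rintro a b ⟨κ, h, hc, h1, h2⟩ ⟨κ', h', hc', h1', h2'⟩
    have hd := fun q => d_add (L4_rd h two_ne_zero q) (L4_rd h' two_ne_zero q)
    refine ⟨fun q => κ q + κ' q, L4_ck_add h h', hc.add hc', ?_, ?_⟩
    · filter_upwards [h1, h1', Lp.coeFn_add a.1 b.1] with q e1 e2 e3
      rw [Prod.fst_add, e3, Pi.add_apply, e1, e2, D1, D1, D1, (hd q).1]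
      ring
    · filter_upwards [h2, h2', Lp.coeFn_add a.2 b.2] with q e1 e2 e3
      rw [Prod.snd_add, e3, Pi.add_apply, e1, e2, (hd q).2]
  zero_mem' := by
    refine ⟨fun _ => 0, contMDiff_const, HasCompactSupport.zero, ?_, ?_⟩
    · filter_upwards [Lp.coeFn_zero ℂ 2 S.lamf] with q e1
      rw [Prod.fst_zero, e1, D1, (d_const 0 q).1]
      simp
    · filter_upwards [Lp.coeFn_zero ℂ 2 S.lamf] with q e1
      rw [Prod.snd_zero, e1, (d_const 0 q).2]
      simp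
  smul_mem' := by
    rintro c a ⟨κ, h, hc, h1, h2⟩
    have hk : Ck 2 fun _ : S.Y => c := contMDiff_const
    have hd := fun q => d_mul (L4_rd hk two_ne_zero q) (L4_rd h two_ne_zero q)
    refine ⟨fun q => c * κ q, L4_ck_mul hk h, hc.mul_left, ?_, ?_⟩
    · filter_upwards [h1, Lp.coeFn_smul c a.1] with q e1 e3
      rw [Prod.smul_fst, e3, Pi.smul_apply, e1, D1, D1, (hd q).1, (d_const c q).1, smul_eq_mul]
      ring
    · filter_upwards [h2, Lp.coeFn_smul c a.2] with q e1 e3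
      rw [Prod.smul_snd, e3, Pi.smul_apply, e1, (hd q).2, (d_const c q).2, smul_eq_mul]
      ring

theorem L4E_iso (e : S.H × S.H) (he : e ∈ S.L4E) (e' : S.H × S.H) (he' : e' ∈ S.L4E) :
    inner ℂ (S.L4c e.1) e'.2 = inner ℂ (S.L4c e.2) e'.1 := by
  obtain ⟨κ, h, -, h1, h2⟩ := he
  obtain ⟨κ', h', hc', h1', h2'⟩ := he'
  rw [S.L4_inner (S.L4c_ae _), S.L4_inner (S.L4c_ae _)]
  have e1 : ∀ᵐ q ∂S.lam, S.f q * e.1 q * e'.2 q = S.f q * S.D1 κ q * d2 κ' q := by
    filter_upwards [S.ae_lamf.1 h1, S.ae_lamf.1 h2'] with q a b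
    rw [a, b]
  have e2 : ∀ᵐ q ∂S.lam, S.f q * e.2 q * e'.1 q = S.f q * d2 κ q * S.D1 κ' q := by
    filter_upwards [S.ae_lamf.1 h2, S.ae_lamf.1 h1'] with q a b
    rw [a, b]
  rw [integral_congr_ae e1, integral_congr_ae e2]
  exact S.L4_iso h h' hc'

theorem L4E_stab (e : S.H × S.H) (he : e ∈ S.L4E) : (S.L4c e.2, S.L4c e.1) ∈ S.L4E := by
  obtain ⟨κ, h, hc, h1, h2⟩ := he
  have hc2 : HasCompactSupport fun q => conj (κ q) := hc.comp_left (g := conj) (map_zero _)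
  refine ⟨fun q => S.L4u q * conj (κ q), L4_ck_mul (S.L4u_ck 2) (L4_ck_conj h), hc2.mul_left,
    ?_, ?_⟩
  · filter_upwards [h2, S.L4c_ae e.2] with q e1 e2
    rw [e2, e1, (S.L4_stab h q).1]
  · filter_upwards [h1, S.L4c_ae e.1] with q e1 e2
    rw [e2, e1, (S.L4_stab h q).2]

end Flat

end Pool.Agent.MP_e62289_ag

end

section

open Set Filter Topology Complex MeasureTheory Metric
open scoped Manifold ContDiff ComplexConjugate NNReal ENNReal

namespace Pool.Agent.MP_e62289_ag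

theorem Cx2a_circle {g : ℂ → ℂ} {z : ℂ} {r s : ℝ} (hg : DifferentiableOn ℂ g (ball z r))
    (hs0 : 0 < s) (hs : s < r) :
    ENNReal.ofReal (2 * Real.pi) * ‖g z‖ₑ ^ 2 ≤
      ∫⁻ θ in Ioo (-Real.pi) Real.pi, ‖g (circleMap z s θ)‖ₑ ^ 2 := by
  have hd : DiffContOnCl ℂ (fun w => g w ^ 2) (ball z |s|) := by
    rw [abs_of_pos hs0]
    refine DifferentiableOn.diffContOnCl ?_
    rw [closure_ball _ hs0.ne']
    exact (hg.mono (closedBall_subset_ball hs)).pow 2
  have h1 := hd.circleAverage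
  rw [Real.circleAverage_eq_integral_add (-Real.pi),
    intervalIntegral.integral_comp_add_right (fun θ => g (circleMap z s θ) ^ 2)] at h1
  have hpi := Real.pi_pos
  have e1 : 0 + -Real.pi = -Real.pi := by ring
  have e2 : 2 * Real.pi + -Real.pi = Real.pi := by ring
  rw [e1, e2, intervalIntegral.integral_of_le (by linarith), integral_Ioc_eq_integral_Ioo] at h1
  have h2 : ∫ θ in Ioo (-Real.pi) Real.pi, g (circleMap z s θ) ^ 2 = (2 * Real.pi) • g z ^ 2 := by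
    rw [← h1, smul_smul, mul_inv_cancel₀ (by positivity), one_smul]
  have h3 := enorm_integral_le_lintegral_enorm (μ := volume.restrict (Ioo (-Real.pi) Real.pi))
    (fun θ => g (circleMap z s θ) ^ 2)
  rw [h2, enorm_smul, enorm_pow, Real.enorm_of_nonneg (by positivity)] at h3
  simpa only [enorm_pow] using h3

theorem Cx2a_polar (z : ℂ) (p : ℝ × ℝ) :
    z + Complex.polarCoord.symm p = circleMap z p.1 p.2 := by
  rw [Complex.polarCoord_symm_apply, circleMap, Complex.exp_mul_I]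
  push_cast
  ring

/-- mean value inequality -/
theorem mean_l2 {g : ℂ → ℂ} {z : ℂ} {r : ℝ} (hr : 0 < r) (hg : DifferentiableOn ℂ g (ball z r)) :
    ENNReal.ofReal (Real.pi * r ^ 2) * ‖g z‖ₑ ^ 2 ≤ ∫⁻ w in ball z r, ‖g w‖ₑ ^ 2 := by
  have hpi := Real.pi_pos
  set F : ℂ → ℝ≥0∞ := (ball z r).indicator (fun w => ‖g w‖ₑ ^ 2) with hF
  have h1 : ∫⁻ w in ball z r, ‖g w‖ₑ ^ 2 = ∫⁻ w, F (z + w) := by
    rw [lintegral_add_left_eq_self F z, hF, lintegral_indicator measurableSet_ball]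
  rw [h1, ← Complex.lintegral_comp_polarCoord_symm]
  have hsub : Ioo (0 : ℝ) r ×ˢ Ioo (-Real.pi) Real.pi ⊆ polarCoord.target := by
    rw [polarCoord_target]
    exact prod_mono Ioo_subset_Ioi_self Subset.rfl
  have hms : MeasurableSet (Ioo (0 : ℝ) r ×ˢ Ioo (-Real.pi) Real.pi) :=
    measurableSet_Ioo.prod measurableSet_Ioo
  have hmem : ∀ p ∈ Ioo (0 : ℝ) r ×ˢ Ioo (-Real.pi) Real.pi, circleMap z p.1 p.2 ∈ ball z r := by
    intro p hp
    rw [mem_ball, dist_eq_norm, circleMap_sub_center, norm_circleMap_zero, abs_of_pos hp.1.1]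
    exact hp.1.2
  refine le_trans ?_ (lintegral_mono_set hsub)
  have h2 : ∫⁻ p in Ioo (0 : ℝ) r ×ˢ Ioo (-Real.pi) Real.pi,
      ENNReal.ofReal p.1 • F (z + Complex.polarCoord.symm p) =
      ∫⁻ p in Ioo (0 : ℝ) r ×ˢ Ioo (-Real.pi) Real.pi,
      ENNReal.ofReal p.1 * ‖g (circleMap z p.1 p.2)‖ₑ ^ 2 := by
    refine setLIntegral_congr_fun hms (fun p hp => ?_)
    simp only [Cx2a_polar, hF, indicator_of_mem (hmem p hp), smul_eq_mul]
  rw [h2]
  have hc : ContinuousOn (fun p : ℝ × ℝ => g (circleMap z p.1 p.2))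
      (Ioo (0 : ℝ) r ×ˢ Ioo (-Real.pi) Real.pi) :=
    hg.continuousOn.comp Real.circleMap.continuous.continuousOn hmem
  have hae : AEMeasurable (fun p : ℝ × ℝ => ENNReal.ofReal p.1 * ‖g (circleMap z p.1 p.2)‖ₑ ^ 2)
      ((volume.prod volume).restrict (Ioo (0 : ℝ) r ×ˢ Ioo (-Real.pi) Real.pi)) := by
    have a1 : AEMeasurable (fun p : ℝ × ℝ => ENNReal.ofReal p.1)
        ((volume.prod volume).restrict (Ioo (0 : ℝ) r ×ˢ Ioo (-Real.pi) Real.pi)) :=
      (ENNReal.measurable_ofReal.comp measurable_fst).aemeasurable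
    have a2 : AEMeasurable (fun p : ℝ × ℝ => ‖g (circleMap z p.1 p.2)‖ₑ ^ 2)
        ((volume.prod volume).restrict (Ioo (0 : ℝ) r ×ˢ Ioo (-Real.pi) Real.pi)) :=
      ((hc.aemeasurable hms).enorm).pow_const 2
    exact a1.mul a2
  rw [Measure.volume_eq_prod, setLIntegral_prod _ hae]
  have h3 : ∫⁻ s in Ioo (0 : ℝ) r, ENNReal.ofReal s * (ENNReal.ofReal (2 * Real.pi) * ‖g z‖ₑ ^ 2) ≤
      ∫⁻ s in Ioo (0 : ℝ) r, ∫⁻ θ in Ioo (-Real.pi) Real.pi,
        ENNReal.ofReal s * ‖g (circleMap z s θ)‖ₑ ^ 2 := by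
    refine setLIntegral_mono' measurableSet_Ioo (fun s hs => ?_)
    rw [lintegral_const_mul' _ _ ENNReal.ofReal_ne_top]
    exact mul_le_mul_right (Cx2a_circle hg hs.1 hs.2) _
  refine le_trans (le_of_eq ?_) h3
  rw [lintegral_mul_const _ ENNReal.measurable_ofReal]
  have h4 : ∫⁻ s in Ioo (0 : ℝ) r, ENNReal.ofReal s = ENNReal.ofReal (r ^ 2 / 2) := by
    rw [← ofReal_integral_eq_lintegral_ofReal]
    · rw [← integral_Ioc_eq_integral_Ioo, ← intervalIntegral.integral_of_le hr.le, integral_id]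
      congr 1
      ring
    · exact (continuous_id.integrableOn_Icc (a := 0) (b := r)).mono_set Ioo_subset_Icc_self
    · filter_upwards [ae_restrict_mem measurableSet_Ioo] with s hs
      exact hs.1.le
  rw [h4, ← mul_assoc, ← ENNReal.ofReal_mul (by positivity)]
  congr 2
  ring

end Pool.Agent.MP_e62289_ag

end

section

open Set Filter Topology Complex MeasureTheory Metric
open scoped Manifold ContDiff ComplexConjugate NNReal ENNReal

namespace Pool.Agent.MP_e62289_ag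

/-- a smooth monotone step from `0` to `1` -/
noncomputable def Cx2bT (s : ℝ) : ℝ := Real.smoothTransition (2 * s - 1)

theorem Cx2bT_smooth : ContDiff ℝ ∞ Cx2bT :=
  Real.smoothTransition.contDiff.comp ((contDiff_const.mul contDiff_id).sub contDiff_const)

theorem Cx2bT_zero {s : ℝ} (h : s ≤ 1 / 2) : Cx2bT s = 0 :=
  Real.smoothTransition.zero_of_nonpos (by linarith)

theorem Cx2bT_one {s : ℝ} (h : 1 ≤ s) : Cx2bT s = 1 :=
  Real.smoothTransition.one_of_one_le (by linarith)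

theorem Cx2bT_mono : Monotone Cx2bT := fun a b h =>
  Real.smoothTransition.monotone (by linarith)

theorem Cx2bT_deriv_smooth : ContDiff ℝ ∞ (deriv Cx2bT) :=
  (contDiff_infty_iff_deriv.1 Cx2bT_smooth).2

theorem Cx2bT_deriv_zero {s : ℝ} (h : 1 < s) : deriv Cx2bT s = 0 := by
  have : Cx2bT =ᶠ[𝓝 s] fun _ => (1 : ℝ) := by
    filter_upwards [Ioi_mem_nhds h] with t ht using Cx2bT_one (le_of_lt ht)
  rw [this.deriv_eq, deriv_const]

theorem Cx2bT_hasDerivAt (a s : ℝ) :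
    HasDerivAt (fun s => Cx2bT (a * s)) (a * deriv Cx2bT (a * s)) s := by
  have h1 : HasDerivAt Cx2bT (deriv Cx2bT (a * s)) (a * s) :=
    (Cx2bT_smooth.differentiable (by simp) _).hasDerivAt
  have h2 : HasDerivAt (fun s : ℝ => a * s) a s := by
    simpa using (hasDerivAt_id s).const_mul a
  have := h1.comp s h2
  rw [mul_comm] at this
  exact this

/-- the radial kernel of radius `ρ` -/
noncomputable def Cx2bK (ρ : ℝ) (w : ℂ) : ℝ := ρ⁻¹ ^ 2 * deriv Cx2bT (ρ⁻¹ ^ 2 * ‖w‖ ^ 2)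

theorem Cx2bK_smooth (ρ : ℝ) : ContDiff ℝ ∞ (Cx2bK ρ) :=
  contDiff_const.mul (Cx2bT_deriv_smooth.comp (contDiff_const.mul (contDiff_norm_sq ℝ)))

theorem Cx2b_one_lt {ρ : ℝ} (hρ : 0 < ρ) {w : ℂ} (h : ρ < ‖w‖) : 1 < ρ⁻¹ ^ 2 * ‖w‖ ^ 2 := by
  rw [← mul_pow]
  refine one_lt_pow₀ ?_ two_ne_zero
  rw [inv_mul_eq_div, one_lt_div hρ]
  exact h

theorem Cx2bK_zero {ρ : ℝ} (hρ : 0 < ρ) {w : ℂ} (h : ρ < ‖w‖) : Cx2bK ρ w = 0 := by
  rw [Cx2bK, Cx2bT_deriv_zero (Cx2b_one_lt hρ h), mul_zero]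

theorem Cx2bK_scale (ρ : ℝ) (w : ℂ) : Cx2bK ρ w = ρ⁻¹ ^ 2 * Cx2bK 1 (ρ⁻¹ • w) := by
  simp only [Cx2bK, inv_one, one_pow, one_mul, norm_smul, mul_pow, Real.norm_eq_abs, sq_abs]

theorem Cx2b_hcs {F : Type} [Zero F] {G : ℂ → F} {r : ℝ} (h : ∀ w, r < ‖w‖ → G w = 0) :
    HasCompactSupport G := by
  refine HasCompactSupport.intro (isCompact_closedBall (0 : ℂ) r) fun w hw => h w ?_
  simpa using hw

theorem Cx2bK_int_pos : 0 < ∫ w, Cx2bK 1 w := by
  obtain ⟨c, hc, hc'⟩ := exists_deriv_eq_slope Cx2bT zero_lt_one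
    Cx2bT_smooth.continuous.continuousOn
    (Cx2bT_smooth.differentiable (by simp)).differentiableOn
  rw [Cx2bT_one le_rfl, Cx2bT_zero (by norm_num)] at hc'
  refine (Cx2bK_smooth 1).continuous.integral_pos_of_hasCompactSupport_nonneg_nonzero
    (x := (Real.sqrt c : ℂ)) (Cx2b_hcs fun w hw => Cx2bK_zero one_pos hw) (fun w => ?_) ?_
  · exact mul_nonneg (by positivity) Cx2bT_mono.deriv_nonneg
  · have : ‖(Real.sqrt c : ℂ)‖ ^ 2 = c := by
      rw [Complex.norm_real, Real.norm_eq_abs, sq_abs, Real.sq_sqrt hc.1.le]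
    simp only [Cx2bK, inv_one, one_pow, one_mul, this, hc']
    norm_num

theorem Cx2bK_int {ρ : ℝ} (hρ : 0 < ρ) : ∫ w, Cx2bK ρ w = ∫ w, Cx2bK 1 w := by
  simp only [Cx2bK_scale ρ]
  rw [integral_const_mul, Measure.integral_comp_inv_smul_of_nonneg volume (Cx2bK 1) hρ.le,
    Complex.finrank_real_complex, smul_eq_mul, ← mul_assoc, ← mul_pow, inv_mul_cancel₀ hρ.ne',
    one_pow, one_mul]

theorem Cx2bK_bound : ∃ M, ∀ ρ w, |Cx2bK ρ w| ≤ ρ⁻¹ ^ 2 * M := by
  obtain ⟨M, hM⟩ := (Cx2bK_smooth 1).continuous.bounded_above_of_compact_support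
    (Cx2b_hcs fun w hw => Cx2bK_zero one_pos hw)
  refine ⟨M, fun ρ w => ?_⟩
  rw [Cx2bK_scale, abs_mul, abs_of_nonneg (by positivity)]
  exact mul_le_mul_of_nonneg_left (hM _) (by positivity)

theorem Cx2bQ_ev {τ : ℝ → ℝ} {δ : ℝ} (hδ : 0 < δ) (h0 : ∀ s ≤ δ, τ s = 0) :
    (fun w : ℂ => (τ (‖w‖ ^ 2) : ℂ) * w⁻¹) =ᶠ[𝓝 0] fun _ => 0 := by
  have hc : Continuous fun w : ℂ => ‖w‖ ^ 2 := by fun_prop
  have : ∀ᶠ w : ℂ in 𝓝 0, ‖w‖ ^ 2 < δ :=
    (hc.tendsto 0).eventually (gt_mem_nhds (by simpa using hδ))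
  filter_upwards [this] with w hw
  rw [h0 _ hw.le, ofReal_zero, zero_mul]

theorem Cx2bQ_smooth {τ : ℝ → ℝ} {δ : ℝ} (hτ : ContDiff ℝ ∞ τ) (hδ : 0 < δ)
    (h0 : ∀ s ≤ δ, τ s = 0) : ContDiff ℝ ∞ fun w : ℂ => (τ (‖w‖ ^ 2) : ℂ) * w⁻¹ := by
  refine contDiff_iff_contDiffAt.2 fun w => ?_
  rcases eq_or_ne w 0 with rfl | hw
  · exact contDiffAt_const.congr_of_eventuallyEq (Cx2bQ_ev hδ h0)
  · refine ContDiffAt.mul ?_ (contDiffAt_id.inv hw)
    exact (ofRealCLM.contDiff.comp (hτ.comp (contDiff_norm_sq ℝ))).contDiffAt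

theorem Cx2bQ_w2 {τ : ℝ → ℝ} {δ : ℝ} (hτ : ContDiff ℝ ∞ τ) (hδ : 0 < δ)
    (h0 : ∀ s ≤ δ, τ s = 0) (w : ℂ) :
    w2 (fderiv ℝ (fun w : ℂ => (τ (‖w‖ ^ 2) : ℂ) * w⁻¹) w) = (deriv τ (‖w‖ ^ 2) : ℝ) := by
  rcases eq_or_ne w 0 with rfl | hw
  · have h1 : τ =ᶠ[𝓝 0] fun _ => (0 : ℝ) := by
      filter_upwards [Iio_mem_nhds hδ] with t ht using h0 t (le_of_lt ht)
    rw [(Cx2bQ_ev hδ h0).fderiv_eq, norm_zero, zero_pow two_ne_zero, h1.deriv_eq]
    simp [w2]
  · have h1 : HasDerivAt τ (deriv τ (‖w‖ ^ 2)) (‖w‖ ^ 2) :=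
      (hτ.differentiable (by simp) _).hasDerivAt
    have h2 := (hasFDerivAt_id (𝕜 := ℝ) w).norm_sq
    have h3 := ofRealCLM.hasFDerivAt.comp w (h1.comp_hasFDerivAt w h2)
    have h4 := (hasDerivAt_inv hw).hasFDerivAt.restrictScalars ℝ
    have h5 := h3.mul h4
    have h6 : HasFDerivAt (fun w : ℂ => (τ (‖w‖ ^ 2) : ℂ) * w⁻¹) _ w := h5
    rw [h6.fderiv]
    refine (w_eq (a := deriv τ (‖w‖ ^ 2) * conj w * w⁻¹ - τ (‖w‖ ^ 2) * (w ^ 2)⁻¹) fun v => ?_).2
    have e : ((inner ℝ w v : ℝ) : ℂ) = (conj w * v + w * conj v) / 2 := by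
      rw [Complex.inner, Complex.re_eq_add_conj]
      simp only [map_mul, conj_conj]
      ring
    simp [-Complex.inner, e]
    field_simp
    ring

theorem Cx2b_w2_int {F : ℂ → (ℂ →L[ℝ] ℂ)} (hF : Integrable F) :
    w2 (∫ t, F t) = ∫ t, w2 (F t) := by
  simp only [w2]
  rw [ContinuousLinearMap.integral_apply hF, ContinuousLinearMap.integral_apply hF,
    integral_div, integral_add (hF.apply_continuousLinearMap 1)
      ((hF.apply_continuousLinearMap I).const_mul I), integral_const_mul]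

theorem Cx2b_diff {g : ℂ → ℂ} {z : ℂ} {D : ℂ →L[ℝ] ℂ} (h : HasFDerivAt g D z) (h2 : w2 D = 0) :
    DifferentiableAt ℂ g z := by
  refine (hasFDerivAt_of_restrictScalars ℝ h
    (f' := w1 D • ContinuousLinearMap.id ℂ ℂ) ?_).differentiableAt
  ext1 v
  rw [w_apply D v, h2]
  simp

/-- the local statement, for an integrable function -/
theorem Cx2b_local {A : ℂ → ℂ} {z₀ : ℂ} {r : ℝ} (hr : 0 < r) (hA : Integrable A)
    (h : ∀ x ∈ ball z₀ r, ∀ G : ℂ → ℂ, ContDiff ℝ ∞ G → (∀ w, r < ‖w‖ → G w = 0) →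
      ∫ z, A z * w2 (fderiv ℝ G (x - z)) = 0) :
    ∃ g : ℂ → ℂ, DifferentiableOn ℂ g (ball z₀ r) ∧ ∀ᵐ z, z ∈ ball z₀ r → A z = g z := by
  set c : ℝ := ∫ w, Cx2bK 1 w with hc
  have hcpos : 0 < c := Cx2bK_int_pos
  have hs : ∀ ρ, ContDiff ℝ ∞ fun w => (Cx2bK ρ w : ℂ) := fun ρ =>
    ofRealCLM.contDiff.comp (Cx2bK_smooth ρ)
  have hz : ∀ ρ, 0 < ρ → ∀ w, ρ < ‖w‖ → (Cx2bK ρ w : ℂ) = 0 := fun ρ hρ w hw => by
    rw [Cx2bK_zero hρ hw, ofReal_zero]
  have hint : ∀ ρ, 0 < ρ → ∀ x, Integrable fun t => A t * (Cx2bK ρ (x - t) : ℂ) := fun ρ hρ x =>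
    (Cx2b_hcs (hz ρ hρ)).convolutionExists_right (μ := volume) (ContinuousLinearMap.mul ℝ ℂ)
      hA.locallyIntegrable (hs ρ).continuous x
  refine ⟨fun x => (c⁻¹ : ℝ) * ∫ t, A t * (Cx2bK r (x - t) : ℂ), fun x hx => ?_, ?_⟩
  · refine (DifferentiableAt.const_mul ?_ _).differentiableWithinAt
    have hcs := Cx2b_hcs (hz r hr)
    have h1 := hcs.hasFDerivAt_convolution_right (μ := volume) (ContinuousLinearMap.mul ℝ ℂ)
      hA.locallyIntegrable ((hs r).of_le (by simp)) x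
    refine Cx2b_diff h1 ?_
    have h2 := (hcs.fderiv ℝ).convolutionExists_right (μ := volume)
      ((ContinuousLinearMap.mul ℝ ℂ).precompR ℂ) hA.locallyIntegrable
      ((hs r).continuous_fderiv (by simp)) x
    rw [convolution_def, Cx2b_w2_int h2, ← h x hx _ (hs r) (hz r hr)]
    refine integral_congr_ae (Eventually.of_forall fun t => ?_)
    simp only [w2]
    simp
    ring
  · obtain ⟨M, hM⟩ := Cx2bK_bound
    filter_upwards [(Besicovitch.vitaliFamily (volume : Measure ℂ)).ae_tendsto_average_norm_sub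
      hA.locallyIntegrable] with x h₀ hx
    have h1 := h₀.comp (Besicovitch.tendsto_filterAt (volume : Measure ℂ) x)
    have h2 : Tendsto (fun ρ : ℝ => ∫ y, (c⁻¹ * Cx2bK ρ (x - y)) • A y) (𝓝[>] 0) (𝓝 (A x)) := by
      refine tendsto_integral_smul_of_tendsto_average_norm_sub (c⁻¹ * M * Real.pi) h1
        (Eventually.of_forall fun ρ => hA.integrableOn) ?_ ?_ ?_
      · refine tendsto_const_nhds.congr' ?_
        filter_upwards [self_mem_nhdsWithin] with ρ hρ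
        rw [integral_const_mul, integral_sub_left_eq_self (Cx2bK ρ) volume x, Cx2bK_int hρ,
          inv_mul_cancel₀ hcpos.ne']
      · filter_upwards [self_mem_nhdsWithin] with ρ hρ y hy
        by_contra hn
        rw [mem_closedBall, not_le, dist_comm, dist_eq_norm] at hn
        exact hy (by simp only [Cx2bK_zero hρ hn, mul_zero])
      · filter_upwards [self_mem_nhdsWithin] with ρ hρ y
        have hρ' : 0 < ρ := hρ
        have e : (volume : Measure ℂ).real (closedBall x ρ) = ρ ^ 2 * Real.pi := by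
          rw [Measure.real, Complex.volume_closedBall, ENNReal.toReal_mul, ENNReal.toReal_pow,
            ENNReal.toReal_ofReal hρ'.le]
          rfl
        rw [e, abs_mul, abs_of_pos (inv_pos.2 hcpos)]
        refine (mul_le_mul_of_nonneg_left (hM ρ _) (inv_pos.2 hcpos).le).trans (le_of_eq ?_)
        have := Real.pi_pos
        field_simp
    refine tendsto_nhds_unique h2 (tendsto_const_nhds.congr' ?_)
    filter_upwards [Ioo_mem_nhdsGT hr] with ρ hρ
    have hτ : ContDiff ℝ ∞ fun s => Cx2bT (ρ⁻¹ ^ 2 * s) - Cx2bT (r⁻¹ ^ 2 * s) :=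
      (Cx2bT_smooth.comp (contDiff_const.mul contDiff_id)).sub
        (Cx2bT_smooth.comp (contDiff_const.mul contDiff_id))
    have hδ : 0 < ρ ^ 2 / 2 := by have := hρ.1; positivity
    have h0 : ∀ s ≤ ρ ^ 2 / 2, Cx2bT (ρ⁻¹ ^ 2 * s) - Cx2bT (r⁻¹ ^ 2 * s) = 0 := by
      intro s hs'
      have hρ0 := hρ.1
      rw [Cx2bT_zero, Cx2bT_zero, sub_zero]
      · rw [inv_pow, inv_mul_le_iff₀ (by positivity)]
        nlinarith [hρ.2]
      · rw [inv_pow, inv_mul_le_iff₀ (by positivity)]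
        linarith
    have h3 := h x hx _ (Cx2bQ_smooth hτ hδ h0) fun w hw => by
      simp only [Cx2bT_one (Cx2b_one_lt hr hw).le, Cx2bT_one (Cx2b_one_lt hρ.1 (hρ.2.trans hw)).le,
        sub_self, ofReal_zero, zero_mul]
    have h4 : ∀ s, deriv (fun s => Cx2bT (ρ⁻¹ ^ 2 * s) - Cx2bT (r⁻¹ ^ 2 * s)) s =
        ρ⁻¹ ^ 2 * deriv Cx2bT (ρ⁻¹ ^ 2 * s) - r⁻¹ ^ 2 * deriv Cx2bT (r⁻¹ ^ 2 * s) := fun s =>
      ((Cx2bT_hasDerivAt _ s).sub (Cx2bT_hasDerivAt _ s)).deriv
    simp only [Cx2bQ_w2 hτ hδ h0, h4] at h3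
    have h5 : ∫ t, (A t * (Cx2bK ρ (x - t) : ℂ) - A t * (Cx2bK r (x - t) : ℂ)) = 0 := by
      rw [← h3]
      refine integral_congr_ae (Eventually.of_forall fun t => ?_)
      simp only [Cx2bK, ofReal_sub, mul_sub]
    rw [integral_sub (hint ρ hρ.1 x) (hint r hr x), sub_eq_zero] at h5
    rw [← h5, ← integral_const_mul]
    refine integral_congr_ae (Eventually.of_forall fun t => ?_)
    simp only [real_smul, ofReal_mul]
    ring

theorem Cx2b_local' {A : ℂ → ℂ} {U : Set ℂ} (hU : IsOpen U) (hA : LocallyIntegrableOn A U)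
    (h : ∀ κ : ℂ → ℂ, ContDiff ℝ ∞ κ → HasCompactSupport κ → tsupport κ ⊆ U →
      ∫ z, A z * w2 (fderiv ℝ κ z) = 0) {z₀ : ℂ} (hz : z₀ ∈ U) :
    ∃ r : ℝ, ∃ g : ℂ → ℂ, 0 < r ∧ ball z₀ r ⊆ U ∧ DifferentiableOn ℂ g (ball z₀ r) ∧
      ∀ᵐ z, z ∈ ball z₀ r → A z = g z := by
  obtain ⟨ε, hε, hεU⟩ := nhds_basis_closedBall.mem_iff.1 (hU.mem_nhds hz)
  have hr : 0 < ε / 2 := half_pos hε
  have hsub : ball z₀ (ε / 2) ⊆ closedBall z₀ ε :=
    ball_subset_closedBall.trans (closedBall_subset_closedBall (by linarith))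
  have hi : Integrable (indicator (closedBall z₀ ε) A) :=
    (integrable_indicator_iff measurableSet_closedBall).2
      (hA.integrableOn_compact_subset hεU (isCompact_closedBall _ _))
  obtain ⟨g, hg, hae⟩ := Cx2b_local (z₀ := z₀) hr hi (by
    intro x hx G hG hG0
    have hxs : closedBall x (ε / 2) ⊆ closedBall z₀ ε :=
      closedBall_subset_closedBall' (by have := mem_ball.1 hx; linarith)
    have hts : tsupport (fun z => G (x - z)) ⊆ closedBall x (ε / 2) := by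
      refine closure_minimal (fun y hy => ?_) isClosed_closedBall
      by_contra hn
      rw [mem_closedBall, not_le, dist_comm, dist_eq_norm] at hn
      exact hy (hG0 _ hn)
    have h1 := h (fun z => G (x - z)) (hG.comp (contDiff_const.sub contDiff_id))
      ((isCompact_closedBall x (ε / 2)).of_isClosed_subset (isClosed_tsupport _) hts)
      (hts.trans (hxs.trans hεU))
    rw [← neg_eq_zero, ← integral_neg] at h1
    rw [← h1]
    refine integral_congr_ae (Eventually.of_forall fun t => ?_)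
    have h2 : HasFDerivAt (fun z => G (x - z)) _ t :=
      (hG.differentiable (by simp) (x - t)).hasFDerivAt.comp t ((hasFDerivAt_id t).const_sub x)
    have h3 : w2 (fderiv ℝ (fun z => G (x - z)) t) = -w2 (fderiv ℝ G (x - t)) := by
      rw [h2.fderiv]
      simp [w2]
      ring
    by_cases ht : t ∈ closedBall z₀ ε
    · simp only [indicator_of_mem ht, h3, mul_neg, neg_neg]
    · have h4 : fderiv ℝ (fun z => G (x - z)) t = 0 :=
        image_eq_zero_of_notMem_tsupport fun hn => ht (hxs (hts (tsupport_fderiv_subset ℝ hn)))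
      simp [indicator_of_notMem ht, h4, w2])
  refine ⟨ε / 2, g, hr, hsub.trans hεU, hg, ?_⟩
  filter_upwards [hae] with z hz' hzb
  rw [← hz' hzb, indicator_of_mem (hsub hzb)]

/-- the lemma of Weyl in the plane -/
theorem weyl_plane {A : ℂ → ℂ} {U : Set ℂ} (hU : IsOpen U) (hA : LocallyIntegrableOn A U)
    (h : ∀ κ : ℂ → ℂ, ContDiff ℝ ∞ κ → HasCompactSupport κ → tsupport κ ⊆ U →
      ∫ z, A z * w2 (fderiv ℝ κ z) = 0) :
    ∃ g : ℂ → ℂ, DifferentiableOn ℂ g U ∧ ∀ᵐ z, z ∈ U → A z = g z := by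
  choose! r g hr hrU hg hae using fun z₀ (hz : z₀ ∈ U) => Cx2b_local' hU hA h hz
  have key : ∀ z₀ ∈ U, ∀ z ∈ ball z₀ (r z₀), g z z = g z₀ z := by
    intro z₀ hz₀ z hz
    have hzU := hrU z₀ hz₀ hz
    have ho : IsOpen (ball z (r z) ∩ ball z₀ (r z₀)) := isOpen_ball.inter isOpen_ball
    refine Measure.eqOn_open_of_ae_eq (μ := volume) ?_ ho
      ((hg z hzU).continuousOn.mono inter_subset_left)
      ((hg z₀ hz₀).continuousOn.mono inter_subset_right) ⟨mem_ball_self (hr z hzU), hz⟩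
    rw [EventuallyEq, ae_restrict_iff' ho.measurableSet]
    filter_upwards [hae z hzU, hae z₀ hz₀] with y h1 h2 hy
    rw [← h1 hy.1, ← h2 hy.2]
  refine ⟨fun z => g z z, fun z₀ hz₀ => ?_, ?_⟩
  · have hb : ball z₀ (r z₀) ∈ 𝓝 z₀ := ball_mem_nhds _ (hr z₀ hz₀)
    refine (((hg z₀ hz₀).differentiableAt hb).congr_of_eventuallyEq ?_).differentiableWithinAt
    filter_upwards [hb] with z hz using key z₀ hz₀ z hz
  · rw [ae_iff]
    refine measure_null_of_locally_null _ fun z₀ hz₀ => ?_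
    have hz₀U : z₀ ∈ U := by
      by_contra hn
      exact hz₀ fun h' => absurd h' hn
    refine ⟨_, inter_mem_nhdsWithin _ (ball_mem_nhds _ (hr z₀ hz₀U)), ?_⟩
    refine measure_mono_null ?_ (ae_iff.1 (hae z₀ hz₀U))
    rintro y ⟨hy, hyb⟩ hy'
    exact hy fun _ => (hy' hyb).trans (key z₀ hz₀U y hyb).symm

end Pool.Agent.MP_e62289_ag

end

section



end

section

open Set Filter Topology Complex MeasureTheory Metric
open scoped Manifold ContDiff ComplexConjugate NNReal ENNReal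

namespace Pool.Agent.MP_e62289_ag

theorem l3a_emb {α β : Type} [MeasurableSpace α] [MeasurableSpace β] {f : α → β}
    (hf : MeasurableEmbedding f) (μ : Measure β) (B : Set α) (G : β → ℝ≥0∞) :
    ∫⁻ y in f '' B, G y ∂μ = ∫⁻ x in B, G (f x) ∂(μ.comap f) := by
  have h : μ.restrict (f '' B) = ((μ.comap f).restrict B).map f := by
    rw [← Measure.restrict_restrict_of_subset (image_subset_range f B), ← hf.map_comap,
      hf.restrict_map, preimage_image_eq B hf.injective]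
  rw [h, hf.lintegral_map]

namespace Flat

variable {n : ℕ} (S : Flat n)

theorem l3a_memb (φ : OpenPartialHomeomorph S.Y ℂ) :
    MeasurableEmbedding (φ.source.domRestrict φ) :=
  φ.isOpenEmbedding_restrict.measurableEmbedding

theorem l3a_pre (φ : OpenPartialHomeomorph S.Y ℂ) {A : Set ℂ} (hA : MeasurableSet A) :
    MeasurableSet (φ.source ∩ φ ⁻¹' A) := by
  have h := MeasurableSet.subtype_image φ.open_source.measurableSet
    ((S.l3a_memb φ).measurable hA)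
  convert h using 1
  ext q
  constructor
  · rintro ⟨h1, h2⟩
    exact ⟨⟨q, h1⟩, h2, rfl⟩
  · rintro ⟨⟨q, h1⟩, h2, rfl⟩
    exact ⟨h1, h2⟩

theorem l3a_img_eq (φ : OpenPartialHomeomorph S.Y ℂ) {A : Set S.Y} (hs : A ⊆ φ.source) :
    φ '' A = φ.source.domRestrict φ '' (Subtype.val ⁻¹' A) := by
  ext z
  constructor
  · rintro ⟨q, h1, rfl⟩
    exact ⟨⟨q, hs h1⟩, h1, rfl⟩
  · rintro ⟨⟨q, h1⟩, h2, rfl⟩
    exact ⟨q, h2, rfl⟩

theorem l3a_img (φ : OpenPartialHomeomorph S.Y ℂ) {A : Set S.Y} (hA : MeasurableSet A)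
    (hs : A ⊆ φ.source) : MeasurableSet (φ '' A) := by
  rw [S.l3a_img_eq φ hs]
  exact (S.l3a_memb φ).measurableSet_image.2 (measurable_subtype_coe hA)

theorem l3a_chart (x : S.Y) {A : Set S.Y} (hs : A ⊆ (chartAt ℂ x).source) (G : S.Y → ℝ≥0∞) :
    ∫⁻ q in A, G q ∂S.lam = ∫⁻ z in chartAt ℂ x '' A, G ((chartAt ℂ x).symm z) := by
  have hv : MeasurableEmbedding (Subtype.val : (chartAt ℂ x).source → S.Y) :=
    MeasurableEmbedding.subtype_coe (chartAt ℂ x).open_source.measurableSet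
  have hc := S.l3a_memb (chartAt ℂ x)
  have e : S.lam.comap (Subtype.val : (chartAt ℂ x).source → S.Y) =
      (volume : Measure ℂ).comap ((chartAt ℂ x).source.domRestrict (chartAt ℂ x)) := by
    ext B hB
    rw [hv.comap_apply, hc.comap_apply, S.area x _ (hv.measurableSet_image.2 hB)
      (Subtype.coe_image_subset _ _), image_image]
    rfl
  have e2 : A = Subtype.val '' ((Subtype.val : (chartAt ℂ x).source → S.Y) ⁻¹' A) := by
    rw [Subtype.image_preimage_coe, inter_eq_right.2 hs]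
  rw [S.l3a_img_eq _ hs, l3a_emb hc, ← e]
  conv_lhs => rw [e2, l3a_emb hv]
  refine lintegral_congr fun q => ?_
  rw [domRestrict_apply, (chartAt ℂ x).left_inv q.2]

theorem l3a_cover : ∃ (x : ℕ → S.Y) (B : ℕ → Set S.Y), (∀ k, MeasurableSet (B k)) ∧
    Pairwise (Function.onFun Disjoint B) ∧ (∀ k, B k ⊆ (chartAt ℂ (x k)).source) ∧
      ⋃ k, B k = univ := by
  obtain ⟨s, hs, h⟩ := TopologicalSpace.countable_cover_nhds
    (fun x : S.Y => chart_source_mem_nhds ℂ x)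
  have hne : s.Nonempty := by
    obtain ⟨q⟩ : Nonempty S.Y := inferInstance
    have : q ∈ ⋃ x ∈ s, (chartAt ℂ x).source := h ▸ mem_univ q
    obtain ⟨x, hx, -⟩ := mem_iUnion₂.1 this
    exact ⟨x, hx⟩
  obtain ⟨x, rfl⟩ := hs.exists_eq_range hne
  refine ⟨x, disjointed fun k => (chartAt ℂ (x k)).source, MeasurableSet.disjointed fun k =>
    (chartAt ℂ (x k)).open_source.measurableSet, disjoint_disjointed _,
    fun k => disjointed_subset _ k, ?_⟩
  rw [iUnion_disjointed, ← h, biUnion_range]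

theorem l3a_piece (x : S.Y) {φ : S.Y → ℂ} {A : Set S.Y} (hA : MeasurableSet A)
    (hs : A ⊆ (chartAt ℂ x).source) (hφ : ∀ q ∈ A, RDiffAt φ q) (hi : InjOn φ A)
    (g : ℂ → ℝ≥0∞) : MeasurableSet (φ '' A) ∧ ∫⁻ z in φ '' A, g z =
      ∫⁻ q in A, ENNReal.ofReal |‖d1 φ q‖ ^ 2 - ‖d2 φ q‖ ^ 2| * g (φ q) ∂S.lam := by
  have hT := S.l3a_img (chartAt ℂ x) hA hs
  have hd : ∀ z ∈ chartAt ℂ x '' A, HasFDerivWithinAt (φ ∘ (chartAt ℂ x).symm)
      (dd φ ((chartAt ℂ x).symm z)) (chartAt ℂ x '' A) z := by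
    rintro _ ⟨q, hq, rfl⟩
    rw [(chartAt ℂ x).left_inv (hs hq), S.dd_eq (hs hq) (hφ q hq)]
    refine (DifferentiableAt.hasFDerivAt ?_).hasFDerivWithinAt
    rw [← mdifferentiableAt_iff_differentiableAt]
    refine MDifferentiableAt.comp (I' := 𝓘(ℝ, ℂ)) _ ?_ ?_
    · rw [(chartAt ℂ x).left_inv (hs hq)]
      exact hφ q hq
    · exact mdifferentiableAt_atlas_symm (chart_mem_atlas ℂ x)
        ((chartAt ℂ x).map_source (hs hq))
  have hj : InjOn (φ ∘ (chartAt ℂ x).symm) (chartAt ℂ x '' A) := by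
    rintro _ ⟨q, hq, rfl⟩ _ ⟨q', hq', rfl⟩ h
    simp only [Function.comp, (chartAt ℂ x).left_inv (hs hq),
      (chartAt ℂ x).left_inv (hs hq')] at h
    rw [hi hq hq' h]
  have e : φ '' A = (φ ∘ (chartAt ℂ x).symm) '' (chartAt ℂ x '' A) := by
    rw [image_image]
    exact image_congr fun q hq => by
      simp only [Function.comp, (chartAt ℂ x).left_inv (hs hq)]
  rw [e]
  refine ⟨measurable_image_of_fderivWithin hT hd hj, ?_⟩
  rw [lintegral_image_eq_lintegral_abs_det_fderiv_mul volume hT hd hj, S.l3a_chart x hs]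
  refine lintegral_congr fun z => ?_
  rw [det_eq_w]
  rfl

/-- change of variables for maps to the plane -/
theorem cov_plane {φ : S.Y → ℂ} {A : Set S.Y} (hA : MeasurableSet A)
    (hφ : ∀ q ∈ A, RDiffAt φ q) (hi : InjOn φ A) (g : ℂ → ℝ≥0∞) :
    ∫⁻ z in φ '' A, g z =
      ∫⁻ q in A, ENNReal.ofReal |‖d1 φ q‖ ^ 2 - ‖d2 φ q‖ ^ 2| * g (φ q) ∂S.lam := by
  obtain ⟨x, B, hB, hd, hs, hu⟩ := S.l3a_cover
  have e : A = ⋃ k, A ∩ B k := by rw [← inter_iUnion, hu, inter_univ]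
  have hp := fun k => S.l3a_piece (x k) (hA.inter (hB k)) (inter_subset_right.trans (hs k))
    (fun q hq => hφ q hq.1) (hi.mono inter_subset_left) g
  have hd' : Pairwise (Function.onFun Disjoint fun k => A ∩ B k) := fun i j hij =>
    (hd hij).mono inter_subset_right inter_subset_right
  have hd'' : Pairwise (Function.onFun Disjoint fun k => φ '' (A ∩ B k)) := fun i j hij =>
    (hd' hij).image hi inter_subset_left inter_subset_left
  conv_lhs => rw [e, image_iUnion, lintegral_iUnion (fun k => (hp k).1) hd'']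
  conv_rhs => rw [e, lintegral_iUnion (fun k => hA.inter (hB k)) hd']
  exact tsum_congr fun k => (hp k).2

/-- change of variables for admissible self-maps -/
theorem cov_adm (Θ : Adm S.Y S.Y) (g : S.Y → ℝ≥0∞) :
    ∫⁻ q, g q ∂S.lam =
      ∫⁻ q, ENNReal.ofReal (‖d1 Θ.φ q‖ ^ 2 - ‖d2 Θ.φ q‖ ^ 2) * g (Θ.φ q) ∂S.lam := by
  obtain ⟨x, B, hB, hd, hs, hu⟩ := S.l3a_cover
  have hm : ∀ k, MeasurableSet (Θ.φ ⁻¹' B k) := fun k => Θ.φ.continuous.measurable (hB k)
  have hd' : Pairwise (Function.onFun Disjoint fun k => Θ.φ ⁻¹' B k) := fun i j hij =>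
    (hd hij).preimage _
  have hu' : ⋃ k, Θ.φ ⁻¹' B k = univ := by rw [← preimage_iUnion, hu, preimage_univ]
  rw [← setLIntegral_univ, ← hu, lintegral_iUnion hB hd]
  conv_rhs => rw [← setLIntegral_univ, ← hu', lintegral_iUnion hm hd']
  refine tsum_congr fun k => ?_
  have hc : ∀ q ∈ Θ.φ ⁻¹' B k, RDiffAt (chartAt ℂ (x k)) (Θ.φ q) := fun q hq =>
    mdifferentiableAt_atlas (chart_mem_atlas ℂ (x k)) (hs k hq)
  have e : chartAt ℂ (x k) '' B k = (chartAt ℂ (x k) ∘ Θ.φ) '' (Θ.φ ⁻¹' B k) := by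
    rw [image_comp, image_preimage_eq _ (EquivLike.surjective Θ.φ)]
  rw [S.l3a_chart (x k) (hs k), e, S.cov_plane (hm k) (fun q hq => (hc q hq).comp q (Θ.md q))
    fun q hq q' hq' h => EquivLike.injective Θ.φ
      ((chartAt ℂ (x k)).injOn (hs k hq) (hs k hq') h)]
  refine setLIntegral_congr_fun (hm k) fun q hq => ?_
  have h := d_comp (hc q hq) (Θ.md q)
  have h' := S.d_chart (hs k hq)
  simp only [h.1, h.2, h'.1, h'.2, one_mul, zero_mul, add_zero, abs_of_pos (Θ.sq_pos q),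
    Function.comp, (chartAt ℂ (x k)).left_inv (hs k hq)]

theorem qmp_adm (Θ : Adm S.Y S.Y) : Measure.QuasiMeasurePreserving Θ.φ S.lamf S.lamf := by
  have hm : Measurable Θ.φ := Θ.φ.continuous.measurable
  refine ⟨hm, Measure.AbsolutelyContinuous.mk fun s hs h0 => ?_⟩
  rw [Measure.map_apply hm hs]
  have h1 : S.lam s = 0 := by
    have := S.ae_lamf.1 (measure_eq_zero_iff_ae_notMem.1 h0)
    exact measure_eq_zero_iff_ae_notMem.2 this
  have h2 := S.cov_adm Θ (s.indicator 1)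
  rw [lintegral_indicator_one hs, h1] at h2
  have hc := S.continuous_d_adm Θ
  have h3 := (lintegral_eq_zero_iff (((hc.1.norm.pow 2).sub
    (hc.2.norm.pow 2)).measurable.ennreal_ofReal.mul
      ((measurable_one.indicator hs).comp hm))).1 h2.symm
  refine measure_eq_zero_iff_ae_notMem.2 (S.ae_lamf.2 ?_)
  filter_upwards [h3] with q hq hq'
  have hq'' : Θ.φ q ∈ s := hq'
  have hq3 : ENNReal.ofReal (‖d1 Θ.φ q‖ ^ 2 - ‖d2 Θ.φ q‖ ^ 2) *
      s.indicator (1 : S.Y → ℝ≥0∞) (Θ.φ q) = 0 := hq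
  rw [indicator_of_mem hq'', Pi.one_apply, mul_one, ENNReal.ofReal_eq_zero] at hq3
  exact absurd (Θ.sq_pos q) (not_lt.2 hq3)

/-- integrals over ends -/
theorem lintegral_end (i : Fin n) {A : Set ℂ} (hA : MeasurableSet A) (h : A ⊆ ball 0 1 \ {0})
    (g : ℂ → ℝ≥0∞) :
    ∫⁻ q in (S.e i).source ∩ S.e i ⁻¹' A, ‖d1 (S.e i) q‖ₑ ^ 2 * g (S.e i q) ∂S.lam =
      ∫⁻ z in A, g z := by
  have hm := S.l3a_pre (S.e i) hA
  have hh := fun q (hq : q ∈ (S.e i).source ∩ S.e i ⁻¹' A) =>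
    d2_of_hol ((coord_hol (S.e_hol i)).1 q hq.1).1
  have e : S.e i '' ((S.e i).source ∩ S.e i ⁻¹' A) = A := by
    rw [image_inter_preimage, (S.e i).image_source_eq_target, S.e_target, inter_eq_right.2 h]
  conv_rhs => rw [← e, S.cov_plane hm (fun q hq => (hh q hq).1)
    ((S.e i).injOn.mono inter_subset_left)]
  refine setLIntegral_congr_fun hm fun q hq => ?_
  simp only [(hh q hq).2, norm_zero, ne_eq, OfNat.ofNat_ne_zero, not_false_eq_true, zero_pow,
    sub_zero, abs_pow, abs_norm, ENNReal.ofReal_pow (norm_nonneg _), ofReal_norm]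

end Flat

end Pool.Agent.MP_e62289_ag

end

section

open Set Filter Topology Complex MeasureTheory Metric
open scoped Manifold ContDiff ComplexConjugate NNReal ENNReal

namespace Pool.Agent.MP_e62289_ag

/-- the model cut-off function in the plane -/
theorem L3b_model : ∃ (β : ℂ → ℂ) (C : ℝ), ContDiff ℝ 2 β ∧ (∀ z, ‖z‖ ≤ 1 → β z = 0) ∧
    (∀ z, 2 ≤ ‖z‖ → β z = 1) ∧ (∀ z, ‖β z‖ ≤ 1) ∧ ∀ z, ‖fderiv ℝ β z‖ ≤ C := by
  let b : ContDiffBump (0 : ℂ) := ⟨1, 2, one_pos, one_lt_two⟩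
  have h1 : ContDiff ℝ 2 fun z : ℂ => (b z : ℂ) := ofRealCLM.contDiff.comp b.contDiff
  have h2 : HasCompactSupport fun z : ℂ => (b z : ℂ) :=
    b.hasCompactSupport.comp_left (g := fun x : ℝ => (x : ℂ)) ofReal_zero
  obtain ⟨C, hC⟩ := (h1.continuous_fderiv (by simp)).bounded_above_of_compact_support
    (h2.fderiv ℝ)
  refine ⟨fun z => 1 - b z, C, contDiff_const.sub h1, fun z hz => ?_, fun z hz => ?_,
    fun z => ?_, fun z => ?_⟩
  · have : b z = 1 := b.one_of_mem_closedBall (mem_closedBall_zero_iff.2 hz)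
    simp [this]
  · have : b z = 0 := b.zero_of_le_dist (by rwa [dist_zero_right])
    simp [this]
  · have e : (1 : ℂ) - b z = ((1 - b z : ℝ) : ℂ) := by push_cast; rfl
    show ‖(1 : ℂ) - b z‖ ≤ 1
    rw [e, norm_real, Real.norm_eq_abs, abs_le]
    have h3 : 0 ≤ b z := b.nonneg
    have h4 : b z ≤ 1 := b.le_one
    constructor <;> linarith
  · rw [fderiv_const_sub, norm_neg]
    exact hC z

theorem L3b_w (L : ℂ →L[ℝ] ℂ) : ‖w1 L‖ ≤ ‖L‖ ∧ ‖w2 L‖ ≤ ‖L‖ := by
  have h1 : ‖L 1‖ ≤ ‖L‖ := by simpa using L.le_opNorm 1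
  have h2 : ‖I * L I‖ ≤ ‖L‖ := by simpa using L.le_opNorm I
  have h3 := norm_sub_le (L 1) (I * L I)
  have h4 := norm_add_le (L 1) (I * L I)
  rw [w1, w2, norm_div, norm_div, Complex.norm_two]
  constructor <;> linarith

namespace Flat

variable {n : ℕ} (S : Flat n)

/-- gluing along the ends -/
theorem L3b_glue (g : ℂ → ℂ) : ∃ χ : S.Y → ℂ,
    (∀ i, ∀ q ∈ (S.e i).source, χ q = g (S.e i q)) ∧
    ∀ q, (∀ i, q ∉ (S.e i).source) → χ q = 1 := by
  classical
  refine ⟨fun q => if h : ∃ i, q ∈ (S.e i).source then g (S.e h.choose q) else 1, ?_, ?_⟩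
  · intro i q hq
    have h : ∃ i, q ∈ (S.e i).source := ⟨i, hq⟩
    have e : h.choose = i := by
      by_contra hne
      exact Set.disjoint_left.1 (S.e_disj hne) h.choose_spec hq
    simp only [dif_pos h, e]
  · intro q hq
    exact dif_neg (not_exists.2 hq)

/-- cut-off functions -/
theorem cutoff : ∃ C : ℝ, ∀ r : ℝ, 0 < r → r < 1 / 4 → ∃ χ : S.Y → ℂ, Ck 2 χ ∧
    HasCompactSupport χ ∧ (∀ q, ‖χ q‖ ≤ 1) ∧ (∀ q ∈ S.core (2 * r), χ q = 1) ∧
    ∀ q, (d1 χ q = 0 ∧ d2 χ q = 0) ∨ ∃ i, q ∈ (S.e i).source ∧ r ≤ ‖S.e i q‖ ∧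
      ‖S.e i q‖ ≤ 2 * r ∧ ‖d1 χ q‖ ≤ C / r * ‖d1 (S.e i) q‖ ∧
      ‖d2 χ q‖ ≤ C / r * ‖d1 (S.e i) q‖ := by
  obtain ⟨β, C, hβ, h0, h1, hle, hC⟩ := L3b_model
  refine ⟨C, fun r hr hr4 => ?_⟩
  let g : ℂ → ℂ := fun z => β (r⁻¹ • z)
  have hg : ContDiff ℝ 2 g := hβ.comp (contDiff_id.const_smul r⁻¹)
  have hn : ∀ z : ℂ, ‖r⁻¹ • z‖ = ‖z‖ / r := fun z => by
    rw [norm_smul, norm_inv, Real.norm_of_nonneg hr.le, div_eq_inv_mul]
  have g0 : ∀ z : ℂ, ‖z‖ ≤ r → g z = 0 := fun z hz => h0 _ (by rw [hn, div_le_one hr]; exact hz)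
  have g1 : ∀ z : ℂ, 2 * r ≤ ‖z‖ → g z = 1 := fun z hz =>
    h1 _ (by rw [hn, le_div_iff₀ hr]; exact hz)
  have gC : ∀ z, ‖fderiv ℝ g z‖ ≤ C / r := fun z => by
    have : fderiv ℝ g z = r⁻¹ • fderiv ℝ β (r⁻¹ • z) := fderiv_comp_smul r⁻¹
    rw [this, norm_smul, norm_inv, Real.norm_of_nonneg hr.le, div_eq_inv_mul]
    exact mul_le_mul_of_nonneg_left (hC _) (inv_nonneg.2 hr.le)
  obtain ⟨χ, hχ, hχ'⟩ := S.L3b_glue g
  have hcore : ∀ q ∈ S.core (2 * r), χ q = 1 := by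
    intro q hq
    by_cases h : ∃ i, q ∈ (S.e i).source
    · obtain ⟨i, hi⟩ := h
      rw [hχ i q hi]
      exact g1 _ (hq i hi)
    · exact hχ' q (not_exists.1 h)
  have hloc : ∀ i, ∀ q ∈ (S.e i).source, χ =ᶠ[𝓝 q] g ∘ S.e i := fun i q hq => by
    filter_upwards [(S.e i).open_source.mem_nhds hq] with x hx
    exact hχ i x hx
  have hhol : ∀ i, ∀ q ∈ (S.e i).source, HolAt (S.e i) q := fun i q hq =>
    (S.e_hol i).mdifferentiableAt ((S.e i).open_source.mem_nhds hq)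
  have hcase : ∀ q, (χ =ᶠ[𝓝 q] fun _ => 1) ∨ ∃ i, q ∈ (S.e i).source ∧ ‖S.e i q‖ ≤ 2 * r := by
    intro q
    by_cases h : ∃ i, q ∈ (S.e i).source ∧ ‖S.e i q‖ ≤ 2 * r
    · exact Or.inr h
    · left
      have : ∀ᶠ x in 𝓝 q, ∀ i, x ∉ {q | q ∈ (S.e i).source ∧ ‖S.e i q‖ ≤ 2 * r} :=
        eventually_all.2 fun i =>
          (S.e_closed i (2 * r) (by linarith)).isOpen_compl.mem_nhds (not_exists.1 h i)
      filter_upwards [this] with x hx
      refine hcore x fun i hi => ?_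
      by_contra hlt
      exact hx i ⟨hi, (not_le.1 hlt).le⟩
  refine ⟨χ, fun q => ?_, ?_, fun q => ?_, hcore, fun q => ?_⟩
  · rcases hcase q with h | ⟨i, hi, -⟩
    · exact contMDiffAt_const.congr_of_eventuallyEq h
    · have h2 : CkAt 2 (S.e i) q := ckAt_of_hol (by
        filter_upwards [(S.e i).open_source.mem_nhds hi] with x hx
        exact hhol i x hx) 2
      exact (hg.contMDiff.contMDiffAt.comp q h2).congr_of_eventuallyEq (hloc i q hi)
  · refine HasCompactSupport.intro (S.e_compact r hr) fun q hq => ?_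
    simp only [mem_ofPred_eq, not_forall, not_le] at hq
    obtain ⟨i, hi, hlt⟩ := hq
    rw [hχ i q hi]
    exact g0 _ hlt.le
  · by_cases h : ∃ i, q ∈ (S.e i).source
    · obtain ⟨i, hi⟩ := h
      rw [hχ i q hi]
      exact hle _
    · rw [hχ' q (not_exists.1 h), norm_one]
  · rcases hcase q with h | ⟨i, hi, h2r⟩
    · left
      rw [(d_congr h).1, (d_congr h).2]
      exact d_const 1 q
    · rcases lt_or_ge ‖S.e i q‖ r with hlt | hge
      · left
        have h : χ =ᶠ[𝓝 q] fun _ => 0 := by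
          have hc : ContinuousAt (fun x => ‖S.e i x‖) q := ((S.e i).continuousAt hi).norm
          filter_upwards [hloc i q hi, hc.eventually (gt_mem_nhds hlt)] with x hx hx'
          rw [hx]
          exact g0 _ hx'.le
        rw [(d_congr h).1, (d_congr h).2]
        exact d_const 0 q
      · right
        obtain ⟨hd, hd2⟩ := d2_of_hol (hhol i q hi)
        have hgd : MDifferentiableAt 𝓘(ℝ, ℂ) 𝓘(ℝ, ℂ) g (S.e i q) :=
          hg.contMDiff.mdifferentiableAt (by simp)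
        obtain ⟨e1, e2⟩ := d_comp hgd hd
        rw [hd2] at e1 e2
        refine ⟨i, hi, hge, h2r, ?_, ?_⟩
        · rw [(d_congr (hloc i q hi)).1, e1, map_zero, mul_zero, add_zero, norm_mul, (d_plane g _).1]
          exact mul_le_mul_of_nonneg_right ((L3b_w _).1.trans (gC _)) (norm_nonneg _)
        · rw [(d_congr (hloc i q hi)).2, e2, mul_zero, zero_add, norm_mul, (d_plane g _).2,
            Complex.norm_conj]
          exact mul_le_mul_of_nonneg_right ((L3b_w _).2.trans (gC _)) (norm_nonneg _)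

end Flat

end Pool.Agent.MP_e62289_ag

end

section



end

section

open Set Filter Topology Complex MeasureTheory Metric
open scoped Manifold ContDiff ComplexConjugate NNReal ENNReal

namespace Pool.Agent.MP_e62289_ag

theorem L7_plane {g : ℂ → ℂ} {r R : ℝ} (hr : 0 < r) (hR : r < R)
    (hd : DifferentiableOn ℂ g (ball 0 R \ {0})) (h0 : Tendsto g (𝓝[≠] 0) (𝓝 0))
    (hs : ∀ w ∈ sphere (0 : ℂ) r, ‖g w - w‖ ≤ r / 2) {w : ℂ} (hw : w ≠ 0) (hwr : ‖w‖ ≤ r) :
    ‖g w - w‖ ≤ ‖w‖ / 2 := by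
  have hB : ball (0 : ℂ) R ∈ 𝓝 (0 : ℂ) := ball_mem_nhds _ (hr.trans hR)
  let G : ℂ → ℂ := fun z => Function.update g 0 0 z - z
  have hG : ∀ z, z ≠ 0 → G z = g z - z := fun z hz => by simp [G, hz]
  have hG0 : G 0 = 0 := by simp [G]
  have hd1 : DifferentiableOn ℂ (Function.update g 0 0) (ball 0 R) := by
    rw [← Complex.differentiableOn_compl_singleton_and_continuousAt_iff hB]
    exact ⟨hd.congr fun z hz => Function.update_of_ne hz.2 _ _, continuousAt_update_same.2 h0⟩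
  have hd2 : DifferentiableOn ℂ (dslope G 0) (ball 0 R) :=
    (Complex.differentiableOn_dslope hB).2 (hd1.sub differentiableOn_id)
  have hq : ∀ z, z ≠ 0 → ‖dslope G 0 z‖ = ‖g z - z‖ / ‖z‖ := fun z hz => by
    rw [dslope_of_ne _ hz, slope_def_field, hG0, hG z hz, sub_zero, sub_zero, norm_div]
  have hd3 : DiffContOnCl ℂ (dslope G 0) (ball 0 r) := by
    refine DifferentiableOn.diffContOnCl (hd2.mono ?_)
    rw [closure_ball _ hr.ne']
    exact closedBall_subset_ball hR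
  have h4 := Complex.norm_le_of_forall_mem_frontier_norm_le (C := 1 / 2) isBounded_ball hd3
    (fun z hz => by
      rw [frontier_ball _ hr.ne'] at hz
      have hz' : ‖z‖ = r := by simpa using hz
      have hz0 : z ≠ 0 := fun h => by rw [h, norm_zero] at hz'; exact hr.ne hz'
      rw [hq z hz0, hz', div_le_iff₀ hr]
      linarith [hs z hz]) (z := w) (by rw [closure_ball _ hr.ne']; simpa using hwr)
  rw [hq w hw, div_le_iff₀ (norm_pos_iff.2 hw)] at h4
  linarith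

namespace Flat

variable {n : ℕ} (S : Flat n) {T : Type} [TopologicalSpace T]

/-- the family `Θ t`, `t ∈ T'`, stays in discs and moves points near the ends little -/
def Small (Θ : T → Adm S.Y S.Y) (T' : Set T) : Prop :=
  (∀ q, ∃ N, S.IsDisc N ∧ ∀ᶠ q' in 𝓝 q, ∀ t ∈ T', (Θ t).φ q' ∈ N) ∧
  ∃ r : ℝ, 0 < r ∧ ∀ i, ∀ t ∈ T', ∀ q ∈ S.End i r,
    (Θ t).φ q ∈ (S.e i).source ∧ ‖S.e i ((Θ t).φ q) - S.e i q‖ ≤ ‖S.e i q‖ / 2

theorem L7_not_core {q : S.Y} {r : ℝ} : q ∉ S.core r ↔ ∃ i, q ∈ S.End i r := by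
  simp [core, End]

theorem L7_mono {r r' : ℝ} (h : r ≤ r') : S.core r' ⊆ S.core r :=
  fun _ hq i hi => h.trans (hq i hi)

theorem L7_eq {i j : Fin n} {q : S.Y} (hi : q ∈ (S.e i).source) (hj : q ∈ (S.e j).source) :
    i = j := by
  by_contra h
  exact Set.disjoint_left.1 (S.e_disj h) hi hj

theorem L7_tgt {i : Fin n} {w : ℂ} (h0 : w ≠ 0) (h1 : ‖w‖ < 1) : w ∈ (S.e i).target := by
  rw [S.e_target]
  exact ⟨by simpa using h1, h0⟩

theorem L7_ne {i : Fin n} {q : S.Y} (h : q ∈ (S.e i).source) : S.e i q ≠ 0 := by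
  have := (S.e i).map_source h
  rw [S.e_target] at this
  exact this.2

theorem L7_symm {i : Fin n} {w : ℂ} {r : ℝ} (h0 : w ≠ 0) (h1 : ‖w‖ < r) (hr : r ≤ 1) :
    (S.e i).symm w ∈ S.End i r := by
  have ht : w ∈ (S.e i).target := S.L7_tgt h0 (h1.trans_le hr)
  exact ⟨(S.e i).map_target ht, by rwa [(S.e i).right_inv ht]⟩

/-- a single map that is conformal near an end -/
theorem L7_one (A : Adm S.Y S.Y) (i : Fin n) {r R : ℝ} (hr : 0 < r) (hR : r < R) (hR1 : R ≤ 1)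
    (h1 : ∀ q ∈ S.End i R, A.φ q ∈ (S.e i).source ∧ d2 A.φ q = 0)
    (hs : ∀ w ∈ sphere (0 : ℂ) r, ‖S.e i (A.φ ((S.e i).symm w)) - w‖ ≤ r / 2) {q : S.Y}
    (hq : q ∈ S.End i r) : ‖S.e i (A.φ q) - S.e i q‖ ≤ ‖S.e i q‖ / 2 := by
  have hc := coord_hol (S.e_hol i)
  have := L7_plane (g := fun w => S.e i (A.φ ((S.e i).symm w))) hr hR ?_ ?_ hs (S.L7_ne hq.1)
    hq.2.le
  · rwa [(S.e i).left_inv hq.1] at this
  · intro w hw
    have hw1 : ‖w‖ < R := by simpa using hw.1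
    have h2 := h1 _ (S.L7_symm hw.2 hw1 hR1)
    have h3 := ((hc.1 _ h2.1).1.comp _ (hol_of_d2 (A.md _) h2.2)).comp w
      (hc.2 w (S.L7_tgt hw.2 (hw1.trans_le hR1)))
    exact (mdifferentiableAt_iff_differentiableAt.1 h3).differentiableWithinAt
  · rw [Metric.tendsto_nhdsWithin_nhds]
    intro ρ hρ
    obtain ⟨ρ', h2, -, h3⟩ := S.subset_core ((S.e_compact ρ hρ).image A.φ.symm.continuous)
    refine ⟨min ρ' R, lt_min h2 (hr.trans hR), fun w hw hw' => ?_⟩
    rw [dist_zero_right, lt_min_iff] at hw'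
    have h4 := S.L7_symm (i := i) hw hw'.2 hR1
    have h5 : A.φ ((S.e i).symm w) ∉ S.core ρ := fun h => by
      have h6 := interior_subset (h3 ⟨_, h, A.φ.symm_apply_apply _⟩) i h4.1
      rw [(S.e i).right_inv (S.L7_tgt hw (hw'.2.trans_le hR1))] at h6
      exact absurd hw'.1 (not_lt.2 h6)
    obtain ⟨j, hj⟩ := S.L7_not_core.1 h5
    obtain rfl := S.L7_eq hj.1 (h1 _ h4).1
    rw [dist_zero_right]
    exact hj.2

theorem L7_disc (t₀ : T) (Θ : T → Adm S.Y S.Y)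
    (hc : Continuous fun p : T × S.Y => (Θ p.1).φ p.2) {K : Set S.Y} (hK : IsCompact K) :
    ∃ A ∈ 𝓝 t₀, ∀ q ∈ K, ∃ N, S.IsDisc N ∧ ∀ᶠ q' in 𝓝 q, ∀ t ∈ A, (Θ t).φ q' ∈ N := by
  refine hK.induction_on (p := fun s => ∃ A ∈ 𝓝 t₀, ∀ q ∈ s, ∃ N, S.IsDisc N ∧
    ∀ᶠ q' in 𝓝 q, ∀ t ∈ A, (Θ t).φ q' ∈ N) ⟨univ, univ_mem, fun q hq => hq.elim⟩ ?_ ?_ ?_
  · rintro s s' hs ⟨A, hA, h⟩
    exact ⟨A, hA, fun q hq => h q (hs hq)⟩
  · rintro s s' ⟨A, hA, h⟩ ⟨A', hA', h'⟩
    refine ⟨A ∩ A', inter_mem hA hA', fun q hq => ?_⟩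
    rcases hq with hq | hq
    · obtain ⟨N, h1, h2⟩ := h q hq
      exact ⟨N, h1, h2.mono fun q' h3 t ht => h3 t ht.1⟩
    · obtain ⟨N, h1, h2⟩ := h' q hq
      exact ⟨N, h1, h2.mono fun q' h3 t ht => h3 t ht.2⟩
  · intro x _
    obtain ⟨N, h1, h2, -⟩ := S.exists_disc (q := (Θ t₀).φ x) univ_mem
    have h3 := hc.continuousAt (x := (t₀, x)) ((IsDisc.isOpen S h1).mem_nhds h2)
    rw [mem_map, mem_nhds_prod_iff] at h3
    obtain ⟨A, hA, V, hV, h4⟩ := h3
    refine ⟨interior V, mem_nhdsWithin_of_mem_nhds (interior_mem_nhds.2 hV), A, hA,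
      fun q hq => ⟨N, h1, ?_⟩⟩
    filter_upwards [mem_interior_iff_mem_nhds.1 hq] with q' hq' t ht
    exact h4 (mk_mem_prod ht hq')

theorem exists_small [LocallyConnectedSpace T] (t₀ : T) (Θ : T → Adm S.Y S.Y)
    (hc : Continuous fun p : T × S.Y => (Θ p.1).φ p.2)
    (hc' : Continuous fun p : T × S.Y => (Θ p.1).φ.symm p.2) (h0 : ∀ q, (Θ t₀).φ q = q)
    (hK : ∃ K, IsCompact K ∧ ∀ t q, q ∉ K → (Θ t).φ q ∉ K → d2 (Θ t).φ q = 0) :
    ∃ T' ∈ 𝓝 t₀, IsPreconnected T' ∧ S.Small Θ T' := by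
  obtain ⟨K, hK, hd⟩ := hK
  obtain ⟨r₁, h1, h1', hK1⟩ := S.subset_core hK
  have hC : IsCompact (S.core r₁) := S.e_compact r₁ h1
  obtain ⟨r₃, h3, -, hK3⟩ := S.subset_core hC
  obtain ⟨R, hR, hR1, hR3⟩ : ∃ R : ℝ, 0 < R ∧ R ≤ r₁ ∧ R ≤ r₃ :=
    ⟨min r₁ r₃, lt_min h1 h3, min_le_left _ _, min_le_right _ _⟩
  have h0' : ∀ q, (Θ t₀).φ.symm q = q := fun q => by
    conv_lhs => rw [← h0 q]
    exact (Θ t₀).φ.symm_apply_apply q
  have e1 : ∀ᶠ t in 𝓝 t₀, ∀ q ∈ S.core r₁, (Θ t).φ.symm q ∈ interior (S.core r₃) :=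
    hC.eventually_forall_of_forall_eventually
      (P := fun t q => (Θ t).φ.symm q ∈ interior (S.core r₃)) fun q hq =>
      hc'.continuousAt (x := (t₀, q)) (isOpen_interior.mem_nhds (by
        show (Θ t₀).φ.symm q ∈ _
        rw [h0']; exact hK3 hq))
  have e2 : ∀ᶠ t in 𝓝 t₀, ∀ i, ∀ w ∈ sphere (0 : ℂ) (R / 2),
      ‖S.e i ((Θ t).φ ((S.e i).symm w)) - w‖ ≤ R / 2 / 2 := by
    refine eventually_all.2 fun i => (isCompact_sphere _ _).eventually_forall_of_forall_eventually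
      (P := fun t w => ‖S.e i ((Θ t).φ ((S.e i).symm w)) - w‖ ≤ R / 2 / 2) fun w hw => ?_
    have hw' : ‖w‖ = R / 2 := by simpa using hw
    have ht : w ∈ (S.e i).target :=
      S.L7_tgt (fun h => by rw [h, norm_zero] at hw'; linarith) (by linarith)
    have c1 : ContinuousAt (fun p : T × ℂ => (p.1, (S.e i).symm p.2)) (t₀, w) :=
      continuousAt_fst.prodMk (ContinuousAt.comp ((S.e i).continuousAt_symm ht) continuousAt_snd)
    have c2 : ContinuousAt (fun p : T × ℂ => (Θ p.1).φ ((S.e i).symm p.2)) (t₀, w) :=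
      ContinuousAt.comp (f := fun p : T × ℂ => (p.1, (S.e i).symm p.2)) hc.continuousAt c1
    have c3 : ContinuousAt (fun p : T × ℂ => S.e i ((Θ p.1).φ ((S.e i).symm p.2))) (t₀, w) :=
      ContinuousAt.comp (f := fun p : T × ℂ => (Θ p.1).φ ((S.e i).symm p.2))
        ((S.e i).continuousAt (by
          show (Θ t₀).φ _ ∈ _
          rw [h0]; exact (S.e i).map_target ht)) c2
    have c4 := (c3.sub continuousAt_snd).norm
    refine (c4.eventually (p := fun y => y < R / 2 / 2) (gt_mem_nhds ?_)).mono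
      fun p hp => le_of_lt hp
    show ‖S.e i ((Θ t₀).φ _) - w‖ < _
    rw [h0, (S.e i).right_inv ht, sub_self, norm_zero]
    linarith
  obtain ⟨A, hA, e3⟩ := S.L7_disc t₀ Θ hc (S.e_compact (R / 2) (by linarith))
  obtain ⟨T', hT', hT1, hT2⟩ := locallyConnectedSpace_iff_connected_subsets.1 inferInstance t₀ _
    (inter_mem (inter_mem e1 e2) hA)
  have ht₀ : t₀ ∈ T' := mem_of_mem_nhds hT'
  have k1 : ∀ i, ∀ t ∈ T', ∀ q ∈ S.End i R, (Θ t).φ q ∈ S.End i r₁ := by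
    intro i t ht q hq
    have c : Continuous fun t => (Θ t).φ q := hc.comp (Continuous.prodMk_left q)
    have c' : IsPreconnected ((fun t => (Θ t).φ q) '' T') := hT1.image _ c.continuousOn
    have c'' : ((fun t => (Θ t).φ q) '' T' ∩ S.End i r₁).Nonempty :=
      ⟨q, ⟨t₀, ht₀, h0 q⟩, hq.1, hq.2.trans_le hR1⟩
    refine c'.subset_left_of_subset_union (S.isOpen_End i r₁)
      (isOpen_iUnion fun j => isOpen_iUnion fun _ : j ≠ i => S.isOpen_End j r₁) ?_ ?_
      c'' (mem_image_of_mem _ ht)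
    · rw [Set.disjoint_left]
      intro x hx hx'
      simp only [mem_iUnion] at hx'
      obtain ⟨j, hj, hx'⟩ := hx'
      exact hj (S.L7_eq hx'.1 hx.1)
    · rintro _ ⟨s, hs, rfl⟩
      have h5 : (Θ s).φ q ∉ S.core r₁ := fun h => by
        have h6 := (hT2 hs).1.1 _ h
        rw [(Θ s).φ.symm_apply_apply] at h6
        exact absurd (hq.2.trans_le hR3) (not_lt.2 (interior_subset h6 i hq.1))
      obtain ⟨j, hj⟩ := S.L7_not_core.1 h5
      by_cases hji : j = i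
      · exact Or.inl (hji ▸ hj)
      · exact Or.inr (mem_iUnion₂.2 ⟨j, hji, hj⟩)
  have k2 : ∀ i, ∀ t ∈ T', ∀ q ∈ S.End i (R / 2), (Θ t).φ q ∈ (S.e i).source ∧
      ‖S.e i ((Θ t).φ q) - S.e i q‖ ≤ ‖S.e i q‖ / 2 := by
    intro i t ht q hq
    refine ⟨(k1 i t ht q ⟨hq.1, by linarith [hq.2]⟩).1, S.L7_one (Θ t) i (R := R) (by linarith)
      (by linarith) (by linarith) (fun x hx => ⟨(k1 i t ht x hx).1, hd t x ?_ ?_⟩)
      ((hT2 ht).1.2 i) hq⟩
    · exact fun h => S.L7_not_core.2 ⟨i, hx.1, hx.2.trans_le hR1⟩ (interior_subset (hK1 h))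
    · exact fun h => S.L7_not_core.2 ⟨i, k1 i t ht x hx⟩ (interior_subset (hK1 h))
  refine ⟨T', hT', hT1, fun q => ?_, R / 2, by linarith, k2⟩
  by_cases hq : q ∈ S.core (R / 2)
  · obtain ⟨N, h5, h6⟩ := e3 q hq
    exact ⟨N, h5, h6.mono fun q' h7 t ht => h7 t (hT2 ht).2⟩
  · obtain ⟨i, hi⟩ := S.L7_not_core.1 hq
    have hp : 0 < ‖S.e i q‖ := norm_pos_iff.2 (S.L7_ne hi.1)
    refine ⟨_, ⟨S.e i, S.e i q, 3 / 4 * ‖S.e i q‖, S.e_hol i, fun z hz => ?_, rfl⟩, ?_⟩
    · rw [mem_ball, dist_eq_norm] at hz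
      refine S.L7_tgt (fun h => ?_) ?_
      · rw [h, zero_sub, norm_neg] at hz
        linarith
      · have := norm_le_insert' z (S.e i q)
        linarith [hi.2]
    · have h5 : ∀ᶠ q' in 𝓝 q, S.e i q' ∈ ball (S.e i q) (‖S.e i q‖ / 8) :=
        (S.e i).continuousAt hi.1 (ball_mem_nhds _ (by linarith))
      filter_upwards [h5, (S.isOpen_End i (R / 2)).mem_nhds hi] with q' h6 h7 t ht
      obtain ⟨h8, h9⟩ := k2 i t ht q' h7
      refine ⟨h8, ?_⟩
      rw [mem_ball, dist_eq_norm] at h6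
      rw [mem_preimage, mem_ball, dist_eq_norm]
      have h10 := norm_le_insert' (S.e i q') (S.e i q)
      have h11 := norm_sub_le_norm_sub_add_norm_sub (S.e i ((Θ t).φ q')) (S.e i q') (S.e i q)
      linarith

end Flat

end Pool.Agent.MP_e62289_ag

end

section

open Set Filter Topology Complex MeasureTheory Metric
open scoped Manifold ContDiff ComplexConjugate NNReal ENNReal

namespace Pool.Agent.MP_e62289_ag

namespace Flat

variable {n : ℕ} (S : Flat n) {T : Type} [TopologicalSpace T]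

theorem l8a_preconn {N : Set S.Y} (hN : S.IsDisc N) : IsPreconnected N := by
  obtain ⟨φ, c, ρ, -, hb, rfl⟩ := hN
  have e : φ.source ∩ φ ⁻¹' ball c ρ = φ.symm '' ball c ρ := by
    ext x
    constructor
    · intro hx
      exact ⟨φ x, hx.2, φ.left_inv hx.1⟩
    · rintro ⟨z, hz, rfl⟩
      refine ⟨φ.map_target (hb hz), ?_⟩
      rw [mem_preimage, φ.right_inv (hb hz)]
      exact hz
  rw [e]
  exact (convex_ball c ρ).isPreconnected.image _ (φ.continuousOn_symm.mono hb)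

theorem l8a_sign {P : Set S.Y} (hP : IsPreconnected P) {ρ ρ' : S.Y → ℂ}
    (hρ : ∀ q ∈ P, HolAt ρ q ∧ ρ q ^ 2 = S.f q) (hρ' : ∀ q ∈ P, HolAt ρ' q ∧ ρ' q ^ 2 = S.f q) :
    ∃ ε : ℂ, ε ≠ 0 ∧ ∀ q ∈ P, ρ q = ε * ρ' q := by
  have h := hP.eq_or_eq_neg_of_sq_eq (f := ρ) (g := ρ')
    (fun q hq => (hρ q hq).1.continuousAt.continuousWithinAt)
    (fun q hq => (hρ' q hq).1.continuousAt.continuousWithinAt)
    (fun q hq => by simp only [Pi.pow_apply, (hρ q hq).2, (hρ' q hq).2])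
    (fun {q} hq h0 => S.f_ne q (by rw [← (hρ' q hq).2, h0]; simp))
  rcases h with h | h
  · exact ⟨1, one_ne_zero, fun q hq => by rw [h hq, one_mul]⟩
  · exact ⟨-1, by simp, fun q hq => by rw [h hq]; simp⟩

/-- a connected set on which two local roots and primitives are defined -/
theorem consist {N N' P : Set S.Y} (hN : IsOpen N) (hN' : IsOpen N') (hP : IsPreconnected P)
    (h1 : P ⊆ N) (h2 : P ⊆ N') {A ρ ρ' Ξ Ξ' : S.Y → ℂ}
    (hρ : ∀ q ∈ N, HolAt ρ q ∧ ρ q ^ 2 = S.f q) (hρ' : ∀ q ∈ N', HolAt ρ' q ∧ ρ' q ^ 2 = S.f q)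
    (hΞ : ∀ q ∈ N, HolAt Ξ q ∧ d1 Ξ q = A q * ρ q)
    (hΞ' : ∀ q ∈ N', HolAt Ξ' q ∧ d1 Ξ' q = A q * ρ' q) {x y : S.Y} (hx : x ∈ P) (hy : y ∈ P) :
    ρ y / ρ x = ρ' y / ρ' x ∧ (Ξ y - Ξ x) / ρ x = (Ξ' y - Ξ' x) / ρ' x := by
  have hne : ∀ q ∈ N', ρ' q ≠ 0 := fun q hq h0 =>
    S.f_ne q (by rw [← (hρ' q hq).2, h0]; simp)
  obtain ⟨ε, hε, he⟩ := S.l8a_sign hP (fun q hq => hρ q (h1 hq)) (fun q hq => hρ' q (h2 hq))
  have key : Ξ x - ε * Ξ' x = Ξ y - ε * Ξ' y := by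
    refine hP.induction₂' (fun a b => Ξ a - ε * Ξ' a = Ξ b - ε * Ξ' b) ?_
      (fun _ _ _ _ _ _ h h' => h.trans h') hx hy
    intro p hp
    obtain ⟨D, hD, hpD, hDs⟩ := S.exists_disc
      (inter_mem (hN.mem_nhds (h1 hp)) (hN'.mem_nhds (h2 hp)))
    obtain ⟨δ, -, hd⟩ := S.l8a_sign (S.l8a_preconn hD) (fun q hq => hρ q (hDs hq).1)
      (fun q hq => hρ' q (hDs hq).2)
    have hδ : δ = ε := mul_right_cancel₀ (hne p (h2 hp)) ((hd p hpD).symm.trans (he p hp))
    subst hδ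
    obtain ⟨c, hc⟩ := S.l1c_const (u := fun z => Ξ z - δ * Ξ' z) hD (fun q hq => by
      have a := hΞ q (hDs hq).1
      have b := hΞ' q (hDs hq).2
      have hm : HolAt (fun z => δ * Ξ' z) q ∧ d1 (fun z => δ * Ξ' z) q = δ * d1 Ξ' q :=
        S.l1c_comp (g := fun w => δ * w) (by simpa using (hasDerivAt_id (Ξ' q)).const_mul δ) b.1
      have ra := d2_of_hol a.1
      have rb := d2_of_hol hm.1
      refine ⟨hol_of_d2 (ra.1.sub rb.1) ?_, ?_⟩
      · rw [(d_sub ra.1 rb.1).2, ra.2, rb.2, sub_zero]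
      · rw [(d_sub ra.1 rb.1).1, hm.2, a.2, b.2, hd q hq]
        ring)
    refine mem_nhdsWithin_of_mem_nhds ?_
    filter_upwards [(IsDisc.isOpen S hD).mem_nhds hpD] with z hz
    rw [hc p hpD, hc z hz]
    exact ⟨rfl, rfl⟩
  have hx0 := hne x (h2 hx)
  rw [he x hx, he y hy]
  refine ⟨by field_simp, ?_⟩
  have : Ξ y - Ξ x = ε * (Ξ' y - Ξ' x) := by linear_combination -key
  rw [this]
  field_simp

end Flat

end Pool.Agent.MP_e62289_ag

end

section

open Set Filter Topology Complex MeasureTheory Metric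
open scoped Manifold ContDiff ComplexConjugate NNReal ENNReal

namespace Pool.Agent.MP_e62289_ag

namespace Flat

variable {n : ℕ} (S : Flat n) {T : Type} [TopologicalSpace T]

theorem L8b_mul {u v : S.Y → ℂ} {q : S.Y} (hu : CkAt 2 u q) (hv : CkAt 2 v q) :
    CkAt 2 (fun x => u x * v x) q :=
  (contDiff_mul (𝕜 := ℝ) (𝔸 := ℂ) (n := 2)).contDiffAt.comp_contMDiffAt (hu.prodMk_space hv)

theorem L8b_sub {u v : S.Y → ℂ} {q : S.Y} (hu : CkAt 2 u q) (hv : CkAt 2 v q) :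
    CkAt 2 (fun x => u x - v x) q := hu.sub hv

theorem L8b_inv {u : S.Y → ℂ} {q : S.Y} (hu : CkAt 2 u q) (h : u q ≠ 0) :
    CkAt 2 (fun x => (u x)⁻¹) q :=
  (contDiffAt_inv ℝ h).comp_contMDiffAt hu

theorem L8b_ne {N : Set S.Y} {ρ : S.Y → ℂ} (hρ : ∀ q ∈ N, HolAt ρ q ∧ ρ q ^ 2 = S.f q)
    {q : S.Y} (hq : q ∈ N) : ρ q ≠ 0 := by
  intro h
  have := (hρ q hq).2
  rw [h] at this
  exact S.f_ne q (by simpa using this.symm)

theorem L8b_ck {N : Set S.Y} (hN : IsOpen N) {u : S.Y → ℂ} (hu : ∀ q ∈ N, HolAt u q)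
    {q : S.Y} (hq : q ∈ N) : CkAt 2 u q :=
  ckAt_of_hol (Filter.eventually_of_mem (hN.mem_nhds hq) hu) 2

theorem L8b_local {N : Set S.Y} (hN : IsOpen N) {A ρ Ξ : S.Y → ℂ}
    (hρ : ∀ q ∈ N, HolAt ρ q ∧ ρ q ^ 2 = S.f q) (hΞ : ∀ q ∈ N, HolAt Ξ q ∧ d1 Ξ q = A q * ρ q)
    (G : Adm S.Y S.Y) {q : S.Y} (hq : q ∈ N) (hG : G.φ q ∈ N) :
    CkAt 2 (fun x => ρ (G.φ x) / ρ x) q ∧ CkAt 2 (fun x => (Ξ (G.φ x) - Ξ x) / ρ x) q ∧
    S.D1 (fun x => (Ξ (G.φ x) - Ξ x) / ρ x) q =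
      ρ (G.φ q) / ρ q * (A (G.φ q) * d1 G.φ q) - A q ∧
    d2 (fun x => (Ξ (G.φ x) - Ξ x) / ρ x) q = ρ (G.φ q) / ρ q * (A (G.φ q) * d2 G.φ q) := by
  have hne := S.L8b_ne hρ hq
  have c1 : CkAt 2 ρ q := S.L8b_ck hN (fun x hx => (hρ x hx).1) hq
  have c2 : CkAt 2 Ξ q := S.L8b_ck hN (fun x hx => (hΞ x hx).1) hq
  have c3 : CkAt 2 (fun x => ρ (G.φ x)) q :=
    (S.L8b_ck hN (fun x hx => (hρ x hx).1) hG).comp q G.φ.contMDiff.contMDiffAt
  have c4 : CkAt 2 (fun x => Ξ (G.φ x)) q :=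
    (S.L8b_ck hN (fun x hx => (hΞ x hx).1) hG).comp q G.φ.contMDiff.contMDiffAt
  have c5 := S.L8b_inv c1 hne
  have c6 := S.L8b_sub c4 c2
  have r1 : RDiffAt ρ q := c1.mdifferentiableAt (by simp)
  have r2 : RDiffAt Ξ q := c2.mdifferentiableAt (by simp)
  have r4 : RDiffAt (fun x => Ξ (G.φ x)) q := c4.mdifferentiableAt (by simp)
  have r6 : RDiffAt (fun x => Ξ (G.φ x) - Ξ x) q := c6.mdifferentiableAt (by simp)
  obtain ⟨r5, e1, e2⟩ := d_hol_comp (u := ρ) (q := q) (hasDerivAt_inv hne) r1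
  obtain ⟨m1, m2⟩ := d_mul r6 r5
  obtain ⟨s1, s2⟩ := d_sub r4 r2
  obtain ⟨g1, g2⟩ := d_comp (d2_of_hol (hΞ _ hG).1).1 (G.md q)
  have g1' : d1 (fun x => Ξ (G.φ x)) q = A (G.φ q) * ρ (G.φ q) * d1 G.φ q := by
    rw [(d2_of_hol (hΞ _ hG).1).2, (hΞ _ hG).2, zero_mul, add_zero] at g1
    exact g1
  have g2' : d2 (fun x => Ξ (G.φ x)) q = A (G.φ q) * ρ (G.φ q) * d2 G.φ q := by
    rw [(d2_of_hol (hΞ _ hG).1).2, (hΞ _ hG).2, zero_mul, add_zero] at g2
    exact g2
  have hf : d1 S.f q = d1 ρ q * ρ q + ρ q * d1 ρ q := by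
    rw [← (d_mul r1 r1).1]
    refine (d_congr ?_).1
    filter_upwards [hN.mem_nhds hq] with x hx
    rw [← (hρ x hx).2, sq]
  simp only [div_eq_mul_inv]
  refine ⟨S.L8b_mul c3 c5, S.L8b_mul c6 c5, ?_, ?_⟩
  · rw [D1, m1, e1, s1, g1', (hΞ q hq).2, hf, ← (hρ q hq).2]
    field_simp
    ring
  · rw [m2, e2, s2, g2', (d2_of_hol (hΞ q hq).1).2, (d2_of_hol (hρ q hq).1).2]
    ring

theorem L8b_small (i : Fin n) {A : S.Y → ℂ} (hm : MemLp A 2 S.lamf) {ε : ℝ}
    (hε : 0 < ε) : ∃ r : ℝ, 0 < r ∧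
      ∫⁻ q in S.End i r, ‖S.f q‖ₑ * ‖A q‖ₑ ^ 2 ∂S.lam ≤ ENNReal.ofReal ε := by
  have hfin : ∫⁻ q, ‖S.f q‖ₑ * ‖A q‖ₑ ^ 2 ∂S.lam ≠ ⊤ := by
    rw [← S.lintegral_lamf]
    have := lintegral_rpow_enorm_lt_top_of_eLpNorm_lt_top two_ne_zero ENNReal.ofNat_ne_top hm.2
    simpa using this.ne
  set ν : Measure S.Y := S.lam.withDensity fun q => ‖S.f q‖ₑ * ‖A q‖ₑ ^ 2 with hν
  have hap : ∀ r, ν (S.End i r) = ∫⁻ q in S.End i r, ‖S.f q‖ₑ * ‖A q‖ₑ ^ 2 ∂S.lam := fun r =>
    withDensity_apply _ (S.isOpen_End i r).measurableSet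
  have : IsFiniteMeasure ν := isFiniteMeasure_withDensity hfin
  have ht := tendsto_measure_iInter_atTop (μ := ν) (s := fun m : ℕ => S.End i (1 / ((m : ℝ) + 1)))
    (fun m => (S.isOpen_End i _).measurableSet.nullMeasurableSet)
    (fun a b hab q hq => ⟨hq.1, hq.2.trans_le (Nat.one_div_le_one_div hab)⟩)
    ⟨0, measure_ne_top _ _⟩
  have he : ⋂ m : ℕ, S.End i (1 / ((m : ℝ) + 1)) = ∅ := by
    refine eq_empty_of_forall_notMem fun q hq => ?_
    rw [mem_iInter] at hq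
    have h0 : S.e i q ≠ 0 := by
      have := (S.e i).map_source (hq 0).1
      rw [S.e_target] at this
      exact this.2
    obtain ⟨m, hm⟩ := exists_nat_one_div_lt (norm_pos_iff.2 h0)
    exact lt_asymm hm (hq m).2
  rw [he, measure_empty] at ht
  obtain ⟨m, hm⟩ := (ht.eventually (ge_mem_nhds (ENNReal.ofReal_pos.2 hε))).exists
  exact ⟨1 / ((m : ℝ) + 1), Nat.one_div_pos_of_nat, (hap _).symm.trans_le hm⟩

theorem L8b_end (i : Fin n) {r ε : ℝ} (hr : r ≤ 1) (hε : 0 ≤ ε) {A ρ Ξ : S.Y → ℂ}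
    (hI : ∫⁻ q in S.End i r, ‖S.f q‖ₑ * ‖A q‖ₑ ^ 2 ∂S.lam ≤ ENNReal.ofReal (ε ^ 2))
    {x y : S.Y} (hx : x ∈ S.End i (r / 2)) (hy : y ∈ (S.e i).source)
    (hxy : ‖S.e i y - S.e i x‖ ≤ ‖S.e i x‖ / 2)
    (hρ : ∀ q ∈ (S.e i).source ∩ S.e i ⁻¹' ball (S.e i x) (3 / 4 * ‖S.e i x‖),
      HolAt ρ q ∧ ρ q ^ 2 = S.f q)
    (hΞ : ∀ q ∈ (S.e i).source ∩ S.e i ⁻¹' ball (S.e i x) (3 / 4 * ‖S.e i x‖),
      HolAt Ξ q ∧ d1 Ξ q = A q * ρ q) : ‖Ξ y - Ξ x‖ ≤ 2 * ε := by
  set w := S.e i x with hw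
  have hw0 : 0 < ‖w‖ := by
    have := (S.e i).map_source hx.1
    rw [S.e_target] at this
    exact norm_pos_iff.2 this.2
  have hwr : ‖w‖ < r / 2 := hx.2
  have hb : ∀ z ∈ ball w (3 / 4 * ‖w‖), ‖z‖ < r ∧ z ≠ 0 := by
    intro z hz
    rw [mem_ball_iff_norm] at hz
    constructor
    · have := norm_add_le w (z - w)
      rw [add_sub_cancel] at this
      linarith
    · rintro rfl
      rw [zero_sub, norm_neg] at hz
      linarith
  have hb' : ball w (3 / 4 * ‖w‖) ⊆ ball 0 1 \ {0} := fun z hz =>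
    ⟨mem_ball_zero_iff.2 ((hb z hz).1.trans_le hr), (hb z hz).2⟩
  have hd : ∀ q ∈ (S.e i).source, S.e i q ∈ ball w (3 / 4 * ‖w‖) →
      HasDerivAt (Ξ ∘ (S.e i).symm) (A q * ρ q / d1 (S.e i) q) (S.e i q) := by
    intro q hq hq'
    rw [← (hΞ q ⟨hq, hq'⟩).2]
    exact hasDerivAt_coord (S.e_hol i) hq (hΞ q ⟨hq, hq'⟩).1
  have hD : DifferentiableOn ℂ (Ξ ∘ (S.e i).symm) (ball w (3 / 4 * ‖w‖)) := by
    intro z hz
    have hz' : z ∈ (S.e i).target := by rw [S.e_target]; exact hb' hz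
    have := hd _ ((S.e i).map_target hz') (by rw [(S.e i).right_inv hz']; exact hz)
    rw [(S.e i).right_inv hz'] at this
    exact this.differentiableAt.differentiableWithinAt
  have hD' := hD.deriv isOpen_ball
  have hbd : ∀ z ∈ closedBall w (‖w‖ / 2), ‖deriv (Ξ ∘ (S.e i).symm) z‖ ≤ 4 * ε / ‖w‖ := by
    intro z hz
    have hs : ball z (‖w‖ / 4) ⊆ ball w (3 / 4 * ‖w‖) :=
      ball_subset_ball' (by rw [mem_closedBall] at hz; linarith)
    have h1 := mean_l2 (by positivity) (hD'.mono hs)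
    rw [← S.lintegral_end i measurableSet_ball (hs.trans hb')] at h1
    have hO : IsOpen ((S.e i).source ∩ S.e i ⁻¹' ball z (‖w‖ / 4)) :=
      (S.e i).isOpen_inter_preimage isOpen_ball
    have h2 : ∫⁻ q in (S.e i).source ∩ S.e i ⁻¹' ball z (‖w‖ / 4),
        ‖d1 (S.e i) q‖ₑ ^ 2 * ‖deriv (Ξ ∘ (S.e i).symm) (S.e i q)‖ₑ ^ 2 ∂S.lam =
        ∫⁻ q in (S.e i).source ∩ S.e i ⁻¹' ball z (‖w‖ / 4), ‖S.f q‖ₑ * ‖A q‖ₑ ^ 2 ∂S.lam := by
      refine setLIntegral_congr_fun hO.measurableSet fun q hq => ?_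
      have h3 := ((coord_hol (S.e_hol i)).1 q hq.1).2
      rw [(hd q hq.1 (hs hq.2)).deriv, ← (hρ q ⟨hq.1, hs hq.2⟩).2, ← mul_pow, ← enorm_mul,
        mul_div_cancel₀ _ h3, enorm_mul, enorm_pow, mul_pow, mul_comm]
    have h4 : (S.e i).source ∩ S.e i ⁻¹' ball z (‖w‖ / 4) ⊆ S.End i r := fun q hq =>
      ⟨hq.1, (hb _ (hs hq.2)).1⟩
    have h5 := h1.trans (h2.trans_le ((lintegral_mono_set h4).trans hI))
    rw [← ofReal_norm, ← ENNReal.ofReal_pow (norm_nonneg _),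
      ← ENNReal.ofReal_mul (by positivity), ENNReal.ofReal_le_ofReal_iff (by positivity)] at h5
    rw [le_div_iff₀ hw0]
    refine le_of_sq_le_sq (h := ?_) (by positivity)
    have h6 := Real.pi_gt_three
    have h7 : 0 ≤ (‖deriv (Ξ ∘ (S.e i).symm) z‖ * ‖w‖) ^ 2 := by positivity
    nlinarith
  have hcb : closedBall w (‖w‖ / 2) ⊆ ball w (3 / 4 * ‖w‖) :=
    closedBall_subset_ball (by linarith)
  have key := (convex_closedBall w (‖w‖ / 2)).norm_image_sub_le_of_norm_deriv_le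
    (fun z hz => hD.differentiableAt (isOpen_ball.mem_nhds (hcb hz))) hbd
    (mem_closedBall_self (by positivity)) (mem_closedBall_iff_norm.2 hxy)
  have e1 : (Ξ ∘ (S.e i).symm) (S.e i y) = Ξ y := congrArg Ξ ((S.e i).left_inv hy)
  have e2 : (Ξ ∘ (S.e i).symm) w = Ξ x := congrArg Ξ ((S.e i).left_inv hx.1)
  rw [e1, e2] at key
  refine key.trans ((mul_le_mul_of_nonneg_left hxy (by positivity)).trans_eq ?_)
  field_simp
  ring

/-- the pull back of a holomorphic form by a small map differs from it by an exact form -/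
theorem exists_prim {Θ : T → Adm S.Y S.Y} {T' : Set T} (hT : IsPreconnected T') {t₀ t : T}
    (ht₀ : t₀ ∈ T') (ht : t ∈ T') (hc : Continuous fun p : T × S.Y => (Θ p.1).φ p.2)
    (h0 : ∀ q, (Θ t₀).φ q = q) (hs : S.Small Θ T') :
    ∃ k : S.Y → ℂ, Ck 2 k ∧ (∀ q, k q ^ 2 * S.f q = S.f ((Θ t).φ q)) ∧
      ∀ A : S.Y → ℂ, Hol A → MemLp A 2 S.lamf → ∃ κ : S.Y → ℂ, Ck 2 κ ∧
        (∀ q, S.D1 κ q = k q * (A ((Θ t).φ q) * d1 (Θ t).φ q) - A q ∧
          d2 κ q = k q * (A ((Θ t).φ q) * d2 (Θ t).φ q)) ∧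
        ∀ i, Tendsto (fun q => ‖κ q‖ ^ 2 * ‖S.f q‖) (S.endF i) (𝓝 0) := by
  obtain ⟨hs1, r₀, hr₀, hs2⟩ := hs
  choose N hN hNe using hs1
  choose ρ hρ using fun q => IsDisc.sqrt S (hN q)
  have hO := fun q => IsDisc.isOpen S (hN q)
  set P : S.Y → Set S.Y := fun q => (fun s => (Θ s).φ q) '' T' with hP
  have hPc : ∀ q, IsPreconnected (P q) := fun q =>
    hT.image _ (hc.comp (Continuous.prodMk_left q)).continuousOn
  have hP0 : ∀ q, q ∈ P q := fun q => ⟨t₀, ht₀, h0 q⟩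
  have hP1 : ∀ q, (Θ t).φ q ∈ P q := fun q => ⟨t, ht, rfl⟩
  have hPN : ∀ q, ∀ᶠ x in 𝓝 q, P x ⊆ N q := fun q =>
    (hNe q).mono fun x hx => by
      rintro _ ⟨s, hs, rfl⟩
      exact hx s hs
  have hPs : ∀ q, P q ⊆ N q := fun q => (hPN q).self_of_nhds
  have hz : ∀ q, ∀ x ∈ N q, HolAt (fun _ : S.Y => (0 : ℂ)) x ∧
      d1 (fun _ : S.Y => (0 : ℂ)) x = (fun _ : S.Y => (0 : ℂ)) x * ρ q x := fun q x _ =>
    ⟨mdifferentiableAt_const, by rw [(d_const 0 x).1, zero_mul]⟩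
  refine ⟨fun q => ρ q ((Θ t).φ q) / ρ q q, fun q => ?_, fun q => ?_, fun A hA hm => ?_⟩
  · refine (S.L8b_local (hO q) (hρ q) (hz q) (Θ t) (hPs q (hP0 q))
      (hPs q (hP1 q))).1.congr_of_eventuallyEq ?_
    filter_upwards [hPN q] with x hx
    exact (S.consist (hO x) (hO q) (hPc x) (hPs x) hx (hρ x) (hρ q) (hz x) (hz q) (hP0 x)
      (hP1 x)).1
  · have h1 := S.L8b_ne (hρ q) (hPs q (hP0 q))
    rw [← (hρ q q (hPs q (hP0 q))).2, ← (hρ q _ (hPs q (hP1 q))).2]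
    field_simp
  choose Ξ hΞ using fun q => IsDisc.prim S (u := fun x => A x * ρ q x) (hN q)
    fun x hx => (hA x).mul (hρ q x hx).1
  have hev : ∀ q, (fun x => (Ξ x ((Θ t).φ x) - Ξ x x) / ρ x x) =ᶠ[𝓝 q]
      fun x => (Ξ q ((Θ t).φ x) - Ξ q x) / ρ q x := fun q => by
    filter_upwards [hPN q] with x hx
    exact (S.consist (hO x) (hO q) (hPc x) (hPs x) hx (hρ x) (hρ q) (hΞ x) (hΞ q) (hP0 x)
      (hP1 x)).2
  have hl := fun q => (S.L8b_local (hO q) (hρ q) (hΞ q) (Θ t) (hPs q (hP0 q)) (hPs q (hP1 q))).2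
  refine ⟨fun x => (Ξ x ((Θ t).φ x) - Ξ x x) / ρ x x,
    fun q => (hl q).1.congr_of_eventuallyEq (hev q), fun q => ⟨?_, ?_⟩, fun i => ?_⟩
  · rw [← (hl q).2.1, D1, D1, (d_congr (hev q)).1]
  · rw [← (hl q).2.2, (d_congr (hev q)).2]
  rw [Metric.tendsto_nhds]
  intro ε hε
  obtain ⟨r, hr, hI⟩ := S.L8b_small i hm (ε := (√ε / 4) ^ 2) (by positivity)
  have hI' : ∫⁻ q in S.End i (min r 1), ‖S.f q‖ₑ * ‖A q‖ₑ ^ 2 ∂S.lam ≤
      ENNReal.ofReal ((√ε / 4) ^ 2) :=
    (lintegral_mono_set (s := S.End i (min r 1)) (t := S.End i r)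
      fun q hq => ⟨hq.1, hq.2.trans_le (min_le_left _ _)⟩).trans hI
  refine (S.hasBasis_endF i).eventually_iff.2 ⟨min r₀ (min r 1 / 2), by positivity,
    fun q hq => ?_⟩
  have hq0 : q ∈ S.End i r₀ := ⟨hq.1, hq.2.trans_le (min_le_left _ _)⟩
  have hq1 : q ∈ S.End i (min r 1 / 2) := ⟨hq.1, hq.2.trans_le (min_le_right _ _)⟩
  have hw0 : 0 < ‖S.e i q‖ := by
    have := (S.e i).map_source hq.1
    rw [S.e_target] at this
    exact norm_pos_iff.2 this.2
  have hM : S.IsDisc ((S.e i).source ∩ S.e i ⁻¹' ball (S.e i q) (3 / 4 * ‖S.e i q‖)) := by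
    refine ⟨S.e i, _, _, S.e_hol i, fun z hz => ?_, rfl⟩
    rw [S.e_target]
    rw [mem_ball_iff_norm] at hz
    refine ⟨mem_ball_zero_iff.2 ?_, ?_⟩
    · have := norm_add_le (S.e i q) (z - S.e i q)
      rw [add_sub_cancel] at this
      have h2 := hq1.2
      have h3 := min_le_right r 1
      linarith
    · rintro rfl
      rw [zero_sub, norm_neg] at hz
      linarith
  obtain ⟨ρ', hρ'⟩ := IsDisc.sqrt S hM
  obtain ⟨Ξ', hΞ'⟩ := IsDisc.prim S (u := fun x => A x * ρ' x) hM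
    fun x hx => (hA x).mul (hρ' x hx).1
  have hPM : P q ⊆ (S.e i).source ∩ S.e i ⁻¹' ball (S.e i q) (3 / 4 * ‖S.e i q‖) := by
    rintro _ ⟨s, hs, rfl⟩
    refine ⟨(hs2 i s hs q hq0).1, mem_ball_iff_norm.2 ((hs2 i s hs q hq0).2.trans_lt ?_)⟩
    linarith
  have h1 := (S.consist (hO q) (IsDisc.isOpen S hM) (hPc q) (hPs q) hPM (hρ q) hρ' (hΞ q) hΞ'
    (hP0 q) (hP1 q)).2
  have h2 := S.L8b_end i (min_le_right r 1) (by positivity) hI' hq1 (hs2 i t ht q hq0).1
    (hs2 i t ht q hq0).2 hρ' hΞ'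
  have h3 := norm_pos_iff.2 (S.L8b_ne hρ' (hPM (hP0 q)))
  beta_reduce
  rw [h1, ← (hρ' q (hPM (hP0 q))).2, norm_div, norm_pow, div_pow,
    div_mul_cancel₀ _ (by positivity), dist_zero_right, norm_pow, norm_norm]
  have h4 := pow_le_pow_left₀ (norm_nonneg _) h2 2
  have h5 := Real.sq_sqrt hε.le
  nlinarith

end Flat

end Pool.Agent.MP_e62289_ag

end

section



end

section

open Set Filter Topology Complex MeasureTheory Metric
open scoped Manifold ContDiff ComplexConjugate NNReal ENNReal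

namespace Pool.Agent.MP_e62289_ag

/-- the charted space with given preferred charts -/
@[reducible] def chartedOf {Y : Type} [TopologicalSpace Y] (φ : Y → OpenPartialHomeomorph Y ℂ)
    (hm : ∀ q, q ∈ (φ q).source) : ChartedSpace ℂ Y where
  atlas := range φ
  chartAt := φ
  mem_chart_source := hm
  chart_mem_atlas := mem_range_self

theorem x3a_trans {Y : Type} [TopologicalSpace Y] (φ : Y → OpenPartialHomeomorph Y ℂ)
    (hf : ∀ x y : Y, ∀ q ∈ (φ x).source ∩ (φ y).source, ∀ᶠ q' in 𝓝 q,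
      φ x q' - φ y q' = φ x q - φ y q) (x y : Y) {z : ℂ}
    (hz : z ∈ ((φ x).symm ≫ₕ φ y).source) :
    ∃ c : ℂ, ((φ x).symm ≫ₕ φ y) =ᶠ[𝓝 z] fun w => w + c := by
  have h1 : z ∈ (φ x).target := hz.1
  have h2 : (φ x).symm z ∈ (φ y).source := hz.2
  have h3 := ((φ x).continuousAt_symm h1).eventually
    (hf x y ((φ x).symm z) ⟨(φ x).map_target h1, h2⟩)
  refine ⟨φ y ((φ x).symm z) - z, ?_⟩
  filter_upwards [h3, (φ x).open_target.mem_nhds h1] with w hw hw'
  rw [(φ x).right_inv hw', (φ x).right_inv h1] at hw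
  change φ y ((φ x).symm w) = _
  linear_combination -hw

theorem flat_manifold {Y : Type} [TopologicalSpace Y] (φ : Y → OpenPartialHomeomorph Y ℂ)
    (hm : ∀ q, q ∈ (φ q).source)
    (hf : ∀ x y : Y, ∀ q ∈ (φ x).source ∩ (φ y).source, ∀ᶠ q' in 𝓝 q,
      φ x q' - φ y q' = φ x q - φ y q) :
    @IsManifold ℂ _ ℂ _ _ ℂ _ 𝓘(ℂ, ℂ) ω Y _ (chartedOf φ hm) ∧
    @IsManifold ℝ _ ℂ _ _ ℂ _ 𝓘(ℝ, ℂ) ω Y _ (chartedOf φ hm) := by
  let := chartedOf φ hm
  constructor
  · refine isManifold_of_contDiffOn _ _ _ ?_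
    rintro _ _ ⟨x, rfl⟩ ⟨y, rfl⟩
    simp only [modelWithCornersSelf_coe, modelWithCornersSelf_coe_symm, Function.id_comp,
      Function.comp_id, preimage_id_eq, id_eq, range_id, inter_univ]
    intro z hz
    obtain ⟨c, hc⟩ := x3a_trans φ hf x y hz
    exact ((contDiff_id.add contDiff_const).contDiffAt.congr_of_eventuallyEq hc).contDiffWithinAt
  · refine isManifold_of_contDiffOn _ _ _ ?_
    rintro _ _ ⟨x, rfl⟩ ⟨y, rfl⟩
    simp only [modelWithCornersSelf_coe, modelWithCornersSelf_coe_symm, Function.id_comp,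
      Function.comp_id, preimage_id_eq, id_eq, range_id, inter_univ]
    intro z hz
    obtain ⟨c, hc⟩ := x3a_trans φ hf x y hz
    exact ((contDiff_id.add contDiff_const).contDiffAt.congr_of_eventuallyEq hc).contDiffWithinAt

section Area

variable {Y : Type} [TopologicalSpace Y] [MeasurableSpace Y] [BorelSpace Y]

/-- Lebesgue measure read in a chart -/
noncomputable def x3aAt (ψ : OpenPartialHomeomorph Y ℂ) : Measure Y :=
  Measure.map ψ.symm (volume.restrict ψ.target)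

theorem x3aAt_apply (ψ : OpenPartialHomeomorph Y ℂ) {A : Set Y} (hA : MeasurableSet A)
    (h : A ⊆ ψ.source) : x3aAt ψ A = volume (ψ '' A) := by
  have hm := ψ.open_target.measurableSet
  rw [x3aAt, Measure.map_apply_of_aemeasurable (ψ.continuousOn_symm.aemeasurable hm) hA,
    Measure.restrict_apply' hm, ψ.image_eq_target_inter_inv_preimage h, inter_comm]

theorem x3a_volume [SecondCountableTopology Y] (ψ χ : OpenPartialHomeomorph Y ℂ)
    (hf : ∀ q ∈ ψ.source ∩ χ.source, ∀ᶠ q' in 𝓝 q, ψ q' - χ q' = ψ q - χ q)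
    {A : Set Y} (hA : MeasurableSet A) (h1 : A ⊆ ψ.source) (h2 : A ⊆ χ.source) :
    volume (ψ '' A) = volume (χ '' A) := by
  rw [← x3aAt_apply ψ hA h1, ← x3aAt_apply χ hA h2]
  have hN : ∀ q ∈ A, ∃ N, IsOpen N ∧ q ∈ N ∧ N ⊆ ψ.source ∧ N ⊆ χ.source ∧
      ∀ q' ∈ N, ψ q' = χ q' + (ψ q - χ q) := by
    intro q hq
    have h := (ψ.open_source.eventually_mem (h1 hq)).and
      ((χ.open_source.eventually_mem (h2 hq)).and (hf q ⟨h1 hq, h2 hq⟩))
    obtain ⟨N, hN, ho, hqN⟩ := eventually_nhds_iff.1 h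
    refine ⟨N, ho, hqN, fun q' h' => (hN q' h').1, fun q' h' => (hN q' h').2.1, fun q' h' => ?_⟩
    rw [← (hN q' h').2.2]
    ring
  choose! N hNo hNq hN1 hN2 hN3 using hN
  obtain ⟨T, hTA, hTc, hT⟩ := TopologicalSpace.isOpen_biUnion_countable A N hNo
  have hAT : A ⊆ ⋃ q ∈ T, N q := hT ▸ fun q hq => mem_biUnion hq (hNq q hq)
  have key : (x3aAt ψ).restrict (⋃ q ∈ T, N q) = (x3aAt χ).restrict (⋃ q ∈ T, N q) := by
    refine (Measure.restrict_biUnion_congr hTc).2 fun q hq => ?_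
    have hq' := hTA hq
    refine (Measure.restrict_congr_meas (hNo q hq').measurableSet).2 fun t ht htm => ?_
    rw [x3aAt_apply ψ htm (ht.trans (hN1 q hq')), x3aAt_apply χ htm (ht.trans (hN2 q hq'))]
    have : ψ '' t = (fun z => z + (ψ q - χ q)) '' (χ '' t) := by
      rw [image_image]
      exact image_congr fun q' h' => hN3 q hq' q' (ht h')
    rw [this, image_add_right, measure_preimage_add_right]
  have := congrArg (fun m : Measure Y => m A) key
  simpa only [Measure.restrict_apply hA, inter_eq_left.2 hAT] using this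

end Area

theorem flat_area {Y : Type} [TopologicalSpace Y] [SecondCountableTopology Y] [MeasurableSpace Y]
    [BorelSpace Y] (φ : Y → OpenPartialHomeomorph Y ℂ) (hm : ∀ q, q ∈ (φ q).source)
    (hf : ∀ x y : Y, ∀ q ∈ (φ x).source ∩ (φ y).source, ∀ᶠ q' in 𝓝 q,
      φ x q' - φ y q' = φ x q - φ y q) :
    ∃ lam : Measure Y, ∀ (x : Y) (A : Set Y), MeasurableSet A → A ⊆ (φ x).source →
      lam A = volume (φ x '' A) := by
  obtain ⟨T, -, hTc, hT⟩ := TopologicalSpace.isOpen_biUnion_countable univ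
    (fun x => (φ x).source) fun x _ => (φ x).open_source
  have hcov : ∀ x, (φ x).source ⊆ ⋃ q ∈ T, (φ q).source := by
    intro x
    rw [hT]
    exact subset_biUnion_of_mem (u := fun x => (φ x).source) (mem_univ x)
  rcases T.eq_empty_or_nonempty with rfl | hne
  · refine ⟨0, fun x => ?_⟩
    simpa using hcov x (hm x)
  obtain ⟨f, rfl⟩ := hTc.exists_eq_range hne
  let B : ℕ → Set Y := disjointed fun n => (φ (f n)).source
  have hBm : ∀ n, MeasurableSet (B n) :=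
    MeasurableSet.disjointed fun n => (φ (f n)).open_source.measurableSet
  have hBs : ∀ n, B n ⊆ (φ (f n)).source := disjointed_subset _
  refine ⟨Measure.sum fun n => (x3aAt (φ (f n))).restrict (B n), fun x A hA hAx => ?_⟩
  rw [Measure.sum_apply _ hA, ← x3aAt_apply (φ x) hA hAx]
  have hU : A = ⋃ n, A ∩ B n := by
    rw [← inter_iUnion, iUnion_disjointed]
    refine (inter_eq_left.2 ?_).symm
    simpa only [biUnion_range] using hAx.trans (hcov x)
  conv_rhs => rw [hU]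
  rw [measure_iUnion (fun i j hij => (disjoint_disjointed _ hij).mono inter_subset_right
    inter_subset_right) fun n => hA.inter (hBm n)]
  refine tsum_congr fun n => ?_
  have hm := hA.inter (hBm n)
  have s1 : A ∩ B n ⊆ (φ (f n)).source := inter_subset_right.trans (hBs n)
  have s2 : A ∩ B n ⊆ (φ x).source := inter_subset_left.trans hAx
  rw [Measure.restrict_apply hA, x3aAt_apply _ hm s1, x3aAt_apply _ hm s2,
    x3a_volume _ _ (hf (f n) x) hm s1 s2]

end Pool.Agent.MP_e62289_ag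

end

section

open Set Filter Topology Complex MeasureTheory Metric
open scoped Manifold ContDiff ComplexConjugate NNReal ENNReal

namespace Pool.Agent.MP_e62289_ag

variable {E : Type} [NormedAddCommGroup E] [NormedSpace ℂ E] {n : ℕ} {a : Fin n → ℕ}
  {M B : Type} [TopologicalSpace M] [ChartedSpace E M] [IsManifold 𝓘(ℂ, E) ω M]
  [TopologicalSpace B] [T2Space B] [ChartedSpace E B] [IsManifold 𝓘(ℂ, E) ω B]

/-- the total space of the induced family -/
abbrev CoverX (C : Family E M a) (π : B → M) : Type := {p : B × C.X // π p.1 = C.proj p.2}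

omit [IsManifold 𝓘(ℂ, E) ω M] [T2Space B] [ChartedSpace E B] [IsManifold 𝓘(ℂ, E) ω B]
  [TopologicalSpace B] in
theorem Cover_pair {C : Family E M a} {π : B → M} (x : C.X) (p : CoverX C π)
    (hp : p.1.2 ∈ (C.chart x).source) : ((C.chart x p.1.2).1, π p.1.1) = C.chart x p.1.2 := by
  rw [p.2, ← C.snd_chart x _ hp]

omit [IsManifold 𝓘(ℂ, E) ω M] [T2Space B] [ChartedSpace E B] [IsManifold 𝓘(ℂ, E) ω B]
  [TopologicalSpace B] in
theorem Cover_proj {C : Family E M a} (x : C.X) {w : ℂ × M} (hw : w ∈ (C.chart x).target) :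
    w.2 = C.proj ((C.chart x).symm w) := by
  rw [← C.snd_chart x _ ((C.chart x).map_target hw), (C.chart x).right_inv hw]

open Classical in
/-- the inverse of a chart of the induced family -/
noncomputable def CoverInv {C : Family E M a} {π : B → M} (p₀ : CoverX C π) (w : ℂ × B) :
    CoverX C π :=
  if h : (w.1, π w.2) ∈ (C.chart p₀.1.2).target then
    ⟨(w.2, (C.chart p₀.1.2).symm (w.1, π w.2)), Cover_proj p₀.1.2 h⟩
  else p₀

omit [IsManifold 𝓘(ℂ, E) ω M] [T2Space B] [ChartedSpace E B] [IsManifold 𝓘(ℂ, E) ω B]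
  [TopologicalSpace B] in
theorem CoverInv_val {C : Family E M a} {π : B → M} (p₀ : CoverX C π) {w : ℂ × B}
    (h : (w.1, π w.2) ∈ (C.chart p₀.1.2).target) :
    (CoverInv p₀ w).1 = (w.2, (C.chart p₀.1.2).symm (w.1, π w.2)) := by
  rw [CoverInv, dif_pos h]

/-- the charts of the induced family -/
noncomputable def CoverChart {C : Family E M a} {π : B → M} (hπ : Continuous π)
    (p₀ : CoverX C π) : OpenPartialHomeomorph (CoverX C π) (ℂ × B) where
  toFun p := ((C.chart p₀.1.2 p.1.2).1, p.1.1)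
  invFun := CoverInv p₀
  source := {p | p.1.2 ∈ (C.chart p₀.1.2).source}
  target := {w | (w.1, π w.2) ∈ (C.chart p₀.1.2).target}
  map_source' p hp := by
    change ((C.chart p₀.1.2 p.1.2).1, π p.1.1) ∈ (C.chart p₀.1.2).target
    rw [Cover_pair _ p hp]
    exact (C.chart p₀.1.2).map_source hp
  map_target' w hw := by
    change (CoverInv p₀ w).1.2 ∈ (C.chart p₀.1.2).source
    rw [CoverInv_val p₀ hw]
    exact (C.chart p₀.1.2).map_target hw
  left_inv' p hp := by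
    have h : ((C.chart p₀.1.2 p.1.2).1, π p.1.1) ∈ (C.chart p₀.1.2).target := by
      rw [Cover_pair _ p hp]
      exact (C.chart p₀.1.2).map_source hp
    refine Subtype.ext ?_
    rw [CoverInv_val p₀ h]
    dsimp only
    rw [Cover_pair _ p hp, (C.chart p₀.1.2).left_inv hp]
  right_inv' w hw := by
    rw [CoverInv_val p₀ hw]
    dsimp only
    rw [(C.chart p₀.1.2).right_inv hw]
  open_source := (C.chart p₀.1.2).open_source.preimage
    (continuous_snd.comp continuous_subtype_val)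
  open_target := (C.chart p₀.1.2).open_target.preimage
    (continuous_fst.prodMk (hπ.comp continuous_snd))
  continuousOn_toFun := by
    refine ContinuousOn.prodMk ?_ (continuous_fst.comp continuous_subtype_val).continuousOn
    exact continuous_fst.comp_continuousOn ((C.chart p₀.1.2).continuousOn.comp
      (continuous_snd.comp continuous_subtype_val).continuousOn fun p hp => hp)
  continuousOn_invFun := by
    rw [IsInducing.subtypeVal.continuousOn_iff]
    refine ContinuousOn.congr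
      (f := fun w : ℂ × B => (w.2, (C.chart p₀.1.2).symm (w.1, π w.2))) ?_
      fun w hw => CoverInv_val p₀ hw
    refine continuous_snd.continuousOn.prodMk ?_
    exact (C.chart p₀.1.2).continuousOn_symm.comp
      (continuous_fst.prodMk (hπ.comp continuous_snd)).continuousOn fun w hw => hw

omit [IsManifold 𝓘(ℂ, E) ω M] [T2Space B] [IsManifold 𝓘(ℂ, E) ω B] in
theorem Cover_md {π : B → M} (hπ : MDifferentiable 𝓘(ℂ, E) 𝓘(ℂ, E) π) :
    MDifferentiable (𝓘(ℂ, ℂ).prod 𝓘(ℂ, E)) (𝓘(ℂ, ℂ).prod 𝓘(ℂ, E))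
      (fun w : ℂ × B => (w.1, π w.2)) :=
  mdifferentiable_fst.prodMk (hπ.comp mdifferentiable_snd)

/-- the family induced along a holomorphic map -/
noncomputable def CoverFam (C : Family E M a) {π : B → M}
    (hπ : MDifferentiable 𝓘(ℂ, E) 𝓘(ℂ, E) π) : Family E B a where
  X := CoverX C π
  proj p := p.1.1
  proper := by
    rw [isProperMap_iff_ultrafilter]
    refine ⟨continuous_fst.comp continuous_subtype_val, fun U b hb => ?_⟩
    have h1 : Tendsto C.proj (U.map fun p => p.1.2 : Ultrafilter C.X) (𝓝 (π b)) := by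
      rw [Ultrafilter.coe_map, tendsto_map'_iff]
      exact ((hπ.continuous.tendsto b).comp hb).congr fun p => p.2
    obtain ⟨x, hx, hU⟩ := (isProperMap_iff_ultrafilter.1 C.proper).2 h1
    refine ⟨⟨(b, x), hx.symm⟩, rfl, ?_⟩
    have h2 : Tendsto (fun p : CoverX C π => p) U (𝓝 ⟨(b, x), hx.symm⟩) := by
      rw [tendsto_subtype_rng]
      exact hb.prodMk_nhds hU
    exact h2
  conn b := by
    obtain ⟨⟨x, hx⟩, h⟩ := C.conn (π b)
    refine ⟨⟨⟨(b, x), hx.symm⟩, rfl⟩, ?_⟩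
    refine IsInducing.subtypeVal.isPreconnected_image.1 ?_
    have : Subtype.val '' ((fun p : CoverX C π => p.1.1) ⁻¹' {b}) =
        {b} ×ˢ (C.proj ⁻¹' {π b}) := by
      ext ⟨b', x'⟩
      constructor
      · rintro ⟨p, hp, he⟩
        have h1 : p.1.1 = b := hp
        have h2 := p.2
        rw [he] at h1 h2
        exact ⟨h1, h2.symm.trans (congrArg π h1)⟩
      · rintro ⟨h1, h2⟩
        have h1 : b' = b := h1
        have h2 : C.proj x' = π b := h2
        exact ⟨⟨(b', x'), by rw [h2, h1]⟩, h1, rfl⟩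
    exact this ▸ isPreconnected_singleton.prod h
  chart := CoverChart hπ.continuous
  mem_source p := C.mem_source p.1.2
  snd_chart _ _ _ := rfl
  hol_chart p q := by
    refine ((C.hol_chart p.1.2 q.1.2).comp (Cover_md hπ).mdifferentiableOn ?_).congr ?_
    · rintro w ⟨hw, hw'⟩
      refine ⟨hw, ?_⟩
      have h1 : (CoverInv p w).1.2 ∈ (C.chart q.1.2).source := hw'
      rw [CoverInv_val p hw] at h1
      exact h1
    · rintro w ⟨hw, -⟩
      change (C.chart q.1.2 (CoverInv p w).1.2).1 = _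
      rw [CoverInv_val p hw]
      rfl
  sec i b := ⟨(b, C.sec i (π b)), (C.proj_sec i (π b)).symm⟩
  cont_sec i := (continuous_id.prodMk ((C.cont_sec i).comp hπ.continuous)).subtype_mk _
  proj_sec _ _ := rfl
  inj_sec b i j h := C.inj_sec (π b) (congrArg (fun p : CoverX C π => p.1.2) h)
  hol_sec i p := (C.hol_sec i p.1.2).comp hπ.mdifferentiableOn fun _ h => h
  form b₀ := by
    obtain ⟨V, hV, hb, f, h1, h2, h3⟩ := C.form (π b₀)
    refine ⟨π ⁻¹' V, hV.preimage hπ.continuous, hb, fun p w => f p.1.2 (w.1, π w.2), fun p => ?_,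
      fun p p' q hq hqV => ?_, fun p hp => ?_⟩
    · exact (h1 p.1.2).comp (Cover_md hπ).mdifferentiableOn fun w hw => ⟨hw.1, trivial, hw.2.2⟩
    · have hV' : C.proj q.1.2 ∈ V := q.2 ▸ hqV
      have h4 := h2 p.1.2 p'.1.2 q.1.2 hq hV'
      change f p.1.2 ((C.chart p.1.2 q.1.2).1, π q.1.1) =
        f p'.1.2 ((C.chart p'.1.2 q.1.2).1, π q.1.1) *
          deriv (fun z => (C.chart p'.1.2 (CoverInv p (z, q.1.1)).1.2).1) (C.chart p.1.2 q.1.2).1
      rw [Cover_pair _ q hq.1, Cover_pair _ q hq.2, h4]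
      congr 1
      refine Filter.EventuallyEq.deriv_eq ?_
      have h5 : ∀ᶠ z in 𝓝 (C.chart p.1.2 q.1.2).1, (z, π q.1.1) ∈ (C.chart p.1.2).target := by
        refine ((C.chart p.1.2).open_target.preimage
          (continuous_id.prodMk continuous_const)).mem_nhds ?_
        change ((C.chart p.1.2 q.1.2).1, π q.1.1) ∈ (C.chart p.1.2).target
        rw [Cover_pair _ q hq.1]
        exact (C.chart p.1.2).map_source hq.1
      filter_upwards [h5] with z hz
      rw [CoverInv_val p (w := (z, q.1.1)) hz, q.2]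
    · have hV' : C.proj p.1.2 ∈ V := p.2 ▸ hp
      have h4 := h3 p.1.2 hV'
      have h6 : analyticOrderAt (fun z => f p.1.2 (z, π p.1.1)) (C.chart p.1.2 p.1.2).1 =
          analyticOrderAt (fun z => f p.1.2 (z, C.proj p.1.2)) (C.chart p.1.2 p.1.2).1 := by
        rw [p.2]
      refine (h6.trans h4).trans ?_
      congr 1
      refine finsum_congr fun i => finsum_congr_Prop (propext ⟨fun h => ?_, fun h => ?_⟩)
        fun _ => rfl
      · refine Subtype.ext (Prod.ext rfl ?_)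
        change C.sec i (π p.1.1) = p.1.2
        rw [p.2, h]
      · have h5 : C.sec i (π p.1.1) = p.1.2 := congrArg (fun p : CoverX C π => p.1.2) h
        rwa [p.2] at h5

set_option linter.unusedSectionVars false in
/-- versal families lift to holomorphic coverings -/
theorem Family.Versal.cover {C : Family E M a} (hC : C.Versal) {π : B → M} (h1 : IsCoveringMap π)
    (h2 : Function.Surjective π) (h3 : IsLocalDiffeomorph 𝓘(ℂ, E) 𝓘(ℂ, E) ω π) :
    ∃ C' : Family E B a, C'.Versal := by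
  have hπ : MDifferentiable 𝓘(ℂ, E) 𝓘(ℂ, E) π := h3.mdifferentiable (by simp)
  refine ⟨CoverFam C hπ, fun k S hS D => ?_⟩
  obtain ⟨ψ, Ψ, hψ, hΨ, hbij, hsec, hhol⟩ := hC k S hS D
  have : LocallyPathConnectedSpace S := S.isOpen.locallyPathConnectedSpace
  obtain ⟨s₀⟩ : Nonempty S := inferInstance
  obtain ⟨b₀, hb₀⟩ := h2 (ψ s₀)
  obtain ⟨F, ⟨-, hF⟩, -⟩ := h1.existsUnique_continuousMap_lifts ⟨ψ, hψ.continuous⟩ s₀ b₀ hb₀
  have hF : ∀ s, π (F s) = ψ s := fun s => congrFun hF s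
  have hP : ∀ d, π (F (D.proj d)) = C.proj (Ψ d) := fun d => by
    rw [hF]
    exact ((hbij (D.proj d)).mapsTo rfl).symm
  refine ⟨F, fun d => ⟨(F (D.proj d), Ψ d), hP d⟩, fun s => ?_, ?_, fun t => ⟨?_, ?_, ?_⟩,
    fun i t => ?_, fun x y => hhol x y.1.2⟩
  · have h4 := (h3 (F s)).localInverse_mdifferentiableAt (by simp)
    rw [hF] at h4
    refine (h4.comp s (hψ s)).congr_of_eventuallyEq ?_
    filter_upwards [(F.continuous.tendsto s).eventually (h3 (F s)).localInverse_eventuallyEq_left]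
      with s' hs'
    rw [Function.comp_apply, ← hF]
    exact hs'.symm
  · exact ((F.continuous.comp D.proper.continuous).prodMk hΨ).subtype_mk _
  · intro d hd
    exact congrArg F hd
  · intro d hd d' hd' h
    exact (hbij t).injOn hd hd' (congrArg (fun p : CoverX C π => p.1.2) h)
  · intro p hp
    have hp : p.1.1 = F t := hp
    have h4 : p.1.2 ∈ C.proj ⁻¹' {ψ t} := by
      change C.proj p.1.2 = ψ t
      rw [← p.2, hp, hF]
    obtain ⟨d, hd, he⟩ := (hbij t).surjOn h4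
    refine ⟨d, hd, Subtype.ext (Prod.ext ?_ he)⟩
    have hd : D.proj d = t := hd
    change F (D.proj d) = p.1.1
    rw [hd, hp]
  · refine Subtype.ext (Prod.ext ?_ ?_)
    · change F (D.proj (D.sec i t)) = F t
      rw [D.proj_sec]
    · change Ψ (D.sec i t) = C.sec i (π (F t))
      rw [hsec, hF]

end Pool.Agent.MP_e62289_ag

end
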