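import Pool.Agent.Mg.Fe62289.Gcfc865
import Pool.Agent.MP_e62289_ag.S5aAux

section

open Set Filter Topology Complex MeasureTheory Metric
open scoped Manifold ContDiff ComplexConjugate NNReal ENNReal

namespace Pool.Agent.MP_e62289_ag

variable {E : Type} [NormedAddCommGroup E] [NormedSpace ℂ E] [FiniteDimensional ℂ E]
  {B : Type} [EMetricSpace B] [ChartedSpace E B]

theorem S2_num {M L Q t a b c d : ℝ} {l l' i j n : ℕ} (hM : 0 ≤ M) (hML : M ≤ L) (hL : 1 ≤ L)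
    (hQ : 0 ≤ Q) (ht : 0 ≤ t) (ht1 : t ≤ 1) (hb0 : 0 ≤ b) (hc0 : 0 ≤ c) (hd0 : 0 ≤ d)
    (ha0 : 0 ≤ a) (ha : a ≤ L * t ^ l) (hb : b ≤ L * t ^ l') (hc : c ≤ Q * t ^ i)
    (hd : d ≤ Q * t ^ j) (hn : n ≤ l + l' + i + j) :
    M * a * b * c * d ≤ L ^ 4 * Q ^ 2 * t ^ n := by
  have hL0 : 0 ≤ L := zero_le_one.trans hL
  calc M * a * b * c * d ≤ L * (L * t ^ l) * (L * t ^ l') * (Q * t ^ i) * (Q * t ^ j) := by
        gcongr
    _ = L ^ 3 * Q ^ 2 * t ^ (l + l' + i + j) := by ring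
    _ ≤ L ^ 4 * Q ^ 2 * t ^ n := by
        have h1 : L ^ 3 ≤ L ^ 4 := pow_le_pow_right₀ hL (by norm_num)
        have h2 : t ^ (l + l' + i + j) ≤ t ^ n := pow_le_pow_of_le_one ht ht1 hn
        gcongr

omit [FiniteDimensional ℂ E] in
/-- the remainder of the expansion -/
theorem S2_rem (g : E →L[ℝ] E →L[ℝ] ℝ) (D₁ : E →L[ℝ] E →L[ℝ] E →L[ℝ] ℝ)
    (D₂ : E → E → E →L[ℝ] E →L[ℝ] ℝ) {M L Q t F : ℝ} (hM : 0 ≤ M) (hML : M ≤ L) (hL : 1 ≤ L)
    (hQ : 0 ≤ Q) (ht : 0 ≤ t) (ht1 : t ≤ 1)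
    (gs : ∀ v w, g v w = g w v) (ds : ∀ s v w, D₁ s v w = D₁ s w v)
    (da : ∀ s s' s'', D₂ (s + s') s'' = D₂ s s'' + D₂ s' s'') (dc : ∀ s s', D₂ s s' = D₂ s' s)
    (b0 : ∀ X Y, |g X Y| ≤ M * ‖X‖ * ‖Y‖) (b1 : ∀ s X Y, |D₁ s X Y| ≤ M * ‖s‖ * ‖X‖ * ‖Y‖)
    (b2 : ∀ s s' X Y, |D₂ s s' X Y| ≤ M * ‖s‖ * ‖s'‖ * ‖X‖ * ‖Y‖)
    {X A₁ A₂ A₃ W Y A s₁ s₂ s₃ u s : E} (eW : W = A₂ + A₃) (eY : Y = A₁ + W) (eA : A = X + Y)
    (eu : u = s₂ + s₃) (es : s = s₁ + u)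
    (hX : ‖X‖ ≤ Q * t ^ 0) (hA₁ : ‖A₁‖ ≤ Q * t ^ 1) (hA₂ : ‖A₂‖ ≤ Q * t ^ 2)
    (hA₃ : ‖A₃‖ ≤ Q * t ^ 3) (hW : ‖W‖ ≤ Q * t ^ 2) (hY : ‖Y‖ ≤ Q * t ^ 1)
    (hA : ‖A‖ ≤ Q * t ^ 0) (hs₁ : ‖s₁‖ ≤ L * t ^ 1) (hs₂ : ‖s₂‖ ≤ L * t ^ 2)
    (hs₃ : ‖s₃‖ ≤ L * t ^ 3) (hu : ‖u‖ ≤ L * t ^ 2) (hs : ‖s‖ ≤ L * t ^ 1)
    (hF : |F - g A A - D₁ s A A - D₂ s s A A / 2| ≤ M * ‖s‖ ^ 3 * ‖A‖ * ‖A‖) :
    |F - (g X X + (2 * g X A₁ + D₁ s₁ X X)) -
      (g A₁ A₁ + 2 * g X A₂ + 2 * D₁ s₁ X A₁ + D₁ s₂ X X + D₂ s₁ s₁ X X / 2)| ≤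
      14 * (L ^ 4 * Q ^ 2 * t ^ 3) ∧
    |g A₁ A₁ + 2 * g X A₂ + 2 * D₁ s₁ X A₁ + D₁ s₂ X X + D₂ s₁ s₁ X X / 2| ≤
      7 * (L ^ 4 * Q ^ 2 * t ^ 2) := by
  have h1 : (1 : ℝ) ≤ L * t ^ 0 := by simpa using hL
  have H0 : ∀ (n : ℕ) {U V : E} {i j : ℕ}, ‖U‖ ≤ Q * t ^ i → ‖V‖ ≤ Q * t ^ j → n ≤ i + j →
      |g U V| ≤ L ^ 4 * Q ^ 2 * t ^ n := by
    intro n U V i j hU hV hn
    have := S2_num (n := n) hM hML hL hQ ht ht1 zero_le_one (norm_nonneg U) (norm_nonneg V)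
      zero_le_one h1 h1 hU hV (by omega)
    rw [mul_one, mul_one] at this
    exact (b0 U V).trans this
  have H1 : ∀ (n : ℕ) {p U V : E} {l i j : ℕ}, ‖p‖ ≤ L * t ^ l → ‖U‖ ≤ Q * t ^ i →
      ‖V‖ ≤ Q * t ^ j → n ≤ l + i + j → |D₁ p U V| ≤ L ^ 4 * Q ^ 2 * t ^ n := by
    intro n p U V l i j hp hU hV hn
    have := S2_num (n := n) hM hML hL hQ ht ht1 zero_le_one (norm_nonneg U) (norm_nonneg V)
      (norm_nonneg p) hp h1 hU hV (by omega)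
    rw [mul_one] at this
    exact (b1 p U V).trans this
  have H2 : ∀ (n : ℕ) {p q U V : E} {l l' i j : ℕ}, ‖p‖ ≤ L * t ^ l → ‖q‖ ≤ L * t ^ l' →
      ‖U‖ ≤ Q * t ^ i → ‖V‖ ≤ Q * t ^ j → n ≤ l + l' + i + j →
      |D₂ p q U V| ≤ L ^ 4 * Q ^ 2 * t ^ n := fun n p q U V l l' i j hp hq hU hV hn =>
    (b2 p q U V).trans (S2_num hM hML hL hQ ht ht1 (norm_nonneg q) (norm_nonneg U)
      (norm_nonneg V) (norm_nonneg p) hp hq hU hV hn)
  have hL0 : 0 ≤ L := zero_le_one.trans hL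
  have H3 : M * ‖s‖ ^ 3 * ‖A‖ * ‖A‖ ≤ L ^ 4 * Q ^ 2 * t ^ 3 :=
    calc M * ‖s‖ ^ 3 * ‖A‖ * ‖A‖ ≤ L * (L * t ^ 1) ^ 3 * (Q * t ^ 0) * (Q * t ^ 0) := by gcongr
      _ = L ^ 4 * Q ^ 2 * t ^ 3 := by ring
  have tel : ∀ b : E →L[ℝ] E →L[ℝ] ℝ, b A A = b X X + b Y X + b A Y := by
    intro b
    have e1 : b A A = b A X + b A Y := by rw [← map_add, ← eA]
    have e2 : b A X = b X X + b Y X := by rw [eA, map_add, ContinuousLinearMap.add_apply]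
    rw [e1, e2]
  have tel2 : ∀ b : E →L[ℝ] E →L[ℝ] ℝ, (∀ v w, b v w = b w v) →
      b A A = b X X + 2 * (b X A₁ + b X W) + b Y Y := by
    intro b hb
    have e2 : b A Y = b X Y + b Y Y := by rw [eA, map_add, ContinuousLinearMap.add_apply]
    have e3 : b X Y = b X A₁ + b X W := by rw [eY, map_add]
    rw [tel b, e2, hb Y X, e3]
    ring
  have e1 : g A A = g X X + 2 * (g X A₁ + (g X A₂ + g X A₃)) +
      (g A₁ A₁ + 2 * g A₁ W + g W W) := by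
    have e2 : g X W = g X A₂ + g X A₃ := by rw [eW, map_add]
    have e3 : g Y Y = g A₁ A₁ + 2 * g A₁ W + g W W := by
      rw [eY]
      simp only [map_add, ContinuousLinearMap.add_apply]
      rw [gs W A₁]
      ring
    rw [tel2 g gs, e2, e3]
  have e2 : D₁ s A A = D₁ s₁ X X + 2 * (D₁ s₁ X A₁ + D₁ s₁ X W) + D₁ s₁ Y Y +
      (D₁ s₂ X X + D₁ s₃ X X + D₁ u Y X + D₁ u A Y) := by
    have e3 : D₁ s A A = D₁ s₁ A A + D₁ u A A := by
      rw [es, map_add, ContinuousLinearMap.add_apply, ContinuousLinearMap.add_apply]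
    have e4 : D₁ u X X = D₁ s₂ X X + D₁ s₃ X X := by
      rw [eu, map_add, ContinuousLinearMap.add_apply, ContinuousLinearMap.add_apply]
    rw [e3, tel2 (D₁ s₁) (ds s₁), tel (D₁ u), e4]
  have e3 : D₂ s s A A = D₂ s₁ s₁ X X + D₂ s₁ s₁ Y X + D₂ s₁ s₁ A Y + D₂ u s₁ A A +
      D₂ u s A A := by
    have e4 : D₂ s s = D₂ s₁ s + D₂ u s := by rw [← da, ← es]
    have e5 : D₂ s₁ s = D₂ s₁ s₁ + D₂ u s₁ := by rw [dc s₁ s, ← da, ← es]
    rw [e4, e5]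
    simp only [ContinuousLinearMap.add_apply]
    rw [tel (D₂ s₁ s₁)]
  constructor
  · have a0 := abs_le.1 (hF.trans H3)
    have a1 := abs_le.1 (H0 3 hX hA₃ le_rfl)
    have a2 := abs_le.1 (H0 3 hA₁ hW le_rfl)
    have a3 := abs_le.1 (H0 3 hW hW (by norm_num))
    have a4 := abs_le.1 (H1 3 hs₁ hX hW le_rfl)
    have a5 := abs_le.1 (H1 3 hs₁ hY hY le_rfl)
    have a6 := abs_le.1 (H1 3 hs₃ hX hX le_rfl)
    have a7 := abs_le.1 (H1 3 hu hY hX le_rfl)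
    have a8 := abs_le.1 (H1 3 hu hA hY le_rfl)
    have a9 := abs_le.1 (H2 3 hs₁ hs₁ hY hX le_rfl)
    have a10 := abs_le.1 (H2 3 hs₁ hs₁ hA hY le_rfl)
    have a11 := abs_le.1 (H2 3 hu hs₁ hA hA le_rfl)
    have a12 := abs_le.1 (H2 3 hu hs hA hA le_rfl)
    rw [e1, e2, e3] at a0
    refine abs_le.2 ⟨?_, ?_⟩
    · linarith [a0.1, a1.1, a2.1, a3.1, a4.1, a5.1, a6.1, a7.1, a8.1, a9.1, a10.1, a11.1, a12.1]
    · linarith [a0.2, a1.2, a2.2, a3.2, a4.2, a5.2, a6.2, a7.2, a8.2, a9.2, a10.2, a11.2, a12.2]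
  · have a1 := abs_le.1 (H0 2 hA₁ hA₁ le_rfl)
    have a2 := abs_le.1 (H0 2 hX hA₂ le_rfl)
    have a3 := abs_le.1 (H1 2 hs₁ hX hA₁ le_rfl)
    have a4 := abs_le.1 (H1 2 hs₂ hX hX le_rfl)
    have a5 := abs_le.1 (H2 2 hs₁ hs₁ hX hX le_rfl)
    have a6 : 0 ≤ L ^ 4 * Q ^ 2 * t ^ 2 := by positivity
    refine abs_le.2 ⟨?_, ?_⟩
    · linarith [a1.1, a2.1, a3.1, a4.1, a5.1]
    · linarith [a1.2, a2.2, a3.2, a4.2, a5.2]

omit [FiniteDimensional ℂ E] in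
theorem S2_smul (ξ : ℂ) (A : E) : ξ • A = ξ.re • A + ξ.im • (I • A) := by
  conv_lhs => rw [← Complex.re_add_im ξ]
  rw [add_smul, mul_smul, Complex.coe_smul, Complex.coe_smul]

omit [FiniteDimensional ℂ E] in
theorem S2_anti {g : E →L[ℝ] E →L[ℝ] ℝ} (gh : ∀ v w, g (I • v) (I • w) = g v w) (A B : E) :
    g A (I • B) = -g (I • A) B := by
  rw [← gh A (I • B), smul_smul, I_mul_I, neg_one_smul, map_neg]

omit [FiniteDimensional ℂ E] in
theorem S2_herm {g : E →L[ℝ] E →L[ℝ] ℝ} (gh : ∀ v w, g (I • v) (I • w) = g v w) (ξ : ℂ)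
    (A B : E) : g (ξ • A) (ξ • B) = ‖ξ‖ ^ 2 * g A B := by
  rw [S2_smul ξ A, S2_smul ξ B, Complex.sq_norm, normSq_apply]
  simp only [map_add, map_smul, ContinuousLinearMap.add_apply, ContinuousLinearMap.smul_apply,
    smul_eq_mul]
  rw [gh, S2_anti gh A B]
  ring

omit [FiniteDimensional ℂ E] in
theorem S2_re {g : E →L[ℝ] E →L[ℝ] ℝ} (gh : ∀ v w, g (I • v) (I • w) = g v w)
    (gs : ∀ v w, g v w = g w v) (ξ : ℂ) (A : E) : g A (ξ • A) = ξ.re * g A A := by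
  have h := S2_anti gh A A
  rw [gs (I • A) A] at h
  have h0 : g A (I • A) = 0 := by linarith
  rw [S2_smul ξ A, map_add, map_smul, map_smul, h0]
  simp

omit [FiniteDimensional ℂ E] in
theorem S2_lin {Γ : E →L[ℝ] E →L[ℝ] E} (hI : ∀ u v, Γ u (I • v) = I • Γ u v) (ξ : ℂ)
    (u v : E) : Γ u (ξ • v) = ξ • Γ u v := by
  rw [S2_smul ξ v, map_add, map_smul, map_smul, hI, ← S2_smul]

omit [FiniteDimensional ℂ E] in
/-- the algebra of the first and second order terms -/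
theorem S2_alg {g : E →L[ℝ] E →L[ℝ] ℝ} {Γ : E →L[ℝ] E →L[ℝ] E}
    {D₁ : E →L[ℝ] E →L[ℝ] E →L[ℝ] ℝ} (gh : ∀ v w, g (I • v) (I • w) = g v w)
    (gs : ∀ v w, g v w = g w v) (hs : ∀ u v, Γ u v = Γ v u)
    (hI : ∀ u v, Γ u (I • v) = I • Γ u v) (hD : ∀ u v w, D₁ u v w = g (Γ u v) w + g v (Γ u w))
    (ξ : ℂ) (X V : E) :
    2 * g X (ξ • (X - Γ X V)) + D₁ (ξ • V) X X = 2 * ξ.re * g X X ∧
    g (ξ • (X - Γ X V)) (ξ • (X - Γ X V)) + 2 * D₁ (ξ • V) X (ξ • (X - Γ X V)) =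
      ‖ξ‖ ^ 2 * (g X X - g (Γ X V) (Γ X V)) + 2 * g X (ξ ^ 2 • Γ V (X - Γ X V)) := by
  have e1 : Γ (ξ • V) X = ξ • Γ X V := by rw [hs, S2_lin hI]
  constructor
  · rw [hD, e1, gs (ξ • Γ X V) X, smul_sub, map_sub, S2_re gh gs]
    ring
  · have e2 : Γ (ξ • V) (ξ • (X - Γ X V)) = ξ ^ 2 • Γ V (X - Γ X V) := by
      rw [S2_lin hI, hs, S2_lin hI, hs, smul_smul, sq]
    rw [hD, e1, e2, S2_herm gh, S2_herm gh]
    simp only [map_sub, ContinuousLinearMap.sub_apply]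
    rw [gs (Γ X V) X]
    ring

/-- pointwise second variation: `X` is the velocity, `V` the field, `V'` its derivative, `R` the
correction at the junction -/
theorem point_taylor (k : KData E B) {r M : ℝ} (hr : 0 < r) (hM : 0 < M) :
    ∃ C ρ : ℝ, 0 < C ∧ 0 < ρ ∧ ∀ (y : B) (z X V R₂ : E) (R : ℂ → E) (a : ℝ) (ζ : ℂ),
      k.Bd r M y z → ‖V‖ ≤ M → ‖R₂‖ ≤ M → a ∈ Icc (0 : ℝ) 1 → ‖ζ‖ ≤ ρ →
      (∀ ξ : ℂ, ‖ξ‖ = ‖ζ‖ → ‖R ξ - ξ ^ 2 • R₂‖ ≤ M * ‖ξ‖ ^ 3) →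
      ∀ e : ℂ → ℝ, (∀ ξ, e ξ = k.G y (z + ξ • V + a • R ξ)
        (X + ξ • (X - k.Γ y z X V) - R ξ) (X + ξ • (X - k.Γ y z X V) - R ξ)) →
      z + ζ • V + a • R ζ ∈ closedBall z r ∧
      |e ζ - (1 + 2 * ζ.re) * k.G y z X X| ≤ C * (1 + k.G y z X X) * ‖ζ‖ ^ 2 ∧
      e ζ + e (I * ζ) + e (-ζ) + e (-(I * ζ)) ≤ 4 * k.G y z X X +
        4 * ‖ζ‖ ^ 2 * (1 + k.K / 2 * k.G y z V V) * k.G y z X X +
        C * (1 + k.G y z X X) * ‖ζ‖ ^ 3 := by
  obtain ⟨L, hL⟩ : ∃ L : ℝ, L = 2 + 3 * M + M ^ 2 := ⟨_, rfl⟩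
  have hM2 : 0 ≤ M ^ 2 := sq_nonneg M
  have hL1 : 1 ≤ L := by linarith
  have hML : M ≤ L := by linarith
  have hL0 : 0 < L := by linarith
  refine ⟨112 * L ^ 7, min 1 (r / L), by positivity, by positivity, ?_⟩
  intro y z X V R₂ R a ζ hb hV hR₂ ha hζ hR e he
  have hz : z ∈ closedBall z r := mem_closedBall_self hr.le
  have hzt := hb.1 hz
  obtain ⟨D₁, D₂, hD1, hD2, da, dm, dc, b0, b1, b2⟩ := hb.exists_jet hr.le
  obtain ⟨hpos, -, hΓ⟩ := hb.2 z hz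
  have gs := k.symm y z hzt
  have gh := k.herm y z hzt
  have hs := k.Γ_symm y z hzt
  have hI := k.Γ_I y z hzt
  have hD : ∀ u v w, D₁ u v w = k.G y z (k.Γ y z u v) w + k.G y z v (k.Γ y z u w) :=
    fun u v w => by rw [← hD1, k.metric y z hzt]
  have ds : ∀ s v w, D₁ s v w = D₁ s w v := fun s v w => by
    rw [hD, hD, gs (k.Γ y z s v) w, gs v, add_comm]
  have hbis := k.bisec y z hzt (ζ • V) X
  rw [hD2, hD2] at hbis
  generalize hg : k.G y z = g at *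
  generalize hG : k.Γ y z = Γ at *
  obtain ⟨t, ht⟩ : ∃ t, t = ‖ζ‖ := ⟨_, rfl⟩
  rw [← ht] at hζ hR ⊢
  have ht0 : 0 ≤ t := ht ▸ norm_nonneg ζ
  have ht1 : t ≤ 1 := hζ.trans (min_le_left _ _)
  have htr : L * t ≤ r := by
    have := hζ.trans (min_le_right _ _)
    rwa [le_div_iff₀ hL0, mul_comm] at this
  have ht2 : t ^ 2 ≤ t := by nlinarith
  have ht3 : t ^ 3 ≤ t ^ 2 := pow_le_pow_of_le_one ht0 ht1 (by norm_num)
  have ht20 : 0 ≤ t ^ 2 := by positivity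
  have ht30 : 0 ≤ t ^ 3 := by positivity
  obtain ⟨x, hx⟩ : ∃ x, x = ‖X‖ := ⟨_, rfl⟩
  have hx0 : 0 ≤ x := hx ▸ norm_nonneg X
  have hgX : 0 ≤ g X X := by
    have := (sq_nonneg _).trans (hpos X)
    exact nonneg_of_mul_nonneg_right this hM |> fun h => h
  have hQ : 0 ≤ L * (1 + x) := by positivity
  have hLQ : L ≤ L * (1 + x) := by nlinarith
  have hV' : ‖X - Γ X V‖ ≤ (1 + M ^ 2) * x := by
    have h1 : ‖Γ X V‖ ≤ M * x * M := by
      refine (Γ.le_opNorm₂ X V).trans ?_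
      rw [← hx]
      gcongr
    have h2 := norm_sub_le X (Γ X V)
    rw [← hx] at h2
    nlinarith
  have hT : L ^ 4 * (L * (1 + x)) ^ 2 ≤ 2 * L ^ 7 * (1 + g X X) := by
    have h1 := hpos X
    rw [← hx] at h1
    have h2 : (1 + x) ^ 2 ≤ 2 * L * (1 + g X X) := by
      have h3 : M * g X X ≤ L * g X X := mul_le_mul_of_nonneg_right hML hgX
      nlinarith [sq_nonneg (x - 1)]
    calc L ^ 4 * (L * (1 + x)) ^ 2 = L ^ 6 * (1 + x) ^ 2 := by ring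
      _ ≤ L ^ 6 * (2 * L * (1 + g X X)) := by gcongr
      _ = _ := by ring
  obtain ⟨ℓ, hℓ⟩ : ∃ ℓ : ℂ → ℝ, ∀ η, ℓ η = 2 * g X (η • Γ V (X - Γ X V)) +
      2 * g X (-(η • R₂)) + D₁ (a • η • R₂) X X := ⟨_, fun _ => rfl⟩
  have hodd : ∀ η, ℓ (-η) = -ℓ η := by
    intro η
    rw [hℓ, hℓ]
    simp only [neg_smul, smul_neg, map_neg, ContinuousLinearMap.neg_apply]
    ring
  have key : ∀ ξ : ℂ, ‖ξ‖ = t → ‖ξ • V + a • R ξ‖ ≤ r ∧
      |e ξ - (1 + 2 * ξ.re) * g X X| ≤ 21 * (L ^ 4 * (L * (1 + x)) ^ 2 * t ^ 2) ∧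
      e ξ ≤ (1 + 2 * ξ.re) * g X X + t ^ 2 * (g X X - g (Γ X V) (Γ X V)) + ℓ (ξ ^ 2) +
        D₂ (ξ • V) (ξ • V) X X / 2 + 14 * (L ^ 4 * (L * (1 + x)) ^ 2 * t ^ 3) := by
    intro ξ hξ
    have n3 : ‖R ξ - ξ ^ 2 • R₂‖ ≤ M * t ^ 3 := hξ ▸ hR ξ hξ
    have n2 : ‖ξ ^ 2 • R₂‖ ≤ M * t ^ 2 := by
      rw [norm_smul, norm_pow, hξ, mul_comm]
      gcongr
    have nR : ‖R ξ‖ ≤ 2 * M * t ^ 2 := by
      have h1 := norm_add_le (ξ ^ 2 • R₂) (R ξ - ξ ^ 2 • R₂)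
      rw [add_sub_cancel] at h1
      nlinarith
    have na : ∀ w : E, ‖a • w‖ ≤ ‖w‖ := fun w => by
      rw [norm_smul, Real.norm_of_nonneg ha.1]
      exact mul_le_of_le_one_left (norm_nonneg w) ha.2
    have n1 : ‖ξ • V‖ ≤ M * t := by
      rw [norm_smul, hξ, mul_comm]
      gcongr
    have nA : ‖ξ • (X - Γ X V)‖ ≤ (1 + M ^ 2) * x * t := by
      rw [norm_smul, hξ, mul_comm]
      gcongr
    have hMt : M * t ^ 2 ≤ M * t := mul_le_mul_of_nonneg_left ht2 hM.le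
    have ns : ‖ξ • V + a • R ξ‖ ≤ L * t ^ 1 := by
      have h1 := norm_add_le (ξ • V) (a • R ξ)
      have h2 := na (R ξ)
      have h3 : 3 * M * t ≤ L * t := mul_le_mul_of_nonneg_right (by linarith) ht0
      rw [pow_one]
      linarith
    have nsr : ‖ξ • V + a • R ξ‖ ≤ r := by
      rw [pow_one] at ns
      exact ns.trans htr
    have nY0 : ‖ξ • (X - Γ X V) + -R ξ‖ ≤ (1 + 2 * M + M ^ 2) * (1 + x) * t := by
      have h1 := norm_add_le (ξ • (X - Γ X V)) (-R ξ)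
      rw [norm_neg] at h1
      have h2 : 0 ≤ M * x * t := by positivity
      have h3 : 0 ≤ M ^ 2 * t := by positivity
      nlinarith
    have hc : ∀ {c : ℝ} {i : ℕ} {w : E}, c ≤ L → ‖w‖ ≤ c * t ^ i → ‖w‖ ≤ L * t ^ i :=
      fun hc hw => hw.trans (mul_le_mul_of_nonneg_right hc (by positivity))
    have hc' : ∀ {c : ℝ} {i : ℕ} {w : E}, c ≤ L → ‖w‖ ≤ c * t ^ i → ‖w‖ ≤ L * (1 + x) * t ^ i :=
      fun h hw => (hc h hw).trans (mul_le_mul_of_nonneg_right hLQ (by positivity))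
    have hF := (hb.taylor nsr (X + (ξ • (X - Γ X V) + -R ξ)) (X + (ξ • (X - Γ X V) + -R ξ))).2.2
    rw [hD1, hD2, hg, ← add_assoc z, ← add_assoc X, ← sub_eq_add_neg, ← he ξ, sub_eq_add_neg (X + _),
      add_assoc X] at hF
    obtain ⟨r1, r2⟩ := S2_rem g D₁ D₂ (Q := L * (1 + x)) (F := e ξ) hM.le hML hL1 hQ ht0 ht1 gs ds
      da dc b0 b1 b2 (X := X) (A₁ := ξ • (X - Γ X V)) (A₂ := -(ξ ^ 2 • R₂))
      (A₃ := -(R ξ - ξ ^ 2 • R₂)) (W := -R ξ) (s₁ := ξ • V) (s₂ := a • ξ ^ 2 • R₂)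
      (s₃ := a • (R ξ - ξ ^ 2 • R₂)) (u := a • R ξ) (by abel) rfl rfl
      (by rw [← smul_add, add_sub_cancel]) rfl
      (by rw [← hx, pow_zero, mul_one]; nlinarith)
      (by
        rw [pow_one]
        refine nA.trans (mul_le_mul_of_nonneg_right ?_ ht0)
        exact mul_le_mul (by linarith) (by linarith) hx0 hL0.le)
      (hc' hML (by rwa [norm_neg])) (hc' hML (by rwa [norm_neg]))
      (hc' (c := 2 * M) (by linarith) (by rwa [norm_neg]))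
      (by
        rw [pow_one]
        refine nY0.trans (mul_le_mul_of_nonneg_right ?_ ht0)
        exact mul_le_mul_of_nonneg_right (by linarith) (by linarith))
      (by
        rw [pow_zero, mul_one]
        have h1 := norm_add_le X (ξ • (X - Γ X V) + -R ξ)
        have h2 : (1 + 2 * M + M ^ 2) * (1 + x) * t ≤ (1 + 2 * M + M ^ 2) * (1 + x) :=
          mul_le_of_le_one_right (by positivity) ht1
        have h3 : 0 ≤ M * x := by positivity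
        rw [← hx] at h1
        rw [hL]
        nlinarith)
      (hc hML (by rwa [pow_one])) (hc hML ((na _).trans n2)) (hc hML ((na _).trans n3))
      (hc (c := 2 * M) (by linarith) ((na _).trans nR)) ns hF
    obtain ⟨q1, q2⟩ := S2_alg gh gs hs hI hD ξ X V
    rw [q1] at r1
    rw [hξ] at q2
    have h32 : L ^ 4 * (L * (1 + x)) ^ 2 * t ^ 3 ≤ L ^ 4 * (L * (1 + x)) ^ 2 * t ^ 2 := by gcongr
    have r1' := abs_le.1 r1
    have r2' := abs_le.1 r2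
    refine ⟨nsr, abs_le.2 ⟨?_, ?_⟩, ?_⟩
    · linarith [r1'.1, r2'.1]
    · linarith [r1'.2, r2'.2]
    · rw [hℓ]
      linarith [r1'.2]
  obtain ⟨k1, k2, k3⟩ := key ζ ht.symm
  obtain ⟨-, -, k4⟩ := key (I * ζ) (by rw [norm_mul, norm_I, one_mul, ht])
  obtain ⟨-, -, k5⟩ := key (-ζ) (by rw [norm_neg, ht])
  obtain ⟨-, -, k6⟩ := key (-(I * ζ)) (by rw [norm_neg, norm_mul, norm_I, one_mul, ht])
  have hT2 := mul_le_mul_of_nonneg_right hT ht20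
  have hT3 := mul_le_mul_of_nonneg_right hT ht30
  refine ⟨?_, k2.trans ?_, ?_⟩
  · rw [mem_closedBall, dist_eq_norm, add_assoc, add_sub_cancel_left]
    exact k1
  · have : 0 ≤ L ^ 7 * (1 + g X X) * t ^ 2 := by positivity
    linarith
  · have dn : ∀ s, D₂ (-s) (-s) = D₂ s s := fun s => by
      rw [← neg_one_smul ℝ s, dm, dc, dm, smul_smul]
      simp
    have eI : (I * ζ) ^ 2 = -ζ ^ 2 := by rw [mul_pow, I_sq]; ring
    rw [eI, hodd, mul_smul] at k4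
    rw [neg_sq, neg_smul, dn, neg_re] at k5
    rw [neg_sq, eI, hodd, neg_smul, dn, neg_re, mul_smul] at k6
    have e1 : Γ (ζ • V) X = ζ • Γ X V := by rw [hs, S2_lin hI]
    rw [e1, S2_herm gh, S2_herm gh, ← ht] at hbis
    have h1 := (abs_le.1 hbis).1
    linarith

end Pool.Agent.MP_e62289_ag

end

section



end

section

open Set Filter Topology Complex MeasureTheory Metric
open scoped Manifold ContDiff ComplexConjugate NNReal ENNReal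

namespace Pool.Agent.MP_e62289_ag

section Aux

variable {E : Type} [NormedAddCommGroup E] [NormedSpace ℂ E]
  {B : Type} [EMetricSpace B] [ChartedSpace E B]

theorem S4_c_cont {n : ℕ} {p : B} (γ : Chain E n p) {j : ℕ} (hj : j < n) :
    ContinuousOn (γ.c j) (Icc 0 1) := fun t ht => (γ.der j hj t ht).continuousWithinAt

theorem S4_int (k : KData E B) {n : ℕ} {p : B} (γ : Chain E n p) {j : ℕ} (hj : j < n) :
    IntervalIntegrable (fun t => k.G (γ.x j) (γ.c j t) (γ.c' j t) (γ.c' j t)) volume 0 1 := by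
  apply ContinuousOn.intervalIntegrable
  rw [uIcc_of_le zero_le_one]
  exact (((k.smooth _).continuousOn.comp (S4_c_cont γ hj) (γ.maps j hj)).clm_apply
    (γ.cont j hj)).clm_apply (γ.cont j hj)

theorem S4_G_nonneg (k : KData E B) {x : B} {z : E} (hz : z ∈ (chartAt E x).target) (v : E) :
    0 ≤ k.G x z v v := by
  by_cases hv : v = 0
  · simp [hv]
  · exact (k.pos x z hz v hv).le

theorem S4_Bd_mono {k : KData E B} {r M M' : ℝ} {y : B} {z : E} (h : k.Bd r M y z)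
    (hM : M ≤ M') : k.Bd r M' y z := by
  refine ⟨h.1, fun w hw => ⟨fun v => ((h.2 w hw).1 v).trans ?_,
    fun i hi => ((h.2 w hw).2.1 i hi).trans hM, (h.2 w hw).2.2.trans hM⟩⟩
  exact mul_le_mul_of_nonneg_right hM (S4_G_nonneg k (h.1 hw) v)

theorem S4_left {n : ℕ} {p : B} (γ : Chain E n p) {j : ℕ} (hj : j < n) :
    γ.q j ∈ (chartAt E (γ.x j)).source ∧ chartAt E (γ.x j) (γ.q j) = γ.c j 0 := by
  have h := γ.maps j hj (left_mem_Icc.2 zero_le_one)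
  rw [← γ.left j hj]
  exact ⟨(chartAt E _).map_target h, (chartAt E _).right_inv h⟩

theorem S4_right {n : ℕ} {p : B} (γ : Chain E n p) {j : ℕ} (hj : j < n) :
    γ.q (j + 1) ∈ (chartAt E (γ.x j)).source ∧ chartAt E (γ.x j) (γ.q (j + 1)) = γ.c j 1 := by
  have h := γ.maps j hj (right_mem_Icc.2 zero_le_one)
  rw [← γ.right j hj]
  exact ⟨(chartAt E _).map_target h, (chartAt E _).right_inv h⟩

theorem S4_abs {f g : ℝ → ℝ} (hf : IntervalIntegrable f volume 0 1)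
    (hg : IntervalIntegrable g volume 0 1) {a c : ℝ}
    (h : ∀ t ∈ Icc (0 : ℝ) 1, |f t - a * g t| ≤ c * (1 + g t)) :
    |(∫ t in (0 : ℝ)..1, f t) - a * ∫ t in (0 : ℝ)..1, g t| ≤
      c * (1 + ∫ t in (0 : ℝ)..1, g t) := by
  have h1 : IntervalIntegrable (fun t => f t - a * g t) volume 0 1 := hf.sub (hg.const_mul a)
  have h2 : IntervalIntegrable (fun t => c * (1 + g t)) volume 0 1 :=
    (intervalIntegrable_const.add hg).const_mul c
  have e1 : (∫ t in (0 : ℝ)..1, f t) - a * ∫ t in (0 : ℝ)..1, g t =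
      ∫ t in (0 : ℝ)..1, (f t - a * g t) := by
    rw [intervalIntegral.integral_sub hf (hg.const_mul a), intervalIntegral.integral_const_mul]
  have e2 : c * (1 + ∫ t in (0 : ℝ)..1, g t) = ∫ t in (0 : ℝ)..1, c * (1 + g t) := by
    rw [intervalIntegral.integral_const_mul,
      intervalIntegral.integral_add intervalIntegrable_const hg]
    simp
  rw [e1, e2]
  exact (intervalIntegral.abs_integral_le_integral_abs zero_le_one).trans
    (intervalIntegral.integral_mono_on zero_le_one h1.abs h2 h)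

theorem S4_four {f₀ f₁ f₂ f₃ g : ℝ → ℝ} (h₀ : IntervalIntegrable f₀ volume 0 1)
    (h₁ : IntervalIntegrable f₁ volume 0 1) (h₂ : IntervalIntegrable f₂ volume 0 1)
    (h₃ : IntervalIntegrable f₃ volume 0 1) (hg : IntervalIntegrable g volume 0 1) {a c : ℝ}
    (h : ∀ t ∈ Icc (0 : ℝ) 1, f₀ t + f₁ t + f₂ t + f₃ t ≤ a * g t + c) :
    (∫ t in (0 : ℝ)..1, f₀ t) + (∫ t in (0 : ℝ)..1, f₁ t) + (∫ t in (0 : ℝ)..1, f₂ t) +
      (∫ t in (0 : ℝ)..1, f₃ t) ≤ a * (∫ t in (0 : ℝ)..1, g t) + c := by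
  have e2 : a * (∫ t in (0 : ℝ)..1, g t) + c = ∫ t in (0 : ℝ)..1, (a * g t + c) := by
    rw [intervalIntegral.integral_add (hg.const_mul a) intervalIntegrable_const,
      intervalIntegral.integral_const_mul]
    simp
  rw [e2, ← intervalIntegral.integral_add h₀ h₁, ← intervalIntegral.integral_add (h₀.add h₁) h₂,
    ← intervalIntegral.integral_add ((h₀.add h₁).add h₂) h₃]
  exact intervalIntegral.integral_mono_on zero_le_one (((h₀.add h₁).add h₂).add h₃)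
    ((hg.const_mul a).add intervalIntegrable_const) h

/-- the junction points of the varied chain -/
noncomputable def S4Q {n : ℕ} {p : B} (γ : Chain E n p) (V : ℕ → ℝ → E) (ξ : ℂ) : ℕ → B
  | 0 => p
  | j + 1 => (chartAt E (γ.x j)).symm (γ.c j 1 + ξ • V j 1)

/-- the varied chain -/
theorem S4_vary (k : KData E B) {n : ℕ} {p : B} (γ : Chain E n p) (V : ℕ → ℝ → E)
    (hV : ∀ j < n, ∀ t ∈ Icc (0 : ℝ) 1, HasDerivWithinAt (V j)
      (γ.c' j t - k.Γ (γ.x j) (γ.c j t) (γ.c' j t) (V j t)) (Icc 0 1) t)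
    (R : ℕ → E) (ξ : ℂ)
    (hm : ∀ j < n, ∀ t ∈ Icc (0 : ℝ) 1,
      γ.c j t + ξ • V j t + (1 - t) • R j ∈ (chartAt E (γ.x j)).target)
    (hl : ∀ j < n, (chartAt E (γ.x j)).symm (γ.c j 0 + ξ • V j 0 + R j) = S4Q γ V ξ j) :
    ∃ γ' : Chain E n p, γ'.x = γ.x ∧ γ'.q = S4Q γ V ξ ∧
      (∀ j t, γ'.c j t = γ.c j t + ξ • V j t + (1 - t) • R j) ∧
      ∀ j t, γ'.c' j t = γ.c' j t +
        ξ • (γ.c' j t - k.Γ (γ.x j) (γ.c j t) (γ.c' j t) (V j t)) - R j := by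
  refine ⟨⟨γ.x, S4Q γ V ξ, fun j t => γ.c j t + ξ • V j t + (1 - t) • R j,
    fun j t => γ.c' j t + ξ • (γ.c' j t - k.Γ (γ.x j) (γ.c j t) (γ.c' j t) (V j t)) - R j,
    rfl, fun j hj => ?_, fun j hj t ht => ?_, fun j hj t ht => hm j hj t ht, fun j hj => ?_,
    fun j hj => ?_⟩, rfl, rfl, fun _ _ => rfl, fun _ _ => rfl⟩
  · have h1 : ContinuousOn (V j) (Icc 0 1) := fun t ht => (hV j hj t ht).continuousWithinAt
    have h2 := (((k.Γ_cont _).comp (S4_c_cont γ hj) (γ.maps j hj)).clm_apply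
      (γ.cont j hj)).clm_apply h1
    exact ((γ.cont j hj).add (((γ.cont j hj).sub h2).const_smul ξ)).sub continuousOn_const
  · have h1 : HasDerivWithinAt (fun t : ℝ => (1 - t) • R j) ((-1 : ℝ) • R j) (Icc 0 1) t :=
      ((hasDerivWithinAt_id t _).const_sub 1).smul_const (R j)
    have h2 := ((γ.der j hj t ht).add ((hV j hj t ht).const_smul ξ)).add h1
    rw [neg_one_smul, ← sub_eq_add_neg] at h2
    exact h2
  · rw [← hl j hj]; simp
  · simp [S4Q]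

end Aux

variable {E : Type} [NormedAddCommGroup E] [NormedSpace ℂ E] [FiniteDimensional ℂ E]
  {B : Type} [EMetricSpace B] [ChartedSpace E B]

theorem S4_energy_nonneg (k : KData E B) {n : ℕ} {p : B} (γ : Chain E n p) :
    0 ≤ γ.energy k :=
  mul_nonneg (Nat.cast_nonneg n)
    (Finset.sum_nonneg fun _ hj => γ.seg_nonneg k (Finset.mem_range.1 hj))

/-- the field along a chain -/
theorem S4_field (k : KData E B) {n : ℕ} {p : B} (γ : Chain E n p) :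
    ∃ V : ℕ → ℝ → E, V 0 0 = 0 ∧
      (∀ j, V (j + 1) 0 = fderiv ℝ (chartAt E (γ.x (j + 1)) ∘ (chartAt E (γ.x j)).symm)
        (γ.c j 1) (V j 1)) ∧
      (∀ j < n, ∀ t ∈ Icc (0 : ℝ) 1, HasDerivWithinAt (V j)
        (γ.c' j t - k.Γ (γ.x j) (γ.c j t) (γ.c' j t) (V j t)) (Icc 0 1) t) ∧
      ∀ j < n, ∀ t ∈ Icc (0 : ℝ) 1, k.G (γ.x j) (γ.c j t) (V j t) (V j t) ≤ γ.energy k := by
  have : CompleteSpace E := FiniteDimensional.complete ℂ E
  have hW : ∀ (j : ℕ) (v : E), ∃ W : ℝ → E, W 0 = v ∧ (j < n → ∀ t ∈ Icc (0 : ℝ) 1,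
      HasDerivWithinAt W (γ.c' j t - k.Γ (γ.x j) (γ.c j t) (γ.c' j t) (W t)) (Icc 0 1) t) := by
    intro j v
    by_cases hj : j < n
    · obtain ⟨W, h0, h1⟩ := lin_ode (A := fun t => k.Γ (γ.x j) (γ.c j t) (γ.c' j t))
        (((k.Γ_cont _).comp (S4_c_cont γ hj) (γ.maps j hj)).clm_apply (γ.cont j hj))
        (γ.cont j hj) v
      exact ⟨W, h0, fun _ => h1⟩
    · exact ⟨fun _ => v, rfl, fun h => absurd h hj⟩
  choose W hW0 hW1 using hW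
  let v : ℕ → E := fun j => Nat.rec 0 (fun j v => fderiv ℝ
    (chartAt E (γ.x (j + 1)) ∘ (chartAt E (γ.x j)).symm) (γ.c j 1) (W j v 1)) j
  have hstep : ∀ j < n, ∀ t ∈ Icc (0 : ℝ) 1,
      √(k.G (γ.x j) (γ.c j t) (W j (v j) t) (W j (v j) t)) ≤
        √(k.G (γ.x j) (γ.c j 0) (v j) (v j)) + √(γ.seg k j) := by
    intro j hj t ht
    have := field_norm k (γ.x j) (γ.cont j hj) (γ.der j hj) (γ.maps j hj) (hW1 j (v j) hj) t ht
    rwa [hW0] at this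
  have hind : ∀ j < n, √(k.G (γ.x j) (γ.c j 0) (v j) (v j)) ≤
      ∑ i ∈ Finset.range j, √(γ.seg k i) := by
    intro j
    induction j with
    | zero => intro _; simp [v]
    | succ j ih =>
      intro hj
      have hj' : j < n := by omega
      have h1 := k.compat (γ.x j) (γ.x (j + 1)) (γ.q (j + 1))
        ⟨(S4_right γ hj').1, (S4_left γ hj).1⟩ (W j (v j) 1) (W j (v j) 1)
      rw [(S4_right γ hj').2, (S4_left γ hj).2] at h1
      have h2 : v (j + 1) = fderiv ℝ (chartAt E (γ.x (j + 1)) ∘ (chartAt E (γ.x j)).symm)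
        (γ.c j 1) (W j (v j) 1) := rfl
      rw [h2, h1, Finset.sum_range_succ]
      exact (hstep j hj' 1 (right_mem_Icc.2 zero_le_one)).trans (by linarith [ih hj'])
  refine ⟨fun j => W j (v j), hW0 _ _, fun j => hW0 _ _, fun j hj => hW1 j _ hj,
    fun j hj t ht => ?_⟩
  rw [← Real.sqrt_le_sqrt_iff (S4_energy_nonneg k γ)]
  have h3 := γ.sum_sqrt_le k (j := j + 1) hj
  rw [Finset.sum_range_succ] at h3
  linarith [hstep j hj t ht, hind j hj]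

variable [IsManifold 𝓘(ℂ, E) ω B]

/-- short chains can be moved into good charts -/
theorem S4_chart (k : KData E B) {p : B} {s : Finset B} {A : B → Set E} {δ : ℝ} (hδ : 0 < δ)
    (hc : ∀ q, edist p q ≤ 1 → ∃ y ∈ s, ∀ q', edist q q' < ENNReal.ofReal δ →
      q' ∈ (chartAt E y).source ∧ chartAt E y q' ∈ A y)
    {n : ℕ} (hn : 1 < n * δ ^ 2) (γ : Chain E n p) (h1 : γ.energy k ≤ 1) :
    ∃ γ' : Chain E n p, γ'.q = γ.q ∧ γ'.energy k = γ.energy k ∧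
      ∀ j < n, γ'.x j ∈ s ∧ ∀ t ∈ Icc (0 : ℝ) 1, γ'.c j t ∈ A (γ'.x j) := by
  have hy : ∀ j, ∃ y, j < n → y ∈ s ∧ ∀ t ∈ Icc (0 : ℝ) 1,
      (chartAt E (γ.x j)).symm (γ.c j t) ∈ (chartAt E y).source ∧
        chartAt E y ((chartAt E (γ.x j)).symm (γ.c j t)) ∈ A y := by
    intro j
    by_cases hj : j < n
    · obtain ⟨y, hy, h⟩ := hc (γ.q j) ((γ.edist_le k hj.le).trans (by
        rw [ENNReal.ofReal_le_one]; exact Real.sqrt_le_one.2 h1))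
      refine ⟨y, fun _ => ⟨hy, fun t ht => h _ ((γ.edist_seg k hj ht).trans_lt ?_)⟩⟩
      rw [ENNReal.ofReal_lt_ofReal_iff hδ, Real.sqrt_lt' hδ]
      have h2 : γ.seg k j ≤ ∑ i ∈ Finset.range n, γ.seg k i :=
        Finset.single_le_sum (fun i hi => γ.seg_nonneg k (Finset.mem_range.1 hi))
          (Finset.mem_range.2 hj)
      have h3 : (0 : ℝ) < n := by exact_mod_cast (by omega : 0 < n)
      have h4 : n * γ.seg k j ≤ γ.energy k := mul_le_mul_of_nonneg_left h2 h3.le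
      exact lt_of_mul_lt_mul_left (by linarith) h3.le
    · exact ⟨p, fun h => absurd h hj⟩
  choose y hy using hy
  obtain ⟨γ', e1, e2, e3, e4⟩ := γ.rechart k y (fun j hj t ht => ((hy j hj).2 t ht).1)
  refine ⟨γ', e2, ?_, fun j hj => ⟨e1 ▸ (hy j hj).1, fun t ht => ?_⟩⟩
  · unfold Chain.energy
    rw [Finset.sum_congr rfl fun j hj => e3 j (Finset.mem_range.1 hj)]
  · rw [e4 j hj t ht, e1]
    exact ((hy j hj).2 t ht).2

/-- holomorphic variation of chains -/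
theorem chain_var (k : KData E B) (p : B) : ∃ (n : ℕ) (C ρ : ℝ), 0 < n ∧ 0 < C ∧ 0 < ρ ∧
    ∀ γ : Chain E n p, γ.energy k ≤ 1 → ∃ (x : B) (z V : E) (γ' : ℂ → Chain E n p),
      γ.q n = (chartAt E x).symm z ∧ ∀ ζ : ℂ, ‖ζ‖ ≤ ρ →
        z + ζ • V ∈ (chartAt E x).target ∧ (γ' ζ).q n = (chartAt E x).symm (z + ζ • V) ∧
        |(γ' ζ).energy k - (1 + 2 * ζ.re) * γ.energy k| ≤ C * ‖ζ‖ ^ 2 ∧
        (γ' ζ).energy k + (γ' (I * ζ)).energy k + (γ' (-ζ)).energy k +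
          (γ' (-(I * ζ))).energy k ≤ 4 * γ.energy k +
          4 * ‖ζ‖ ^ 2 * (1 + k.K / 2 * γ.energy k) * γ.energy k + C * ‖ζ‖ ^ 3 := by
  obtain ⟨s, A, r, M, δ, hr, hM, hδ, hB, hT, hc⟩ := unif_cover k p
  obtain ⟨M', ρ₁, hM', hρ₁, hL⟩ := line_taylor (E := E) hr (by linarith : 0 < M + 1)
  obtain ⟨C, ρ₂, hC, hρ₂, hP⟩ := point_taylor k hr (by linarith : 0 < M + 1 + M')
  obtain ⟨m, hm⟩ := exists_nat_gt (1 / δ ^ 2)
  have hn : 1 < ((m + 1 : ℕ) : ℝ) * δ ^ 2 := by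
    rw [div_lt_iff₀ (by positivity)] at hm
    push_cast
    nlinarith [sq_pos_of_pos hδ]
  refine ⟨m + 1, C * (((m + 1 : ℕ) : ℝ) ^ 2 + 1), min ρ₁ ρ₂, by omega, by positivity,
    lt_min hρ₁ hρ₂, fun γ₀ h₀ => ?_⟩
  obtain ⟨γ, eq, ee, hA⟩ := S4_chart k hδ hc hn γ₀ h₀
  rw [← eq, ← ee]
  rw [← ee] at h₀
  clear eq ee γ₀
  obtain ⟨V, hV0, hVs, hV, hVE⟩ := S4_field k γ
  have hBd : ∀ j < m + 1, ∀ t ∈ Icc (0 : ℝ) 1, k.Bd r M (γ.x j) (γ.c j t) :=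
    fun j hj t ht => hB _ (hA j hj).1 _ ((hA j hj).2 t ht)
  have hVn : ∀ j < m + 1, ∀ t ∈ Icc (0 : ℝ) 1, ‖V j t‖ ≤ M + 1 := by
    intro j hj t ht
    have h1 := ((hBd j hj t ht).2 _ (mem_closedBall_self hr.le)).1 (V j t)
    have h2 := mul_le_mul_of_nonneg_left ((hVE j hj t ht).trans h₀) hM.le
    exact le_of_sq_le_sq (by nlinarith) (by linarith)
  have hR : ∀ j, ∃ (R : ℂ → E) (R₂ : E), j < m + 1 → ‖R₂‖ ≤ M' ∧ ∀ ξ : ℂ, ‖ξ‖ ≤ ρ₁ →
      ‖R ξ - ξ ^ 2 • R₂‖ ≤ M' * ‖ξ‖ ^ 3 ∧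
        (chartAt E (γ.x j)).symm (γ.c j 0 + ξ • V j 0 + R ξ) = S4Q γ V ξ j := by
    intro j
    by_cases hj : j < m + 1
    swap
    · exact ⟨0, 0, fun h => absurd h hj⟩
    cases j with
    | zero =>
      refine ⟨0, 0, fun _ => ⟨by simpa using hM'.le, fun ξ _ => ⟨by simp; positivity, ?_⟩⟩⟩
      simp [hV0, S4Q, γ.left 0 hj, γ.q0]
    | succ j =>
      have hj' : j < m + 1 := by omega
      have o1 : (1 : ℝ) ∈ Icc (0 : ℝ) 1 := right_mem_Icc.2 zero_le_one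
      have o0 : (0 : ℝ) ∈ Icc (0 : ℝ) 1 := left_mem_Icc.2 zero_le_one
      obtain ⟨a1, a2⟩ := S4_right γ hj'
      obtain ⟨b1, b2⟩ := S4_left γ hj
      obtain ⟨d1, d2⟩ := hT _ (hA j hj').1 _ (hA _ hj).1 _ ⟨a1, b1⟩
        (a2 ▸ (hA j hj').2 1 o1) (b2 ▸ (hA _ hj).2 0 o0)
      rw [a2] at d1 d2
      rw [b2] at d2
      have e0 : (chartAt E (γ.x (j + 1)) ∘ (chartAt E (γ.x j)).symm) (γ.c j 1) =
          γ.c (j + 1) 0 := by
        rw [Function.comp_apply, γ.right j hj', b2]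
      obtain ⟨R₂, f1, f2⟩ := hL _ _ (V j 1) d1
        (fun w hw => by rw [e0]; exact (d2 w hw).2.trans (by linarith)) (hVn j hj' 1 o1)
      refine ⟨fun ξ => (chartAt E (γ.x (j + 1)) ∘ (chartAt E (γ.x j)).symm)
        (γ.c j 1 + ξ • V j 1) - γ.c (j + 1) 0 - ξ • V (j + 1) 0, R₂,
        fun _ => ⟨f1, fun ξ hξ => ⟨?_, ?_⟩⟩⟩
      · have := (f2 ξ hξ).2
        rwa [e0, ← hVs] at this
      · have e1 : ∀ a b c : E, a + b + (c - a - b) = c := fun a b c => by abel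
        rw [e1]
        exact (chartAt E _).left_inv (d2 _ (f2 ξ hξ).1).1
  choose R R₂ hR using hR
  have hpt : ∀ ζ : ℂ, ‖ζ‖ ≤ min ρ₁ ρ₂ → ∀ j < m + 1, ∀ t ∈ Icc (0 : ℝ) 1, _ :=
    fun ζ hζ j hj t ht => hP (γ.x j) (γ.c j t) (γ.c' j t) (V j t) (R₂ j) (R j) (1 - t) ζ
      (S4_Bd_mono (hBd j hj t ht) (by linarith)) ((hVn j hj t ht).trans (by linarith))
      ((hR j hj).1.trans (by linarith)) ⟨by linarith [ht.2], by linarith [ht.1]⟩
      (hζ.trans (min_le_right _ _))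
      (fun ξ hξ => (((hR j hj).2 ξ (hξ ▸ hζ.trans (min_le_left _ _))).1).trans
        (mul_le_mul_of_nonneg_right (by linarith) (by positivity))) _ (fun _ => rfl)
  have hγ : ∀ ξ : ℂ, ∃ γ' : Chain E (m + 1) p, ‖ξ‖ ≤ min ρ₁ ρ₂ →
      γ'.x = γ.x ∧ γ'.q = S4Q γ V ξ ∧
      (∀ j t, γ'.c j t = γ.c j t + ξ • V j t + (1 - t) • R j ξ) ∧
      ∀ j t, γ'.c' j t = γ.c' j t +
        ξ • (γ.c' j t - k.Γ (γ.x j) (γ.c j t) (γ.c' j t) (V j t)) - R j ξ := by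
    intro ξ
    by_cases hξ : ‖ξ‖ ≤ min ρ₁ ρ₂
    · obtain ⟨γ', h⟩ := S4_vary k γ V hV (fun j => R j ξ) ξ
        (fun j hj t ht => (hBd j hj t ht).1 (hpt ξ hξ j hj t ht).1)
        (fun j hj => ((hR j hj).2 ξ (hξ.trans (min_le_left _ _))).2)
      exact ⟨γ', fun _ => h⟩
    · exact ⟨γ, fun h => absurd h hξ⟩
  choose γ' hγ' using hγ
  have hG : ∀ ξ : ℂ, ‖ξ‖ ≤ min ρ₁ ρ₂ → ∀ j t,
      k.G ((γ' ξ).x j) ((γ' ξ).c j t) ((γ' ξ).c' j t) ((γ' ξ).c' j t) =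
      k.G (γ.x j) (γ.c j t + ξ • V j t + (1 - t) • R j ξ)
        (γ.c' j t + ξ • (γ.c' j t - k.Γ (γ.x j) (γ.c j t) (γ.c' j t) (V j t)) - R j ξ)
        (γ.c' j t + ξ • (γ.c' j t - k.Γ (γ.x j) (γ.c j t) (γ.c' j t) (V j t)) - R j ξ) := by
    intro ξ hξ j t
    obtain ⟨e1, -, e2, e3⟩ := hγ' ξ hξ
    rw [e1, e2, e3]
  have hN : (0 : ℝ) ≤ ((m + 1 : ℕ) : ℝ) := Nat.cast_nonneg _
  refine ⟨γ.x m, γ.c m 1, V m 1, γ', (γ.right m (by omega)).symm, fun ζ hζ => ⟨?_, ?_, ?_, ?_⟩⟩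
  · have o1 : (1 : ℝ) ∈ Icc (0 : ℝ) 1 := right_mem_Icc.2 zero_le_one
    have := (hBd m (by omega) 1 o1).1 (hpt ζ hζ m (by omega) 1 o1).1
    simpa using this
  · rw [(hγ' ζ hζ).2.1]; rfl
  · have h1 : ∀ j ∈ Finset.range (m + 1), |(γ' ζ).seg k j - (1 + 2 * ζ.re) * γ.seg k j| ≤
        C * ‖ζ‖ ^ 2 * (1 + γ.seg k j) := by
      intro j hj
      have hj := Finset.mem_range.1 hj
      refine S4_abs (S4_int k _ hj) (S4_int k _ hj) fun t ht => ?_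
      rw [hG ζ hζ]
      exact (hpt ζ hζ j hj t ht).2.1.trans_eq (by ring)
    have h2 := (Finset.abs_sum_le_sum_abs _ _).trans (Finset.sum_le_sum h1)
    rw [Finset.sum_sub_distrib, ← Finset.mul_sum, ← Finset.mul_sum, Finset.sum_add_distrib,
      Finset.sum_const, Finset.card_range, nsmul_eq_mul, mul_one] at h2
    have h3 := mul_le_mul_of_nonneg_left h2 hN
    rw [← abs_of_nonneg hN, ← abs_mul, abs_of_nonneg hN] at h3
    unfold Chain.energy at h₀ ⊢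
    have h4 := mul_le_mul_of_nonneg_left h₀ (by positivity : 0 ≤ C * ‖ζ‖ ^ 2)
    refine le_trans (le_of_eq (congrArg _ (by ring))) (h3.trans ?_)
    nlinarith
  · have n1 : ‖I * ζ‖ ≤ min ρ₁ ρ₂ := by simpa using hζ
    have n2 : ‖-ζ‖ ≤ min ρ₁ ρ₂ := by simpa using hζ
    have n3 : ‖-(I * ζ)‖ ≤ min ρ₁ ρ₂ := by simpa using hζ
    have h1 : ∀ j ∈ Finset.range (m + 1), (γ' ζ).seg k j + (γ' (I * ζ)).seg k j +
        (γ' (-ζ)).seg k j + (γ' (-(I * ζ))).seg k j ≤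
        (4 + 4 * ‖ζ‖ ^ 2 * (1 + k.K / 2 * γ.energy k) + C * ‖ζ‖ ^ 3) * γ.seg k j +
          C * ‖ζ‖ ^ 3 := by
      intro j hj
      have hj := Finset.mem_range.1 hj
      refine S4_four (S4_int k _ hj) (S4_int k _ hj) (S4_int k _ hj) (S4_int k _ hj)
        (S4_int k _ hj) fun t ht => ?_
      rw [hG ζ hζ, hG _ n1, hG _ n2, hG _ n3]
      refine (hpt ζ hζ j hj t ht).2.2.trans ?_
      have g1 := S4_G_nonneg k (γ.maps j hj ht) (γ.c' j t)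
      have g2 := mul_le_mul_of_nonneg_left (hVE j hj t ht)
        (mul_nonneg (mul_nonneg (sq_nonneg ‖ζ‖) k.K_nonneg) g1)
      nlinarith
    have h2 := Finset.sum_le_sum h1
    simp only [Finset.sum_add_distrib, ← Finset.mul_sum, Finset.sum_const, Finset.card_range,
      nsmul_eq_mul] at h2
    have h3 := mul_le_mul_of_nonneg_left h2 hN
    have h4 := mul_le_mul_of_nonneg_left h₀ (by positivity : 0 ≤ C * ‖ζ‖ ^ 3)
    have e0 : γ.energy k = ((m + 1 : ℕ) : ℝ) * ∑ j ∈ Finset.range (m + 1), γ.seg k j := rfl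
    have e1 : ∀ ξ, (γ' ξ).energy k =
      ((m + 1 : ℕ) : ℝ) * ∑ j ∈ Finset.range (m + 1), (γ' ξ).seg k j := fun _ => rfl
    rw [e1, e1, e1, e1]
    generalize γ.energy k = e at *
    generalize 4 * ‖ζ‖ ^ 2 * (1 + k.K / 2 * e) = u at *
    have h5 : ((m + 1 : ℕ) : ℝ) * ((4 + u + C * ‖ζ‖ ^ 3) *
        ∑ j ∈ Finset.range (m + 1), γ.seg k j) = (4 + u + C * ‖ζ‖ ^ 3) * e := by rw [e0]; ring
    nlinarith

end Pool.Agent.MP_e62289_ag

end

section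

open Set Filter Topology Complex MeasureTheory Metric
open scoped Manifold ContDiff ComplexConjugate NNReal ENNReal

namespace Pool.Agent.MP_e62289_ag

variable {E : Type} [NormedAddCommGroup E] [NormedSpace ℂ E] [FiniteDimensional ℂ E]
  {B : Type} [EMetricSpace B] [ChartedSpace E B] [IsManifold 𝓘(ℂ, E) ω B]

omit [IsManifold 𝓘(ℂ, E) ω B] in
theorem S5a_energy_nonneg (k : KData E B) {n : ℕ} {p : B} (γ : Chain E n p) :
    0 ≤ γ.energy k :=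
  mul_nonneg (Nat.cast_nonneg _)
    (Finset.sum_nonneg fun _ hj => γ.seg_nonneg k (Finset.mem_range.1 hj))

omit [IsManifold 𝓘(ℂ, E) ω B] in
/-- a crude linear bound by the energy -/
theorem S5a_crude (k : KData E B) (p : B) (h : B → ℂ) (H : ℝ) (hH : ∀ q, ‖h q‖ ≤ H)
    (hC : ∃ C : ℝ, ∀ᶠ q in 𝓝 p, ‖h q‖ ≤ C * ‖chartAt E p q - chartAt E p p‖ ^ 2) (n : ℕ) :
    ∃ C1 : ℝ, 0 < C1 ∧ ∀ γ : Chain E n p, ‖h (γ.q n)‖ ≤ C1 * γ.energy k := by
  obtain ⟨C, hC⟩ := hC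
  obtain ⟨C', hC'⟩ := k.lower p
  obtain ⟨ε, hε, hsub⟩ := EMetric.mem_nhds_iff.1 (hC.and hC')
  obtain ⟨δ, hδ0, hδ⟩ := ENNReal.lt_iff_exists_nnreal_btwn.1 hε
  have hδ0' : (0 : ℝ) < δ := by exact_mod_cast hδ0
  have hH0 : 0 ≤ H := (norm_nonneg _).trans (hH p)
  refine ⟨|C| * C' ^ 2 + H / δ ^ 2 + 1, by positivity, fun γ => ?_⟩
  have he := S5a_energy_nonneg k γ
  have hd := γ.edist_le k le_rfl
  by_cases hs : √(γ.energy k) ≤ δ
  · have hmem : γ.q n ∈ eball p ε := by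
      rw [mem_eball']
      refine hd.trans_lt (lt_of_le_of_lt ?_ hδ)
      rw [← ENNReal.ofReal_coe_nnreal]
      exact ENNReal.ofReal_le_ofReal hs
    obtain ⟨h1, h2⟩ := hsub hmem
    have h3 : ‖chartAt E p (γ.q n) - chartAt E p p‖ ≤ C' * √(γ.energy k) := by
      have h4 := h2.trans (mul_le_mul_right hd _)
      rw [← ENNReal.ofReal_coe_nnreal, ← ENNReal.ofReal_mul C'.coe_nonneg, ← ofReal_norm,
        ENNReal.ofReal_le_ofReal_iff (by positivity)] at h4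
      exact h4
    have h5 : ‖chartAt E p (γ.q n) - chartAt E p p‖ ^ 2 ≤ C' ^ 2 * γ.energy k := by
      calc _ ≤ (C' * √(γ.energy k)) ^ 2 := by gcongr
        _ = _ := by rw [mul_pow, Real.sq_sqrt he]
    have h6 : 0 ≤ (H / δ ^ 2 + 1) * γ.energy k := by positivity
    calc ‖h (γ.q n)‖ ≤ |C| * ‖chartAt E p (γ.q n) - chartAt E p p‖ ^ 2 :=
          h1.trans (mul_le_mul_of_nonneg_right (le_abs_self _) (by positivity))
      _ ≤ |C| * (C' ^ 2 * γ.energy k) := by gcongr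
      _ ≤ _ := by nlinarith
  · rw [not_le] at hs
    have h1 : (δ : ℝ) ^ 2 ≤ γ.energy k := (Real.lt_sqrt hδ0'.le).1 hs |>.le
    have h2 : H ≤ H / δ ^ 2 * γ.energy k := by
      rw [div_mul_eq_mul_div, le_div_iff₀ (by positivity)]
      gcongr
    have h3 : 0 ≤ (|C| * C' ^ 2 + 1) * γ.energy k := by positivity
    nlinarith [hH (γ.q n)]

/-- the maximum principle for a fourfold product -/
theorem S5a_four {f : ℂ → ℂ} {r : ℝ} (hr : 0 < r)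
    (hf : ∀ ζ : ℂ, ‖ζ‖ ≤ r → DifferentiableAt ℂ f ζ) :
    ∃ ζ : ℂ, ‖ζ‖ = r ∧ ‖f 0‖ ^ 4 ≤ ‖f ζ‖ * ‖f (I * ζ)‖ * ‖f (-ζ)‖ * ‖f (-(I * ζ))‖ := by
  have hF : DiffContOnCl ℂ (fun ζ => f ζ * f (I * ζ) * f (-ζ) * f (-(I * ζ))) (ball 0 r) := by
    refine DifferentiableOn.diffContOnCl fun ζ hζ => DifferentiableAt.differentiableWithinAt ?_
    rw [closure_ball _ hr.ne', mem_closedBall_zero_iff] at hζ
    have h1 : DifferentiableAt ℂ (fun ζ => f (I * ζ)) ζ :=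
      (hf (I * ζ) (by simpa using hζ)).comp ζ (by fun_prop)
    have h2 : DifferentiableAt ℂ (fun ζ => f (-ζ)) ζ :=
      (hf (-ζ) (by simpa using hζ)).comp ζ (by fun_prop)
    have h3 : DifferentiableAt ℂ (fun ζ => f (-(I * ζ))) ζ :=
      (hf (-(I * ζ)) (by simpa using hζ)).comp ζ (f := fun ζ => -(I * ζ)) (by fun_prop)
    exact (((hf ζ hζ).mul h1).mul h2).mul h3
  obtain ⟨ζ, hζ, hmax⟩ := Complex.exists_mem_frontier_isMaxOn_norm isBounded_ball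
    (nonempty_ball.2 hr) hF
  rw [frontier_ball _ hr.ne', mem_sphere_zero_iff_norm] at hζ
  refine ⟨ζ, hζ, ?_⟩
  have := hmax (subset_closure (mem_ball_self hr))
  simp only [mem_ofPred_eq, Function.comp, norm_mul, mul_zero, neg_zero] at this
  calc ‖f 0‖ ^ 4 = ‖f 0‖ * ‖f 0‖ * ‖f 0‖ * ‖f 0‖ := by ring
    _ ≤ _ := this

/-- the second order Schwarz lemma along chains -/
theorem schwarz_chain (k : KData E B) : ∃ CS E₀ : ℝ, 0 < CS ∧ 0 < E₀ ∧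
    ∀ (p : B) (h : B → ℂ) (H : ℝ), DiscHol E h → (∀ q, ‖h q‖ ≤ H) →
      (∃ C : ℝ, ∀ᶠ q in 𝓝 p, ‖h q‖ ≤ C * ‖chartAt E p q - chartAt E p p‖ ^ 2) →
      ∃ n : ℕ, 0 < n ∧ ∀ γ : Chain E n p, γ.energy k ≤ E₀ →
        ‖h (γ.q n)‖ ≤ CS * H * γ.energy k := by
  have hK := k.K_nonneg
  refine ⟨4 * (k.K + 1) * Real.exp 1, 1 / (2 * (k.K + 1)), by positivity, by positivity,
    fun p h H hh hH hC => ?_⟩
  obtain ⟨n, C, ρ, hn, hC0, hρ, hv⟩ := chain_var k p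
  obtain ⟨C1, hC1, hc⟩ := S5a_crude k p h H hH hC n
  refine ⟨n, hn, fun γ hγ => S5a_abstract (e := fun γ : Chain E n p => γ.energy k)
    (a := fun γ : Chain E n p => ‖h (γ.q n)‖) hK hC0.le hρ hC1 (S5a_energy_nonneg k)
    (fun _ => norm_nonneg _) (fun _ => hH _) (fun γ _ => hc γ) ?_ γ hγ⟩
  intro γ hγ r hr hrρ
  obtain ⟨x, z, V, γ', hq, hγ'⟩ := hv γ hγ
  obtain ⟨ζ, hζ, hmax⟩ := S5a_four (f := fun ζ => h ((chartAt E x).symm (z + ζ • V))) hr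
    fun ζ hζ => hh x (fun ζ => z + ζ • V) ζ (by fun_prop) (hγ' ζ (hζ.trans hrρ)).1
  have n0 : ‖ζ‖ ≤ ρ := hζ ▸ hrρ
  have n1 : ‖I * ζ‖ = r := by simpa using hζ
  have n2 : ‖-ζ‖ = r := by simpa using hζ
  have n3 : ‖-(I * ζ)‖ = r := by simpa using hζ
  obtain ⟨-, q0, e0, es⟩ := hγ' ζ n0
  obtain ⟨-, q1, e1, -⟩ := hγ' (I * ζ) (n1 ▸ hrρ)
  obtain ⟨-, q2, e2, -⟩ := hγ' (-ζ) (n2 ▸ hrρ)
  obtain ⟨-, q3, e3, -⟩ := hγ' (-(I * ζ)) (n3 ▸ hrρ)
  rw [hζ] at e0 es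
  rw [n1] at e1
  rw [n2] at e2
  rw [n3] at e3
  refine ⟨γ' ζ, γ' (I * ζ), γ' (-ζ), γ' (-(I * ζ)), ζ.re, ζ.im, ?_, ?_, e0, ?_, ?_, ?_, es⟩
  · rw [← hζ, Complex.sq_norm, Complex.normSq_apply]
    ring
  · simp only [q0, q1, q2, q3, hq]
    simpa using hmax
  · simpa using e1
  · simpa using e2
  · simpa using e3

end Pool.Agent.MP_e62289_ag

end

section

open Set Filter Topology Complex MeasureTheory Metric
open scoped Manifold ContDiff ComplexConjugate NNReal ENNReal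

namespace Pool.Agent.MP_e62289_ag

variable {E : Type} [NormedAddCommGroup E] [NormedSpace ℂ E] [FiniteDimensional ℂ E]
  {B : Type} [EMetricSpace B] [ChartedSpace E B] [IsManifold 𝓘(ℂ, E) ω B]

/-- the second order Schwarz lemma -/
theorem schwarzS (k : KData E B) : ∃ CS : ℝ, 0 < CS ∧
    ∀ (p : B) (h : B → ℂ) (H : ℝ), DiscHol E h → (∀ q, ‖h q‖ ≤ H) →
      (∃ C : ℝ, ∀ᶠ q in 𝓝 p, ‖h q‖ ≤ C * ‖chartAt E p q - chartAt E p p‖ ^ 2) →
      ∀ c : ℂ → E, AnalyticAt ℂ c 0 → c 0 = chartAt E p p → ∀ η : ℝ, 0 < η →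
        ∀ᶠ t : ℝ in 𝓝[>] 0, ‖h ((chartAt E p).symm (c t))‖ ≤
          (CS * H * k.G p (c 0) (deriv c 0) (deriv c 0) + η) * t ^ 2 := by
  obtain ⟨CS, E₀, hCS, hE₀, hmain⟩ := schwarz_chain k
  refine ⟨CS, hCS, ?_⟩
  intro p h H hh hH hC c hc hc0 η hη
  obtain ⟨n, hn, hγ⟩ := hmain p h H hh hH hC
  have hH0 : 0 ≤ H := (norm_nonneg _).trans (hH p)
  have hnR : (0 : ℝ) < n := by exact_mod_cast hn
  have hT : c 0 ∈ (chartAt E p).target := by
    rw [hc0]; exact mem_chart_target E p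
  set G₀ : ℝ := k.G p (c 0) (deriv c 0) (deriv c 0) with hG₀
  have hG0 : 0 ≤ G₀ := by
    by_cases hv : deriv c 0 = 0
    · simp [hG₀, hv]
    · exact (k.pos p _ hT _ hv).le
  set η' : ℝ := η / (CS * H + 1) with hη'
  have hCH : 0 ≤ CS * H := mul_nonneg hCS.le hH0
  have hη'0 : 0 < η' := div_pos hη (by linarith)
  have hη'1 : CS * H * η' ≤ η := by
    rw [hη', ← mul_div_assoc, div_le_iff₀ (by linarith)]
    nlinarith
  have hGc : ContinuousAt (k.G p) (c 0) :=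
    (k.smooth p).continuousOn.continuousAt ((chartAt E p).open_target.mem_nhds hT)
  have hg : ContinuousAt (fun s => k.G p (c s) (deriv c s) (deriv c s)) 0 :=
    ((ContinuousAt.comp hGc hc.continuousAt).clm_apply hc.deriv.continuousAt).clm_apply
      hc.deriv.continuousAt
  have hev : ∀ᶠ s in 𝓝 (0 : ℂ), AnalyticAt ℂ c s ∧ c s ∈ (chartAt E p).target ∧
      |k.G p (c s) (deriv c s) (deriv c s)| ≤ G₀ + η' := by
    refine hc.eventually_analyticAt.and (Filter.Eventually.and ?_ ?_)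
    · exact hc.continuousAt.eventually_mem ((chartAt E p).open_target.mem_nhds hT)
    · have h1 : ContinuousAt (fun s => |k.G p (c s) (deriv c s) (deriv c s)|) 0 := hg.abs
      refine (h1.eventually_lt continuousAt_const ?_).mono fun _ hs => hs.le
      show |G₀| < G₀ + η'
      rw [abs_of_nonneg hG0]; linarith
  obtain ⟨r, hr, hball⟩ := Metric.eventually_nhds_iff.1 hev
  have hsmall : ∀ᶠ t : ℝ in 𝓝 0, t ^ 2 * (G₀ + η') ≤ E₀ := by
    have h1 : ContinuousAt (fun t : ℝ => t ^ 2 * (G₀ + η')) 0 := by fun_prop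
    refine (h1.eventually_lt continuousAt_const ?_).mono fun _ hs => hs.le
    simpa using hE₀
  have hlt : ∀ᶠ t : ℝ in 𝓝 0, t < r := eventually_lt_nhds hr
  filter_upwards [nhdsWithin_le_nhds hsmall, nhdsWithin_le_nhds hlt, self_mem_nhdsWithin]
    with t htE htr ht0
  have ht0 : 0 < t := ht0
  let φ : ℕ → ℝ → ℂ := fun j s => ((t * (j + s) / n : ℝ) : ℂ)
  have hφ : ∀ j < n, ∀ s ∈ Icc (0 : ℝ) 1, AnalyticAt ℂ c (φ j s) ∧
      c (φ j s) ∈ (chartAt E p).target ∧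
      |k.G p (c (φ j s)) (deriv c (φ j s)) (deriv c (φ j s))| ≤ G₀ + η' := by
    intro j hj s hs
    apply hball
    have hj' : (j : ℝ) + 1 ≤ n := by exact_mod_cast hj
    have h0 : 0 ≤ t * (j + s) / n := by have := hs.1; positivity
    have h1 : t * (j + s) / n ≤ t := by
      rw [div_le_iff₀ hnR]
      exact mul_le_mul_of_nonneg_left (by linarith [hs.2]) ht0.le
    simp only [φ, dist_zero_right, Complex.norm_real, Real.norm_eq_abs, abs_of_nonneg h0]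
    linarith
  have hφc : ∀ j, Continuous (φ j) := fun j => by
    simp only [φ]; fun_prop
  have hφd : ∀ j s, HasDerivAt (φ j) ((t / n : ℝ) : ℂ) s := by
    intro j s
    have h1 : HasDerivAt (fun s : ℝ => t * (j + s) / n) (t / n) s := by
      simpa using (((hasDerivAt_id s).const_add (j : ℝ)).const_mul t).div_const (n : ℝ)
    exact h1.ofReal_comp
  let γ : Chain E n p :=
    { x := fun _ => p
      q := fun j => (chartAt E p).symm (c (φ j 0))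
      c := fun j s => c (φ j s)
      c' := fun j s => ((t / n : ℝ) : ℂ) • deriv c (φ j s)
      q0 := by
        have : φ 0 0 = 0 := by simp [φ]
        rw [this, hc0]
        exact (chartAt E p).left_inv (mem_chart_source E p)
      cont := fun j hj s hs =>
        (ContinuousAt.const_smul (ContinuousAt.comp (hφ j hj s hs).1.deriv.continuousAt
          (hφc j).continuousAt) _).continuousWithinAt
      der := fun j hj s hs =>
        (HasDerivAt.scomp s (hφ j hj s hs).1.differentiableAt.hasDerivAt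
          (hφd j s)).hasDerivWithinAt
      maps := fun j hj s hs => (hφ j hj s hs).2.1
      left := fun j _ => rfl
      right := fun j _ => by
        have : φ j 1 = φ (j + 1) 0 := by simp [φ]
        rw [this] }
  have hseg : ∀ j ∈ Finset.range n, γ.seg k j ≤ (t / n) ^ 2 * (G₀ + η') := by
    intro j hj
    have hj := Finset.mem_range.1 hj
    have h1 := intervalIntegral.norm_integral_le_of_norm_le_const (a := 0) (b := 1)
      (C := (t / n) ^ 2 * (G₀ + η'))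
      (f := fun s => k.G (γ.x j) (γ.c j s) (γ.c' j s) (γ.c' j s)) (by
        intro s hs
        rw [uIoc_of_le zero_le_one] at hs
        have h2 := (hφ j hj s ⟨hs.1.le, hs.2⟩).2.2
        have h3 : k.G (γ.x j) (γ.c j s) (γ.c' j s) (γ.c' j s) =
            (t / n) ^ 2 * k.G p (c (φ j s)) (deriv c (φ j s)) (deriv c (φ j s)) := by
          show k.G p (c (φ j s)) (((t / n : ℝ) : ℂ) • deriv c (φ j s))
            (((t / n : ℝ) : ℂ) • deriv c (φ j s)) = _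
          rw [Complex.coe_smul]
          simp only [map_smul, smul_apply, smul_eq_mul]
          ring
        rw [h3, Real.norm_eq_abs, abs_mul, abs_of_nonneg (sq_nonneg _)]
        exact mul_le_mul_of_nonneg_left h2 (sq_nonneg _))
    simp only [sub_zero, abs_one, mul_one, Real.norm_eq_abs] at h1
    exact (le_abs_self _).trans h1
  have hen : γ.energy k ≤ t ^ 2 * (G₀ + η') := by
    have h1 := Finset.sum_le_sum hseg
    rw [Finset.sum_const, Finset.card_range, nsmul_eq_mul] at h1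
    calc γ.energy k = n * ∑ j ∈ Finset.range n, γ.seg k j := rfl
      _ ≤ n * (n * ((t / n) ^ 2 * (G₀ + η'))) := mul_le_mul_of_nonneg_left h1 hnR.le
      _ = t ^ 2 * (G₀ + η') := by field_simp
  have h1 := hγ γ (hen.trans htE)
  have hq : γ.q n = (chartAt E p).symm (c t) := by
    have : φ n 0 = t := by
      simp only [φ, add_zero]
      rw [mul_div_assoc, div_self hnR.ne', mul_one]
    show (chartAt E p).symm (c (φ n 0)) = _
    rw [this]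
  rw [hq] at h1
  calc _ ≤ CS * H * γ.energy k := h1
    _ ≤ CS * H * (t ^ 2 * (G₀ + η')) := mul_le_mul_of_nonneg_left hen hCH
    _ = (CS * H * G₀ + CS * H * η') * t ^ 2 := by ring
    _ ≤ (CS * H * G₀ + η) * t ^ 2 :=
      mul_le_mul_of_nonneg_right (by linarith) (sq_nonneg _)

end Pool.Agent.MP_e62289_ag

end

section



end
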