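import Pool.Agent.Mg.Fe62289.G840dbf
import Pool.Agent.Mg.Fe62289.G7c39dc
import Pool.Agent.Mg.Fe62289.G4439d1
import Pool.Agent.Mg.Fe62289.G9484af
import Pool.Agent.Mg.Fe62289.G3c9f97

section



end

section

open Set Filter Topology Complex MeasureTheory Metric
open scoped Manifold ContDiff ComplexConjugate NNReal ENNReal

namespace Pool.Agent.MP_e62289_ag

variable {E : Type} [NormedAddCommGroup E] [NormedSpace ℂ E] [FiniteDimensional ℂ E]
  {B : Type} [EMetricSpace B] [ChartedSpace E B] [IsManifold 𝓘(ℂ, E) ω B]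

theorem schwarzA (k : KData E B) (d : DData k) : ∃ CA : ℝ, ∀ f : ℂ → B,
    MDifferentiableOn 𝓘(ℂ, ℂ) 𝓘(ℂ, E) f (ball 0 1) →
    k.G (f 0) (chartAt E (f 0) (f 0)) (deriv (chartAt E (f 0) ∘ f) 0)
      (deriv (chartAt E (f 0) ∘ f) 0) ≤ CA := by
  obtain ⟨CA, h⟩ := plane_bound (2 * k.K) d.C
  refine ⟨CA, fun f hf => ?_⟩
  obtain ⟨w, β, h1, h2, h3, h4⟩ := disc_pull k d hf
  exact h4 ▸ h w β h1 h2 h3

end Pool.Agent.MP_e62289_ag

end

section

open Set Filter Topology Complex MeasureTheory Metric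
open scoped Manifold ContDiff ComplexConjugate NNReal ENNReal

namespace Pool.Agent.MP_e62289_ag

namespace Family

variable {E : Type} [NormedAddCommGroup E] [NormedSpace ℂ E] {B : Type} [TopologicalSpace B]
  [ChartedSpace E B] {n : ℕ} {a : Fin n → ℕ} (C : Family E B a)

/-- a smooth family of holomorphic local sections through the points of `W` over `b₀` -/
structure PreTriv (b₀ : B) (W : Set C.X) where
  U : Set B
  isOpen : IsOpen U
  mem : b₀ ∈ U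
  F : B → C.X → C.X
  proj : ∀ b ∈ U, ∀ x ∈ W, C.proj x = b₀ → C.proj (F b x) = b
  base : ∀ x ∈ W, C.proj x = b₀ → F b₀ x = x
  contF : ContinuousOn (fun p : B × C.X => F p.1 p.2) (U ×ˢ (W ∩ C.proj ⁻¹' {b₀}))
  smooth : ∀ x y, ContMDiffOn (𝓘(ℝ, E).prod 𝓘(ℝ, ℂ)) 𝓘(ℝ, ℂ) 2
    (fun p : B × ℂ => (C.chart y (F p.1 ((C.chart x).symm (p.2, b₀)))).1)
    {p | p.1 ∈ U ∧ (p.2, b₀) ∈ (C.chart x).target ∧ (C.chart x).symm (p.2, b₀) ∈ W ∧
      F p.1 ((C.chart x).symm (p.2, b₀)) ∈ (C.chart y).source}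
  hol : ∀ y, ∀ x ∈ W, C.proj x = b₀ → MDifferentiableOn 𝓘(ℂ, E) 𝓘(ℂ, ℂ)
    (fun b => (C.chart y (F b x)).1) {b | b ∈ U ∧ F b x ∈ (C.chart y).source}
  near : ∀ i, ∀ᶠ x in 𝓝 (C.sec i b₀), C.proj x = b₀ → ∀ b ∈ U,
    C.sec i b ∈ (C.chart (C.sec i b₀)).source ∧ F b x ∈ (C.chart (C.sec i b₀)).source ∧
      (C.chart (C.sec i b₀) (F b x)).1 = (C.chart (C.sec i b₀) x).1 -
        (C.chart (C.sec i b₀) (C.sec i b₀)).1 + (C.chart (C.sec i b₀) (C.sec i b)).1

variable [FiniteDimensional ℂ E] [IsManifold 𝓘(ℂ, E) ω B] [IsManifold 𝓘(ℝ, E) ∞ B]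

omit [FiniteDimensional ℂ E] [IsManifold 𝓘(ℂ, E) ω B] [IsManifold 𝓘(ℝ, E) ∞ B] in
theorem T1a_contAt {i : Fin n} {x : C.X} {b : B} (h : C.sec i b ∈ (C.chart x).source) :
    ContinuousAt (fun b => (C.chart x (C.sec i b)).1) b :=
  continuousAt_fst.comp (((C.chart x).continuousAt h).comp (C.cont_sec i).continuousAt)

omit [FiniteDimensional ℂ E] [IsManifold 𝓘(ℂ, E) ω B] [IsManifold 𝓘(ℝ, E) ∞ B] in
theorem T1a_box (b₀ : B) (i : Fin n) : ∃ (N : Set ℂ) (U : Set B), IsOpen N ∧ IsOpen U ∧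
    (C.chart (C.sec i b₀) (C.sec i b₀)).1 ∈ N ∧ b₀ ∈ U ∧
    (∀ b ∈ U, C.sec i b ∈ (C.chart (C.sec i b₀)).source) ∧
    ∀ z ∈ N, ∀ b ∈ U, (z - (C.chart (C.sec i b₀) (C.sec i b₀)).1 +
      (C.chart (C.sec i b₀) (C.sec i b)).1, b) ∈ (C.chart (C.sec i b₀)).target := by
  set s := C.sec i b₀ with hs
  have hc : ContinuousAt (fun p : ℂ × B =>
      (p.1 - (C.chart s s).1 + (C.chart s (C.sec i p.2)).1, p.2)) ((C.chart s s).1, b₀) := by
    refine ContinuousAt.prodMk (ContinuousAt.add (by fun_prop) ?_) continuousAt_snd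
    exact ContinuousAt.comp (f := Prod.snd) (C.T1a_contAt (C.mem_source s)) continuousAt_snd
  have hm : (fun p : ℂ × B => (p.1 - (C.chart s s).1 + (C.chart s (C.sec i p.2)).1, p.2))
      ((C.chart s s).1, b₀) ∈ (C.chart s).target := by
    have e := C.chart_eq (C.mem_source s)
    rw [show C.proj s = b₀ from C.proj_sec i b₀] at e
    simp only [sub_self, zero_add, ← hs]
    rw [e]
    exact (C.chart s).map_source (C.mem_source s)
  have h1 := hc.preimage_mem_nhds ((C.chart s).open_target.mem_nhds hm)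
  obtain ⟨N, U, hN, hzN, hU, hbU, hNU⟩ := mem_nhds_prod_iff'.1 h1
  refine ⟨N, U ∩ C.sec i ⁻¹' (C.chart s).source, hN,
    hU.inter ((C.chart s).open_source.preimage (C.cont_sec i)), hzN, ⟨hbU, C.mem_source s⟩,
    fun b hb => hb.2, fun z hz b hb => ?_⟩
  exact hNU (mk_mem_prod hz hb.1)

theorem T1a_trans {x y : C.X} {w : ℂ × B} (hx : w ∈ (C.chart x).target)
    (hy : (C.chart x).symm w ∈ (C.chart y).source) :
    ContMDiffAt (𝓘(ℝ, ℂ).prod 𝓘(ℝ, E)) 𝓘(ℝ, ℂ) 2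
      (fun w => (C.chart y ((C.chart x).symm w)).1) w := by
  have hO := ((C.chart x).symm ≫ₕ C.chart y).open_source
  refine ((smooth_of_hol hO (C.hol_chart x y)).contMDiffAt (hO.mem_nhds ?_)).of_le
    (WithTop.coe_le_coe.2 (le_top : (2 : ℕ∞) ≤ ⊤))
  exact ⟨hx, hy⟩

theorem T1a_sec {i : Fin n} {x : C.X} {b : B} (h : C.sec i b ∈ (C.chart x).source) :
    ContMDiffAt 𝓘(ℝ, E) 𝓘(ℝ, ℂ) 2 (fun b => (C.chart x (C.sec i b)).1) b := by
  have hO := (C.chart x).open_source.preimage (C.cont_sec i)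
  exact ((smooth_of_hol' hO (C.hol_sec i x)).contMDiffAt (hO.mem_nhds h)).of_le
    (WithTop.coe_le_coe.2 (le_top : (2 : ℕ∞) ≤ ⊤))

theorem preTriv_start (b₀ : B) :
    ∃ W, IsOpen W ∧ (∀ i, C.sec i b₀ ∈ W) ∧ Nonempty (C.PreTriv b₀ W) := by
  classical
  obtain ⟨O, hO, hdisj⟩ := (finite_range fun i => C.sec i b₀).t2_separation
  choose N U hN hU hzN hbU hsU hT using C.T1a_box b₀
  set s : Fin n → C.X := fun i => C.sec i b₀ with hs
  set W : Fin n → Set C.X := fun i =>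
    O (s i) ∩ ((C.chart (s i)).source ∩ C.chart (s i) ⁻¹' (Prod.fst ⁻¹' N i)) with hW
  have hWo : ∀ i, IsOpen (W i) := fun i =>
    (hO _).2.inter ((C.chart (s i)).isOpen_inter_preimage ((hN i).preimage continuous_fst))
  have hsW : ∀ i, s i ∈ W i := fun i => ⟨(hO _).1, C.mem_source _, hzN i⟩
  have huniq : ∀ i j x, x ∈ W i → x ∈ W j → i = j := by
    intro i j x hi hj
    by_contra hne
    exact Set.disjoint_left.1 (hdisj (mem_range_self i) (mem_range_self j)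
      fun h => hne (C.inj_sec b₀ h)) hi.1 hj.1
  set τ : Fin n → B → C.X → ℂ × B := fun i b x =>
    ((C.chart (s i) x).1 - (C.chart (s i) (s i)).1 + (C.chart (s i) (C.sec i b)).1, b) with hτ
  obtain ⟨F, hF⟩ : ∃ F : B → C.X → C.X, ∀ i, ∀ x ∈ W i, ∀ b,
      F b x = (C.chart (s i)).symm (τ i b x) := by
    refine ⟨fun b x => if h : ∃ i, x ∈ W i then
      (C.chart (s h.choose)).symm (τ h.choose b x) else x, fun i x hx b => ?_⟩
    have h : ∃ i, x ∈ W i := ⟨i, hx⟩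
    simp only [dif_pos h]
    rw [huniq _ _ x h.choose_spec hx]
  have hτT : ∀ i, ∀ x ∈ W i, ∀ b ∈ ⋂ i, U i, τ i b x ∈ (C.chart (s i)).target :=
    fun i x hx b hb => hT i _ hx.2.2 b (mem_iInter.1 hb i)
  refine ⟨⋃ i, W i, isOpen_iUnion hWo, fun i => mem_iUnion.2 ⟨i, hsW i⟩, ⟨{
    U := ⋂ i, U i
    isOpen := isOpen_iInter_of_finite hU
    mem := mem_iInter.2 hbU
    F := F
    proj := ?_
    base := ?_
    contF := ?_
    smooth := ?_
    hol := ?_
    near := ?_ }⟩⟩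
  · intro b hb x hx _
    obtain ⟨i, hi⟩ := mem_iUnion.1 hx
    rw [hF i x hi, C.proj_symm (hτT i x hi b hb)]
  · intro x hx hp
    obtain ⟨i, hi⟩ := mem_iUnion.1 hx
    have e := C.chart_eq hi.2.1
    rw [hp] at e
    rw [hF i x hi]
    simp only [hτ, hs, sub_add_cancel]
    rw [e]
    exact (C.chart (s i)).left_inv hi.2.1
  · rintro ⟨b, x⟩ ⟨hb, hx, -⟩
    obtain ⟨i, hi⟩ := mem_iUnion.1 hx
    refine ContinuousAt.continuousWithinAt ?_
    have h1 : ContinuousAt (fun p : B × C.X => τ i p.1 p.2) (b, x) := by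
      refine ContinuousAt.prodMk (ContinuousAt.add (ContinuousAt.sub ?_ continuousAt_const) ?_)
        continuousAt_fst
      · exact continuousAt_fst.comp (ContinuousAt.comp (f := Prod.snd)
          ((C.chart (s i)).continuousAt hi.2.1) continuousAt_snd)
      · exact ContinuousAt.comp (f := Prod.fst) (C.T1a_contAt (hsU i b (mem_iInter.1 hb i)))
          continuousAt_fst
    have h2 := ContinuousAt.comp (f := fun p : B × C.X => τ i p.1 p.2)
      ((C.chart (s i)).continuousAt_symm (hτT i x hi b hb)) h1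
    refine h2.congr ?_
    filter_upwards [continuousAt_snd.preimage_mem_nhds ((hWo i).mem_nhds hi)] with p hp
    exact (hF i p.2 hp p.1).symm
  · rintro x y ⟨b, z⟩ ⟨hb, hz, hx, hy⟩
    obtain ⟨i, hi⟩ := mem_iUnion.1 hx
    refine ContMDiffAt.contMDiffWithinAt ?_
    have hA : ContMDiffAt (𝓘(ℝ, E).prod 𝓘(ℝ, ℂ)) (𝓘(ℝ, ℂ).prod 𝓘(ℝ, E)) 2
        (fun p : B × ℂ => (p.2, b₀)) (b, z) := contMDiffAt_snd.prodMk contMDiffAt_const
    have h1 := ContMDiffAt.comp (f := fun p : B × ℂ => (p.2, b₀)) (b, z)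
      (C.T1a_trans hz hi.2.1) hA
    have h2 := ContMDiffAt.comp (f := Prod.fst) (I := 𝓘(ℝ, E).prod 𝓘(ℝ, ℂ)) (b, z)
      (C.T1a_sec (hsU i b (mem_iInter.1 hb i))) contMDiffAt_fst
    have h3 : ContMDiffAt (𝓘(ℝ, E).prod 𝓘(ℝ, ℂ)) (𝓘(ℝ, ℂ).prod 𝓘(ℝ, E)) 2
        (fun p : B × ℂ => τ i p.1 ((C.chart x).symm (p.2, b₀))) (b, z) :=
      ((h1.sub contMDiffAt_const).add h2).prodMk contMDiffAt_fst
    have hy' : (C.chart (s i)).symm (τ i b ((C.chart x).symm (z, b₀))) ∈ (C.chart y).source := by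
      rw [← hF i _ hi]
      exact hy
    have h4 := ContMDiffAt.comp (f := fun p : B × ℂ => τ i p.1 ((C.chart x).symm (p.2, b₀)))
      (b, z) (C.T1a_trans (hτT i _ hi b hb) hy') h3
    refine h4.congr_of_eventuallyEq ?_
    have h5 : ContinuousAt (fun p : B × ℂ => (C.chart x).symm (p.2, b₀)) (b, z) :=
      ContinuousAt.comp (f := fun p : B × ℂ => (p.2, b₀)) ((C.chart x).continuousAt_symm hz)
        hA.continuousAt
    filter_upwards [h5.preimage_mem_nhds ((hWo i).mem_nhds hi)] with p hp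
    simp only [Function.comp_apply]
    rw [hF i _ hp]
  · intro y x hx _
    obtain ⟨i, hi⟩ := mem_iUnion.1 hx
    have h1 : MDifferentiableOn 𝓘(ℂ, E) (𝓘(ℂ, ℂ).prod 𝓘(ℂ, E)) (fun b => τ i b x)
        {b | b ∈ ⋂ i, U i ∧ F b x ∈ (C.chart y).source} :=
      MDifferentiableOn.prodMk (mdifferentiableOn_const.add ((C.hol_sec i (s i)).mono
        fun b hb => hsU i b (mem_iInter.1 hb.1 i))) mdifferentiableOn_id
    refine ((C.hol_chart (s i) y).comp h1 fun b hb => ⟨hτT i x hi b hb.1, ?_⟩).congr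
      fun b _ => ?_
    · have := hb.2
      rw [hF i x hi] at this
      exact this
    · simp only [Function.comp_apply]
      rw [hF i x hi]
  · intro i
    filter_upwards [(hWo i).mem_nhds (hsW i)] with x hx _ b hb
    refine ⟨hsU i b (mem_iInter.1 hb i), ?_, ?_⟩
    · rw [hF i x hx]
      exact (C.chart (s i)).map_target (hτT i x hx b hb)
    · rw [hF i x hx]
      exact congrArg Prod.fst ((C.chart (s i)).right_inv (hτT i x hx b hb))

end Family

end Pool.Agent.MP_e62289_ag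

end

section

open Set Filter Topology Complex MeasureTheory Metric
open scoped Manifold ContDiff ComplexConjugate NNReal ENNReal

namespace Pool.Agent.MP_e62289_ag

namespace Family

variable {E : Type} [NormedAddCommGroup E] [NormedSpace ℂ E] {B : Type} [TopologicalSpace B]
  [ChartedSpace E B] {n : ℕ} {a : Fin n → ℕ} (C : Family E B a)

/-- pointwise form of the regularity of scalar functions -/
structure T1bS (b₀ : B) (g : B → C.X → ℂ) (b : B) (x : C.X) : Prop where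
  cont : ContinuousWithinAt (fun p : B × C.X => g p.1 p.2) (univ ×ˢ (C.proj ⁻¹' {b₀})) (b, x)
  smooth : ∀ x₀, x ∈ (C.chart x₀).source → ContMDiffAt (𝓘(ℝ, E).prod 𝓘(ℝ, ℂ)) 𝓘(ℝ, ℂ) 2
    (fun p : B × ℂ => g p.1 ((C.chart x₀).symm (p.2, b₀))) (b, (C.chart x₀ x).1)
  hol : MDifferentiableAt 𝓘(ℂ, E) 𝓘(ℂ, ℂ) (fun b => g b x) b

/-- pointwise form of the regularity of families of sections -/
structure T1bG (b₀ : B) (F : B → C.X → C.X) (b : B) (x : C.X) : Prop where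
  proj : C.proj (F b x) = b
  cont : ContinuousWithinAt (fun p : B × C.X => F p.1 p.2) (univ ×ˢ (C.proj ⁻¹' {b₀})) (b, x)
  sc : ∀ y, F b x ∈ (C.chart y).source → C.T1bS b₀ (fun b x => (C.chart y (F b x)).1) b x

variable {C} {b₀ b : B} {x : C.X}

theorem T1b_symm {x₀ : C.X} (hx : C.proj x = b₀) (h : x ∈ (C.chart x₀).source) :
    ((C.chart x₀ x).1, b₀) ∈ (C.chart x₀).target ∧
      (C.chart x₀).symm ((C.chart x₀ x).1, b₀) = x := by
  rw [← hx, C.chart_eq h]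
  exact ⟨(C.chart x₀).map_source h, (C.chart x₀).left_inv h⟩

theorem T1b_tendsto {x₀ : C.X} (hx : C.proj x = b₀) (h : x ∈ (C.chart x₀).source) (b : B) :
    Tendsto (fun p : B × ℂ => (p.1, (C.chart x₀).symm (p.2, b₀))) (𝓝 (b, (C.chart x₀ x).1))
      (𝓝[univ ×ˢ (C.proj ⁻¹' {b₀})] (b, x)) := by
  obtain ⟨h1, h2⟩ := T1b_symm hx h
  have c1 : ContinuousAt (fun p : B × ℂ => (p.2, b₀)) (b, (C.chart x₀ x).1) := by fun_prop
  refine tendsto_nhdsWithin_iff.2 ⟨?_, ?_⟩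
  · have c2 := ContinuousAt.comp_of_eq ((C.chart x₀).continuousAt_symm h1) c1 rfl
    have c3 := (continuousAt_fst (p := (b, (C.chart x₀ x).1))).prodMk c2
    have := c3.tendsto
    simp only [Function.comp_apply, h2] at this
    exact this
  · filter_upwards [c1.eventually ((C.chart x₀).open_target.mem_nhds h1)] with p hp
    exact ⟨mem_univ _, C.proj_symm hp⟩

theorem T1bS.congr {g g' : B → C.X → ℂ} (h : C.T1bS b₀ g b x) (hx : C.proj x = b₀)
    (e : ∀ᶠ p in 𝓝[univ ×ˢ (C.proj ⁻¹' {b₀})] (b, x), g' p.1 p.2 = g p.1 p.2) :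
    C.T1bS b₀ g' b x where
  cont := h.cont.congr_of_eventuallyEq_of_mem e ⟨mem_univ _, hx⟩
  smooth x₀ h₀ := (h.smooth x₀ h₀).congr_of_eventuallyEq ((T1b_tendsto hx h₀ b).eventually e)
  hol := h.hol.congr_of_eventuallyEq (by
    have : Tendsto (fun b' : B => (b', x)) (𝓝 b) (𝓝[univ ×ˢ (C.proj ⁻¹' {b₀})] (b, x)) :=
      tendsto_nhdsWithin_iff.2 ⟨(Continuous.prodMk_left x).tendsto b,
        Eventually.of_forall fun _ => ⟨mem_univ _, hx⟩⟩
    exact this.eventually e)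

theorem T1bG.congr {F F' : B → C.X → C.X} (h : C.T1bG b₀ F b x) (hx : C.proj x = b₀)
    (e : ∀ᶠ p in 𝓝[univ ×ˢ (C.proj ⁻¹' {b₀})] (b, x), F' p.1 p.2 = F p.1 p.2) :
    C.T1bG b₀ F' b x := by
  have e0 : F' b x = F b x := e.self_of_nhdsWithin (x := (b, x)) ⟨mem_univ _, hx⟩
  refine ⟨e0 ▸ h.proj, h.cont.congr_of_eventuallyEq_of_mem e ⟨mem_univ _, hx⟩, fun y hy => ?_⟩
  exact (h.sc y (e0 ▸ hy)).congr hx (e.mono fun p hp => by simp only [hp])

theorem PreTriv.T1b_good {W : Set C.X} (τ : C.PreTriv b₀ W) (hW : IsOpen W) (hb : b ∈ τ.U)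
    (hxW : x ∈ W) (hx : C.proj x = b₀) : C.T1bG b₀ τ.F b x := by
  have c1 : ContinuousWithinAt (fun p : B × C.X => τ.F p.1 p.2) (univ ×ˢ (C.proj ⁻¹' {b₀}))
      (b, x) := by
    refine (τ.contF (b, x) ⟨hb, hxW, hx⟩).mono_of_mem_nhdsWithin ?_
    filter_upwards [self_mem_nhdsWithin,
      mem_nhdsWithin_of_mem_nhds ((τ.isOpen.prod hW).mem_nhds (⟨hb, hxW⟩ : (b, x) ∈ τ.U ×ˢ W))]
      with p h1 h2 using ⟨h2.1, h2.2, h1.2⟩
  refine ⟨τ.proj b hb x hxW hx, c1, fun y hy => ⟨?_, fun x₀ h₀ => ?_, ?_⟩⟩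
  · exact continuous_fst.continuousAt.comp_continuousWithinAt
      (ContinuousAt.comp_continuousWithinAt_of_eq ((C.chart y).continuousAt hy) c1 rfl)
  · obtain ⟨h1, h2⟩ := T1b_symm hx h₀
    refine (τ.smooth x₀ y).contMDiffAt ?_
    have t := T1b_tendsto hx h₀ b
    have c2 : ContinuousAt (fun p : B × ℂ => (p.2, b₀)) (b, (C.chart x₀ x).1) := by fun_prop
    filter_upwards [(t.mono_right nhdsWithin_le_nhds).eventually
        ((τ.isOpen.prod hW).mem_nhds (⟨hb, hxW⟩ : (b, x) ∈ τ.U ×ˢ W)),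
      c2.eventually ((C.chart x₀).open_target.mem_nhds h1),
      (c1.tendsto.comp t).eventually ((C.chart y).open_source.mem_nhds hy)] with p p1 p2 p3
    exact ⟨p1.1, p2, p1.2, p3⟩
  · refine (τ.hol y x hxW hx).mdifferentiableAt ?_
    have t : Tendsto (fun b' : B => (b', x)) (𝓝 b) (𝓝[univ ×ˢ (C.proj ⁻¹' {b₀})] (b, x)) :=
      tendsto_nhdsWithin_iff.2 ⟨(Continuous.prodMk_left x).tendsto b,
        Eventually.of_forall fun _ => ⟨mem_univ _, hx⟩⟩
    filter_upwards [τ.isOpen.mem_nhds hb,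
      (c1.tendsto.comp t).eventually ((C.chart y).open_source.mem_nhds hy)] with p p1 p2
    exact ⟨p1, p2⟩

variable [FiniteDimensional ℂ E] [IsManifold 𝓘(ℂ, E) ω B] [IsManifold 𝓘(ℝ, E) ∞ B]

theorem T1b_trans {x y : C.X} {w : ℂ × B} (h1 : w ∈ (C.chart x).target)
    (h2 : (C.chart x).symm w ∈ (C.chart y).source) :
    ContMDiffAt (𝓘(ℝ, ℂ).prod 𝓘(ℝ, E)) 𝓘(ℝ, ℂ) 2 (fun w => (C.chart y ((C.chart x).symm w)).1) w ∧
    MDifferentiableAt (𝓘(ℂ, ℂ).prod 𝓘(ℂ, E)) 𝓘(ℂ, ℂ)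
      (fun w => (C.chart y ((C.chart x).symm w)).1) w := by
  have ho := ((C.chart x).symm ≫ₕ C.chart y).open_source
  have hm : ((C.chart x).symm ≫ₕ C.chart y).source ∈ 𝓝 w := ho.mem_nhds ⟨h1, h2⟩
  exact ⟨((smooth_of_hol ho (C.hol_chart x y)).contMDiffAt hm).of_le (WithTop.coe_le_coe.2 le_top),
    (C.hol_chart x y).mdifferentiableAt hm⟩

theorem T1bS.coord {z : C.X} (hx : C.proj x = b₀) (h : x ∈ (C.chart z).source) :
    C.T1bS b₀ (fun _ x => (C.chart z x).1) b x where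
  cont := (continuous_fst.continuousAt.comp (ContinuousAt.comp_of_eq ((C.chart z).continuousAt h)
    (continuousAt_snd (p := (b, x))) rfl)).continuousWithinAt
  smooth x₀ h₀ := by
    obtain ⟨h1, h2⟩ := T1b_symm hx h₀
    exact ContMDiffAt.comp_of_eq (T1b_trans h1 (h2.symm ▸ h)).1
      (f := fun p : B × ℂ => (p.2, b₀)) (contMDiffAt_snd.prodMk contMDiffAt_const) rfl
  hol := mdifferentiableAt_const

theorem T1bS.symm {z : C.X} {g : B → C.X → ℂ} (h : C.T1bS b₀ g b x) (hx : C.proj x = b₀)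
    (ht : (g b x, b) ∈ (C.chart z).target) :
    C.T1bG b₀ (fun b x => (C.chart z).symm (g b x, b)) b x := by
  have c1 : ContinuousWithinAt (fun p : B × C.X => (C.chart z).symm (g p.1 p.2, p.1))
      (univ ×ˢ (C.proj ⁻¹' {b₀})) (b, x) :=
    ContinuousAt.comp_continuousWithinAt_of_eq ((C.chart z).continuousAt_symm ht)
      (h.cont.prodMk continuousWithinAt_fst) rfl
  refine ⟨C.proj_symm ht, c1, fun y hy => ⟨?_, fun x₀ h₀ => ?_, ?_⟩⟩
  · exact continuous_fst.continuousAt.comp_continuousWithinAt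
      (ContinuousAt.comp_continuousWithinAt_of_eq ((C.chart y).continuousAt hy) c1 rfl)
  · exact ContMDiffAt.comp_of_eq (T1b_trans ht hy).1
      (f := fun p : B × ℂ => (g p.1 ((C.chart x₀).symm (p.2, b₀)), p.1))
      ((h.smooth x₀ h₀).prodMk contMDiffAt_fst) (by simp only [(T1b_symm hx h₀).2])
  · exact MDifferentiableAt.comp_of_eq b (T1b_trans ht hy).2
      (f := fun b' : B => (g b' x, b')) (h.hol.prodMk mdifferentiableAt_id) rfl

theorem T1bS.mix {z : C.X} {g : B → C.X → ℂ} (h : C.T1bS b₀ g b x) (hx : C.proj x = b₀)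
    (hz : x ∈ (C.chart z).source) {χ : ℂ → ℂ} (hχ : ContDiff ℝ 2 χ) :
    C.T1bS b₀ (fun b x => χ (C.chart z x).1 * (C.chart z x).1 + (1 - χ (C.chart z x).1) * g b x)
      b x := by
  have k := T1bS.coord (b := b) hx hz
  have hm : ContDiff ℝ 2 fun p : ℂ × ℂ => χ p.1 * p.1 + (1 - χ p.1) * p.2 := by fun_prop
  refine ⟨hm.continuous.continuousAt.comp_continuousWithinAt (k.cont.prodMk h.cont),
    fun x₀ h₀ => hm.contDiffAt.comp_contMDiffAt ((k.smooth x₀ h₀).prodMk_space (h.smooth x₀ h₀)),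
    mdifferentiableAt_const.add (mdifferentiableAt_const.mul h.hol)⟩

variable (C)

theorem preTriv_step (b₀ : B) {z : C.X} (hz : C.proj z = b₀) (hs : ∀ i, z ≠ C.sec i b₀) :
    ∃ D ∈ 𝓝 z, ∀ W L : Set C.X, IsOpen W → IsCompact L → L ⊆ W → L ⊆ C.proj ⁻¹' {b₀} →
      (∀ i, C.sec i b₀ ∈ L) → Nonempty (C.PreTriv b₀ W) →
      ∃ W', IsOpen W' ∧ L ⊆ W' ∧ D ⊆ W' ∧ Nonempty (C.PreTriv b₀ W') := by
  classical
  set c := C.chart z with hc
  set z₀ := (c z).1 with hz₀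
  obtain ⟨ρ₃, ρ₃0, hρ⟩ := Metric.nhds_basis_closedBall.mem_iff.1
    ((C.fchart ⟨z, hz, hs⟩ z).open_target.mem_nhds
      ((C.fchart ⟨z, hz, hs⟩ z).map_source (x := ⟨z, hz, hs⟩) (C.mem_source z)))
  replace hρ : ∀ w ∈ closedBall z₀ ρ₃, (w, b₀) ∈ c.target ∧ ∀ i, c.symm (w, b₀) ≠ C.sec i b₀ := hρ
  let χ₀ : ContDiffBump z₀ := ⟨ρ₃ / 2, ρ₃, by positivity, by linarith⟩
  let χ : ℂ → ℂ := fun w => (χ₀ w : ℝ)
  have hχ : ContDiff ℝ 2 χ := Complex.ofRealCLM.contDiff.comp χ₀.contDiff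
  let D : Set C.X := c.source ∩ c ⁻¹' (ball z₀ (ρ₃ / 2) ×ˢ univ)
  have hD : IsOpen D := c.isOpen_inter_preimage (isOpen_ball.prod isOpen_univ)
  refine ⟨D, hD.mem_nhds ⟨C.mem_source z, mem_ball_self (by positivity), mem_univ _⟩, ?_⟩
  rintro W L hW hL hLW hLF hLs ⟨τ⟩
  have hF : IsCompact (C.proj ⁻¹' {b₀}) := C.proper.isCompact_preimage isCompact_singleton
  obtain ⟨W₀, V, hW₀, hV, hLW₀, hV', hd⟩ := SeparatedNhds.of_isCompact_isCompact hL
    (hF.diff hW) (disjoint_left.2 fun x h1 h2 => h2.2 (hLW h1))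
  let s : ℂ → C.X := fun w => c.symm (w, b₀)
  have hsc : ContinuousOn s (closedBall z₀ ρ₃) := c.continuousOn_symm.comp
    (Continuous.prodMk_left b₀).continuousOn fun w hw => (hρ w hw).1
  let K : Set C.X := s '' closedBall z₀ ρ₃
  have hK : IsClosed K := ((isCompact_closedBall _ _).image_of_continuousOn hsc).isClosed
  have hKm : ∀ x, C.proj x = b₀ → x ∈ c.source → (c x).1 ∈ closedBall z₀ ρ₃ → x ∈ K :=
    fun x h1 h2 h3 => ⟨_, h3, (T1b_symm h1 h2).2⟩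
  have hs1 : ∀ w ∈ closedBall z₀ ρ₃, s w ∈ c.source ∧ C.proj (s w) = b₀ ∧ (c (s w)).1 = w :=
    fun w hw => ⟨c.map_target (hρ w hw).1, C.proj_symm (hρ w hw).1,
      congrArg Prod.fst (c.right_inv (hρ w hw).1)⟩
  let m : B → C.X → ℂ := fun b x => χ (c x).1 * (c x).1 + (1 - χ (c x).1) * (c (τ.F b x)).1
  have hK₁ : IsCompact (closedBall z₀ ρ₃ ∩ s ⁻¹' Vᶜ) := (isCompact_closedBall _ _).of_isClosed_subset
    (hsc.preimage_isClosed_of_isClosed isClosed_closedBall hV.isClosed_compl) inter_subset_left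
  have e1 : ∀ᶠ b in 𝓝 b₀, ∀ w ∈ closedBall z₀ ρ₃ ∩ s ⁻¹' Vᶜ,
      τ.F b (s w) ∈ c.source ∧ (m b (s w), b) ∈ c.target := by
    refine hK₁.eventually_forall_of_forall_eventually fun w hw => ?_
    obtain ⟨a1, a2, a3⟩ := hs1 w hw.1
    have hw' : s w ∈ W := by
      by_contra h
      exact hw.2 (hV' ⟨a2, h⟩)
    have g := τ.T1b_good hW τ.mem hw' a2
    have e0 := τ.base _ hw' a2
    have t := T1b_tendsto a2 a1 b₀
    rw [← hc, a3] at t
    have g2 := ((g.sc z (e0.symm ▸ a1)).mix a2 a1 hχ).cont.prodMk continuousWithinAt_fst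
    refine ((g.cont.tendsto.comp t).eventually (c.open_source.mem_nhds (e0.symm ▸ a1))).and
      ((g2.tendsto.comp t).eventually (c.open_target.mem_nhds ?_))
    have : χ w * w + (1 - χ w) * w = w := by ring
    simp only [e0, ← hc, a3, this]
    exact (hρ w hw.1).1
  have e2 : ∀ᶠ b in 𝓝 b₀, ∀ w ∈ closedBall z₀ ρ₃, (w, b) ∈ c.target :=
    (isCompact_closedBall _ _).eventually_forall_of_forall_eventually fun w hw =>
      (continuous_swap.continuousAt (x := (b₀, w))).eventually (c.open_target.mem_nhds (hρ w hw).1)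
  obtain ⟨U, hU, hUo, hU0⟩ := _root_.eventually_nhds_iff.1
    ((e1.and e2).and (τ.isOpen.eventually_mem τ.mem))
  let F : B → C.X → C.X := fun b x => if x ∈ K then c.symm (m b x, b) else τ.F b x
  have good : ∀ b ∈ U, ∀ x ∈ (W₀ ∩ W) ∪ D, C.proj x = b₀ → C.T1bG b₀ F b x := by
    intro b hb x hxW hx
    by_cases hxD : x ∈ D
    · have h3 : ∀ x ∈ D, (c x).1 ∈ closedBall z₀ ρ₃ := fun x hx =>
        (ball_subset_closedBall.trans (closedBall_subset_closedBall (by linarith))) hx.2.1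
      refine ((T1bS.coord hx hxD.1).symm hx ((hU b hb).1.2 _ (h3 x hxD))).congr hx ?_
      filter_upwards [self_mem_nhdsWithin, mem_nhdsWithin_of_mem_nhds
        ((continuousAt_snd (p := (b, x))).eventually (hD.mem_nhds hxD))] with p p1 p2
      have : χ (c p.2).1 = 1 := by
        simp only [χ, χ₀.one_of_mem_closedBall (ball_subset_closedBall p2.2.1), ofReal_one]
      simp only [F, if_pos (hKm _ p1.2 p2.1 (h3 _ p2)), m, this, ← hc]
      simp
    replace hxW := hxW.resolve_right hxD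
    have g := τ.T1b_good hW (hU b hb).2 hxW.2 hx
    by_cases hxK : x ∈ K
    · obtain ⟨w, hw, rfl⟩ := hxK
      obtain ⟨a1, -, -⟩ := hs1 w hw
      obtain ⟨a4, a5⟩ := (hU b hb).1.1 w ⟨hw, fun h => disjoint_left.1 hd hxW.1 h⟩
      refine (((g.sc z a4).mix hx a1 hχ).symm hx a5).congr hx ?_
      filter_upwards [self_mem_nhdsWithin, g.cont.eventually (c.open_source.mem_nhds a4),
        mem_nhdsWithin_of_mem_nhds (((hUo.prod (hW.inter c.open_source)).mem_nhds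
          (⟨hb, hxW.2, a1⟩ : (b, s w) ∈ U ×ˢ (W ∩ c.source))))] with p p1 p2 p3
      by_cases h : p.2 ∈ K
      · exact if_pos h
      · have : χ (c p.2).1 = 0 := by
          have h' : (c p.2).1 ∉ closedBall z₀ ρ₃ := fun h' => h (hKm _ p1.2 p3.2.2 h')
          simp only [χ, χ₀.zero_of_le_dist (not_le.1 h').le, ofReal_zero]
        have e := C.chart_eq p2
        rw [τ.proj _ (hU _ p3.1).2 _ p3.2.1 p1.2] at e
        simp only [F, if_neg h, ← hc, this, zero_mul, zero_add, sub_zero, one_mul]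
        rw [e, c.left_inv p2]
    · refine g.congr hx ?_
      filter_upwards [mem_nhdsWithin_of_mem_nhds
        ((continuousAt_snd (p := (b, x))).eventually (hK.isOpen_compl.mem_nhds hxK))] with p p1
      exact if_neg p1
  refine ⟨(W₀ ∩ W) ∪ D, (hW₀.inter hW).union hD, fun x hx => Or.inl ⟨hLW₀ hx, hLW hx⟩,
    subset_union_right, ⟨⟨U, hUo, hU0, F, fun b hb x hx h => (good b hb x hx h).proj,
      fun x hx h => ?_, fun p hp => ((good _ hp.1 _ hp.2.1 hp.2.2).cont).mono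
        fun _ h => ⟨mem_univ _, h.2.2⟩, fun x y p hp => ?_, fun y x hx h b hb =>
        ((good b hb.1 x hx h).sc y hb.2).hol.mdifferentiableWithinAt, fun i => ?_⟩⟩⟩
  · by_cases hxK : x ∈ K
    · obtain ⟨w, hw, rfl⟩ := hxK
      obtain ⟨a1, a2, a3⟩ := hs1 w hw
      have : m b₀ (s w) = w := by
        rcases hx with hx | hx
        · simp only [m, τ.base _ hx.2 h, a3]
          ring
        · have : χ w = 1 := by
            simp only [χ, χ₀.one_of_mem_closedBall (a3 ▸ ball_subset_closedBall hx.2.1), ofReal_one]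
          simp [m, a3, this]
      exact (if_pos (mem_image_of_mem s hw)).trans (by rw [this])
    · rcases hx with hx | hx
      · exact (if_neg hxK).trans (τ.base _ hx.2 h)
      · exact absurd (hKm x h hx.1 ((ball_subset_closedBall.trans
          (closedBall_subset_closedBall (by linarith))) hx.2.1)) hxK
  · have := ((good _ hp.1 _ hp.2.2.1 (C.proj_symm hp.2.1)).sc y hp.2.2.2).smooth x
      ((C.chart x).map_target hp.2.1)
    rw [(C.chart x).right_inv hp.2.1] at this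
    exact this.contMDiffWithinAt
  · have hi : C.sec i b₀ ∉ K := by
      rintro ⟨w, hw, h⟩
      exact (hρ w hw).2 i h
    filter_upwards [τ.near i, hK.isOpen_compl.mem_nhds hi] with x h1 h2 h3 b hb
    have : F b x = τ.F b x := if_neg h2
    rw [this]
    exact h1 h3 b (hU b hb).2

end Family

end Pool.Agent.MP_e62289_ag

end

section

open Set Filter Topology Complex MeasureTheory Metric
open scoped Manifold ContDiff ComplexConjugate NNReal ENNReal

namespace Pool.Agent.MP_e62289_ag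

theorem T1c_nbhd {X : Type} [TopologicalSpace X] [T2Space X] {K D : Set X} (hK : IsCompact K)
    {z : X} (hD : D ∈ 𝓝 z) :
    ∃ D' : Set X, IsCompact D' ∧ D' ⊆ D ∩ K ∧ ∃ V ∈ 𝓝 z, V ∩ K ⊆ D' := by
  obtain ⟨O, hOD, hO, hz⟩ := _root_.mem_nhds_iff.1 hD
  obtain ⟨U1, U2, h1, h2, h3, h4, h5⟩ :=
    (hK.diff hO).separation_of_notMem (x := z) fun h => h.2 hz
  refine ⟨K \ U1, hK.diff h1, fun y hy => ⟨hOD ?_, hy.1⟩, U2, h2.mem_nhds h4,
    fun y hy => ⟨hy.2, fun h => Set.disjoint_left.1 h5 h hy.1⟩⟩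
  by_contra h
  exact hy.2 (h3 ⟨hy.1, h⟩)

namespace Family

variable {E : Type} [NormedAddCommGroup E] [NormedSpace ℂ E] {B : Type} [TopologicalSpace B]
  [ChartedSpace E B] {n : ℕ} {a : Fin n → ℕ} (C : Family E B a)

variable [FiniteDimensional ℂ E] [IsManifold 𝓘(ℂ, E) ω B] [IsManifold 𝓘(ℝ, E) ∞ B]

theorem preTriv_all (b₀ : B) :
    ∃ W, IsOpen W ∧ C.proj ⁻¹' {b₀} ⊆ W ∧ Nonempty (C.PreTriv b₀ W) := by
  classical
  obtain ⟨W0, hW0, hs, hP0⟩ := C.preTriv_start b₀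
  set K := C.proj ⁻¹' {b₀} with hKdef
  have hK : IsCompact K := C.proper.isCompact_preimage isCompact_singleton
  choose A hA hAK VA hVA hVAK using fun i => T1c_nbhd hK (hW0.mem_nhds (hs i))
  set L0 := ⋃ i, A i with hL0
  have hL0c : IsCompact L0 := isCompact_iUnion hA
  have hL0W : L0 ⊆ W0 := iUnion_subset fun i => (hAK i).trans inter_subset_left
  have hL0K : L0 ⊆ K := iUnion_subset fun i => (hAK i).trans inter_subset_right
  have hsL : ∀ i, C.sec i b₀ ∈ L0 := fun i =>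
    mem_iUnion.2 ⟨i, hVAK i ⟨mem_of_mem_nhds (hVA i), C.proj_sec i b₀⟩⟩
  have step : ∀ z ∈ K, ∃ D ∈ 𝓝 z, ∀ W L : Set C.X, IsOpen W → IsCompact L → L ⊆ W → L ⊆ K →
      L0 ⊆ L → Nonempty (C.PreTriv b₀ W) →
      ∃ W', IsOpen W' ∧ L ⊆ W' ∧ D ∩ K ⊆ W' ∧ Nonempty (C.PreTriv b₀ W') := by
    intro z hz
    by_cases h : ∃ i, z = C.sec i b₀
    · obtain ⟨i, rfl⟩ := h
      refine ⟨VA i, hVA i, fun W L hW _ hLW _ h0 hP => ⟨W, hW, hLW, ?_, hP⟩⟩
      exact (hVAK i).trans ((subset_iUnion A i).trans (h0.trans hLW))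
    · obtain ⟨D, hD, h'⟩ := C.preTriv_step b₀ hz fun i hi => h ⟨i, hi⟩
      refine ⟨D, hD, fun W L hW hL hLW hLK h0 hP => ?_⟩
      obtain ⟨W', h1, h2, h3, h4⟩ := h' W L hW hL hLW hLK (fun i => h0 (hsL i)) hP
      exact ⟨W', h1, h2, inter_subset_left.trans h3, h4⟩
  choose! D hD hstep using step
  have nb : ∀ z ∈ K, ∃ D' : Set C.X, IsCompact D' ∧ D' ⊆ D z ∩ K ∧ ∃ V ∈ 𝓝 z, V ∩ K ⊆ D' :=
    fun z hz => T1c_nbhd hK (hD z hz)
  choose! D' hD'c hD'K V hV hVK using nb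
  obtain ⟨t, htK, hcov⟩ := hK.elim_nhds_subcover V hV
  have ind : ∀ t : Finset C.X, (∀ z ∈ t, z ∈ K) →
      ∃ W, IsOpen W ∧ L0 ∪ ⋃ z ∈ t, D' z ⊆ W ∧ Nonempty (C.PreTriv b₀ W) := by
    intro t
    induction t using Finset.induction_on with
    | empty => exact fun _ => ⟨W0, hW0, by simpa using hL0W, hP0⟩
    | insert z t _ ih =>
      intro h
      have ht : ∀ y ∈ t, y ∈ K := fun y hy => h y (Finset.mem_insert_of_mem hy)
      have hz : z ∈ K := h z (Finset.mem_insert_self z t)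
      obtain ⟨W, hW, hLW, hP⟩ := ih ht
      obtain ⟨W', h1, h2, h3, h4⟩ := hstep z hz W _ hW
        (hL0c.union (t.isCompact_biUnion fun y hy => hD'c y (ht y hy))) hLW
        (union_subset hL0K (iUnion₂_subset fun y hy =>
          (hD'K y (ht y hy)).trans inter_subset_right)) subset_union_left hP
      refine ⟨W', h1, ?_, h4⟩
      rw [Finset.set_biUnion_insert]
      exact union_subset (subset_union_left.trans h2)
        (union_subset ((hD'K z hz).trans h3) (subset_union_right.trans h2))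
  obtain ⟨W, hW, hLW, hP⟩ := ind t htK
  refine ⟨W, hW, fun y hy => hLW (Or.inr ?_), hP⟩
  obtain ⟨z, hz, hyz⟩ := mem_iUnion₂.1 (hcov hy)
  exact mem_iUnion₂.2 ⟨z, hz, hVK z (htK z hz) ⟨hyz, hy⟩⟩

end Family

end Pool.Agent.MP_e62289_ag

end

section



end

section

open Set Filter Topology Complex MeasureTheory Metric
open scoped Manifold ContDiff ComplexConjugate NNReal ENNReal

namespace Pool.Agent.MP_e62289_ag

/-- orientation preserving real-linear maps -/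
def T2aPos (L : ℂ →L[ℝ] ℂ) : Prop := ‖w2 L‖ < ‖w1 L‖

theorem T2a_isOpen_pos : IsOpen {L : ℂ →L[ℝ] ℂ | T2aPos L} := by
  have h1 : Continuous fun L : ℂ →L[ℝ] ℂ => w1 L := by
    unfold w1; fun_prop
  have h2 : Continuous fun L : ℂ →L[ℝ] ℂ => w2 L := by
    unfold w2; fun_prop
  exact isOpen_lt h2.norm h1.norm

theorem T2a_pos_id : T2aPos (ContinuousLinearMap.id ℝ ℂ) := by
  unfold T2aPos
  rw [w_id.1, w_id.2]
  simp

theorem T2aPos.comp {L M : ℂ →L[ℝ] ℂ} (hL : T2aPos L) (hM : T2aPos M) : T2aPos (L.comp M) := by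
  unfold T2aPos at *
  rw [(w_comp L M).1, (w_comp L M).2]
  refine lt_of_pow_lt_pow_left₀ 2 (norm_nonneg _) (sub_pos.1 ?_)
  rw [w_det]
  exact mul_pos (sub_pos.2 (pow_lt_pow_left₀ hL (norm_nonneg _) two_ne_zero))
    (sub_pos.2 (pow_lt_pow_left₀ hM (norm_nonneg _) two_ne_zero))

theorem T2a_pos_hol {g : ℂ → ℂ} {z : ℂ} (h : AnalyticAt ℂ g z) (h' : deriv g z ≠ 0) :
    DifferentiableAt ℝ g z ∧ T2aPos (fderiv ℝ g z) := by
  refine ⟨h.differentiableAt.restrictScalars ℝ, ?_⟩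
  have := w_of_hasDerivAt h.differentiableAt.hasDerivAt
  unfold T2aPos
  rw [this.1, this.2]
  simpa using h'

variable {E : Type} [NormedAddCommGroup E] [NormedSpace ℂ E]

theorem T2a_slice {G : E × ℂ → ℂ} {v : E × ℂ} (h : DifferentiableAt ℝ G v) :
    HasFDerivAt (fun z => G (v.1, z)) ((fderiv ℝ G v).comp (ContinuousLinearMap.inr ℝ E ℂ))
      v.2 :=
  h.hasFDerivAt.comp v.2 (hasFDerivAt_prodMk_right v.1 v.2)

theorem T2a_pos_ev {G : E × ℂ → ℂ} {w : E × ℂ} (hG : ContDiffAt ℝ 2 G w)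
    (h : T2aPos (fderiv ℝ (fun z => G (w.1, z)) w.2)) :
    ∀ᶠ v in 𝓝 w, T2aPos (fderiv ℝ (fun z => G (v.1, z)) v.2) := by
  have h1 : ContinuousAt (fderiv ℝ G) w :=
    (hG.fderiv_right (m := 1) (by norm_num)).continuousAt
  have h2 : ContinuousAt (fun v => (fderiv ℝ G v).comp (ContinuousLinearMap.inr ℝ E ℂ)) w :=
    h1.clm_comp continuousAt_const
  rw [(T2a_slice (hG.differentiableAt (by simp))).fderiv] at h
  filter_upwards [h2.preimage_mem_nhds (T2a_isOpen_pos.mem_nhds h), hG.eventually (by simp)]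
    with v hv hv'
  rw [(T2a_slice (hv'.differentiableAt (by simp))).fderiv]
  exact hv

theorem T2a_ift [FiniteDimensional ℂ E] {G : E × ℂ → ℂ} {w : E × ℂ} (hG : ContDiffAt ℝ 2 G w)
    (h : T2aPos (fderiv ℝ (fun z => G (w.1, z)) w.2)) :
    ∃ Ψ : E × ℂ → E × ℂ, (∀ᶠ v in 𝓝 w, Ψ (v.1, G v) = v) ∧
      (∀ᶠ u in 𝓝 (w.1, G w), ((Ψ u).1, G (Ψ u)) = u) ∧ Tendsto Ψ (𝓝 (w.1, G w)) (𝓝 w) := by
  have : CompleteSpace E := FiniteDimensional.complete ℂ E
  rw [(T2a_slice (hG.differentiableAt (by simp))).fderiv] at h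
  obtain ⟨e, he⟩ := exists_equiv_of_w h
  let L : (E × ℂ) ≃L[ℝ] (E × ℂ) := (ContinuousLinearEquiv.refl ℝ E).skewProd e
    ((fderiv ℝ G w).comp (ContinuousLinearMap.inl ℝ E ℂ))
  have hL : (L : E × ℂ →L[ℝ] E × ℂ) =
      (ContinuousLinearMap.fst ℝ E ℂ).prod (fderiv ℝ G w) := by
    refine ContinuousLinearMap.ext fun v => ?_
    have h1 : e v.2 = fderiv ℝ G w (0, v.2) := by
      have := congrArg (fun M : ℂ →L[ℝ] ℂ => M v.2) he
      simpa using this
    have h2 : fderiv ℝ G w v = fderiv ℝ G w (0, v.2) + fderiv ℝ G w (v.1, 0) := by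
      rw [← map_add]
      simp
    change ((ContinuousLinearEquiv.refl ℝ E).skewProd e
      ((fderiv ℝ G w).comp (ContinuousLinearMap.inl ℝ E ℂ))) v = (v.1, fderiv ℝ G w v)
    rw [ContinuousLinearEquiv.skewProd_apply, h1, h2]
    simp
  have hΦ : HasStrictFDerivAt (fun v : E × ℂ => (v.1, G v)) (L : E × ℂ →L[ℝ] E × ℂ) w := by
    rw [hL]
    exact hasStrictFDerivAt_fst.prodMk (hG.hasStrictFDerivAt (by simp))
  exact ⟨hΦ.localInverse _ _ _, hΦ.eventually_left_inverse, hΦ.eventually_right_inverse,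
    hΦ.localInverse_tendsto⟩

end Pool.Agent.MP_e62289_ag

end

section

open Set Filter Topology Complex MeasureTheory Metric
open scoped Manifold ContDiff ComplexConjugate NNReal ENNReal

namespace Pool.Agent.MP_e62289_ag

namespace Family

variable {E : Type} [NormedAddCommGroup E] [NormedSpace ℂ E] {B : Type} [TopologicalSpace B]
  [ChartedSpace E B] {n : ℕ} {a : Fin n → ℕ} {C : Family E B a}

section Aux

variable {b₀ : B} {W : Set C.X} (τ : C.PreTriv b₀ W)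

/-- the map `F` in the charts at `x` and `y` -/
noncomputable def PreTriv.T2ag (x y : C.X) (p : B × ℂ) : ℂ :=
  (C.chart y (τ.F p.1 ((C.chart x).symm (p.2, b₀)))).1

theorem T2a_coord {x q : C.X} {b : B} (hq : C.proj q = b) (hx : q ∈ (C.chart x).source) :
    ((C.chart x q).1, b) ∈ (C.chart x).target ∧ (C.chart x).symm ((C.chart x q).1, b) = q := by
  have e := C.chart_eq hx
  rw [hq] at e
  rw [e]
  exact ⟨(C.chart x).map_source hx, (C.chart x).left_inv hx⟩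

variable (h : C.proj ⁻¹' {b₀} ⊆ W)
include h

theorem PreTriv.T2a_contF :
    ContinuousOn (fun p : B × C.X => τ.F p.1 p.2) (τ.U ×ˢ (C.proj ⁻¹' {b₀})) := by
  have := τ.contF
  rwa [inter_eq_right.2 h] at this

theorem PreTriv.T2a_tendF {b : B} (hb : b ∈ τ.U) {q : C.X} (hq : C.proj q = b₀) :
    Tendsto (fun p : B × C.X => τ.F p.1 p.2) (𝓝[univ ×ˢ (C.proj ⁻¹' {b₀})] (b, q))
      (𝓝 (τ.F b q)) := by
  have h1 := τ.T2a_contF h (b, q) ⟨hb, hq⟩
  have h2 : τ.U ×ˢ (C.proj ⁻¹' {b₀}) = (τ.U ×ˢ univ) ∩ (univ ×ˢ (C.proj ⁻¹' {b₀})) := by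
    ext p; simp
  rw [ContinuousWithinAt, h2, nhdsWithin_inter_of_mem] at h1
  · exact h1
  · exact mem_nhdsWithin_of_mem_nhds (prod_mem_nhds (τ.isOpen.mem_nhds hb) univ_mem)

omit h in
/-- the parametrisation of `B × fibre` by a chart -/
theorem T2a_tendS {b : B} {x q : C.X} (hq : C.proj q = b₀) (hx : q ∈ (C.chart x).source) :
    Tendsto (fun p : B × ℂ => (p.1, (C.chart x).symm (p.2, b₀))) (𝓝 (b, (C.chart x q).1))
      (𝓝[univ ×ˢ (C.proj ⁻¹' {b₀})] (b, q)) ∧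
    ∀ᶠ p : B × ℂ in 𝓝 (b, (C.chart x q).1), (p.2, b₀) ∈ (C.chart x).target := by
  obtain ⟨h1, h2⟩ := T2a_coord hq hx
  have hc : ContinuousAt (fun p : B × ℂ => (p.2, b₀)) (b, (C.chart x q).1) := by fun_prop
  have hev : ∀ᶠ p : B × ℂ in 𝓝 (b, (C.chart x q).1), (p.2, b₀) ∈ (C.chart x).target :=
    hc.preimage_mem_nhds ((C.chart x).open_target.mem_nhds h1)
  refine ⟨tendsto_nhdsWithin_iff.2 ⟨?_, ?_⟩, hev⟩
  · have h3 : ContinuousAt (fun p : B × ℂ => (C.chart x).symm (p.2, b₀)) (b, (C.chart x q).1) :=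
      ContinuousAt.comp (f := fun p : B × ℂ => (p.2, b₀)) ((C.chart x).continuousAt_symm h1) hc
    have h4 := (continuousAt_fst (p := (b, (C.chart x q).1))).prodMk h3
    rw [ContinuousAt] at h4
    simpa only [h2] using h4
  · filter_upwards [hev] with p hp
    exact ⟨mem_univ _, C.proj_symm hp⟩

theorem PreTriv.T2a_dom {b : B} (hb : b ∈ τ.U) {x y q : C.X} (hq : C.proj q = b₀)
    (hx : q ∈ (C.chart x).source) (hy : τ.F b q ∈ (C.chart y).source) :
    ∀ᶠ p : B × ℂ in 𝓝 (b, (C.chart x q).1), p.1 ∈ τ.U ∧ (p.2, b₀) ∈ (C.chart x).target ∧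
      (C.chart x).symm (p.2, b₀) ∈ W ∧
      τ.F p.1 ((C.chart x).symm (p.2, b₀)) ∈ (C.chart y).source := by
  obtain ⟨h1, h2⟩ := T2a_tendS (b := b) hq hx
  have h3 := ((τ.T2a_tendF h hb hq).comp h1) ((C.chart y).open_source.mem_nhds hy)
  have h4 : ∀ᶠ p : B × ℂ in 𝓝 (b, (C.chart x q).1), p.1 ∈ τ.U :=
    continuousAt_fst.preimage_mem_nhds (τ.isOpen.mem_nhds hb)
  filter_upwards [h2, h3, h4] with p p2 p3 p4
  exact ⟨p4, p2, h (C.proj_symm p2), p3⟩

theorem PreTriv.T2a_smooth [IsManifold 𝓘(ℝ, E) ∞ B] {b b₁ : B} (hb : b ∈ τ.U)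
    (hb₁ : b ∈ (chartAt E b₁).source) {x y q : C.X} (hq : C.proj q = b₀)
    (hx : q ∈ (C.chart x).source) (hy : τ.F b q ∈ (C.chart y).source) :
    ContDiffAt ℝ 2 (fun w : E × ℂ => τ.T2ag x y ((chartAt E b₁).symm w.1, w.2))
      (chartAt E b₁ b, (C.chart x q).1) := by
  have h1 : ContMDiffAt (𝓘(ℝ, E).prod 𝓘(ℝ, ℂ)) 𝓘(ℝ, ℂ) 2 (τ.T2ag x y) (b, (C.chart x q).1) :=
    (τ.smooth x y).contMDiffAt (τ.T2a_dom h hb hq hx hy)
  have h2 : ContMDiffAt 𝓘(ℝ, E) 𝓘(ℝ, E) 2 (chartAt E b₁).symm (chartAt E b₁ b) :=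
    (contMDiffOn_chart_symm (I := 𝓘(ℝ, E)) (n := 2) (x := b₁)).contMDiffAt
      ((chartAt E b₁).open_target.mem_nhds ((chartAt E b₁).map_source hb₁))
  have h3 : ContMDiffAt 𝓘(ℝ, E × ℂ) (𝓘(ℝ, E).prod 𝓘(ℝ, ℂ)) 2
      (fun w : E × ℂ => ((chartAt E b₁).symm w.1, w.2)) (chartAt E b₁ b, (C.chart x q).1) :=
    (ContMDiffAt.comp (f := fun w : E × ℂ => w.1) _ h2
      contDiff_fst.contMDiff.contMDiffAt).prodMk contDiff_snd.contMDiff.contMDiffAt
  have h4 := h1.comp_of_eq h3 (by simp only [(chartAt E b₁).left_inv hb₁])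
  exact h4.contDiffAt

theorem PreTriv.T2a_diff [IsManifold 𝓘(ℝ, E) ∞ B] {b : B} (hb : b ∈ τ.U)
    {x y q : C.X} (hq : C.proj q = b₀)
    (hx : q ∈ (C.chart x).source) (hy : τ.F b q ∈ (C.chart y).source) :
    DifferentiableAt ℝ (fun z => τ.T2ag x y (b, z)) (C.chart x q).1 := by
  have h1 := (τ.T2a_smooth h hb (mem_chart_source E b) hq hx hy).differentiableAt (by simp)
  have h2 := (T2a_slice h1).differentiableAt
  simpa only [(chartAt E b).left_inv (mem_chart_source E b)] using h2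

/-- orientation does not depend on the charts -/
theorem PreTriv.T2a_indep [IsManifold 𝓘(ℝ, E) ∞ B] {b : B} (hb : b ∈ τ.U)
    {x y x' y' q : C.X} (hq : C.proj q = b₀)
    (hx : q ∈ (C.chart x).source) (hy : τ.F b q ∈ (C.chart y).source)
    (hx' : q ∈ (C.chart x').source) (hy' : τ.F b q ∈ (C.chart y').source)
    (hp : T2aPos (fderiv ℝ (fun z => τ.T2ag x y (b, z)) (C.chart x q).1)) :
    T2aPos (fderiv ℝ (fun z => τ.T2ag x' y' (b, z)) (C.chart x' q).1) := by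
  have hF : C.proj (τ.F b q) = b := τ.proj b hb q (h hq) hq
  have a1 := C.analyticAt_trans hx' hx
  have a2 := C.analyticAt_trans hy hy'
  rw [hq] at a1
  rw [hF] at a2
  obtain ⟨d1, p1⟩ := T2a_pos_hol a1.1 a1.2
  obtain ⟨d2, p2⟩ := T2a_pos_hol a2.1 a2.2
  set t1 : ℂ → ℂ := fun z => (C.chart x ((C.chart x').symm (z, b₀))).1 with ht1
  set t2 : ℂ → ℂ := fun z => (C.chart y' ((C.chart y).symm (z, b))).1 with ht2
  have e1 : t1 (C.chart x' q).1 = (C.chart x q).1 := by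
    simp only [ht1, (T2a_coord hq hx').2]
  have e2 : τ.T2ag x y (b, (C.chart x q).1) = (C.chart y (τ.F b q)).1 := by
    simp only [PreTriv.T2ag, (T2a_coord hq hx).2]
  have d0 := τ.T2a_diff h hb hq hx hy
  have hev : (fun z => τ.T2ag x' y' (b, z)) =ᶠ[𝓝 (C.chart x' q).1]
      t2 ∘ (fun z => τ.T2ag x y (b, z)) ∘ t1 := by
    have hc : ContinuousAt (fun z : ℂ => (b, z)) (C.chart x' q).1 := by fun_prop
    have h1 := hc.tendsto.eventually (τ.T2a_dom h hb hq hx' hy)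
    have h2 := (((continuous_snd.tendsto _).comp
      ((T2a_tendS (b := b) hq hx').1.mono_right nhdsWithin_le_nhds)).comp hc.tendsto).eventually
      ((C.chart x).open_source.mem_nhds hx)
    filter_upwards [h1, h2] with z z1 z2
    have hz : C.proj ((C.chart x').symm (z, b₀)) = b₀ := C.proj_symm z1.2.1
    have hz' : C.proj (τ.F b ((C.chart x').symm (z, b₀))) = b := τ.proj b hb _ (h hz) hz
    simp only [Function.comp_apply, PreTriv.T2ag, ht1, ht2]
    rw [(T2a_coord hz z2).2, (T2a_coord hz' z1.2.2.2).2]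
  rw [hev.fderiv_eq]
  have d0' : DifferentiableAt ℝ (fun z => τ.T2ag x y (b, z)) (t1 (C.chart x' q).1) := e1 ▸ d0
  have d2' : DifferentiableAt ℝ t2
      (((fun z => τ.T2ag x y (b, z)) ∘ t1) (C.chart x' q).1) := by
    simp only [Function.comp_apply, e1, e2]
    exact d2
  rw [fderiv_comp _ d2' (d0'.comp _ d1), fderiv_comp _ d0' d1]
  refine T2aPos.comp ?_ (T2aPos.comp ?_ p1)
  · simp only [Function.comp_apply, e1, e2]
    exact p2
  · rw [e1]
    exact hp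

/-- orientation is preserved near the base fibre -/
theorem PreTriv.T2a_near [IsManifold 𝓘(ℝ, E) ∞ B] {q : C.X} (hq : C.proj q = b₀) :
    ∀ᶠ p : B × C.X in 𝓝[univ ×ˢ (C.proj ⁻¹' {b₀})] (b₀, q),
      T2aPos (fderiv ℝ (fun z => τ.T2ag p.2 (τ.F p.1 p.2) (p.1, z)) (C.chart p.2 p.2).1) := by
  have hx := C.mem_source q
  have hF : τ.F b₀ q = q := τ.base q (h hq) hq
  have hy : τ.F b₀ q ∈ (C.chart q).source := by rw [hF]; exact hx
  have hs := mem_chart_source E b₀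
  have h1 := τ.T2a_smooth h τ.mem hs hq hx hy
  have h2 : T2aPos (fderiv ℝ (fun z => τ.T2ag q q (b₀, z)) (C.chart q q).1) := by
    have hc : ContinuousAt (fun z : ℂ => (b₀, z)) (C.chart q q).1 := by fun_prop
    have hev : (fun z => τ.T2ag q q (b₀, z)) =ᶠ[𝓝 (C.chart q q).1] id := by
      filter_upwards [hc.tendsto.eventually (τ.T2a_dom h τ.mem hq hx hy)] with z z1
      simp only [PreTriv.T2ag, id]
      rw [τ.base _ z1.2.2.1 (C.proj_symm z1.2.1), (C.chart q).right_inv z1.2.1]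
    rw [hev.fderiv_eq, fderiv_id]
    exact T2a_pos_id
  have h3 := T2a_pos_ev h1 (by simpa only [(chartAt E b₀).left_inv hs] using h2)
  have hA : ContinuousAt (fun p : B × C.X => (chartAt E b₀ p.1, (C.chart q p.2).1)) (b₀, q) :=
    (ContinuousAt.comp (f := fun p : B × C.X => p.1) ((chartAt E b₀).continuousAt hs)
      continuousAt_fst).prodMk (continuousAt_fst.comp
        (ContinuousAt.comp (f := fun p : B × C.X => p.2) ((C.chart q).continuousAt hx)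
          continuousAt_snd))
  have h4 := hA.tendsto.eventually h3
  have h5 : ∀ᶠ p : B × C.X in 𝓝 (b₀, q), p.1 ∈ τ.U ∩ (chartAt E b₀).source ∧
      p.2 ∈ (C.chart q).source :=
    prod_mem_nhds (inter_mem (τ.isOpen.mem_nhds τ.mem) (chart_source_mem_nhds E b₀))
      ((C.chart q).open_source.mem_nhds hx)
  have h6 := (τ.T2a_tendF h τ.mem hq).eventually ((C.chart q).open_source.mem_nhds hy)
  filter_upwards [mem_nhdsWithin_of_mem_nhds h4, mem_nhdsWithin_of_mem_nhds h5, h6,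
    self_mem_nhdsWithin] with p p4 p5 p6 p7
  refine τ.T2a_indep h p5.1.1 p7.2 p5.2 p6 (C.mem_source _) (C.mem_source _) ?_
  simpa only [(chartAt E b₀).left_inv p5.1.2] using p4

/-- the inverse function theorem for `F` -/
theorem PreTriv.T2a_inv [FiniteDimensional ℂ E] [IsManifold 𝓘(ℝ, E) ∞ B] {b : B} (hb : b ∈ τ.U)
    {q : C.X} (hq : C.proj q = b₀)
    (hp : T2aPos (fderiv ℝ (fun z => τ.T2ag q (τ.F b q) (b, z)) (C.chart q q).1)) :
    ∃ s : C.X → B × C.X,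
      (∀ᶠ p in 𝓝[univ ×ˢ (C.proj ⁻¹' {b₀})] (b, q), s (τ.F p.1 p.2) = p) ∧
      (∀ᶠ x in 𝓝 (τ.F b q), τ.F (s x).1 (s x).2 = x) ∧
      Tendsto s (𝓝 (τ.F b q)) (𝓝[univ ×ˢ (C.proj ⁻¹' {b₀})] (b, q)) := by
  set y := τ.F b q with hy0
  have hx := C.mem_source q
  have hy : y ∈ (C.chart y).source := C.mem_source y
  have hs := mem_chart_source E b
  have hF : C.proj y = b := τ.proj b hb q (h hq) hq
  have h1 := τ.T2a_smooth h hb hs hq hx hy
  obtain ⟨Ψ, l1, l2, l3⟩ := T2a_ift h1 (by simpa only [(chartAt E b).left_inv hs] using hp)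
  have e2 : τ.T2ag q y (b, (C.chart q q).1) = (C.chart y y).1 := by
    simp only [PreTriv.T2ag, (T2a_coord hq hx).2, hy0]
  simp only [(chartAt E b).left_inv hs, e2] at l2 l3
  have hT : Tendsto (fun x => (chartAt E b (C.proj x), (C.chart y x).1)) (𝓝 y)
      (𝓝 (chartAt E b b, (C.chart y y).1)) := by
    have c1 : ContinuousAt (chartAt E b) (C.proj y) := by
      rw [hF]; exact (chartAt E b).continuousAt hs
    have c2 := (c1.comp C.proper.continuous.continuousAt).prodMk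
      (continuousAt_fst.comp ((C.chart y).continuousAt hy))
    rw [ContinuousAt] at c2
    simpa only [Function.comp_apply, hF] using c2
  have hR : Tendsto (fun w : E × ℂ => ((chartAt E b).symm w.1, w.2))
      (𝓝 (chartAt E b b, (C.chart q q).1)) (𝓝 (b, (C.chart q q).1)) := by
    have c1 := (ContinuousAt.comp (f := fun w : E × ℂ => w.1)
      (x := (chartAt E b b, (C.chart q q).1))
      ((chartAt E b).continuousAt_symm ((chartAt E b).map_source hs)) continuousAt_fst).prodMk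
      continuousAt_snd
    rw [ContinuousAt] at c1
    simpa only [Function.comp_apply, (chartAt E b).left_inv hs] using c1
  have hA : ContinuousAt (fun p : B × C.X => (chartAt E b p.1, (C.chart q p.2).1)) (b, q) :=
    (ContinuousAt.comp (f := fun p : B × C.X => p.1) ((chartAt E b).continuousAt hs)
      continuousAt_fst).prodMk (continuousAt_fst.comp
        (ContinuousAt.comp (f := fun p : B × C.X => p.2) ((C.chart q).continuousAt hx)
          continuousAt_snd))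
  refine ⟨fun x => ((chartAt E b).symm (Ψ (chartAt E b (C.proj x), (C.chart y x).1)).1,
    (C.chart q).symm ((Ψ (chartAt E b (C.proj x), (C.chart y x).1)).2, b₀)), ?_, ?_, ?_⟩
  · have h4 := hA.tendsto.eventually l1
    have h5 : ∀ᶠ p : B × C.X in 𝓝 (b, q), p.1 ∈ τ.U ∩ (chartAt E b).source ∧
        p.2 ∈ (C.chart q).source :=
      prod_mem_nhds (inter_mem (τ.isOpen.mem_nhds hb) (chart_source_mem_nhds E b))
        ((C.chart q).open_source.mem_nhds hx)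
    filter_upwards [mem_nhdsWithin_of_mem_nhds h4, mem_nhdsWithin_of_mem_nhds h5,
      self_mem_nhdsWithin] with p p4 p5 p7
    have hp2 : C.proj p.2 = b₀ := p7.2
    simp only [(chartAt E b).left_inv p5.1.2, PreTriv.T2ag, (T2a_coord hp2 p5.2).2] at p4
    simp only [τ.proj p.1 p5.1.1 p.2 (h hp2) hp2, p4, (chartAt E b).left_inv p5.1.2,
      (T2a_coord hp2 p5.2).2]
  · have h4 := hT.eventually l2
    have h5 := ((hR.comp l3).comp hT).eventually (τ.T2a_dom h hb hq hx hy)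
    have h6 : ∀ᶠ x in 𝓝 y, C.proj x ∈ (chartAt E b).source :=
      C.proper.continuous.continuousAt.preimage_mem_nhds
        (by rw [hF]; exact chart_source_mem_nhds E b)
    filter_upwards [h4, h5, h6, (C.chart y).open_source.mem_nhds hy] with x x4 x5 x6 x7
    simp only [Function.comp_apply] at x5
    set u := Ψ (chartAt E b (C.proj x), (C.chart y x).1)
    have u1 : u.1 = chartAt E b (C.proj x) := congrArg Prod.fst x4
    have u2 : τ.T2ag q y ((chartAt E b).symm u.1, u.2) = (C.chart y x).1 := congrArg Prod.snd x4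
    have u3 : (chartAt E b).symm u.1 = C.proj x := by rw [u1, (chartAt E b).left_inv x6]
    rw [u3] at x5 u2 ⊢
    have u4 := τ.proj _ x5.1 _ x5.2.2.1 (C.proj_symm x5.2.1)
    refine (C.chart y).injOn x5.2.2.2 x7 ?_
    rw [← C.chart_eq x5.2.2.2, ← C.chart_eq x7, u4]
    exact Prod.ext u2 rfl
  · exact (((T2a_tendS (b := b) hq hx).1.comp hR).comp l3).comp hT

end Aux

variable [FiniteDimensional ℂ E] [IsManifold 𝓘(ℂ, E) ω B] [IsManifold 𝓘(ℝ, E) ∞ B] [T2Space B]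

omit [IsManifold 𝓘(ℂ, E) ω B] [T2Space B] in
/-- near the base point the maps `F b` are injective local diffeomorphisms -/
theorem PreTriv.local_inj {b₀ : B} {W : Set C.X} (τ : C.PreTriv b₀ W) (hW : IsOpen W)
    (h : C.proj ⁻¹' {b₀} ⊆ W) : ∃ U', IsOpen U' ∧ b₀ ∈ U' ∧ U' ⊆ τ.U ∧
      (∀ b ∈ U', ∀ x, C.proj x = b₀ →
        ‖w2 (fderiv ℝ (fun z => (C.chart (τ.F b x) (τ.F b ((C.chart x).symm (z, b₀)))).1)
          (C.chart x x).1)‖ <
        ‖w1 (fderiv ℝ (fun z => (C.chart (τ.F b x) (τ.F b ((C.chart x).symm (z, b₀)))).1)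
          (C.chart x x).1)‖) ∧
      (∀ b ∈ U', InjOn (τ.F b) (C.proj ⁻¹' {b₀})) ∧
      ∀ b ∈ U', ∀ x, C.proj x = b₀ → 𝓝 (τ.F b x) ≤
        map (fun p : B × C.X => τ.F p.1 p.2) (𝓝[univ ×ˢ (C.proj ⁻¹' {b₀})] (b, x)) := by
  have hK : IsCompact (C.proj ⁻¹' {b₀}) := C.proper.isCompact_preimage isCompact_singleton
  have h1 : ∀ᶠ b in 𝓝 b₀, ∀ x ∈ C.proj ⁻¹' {b₀}, C.proj x = b₀ →
      T2aPos (fderiv ℝ (fun z => τ.T2ag x (τ.F b x) (b, z)) (C.chart x x).1) := by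
    refine hK.eventually_forall_of_forall_eventually fun q hq => ?_
    filter_upwards [eventually_nhdsWithin_iff.1 (τ.T2a_near h hq)] with p hp hp'
    exact hp ⟨mem_univ _, hp'⟩
  have h2 : ∀ᶠ b in 𝓝 b₀, ∀ r ∈ (C.proj ⁻¹' {b₀}) ×ˢ (C.proj ⁻¹' {b₀}),
      C.proj r.1 = b₀ → C.proj r.2 = b₀ → τ.F b r.1 = τ.F b r.2 → r.1 = r.2 := by
    refine (hK.prod hK).eventually_forall_of_forall_eventually fun r hr => ?_
    have t1 : Tendsto (fun z : B × C.X × C.X => (z.1, z.2.1)) (𝓝 (b₀, r)) (𝓝 (b₀, r.1)) :=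
      Continuous.tendsto' (by fun_prop) _ _ rfl
    have t2 : Tendsto (fun z : B × C.X × C.X => (z.1, z.2.2)) (𝓝 (b₀, r)) (𝓝 (b₀, r.2)) :=
      Continuous.tendsto' (by fun_prop) _ _ rfl
    by_cases hne : r.1 = r.2
    · obtain ⟨s, hs, -, -⟩ := τ.T2a_inv h τ.mem hr.1 (h1.self_of_nhds _ hr.1 hr.1)
      have hs' := eventually_nhdsWithin_iff.1 hs
      rw [← hne] at t2
      filter_upwards [t1.eventually hs', t2.eventually hs'] with z z1 z2 z3 z4 z5
      have e1 := z1 ⟨mem_univ _, z3⟩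
      have e2 := z2 ⟨mem_univ _, z4⟩
      rw [z5, e2] at e1
      exact (congrArg Prod.snd e1).symm
    · obtain ⟨u, v, hu, hv, hu1, hv1, huv⟩ := t2_separation hne
      have f1 := (τ.T2a_tendF h τ.mem hr.1).eventually
        (hu.mem_nhds (by rw [τ.base _ (h hr.1) hr.1]; exact hu1))
      have f2 := (τ.T2a_tendF h τ.mem hr.2).eventually
        (hv.mem_nhds (by rw [τ.base _ (h hr.2) hr.2]; exact hv1))
      filter_upwards [t1.eventually (eventually_nhdsWithin_iff.1 f1),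
        t2.eventually (eventually_nhdsWithin_iff.1 f2)] with z z1 z2 z3 z4 z5
      have e1 := z1 ⟨mem_univ _, z3⟩
      have e2 := z2 ⟨mem_univ _, z4⟩
      rw [z5] at e1
      exact (disjoint_left.1 huv e1 e2).elim
  obtain ⟨U', hU', hO, hb₀⟩ := eventually_nhds_iff.1 ((h1.and h2).and (τ.isOpen.mem_nhds τ.mem))
  refine ⟨U', hO, hb₀, fun b hb => (hU' b hb).2, fun b hb x hx => (hU' b hb).1.1 x hx hx,
    fun b hb x hx x' hx' e => (hU' b hb).1.2 (x, x') ⟨hx, hx'⟩ hx hx' e, fun b hb x hx => ?_⟩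
  obtain ⟨s, -, hs, ht⟩ := τ.T2a_inv h (hU' b hb).2 hx ((hU' b hb).1.1 x hx hx)
  exact le_map_of_right_inverse hs ht

end Family

end Pool.Agent.MP_e62289_ag

end

section

open Set Filter Topology Complex MeasureTheory Metric
open scoped Manifold ContDiff ComplexConjugate NNReal ENNReal

namespace Pool.Agent.MP_e62289_ag

namespace Family

variable {E : Type} [NormedAddCommGroup E] [NormedSpace ℂ E] {B : Type} [TopologicalSpace B]
  [ChartedSpace E B] {n : ℕ} {a : Fin n → ℕ}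

section Aux

variable {C : Family E B a} {b₀ : B} {W : Set C.X} (τ : C.PreTriv b₀ W)
  (h : C.proj ⁻¹' {b₀} ⊆ W)

include h

theorem T2_sec {b : B} (hb : b ∈ τ.U) (i : Fin n) : τ.F b (C.sec i b₀) = C.sec i b := by
  obtain ⟨h1, h2, h3⟩ := (τ.near i).self_of_nhds (C.proj_sec i b₀) b hb
  refine (C.chart (C.sec i b₀)).injOn h2 h1 (Prod.ext ?_ ?_)
  · rw [h3, sub_self, zero_add]
  · rw [C.snd_chart _ _ h2, C.snd_chart _ _ h1, C.proj_sec,
      τ.proj b hb _ (h (C.proj_sec i b₀)) (C.proj_sec i b₀)]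

theorem T2_cont : ContinuousOn (fun p : B × C.X => τ.F p.1 p.2) (τ.U ×ˢ (C.proj ⁻¹' {b₀})) :=
  τ.contF.mono fun _ hp => ⟨hp.1, h hp.2, hp.2⟩

theorem T2_cont_fib {b : B} (hb : b ∈ τ.U) : Continuous fun q : C.Fib b₀ => τ.F b q.1 :=
  (T2_cont τ h).comp_continuous (f := fun q : C.Fib b₀ => (b, q.1))
    (continuous_const.prodMk continuous_subtype_val) fun q => ⟨hb, q.2.1⟩

theorem T2_smooth (y : C.X) : ContMDiffOn (𝓘(ℝ, E).prod 𝓘(ℝ, ℂ)) 𝓘(ℝ, ℂ) 2
    (fun p : B × C.Fib b₀ => (C.chart y (τ.F p.1 p.2.1)).1)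
    {p | p.1 ∈ τ.U ∧ τ.F p.1 p.2.1 ∈ (C.chart y).source} := by
  rintro ⟨b, q⟩ hp
  have hch : ContMDiffAt 𝓘(ℝ, ℂ) 𝓘(ℝ, ℂ) 2 (chartAt ℂ q) q :=
    (contMDiffOn_chart (I := 𝓘(ℝ, ℂ)) (n := 2) (x := q)).contMDiffAt (chart_source_mem_nhds ℂ q)
  have hψ : ContMDiffAt (𝓘(ℝ, E).prod 𝓘(ℝ, ℂ)) (𝓘(ℝ, E).prod 𝓘(ℝ, ℂ)) 2
      (fun p : B × C.Fib b₀ => (p.1, chartAt ℂ q p.2)) (b, q) :=
    contMDiffAt_fst.prodMk (hch.comp (b, q) contMDiffAt_snd)
  have hinv : ∀ y' : C.Fib b₀, y'.1 ∈ (C.chart q.1).source →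
      (chartAt ℂ q y', b₀) ∈ (C.chart q.1).target ∧
        (C.chart q.1).symm (chartAt ℂ q y', b₀) = y'.1 := fun y' hy' => by
    have e := C.chart_eq hy'
    rw [y'.2.1] at e
    have e' : (chartAt ℂ q y', b₀) = C.chart q.1 y'.1 := e
    rw [e']
    exact ⟨(C.chart q.1).map_source hy', (C.chart q.1).left_inv hy'⟩
  have hn : {p : B × C.Fib b₀ | p.2.1 ∈ (C.chart q.1).source} ∈ 𝓝 (b, q) :=
    ((C.chart q.1).open_source.preimage
      (continuous_subtype_val.comp continuous_snd)).mem_nhds (C.mem_source q.1)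
  have hmaps : MapsTo (fun p : B × C.Fib b₀ => (p.1, chartAt ℂ q p.2))
      ({p | p.1 ∈ τ.U ∧ τ.F p.1 p.2.1 ∈ (C.chart y).source} ∩
        {p : B × C.Fib b₀ | p.2.1 ∈ (C.chart q.1).source})
      {p : B × ℂ | p.1 ∈ τ.U ∧ (p.2, b₀) ∈ (C.chart q.1).target ∧
        (C.chart q.1).symm (p.2, b₀) ∈ W ∧
        τ.F p.1 ((C.chart q.1).symm (p.2, b₀)) ∈ (C.chart y).source} := by
    rintro p ⟨⟨h1, h2⟩, h3⟩
    obtain ⟨h4, h5⟩ := hinv p.2 h3
    refine ⟨h1, h4, ?_, ?_⟩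
    · change (C.chart q.1).symm (chartAt ℂ q p.2, b₀) ∈ W
      rw [h5]
      exact h p.2.2.1
    · change τ.F p.1 ((C.chart q.1).symm (chartAt ℂ q p.2, b₀)) ∈ _
      rw [h5]
      exact h2
  have hmem : (b, q) ∈ {p : B × C.Fib b₀ | p.1 ∈ τ.U ∧ τ.F p.1 p.2.1 ∈ (C.chart y).source} ∩
      {p : B × C.Fib b₀ | p.2.1 ∈ (C.chart q.1).source} := ⟨hp, C.mem_source q.1⟩
  have h1 := (τ.smooth q.1 y _ (hmaps hmem)).comp (b, q) hψ.contMDiffWithinAt hmaps
  rw [← contMDiffWithinAt_inter hn]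
  refine h1.congr (fun p hp' => ?_) ?_
  · change _ = (C.chart y (τ.F p.1 ((C.chart q.1).symm (chartAt ℂ q p.2, b₀)))).1
    rw [(hinv p.2 hp'.2).2]
  · change _ = (C.chart y (τ.F b ((C.chart q.1).symm (chartAt ℂ q q, b₀)))).1
    rw [(hinv q (C.mem_source q.1)).2]

theorem T2_ckAt {b : B} (hb : b ∈ τ.U) {q : C.Fib b₀} {y : C.X}
    (hy : τ.F b q.1 ∈ (C.chart y).source) :
    CkAt 2 (fun q' : C.Fib b₀ => (C.chart y (τ.F b q'.1)).1) q := by
  have hn : {q' : C.Fib b₀ | τ.F b q'.1 ∈ (C.chart y).source} ∈ 𝓝 q :=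
    ((C.chart y).open_source.preimage (T2_cont_fib τ h hb)).mem_nhds hy
  have h1 : ContMDiffAt 𝓘(ℝ, ℂ) (𝓘(ℝ, E).prod 𝓘(ℝ, ℂ)) 2 (fun q' : C.Fib b₀ => (b, q')) q :=
    contMDiffAt_const.prodMk contMDiffAt_id
  have h2 := (T2_smooth τ h y (b, q) ⟨hb, hy⟩).comp q
    (s := {q' : C.Fib b₀ | τ.F b q'.1 ∈ (C.chart y).source}) h1.contMDiffWithinAt
    fun q' hq' => ⟨hb, hq'⟩
  exact h2.contMDiffAt hn

theorem T2_dd {b : B} (hb : b ∈ τ.U) {q : C.Fib b₀} {y : C.X}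
    (hy : τ.F b q.1 ∈ (C.chart y).source) :
    dd (fun q' : C.Fib b₀ => (C.chart y (τ.F b q'.1)).1) q =
      fderiv ℝ (fun z => (C.chart y (τ.F b ((C.chart q.1).symm (z, b₀)))).1)
        (C.chart q.1 q.1).1 := by
  rw [dd_eq_fderiv ((T2_ckAt τ h hb hy).mdifferentiableAt (by simp))]
  refine Filter.EventuallyEq.fderiv_eq ?_
  filter_upwards [chart_target_mem_nhds ℂ q] with z hz
  change (C.chart y (τ.F b ((C.fchart q q.1).symm z).1)).1 = _
  rw [C.fchart_symm q q.1 hz]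

omit h in
theorem T2_core : ∃ K : Set (C.Fib b₀), IsCompact K ∧ ∀ q, q ∉ K → ∀ b ∈ τ.U, ∃ y : C.X,
    τ.F b q.1 ∈ (C.chart y).source ∧
      d2 (fun q' : C.Fib b₀ => (C.chart y (τ.F b q'.1)).1) q = 0 := by
  have h1 := fun i => eventually_nhds_iff.1 ((τ.near i).and
    ((C.chart (C.sec i b₀)).open_source.mem_nhds (C.mem_source (C.sec i b₀))))
  choose O hO hOo hOm using h1
  refine ⟨{q | ∀ i, q.1 ∉ O i}, ?_, fun q hq b hb => ?_⟩
  · rw [Subtype.isCompact_iff]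
    have e : Subtype.val '' {q : C.Fib b₀ | ∀ i, q.1 ∉ O i} =
        C.proj ⁻¹' {b₀} ∩ ⋂ i, (O i)ᶜ := by
      ext x
      constructor
      · rintro ⟨q, hq, rfl⟩
        exact ⟨q.2.1, mem_iInter.2 hq⟩
      · rintro ⟨h2, h3⟩
        have h4 := mem_iInter.1 h3
        exact ⟨⟨x, h2, fun i hi => h4 i (hi ▸ hOm i)⟩, h4, rfl⟩
    rw [e]
    exact (C.proper.isCompact_preimage isCompact_singleton).inter_right
      (isClosed_iInter fun i => (hOo i).isClosed_compl)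
  · obtain ⟨i, hi⟩ : ∃ i, q.1 ∈ O i := by
      by_contra hc
      exact hq fun i hi => hc ⟨i, hi⟩
    refine ⟨C.sec i b₀, ((hO i _ hi).1 q.2.1 b hb).2.1, ?_⟩
    have e : (fun q' : C.Fib b₀ => (C.chart (C.sec i b₀) (τ.F b q'.1)).1) =ᶠ[𝓝 q]
        fun q' : C.Fib b₀ => (C.chart (C.sec i b₀) q'.1).1 -
          (C.chart (C.sec i b₀) (C.sec i b₀)).1 + (C.chart (C.sec i b₀) (C.sec i b)).1 := by
      filter_upwards [((hOo i).preimage continuous_subtype_val).mem_nhds hi] with q' hq'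
      exact ((hO i _ hq').1 q'.2.1 b hb).2.2
    rw [(d_congr e).2]
    exact (d2_of_hol (((C.holAt_chart (hO i _ hi).2).1.sub mdifferentiableAt_const).add
      mdifferentiableAt_const)).2

omit h in
theorem T2_nhds {U' : Set B} (hU : IsOpen U') {b : B} (hb : b ∈ U') {x : C.X}
    (ho : 𝓝 (τ.F b x) ≤
      map (fun p : B × C.X => τ.F p.1 p.2) (𝓝[univ ×ˢ (C.proj ⁻¹' {b₀})] (b, x)))
    {N : Set C.X} (hN : N ∈ 𝓝 x) :
    {y | ∃ b' ∈ U', ∃ x' ∈ N, C.proj x' = b₀ ∧ τ.F b' x' = y} ∈ 𝓝 (τ.F b x) := by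
  refine ho (mem_map.2 ?_)
  filter_upwards [self_mem_nhdsWithin,
    mem_nhdsWithin_of_mem_nhds (prod_mem_nhds (hU.mem_nhds hb) hN)] with p hp hp'
  exact ⟨p.1, hp'.1, p.2, hp'.2, hp.2, rfl⟩

theorem T2_surj {U' : Set B} (hU : IsOpen U') (hs : U' ⊆ τ.U)
    (ho : ∀ b ∈ U', ∀ x, C.proj x = b₀ → 𝓝 (τ.F b x) ≤
      map (fun p : B × C.X => τ.F p.1 p.2) (𝓝[univ ×ˢ (C.proj ⁻¹' {b₀})] (b, x)))
    {b : B} (hb : b ∈ U') {y : C.X} (hy : C.proj y = b) : ∃ x, C.proj x = b₀ ∧ τ.F b x = y := by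
  have hV : IsOpen {y | ∃ b' ∈ U', ∃ x' ∈ (univ : Set C.X), C.proj x' = b₀ ∧ τ.F b' x' = y} := by
    refine isOpen_iff_mem_nhds.2 ?_
    rintro _ ⟨b', hb', x', -, hx', rfl⟩
    exact T2_nhds τ hU hb' (ho b' hb' x' hx') univ_mem
  have hS : IsCompact (τ.F b '' (C.proj ⁻¹' {b₀})) :=
    (C.proper.isCompact_preimage isCompact_singleton).image_of_continuousOn
      ((T2_cont τ h).comp (f := fun x : C.X => (b, x))
        (continuous_const.prodMk continuous_id).continuousOn fun x hx => ⟨hs hb, hx⟩)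
  by_contra hc
  obtain ⟨x₀, hx₀⟩ := (C.conn b₀).nonempty
  obtain ⟨z, hz, ⟨b', hb', x', -, hx', rfl⟩, hz'⟩ := (C.conn b).isPreconnected _ _ hV
    hS.isClosed.isOpen_compl (fun z _ => by
      by_cases hz : z ∈ τ.F b '' (C.proj ⁻¹' {b₀})
      · obtain ⟨x, hx, rfl⟩ := hz
        exact Or.inl ⟨b, hb, x, mem_univ _, hx, rfl⟩
      · exact Or.inr hz)
    ⟨τ.F b x₀, τ.proj b (hs hb) x₀ (h hx₀) hx₀, b, hb, x₀, mem_univ _, hx₀, rfl⟩
    ⟨y, hy, fun ⟨x, hx, hxy⟩ => hc ⟨x, hx, hxy⟩⟩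
  have e : b' = b := (τ.proj b' (hs hb') x' (h hx') hx').symm.trans hz
  exact hz' ⟨x', hx', by rw [e]⟩

end Aux

variable (C : Family E B a)
  [FiniteDimensional ℂ E] [IsManifold 𝓘(ℂ, E) ω B] [IsManifold 𝓘(ℝ, E) ∞ B] [T2Space B]

theorem exists_triv (b₀ : B) : Nonempty (C.Triv b₀) := by
  obtain ⟨W, hW, h, ⟨τ⟩⟩ := C.preTriv_all b₀
  obtain ⟨U', hU, hb₀, hs, hpos, hinj, ho⟩ := τ.local_inj hW h
  obtain ⟨K, hK, hKd⟩ := T2_core τ
  let G : ∀ b : U', C.Fib b₀ → C.Fib b.1 := fun b q =>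
    ⟨τ.F b q.1, τ.proj b (hs b.2) _ (h q.2.1) q.2.1, fun i hi => q.2.2 i
      (hinj b b.2 q.2.1 (C.proj_sec i b₀) (hi.trans (T2_sec τ h (hs b.2) i).symm))⟩
  have hGc : ∀ b, Continuous (G b) := fun b => (T2_cont_fib τ h (hs b.2)).subtype_mk _
  have hGb : ∀ b, Function.Bijective (G b) := fun b => by
    refine ⟨fun q q' e => Subtype.ext (hinj b b.2 q.2.1 q'.2.1 (congrArg Subtype.val e)),
      fun y => ?_⟩
    obtain ⟨x, hx, hxy⟩ := T2_surj τ h hU hs ho b.2 y.2.1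
    refine ⟨⟨x, hx, fun i hi => y.2.2 i ?_⟩, Subtype.ext hxy⟩
    rw [← hxy, hi, T2_sec τ h (hs b.2) i]
  have hGd : ∀ (b : U') (q : C.Fib b₀) (y : C.X), τ.F b q.1 ∈ (C.chart y).source →
      ContMDiffAt 𝓘(ℝ, ℂ) 𝓘(ℝ, ℂ) 2 (G b) q ∧ ∃ c : ℂ, c ≠ 0 ∧
        d1 (fun q' : C.Fib b₀ => (C.chart y (τ.F b q'.1)).1) q = c * d1 (G b) q ∧
        d2 (fun q' : C.Fib b₀ => (C.chart y (τ.F b q'.1)).1) q = c * d2 (G b) q :=
    fun b q y hy => C.contMDiffAt_fib (G := G b) (hGc b).continuousAt hy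
      (T2_ckAt τ h (hs b.2) hy)
  have hGk : ∀ (b : U') q, q ∉ K → d2 (G b) q = 0 := fun b q hq => by
    obtain ⟨y, hy, h2⟩ := hKd q hq b (hs b.2)
    obtain ⟨-, c, hc, -, h3⟩ := hGd b q y hy
    rw [h2] at h3
    exact (mul_eq_zero.1 h3.symm).resolve_left hc
  have hGp : ∀ (b : U') q, ‖d2 (G b) q‖ < ‖d1 (G b) q‖ := fun b q => by
    obtain ⟨-, c, hc, h1, h2⟩ := hGd b q _ (C.mem_source (τ.F b q.1))
    have h3 := hpos b b.2 q.1 q.2.1
    rw [← T2_dd τ h (hs b.2) (C.mem_source (τ.F b q.1))] at h3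
    change ‖d2 _ q‖ < ‖d1 _ q‖ at h3
    rw [h1, h2, norm_mul, norm_mul] at h3
    exact lt_of_mul_lt_mul_left h3 (norm_nonneg c)
  have hA : ∀ b : U', ∃ A : Adm (C.Fib b₀) (C.Fib b.1), ⇑A.φ = G b := fun b =>
    Adm.exists_of_bij (hGb b) (fun q => (hGd b q _ (C.mem_source _)).1) (hGp b) ⟨K, hK, hGk b⟩
  choose A hA using hA
  have hAF : ∀ (b : U') (q : C.Fib b₀), ((A b).φ q).1 = τ.F b q.1 := fun b q => by
    rw [hA]
  refine ⟨⟨U', hU, hb₀, ⟨A, ?_, ?_, K, hK, fun b q hq => ?_⟩, τ.F, hAF,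
    fun x hx => τ.base x (h hx) hx, (T2_cont τ h).mono (prod_mono hs subset_rfl),
    fun b hb i => T2_sec τ h (hs hb) i,
    fun x => (T2_smooth τ h x).mono fun p hp => ⟨hs hp.1, hp.2⟩,
    fun x q => (τ.hol x q.1 (h q.2.1) q.2.1).mono fun b hb => ⟨hs hb.1, hb.2⟩⟩⟩
  · simp only [hAF]
    exact (T2_cont τ h).comp_continuous (f := fun p : U' × C.Fib b₀ => (p.1.1, p.2.1))
      ((continuous_subtype_val.comp continuous_fst).prodMk
        (continuous_subtype_val.comp continuous_snd)) fun p => ⟨hs p.1.2, p.2.2.1⟩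
  · refine Topology.IsInducing.subtypeVal.continuous_iff.2
      (continuous_iff_continuousAt.2 fun p₀ N hN => ?_)
    have hH : ∀ p : C.Tot (Subtype.val : U' → B),
        τ.F p.1.1 ((A p.1.1).φ.symm ⟨p.1.2, p.2⟩).1 = p.1.2 := fun p => by
      rw [← hAF, Diffeomorph.apply_symm_apply]
    have h1 := T2_nhds τ hU p₀.1.1.2
      (ho _ p₀.1.1.2 _ ((A p₀.1.1).φ.symm ⟨p₀.1.2, p₀.2⟩).2.1) hN
    rw [hH] at h1
    have h2 : ContinuousAt (fun p : C.Tot (Subtype.val : U' → B) => p.1.2) p₀ :=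
      (continuous_snd.comp continuous_subtype_val).continuousAt
    rw [mem_map]
    filter_upwards [h2.preimage_mem_nhds h1] with p hp
    obtain ⟨b', hb', x', hx', h3, h4⟩ := hp
    have e : b' = p.1.1 := by
      rw [← τ.proj b' (hs hb') x' (h h3) h3, h4]
      exact p.2.1
    subst e
    have e' : x' = ((A p.1.1).φ.symm ⟨p.1.2, p.2⟩).1 :=
      hinj _ hb' h3 ((A p.1.1).φ.symm ⟨p.1.2, p.2⟩).2.1 (h4.trans (hH p).symm)
    change ((A p.1.1).φ.symm ⟨p.1.2, p.2⟩).1 ∈ N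
    rwa [← e']
  · rw [hA]
    exact hGk b q hq

end Family

end Pool.Agent.MP_e62289_ag

end

section

open Set Filter Topology Complex MeasureTheory Metric
open scoped Manifold ContDiff ComplexConjugate NNReal ENNReal

namespace Pool.Agent.MP_e62289_ag

/-- monodromy for a system whose transition maps are bijections -/
theorem Mono_aux {B : Type} [TopologicalSpace B] [SimplyConnectedSpace B]
    [LocallyPathConnectedSpace B] (Q : B → Type) (U : B → Set B)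
    (hU : ∀ b, IsOpen (U b)) (hm : ∀ b, b ∈ U b) (G : ∀ b₀ b, b ∈ U b₀ → Q b₀ → Q b)
    (inj : ∀ b₀ b h, Function.Injective (G b₀ b h))
    (surj : ∀ b₀ b h, Function.Surjective (G b₀ b h)) (hid : ∀ b s, G b b (hm b) s = s)
    (loc : ∀ b₀ b₁ s₀ s₁ b₂ h₀ h₁, G b₀ b₂ h₀ s₀ = G b₁ b₂ h₁ s₁ →
      ∀ᶠ b in 𝓝 b₂, ∀ h₀' h₁', G b₀ b h₀' s₀ = G b₁ b h₁' s₁)
    (p : B) (s : Q p) : ∃ σ : ∀ b, Q b, σ p = s ∧
      ∀ b₀, ∀ᶠ b in 𝓝 b₀, ∀ h, σ b = G b₀ b h (σ b₀) := by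
  let _ : TopologicalSpace (Σ b, Q b) :=
    { IsOpen := fun W => ∀ z ∈ W, ∀ᶠ b in 𝓝 z.1, ∀ h : b ∈ U z.1,
        (⟨b, G z.1 b h z.2⟩ : Σ b, Q b) ∈ W
      isOpen_univ := fun _ _ => Eventually.of_forall fun _ _ => mem_univ _
      isOpen_inter := fun W W' h h' z hz =>
        ((h z hz.1).and (h' z hz.2)).mono fun b hb hb' => ⟨hb.1 hb', hb.2 hb'⟩
      isOpen_sUnion := fun T hT z ⟨W, hW, hz⟩ =>
        (hT W hW z hz).mono fun b hb hb' => ⟨W, hW, hb hb'⟩ }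
  have hop : ∀ W : Set (Σ b, Q b), IsOpen W ↔ ∀ z ∈ W, ∀ᶠ b in 𝓝 z.1, ∀ h : b ∈ U z.1,
      (⟨b, G z.1 b h z.2⟩ : Σ b, Q b) ∈ W := fun W => Iff.rfl
  let S : ∀ b₀, Q b₀ → Set (Σ b, Q b) := fun b₀ q => {z | ∃ h : z.1 ∈ U b₀, z.2 = G b₀ z.1 h q}
  have open_iff : ∀ b₀ q {W : Set B}, W ⊆ U b₀ →
      (IsOpen W ↔ IsOpen ((Sigma.fst : (Σ b, Q b) → B) ⁻¹' W ∩ S b₀ q)) := by
    intro b₀ q W hW
    rw [hop]
    constructor
    · rintro hWo ⟨b₂, q₂⟩ ⟨hz, h, hq⟩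
      have h1 := loc b₀ b₂ q q₂ b₂ h (hm b₂) (by rw [hid]; exact hq.symm)
      filter_upwards [h1, hWo.mem_nhds hz] with b hb hbW h'
      exact ⟨hbW, hW hbW, (hb _ _).symm⟩
    · intro h
      refine isOpen_iff_mem_nhds.2 fun b₂ hb₂ => ?_
      have h1 := h ⟨b₂, G b₀ b₂ (hW hb₂) q⟩ ⟨hb₂, hW hb₂, rfl⟩
      filter_upwards [h1, (hU b₂).mem_nhds (hm b₂)] with b hb hb'
      exact (hb hb').1
  have cov : IsCoveringMap (Sigma.fst : (Σ b, Q b) → B) := by
    intro b₀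
    let _ : TopologicalSpace (Q b₀) := ⊥
    have : DiscreteTopology (Q b₀) := ⟨rfl⟩
    rcases isEmpty_or_nonempty (Q b₀) with he | hne
    · refine (IsEvenlyCovered.of_preimage_eq_empty (Q b₀) ((hU b₀).mem_nhds (hm b₀))
        ?_).to_isEvenlyCovered_preimage
      refine eq_empty_of_forall_notMem fun z hz => ?_
      obtain ⟨q, -⟩ := surj b₀ z.1 hz z.2
      exact he.elim q
    · have : Nonempty (B → Σ b, Q b) := ⟨fun _ => ⟨p, s⟩⟩
      refine (IsEvenlyCovered.of_trivialization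
        (t := IsOpen.trivializationDiscrete (f := (Sigma.fst : (Σ b, Q b) → B)) (S b₀) (U b₀)
          (hU b₀) (open_iff b₀) ?_ ?_ ?_ ?_) (hm b₀)).to_isEvenlyCovered_preimage
      · rintro q ⟨b, x⟩ ⟨h, hx⟩ ⟨b', x'⟩ ⟨h', hx'⟩ hb
        dsimp only at hb hx hx'
        subst hb
        rw [hx, hx']
      · intro q b hb
        exact ⟨⟨b, G b₀ b hb q⟩, ⟨hb, rfl⟩, rfl⟩
      · intro q q' hq
        refine disjoint_left.2 ?_
        rintro z ⟨h, hz⟩ ⟨h', hz'⟩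
        exact hq (inj b₀ z.1 h (hz.symm.trans hz'))
      · intro z hz
        obtain ⟨q, hq⟩ := surj b₀ z.1 hz z.2
        exact mem_iUnion.2 ⟨q, hz, hq.symm⟩
  obtain ⟨L, ⟨hL0, hL⟩, -⟩ := cov.existsUnique_continuousMap_lifts (ContinuousMap.id B) p ⟨p, s⟩ rfl
  have hex : ∀ b, ∃ q : Q b, L b = ⟨b, q⟩ := by
    intro b
    have h1 : (L b).1 = b := congrFun hL b
    generalize L b = z at h1
    obtain ⟨b', q⟩ := z
    dsimp only at h1
    subst h1
    exact ⟨q, rfl⟩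
  choose σ hσ using hex
  refine ⟨σ, ?_, fun b₀ => ?_⟩
  · rw [hσ p] at hL0
    exact sigma_mk_injective hL0
  · have h1 := (open_iff b₀ (σ b₀) subset_rfl).1 (hU b₀)
    have h2 : L b₀ ∈ (Sigma.fst : (Σ b, Q b) → B) ⁻¹' U b₀ ∩ S b₀ (σ b₀) := by
      rw [hσ b₀]
      exact ⟨hm b₀, hm b₀, (hid _ _).symm⟩
    filter_upwards [L.continuous.continuousAt.preimage_mem_nhds (h1.mem_nhds h2)] with b hb h
    rw [mem_preimage, hσ b] at hb
    obtain ⟨-, h', hq⟩ := hb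
    exact hq

/-- monodromy: a locally constant system of states over a simply connected space has a global
section through any state -/
theorem mono {B : Type} [TopologicalSpace B] [SimplyConnectedSpace B] [LocallyPathConnectedSpace B]
    (St : B → Type) (r : ∀ b, St b → St b → Prop) (hr : ∀ b, Equivalence (r b)) (U : B → Set B)
    (hU : ∀ b, IsOpen (U b)) (hm : ∀ b, b ∈ U b) (F : ∀ b₀ b, b ∈ U b₀ → St b₀ → St b)
    (inj : ∀ b₀ b h s s', r b (F b₀ b h s) (F b₀ b h s') ↔ r b₀ s s')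
    (surj : ∀ b₀ b h s', ∃ s, r b (F b₀ b h s) s') (hid : ∀ b s, r b (F b b (hm b) s) s)
    (loc : ∀ b₀ b₁ s₀ s₁ b₂ h₀ h₁, r b₂ (F b₀ b₂ h₀ s₀) (F b₁ b₂ h₁ s₁) →
      ∀ᶠ b in 𝓝 b₂, ∀ h₀' h₁', r b (F b₀ b h₀' s₀) (F b₁ b h₁' s₁))
    (p : B) (s : St p) : ∃ σ : ∀ b, St b, r p (σ p) s ∧
      ∀ b₀, ∀ᶠ b in 𝓝 b₀, ∀ h, r b (σ b) (F b₀ b h (σ b₀)) := by
  have hq : ∀ b (x y : St b), Quot.mk (r b) x = Quot.mk (r b) y ↔ r b x y := fun b x y =>
    Quot.eq.trans (hr b).eqvGen_iff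
  let G : ∀ b₀ b, b ∈ U b₀ → Quot (r b₀) → Quot (r b) := fun b₀ b h =>
    Quot.map (F b₀ b h) fun x y hxy => (inj b₀ b h x y).2 hxy
  have hG : ∀ b₀ b h x, G b₀ b h (Quot.mk _ x) = Quot.mk _ (F b₀ b h x) := fun _ _ _ _ => rfl
  obtain ⟨σ, h0, hσ⟩ := Mono_aux (fun b => Quot (r b)) U hU hm G
    (by
      rintro b₀ b h ⟨x⟩ ⟨y⟩ hxy
      exact (hq _ _ _).2 ((inj b₀ b h x y).1 ((hq _ _ _).1 hxy)))
    (by
      rintro b₀ b h ⟨y⟩
      obtain ⟨x, hx⟩ := surj b₀ b h y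
      exact ⟨Quot.mk _ x, (hq _ _ _).2 hx⟩)
    (by
      rintro b ⟨x⟩
      exact (hq _ _ _).2 (hid b x))
    (by
      rintro b₀ b₁ ⟨x⟩ ⟨y⟩ b₂ h₀ h₁ hxy
      exact (loc b₀ b₁ x y b₂ h₀ h₁ ((hq _ _ _).1 hxy)).mono fun b hb h₀' h₁' =>
        (hq _ _ _).2 (hb h₀' h₁'))
    p (Quot.mk _ s)
  refine ⟨fun b => (σ b).out, (hq _ _ _).1 (by rw [Quot.out_eq, h0]), fun b₀ => ?_⟩
  refine (hσ b₀).mono fun b hb h => (hq _ _ _).1 ?_
  rw [Quot.out_eq, ← hG, Quot.out_eq]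
  exact hb h

end Pool.Agent.MP_e62289_ag

end

section

open Set Filter Topology Complex MeasureTheory Metric
open scoped Manifold ContDiff ComplexConjugate NNReal ENNReal

namespace Pool.Agent.MP_e62289_ag

namespace Family

variable {E : Type} [NormedAddCommGroup E] [NormedSpace ℂ E] {B : Type} [TopologicalSpace B]
  [ChartedSpace E B] {n : ℕ} {a : Fin n → ℕ} {C : Family E B a}

theorem F5a_cont {Y : Type} [TopologicalSpace Y] [ChartedSpace ℂ Y] {T : Type}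
    [TopologicalSpace T] {ψ : T → B} (M M' : C.MFam Y ψ) :
    Continuous fun p : T × Y => (M.G p.1).φ.symm ((M'.G p.1).φ p.2) := by
  have h1 : Continuous fun p : T × Y =>
      (⟨(p.1, ((M'.G p.1).φ p.2).1), ((M'.G p.1).φ p.2).2⟩ : C.Tot ψ) :=
    (continuous_fst.prodMk M'.cont).subtype_mk _
  exact M.cont'.comp h1

/-- two families of markings that agree at a point give the same periods nearby -/
theorem lc2 {m : ℕ} {S : Flat m} {T : Type} [TopologicalSpace T] [LocallyConnectedSpace T]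
    {ψ : T → B} (M M' : C.MFam S.Y ψ) {t₀ : T} (h : ∀ q, (M.G t₀).φ q = (M'.G t₀).φ q)
    {ξp ξm : S.H} (hp : ξp ∈ S.hd.W) (hm : ξm ∈ S.hd.W) :
    ∀ᶠ t in 𝓝 t₀, ∀ (b' : B) (Φ : Adm (C.Fib (ψ t)) (C.Fib b')),
      S.Hval ξp ξm (bel ((M.G t).trans Φ).φ) = S.Hval ξp ξm (bel ((M'.G t).trans Φ).φ) := by
  let Θ : T → Adm S.Y S.Y := fun t => (M'.G t).trans (M.G t).symm
  have hc : Continuous fun p : T × S.Y => (Θ p.1).φ p.2 := F5a_cont M M'
  have hc' : Continuous fun p : T × S.Y => (Θ p.1).φ.symm p.2 := F5a_cont M' M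
  have h0 : ∀ q, (Θ t₀).φ q = q := fun q => by
    show (M.G t₀).φ.symm ((M'.G t₀).φ q) = q
    rw [← h q]
    exact (M.G t₀).φ.symm_apply_apply q
  have hK : ∃ K, IsCompact K ∧ ∀ t q, q ∉ K → (Θ t).φ q ∉ K → d2 (Θ t).φ q = 0 := by
    obtain ⟨K, hK, h1⟩ := M.conf
    obtain ⟨K', hK', h2⟩ := M'.conf
    refine ⟨K ∪ K', hK.union hK', fun t q hq hq' => ?_⟩
    have e1 : d2 (M'.G t).φ q = 0 := h2 t q fun hh => hq (Or.inr hh)
    have e2 : d2 (M.G t).symm.φ ((M'.G t).φ q) = 0 :=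
      (M.G t).d2_symm (h1 t _ fun hh => hq' (Or.inl hh))
    rw [((M'.G t).d_trans (M.G t).symm q).2, e1, e2, mul_zero, zero_mul, add_zero]
  filter_upwards [S.lc t₀ Θ hc hc' h0 hK] with t ht b' Φ
  obtain ⟨c1, κ, -, hκ, hb⟩ := S.bel_adm ((M.G t).trans Φ)
  have e : ⇑((M'.G t).trans Φ).φ = ⇑((Θ t).trans ((M.G t).trans Φ)).φ := by
    funext q
    show Φ.φ ((M'.G t).φ q) = Φ.φ ((M.G t).φ ((M.G t).φ.symm ((M'.G t).φ q)))
    rw [Diffeomorph.apply_symm_apply]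
  rw [e, Adm.bel_trans (Θ t)]
  exact (ht ξp hp ξm hm _ c1 ⟨κ, hκ, hb⟩).symm

variable [FiniteDimensional ℂ E] [IsManifold 𝓘(ℂ, E) ω B] [IsManifold 𝓘(ℝ, E) ∞ B] [T2Space B]
  [SimplyConnectedSpace B]

end Family

end Pool.Agent.MP_e62289_ag

end

section

open Set Filter Topology Complex MeasureTheory Metric
open scoped Manifold ContDiff ComplexConjugate NNReal ENNReal

namespace Pool.Agent.MP_e62289_ag

namespace Family

variable {E : Type} [NormedAddCommGroup E] [NormedSpace ℂ E] {B : Type} [TopologicalSpace B]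
  [ChartedSpace E B] {n : ℕ} {a : Fin n → ℕ} {C : Family E B a}

/-- markings with the same periods after any further transport -/
def F5bR {m : ℕ} {S : Flat m} (ξp ξm : S.H) {b : B} (G G' : Adm S.Y (C.Fib b)) : Prop :=
  ∀ (b' : B) (Φ : Adm (C.Fib b) (C.Fib b')),
    S.Hval ξp ξm (bel (G.trans Φ).φ) = S.Hval ξp ξm (bel (G'.trans Φ).φ)

section R

variable {m : ℕ} {S : Flat m} {ξp ξm : S.H} {b b' : B} {G G' G'' : Adm S.Y (C.Fib b)}

theorem F5bR.of_eq (h : ∀ q, G.φ q = G'.φ q) : F5bR ξp ξm G G' := fun _ Φ => by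
  have e : (⇑G.φ : S.Y → C.Fib b) = G'.φ := funext h
  rw [Adm.trans_coe, Adm.trans_coe, e]

theorem F5bR.symm (h : F5bR ξp ξm G G') : F5bR ξp ξm G' G := fun c Φ => (h c Φ).symm

theorem F5bR.trans (h : F5bR ξp ξm G G') (h' : F5bR ξp ξm G' G'') : F5bR ξp ξm G G'' :=
  fun c Φ => (h c Φ).trans (h' c Φ)

theorem F5bR.push (h : F5bR ξp ξm G G') (Ψ : Adm (C.Fib b) (C.Fib b')) :
    F5bR ξp ξm (G.trans Ψ) (G'.trans Ψ) := fun c Φ => h c (Ψ.trans Φ)

theorem F5bR.pull {Ψ : Adm (C.Fib b) (C.Fib b')} (h : F5bR ξp ξm (G.trans Ψ) (G'.trans Ψ)) :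
    F5bR ξp ξm G G' :=
  ((F5bR.of_eq fun q => by simp).trans (h.push Ψ.symm)).trans (F5bR.of_eq fun q => by simp)

theorem F5bR.val (h : F5bR ξp ξm G G') : S.Hval ξp ξm (bel G.φ) = S.Hval ξp ξm (bel G'.φ) :=
  h b (Adm.refl _)

theorem F5b_base (τ : C.Triv b) (G : Adm S.Y (C.Fib b)) (h : b ∈ τ.U) (q : S.Y) :
    (G.trans (τ.M.G ⟨b, h⟩)).φ q = G.φ q :=
  Subtype.ext ((τ.eq ⟨b, h⟩ (G.φ q)).trans (τ.base _ (G.φ q).2.1))

theorem F5b_loc {T : Type} [TopologicalSpace T] [LocallyConnectedSpace T] {ψ : T → B}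
    (hp : ξp ∈ S.hd.W) (hm : ξm ∈ S.hd.W) (N N' : C.MFam S.Y ψ) {t₀ : T}
    (h : F5bR ξp ξm (N.G t₀) (N'.G t₀)) : ∀ᶠ t in 𝓝 t₀, F5bR ξp ξm (N.G t) (N'.G t) := by
  have h1 := lc2 N (N'.pre ((N.G t₀).trans (N'.G t₀).symm)) (t₀ := t₀)
    (fun q => ((N'.G t₀).φ.apply_symm_apply _).symm) hp hm
  filter_upwards [h1] with t ht
  have h2 : F5bR ξp ξm (N.G t) (((N.G t₀).trans (N'.G t₀).symm).trans (N'.G t)) := ht
  have h3 := h.push ((N'.G t₀).symm.trans (N'.G t))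
  exact (h2.trans ((F5bR.of_eq fun q => rfl).trans h3)).trans (F5bR.of_eq fun q => by simp)

theorem F5b_sub {X : Type} [TopologicalSpace X] {O : Set X} {x : X} {hx : x ∈ O} {P : O → Prop}
    (h : ∀ᶠ t in 𝓝 (⟨x, hx⟩ : O), P t) : ∀ᶠ y in 𝓝 x, ∀ hy : y ∈ O, P ⟨y, hy⟩ := by
  rw [nhds_subtype, eventually_comap] at h
  exact h.mono fun y hy h' => hy _ rfl

end R

variable [FiniteDimensional ℂ E] [IsManifold 𝓘(ℂ, E) ω B] [IsManifold 𝓘(ℝ, E) ∞ B] [T2Space B]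
  [SimplyConnectedSpace B]

/-- the global bounded holomorphic function -/
theorem global {S : Flat n} {ξp ξm : S.H} (hp : ξp ∈ S.hd.W) (hm : ξm ∈ S.hd.W)
    (d : S.FV a ξp ξm) {T : Type} [TopologicalSpace T] [LocallyConnectedSpace T] {ψ : T → B}
    (hψ : Continuous ψ) (M : C.MFam S.Y ψ) (t₀ : T) (hc : ∀ q, d2 (M.G t₀).φ q = 0)
    (he : ∀ i, Tendsto (fun q => ((M.G t₀).φ q).1) (S.endF i) (𝓝 (C.sec i (ψ t₀)))) :
    ∃ h : B → ℂ, DiscHol E h ∧ (∀ b, ‖h b‖ ≤ ‖ξp‖ * ‖ξm‖) ∧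
      (∃ K : ℝ, ∀ᶠ b in 𝓝 (ψ t₀),
        ‖h b‖ ≤ K * ‖chartAt E (ψ t₀) b - chartAt E (ψ t₀) (ψ t₀)‖ ^ 2) ∧
      ∀ᶠ t in 𝓝 t₀, h (ψ t) = S.Hval ξp ξm (bel (M.G t).φ) := by
  have : LocallyPathConnectedSpace B := ChartedSpace.locallyPathConnectedSpace E B
  let τ : ∀ b, C.Triv b := fun b => (C.exists_triv b).some
  obtain ⟨σ, hσ0, hσ⟩ := mono (fun b => Adm S.Y (C.Fib b)) (fun _ => F5bR ξp ξm)
    (fun _ => ⟨fun _ => F5bR.of_eq fun _ => rfl, F5bR.symm, F5bR.trans⟩) (fun b => (τ b).U)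
    (fun b => (τ b).isOpen) (fun b => (τ b).mem)
    (fun b₀ b h G => G.trans ((τ b₀).M.G ⟨b, h⟩))
    (fun b₀ b h s s' => ⟨F5bR.pull, fun e => e.push _⟩)
    (fun b₀ b h s' => ⟨s'.trans ((τ b₀).M.G ⟨b, h⟩).symm,
      F5bR.of_eq fun q => ((τ b₀).M.G ⟨b, h⟩).φ.apply_symm_apply _⟩)
    (fun b s => F5bR.of_eq (F5b_base (τ b) s _))
    (fun b₀ b₁ s₀ s₁ b₂ h₀ h₁ e => by
      have : LocallyConnectedSpace ↥((τ b₀).U ∩ (τ b₁).U) :=
        ((τ b₀).isOpen.inter (τ b₁).isOpen).locallyConnectedSpace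
      let N₀ : C.MFam S.Y (Subtype.val : ↥((τ b₀).U ∩ (τ b₁).U) → B) :=
        ((τ b₀).M.pre s₀).comap (inclusion inter_subset_left) (continuous_inclusion _)
      let N₁ : C.MFam S.Y (Subtype.val : ↥((τ b₀).U ∩ (τ b₁).U) → B) :=
        ((τ b₁).M.pre s₁).comap (inclusion inter_subset_right) (continuous_inclusion _)
      have h2 := F5b_sub (F5b_loc hp hm N₀ N₁ (t₀ := ⟨b₂, h₀, h₁⟩) e)
      exact h2.mono fun b hb h₀' h₁' => hb ⟨h₀', h₁'⟩)
    (ψ t₀) (M.G t₀)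
  have key : ∀ b₀ (G : Adm S.Y (C.Fib b₀)), F5bR ξp ξm (σ b₀) G →
      (fun b => S.Hval ξp ξm (bel (σ b).φ)) =ᶠ[𝓝 b₀] fun b => S.Hval ξp ξm ((τ b₀).mu G b) := by
    intro b₀ G hG
    filter_upwards [hσ b₀, (τ b₀).isOpen.mem_nhds (τ b₀).mem] with b h1 h2
    rw [(τ b₀).mu_eq G h2]
    exact ((h1 h2).trans (hG.push _)).val
  refine ⟨fun b => S.Hval ξp ξm (bel (σ b).φ), fun x φ ζ₀ hφ hx => ?_, fun b => ?_, ?_, ?_⟩
  · have hcont : ContinuousAt (fun ζ => (chartAt E x).symm (φ ζ)) ζ₀ :=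
      ((chartAt E x).continuousAt_symm hx).comp hφ.continuousAt
    exact ((τ _).hval_hol (σ _) ξp ξm hφ hx (τ _).mem).congr_of_eventuallyEq
      (hcont.tendsto.eventually (key _ (σ _) (F5bR.of_eq fun _ => rfl)))
  · obtain ⟨h1, κ, -, h2, h3⟩ := S.bel_adm (σ b)
    exact S.Hval_bound hp hm h1.aestronglyMeasurable h3 h2
  · obtain ⟨K, hK⟩ := (τ (ψ t₀)).fv (M.G t₀) d hc he
    refine ⟨K, ?_⟩
    filter_upwards [hK, key _ _ hσ0] with b h1 h2
    rw [h2]; exact h1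
  · have hO : IsOpen (ψ ⁻¹' (τ (ψ t₀)).U) := (τ (ψ t₀)).isOpen.preimage hψ
    have : LocallyConnectedSpace ↥(ψ ⁻¹' (τ (ψ t₀)).U) := hO.locallyConnectedSpace
    let N₀ : C.MFam S.Y (fun t : ↥(ψ ⁻¹' (τ (ψ t₀)).U) => ψ t.1) :=
      ((τ (ψ t₀)).M.pre (M.G t₀)).comap (fun t : ↥(ψ ⁻¹' (τ (ψ t₀)).U) => ⟨ψ t.1, t.2⟩)
        ((hψ.comp continuous_subtype_val).subtype_mk _)
    let N₁ : C.MFam S.Y (fun t : ↥(ψ ⁻¹' (τ (ψ t₀)).U) => ψ t.1) :=
      M.comap Subtype.val continuous_subtype_val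
    have h2 := F5b_sub (F5b_loc hp hm N₀ N₁ (t₀ := ⟨t₀, (τ (ψ t₀)).mem⟩)
      (F5bR.of_eq (F5b_base (τ (ψ t₀)) (M.G t₀) (τ (ψ t₀)).mem)))
    filter_upwards [h2, hO.mem_nhds (τ (ψ t₀)).mem,
      hψ.continuousAt.tendsto.eventually (key _ _ hσ0)] with t h3 h4 h5
    rw [h5, (τ (ψ t₀)).mu_eq _ h4]
    exact (h3 h4).val

end Family

end Pool.Agent.MP_e62289_ag

end

section



end

section

open Set Filter Topology Complex MeasureTheory Metric
open scoped Manifold ContDiff ComplexConjugate NNReal ENNReal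

namespace Pool.Agent.MP_e62289_ag

open Classical in
/-- a retraction onto an open set -/
noncomputable def midPr {D : TopologicalSpace.Opens P2} (t₀ : D) (v : P2) : D :=
  if h : v ∈ D then ⟨v, h⟩ else t₀

theorem midPr_val {D : TopologicalSpace.Opens P2} (t₀ : D) {v : P2} (h : v ∈ D) :
    (midPr t₀ v).1 = v := by
  rw [midPr, dif_pos h]

theorem midPr_md {D : TopologicalSpace.Opens P2} (t₀ : D) {v : P2} (h : v ∈ D) :
    MDifferentiableAt 𝓘(ℂ, P2) 𝓘(ℂ, P2) (midPr t₀) v := by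
  refine ((ContMDiffAt.subtypeVal_comp_iff D (midPr t₀) v).1 ?_).mdifferentiableAt (by simp)
  refine contMDiffAt_id.congr_of_eventuallyEq ?_
  filter_upwards [D.isOpen.mem_nhds h] with w hw using midPr_val t₀ hw

theorem mid_line (v : P2) : HasDerivAt (fun ζ : ℂ => ζ • v) v 0 := by
  simpa using (hasDerivAt_id (0 : ℂ)).smul_const v

variable {E : Type} [NormedAddCommGroup E] [NormedSpace ℂ E] [FiniteDimensional ℂ E]
  {B : Type} [EMetricSpace B] [ChartedSpace E B] [IsManifold 𝓘(ℂ, E) ω B]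
  [IsManifold 𝓘(ℝ, E) ∞ B] [SimplyConnectedSpace B] {n : ℕ} {a : Fin n → ℕ}

omit [FiniteDimensional ℂ E] [IsManifold 𝓘(ℂ, E) ω B] [IsManifold 𝓘(ℝ, E) ∞ B]
  [SimplyConnectedSpace B] in
theorem mid_quad (k : KData E B) {x : B} {z : E} (hz : z ∈ (chartAt E x).target) (v w : E)
    {ε δ : ℂ} (hε : ε = 1 ∨ ε = -1) (hδ : δ = 1 ∨ δ = -1) :
    k.G x z (ε • v + δ • w) (ε • v + δ • w) ≤ 2 * (k.G x z v v + k.G x z w w) := by
  have nn : ∀ u, 0 ≤ k.G x z u u := fun u => by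
    by_cases h : u = 0
    · simp [h]
    · exact (k.pos x z hz u h).le
  have h1 := nn (v + w)
  have h2 := nn (v - w)
  simp only [map_add, map_sub, add_apply, sub_apply]
    at h1 h2
  rcases hε with rfl | rfl <;> rcases hδ with rfl | rfl <;>
    simp only [one_smul, neg_smul, map_add, map_neg, add_apply,
      neg_apply] <;> linarith

/-- the inequality forced by a Kähler hyperbolic metric -/
theorem mid (k : KData E B) (d : DData k) (C : Family E B a) (hC : C.Versal) :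
    ∃ Cst : ℝ, 0 ≤ Cst ∧ ∀ (S : Flat n) (ξp ξm : S.H), ξp ∈ S.hd.W → ξm ∈ S.hd.W →
      Nonempty (S.FV a ξp ξm) → ∀ D : TopologicalSpace.Opens P2, SimplyConnectedSpace D →
      ∀ (δ : S.Defo a D) (α β : ℝ), 0 < α → 0 < β →
      (∀ ζ ∈ ball (0 : ℂ) 1, ![α * ζ, 0] ∈ D ∧ ![0, β * ζ] ∈ D) → (∀ q, δ.mu 0 q = 0) →
      ∀ ν : S.Y → ℂ, (∀ q, HasDerivAt (fun u => deriv (fun r => δ.mu ![u, r] q) 0) (ν q) 0) →
      α * β * ‖∫ q, ν q * (S.f q * ξp q * ξm q) ∂S.lam‖ ≤ Cst * (‖ξp‖ * ‖ξm‖) := by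
  obtain ⟨CA, hA⟩ := schwarzA k d
  obtain ⟨CS, CS0, hS⟩ := schwarzS k
  refine ⟨CS * (4 * max CA 0) + 2, by positivity, ?_⟩
  rintro S ξp ξm hp hm ⟨fv⟩ D hD δ α β α0 β0 hdisc h0 ν hν
  obtain ⟨C', M, hM, hMe⟩ := δ.build
  obtain ⟨ψ, Ψ, hψ, hΨ, hb, hs, hh⟩ := hC 2 D hD C'
  obtain ⟨M', hM1, hM2⟩ := M.pull hΨ hb hs hh
  have z0 : (0 : P2) ∈ D := by
    have := (hdisc 0 (mem_ball_self one_pos)).1
    convert this using 1
    ext i
    fin_cases i <;> simp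
  let t₀ : D := ⟨0, z0⟩
  have : LocallyConnectedSpace D := D.isOpen.locallyConnectedSpace
  obtain ⟨h, h1, h2, h3, h4⟩ := Family.global hp hm fv hψ.continuous M' t₀ (fun q => by
      have e : bel (M'.G t₀).φ q = 0 := by rw [hM2, hM]; exact h0 q
      exact (div_eq_zero_iff.1 e).resolve_right ((M'.G t₀).d1_ne q))
    fun i => by
      simp only [hM1, ← hs]
      exact (hΨ.tendsto _).comp (hMe i t₀)
  set p := ψ t₀ with hpe
  have pr0 : midPr t₀ 0 = t₀ := Subtype.ext (midPr_val t₀ z0)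
  have md : ∀ v ∈ D, MDifferentiableAt 𝓘(ℂ, P2) 𝓘(ℂ, E) (fun v => ψ (midPr t₀ v)) v :=
    fun v hv => (hψ _).comp v (midPr_md t₀ hv)
  have c0 : Tendsto (midPr t₀) (𝓝 0) (𝓝 t₀) := by
    have := (midPr_md t₀ z0).continuousAt.tendsto
    rwa [pr0] at this
  have src : ∀ᶠ v in 𝓝 (0 : P2), ψ (midPr t₀ v) ∈ (chartAt E p).source :=
    ((hψ.continuous.tendsto t₀).comp c0).eventually (chart_source_mem_nhds E p)
  let g : P2 → E := fun v => chartAt E p (ψ (midPr t₀ v))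
  have gd : ∀ᶠ v in 𝓝 (0 : P2), DifferentiableAt ℂ g v := by
    filter_upwards [src, D.isOpen.mem_nhds z0] with v v1 v2
    exact mdifferentiableAt_iff_differentiableAt.1
      ((mdifferentiableAt_atlas (chart_mem_atlas E p) v1).comp v (md v v2))
  have g0 : g 0 = chartAt E p p := by simp only [g, pr0, hpe]
  have gl : ∀ v : P2, deriv (fun ζ : ℂ => g (ζ • v)) 0 = fderiv ℂ g 0 v := fun v =>
    (HasFDerivAt.comp_hasDerivAt_of_eq (0 : ℂ) gd.self_of_nhds.hasFDerivAt (mid_line v)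
      (by simp)).deriv
  have ga : ∀ v : P2, AnalyticAt ℂ (fun ζ : ℂ => g (ζ • v)) 0 := fun v => by
    have t : Tendsto (fun ζ : ℂ => ζ • v) (𝓝 0) (𝓝 0) := by
      simpa using (mid_line v).continuousAt.tendsto
    refine Complex.analyticAt_iff_eventually_differentiableAt.2 ?_
    filter_upwards [t.eventually gd] with ζ hζ
    exact DifferentiableAt.comp ζ (g := g) hζ (by fun_prop)
  have disc : ∀ v : P2, (∀ ζ ∈ ball (0 : ℂ) 1, ζ • v ∈ D) →
      k.G p (chartAt E p p) (fderiv ℂ g 0 v) (fderiv ℂ g 0 v) ≤ max CA 0 := fun v hv => by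
    have := hA (fun ζ => ψ (midPr t₀ (ζ • v))) fun ζ hζ =>
      (MDifferentiableAt.comp ζ (g := fun v => ψ (midPr t₀ v)) (md _ (hv ζ hζ))
        (mdifferentiableAt_iff_differentiableAt.2 (by fun_prop))).mdifferentiableWithinAt
    simp only [zero_smul, pr0, ← hpe] at this
    rw [← gl]
    exact this.trans (le_max_left _ _)
  let v₁ : P2 := ![α, 0]
  let v₂ : P2 := ![0, β]
  have ev : ∀ u r : ℂ, ![α * u, β * r] = u • v₁ + r • v₂ := fun u r => by
    ext i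
    fin_cases i <;> simp [v₁, v₂, mul_comm]
  have d1 := disc v₁ fun ζ hζ => by
    have := ev ζ 0
    rw [mul_zero, zero_smul, add_zero] at this
    exact this ▸ (hdisc ζ hζ).1
  have d2 := disc v₂ fun ζ hζ => by
    have := ev 0 ζ
    rw [mul_zero, zero_smul, zero_add] at this
    exact this ▸ (hdisc ζ hζ).2
  obtain ⟨ρ, ρ0, ρ1, hρ⟩ : ∃ ρ : ℝ, 0 < ρ ∧ ρ ≤ 1 ∧ ∀ u ∈ ball (0 : ℂ) ρ, ∀ r ∈ ball (0 : ℂ) ρ,
      ![α * u, β * r] ∈ D := by
    have t : Tendsto (fun x : ℂ × ℂ => x.1 • v₁ + x.2 • v₂) (𝓝 0) (𝓝 0) := by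
      have : Continuous fun x : ℂ × ℂ => x.1 • v₁ + x.2 • v₂ := by fun_prop
      simpa using this.tendsto 0
    obtain ⟨ρ, ρ0, hρ⟩ := Metric.eventually_nhds_iff_ball.1 (t.eventually (D.isOpen.mem_nhds z0))
    refine ⟨min ρ 1, by positivity, min_le_right _ _, fun u hu r hr => ?_⟩
    rw [ev]
    refine hρ (u, r) ?_
    rw [← Prod.mk_zero_zero, ← ball_prod_same]
    exact ⟨ball_subset_ball (min_le_left _ _) hu, ball_subset_ball (min_le_left _ _) hr⟩
  have dv : ∀ r : ℂ, Differentiable ℂ fun u : ℂ => (![α * u, β * r] : P2) := fun r => by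
    simp only [ev]
    fun_prop
  have dv' : ∀ u : ℂ, Differentiable ℂ fun r : ℂ => (![α * u, β * r] : P2) := fun u => by
    simp only [ev]
    fun_prop
  have key := S.second ξp ξm (μ := fun u r => δ.mu ![α * u, β * r]) (ν := fun q => α * β * ν q)
    (Bd := CS * (‖ξp‖ * ‖ξm‖) * (4 * max CA 0)) ρ0 ρ1
    (fun u hu r hr => δ.mu_cont (hρ u hu r hr)) (fun q => by
      rw [ev, zero_smul, zero_smul, add_zero]
      exact h0 q)
    (fun u hu r hr q => (δ.norm_mu_lt (hρ u hu r hr) q).le)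
    (fun r hr q u hu => (δ.mu_hol (dv r) (hρ u hu r hr) q).differentiableWithinAt)
    (fun u hu q r hr => (δ.mu_hol (dv' u) (hρ u hu r hr) q).differentiableWithinAt)
    (fun q => by
      have e : ∀ u ∈ ball (0 : ℂ) 1, ![α * u, β * (0 : ℂ)] ∈ D := fun u hu => by
        rw [mul_zero]
        exact (hdisc u hu).1
      exact ⟨fun u hu => (δ.mu_hol (dv 0) (e u hu) q).differentiableWithinAt,
        fun u hu => (δ.norm_mu_lt (e u hu) q).le⟩)
    (fun q => by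
      have e : ∀ u ∈ ball (0 : ℂ) 1, ![α * (0 : ℂ), β * u] ∈ D := fun u hu => by
        rw [mul_zero]
        exact (hdisc u hu).2
      exact ⟨fun u hu => (δ.mu_hol (dv' 0) (e u hu) q).differentiableWithinAt,
        fun u hu => (δ.norm_mu_lt (e u hu) q).le⟩)
    (fun q => by
      have e : ∀ u : ℂ, deriv (fun r : ℂ => δ.mu ![α * u, β * r] q) 0 =
          β * deriv (fun r : ℂ => δ.mu ![α * u, r] q) 0 := fun u => by
        have := deriv_comp_mul_left (𝕜 := ℂ) β (fun r : ℂ => δ.mu ![α * u, r] q) 0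
        rwa [mul_zero] at this
      simp only [e]
      have := (HasDerivAt.comp_of_eq (0 : ℂ) (hν q) ((hasDerivAt_id (0 : ℂ)).const_mul (α : ℂ))
        (by simp)).const_mul (β : ℂ)
      rw [show (α * β * ν q : ℂ) = β * (ν q * (α * 1)) by ring]
      exact this)
    fun η η0 ε δ' hε hδ => by
      have hc := hS p h _ h1 h2 h3 _ (ga (ε • v₁ + δ' • v₂)) (by rw [zero_smul, g0]) η η0
      have t : Tendsto (fun t : ℝ => (t : ℂ) • (ε • v₁ + δ' • v₂)) (𝓝[>] 0) (𝓝 0) := by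
        have : Continuous fun t : ℝ => (t : ℂ) • (ε • v₁ + δ' • v₂) := by fun_prop
        exact tendsto_nhdsWithin_of_tendsto_nhds (by simpa using this.tendsto 0)
      filter_upwards [hc, t.eventually src, t.eventually (D.isOpen.mem_nhds z0),
        (c0.comp t).eventually h4] with t t1 t2 t3 t4
      have e : ![α * (ε * t), β * (δ' * t)] = (t : ℂ) • (ε • v₁ + δ' • v₂) := by
        rw [ev, smul_add, smul_smul, smul_smul, mul_comm ε, mul_comm δ']
      simp only [g, (chartAt E p).left_inv t2] at t1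
      rw [Function.comp_apply, hM2, hM, midPr_val t₀ t3] at t4
      rw [e, ← t4]
      refine t1.trans (mul_le_mul_of_nonneg_right (add_le_add_left
        (mul_le_mul_of_nonneg_left ?_ (by positivity)) _) (sq_nonneg _))
      have := gl (ε • v₁ + δ' • v₂)
      simp only [g] at this
      rw [this, zero_smul, pr0, map_add, map_smul, map_smul]
      exact (mid_quad k (mem_chart_target E p) _ _ hε hδ).trans (by linarith)
  simp only [mul_assoc (α * β : ℂ), integral_const_mul, norm_mul, Complex.norm_real,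
    Real.norm_of_nonneg α0.le, Real.norm_of_nonneg β0.le] at key
  linarith

end Pool.Agent.MP_e62289_ag

end

section

open Set Filter Topology Complex MeasureTheory Metric
open scoped Manifold ContDiff ComplexConjugate NNReal ENNReal

namespace Pool.Agent.MP_e62289_ag

/-- the affine curve without the points over `0, i, -i` -/
abbrev Cv (s : ℝ) : Type := {p : ℂ × ℂ // p.2 ^ 2 = PP s p.1 ∧ p.1 ≠ 0 ∧ p.1 ^ 2 + 1 ≠ 0}

/-- `φ` is a local primitive of `dx / y` -/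
def IsFlatChart {s : ℝ} (φ : OpenPartialHomeomorph (Cv s) ℂ) : Prop :=
  ∀ z ∈ φ.target, HasDerivAt (fun z => (φ.symm z).1.1) (φ.symm z).1.2 z ∧
    HasDerivAt (fun z => (φ.symm z).1.2) (deriv (PP s) (φ.symm z).1.1 / 2) z

variable {s : ℝ}

theorem x3d_hasDerivAt (s : ℝ) (x : ℂ) : HasDerivAt (PP s)
    (4 * x ^ 3 * (1 - s ^ 4 * x ^ 4) - (x ^ 4 - s ^ 4) * (s ^ 4 * (4 * x ^ 3))) x := by
  have h1 : HasDerivAt (fun x : ℂ => x ^ 4) (4 * x ^ 3) x := by
    simpa using hasDerivAt_pow 4 x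
  have h2 := (h1.sub_const ((s : ℂ) ^ 4)).mul ((h1.const_mul ((s : ℂ) ^ 4)).const_sub 1)
  refine HasDerivAt.congr_deriv h2 ?_
  ring

theorem x3d_contDiff (s : ℝ) : ContDiff ℂ ω (PP s) := by
  unfold PP
  fun_prop

theorem x3d_deriv_diff (s : ℝ) : Differentiable ℂ (deriv (PP s)) := by
  have : deriv (PP s) = fun x : ℂ =>
      4 * x ^ 3 * (1 - s ^ 4 * x ^ 4) - (x ^ 4 - s ^ 4) * (s ^ 4 * (4 * x ^ 3)) :=
    funext fun x => (x3d_hasDerivAt s x).deriv
  rw [this]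
  fun_prop

theorem PP_simple (h0 : 0 < s) (h1 : s < 1 / 2) {x : ℂ} (h : PP s x = 0) : deriv (PP s) x ≠ 0 := by
  rw [(x3d_hasDerivAt s x).deriv]
  have hs0 : (s : ℂ) ≠ 0 := by exact_mod_cast h0.ne'
  have hs1 : (1 : ℂ) - s ^ 4 * s ^ 4 ≠ 0 := by
    have h2 : s ^ 4 * s ^ 4 < 1 := by
      rw [← pow_add]
      exact pow_lt_one₀ h0.le (by linarith) (by norm_num)
    have h3 : (1 : ℝ) - s ^ 4 * s ^ 4 ≠ 0 := by linarith
    exact_mod_cast h3
  rcases mul_eq_zero.1 h with h | h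
  · have hx : x ≠ 0 := by
      rintro rfl
      apply hs0
      have : (s : ℂ) ^ 4 = 0 := by linear_combination -h
      exact pow_eq_zero_iff (by norm_num) |>.1 this
    have e : x ^ 4 = s ^ 4 := by linear_combination h
    rw [h, zero_mul, sub_zero, e]
    exact mul_ne_zero (mul_ne_zero (by norm_num) (pow_ne_zero _ hx)) hs1
  · have hx : x ≠ 0 := by
      rintro rfl
      simp at h
    rw [h, mul_zero, zero_sub, neg_ne_zero]
    refine mul_ne_zero (fun h' => hs1 ?_)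
      (mul_ne_zero (pow_ne_zero _ hs0) (mul_ne_zero (by norm_num) (pow_ne_zero _ hx)))
    linear_combination h + (s : ℂ) ^ 4 * h'

/-- the tangent vector of the flow does not vanish on the curve -/
theorem x3d_ne (h0 : 0 < s) (h1 : s < 1 / 2) (q : Cv s) :
    q.1.2 ≠ 0 ∨ deriv (PP s) q.1.1 / 2 ≠ 0 := by
  by_cases h : q.1.2 = 0
  · refine Or.inr (div_ne_zero (PP_simple h0 h1 ?_) two_ne_zero)
    rw [← q.2.1, h]
    simp
  · exact Or.inl h

open Classical in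
/-- restriction of a chart of the plane that straightens the curve -/
theorem x3d_chart (q : Cv s) (Φ : OpenPartialHomeomorph (ℂ × ℂ) (ℂ × ℂ)) (hq : q.1 ∈ Φ.source)
    (hΦ : ∀ p, (Φ p).1 = p.2 ^ 2 - PP s p.1) :
    ∃ χ : OpenPartialHomeomorph (Cv s) ℂ, q ∈ χ.source ∧ (∀ p, χ p = (Φ p.1).2) ∧
      ∀ z ∈ χ.target, (0, z) ∈ Φ.target ∧ (χ.symm z).1 = Φ.symm (0, z) := by
  have hcv : ∀ p : Cv s, Φ p.1 = (0, (Φ p.1).2) := fun p => by
    refine Prod.ext ?_ rfl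
    rw [hΦ, p.2.1, sub_self]
  let T : Set ℂ := {z | (0, z) ∈ Φ.target ∧
    Φ.symm (0, z) ∈ {p : ℂ × ℂ | p.1 ≠ 0 ∧ p.1 ^ 2 + 1 ≠ 0}}
  have hT : ∀ z ∈ T, (Φ.symm (0, z)).2 ^ 2 = PP s (Φ.symm (0, z)).1 ∧ (Φ.symm (0, z)).1 ≠ 0 ∧
      (Φ.symm (0, z)).1 ^ 2 + 1 ≠ 0 := by
    intro z hz
    refine ⟨?_, hz.2⟩
    have := hΦ (Φ.symm (0, z))
    rw [Φ.right_inv hz.1] at this
    exact (sub_eq_zero.1 this.symm)
  let g : ℂ → Cv s := fun z => if h : z ∈ T then ⟨Φ.symm (0, z), hT z h⟩ else q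
  have hg : ∀ z ∈ T, (g z).1 = Φ.symm (0, z) := fun z hz => by simp only [g, dif_pos hz]
  have hmap : ∀ p : Cv s, p.1 ∈ Φ.source → (Φ p.1).2 ∈ T := by
    intro p hp
    refine ⟨?_, ?_⟩
    · rw [← hcv]
      exact Φ.map_source hp
    · rw [← hcv, Φ.left_inv hp]
      exact p.2.2
  have hpair : Continuous fun z : ℂ => ((0 : ℂ), z) := by fun_prop
  have hTo : IsOpen T := by
    have ho : IsOpen {p : ℂ × ℂ | p.1 ≠ 0 ∧ p.1 ^ 2 + 1 ≠ 0} :=
      (isOpen_ne_fun continuous_fst continuous_const).inter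
        (isOpen_ne_fun (by fun_prop) continuous_const)
    exact (Φ.continuousOn_symm.isOpen_inter_preimage Φ.open_target ho).preimage hpair
  refine ⟨{ toFun := fun p => (Φ p.1).2
            invFun := g
            source := {p | p.1 ∈ Φ.source}
            target := T
            map_source' := hmap
            map_target' := fun z hz => ?_
            left_inv' := fun p hp => ?_
            right_inv' := fun z hz => ?_
            open_source := Φ.open_source.preimage continuous_subtype_val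
            open_target := hTo
            continuousOn_toFun := ?_
            continuousOn_invFun := ?_ }, hq, fun _ => rfl, fun z hz => ⟨hz.1, hg z hz⟩⟩
  · change (g z).1 ∈ Φ.source
    rw [hg z hz]
    exact Φ.map_target hz.1
  · refine Subtype.ext ?_
    rw [hg _ (hmap p hp), ← hcv, Φ.left_inv hp]
  · rw [hg z hz, Φ.right_inv hz.1]
  · exact continuous_snd.comp_continuousOn
      (Φ.continuousOn.comp continuous_subtype_val.continuousOn fun p hp => hp)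
  · refine IsInducing.subtypeVal.continuousOn_iff.2 ?_
    refine ContinuousOn.congr (f := fun z => Φ.symm (0, z)) ?_ fun z hz => hg z hz
    exact Φ.continuousOn_symm.comp hpair.continuousOn fun z hz => hz.1

/-- a straightening chart with holomorphic inverse -/
theorem x3d_plane (p : ℂ × ℂ) {a b : ℂ} (hab : a * p.2 + b * (deriv (PP s) p.1 / 2) ≠ 0) :
    ∃ Φ : OpenPartialHomeomorph (ℂ × ℂ) (ℂ × ℂ), p ∈ Φ.source ∧
      (∀ p, Φ p = (p.2 ^ 2 - PP s p.1, a * p.1 + b * p.2)) ∧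
      ∀ᶠ w in 𝓝 (Φ p), DifferentiableAt ℂ Φ.symm w := by
  let Ψ : ℂ × ℂ → ℂ × ℂ := fun p => (p.2 ^ 2 - PP s p.1, a * p.1 + b * p.2)
  have hc : ContDiffAt ℂ 1 Ψ p := by
    have := (x3d_contDiff s).of_le (m := 1) le_top
    refine ContDiff.contDiffAt ?_
    fun_prop
  have hP : HasDerivAt (PP s) (deriv (PP s) p.1) p.1 :=
    (x3d_hasDerivAt s p.1).differentiableAt.hasDerivAt
  set P' := deriv (PP s) p.1 with hP'
  let L : ℂ × ℂ →L[ℂ] ℂ × ℂ :=
    ((2 * p.2) • ContinuousLinearMap.snd ℂ ℂ ℂ - P' • ContinuousLinearMap.fst ℂ ℂ ℂ).prod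
      (a • ContinuousLinearMap.fst ℂ ℂ ℂ + b • ContinuousLinearMap.snd ℂ ℂ ℂ)
  have hL : HasFDerivAt Ψ L p := by
    have h1 : HasFDerivAt (fun p : ℂ × ℂ => PP s p.1) (P' • ContinuousLinearMap.fst ℂ ℂ ℂ) p :=
      hP.comp_hasFDerivAt p hasFDerivAt_fst
    have h2' : HasDerivAt (fun y : ℂ => y ^ 2) (2 * p.2) p.2 := by
      simpa using hasDerivAt_pow 2 p.2
    have h2 : HasFDerivAt (fun p : ℂ × ℂ => p.2 ^ 2)
        ((2 * p.2) • ContinuousLinearMap.snd ℂ ℂ ℂ) p :=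
      h2'.comp_hasFDerivAt p hasFDerivAt_snd
    exact (h2.sub h1).prodMk ((hasFDerivAt_fst.const_mul a).add (hasFDerivAt_snd.const_mul b))
  have hinj : Function.Injective L.toLinearMap := by
    rw [injective_iff_map_eq_zero]
    intro v hv
    have e1 : 2 * p.2 * v.2 - P' * v.1 = 0 := by simpa [L] using congrArg Prod.fst hv
    have e2 : a * v.1 + b * v.2 = 0 := by simpa [L] using congrArg Prod.snd hv
    refine Prod.ext ?_ ?_
    · refine (mul_eq_zero.1 ?_).resolve_left hab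
      linear_combination p.2 * e2 - b / 2 * e1
    · refine (mul_eq_zero.1 ?_).resolve_left hab
      linear_combination P' / 2 * e2 + a / 2 * e1
  let e : (ℂ × ℂ) ≃L[ℂ] (ℂ × ℂ) :=
    (LinearEquiv.ofInjectiveEndo L.toLinearMap hinj).toContinuousLinearEquiv
  have he : HasFDerivAt Ψ (e : ℂ × ℂ →L[ℂ] ℂ × ℂ) p := by
    have : (e : ℂ × ℂ →L[ℂ] ℂ × ℂ) = L := ContinuousLinearMap.ext fun v => rfl
    rw [this]
    exact hL
  refine ⟨hc.toOpenPartialHomeomorph Ψ he one_ne_zero,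
    hc.mem_toOpenPartialHomeomorph_source he one_ne_zero, fun _ => rfl, ?_⟩
  filter_upwards [(hc.to_localInverse he one_ne_zero).eventually (by simp)] with w hw
  exact hw.differentiableAt one_ne_zero

/-- derivative of a parametrisation of the curve -/
theorem x3d_param {X Y : ℂ → ℂ} {a b z : ℂ} (hX : DifferentiableAt ℂ X z)
    (hY : DifferentiableAt ℂ Y z) (h1 : ∀ᶠ w in 𝓝 z, Y w ^ 2 - PP s (X w) = 0)
    (h2 : ∀ᶠ w in 𝓝 z, a * X w + b * Y w = w)
    (hD : a * Y z + b * (deriv (PP s) (X z) / 2) ≠ 0) :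
    HasDerivAt X (Y z / (a * Y z + b * (deriv (PP s) (X z) / 2))) z ∧
    HasDerivAt Y (deriv (PP s) (X z) / 2 / (a * Y z + b * (deriv (PP s) (X z) / 2))) z := by
  have hP : HasDerivAt (PP s) (deriv (PP s) (X z)) (X z) :=
    (x3d_hasDerivAt s _).differentiableAt.hasDerivAt
  have e1 : 2 * Y z * deriv Y z - deriv (PP s) (X z) * deriv X z = 0 := by
    have h3 := (hY.hasDerivAt.pow 2).sub (hP.comp z hX.hasDerivAt)
    have h4 := (hasDerivAt_const z (0 : ℂ)).congr_of_eventuallyEq h1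
    have h5 := h3.unique h4
    simpa using h5
  have e2 : a * deriv X z + b * deriv Y z = 1 := by
    have h3 := (hX.hasDerivAt.const_mul a).add (hY.hasDerivAt.const_mul b)
    have h4 := (hasDerivAt_id z).congr_of_eventuallyEq h2
    exact h3.unique h4
  constructor
  · refine hX.hasDerivAt.congr_deriv (Eq.symm ?_)
    rw [div_eq_iff hD]
    linear_combination -Y z * e2 + b / 2 * e1
  · refine hY.hasDerivAt.congr_deriv (Eq.symm ?_)
    rw [div_eq_iff hD]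
    linear_combination -(deriv (PP s) (X z) / 2) * e2 - a / 2 * e1

theorem exists_flatChart (h0 : 0 < s) (h1 : s < 1 / 2) (q : Cv s) :
    ∃ φ : OpenPartialHomeomorph (Cv s) ℂ, q ∈ φ.source ∧ IsFlatChart φ := by
  obtain ⟨a, b, hab⟩ : ∃ a b : ℂ, a * q.1.2 + b * (deriv (PP s) q.1.1 / 2) ≠ 0 := by
    rcases x3d_ne h0 h1 q with h | h
    · exact ⟨1, 0, by simpa using h⟩
    · exact ⟨0, 1, by simpa using h⟩
  obtain ⟨Φ, hq, hΦ, hd⟩ := x3d_plane q.1 hab
  obtain ⟨χ, hqχ, hχ, hχs⟩ := x3d_chart q Φ hq fun p => by rw [hΦ]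
  set z₀ := χ q with hz₀
  have hz₀t : z₀ ∈ χ.target := χ.map_source hqχ
  have hΦq : Φ q.1 = (0, z₀) := by
    refine Prod.ext ?_ (hχ q).symm
    rw [hΦ, q.2.1, sub_self]
  set X : ℂ → ℂ := fun z => (Φ.symm (0, z)).1 with hX
  set Y : ℂ → ℂ := fun z => (Φ.symm (0, z)).2 with hY
  set D : ℂ → ℂ := fun z => a * Y z + b * (deriv (PP s) (X z) / 2) with hD
  have hsq : Φ.symm (0, z₀) = q.1 := by rw [← hΦq, Φ.left_inv hq]
  have hD0 : D z₀ ≠ 0 := by
    simp only [hD, hX, hY, hsq]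
    exact hab
  have hpair : Continuous fun z : ℂ => ((0 : ℂ), z) := by fun_prop
  have hd2 : ∀ᶠ z in 𝓝 z₀, DifferentiableAt ℂ X z ∧ DifferentiableAt ℂ Y z ∧
      DifferentiableAt ℂ D z := by
    rw [hΦq] at hd
    filter_upwards [(hpair.tendsto z₀).eventually hd] with z hz
    have h2 : DifferentiableAt ℂ (fun z : ℂ => Φ.symm (0, z)) z :=
      hz.comp z (f := fun z : ℂ => ((0 : ℂ), z)) (by fun_prop)
    have h3 : DifferentiableAt ℂ X z := h2.fst
    have h4 : DifferentiableAt ℂ Y z := h2.snd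
    have h5 : DifferentiableAt ℂ (fun z => deriv (PP s) (X z)) z :=
      (x3d_deriv_diff s _).comp z h3
    exact ⟨h3, h4, (h4.const_mul a).add ((h5.div_const 2).const_mul b)⟩
  have hd3 : ∀ᶠ z in 𝓝 z₀, D z ≠ 0 := hd2.self_of_nhds.2.2.continuousAt.eventually_ne hD0
  obtain ⟨r, hr, hball⟩ := Metric.eventually_nhds_iff_ball.1 (hd2.and hd3)
  have hlam : DifferentiableOn ℂ (fun z => (D z)⁻¹) (ball z₀ r) := fun z hz =>
    ((hball z hz).1.2.2.inv (hball z hz).2).differentiableWithinAt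
  obtain ⟨g, hg⟩ := hlam.isExactOn_ball
  have hga : AnalyticAt ℂ g z₀ :=
    DifferentiableOn.analyticAt (s := ball z₀ r)
      (fun z hz => (hg z hz).differentiableAt.differentiableWithinAt) (ball_mem_nhds _ hr)
  have hgs : HasStrictDerivAt g (D z₀)⁻¹ z₀ := by
    have := hga.hasStrictDerivAt
    rwa [(hg z₀ (mem_ball_self hr)).deriv] at this
  let P₀ := (hgs.hasStrictFDerivAt_equiv (inv_ne_zero hD0)).toOpenPartialHomeomorph g
  let P := P₀.restrOpen (ball z₀ r) isOpen_ball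
  have hPs : z₀ ∈ P.source :=
    ⟨(hgs.hasStrictFDerivAt_equiv (inv_ne_zero hD0)).mem_toOpenPartialHomeomorph_source,
      mem_ball_self hr⟩
  refine ⟨χ ≫ₕ P, ⟨hqχ, hPs⟩, fun w hw => ?_⟩
  have hw1 : w ∈ P.target := hw.1
  have hw2 : P.symm w ∈ χ.target := hw.2
  have hw3 : P.symm w ∈ ball z₀ r := (P.map_target hw1).2
  obtain ⟨⟨k1, k2, -⟩, k3⟩ := hball _ hw3
  have hPd : HasDerivAt P.symm (D (P.symm w)) w := by
    have := P.hasDerivAt_symm hw1 (inv_ne_zero k3) (hg _ hw3)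
    rwa [inv_inv] at this
  have hev : ∀ᶠ z in 𝓝 (P.symm w), Φ (Φ.symm (0, z)) = (0, z) := by
    filter_upwards [χ.open_target.mem_nhds hw2] with z hz
    exact Φ.right_inv (hχs z hz).1
  obtain ⟨m1, m2⟩ := x3d_param (s := s) (a := a) (b := b) k1 k2
    (hev.mono fun z hz => by
      have := congrArg Prod.fst hz
      rwa [hΦ] at this)
    (hev.mono fun z hz => by
      have := congrArg Prod.snd hz
      rwa [hΦ] at this) k3
  have hev2 : ∀ᶠ v in 𝓝 w, ((χ ≫ₕ P).symm v).1 = Φ.symm (0, P.symm v) := by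
    filter_upwards [(χ ≫ₕ P).open_target.mem_nhds hw] with v hv
    exact (hχs _ hv.2).2
  have hw4 := hev2.self_of_nhds
  constructor
  · have n1 := (m1.comp w hPd).congr_of_eventuallyEq
      (f₁ := fun z => ((χ ≫ₕ P).symm z).1.1) (hev2.mono fun v hv => congrArg Prod.fst hv)
    refine n1.congr_deriv (Eq.symm ?_)
    rw [hw4]
    exact (div_mul_cancel₀ _ k3).symm
  · have n1 := (m2.comp w hPd).congr_of_eventuallyEq
      (f₁ := fun z => ((χ ≫ₕ P).symm z).1.2) (hev2.mono fun v hv => congrArg Prod.snd hv)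
    refine n1.congr_deriv (Eq.symm ?_)
    rw [hw4]
    exact (div_mul_cancel₀ _ k3).symm

theorem IsFlatChart.trans (h0 : 0 < s) (h1 : s < 1 / 2) {φ ψ : OpenPartialHomeomorph (Cv s) ℂ}
    (hφ : IsFlatChart φ) (hψ : IsFlatChart ψ) {q : Cv s} (hq : q ∈ φ.source ∩ ψ.source) :
    ∀ᶠ q' in 𝓝 q, φ q' - ψ q' = φ q - ψ q := by
  let τ := φ.symm ≫ₕ ψ
  have hτ : ∀ z ∈ τ.source, HasDerivAt τ 1 z := by
    intro z hz
    have hz1 : z ∈ φ.target := hz.1
    have hz2 : φ.symm z ∈ ψ.source := hz.2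
    have hc : ContinuousAt τ z := τ.continuousAt hz
    have hev : ∀ᶠ v in 𝓝 z, ψ.symm (τ v) = φ.symm v := by
      filter_upwards [τ.open_source.mem_nhds hz] with v hv
      exact ψ.left_inv hv.2
    have hz3 := hev.self_of_nhds
    obtain ⟨a1, a2⟩ := hφ z hz1
    obtain ⟨b1, b2⟩ := hψ (τ z) (ψ.map_source hz2)
    rw [hz3] at b1 b2
    rcases x3d_ne h0 h1 (φ.symm z) with h | h
    · have := HasDerivAt.of_comp_left hc b1 a1 h
        (hev.mono fun v hv => congrArg (fun p : Cv s => p.1.1) hv)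
      rwa [div_self h] at this
    · have := HasDerivAt.of_comp_left hc b2 a2 h
        (hev.mono fun v hv => congrArg (fun p : Cv s => p.1.2) hv)
      rwa [div_self h] at this
  have hz₀ : φ q ∈ τ.source := by
    refine ⟨φ.map_source hq.1, ?_⟩
    change φ.symm (φ q) ∈ ψ.source
    rw [φ.left_inv hq.1]
    exact hq.2
  obtain ⟨r, hr, hball⟩ := Metric.isOpen_iff.1 τ.open_source _ hz₀
  have hder : ∀ z ∈ ball (φ q) r, HasDerivAt (fun z => z - τ z) 0 z := fun z hz =>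
    ((hasDerivAt_id z).sub (hτ z (hball hz))).congr_deriv (sub_self _)
  have hconst : ∀ z ∈ ball (φ q) r, z - τ z = φ q - τ (φ q) := fun z hz =>
    isOpen_ball.is_const_of_deriv_eq_zero (f := fun z => z - τ z)
      (convex_ball _ _).isPreconnected
      (fun z hz => (hder z hz).differentiableAt.differentiableWithinAt)
      (fun z hz => (hder z hz).deriv) hz (mem_ball_self hr)
  have hτφ : ∀ q' ∈ φ.source, τ (φ q') = ψ q' := fun q' h' => by
    change ψ (φ.symm (φ q')) = _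
    rw [φ.left_inv h']
  filter_upwards [(φ.continuousAt hq.1).eventually (ball_mem_nhds _ hr),
    φ.open_source.mem_nhds hq.1] with q' h2 h3
  rw [← hτφ q' h3, ← hτφ q hq.1]
  exact hconst _ h2

end Pool.Agent.MP_e62289_ag

end

section

open Set Filter Topology Complex MeasureTheory Metric
open scoped Manifold ContDiff ComplexConjugate NNReal ENNReal

namespace Pool.Agent.MP_e62289_ag

variable {s : ℝ}

/-- the hyperelliptic involution -/
def x3eInv (q : Cv s) : Cv s := ⟨(q.1.1, -q.1.2), by rw [neg_sq]; exact q.2.1, q.2.2⟩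

theorem x3e_cont : Continuous (x3eInv : Cv s → Cv s) :=
  Continuous.subtype_mk (by fun_prop) _

theorem x3e_inv_inv (q : Cv s) : x3eInv (x3eInv q) = q := by
  apply Subtype.ext
  simp [x3eInv]

theorem x3e_fibre {p q : Cv s} (h : p.1.1 = q.1.1) : p = q ∨ p = x3eInv q := by
  have h1 : p.1.2 ^ 2 = q.1.2 ^ 2 := by rw [p.2.1, q.2.1, h]
  rcases sq_eq_sq_iff_eq_or_eq_neg.1 h1 with h2 | h2
  · exact Or.inl (Subtype.ext (Prod.ext h h2))
  · exact Or.inr (Subtype.ext (Prod.ext h h2))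

theorem x3e_sqrt (c : ℂ) : ∃ y : ℂ, y ^ 2 = c := IsAlgClosed.exists_pow_nat_eq c two_pos

theorem x3e_root {y0 c : ℂ} {ε : ℝ} (hε : 0 < ε) (h : ‖c - y0 ^ 2‖ < ε ^ 2) :
    ∃ y : ℂ, y ^ 2 = c ∧ ‖y - y0‖ < ε := by
  obtain ⟨y, hy⟩ := x3e_sqrt c
  by_cases h1 : ‖y - y0‖ < ε
  · exact ⟨y, hy, h1⟩
  refine ⟨-y, by rw [neg_sq, hy], ?_⟩
  by_contra h2
  have h3 : c - y0 ^ 2 = -((y - y0) * (-y - y0)) := by rw [← hy]; ring
  rw [h3, norm_neg, norm_mul, sq] at h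
  exact absurd h (not_lt.2 (mul_le_mul (not_lt.1 h1) (not_lt.1 h2) hε.le (norm_nonneg _)))

theorem x3e_open {U : Set (Cv s)} (hU : IsOpen U) : IsOpen ((fun q : Cv s => q.1.1) '' U) := by
  rw [isOpen_iff_mem_nhds]
  rintro _ ⟨q, hq, rfl⟩
  obtain ⟨ε, hε, hb⟩ := Metric.isOpen_iff.1 hU q hq
  have hc : Continuous (PP s) := by unfold PP; fun_prop
  have e1 : ∀ᶠ x in 𝓝 q.1.1, ‖x - q.1.1‖ < ε := by
    have : Continuous fun x : ℂ => ‖x - q.1.1‖ := by fun_prop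
    exact this.continuousAt.eventually_lt continuousAt_const (by simpa using hε)
  have e2 : ∀ᶠ x in 𝓝 q.1.1, ‖PP s x - q.1.2 ^ 2‖ < ε ^ 2 := by
    have : Continuous fun x : ℂ => ‖PP s x - q.1.2 ^ 2‖ := by fun_prop
    refine this.continuousAt.eventually_lt continuousAt_const ?_
    rw [q.2.1, sub_self, norm_zero]
    positivity
  have e3 : ∀ᶠ x in 𝓝 q.1.1, x ≠ 0 := isOpen_ne.mem_nhds q.2.2.1
  have e4 : ∀ᶠ x in 𝓝 q.1.1, x ^ 2 + 1 ≠ 0 := by
    have : Continuous fun x : ℂ => x ^ 2 + 1 := by fun_prop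
    exact this.continuousAt.eventually_ne q.2.2.2
  filter_upwards [e1, e2, e3, e4] with x h1 h2 h3 h4
  obtain ⟨y, hy, hy2⟩ := x3e_root hε h2
  refine ⟨⟨(x, y), hy, h3, h4⟩, hb ?_, rfl⟩
  rw [mem_ball, Subtype.dist_eq, Prod.dist_eq, dist_eq_norm, dist_eq_norm]
  exact max_lt h1 hy2

theorem x3e_base : IsPreconnected {x : ℂ | x ≠ 0 ∧ x ^ 2 + 1 ≠ 0} := by
  have h : {x : ℂ | x ≠ 0 ∧ x ^ 2 + 1 ≠ 0} = ({0, I, -I} : Set ℂ)ᶜ := by
    ext x
    have h1 : x ^ 2 + 1 = (x - I) * (x - -I) := by linear_combination I_mul_I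
    simp only [mem_ofPred_eq, mem_compl_iff, mem_insert_iff, mem_singleton_iff, not_or, h1,
      ne_eq, mul_eq_zero, sub_eq_zero]
  rw [h]
  exact ((toFinite _).countable.isConnected_compl_of_one_lt_rank (by simp)).2

theorem x3e_inv_clopen {W : Set (Cv s)} (hW : IsClopen W) (hi : ∀ q, q ∈ W → x3eInv q ∈ W) :
    W = ∅ ∨ W = univ := by
  have hf : ∀ p q : Cv s, p.1.1 = q.1.1 → q ∈ W → p ∈ W := by
    intro p q h hq
    rcases x3e_fibre h with h1 | h1
    · rwa [h1]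
    · rw [h1]; exact hi q hq
  have hd : Disjoint ((fun q : Cv s => q.1.1) '' W) ((fun q : Cv s => q.1.1) '' Wᶜ) := by
    rw [Set.disjoint_left]
    rintro _ ⟨q, hq, rfl⟩ ⟨p, hp, h⟩
    exact hp (hf p q h hq)
  have hc : {x : ℂ | x ≠ 0 ∧ x ^ 2 + 1 ≠ 0} ⊆
      ((fun q : Cv s => q.1.1) '' W) ∪ ((fun q : Cv s => q.1.1) '' Wᶜ) := by
    intro x hx
    obtain ⟨y, hy⟩ := x3e_sqrt (PP s x)
    rw [← image_union, union_compl_self]
    exact ⟨⟨(x, y), hy, hx⟩, mem_univ _, rfl⟩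
  rcases x3e_base.subset_or_subset (x3e_open hW.2) (x3e_open hW.1.isOpen_compl) hd hc with h | h
  · refine Or.inr (eq_univ_of_forall fun p => ?_)
    obtain ⟨q, hq, h1⟩ := h p.2.2
    exact hf p q h1.symm hq
  · refine Or.inl (eq_empty_of_forall_notMem fun p hp => ?_)
    obtain ⟨q, hq, h1⟩ := h p.2.2
    exact hq (hf q p h1 hp)

theorem cv_connected (h0 : 0 < s) (h1 : s < 1 / 2) : ConnectedSpace (Cv s) := by
  have hs : (s : ℂ) ≠ 0 := ofReal_ne_zero.2 h0.ne'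
  have hs2 : (s : ℂ) ^ 2 + 1 ≠ 0 := by
    have : (s ^ 2 + 1 : ℝ) ≠ 0 := by positivity
    exact_mod_cast this
  let b : Cv s := ⟨((s : ℂ), 0), by simp [PP], hs, hs2⟩
  have hb : x3eInv b = b := by
    apply Subtype.ext
    simp [x3eInv, b]
  rw [connectedSpace_iff_clopen]
  refine ⟨⟨b⟩, fun U hU => x3e_inv_clopen hU ?_⟩
  have hU' : IsClopen (x3eInv ⁻¹' U) := hU.preimage x3e_cont
  have hV : IsClopen ((U ∩ x3eInv ⁻¹' U) ∪ (Uᶜ ∩ (x3eInv ⁻¹' U)ᶜ)) :=
    (hU.inter hU').union (hU.compl.inter hU'.compl)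
  have hi : ∀ q, q ∈ (U ∩ x3eInv ⁻¹' U) ∪ (Uᶜ ∩ (x3eInv ⁻¹' U)ᶜ) →
      x3eInv q ∈ (U ∩ x3eInv ⁻¹' U) ∪ (Uᶜ ∩ (x3eInv ⁻¹' U)ᶜ) := by
    intro q hq
    simp only [mem_union, mem_inter_iff, mem_preimage, mem_compl_iff, x3e_inv_inv] at hq ⊢
    tauto
  rcases x3e_inv_clopen hV hi with h | h
  · exfalso
    have h2 : b ∈ (U ∩ x3eInv ⁻¹' U) ∪ (Uᶜ ∩ (x3eInv ⁻¹' U)ᶜ) := by
      simp only [mem_union, mem_inter_iff, mem_preimage, mem_compl_iff, hb]
      tauto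
    rw [h] at h2
    exact h2
  · intro q hq
    have h2 : q ∈ (U ∩ x3eInv ⁻¹' U) ∪ (Uᶜ ∩ (x3eInv ⁻¹' U)ᶜ) := by rw [h]; exact mem_univ _
    rcases h2 with h2 | h2
    · exact h2.2
    · exact absurd hq h2.1

end Pool.Agent.MP_e62289_ag

end

section



end

section

open Set Filter Topology Complex MeasureTheory Metric
open scoped Manifold ContDiff ComplexConjugate NNReal ENNReal

namespace Pool.Agent.MP_e62289_ag

theorem X3c_sqrt {P : ℂ → ℂ} (hP : Differentiable ℂ P) (h0 : P 0 ≠ 0) :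
    ∃ r > 0, ∃ Y : ℂ → ℂ, DifferentiableOn ℂ Y (ball 0 r) ∧
      ∀ u ∈ ball (0 : ℂ) r, Y u ≠ 0 ∧ Y u ^ 2 = P u := by
  have hc : ContinuousAt (fun u => P u / P 0) 0 := (hP.continuous.div_const _).continuousAt
  have h1 : ∀ᶠ u in 𝓝 (0 : ℂ), P u / P 0 ∈ slitPlane :=
    hc.eventually (isOpen_slitPlane.mem_nhds (by simp [div_self h0]))
  obtain ⟨r, hr, h2⟩ := Metric.eventually_nhds_iff_ball.1 h1
  refine ⟨r, hr, fun u => exp ((log (P 0) + log (P u / P 0)) / 2), fun u hu => ?_,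
    fun u hu => ⟨exp_ne_zero _, ?_⟩⟩
  · exact (((((hP u).div_const _).clog (h2 u hu)).const_add _).div_const _).cexp.differentiableWithinAt
  · rw [← exp_nat_mul, Nat.cast_ofNat, mul_div_cancel₀ _ two_ne_zero, exp_add, exp_log h0,
      exp_log (slitPlane_ne_zero (h2 u hu)), mul_div_cancel₀ _ h0]

theorem X3c_end {Z : Type} [TopologicalSpace Z] {W : Type} [TopologicalSpace W] {val : Z → W}
    (hval : IsEmbedding val) (z₀ : Z) {u v : Z → ℂ} (hu : Continuous u) (hv : Continuous v)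
    (hu0 : ∀ q, u q ≠ 0) {ι : ℂ × ℂ → W} (hι : ContinuousOn ι {p | p.1 ≠ 0})
    (hl : ∀ q, ι (u q, v q) = val q) {P Y : ℂ → ℂ} {r : ℝ} (hr : 0 < r)
    (hP : ∀ q, v q ^ 2 = P (u q)) (hY : ContinuousOn Y (ball 0 r))
    (hY2 : ∀ a ∈ ball (0 : ℂ) r, Y a ≠ 0 ∧ Y a ^ 2 = P a)
    (hs : ∀ a b : ℂ, a ≠ 0 → ‖a‖ < r → b ^ 2 = P a → ∃ q, u q = a ∧ v q = b) :
    ∃ e : OpenPartialHomeomorph Z ℂ, e.source = {q | ‖u q‖ < r ∧ v q = Y (u q)} ∧
      e.target = ball 0 1 \ {0} ∧ (∀ q, e q = u q / r) ∧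
      ∀ ρ, ρ < 1 → IsClosed {q | q ∈ e.source ∧ ‖e q‖ ≤ ρ} := by
  have hrc : (r : ℂ) ≠ 0 := by exact_mod_cast hr.ne'
  have hn : ∀ a : ℂ, ‖a / r‖ = ‖a‖ / r := fun a => by
    rw [norm_div, norm_real, Real.norm_of_nonneg hr.le]
  have hm : ∀ w ∈ ball (0 : ℂ) 1 \ {0}, (r : ℂ) * w ≠ 0 ∧ ‖(r : ℂ) * w‖ < r := fun w hw => by
    refine ⟨mul_ne_zero hrc hw.2, ?_⟩
    rw [norm_mul, norm_real, Real.norm_of_nonneg hr.le]
    exact mul_lt_of_lt_one_right hr (mem_ball_zero_iff.1 hw.1)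
  have hex : ∀ w : ℂ, ∃ q, w ∈ ball (0 : ℂ) 1 \ {0} → u q = r * w ∧ v q = Y (r * w) := fun w => by
    by_cases hw : w ∈ ball (0 : ℂ) 1 \ {0}
    · obtain ⟨q, hq⟩ := hs _ _ (hm w hw).1 (hm w hw).2 (hY2 _ (mem_ball_zero_iff.2 (hm w hw).2)).2
      exact ⟨q, fun _ => hq⟩
    · exact ⟨z₀, fun h => (hw h).elim⟩
  choose g hg using hex
  have hmap : ∀ q, ‖u q‖ < r → u q / r ∈ ball (0 : ℂ) 1 \ {0} := fun q hq =>
    ⟨by rw [mem_ball_zero_iff, hn, div_lt_one hr]; exact hq, div_ne_zero (hu0 q) hrc⟩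
  have hcY : ContinuousOn (fun q => Y (u q)) {q | ‖u q‖ < r} :=
    hY.comp hu.continuousOn fun q hq => mem_ball_zero_iff.2 hq
  refine ⟨{ toFun := fun q => u q / r
            invFun := g
            source := {q | ‖u q‖ < r ∧ v q = Y (u q)}
            target := ball 0 1 \ {0}
            map_source' := fun q hq => hmap q hq.1
            map_target' := fun w hw => ?_
            left_inv' := fun q hq => ?_
            right_inv' := fun w hw => ?_
            open_source := ?_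
            open_target := isOpen_ball.sdiff isClosed_singleton
            continuousOn_toFun := (hu.div_const _).continuousOn
            continuousOn_invFun := ?_ }, rfl, rfl, fun _ => rfl, fun ρ hρ => ?_⟩
  · obtain ⟨a, b⟩ := hg w hw
    exact ⟨by rw [a]; exact (hm w hw).2, by rw [a, b]⟩
  · obtain ⟨a, b⟩ := hg _ (hmap q hq.1)
    rw [mul_div_cancel₀ _ hrc] at a b
    apply hval.injective
    rw [← hl, ← hl q, a, b, hq.2]
  · rw [(hg w hw).1, mul_div_cancel_left₀ _ hrc]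
  · rw [hval.continuousOn_iff]
    have c1 : ContinuousOn (fun w : ℂ => ((r : ℂ) * w, Y (r * w))) (ball 0 1 \ {0}) :=
      (continuous_const.mul continuous_id).continuousOn.prodMk
        (hY.comp (continuous_const.mul continuous_id).continuousOn fun w hw =>
          mem_ball_zero_iff.2 (hm w hw).2)
    refine (hι.comp c1 fun w hw => (hm w hw).1).congr fun w hw => ?_
    simp only [Function.comp_apply]
    rw [← hl, (hg w hw).1, (hg w hw).2]
  · have : {q | ‖u q‖ < r ∧ v q = Y (u q)} =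
        {q | ‖u q‖ < r} ∩ (fun q => v q + Y (u q)) ⁻¹' {0}ᶜ := by
      ext q
      refine and_congr_right fun hq => ?_
      obtain ⟨a, b⟩ := hY2 _ (mem_ball_zero_iff.2 hq)
      have c : (v q - Y (u q)) * (v q + Y (u q)) = 0 := by linear_combination hP q - b
      constructor
      · intro h h'
        have h'' : v q + Y (u q) = 0 := h'
        exact a (by linear_combination (h'' - h) / 2)
      · intro h
        exact sub_eq_zero.1 ((mul_eq_zero.1 c).resolve_right h)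
    rw [this]
    exact (hv.continuousOn.add hcY).isOpen_inter_preimage (isOpen_lt hu.norm continuous_const)
      isOpen_compl_singleton
  · have hlt : ∀ q, ‖u q / r‖ ≤ ρ → ‖u q‖ < r := fun q h => by
      rw [hn, div_le_iff₀ hr] at h
      nlinarith
    have : {q | q ∈ {q | ‖u q‖ < r ∧ v q = Y (u q)} ∧ ‖u q / r‖ ≤ ρ} =
        {q | ‖u q / r‖ ≤ ρ} ∩ (fun q => v q - Y (u q)) ⁻¹' {0} := by
      ext q
      exact ⟨fun h => ⟨h.2, sub_eq_zero.2 h.1.2⟩, fun h => ⟨⟨hlt q h.1, sub_eq_zero.1 h.2⟩, h.1⟩⟩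
    change IsClosed {q | q ∈ {q | ‖u q‖ < r ∧ v q = Y (u q)} ∧ ‖u q / r‖ ≤ ρ}
    rw [this]
    exact (hv.continuousOn.sub (hcY.mono hlt)).preimage_isClosed_of_isClosed
      (isClosed_le (hu.div_const _).norm continuous_const) isClosed_singleton

/-- local `x`-coordinate at an end -/
noncomputable def X3c_U (i : Fin 8) (x : ℂ) : ℂ := if i.val < 6 then x - xpt i else x⁻¹

/-- local `y`-coordinate at an end -/
noncomputable def X3c_V (i : Fin 8) (p : ℂ × ℂ) : ℂ := if i.val < 6 then p.2 else p.2 * p.1⁻¹ ^ 4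

theorem X3c_inv (s : ℝ) {x : ℂ} (hx : x ≠ 0) : PP s x⁻¹ = PP s x * x⁻¹ ^ 8 := by
  simp only [PP]
  field_simp

theorem X3c_xpt (i : Fin 8) : xpt i = I ∨ xpt i = -I ∨ xpt i = 0 := by
  fin_cases i <;> simp [xpt]

theorem X3c_xpt6 (i : Fin 8) (h : ¬ i.val < 6) : xpt i = 0 := by
  fin_cases i <;> simp [xpt] at h ⊢

theorem X3c_sq (x : ℂ) : x ^ 2 + 1 = (x - I) * (x + I) := by
  linear_combination I_mul_I

theorem X3c_PP_ne {s : ℝ} (h0 : 0 < s) (h1 : s < 1 / 2) (i : Fin 8) : PP s (xpt i + 0) ≠ 0 := by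
  have a1 : (1 : ℂ) - s ^ 4 ≠ 0 := by
    have : (1 : ℝ) - s ^ 4 ≠ 0 := by
      have : s ^ 4 < 1 := pow_lt_one₀ h0.le (by linarith) (by norm_num)
      linarith
    exact_mod_cast this
  have a2 : (s : ℂ) ≠ 0 := by exact_mod_cast h0.ne'
  have a3 : (-I) ^ 4 = 1 := by rw [neg_pow, I_pow_four]; norm_num
  rcases X3c_xpt i with h | h | h <;> rw [h, add_zero, PP]
  · rw [I_pow_four, mul_one]
    exact mul_ne_zero a1 a1
  · rw [a3, mul_one]
    exact mul_ne_zero a1 a1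
  · simpa using a2

theorem X3c_sep {x : ℂ} {r : ℝ} (hr : r < 1 / 4) :
    (‖x - I‖ < r → ¬ ‖x + I‖ < r ∧ ¬ ‖x‖ < r ∧ ¬ ‖x⁻¹‖ < r) ∧
    (‖x + I‖ < r → ¬ ‖x‖ < r ∧ ¬ ‖x⁻¹‖ < r) ∧ (‖x‖ < r → x ≠ 0 → ¬ ‖x⁻¹‖ < r) := by
  have k : ∀ c : ℂ, ‖c‖ = 1 → ‖x - c‖ < r → 1 / 2 < ‖x‖ ∧ ‖x‖ < 2 := fun c hc h => by
    have := abs_le.1 (abs_norm_sub_norm_le x c)
    constructor <;> linarith [this.1, this.2]
  have k2 : 0 < ‖x‖ → ‖x‖ < 2 → ¬ ‖x⁻¹‖ < r := fun a b c => by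
    rw [norm_inv, inv_lt_iff_one_lt_mul₀ a] at c
    nlinarith
  refine ⟨fun h => ⟨fun h' => ?_, ?_, ?_⟩, fun h => ?_, fun h h' => k2 (norm_pos_iff.2 h') (by linarith)⟩
  · have := norm_sub_le (x + I) (x - I)
    rw [show x + I - (x - I) = 2 * I by ring, norm_mul, norm_I] at this
    simp only [Complex.norm_ofNat] at this
    linarith
  · linarith [(k I norm_I h).1]
  · exact k2 (by linarith [(k I norm_I h).1]) (k I norm_I h).2
  · have := k (-I) (by simp) (by simpa using h)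
    exact ⟨by linarith [this.1], k2 (by linarith [this.1]) this.2⟩

theorem X3c_near {x : ℂ} {r : ℝ} (hr : r < 1 / 4) (hx : x ≠ 0) (i j : Fin 8)
    (hi : ‖X3c_U i x‖ < r) (hj : ‖X3c_U j x‖ < r) : i.val / 2 = j.val / 2 := by
  obtain ⟨a, b, c⟩ := X3c_sep (x := x) hr
  fin_cases i <;> fin_cases j <;> simp [X3c_U, xpt, -norm_inv] at hi hj ⊢ <;> tauto

theorem X3c_same (i j : Fin 8) (h : i.val / 2 = j.val / 2) (hne : i ≠ j) :
    xpt i = xpt j ∧ (i.val < 6 ↔ j.val < 6) ∧ (-1 : ℂ) ^ i.val = -(-1) ^ j.val := by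
  fin_cases i <;> fin_cases j <;> simp [xpt] at h hne ⊢ <;> norm_num

theorem X3c_other (i : Fin 8) : ∃ j : Fin 8, i.val / 2 = j.val / 2 ∧ i ≠ j := by
  revert i
  decide

theorem X3c_compact {s m : ℝ} (hm : 0 < m) :
    IsCompact {q : Cv s | ∀ i, m ≤ ‖X3c_U i q.1.1‖} := by
  have hc : Continuous (PP s) := by unfold PP; fun_prop
  obtain ⟨M, hM⟩ := (isCompact_closedBall (0 : ℂ) m⁻¹).exists_bound_of_continuousOn hc.continuousOn
  rw [Subtype.isCompact_iff]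
  have e : Subtype.val '' {q : Cv s | ∀ i, m ≤ ‖X3c_U i q.1.1‖} =
      {p : ℂ × ℂ | p.2 ^ 2 = PP s p.1 ∧ m ≤ ‖p.1 - I‖ ∧ m ≤ ‖p.1 + I‖ ∧ m ≤ ‖p.1‖ ∧
        ‖p.1‖ ≤ m⁻¹} := by
    ext p
    constructor
    · rintro ⟨q, hq, rfl⟩
      refine ⟨q.2.1, by simpa [X3c_U, xpt] using hq 0, by simpa [X3c_U, xpt] using hq 2,
        by simpa [X3c_U, xpt] using hq 4, ?_⟩
      have : m ≤ ‖q.1.1‖⁻¹ := by simpa [X3c_U, xpt] using hq 6
      exact le_inv_of_le_inv₀ hm this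
    · rintro ⟨a, b, c, d, e⟩
      have n : ∀ z : ℂ, m ≤ ‖z‖ → z ≠ 0 := fun z h => norm_pos_iff.1 (hm.trans_le h)
      refine ⟨⟨p, a, n _ d, by rw [X3c_sq]; exact mul_ne_zero (n _ b) (n _ c)⟩, fun i => ?_, rfl⟩
      have f : m ≤ ‖p.1‖⁻¹ := le_inv_of_le_inv₀ (hm.trans_le d) e
      fin_cases i <;> simp [X3c_U, xpt] <;> assumption
  rw [e]
  refine ((isCompact_closedBall (0 : ℂ) m⁻¹).prod (isCompact_closedBall (0 : ℂ) (M + 1))).of_isClosed_subset
    ?_ fun p hp => ⟨mem_closedBall_zero_iff.2 hp.2.2.2.2, mem_closedBall_zero_iff.2 ?_⟩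
  · simp only [Set.ofPred_and]
    exact (isClosed_eq (by fun_prop) (by fun_prop)).inter
      ((isClosed_le (by fun_prop) (by fun_prop)).inter
      ((isClosed_le (by fun_prop) (by fun_prop)).inter
      ((isClosed_le (by fun_prop) (by fun_prop)).inter (isClosed_le (by fun_prop) (by fun_prop)))))
  · have := hM _ (mem_closedBall_zero_iff.2 hp.2.2.2.2)
    rw [← hp.1, norm_pow] at this
    nlinarith [sq_nonneg (‖p.2‖ - 1)]

/-- the eight ends of the curve -/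
theorem cv_ends {s : ℝ} (h0 : 0 < s) (h1 : s < 1 / 2) :
    ∃ (e : Fin 8 → OpenPartialHomeomorph (Cv s) ℂ) (r : ℝ) (Yb : Fin 8 → ℂ → ℂ),
      0 < r ∧ r ≤ s / 2 ∧ (∀ i, (e i).target = ball 0 1 \ {0}) ∧
      (Pairwise fun i j => Disjoint (e i).source (e j).source) ∧
      (∀ i ρ, ρ < 1 → IsClosed {q | q ∈ (e i).source ∧ ‖e i q‖ ≤ ρ}) ∧
      (∀ ρ, 0 < ρ → IsCompact {q | ∀ i, q ∈ (e i).source → ρ ≤ ‖e i q‖}) ∧
      (∀ i, DifferentiableOn ℂ (Yb i) (ball 0 1)) ∧ (∀ i, ∀ z ∈ ball (0 : ℂ) 1, Yb i z ≠ 0) ∧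
      (∀ i : Fin 8, i.val < 6 → ∀ q ∈ (e i).source,
        q.1.1 = xpt i + r * e i q ∧ q.1.2 = Yb i (e i q)) ∧
      ∀ i : Fin 8, 6 ≤ i.val → ∀ q ∈ (e i).source,
        q.1.1 * (r * e i q) = 1 ∧ q.1.2 * e i q ^ 4 = Yb i (e i q) := by
  have hroot : ∀ a : ℂ, ∃ r > 0, ∃ Y : ℂ → ℂ, PP s (a + 0) ≠ 0 → DifferentiableOn ℂ Y (ball 0 r) ∧
      ∀ u ∈ ball (0 : ℂ) r, Y u ≠ 0 ∧ Y u ^ 2 = PP s (a + u) := fun a => by
    by_cases h : PP s (a + 0) = 0
    · exact ⟨1, one_pos, 0, fun h' => (h' h).elim⟩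
    · obtain ⟨r, hr, Y, hY⟩ := X3c_sqrt (P := fun u => PP s (a + u)) (by unfold PP; fun_prop) h
      exact ⟨r, hr, Y, fun _ => hY⟩
  choose R hR Y hY using hroot
  set r := min (min (R I) (R (-I))) (min (R 0) (s / 2)) with hrdef
  have hr : 0 < r := lt_min (lt_min (hR _) (hR _)) (lt_min (hR _) (half_pos h0))
  have hrs : r ≤ s / 2 := (min_le_right _ _).trans (min_le_right _ _)
  have hr4 : r < 1 / 4 := by linarith
  have hrc : (r : ℂ) ≠ 0 := by exact_mod_cast hr.ne'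
  have hsub : ∀ i, ball (0 : ℂ) r ⊆ ball 0 (R (xpt i)) := fun i => ball_subset_ball (by
    rcases X3c_xpt i with h | h | h <;> rw [h]
    · exact (min_le_left _ _).trans (min_le_left _ _)
    · exact (min_le_left _ _).trans (min_le_right _ _)
    · exact (min_le_right _ _).trans (min_le_left _ _))
  set Z : Fin 8 → ℂ → ℂ := fun i u => (-1) ^ i.val * Y (xpt i) u with hZ
  have Zd : ∀ i, DifferentiableOn ℂ (Z i) (ball 0 r) := fun i =>
    ((hY _ (X3c_PP_ne h0 h1 i)).1.mono (hsub i)).const_mul _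
  have Z2 : ∀ i, ∀ a ∈ ball (0 : ℂ) r, Z i a ≠ 0 ∧ Z i a ^ 2 = PP s (xpt i + a) := fun i a ha => by
    obtain ⟨b1, b2⟩ := (hY _ (X3c_PP_ne h0 h1 i)).2 a (hsub i ha)
    refine ⟨mul_ne_zero (pow_ne_zero _ (by norm_num)) b1, ?_⟩
    simp only [hZ]
    rw [mul_pow, ← pow_mul, mul_comm i.val, pow_mul, b2]
    simp
  have hP : ∀ i (q : Cv s), X3c_V i q.1 ^ 2 = PP s (xpt i + X3c_U i q.1.1) := fun i q => by
    simp only [X3c_U, X3c_V]
    split_ifs with h
    · rw [add_sub_cancel, q.2.1]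
    · rw [X3c_xpt6 i h, zero_add, X3c_inv s q.2.2.1, ← q.2.1]
      ring
  have z₀ : Cv s := ⟨(s, 0), by simp [PP], ofReal_ne_zero.2 h0.ne', by
    have : (s : ℝ) ^ 2 + 1 ≠ 0 := by positivity
    show (s : ℂ) ^ 2 + 1 ≠ 0
    exact_mod_cast this⟩
  have hinv : Continuous fun q : Cv s => q.1.1⁻¹ :=
    (continuous_fst.comp continuous_subtype_val).inv₀ fun q => q.2.2.1
  have hE : ∀ i : Fin 8, ∃ e : OpenPartialHomeomorph (Cv s) ℂ,
      e.source = {q | ‖X3c_U i q.1.1‖ < r ∧ X3c_V i q.1 = Z i (X3c_U i q.1.1)} ∧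
      e.target = ball 0 1 \ {0} ∧ (∀ q, e q = X3c_U i q.1.1 / r) ∧
      ∀ ρ, ρ < 1 → IsClosed {q | q ∈ e.source ∧ ‖e q‖ ≤ ρ} := fun i => by
    have hPi := hP i
    simp only [X3c_U, X3c_V] at hPi ⊢
    by_cases h : i.val < 6
    · simp only [if_pos h] at hPi ⊢
      refine X3c_end IsEmbedding.subtypeVal z₀ (by fun_prop) (by fun_prop) (fun q => ?_)
        (ι := fun p => (xpt i + p.1, p.2)) (by fun_prop) (fun q => by simp)
        (P := fun u => PP s (xpt i + u)) hr hPi (Zd i).continuousOn (Z2 i) fun a b a0 ar hb => ?_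
      · have := q.2.2.2
        rw [X3c_sq] at this
        rcases X3c_xpt i with h | h | h <;> rw [h]
        · exact left_ne_zero_of_mul this
        · rw [sub_neg_eq_add]
          exact right_ne_zero_of_mul this
        · simpa using q.2.2.1
      · refine ⟨⟨(xpt i + a, b), hb, ?_⟩, by simp, rfl⟩
        obtain ⟨c1, c2, -⟩ := X3c_sep (x := xpt i + a) hr4
        change xpt i + a ≠ 0 ∧ (xpt i + a) ^ 2 + 1 ≠ 0
        rw [X3c_sq]
        rcases X3c_xpt i with h | h | h <;> rw [h] at c1 c2 ⊢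
        · obtain ⟨d1, d2, -⟩ := c1 (by simpa using ar)
          exact ⟨fun e => d2 (by rwa [e, norm_zero]), mul_ne_zero (by simpa using a0)
            fun e => d1 (by rwa [e, norm_zero])⟩
        · have d0 : ‖-I + a + I‖ < r := by simpa using ar
          exact ⟨fun e => (c2 d0).1 (by rwa [e, norm_zero]),
            mul_ne_zero (fun e => (c1 (by rwa [e, norm_zero])).1 d0) (by simpa using a0)⟩
        · have d0 : ‖0 + a‖ < r := by simpa using ar
          exact ⟨by simpa using a0, mul_ne_zero (fun e => (c1 (by rwa [e, norm_zero])).2.1 d0)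
            fun e => (c2 (by rwa [e, norm_zero])).1 d0⟩
    · simp only [if_neg h] at hPi ⊢
      refine X3c_end IsEmbedding.subtypeVal z₀ (v := fun q => q.1.2 * q.1.1⁻¹ ^ 4) hinv
        ((continuous_snd.comp continuous_subtype_val).mul (hinv.pow 4))
        (fun q => inv_ne_zero q.2.2.1) (ι := fun p => (p.1⁻¹, p.2 * p.1⁻¹ ^ 4))
        ((continuousOn_fst.inv₀ fun p hp => hp).prodMk
          (continuousOn_snd.mul ((continuousOn_fst.inv₀ fun p hp => hp).pow 4))) (fun q => ?_)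
        (P := fun u => PP s (xpt i + u)) hr hPi (Zd i).continuousOn (Z2 i) fun a b a0 ar hb => ?_
      · have := q.2.2.1
        refine Prod.ext (inv_inv _) ?_
        simp only [inv_inv]
        field_simp
      · obtain ⟨c1, c2, -⟩ := X3c_sep (x := a⁻¹) hr4
        rw [inv_inv] at c1 c2
        rw [X3c_xpt6 i h, zero_add] at hb
        refine ⟨⟨(a⁻¹, b * a⁻¹ ^ 4), ?_, inv_ne_zero a0, ?_⟩, inv_inv _, ?_⟩
        · rw [X3c_inv s a0, ← hb]
          ring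
        · rw [X3c_sq]
          exact mul_ne_zero (fun e => (c1 (by rwa [e, norm_zero])).2.2 ar)
            fun e => (c2 (by rwa [e, norm_zero])).2 ar
        · change b * a⁻¹ ^ 4 * a⁻¹⁻¹ ^ 4 = b
          rw [inv_inv]
          field_simp
  choose e es et ee ec using hE
  have hn : ∀ a : ℂ, ‖a / r‖ = ‖a‖ / r := fun a => by
    rw [norm_div, norm_real, Real.norm_of_nonneg hr.le]
  have hmul : ∀ z ∈ ball (0 : ℂ) 1, (r : ℂ) * z ∈ ball (0 : ℂ) r := fun z hz => by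
    rw [mem_ball_zero_iff, norm_mul, norm_real, Real.norm_of_nonneg hr.le]
    exact mul_lt_of_lt_one_right hr (mem_ball_zero_iff.1 hz)
  have hsame : ∀ i j : Fin 8, i.val / 2 = j.val / 2 → i ≠ j →
      X3c_U i = X3c_U j ∧ X3c_V i = X3c_V j ∧ ∀ u, Z i u = -Z j u := fun i j h hne => by
    obtain ⟨a, b, c⟩ := X3c_same i j h hne
    refine ⟨funext fun x => ?_, funext fun p => ?_, fun u => ?_⟩
    · simp only [X3c_U, a, b]
    · simp only [X3c_V, b]
    · simp only [hZ, a, c, neg_mul]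
  refine ⟨e, r, fun i z => (if i.val < 6 then 1 else (r : ℂ)⁻¹ ^ 4) * Z i (r * z), hr, hrs, et,
    fun i j hij => ?_, ec, fun ρ hρ => ?_, fun i => ?_, fun i z hz => ?_, fun i hi q hq => ?_,
    fun i hi q hq => ?_⟩
  · change Disjoint (e i).source (e j).source
    rw [es, es, Set.disjoint_left]
    intro q hi hj
    obtain ⟨a, b, c⟩ := hsame i j (X3c_near hr4 q.2.2.1 i j hi.1 hj.1) hij
    have d1 := hi.2
    rw [a, b, c, hj.2] at d1
    exact (Z2 j _ (mem_ball_zero_iff.2 hj.1)).1 (by linear_combination d1 / 2)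
  · have : {q : Cv s | ∀ i, q ∈ (e i).source → ρ ≤ ‖e i q‖} =
        {q : Cv s | ∀ i, min ρ 1 * r ≤ ‖X3c_U i q.1.1‖} := by
      ext q
      constructor
      · intro h i
        by_contra hlt
        have b1 : ‖X3c_U i q.1.1‖ < r :=
          (not_le.1 hlt).trans_le (mul_le_of_le_one_left hr.le (min_le_right _ _))
        have b2 : ‖X3c_U i q.1.1‖ < ρ * r :=
          (not_le.1 hlt).trans_le (mul_le_mul_of_nonneg_right (min_le_left _ _) hr.le)
        have b3 := (Z2 i _ (mem_ball_zero_iff.2 b1)).2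
        rw [← hP i q] at b3
        rcases sq_eq_sq_iff_eq_or_eq_neg.1 b3.symm with c | c
        · have := h i (by rw [es]; exact ⟨b1, c⟩)
          rw [ee, hn, le_div_iff₀ hr] at this
          linarith
        · obtain ⟨j, j1, j2⟩ := X3c_other i
          obtain ⟨a, b, d⟩ := hsame i j j1 j2
          rw [d, neg_neg, a, b] at c
          rw [a] at b1 b2
          have := h j (by rw [es]; exact ⟨b1, c⟩)
          rw [ee, hn, le_div_iff₀ hr] at this
          linarith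
      · intro h i hq
        rw [es] at hq
        rw [ee, hn, le_div_iff₀ hr]
        have b1 := h i
        rcases le_total ρ 1 with c | c
        · rwa [min_eq_left c] at b1
        · rw [min_eq_right c] at b1
          linarith [hq.1]
    rw [this]
    exact X3c_compact (mul_pos (lt_min hρ one_pos) hr)
  · exact ((Zd i).comp (by fun_prop) hmul).const_mul _
  · refine mul_ne_zero ?_ (Z2 i _ (hmul z hz)).1
    split_ifs
    · exact one_ne_zero
    · exact pow_ne_zero _ (inv_ne_zero hrc)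
  · rw [es] at hq
    have b := hq.2
    simp only [ee, mul_div_cancel₀ _ hrc]
    simp only [X3c_U, X3c_V, if_pos hi] at b ⊢
    exact ⟨by ring, by rw [one_mul, b]⟩
  · rw [es] at hq
    have b := hq.2
    simp only [ee, mul_div_cancel₀ _ hrc]
    simp only [X3c_U, X3c_V, if_neg (not_lt.2 hi)] at b ⊢
    exact ⟨mul_inv_cancel₀ q.2.2.1, by rw [← b]; ring⟩

end Pool.Agent.MP_e62289_ag

end

section

open Set Filter Topology Complex MeasureTheory Metric
open scoped Manifold ContDiff ComplexConjugate NNReal ENNReal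

namespace Pool.Agent.MP_e62289_ag

theorem x3_hol {Y : Type} [TopologicalSpace Y] [ChartedSpace ℂ Y] {u : Y → ℂ} {q : Y} {c : ℂ}
    (hc : ContinuousAt u q) (h : HasDerivAt (u ∘ (chartAt ℂ q).symm) c (chartAt ℂ q q)) :
    HolAt u q ∧ d1 u q = c := by
  have h1 : HolAt u q := by
    rw [HolAt, mdifferentiableAt_iff]
    refine ⟨hc, ?_⟩
    simp only [mfld_simps]
    exact h.differentiableAt.differentiableWithinAt
  refine ⟨h1, ?_⟩
  rw [d1, dd_eq_fderiv (d2_of_hol h1).1]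
  exact (w_of_hasDerivAt h).1

theorem x3_comp {Y : Type} [TopologicalSpace Y] [ChartedSpace ℂ Y] {u : Y → ℂ} {q : Y}
    {g : ℂ → ℂ} (hg : DifferentiableAt ℂ g (u q)) (hu : HolAt u q) :
    HolAt (fun x => g (u x)) q :=
  MDifferentiableAt.comp q (mdifferentiableAt_iff_differentiableAt.2 hg) hu

theorem exists_hyp {s : ℝ} (h0 : 0 < s) (h1 : s < 1 / 2) : Nonempty (Hyp s) := by
  choose φ hm hφ using exists_flatChart h0 h1
  have hf : ∀ x y : Cv s, ∀ q ∈ (φ x).source ∩ (φ y).source, ∀ᶠ q' in 𝓝 q,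
      φ x q' - φ y q' = φ x q - φ y q := fun x y q hq =>
    IsFlatChart.trans h0 h1 (hφ x) (hφ y) hq
  obtain ⟨mC, mR⟩ := flat_manifold φ hm hf
  let ch : ChartedSpace ℂ (Cv s) := chartedOf φ hm
  let ms : MeasurableSpace (Cv s) := borel (Cv s)
  have bor : @BorelSpace (Cv s) _ ms := @BorelSpace.mk _ _ ms rfl
  obtain ⟨lam, hlam⟩ := @flat_area (Cv s) _ _ ms bor φ hm hf
  obtain ⟨e, r, Yb, hr, hrs, e1, e2, e3, e4, e5, e6, e7, e8⟩ := cv_ends h0 h1
  have hx : ∀ q : Cv s, HolAt (fun q : Cv s => q.1.1) q ∧ d1 (fun q : Cv s => q.1.1) q = q.1.2 := by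
    intro q
    refine x3_hol (by fun_prop) ?_
    have h := (hφ q (φ q q) ((φ q).map_source (hm q))).1
    rw [(φ q).left_inv (hm q)] at h
    exact h
  have hy : ∀ q : Cv s, HolAt (fun q : Cv s => q.1.2) q := by
    intro q
    have h := (hφ q (φ q q) ((φ q).map_source (hm q))).2
    exact (x3_hol (u := fun q : Cv s => q.1.2) (q := q) (by fun_prop) h).1
  have hr' : (r : ℂ) ≠ 0 := ofReal_ne_zero.2 hr.ne'
  have he : ∀ i, MDifferentiableOn 𝓘(ℂ, ℂ) 𝓘(ℂ, ℂ) (e i) (e i).source := by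
    intro i
    rcases lt_or_ge i.val 6 with hi | hi
    · refine MDifferentiableOn.congr (f := fun q : Cv s => (q.1.1 - xpt i) / r) ?_ ?_
      · intro q _
        exact (x3_comp (g := fun z => (z - xpt i) / r) (by fun_prop)
          (hx q).1).mdifferentiableWithinAt
      · intro q hq
        rw [(e7 i hi q hq).1]
        field_simp
        ring
    · refine MDifferentiableOn.congr (f := fun q : Cv s => (r * q.1.1)⁻¹) ?_ ?_
      · intro q _
        refine (x3_comp (g := fun z => ((r : ℂ) * z)⁻¹) ?_ (hx q).1).mdifferentiableWithinAt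
        exact DifferentiableAt.inv (by fun_prop) (mul_ne_zero hr' q.2.2.1)
      · intro q hq
        refine eq_inv_of_mul_eq_one_left ?_
        linear_combination (e8 i hi q hq).1
  let S : Flat 8 :=
    { Y := Cv s
      cn := cv_connected h0 h1
      ms := ms
      bor := bor
      ch := ch
      mC := mC
      mR := mR
      flat := hf
      lam := lam
      area := hlam
      e := e
      e_target := e1
      e_hol := he
      e_disj := e2
      e_closed := e3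
      e_compact := e4
      f := fun q => q.1.1 * (q.1.1 ^ 2 + 1)
      f_hol := fun q => x3_comp (g := fun z => z * (z ^ 2 + 1)) (by fun_prop) (hx q).1
      f_ne := fun q => mul_ne_zero q.2.2.1 q.2.2.2 }
  exact ⟨{ S := S
           x := fun q => q.1.1
           y := fun q => q.1.2
           x_hol := fun q => (hx q).1
           y_hol := hy
           d1x := fun q => (hx q).2
           eqn := fun q => q.2.1
           x_ne := fun q => q.2.2.1
           w_ne := fun q => q.2.2.2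
           inj := fun p q h => Subtype.ext h
           surj := fun X Y a b c => ⟨⟨(X, Y), a, b, c⟩, rfl, rfl⟩
           f_eq := fun _ => rfl
           r := r
           r_pos := hr
           r_le := hrs
           Yb := Yb
           Yb_hol := e5
           Yb_ne := e6
           fin := e7
           inf := e8 }⟩

end Pool.Agent.MP_e62289_ag

end

section

open Set Filter Topology Complex MeasureTheory Metric
open scoped Manifold ContDiff ComplexConjugate NNReal ENNReal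

namespace Pool.Agent.MP_e62289_ag

theorem X5_fin (c : ℂ) : {x : ℂ | x ^ 4 = c}.Finite :=
  (Polynomial.nthRoots 4 c).toFinset.finite_toSet.subset fun x hx => by
    simpa [Polynomial.mem_nthRoots] using hx

theorem X5_comp {Y : Type} [TopologicalSpace Y] [ChartedSpace ℂ Y] {u : Y → ℂ} {q : Y} {g : ℂ → ℂ}
    (hg : DifferentiableAt ℂ g (u q)) (hu : HolAt u q) : HolAt (fun x => g (u x)) q :=
  hg.mdifferentiableAt.comp q hu

theorem X5_div {Y : Type} [TopologicalSpace Y] [ChartedSpace ℂ Y] {u v : Y → ℂ} (hu : Hol u)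
    (hv : Hol v) (h : ∀ q, v q ≠ 0) : Hol fun q => u q / v q := fun q => by
  simp only [div_eq_mul_inv]
  exact (hu q).mul (X5_comp (g := fun z => z⁻¹) (differentiableAt_inv (h q)) (hv q))

namespace Hyp

variable {s : ℝ} (H : Hyp s)

theorem X5_ae (h0 : 0 < s) : ∀ᵐ q ∂H.S.lam, H.y q ≠ 0 := by
  have hs : (s : ℂ) ^ 4 ≠ 0 := pow_ne_zero _ (by exact_mod_cast h0.ne')
  have h1 : {q | H.y q = 0}.Finite := by
    refine Finite.of_finite_image (f := fun q => (H.x q, H.y q)) ?_ H.inj.injOn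
    refine (((X5_fin ((s : ℂ) ^ 4)).union (X5_fin (((s : ℂ) ^ 4)⁻¹))).prod
      (finite_singleton (0 : ℂ))).subset ?_
    rintro _ ⟨q, hq, rfl⟩
    refine ⟨?_, hq⟩
    have e := H.eqn q
    rw [show H.y q = 0 from hq, PP, zero_pow two_ne_zero] at e
    rcases mul_eq_zero.1 e.symm with h | h
    · exact Or.inl (sub_eq_zero.1 h)
    · exact Or.inr (eq_inv_of_mul_eq_one_right (sub_eq_zero.1 h).symm)
  have h2 : ∀ q : H.S.Y, H.S.lam {q} = 0 := fun q => by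
    rw [H.S.area q {q} (measurableSet_singleton q)
      (singleton_subset_iff.2 (mem_chart_source ℂ q)), image_singleton, measure_singleton]
  rw [ae_iff]
  simp only [not_not]
  rw [← biUnion_of_singleton {q | H.y q = 0}]
  exact (measure_biUnion_null_iff h1.countable).2 fun q _ => h2 q

theorem X5_lp (h0 : 0 < s) {u : H.S.Y → ℂ} (hu : Hol u) {g : ℂ → ℂ} (hg : Measurable g)
    (h : ∀ q, H.y q ≠ 0 → ‖H.S.f q‖ * ‖u q‖ ^ 2 = ‖H.y q‖ ^ 2 * ‖g (H.x q)‖) {C : ℝ≥0∞}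
    (hC : C ≠ ⊤) (hb : ∫⁻ z, ‖g z‖ₑ ≤ C) :
    ∃ ξ : H.S.H, ξ ∈ H.S.hd.W ∧ ‖ξ‖ ≤ ((2 * C) ^ (1 / 2 : ℝ)).toReal ∧
      ∀ᵐ q ∂H.S.lam, ξ q = u q := by
  have h1 : eLpNorm u 2 H.S.lamf ≤ (2 * C) ^ (1 / 2 : ℝ) := by
    rw [eLpNorm_eq_lintegral_rpow_enorm_toReal two_ne_zero ENNReal.ofNat_ne_top, H.S.lintegral_lamf]
    refine ENNReal.rpow_le_rpow ?_ (by norm_num)
    calc _ = ∫⁻ q, ‖H.y q‖ₑ ^ 2 * ‖g (H.x q)‖ₑ ∂H.S.lam := by
          refine lintegral_congr_ae ((H.X5_ae h0).mono fun q hq => ?_)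
          have e := congrArg ENNReal.ofReal (h q hq)
          rw [ENNReal.ofReal_mul (norm_nonneg _), ENNReal.ofReal_mul (sq_nonneg _),
            ENNReal.ofReal_pow (norm_nonneg _), ENNReal.ofReal_pow (norm_nonneg _)] at e
          simpa only [ofReal_norm, ENNReal.toReal_ofNat, ENNReal.rpow_ofNat] using e
      _ = 2 * ∫⁻ z, ‖g z‖ₑ := H.lintegral_x h0 hg.enorm
      _ ≤ _ := by gcongr
  have h2 : (2 * C) ^ (1 / 2 : ℝ) ≠ ⊤ :=
    ENNReal.rpow_ne_top_of_nonneg (by norm_num) (ENNReal.mul_ne_top ENNReal.ofNat_ne_top hC)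
  have hm : MemLp u 2 H.S.lamf := ⟨hu.continuous.aestronglyMeasurable, h1.trans_lt h2.lt_top⟩
  refine ⟨hm.toLp u, H.S.mem_W hu hm.coeFn_toLp, ?_, H.S.ae_lamf.1 hm.coeFn_toLp⟩
  rw [Lp.norm_toLp]
  exact ENNReal.toReal_mono h2 h1

theorem X5_e (i : Fin 8) {q : H.S.Y} (hq : q ∈ (H.S.e i).source) :
    RDiffAt (H.S.e i) q ∧ ‖H.S.e i q‖ < 1 ∧ H.S.e i q ≠ 0 := by
  have h := (H.S.e i).map_source hq
  rw [H.S.e_target] at h
  exact ⟨(d2_of_hol ((coord_hol (H.S.e_hol i)).1 q hq).1).1, mem_ball_zero_iff.1 h.1, h.2⟩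

theorem X5_d_fin (i : Fin 8) (hi : i.val < 6) {q : H.S.Y} (hq : q ∈ (H.S.e i).source) :
    H.y q = H.r * d1 (H.S.e i) q := by
  have h : H.x =ᶠ[𝓝 q] fun p => xpt i + H.r * H.S.e i p :=
    eventually_of_mem ((H.S.e i).open_source.mem_nhds hq) fun p hp => (H.fin i hi p hp).1
  rw [← H.d1x, (d_congr h).1]
  have hg : HasDerivAt (fun z : ℂ => xpt i + H.r * z) (H.r : ℂ) (H.S.e i q) := by
    simpa using ((hasDerivAt_id (H.S.e i q)).const_mul (H.r : ℂ)).const_add (xpt i)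
  exact (d_hol_comp hg (H.X5_e i hq).1).2.1

theorem X5_d_inf (i : Fin 8) (hi : 6 ≤ i.val) {q : H.S.Y} (hq : q ∈ (H.S.e i).source) :
    d1 (H.S.e i) q * H.S.e i q ^ 2 = -(H.r * H.Yb i (H.S.e i q)) := by
  have hr : (H.r : ℂ) ≠ 0 := by exact_mod_cast H.r_pos.ne'
  have he := (H.X5_e i hq).2.2
  have h : H.x =ᶠ[𝓝 q] fun p => (H.r * H.S.e i p)⁻¹ :=
    eventually_of_mem ((H.S.e i).open_source.mem_nhds hq) fun p hp =>
      eq_inv_of_mul_eq_one_left (H.inf i hi p hp).1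
  have hg : HasDerivAt (fun z : ℂ => (H.r * z)⁻¹) (-(H.r : ℂ) / (H.r * H.S.e i q) ^ 2)
      (H.S.e i q) := by
    have := ((hasDerivAt_id (H.S.e i q)).const_mul (H.r : ℂ)).inv (mul_ne_zero hr he)
    rw [mul_one] at this
    exact this
  have e := (d_hol_comp hg (H.X5_e i hq).1).2.1
  rw [← (d_congr h).1, H.d1x] at e
  rw [← (H.inf i hi q hq).2, e]
  field_simp

theorem X5_ends (h1 : s < 1 / 2) (i : Fin 8) : ∃ c : ℝ, 0 < c ∧ ∀ᶠ q in H.S.endF i,
    c * ‖H.S.e i q‖ ^ (aa i - 1) * ‖d1 (H.S.e i) q‖ ≤ ‖H.x q ^ 2 + 1‖ ∧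
      c * ‖H.S.e i q‖ ^ (aa i - 1) * ‖-1 / (2 * (H.x q ^ 2 + 1))‖ ≤ 1 := by
  have hr := H.r_pos
  have hr' : H.r ≤ 1 / 4 := by linarith [H.r_le]
  obtain ⟨M, hM, hev⟩ : ∃ M : ℝ, 1 ≤ M ∧ ∀ᶠ q in H.S.endF i,
      q ∈ (H.S.e i).source ∧ ‖H.Yb i (H.S.e i q)‖ ≤ M := by
    refine ⟨‖H.Yb i 0‖ + 1, le_add_of_nonneg_left (norm_nonneg _),
      Eventually.and (mem_inf_of_right (mem_principal_self _)) ?_⟩
    have ht : Tendsto (H.S.e i) (H.S.endF i) (𝓝 0) := tendsto_comap.mono_left inf_le_left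
    have hc : ContinuousAt (H.Yb i) 0 :=
      (H.Yb_hol i).continuousOn.continuousAt (ball_mem_nhds 0 one_pos)
    exact ((hc.tendsto.comp ht).norm.eventually (gt_mem_nhds (lt_add_one _))).mono
      fun q hq => hq.le
  have hM0 : 0 < M := by linarith
  refine ⟨H.r ^ 2 / M, by positivity, hev.mono fun q ⟨hq, hY⟩ => ?_⟩
  obtain ⟨-, he1, he0⟩ := H.X5_e i hq
  have he0' : 0 < ‖H.S.e i q‖ := norm_pos_iff.2 he0
  have hw : 0 < ‖H.x q ^ 2 + 1‖ := norm_pos_iff.2 (H.w_ne q)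
  have hc : H.r ^ 2 / M ≤ H.r ^ 2 := div_le_self (sq_nonneg _) hM
  have hc0 : 0 < H.r ^ 2 / M := by positivity
  have hre : ‖(H.r : ℂ) * H.S.e i q‖ = H.r * ‖H.S.e i q‖ := by
    rw [norm_mul, Complex.norm_real, Real.norm_of_nonneg hr.le]
  have hre' : H.r * ‖H.S.e i q‖ ≤ 1 / 4 := by nlinarith
  rw [norm_div, norm_neg, norm_one, norm_mul, Complex.norm_two, mul_one_div,
    div_le_one (by positivity)]
  by_cases hi : i.val < 6
  · have hd : ‖d1 (H.S.e i) q‖ ≤ M / H.r := by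
      rw [le_div_iff₀ hr, mul_comm, ← Real.norm_of_nonneg hr.le, ← Complex.norm_real, ← norm_mul,
        ← H.X5_d_fin i hi hq, (H.fin i hi q hq).2]
      exact hY
    have hd' : H.r ^ 2 / M * ‖d1 (H.S.e i) q‖ ≤ H.r := by
      refine (mul_le_mul_of_nonneg_left hd hc0.le).trans (le_of_eq ?_)
      field_simp
    have hx := (H.fin i hi q hq).1
    by_cases hi' : i.val < 4
    · have ha : aa i - 1 = 1 := by fin_cases i <;> simp_all [aa]
      have hp : xpt i ^ 2 = -1 ∧ ‖xpt i‖ = 1 := by fin_cases i <;> simp_all [xpt]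
      have e : H.x q ^ 2 + 1 = H.r * H.S.e i q * (2 * xpt i + H.r * H.S.e i q) := by
        rw [hx]
        linear_combination hp.1
      have h2 : 1 ≤ ‖2 * xpt i + H.r * H.S.e i q‖ := by
        have := norm_sub_le (2 * xpt i + H.r * H.S.e i q) (H.r * H.S.e i q)
        rw [add_sub_cancel_right, norm_mul, hp.2, Complex.norm_two, hre] at this
        linarith
      have h3 : H.r * ‖H.S.e i q‖ ≤ ‖H.x q ^ 2 + 1‖ := by
        rw [e, norm_mul, hre]
        exact le_mul_of_one_le_right (by positivity) h2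
      rw [ha, pow_one]
      constructor
      · rw [mul_right_comm]
        exact (mul_le_mul_of_nonneg_right hd' he0'.le).trans h3
      · have : H.r ^ 2 / M ≤ H.r := by nlinarith
        nlinarith
    · have ha : aa i - 1 = 0 := by fin_cases i <;> simp_all [aa]
      have hp : xpt i = 0 := by fin_cases i <;> simp_all [xpt]
      rw [hp, zero_add] at hx
      have h2 : 1 / 2 ≤ ‖H.x q ^ 2 + 1‖ := by
        have := norm_sub_le (H.x q ^ 2 + 1) (H.x q ^ 2)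
        rw [add_sub_cancel_left, norm_one, norm_pow, hx, hre] at this
        rw [hx]
        nlinarith [mul_pos hr he0']
      rw [ha, pow_zero, mul_one]
      constructor <;> nlinarith
  · have hi' : 6 ≤ i.val := not_lt.1 hi
    have ha : aa i - 1 = 0 := by fin_cases i <;> simp_all [aa]
    have hx : ‖H.x q‖ * (H.r * ‖H.S.e i q‖) = 1 := by
      rw [← hre, ← norm_mul, (H.inf i hi' q hq).1, norm_one]
    have hd : ‖d1 (H.S.e i) q‖ * ‖H.S.e i q‖ ^ 2 ≤ H.r * M := by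
      rw [← norm_pow, ← norm_mul, H.X5_d_inf i hi' hq, norm_neg, norm_mul, Complex.norm_real,
        Real.norm_of_nonneg hr.le]
      exact mul_le_mul_of_nonneg_left hY hr.le
    have h2 : ‖H.x q‖ ^ 2 ≤ ‖H.x q ^ 2 + 1‖ + 1 := by
      have := norm_sub_le (H.x q ^ 2 + 1) 1
      rwa [add_sub_cancel_right, norm_one, norm_pow] at this
    have h3 : 4 ≤ ‖H.x q‖ := by nlinarith [norm_nonneg (H.x q)]
    have h4 : ‖d1 (H.S.e i) q‖ ≤ H.r ^ 3 * M * ‖H.x q‖ ^ 2 := by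
      calc _ = ‖d1 (H.S.e i) q‖ * (‖H.x q‖ * (H.r * ‖H.S.e i q‖)) ^ 2 := by
            rw [hx, one_pow, mul_one]
        _ = ‖d1 (H.S.e i) q‖ * ‖H.S.e i q‖ ^ 2 * (H.r ^ 2 * ‖H.x q‖ ^ 2) := by ring
        _ ≤ H.r * M * (H.r ^ 2 * ‖H.x q‖ ^ 2) := by gcongr
        _ = _ := by ring
    have h5 : H.r ^ 2 / M * ‖d1 (H.S.e i) q‖ ≤ H.r ^ 5 * ‖H.x q‖ ^ 2 := by
      refine (mul_le_mul_of_nonneg_left h4 hc0.le).trans (le_of_eq ?_)
      field_simp
    have h6 : H.r ^ 5 ≤ 1 / 2 := (pow_le_pow_left₀ hr.le hr' 5).trans (by norm_num)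
    have h7 := mul_le_mul_of_nonneg_right h6 (sq_nonneg ‖H.x q‖)
    have h8 : 16 ≤ ‖H.x q‖ ^ 2 := by nlinarith
    have h9 : H.r ^ 2 ≤ 1 := by nlinarith
    rw [ha, pow_zero, mul_one]
    constructor <;> linarith

end Hyp

/-- the two twisted holomorphic forms -/
theorem exists_xi : ∃ H₀ : ℝ, ∀ s : ℝ, 0 < s → s < 1 / 2 → ∀ H : Hyp s, ∃ ξp ξm : H.S.H,
    ξp ∈ H.S.hd.W ∧ ξm ∈ H.S.hd.W ∧ ‖ξp‖ * ‖ξm‖ ≤ H₀ ∧ Nonempty (H.S.FV aa ξp ξm) ∧
    ∀ᵐ q ∂H.S.lam, H.S.f q * ξp q * ξm q = H.x q * H.y q / (H.x q ^ 2 + 1) := by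
  obtain ⟨C, hC⟩ := plane_int2
  refine ⟨((2 * ∫⁻ z : ℂ, ‖1 / (z * (z ^ 2 + 1))‖ₑ) ^ (1 / 2 : ℝ)).toReal *
    ((2 * (C : ℝ≥0∞)) ^ (1 / 2 : ℝ)).toReal, fun s h0 h1 H => ?_⟩
  have hx2 : Hol fun q => H.x q ^ 2 := fun q =>
    X5_comp (g := fun z => z ^ 2) (by fun_prop) (H.x_hol q)
  have hw : Hol fun q => H.x q ^ 2 + 1 := fun q =>
    X5_comp (g := fun z => z ^ 2 + 1) (by fun_prop) (H.x_hol q)
  obtain ⟨ξp, p1, p2, p3⟩ := H.X5_lp h0 (X5_div H.y_hol H.S.f_hol H.S.f_ne)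
    (g := fun z => 1 / (z * (z ^ 2 + 1))) (by fun_prop) (fun q _ => by
      have := norm_pos_iff.2 (H.S.f_ne q)
      rw [← H.f_eq, norm_div, norm_div, norm_one]
      field_simp) plane_int1.ne le_rfl
  obtain ⟨ξm, m1, m2, m3⟩ := H.X5_lp h0 (X5_div hx2 H.S.f_hol H.S.f_ne)
    (g := fun z => z ^ 3 / ((z ^ 2 + 1) * PP s z)) (by unfold PP; fun_prop) (fun q hq => by
      have a1 := norm_pos_iff.2 (H.x_ne q)
      have a2 := norm_pos_iff.2 (H.w_ne q)
      have a3 := norm_pos_iff.2 hq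
      rw [← H.eqn, H.f_eq]
      simp only [norm_div, norm_mul, norm_pow]
      field_simp) ENNReal.coe_ne_top (hC s h0 h1)
  have key : ∀ᵐ q ∂H.S.lam, H.S.f q * ξp q * ξm q = H.x q * H.y q / (H.x q ^ 2 + 1) := by
    filter_upwards [p3, m3] with q a b
    have a1 := H.x_ne q
    have a2 := H.w_ne q
    rw [a, b, H.f_eq]
    field_simp
  have hg : ∀ q, HasDerivAt (fun z : ℂ => -1 / (2 * (z ^ 2 + 1))) (H.x q / (H.x q ^ 2 + 1) ^ 2)
      (H.x q) := fun q => by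
    have a2 := H.w_ne q
    have h := (hasDerivAt_const (H.x q) (-1 : ℂ)).div
      (((hasDerivAt_pow 2 (H.x q)).add_const 1).const_mul 2) (mul_ne_zero two_ne_zero a2)
    refine h.congr_deriv ?_
    simp only [Nat.cast_ofNat, Nat.add_one_sub_one, pow_one]
    field_simp
    ring
  refine ⟨ξp, ξm, p1, m1, mul_le_mul p2 m2 (norm_nonneg _) ENNReal.toReal_nonneg,
    ⟨⟨fun q => H.x q ^ 2 + 1, fun q => -1 / (2 * (H.x q ^ 2 + 1)), hw,
      fun q => X5_comp (hg q).differentiableAt (H.x_hol q), H.w_ne, ?_, H.X5_ends h1⟩⟩, key⟩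
  filter_upwards [key] with q hq
  have a2 := H.w_ne q
  rw [hq, (d_hol_comp (hg q) (d2_of_hol (H.x_hol q)).1).2.1, H.d1x]
  field_simp

end Pool.Agent.MP_e62289_ag

end

section

open Set Filter Topology Complex MeasureTheory Metric
open scoped Manifold ContDiff ComplexConjugate NNReal ENNReal

namespace Pool.Agent.MP_e62289_ag

theorem DD_simply {c ε L : ℝ} (h1 : 0 < c * L) (h2 : 0 < ε) : SimplyConnectedSpace (DD c ε L) := by
  have hs : StarConvex ℝ (0 : P2) (DD c ε L : Set P2) := by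
    intro t ht a b ha hb hab
    have hb1 : b ≤ 1 := by linarith
    have e : ∀ i, ‖(a • (0 : P2) + b • t) i‖ ≤ ‖t i‖ := fun i => by
      simp only [smul_zero, zero_add, Pi.smul_apply, norm_smul, Real.norm_of_nonneg hb]
      exact mul_le_of_le_one_left (norm_nonneg _) hb1
    refine ⟨(e 0).trans_lt ht.1, (e 1).trans_lt (ht.2.trans_le ?_)⟩
    have := e 0
    gcongr
  have : ContractibleSpace (DD c ε L : Set P2) := hs.contractibleSpace ⟨0, by
    constructor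
    · simpa using h1
    · simpa using h2⟩
  exact SimplyConnectedSpace.ofContractible (DD c ε L : Set P2)

variable {E : Type} [NormedAddCommGroup E] [NormedSpace ℂ E] [FiniteDimensional ℂ E]
  {B : Type} [EMetricSpace B] [ChartedSpace E B] [IsManifold 𝓘(ℂ, E) ω B]
  [IsManifold 𝓘(ℝ, E) ∞ B] [SimplyConnectedSpace B]

theorem core (k : KData E B) (d : DData k) (C : Family E B aa) (hC : C.Versal) : False := by
  obtain ⟨Cst, hCst, hmid⟩ := mid k d C hC
  obtain ⟨H₀, hxi⟩ := exists_xi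
  obtain ⟨c, ε₁, L₁, c0, c1, e1, l1, hpos⟩ := K_pos
  obtain ⟨ε₂, L₂, e2, -, hend⟩ := K_ends
  obtain ⟨I₀, L₃, i0, -, hnu⟩ := nu_lower
  obtain ⟨ε, e0, ee1, ee2⟩ : ∃ ε : ℝ, 0 < ε ∧ ε ≤ ε₁ ∧ ε ≤ ε₂ :=
    ⟨min ε₁ ε₂, lt_min e1 e2, min_le_left _ _, min_le_right _ _⟩
  obtain ⟨L, hL1, hL2, hL3, hL4⟩ : ∃ L : ℝ, L₁ ≤ L ∧ L₂ ≤ L ∧ L₃ ≤ L ∧
      (Cst * H₀ + 1) / (c * ε * I₀) ≤ L :=
    ⟨max (max L₁ L₂) (max L₃ ((Cst * H₀ + 1) / (c * ε * I₀))), by simp, by simp, by simp, by simp⟩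
  have hL : 1 ≤ L := l1.trans hL1
  have hs0 : 0 < Real.exp (-4 * L) := Real.exp_pos _
  have hs1 : Real.exp (-4 * L) < 1 / 2 := by
    have h1 : Real.exp (-4 * L) ≤ Real.exp (-4) := Real.exp_le_exp.2 (by linarith)
    have h2 : (4 : ℝ) + 1 ≤ Real.exp 4 := Real.add_one_le_exp 4
    have h3 : Real.exp (-4) * Real.exp 4 = 1 := by rw [← Real.exp_add]; simp
    nlinarith [Real.exp_pos (-4)]
  obtain ⟨H⟩ := exists_hyp hs0 hs1
  obtain ⟨ξp, ξm, hp, hm, hn, hfv, hprod⟩ := hxi _ hs0 hs1 H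
  obtain ⟨Φ, Φ1, Φ2, Φ3⟩ := hend L hL2 H
  have cL : 0 < c * L := by positivity
  let δ : H.S.Defo aa (DD c ε L) :=
    { g₀ := fun q => H.x q ^ 2 + 1
      g₁ := H.x
      hol₀ := (H.x_hol.pow (n := 2)).add mdifferentiable_const
      hol₁ := H.x_hol
      K := fun t q => KK L (t 0) (t 1) (H.x q) (H.y q)
      smooth := KK_smooth hL H
      holK := fun q => by
        unfold KK
        fun_prop
      pos := fun t ht q => by
        rw [(KK_d hL H _ _ q).1, (KK_d hL H _ _ q).2]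
        exact hpos L hL1 _ _ _ _ (H.eqn q) (H.x_ne q) (H.w_ne q) ht.1
          (ht.2.trans_le (by gcongr))
      r := 1
      r_pos := one_pos
      r_le := le_rfl
      Φ := Φ
      holΦ := fun i => (Φ1 i).mono (prod_mono_right (subset_univ _))
      endK := fun i t _ q hq => by
        rw [(KK_d hL H _ _ q).1, (KK_d hL H _ _ q).2, (Φ2 i t q hq.1).1, zero_mul]
        exact ⟨rfl, (Φ2 i t q hq.1).2⟩
      ord := fun i t ht => Φ3 i t ⟨ht.1.trans_le (by gcongr), ht.2.trans_le (by gcongr)⟩ }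
  have hmu : ∀ t q, δ.mu t q = muX L (t 0) (t 1) (H.x q) (H.y q) := fun t q => by
    change d2 (fun q => KK L (t 0) (t 1) (H.x q) (H.y q)) q / (H.x q ^ 2 + 1 + t 1 * H.x q +
      d1 (fun q => KK L (t 0) (t 1) (H.x q) (H.y q)) q) = _
    rw [(KK_d hL H _ _ q).1, (KK_d hL H _ _ q).2, muX]
  choose ν hν1 hν2 using fun q => nu_eq hL (y := H.y q) (H.x_ne q) (H.w_ne q)
  have key := hmid H.S ξp ξm hp hm hfv _ (DD_simply cL e0) δ (c * L) ε cL e0 (fun ζ hζ => by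
      rw [mem_ball_zero_iff] at hζ
      refine ⟨⟨?_, ?_⟩, ?_, ?_⟩
      · change ‖((c * L : ℝ) : ℂ) * ζ‖ < c * L
        rw [norm_mul, Complex.norm_real, Real.norm_of_nonneg cL.le]
        exact mul_lt_of_lt_one_right cL hζ
      · change ‖(0 : ℂ)‖ < _
        rw [norm_zero]
        positivity
      · change ‖(0 : ℂ)‖ < _
        rwa [norm_zero]
      · change ‖(ε : ℂ) * ζ‖ < ε * Real.exp (-‖(0 : ℂ)‖ / 2)
        rw [norm_mul, Complex.norm_real, Real.norm_of_nonneg e0.le]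
        simpa using mul_lt_of_lt_one_right e0 hζ)
    (fun q => by simp [hmu, muX, K2]) ν (fun q => by
      simp only [hmu]
      exact hν1 q)
  have e : ∫ q, ν q * (H.S.f q * ξp q * ξm q) ∂H.S.lam = ∫ q, nuX L (H.x q) (H.y q) ∂H.S.lam :=
    integral_congr_ae (hprod.mono fun q hq => by
      change ν q * _ = nuX L _ _
      rw [hq, hν2])
  rw [e] at key
  have h1 := hnu L hL3 H
  have h2 : Cst * (‖ξp‖ * ‖ξm‖) ≤ Cst * H₀ := mul_le_mul_of_nonneg_left hn hCst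
  have h3 : c * L * ε * I₀ ≤ c * L * ε * ‖∫ q, nuX L (H.x q) (H.y q) ∂H.S.lam‖ :=
    mul_le_mul_of_nonneg_left h1 (by positivity)
  rw [div_le_iff₀ (by positivity)] at hL4
  nlinarith

end Pool.Agent.MP_e62289_ag

end
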