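import Pool.Agent.Mg.Fe62289.Gcfc865

section

open Set Filter Topology Complex MeasureTheory Metric
open scoped Manifold ContDiff ComplexConjugate NNReal ENNReal

namespace Pool.Agent.MP_e62289_ag

/-- differentiation under the integral for jointly continuous integrands -/
theorem A1_param {F F' : ℝ → ℝ → ℝ} {R r : ℝ} (hr : r ∈ Ioo (-R) R)
    (hF : ∀ s ∈ Ioo (-R) R, Continuous (F s))
    (hF' : ContinuousOn (fun p : ℝ × ℝ => F' p.1 p.2) (Ioo (-R) R ×ˢ univ))
    (hd : ∀ s ∈ Ioo (-R) R, ∀ θ, HasDerivAt (fun s => F s θ) (F' s θ) s) :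
    HasDerivAt (fun s => ∫ θ in (0 : ℝ)..2 * Real.pi, F s θ)
      (∫ θ in (0 : ℝ)..2 * Real.pi, F' r θ) r := by
  obtain ⟨K, hK, hrK, hKs⟩ := exists_compact_subset isOpen_Ioo hr
  have hc : IsCompact (K ×ˢ uIcc (0 : ℝ) (2 * Real.pi)) := hK.prod isCompact_uIcc
  obtain ⟨C, hC⟩ := hc.exists_bound_of_continuousOn
    (hF'.mono (prod_mono hKs (subset_univ _)))
  have hr' : Continuous (F' r) := by
    rw [← continuousOn_univ]
    exact hF'.comp (f := fun θ : ℝ => (r, θ)) (by fun_prop) fun θ _ => ⟨hr, mem_univ _⟩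
  refine (intervalIntegral.hasDerivAt_integral_of_dominated_loc_of_deriv_le (bound := fun _ => C)
    (mem_interior_iff_mem_nhds.1 hrK) ?_ ((hF r hr).intervalIntegrable _ _)
    hr'.aestronglyMeasurable ?_ intervalIntegrable_const ?_).2
  · filter_upwards [isOpen_Ioo.mem_nhds hr] with s hs
    exact (hF s hs).aestronglyMeasurable
  · exact ae_of_all _ fun θ hθ s hs => hC (s, θ) ⟨hs, uIoc_subset_uIcc hθ⟩
  · exact ae_of_all _ fun θ _ s hs => hd s (hKs hs) θ

theorem A1_mem {z : ℂ} {R s : ℝ} (hs : s ∈ Ioo (-R) R) (θ : ℝ) : circleMap z s θ ∈ ball z R := by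
  rw [mem_ball, mem_sphere.1 (circleMap_mem_sphere' z s θ)]
  exact abs_lt.2 hs

theorem A1_cont (z : ℂ) : Continuous fun p : ℝ × ℝ => circleMap z p.1 p.2 := by
  unfold circleMap
  fun_prop

theorem A1_radial (z : ℂ) (s θ : ℝ) :
    HasDerivAt (fun s : ℝ => circleMap z s θ) (circleMap 0 1 θ) s := by
  have h := ((Complex.ofRealCLM.hasDerivAt (x := s)).mul_const (exp (θ * I))).const_add z
  simpa [circleMap] using h

theorem A1_smul (s θ : ℝ) : circleMap 0 s θ = s • circleMap 0 1 θ := by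
  simp [circleMap]

theorem A1_anti (B : ℂ →L[ℝ] ℂ →L[ℝ] ℝ) (θ : ℝ) :
    B (circleMap 0 1 θ) (circleMap 0 1 θ * I) - B (circleMap 0 1 θ * I) (circleMap 0 1 θ) =
      B 1 I - B I 1 := by
  have h1 : circleMap 0 1 θ = Real.cos θ • (1 : ℂ) + Real.sin θ • I := by
    simp [circleMap, exp_mul_I]
  have h2 : circleMap 0 1 θ * I = (-Real.sin θ) • (1 : ℂ) + Real.cos θ • I := by
    rw [h1]
    simp only [real_smul, ofReal_neg]
    linear_combination (Real.sin θ : ℂ) * I_mul_I
  rw [h2, h1]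
  simp only [map_add, map_smul, add_apply, smul_apply,
    smul_eq_mul]
  linear_combination (B 1 I - B I 1) * Real.sin_sq_add_cos_sq θ

theorem A1_green {β : ℂ → ℂ →L[ℝ] ℝ} {z : ℂ} {R : ℝ} (hβ : ContDiffOn ℝ 1 β (ball z R))
    {r : ℝ} (hr : r ∈ Ioo (-R) R) :
    HasDerivAt (fun s : ℝ => ∫ θ in (0 : ℝ)..2 * Real.pi, β (circleMap z s θ) (circleMap 0 s θ * I))
      (∫ θ in (0 : ℝ)..2 * Real.pi,
        r * (fderiv ℝ β (circleMap z r θ) 1 I - fderiv ℝ β (circleMap z r θ) I 1)) r := by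
  have hc : ContinuousOn (fun p : ℝ × ℝ => β (circleMap z p.1 p.2)) (Ioo (-R) R ×ˢ univ) :=
    hβ.continuousOn.comp (A1_cont z).continuousOn fun p hp => A1_mem hp.1 _
  have hc' : ContinuousOn (fun p : ℝ × ℝ => fderiv ℝ β (circleMap z p.1 p.2))
      (Ioo (-R) R ×ˢ univ) :=
    (hβ.continuousOn_fderiv_of_isOpen isOpen_ball le_rfl).comp (A1_cont z).continuousOn
      fun p hp => A1_mem hp.1 _
  have hd : ∀ s ∈ Ioo (-R) R, ∀ θ,
      HasFDerivAt β (fderiv ℝ β (circleMap z s θ)) (circleMap z s θ) := fun s hs θ =>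
    ((hβ.differentiableOn one_ne_zero).differentiableAt
      (isOpen_ball.mem_nhds (A1_mem hs θ))).hasFDerivAt
  have sec : ∀ {E : Type} [TopologicalSpace E] {G : ℝ × ℝ → E},
      ContinuousOn G (Ioo (-R) R ×ˢ univ) → ∀ s ∈ Ioo (-R) R, Continuous fun θ => G (s, θ) := by
    intro E _ G hG s hs
    rw [← continuousOn_univ]
    exact hG.comp (f := fun θ : ℝ => (s, θ)) (by fun_prop) fun θ _ => ⟨hs, mem_univ _⟩
  have e1 : Continuous fun p : ℝ × ℝ => circleMap 0 1 p.2 :=
    (continuous_circleMap 0 1).comp continuous_snd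
  have key := A1_param (F := fun s θ => β (circleMap z s θ) (circleMap 0 s θ * I))
    (F' := fun s θ => fderiv ℝ β (circleMap z s θ) (circleMap 0 1 θ) (circleMap 0 s θ * I) +
      β (circleMap z s θ) (circleMap 0 1 θ * I)) hr
    (fun s hs => (sec hc s hs).clm_apply ((continuous_circleMap 0 s).mul continuous_const))
    (((hc'.clm_apply e1.continuousOn).clm_apply
      ((A1_cont 0).mul continuous_const).continuousOn).add
      (hc.clm_apply (e1.mul continuous_const).continuousOn))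
    (fun s hs θ => ((hd s hs θ).comp_hasDerivAt s (A1_radial z s θ)).clm_apply
      ((A1_radial 0 s θ).mul_const I))
  convert key using 1
  have c1 := sec hc r hr
  have c2 := sec hc' r hr
  have c3 := continuous_circleMap 0 1
  have c4 := continuous_circleMap 0 r
  have cG : Continuous fun θ : ℝ =>
      fderiv ℝ β (circleMap z r θ) (circleMap 0 r θ * I) (circleMap 0 1 θ) +
        β (circleMap z r θ) (circleMap 0 1 θ * I) :=
    ((c2.clm_apply (c4.mul continuous_const)).clm_apply c3).add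
      (c1.clm_apply (c3.mul continuous_const))
  have hz := intervalIntegral.integral_eq_sub_of_hasDerivAt (a := 0) (b := 2 * Real.pi)
    (f := fun θ => β (circleMap z r θ) (circleMap 0 1 θ))
    (fun θ _ => ((hd r hr θ).comp_hasDerivAt θ (hasDerivAt_circleMap z r θ)).clm_apply
      (hasDerivAt_circleMap 0 1 θ)) (cG.intervalIntegrable _ _)
  have p1 : circleMap z r (2 * Real.pi) = circleMap z r 0 := by
    simpa using periodic_circleMap z r 0
  have p2 : circleMap 0 1 (2 * Real.pi) = circleMap 0 1 0 := by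
    simpa using periodic_circleMap 0 1 0
  rw [p1, p2, sub_self] at hz
  have cH : Continuous fun θ : ℝ =>
      r * (fderiv ℝ β (circleMap z r θ) 1 I - fderiv ℝ β (circleMap z r θ) I 1) :=
    continuous_const.mul (((c2.clm_apply continuous_const).clm_apply continuous_const).sub
      ((c2.clm_apply continuous_const).clm_apply continuous_const))
  have ha := intervalIntegral.integral_add (μ := volume)
    (cH.intervalIntegrable 0 (2 * Real.pi)) (cG.intervalIntegrable 0 (2 * Real.pi))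
  simp only [Function.comp_apply] at hz
  rw [hz, add_zero] at ha
  rw [← ha]
  refine intervalIntegral.integral_congr fun θ _ => ?_
  have := A1_anti (fderiv ℝ β (circleMap z r θ)) θ
  simp only [A1_smul r θ, smul_mul_assoc, map_smul, smul_apply, smul_eq_mul]
  linear_combination (-r) * this

/-- the formula of Green on discs, in differentiated form -/
theorem green_circle {β : ℂ → ℂ →L[ℝ] ℝ} {z : ℂ} {R : ℝ} (hβ : ContDiffOn ℝ 1 β (ball z R))
    {r : ℝ} (hr : 0 < r) (hR : r < R) :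
    HasDerivAt (fun s : ℝ => ∫ θ in (0 : ℝ)..2 * Real.pi, β (circleMap z s θ) (circleMap 0 s θ * I))
      (∫ θ in (0 : ℝ)..2 * Real.pi,
        r * (fderiv ℝ β (circleMap z r θ) 1 I - fderiv ℝ β (circleMap z r θ) I 1)) r :=
  A1_green hβ ⟨by linarith, hR⟩

/-- the Laplacian -/
noncomputable def lap (w : ℂ → ℝ) (z : ℂ) : ℝ :=
  fderiv ℝ (fun z => fderiv ℝ w z 1) z 1 + fderiv ℝ (fun z => fderiv ℝ w z I) z I

/-- the rotated gradient -/
noncomputable def A1_rot (w : ℂ → ℝ) (y : ℂ) : ℂ →L[ℝ] ℝ :=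
  (fderiv ℝ w y).comp (-(ContinuousLinearMap.mul ℝ ℂ I))

theorem A1_rot_apply (w : ℂ → ℝ) (y v : ℂ) : A1_rot w y v = fderiv ℝ w y (-(I * v)) := rfl

theorem A1_curl {w : ℂ → ℝ} {y : ℂ} (h : DifferentiableAt ℝ (fderiv ℝ w) y) :
    fderiv ℝ (A1_rot w) y 1 I - fderiv ℝ (A1_rot w) y I 1 = lap w y := by
  have h1 : HasFDerivAt (A1_rot w) _ y :=
    h.hasFDerivAt.clm_comp (hasFDerivAt_const (-(ContinuousLinearMap.mul ℝ ℂ I)) y)
  have h2 : ∀ v : ℂ, HasFDerivAt (fun z => fderiv ℝ w z v) _ y := fun v =>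
    h.hasFDerivAt.clm_apply (hasFDerivAt_const v y)
  rw [lap, h1.fderiv, (h2 1).fderiv, (h2 I).fderiv]
  simp

/-- sub-mean value inequality for `Δ w ≥ - c` -/
theorem sub_mean {w : ℂ → ℝ} {z : ℂ} {R c : ℝ} (hw : ContDiffOn ℝ 2 w (ball z R))
    {r : ℝ} (hr : 0 < r) (hR : r < R) (hc : ∀ y ∈ closedBall z r, -c ≤ lap w y) :
    2 * Real.pi * w z ≤ (∫ θ in (0 : ℝ)..2 * Real.pi, w (circleMap z r θ)) +
      2 * Real.pi * (c * r ^ 2 / 4) := by
  have h1 : ContDiffOn ℝ 1 (fderiv ℝ w) (ball z R) :=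
    hw.fderiv_of_isOpen isOpen_ball (by norm_num)
  have hβ : ContDiffOn ℝ 1 (A1_rot w) (ball z R) := h1.clm_comp contDiffOn_const
  have hsub : Icc 0 r ⊆ Ioo (-R) R := fun s hs => ⟨by linarith [hs.1], hs.2.trans_lt hR⟩
  have hpi : (0 : ℝ) ≤ 2 * Real.pi := by positivity
  -- the circulation
  obtain ⟨J, hJ⟩ : ∃ J : ℝ → ℝ, J = fun s : ℝ =>
    ∫ θ in (0 : ℝ)..2 * Real.pi, fderiv ℝ w (circleMap z s θ) (circleMap 0 1 θ) := ⟨_, rfl⟩
  have hJ' : (fun s : ℝ => ∫ θ in (0 : ℝ)..2 * Real.pi,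
      A1_rot w (circleMap z s θ) (circleMap 0 s θ * I)) = fun s => s * J s := by
    funext s
    rw [hJ, ← intervalIntegral.integral_const_mul]
    refine intervalIntegral.integral_congr fun θ _ => ?_
    have : -(I * (circleMap 0 s θ * I)) = s • circleMap 0 1 θ := by
      rw [← A1_smul]
      linear_combination (-circleMap 0 s θ) * I_mul_I
    simp only [A1_rot_apply, this, map_smul, smul_eq_mul]
  have hI : ∀ s ∈ Icc 0 r, ∃ D, HasDerivAt (fun s => s * J s + Real.pi * c * s ^ 2) D s ∧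
      0 ≤ D := by
    intro s hs
    have hg := A1_green hβ (hsub hs)
    rw [hJ'] at hg
    refine ⟨_, hg.add (((hasDerivAt_id s).pow 2).const_mul (Real.pi * c)), ?_⟩
    have hcont : Continuous fun θ => fderiv ℝ (A1_rot w) (circleMap z s θ) := by
      rw [← continuousOn_univ]
      exact (hβ.continuousOn_fderiv_of_isOpen isOpen_ball le_rfl).comp
        (continuous_circleMap z s).continuousOn fun θ _ => A1_mem (hsub hs) θ
    have hle := intervalIntegral.integral_mono_on (μ := volume) hpi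
      (intervalIntegrable_const (c := s * -c))
      ((continuous_const.mul (((hcont.clm_apply continuous_const).clm_apply continuous_const).sub
        ((hcont.clm_apply continuous_const).clm_apply continuous_const))).intervalIntegrable _ _)
      (g := fun θ => s * (fderiv ℝ (A1_rot w) (circleMap z s θ) 1 I -
        fderiv ℝ (A1_rot w) (circleMap z s θ) I 1)) fun θ _ => by
        rw [A1_curl ((h1.differentiableOn one_ne_zero).differentiableAt
          (isOpen_ball.mem_nhds (A1_mem (hsub hs) θ)))]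
        exact mul_le_mul_of_nonneg_left
          (hc _ (closedBall_subset_closedBall hs.2 (circleMap_mem_closedBall z hs.1 θ))) hs.1
    simp only [intervalIntegral.integral_const, sub_zero, smul_eq_mul] at hle
    simp only [id, Nat.cast_ofNat, Nat.add_one_sub_one, pow_one, mul_one]
    linarith
  have mono : ∀ {f : ℝ → ℝ}, (∀ s ∈ Icc 0 r, ∃ D, HasDerivAt f D s ∧ (0 < s → 0 ≤ D)) →
      MonotoneOn f (Icc 0 r) := by
    intro f hf
    refine monotoneOn_of_deriv_nonneg (convex_Icc 0 r)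
      (fun s hs => (hf s hs).choose_spec.1.continuousAt.continuousWithinAt)
      (fun s hs => (hf s (interior_subset hs)).choose_spec.1.differentiableAt.differentiableWithinAt)
      fun s hs => ?_
    obtain ⟨D, hD, h0⟩ := hf s (interior_subset hs)
    rw [interior_Icc] at hs
    rw [hD.deriv]
    exact h0 hs.1
  have m1 := mono fun s hs => (hI s hs).imp fun D hD => ⟨hD.1, fun _ => hD.2⟩
  have hM : ∀ s ∈ Icc 0 r, ∃ D, HasDerivAt (fun s => (∫ θ in (0 : ℝ)..2 * Real.pi,
      w (circleMap z s θ)) + Real.pi * c / 2 * s ^ 2) D s ∧ (0 < s → 0 ≤ D) := by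
    intro s hs
    have hg := A1_param (F := fun s θ => w (circleMap z s θ))
      (F' := fun s θ => fderiv ℝ w (circleMap z s θ) (circleMap 0 1 θ)) (hsub hs)
      (fun s hs => by
        rw [← continuousOn_univ]
        exact hw.continuousOn.comp (continuous_circleMap z s).continuousOn
          fun θ _ => A1_mem hs θ)
      ((h1.continuousOn.comp (A1_cont z).continuousOn fun p hp => A1_mem hp.1 _).clm_apply
        ((continuous_circleMap 0 1).comp continuous_snd).continuousOn)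
      (fun s hs θ => ((hw.differentiableOn two_ne_zero).differentiableAt
        (isOpen_ball.mem_nhds (A1_mem hs θ))).hasFDerivAt.comp_hasDerivAt s (A1_radial z s θ))
    refine ⟨_, hg.add (((hasDerivAt_id s).pow 2).const_mul (Real.pi * c / 2)), fun h0 => ?_⟩
    have := m1 (left_mem_Icc.2 hr.le) hs hs.1
    have e : (∫ θ in (0 : ℝ)..2 * Real.pi, fderiv ℝ w (circleMap z s θ) (circleMap 0 1 θ)) =
        J s := by rw [hJ]
    simp only [id, Nat.cast_ofNat, Nat.add_one_sub_one, pow_one, mul_one, e]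
    simp only [zero_mul, ne_eq, OfNat.ofNat_ne_zero, not_false_eq_true, zero_pow, mul_zero,
      add_zero] at this
    refine le_of_mul_le_mul_left ?_ h0
    nlinarith
  have m2 := mono hM (left_mem_Icc.2 hr.le) (right_mem_Icc.2 hr.le) hr.le
  simp only [circleMap_zero_radius, Function.const_apply, intervalIntegral.integral_const,
    sub_zero, smul_eq_mul] at m2
  linarith

end Pool.Agent.MP_e62289_ag

end

section

open Set Filter Topology Complex MeasureTheory Metric
open scoped Manifold ContDiff ComplexConjugate NNReal ENNReal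

namespace Pool.Agent.MP_e62289_ag

/-- the inequality of Cauchy and Schwarz on a circle -/
theorem A2a_cs {f : ℝ → ℝ} (hf : Continuous f) :
    (∫ θ in (0 : ℝ)..2 * Real.pi, f θ) ^ 2 ≤
      2 * Real.pi * ∫ θ in (0 : ℝ)..2 * Real.pi, f θ ^ 2 := by
  have hπ : 0 < 2 * Real.pi := by positivity
  obtain ⟨m, hm⟩ : ∃ m : ℝ, (∫ θ in (0 : ℝ)..2 * Real.pi, f θ) = 2 * Real.pi * m :=
    ⟨(∫ θ in (0 : ℝ)..2 * Real.pi, f θ) / (2 * Real.pi), by field_simp⟩
  have h1 : (∫ θ in (0 : ℝ)..2 * Real.pi, (2 * m * f θ - m ^ 2)) ≤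
      ∫ θ in (0 : ℝ)..2 * Real.pi, f θ ^ 2 :=
    intervalIntegral.integral_mono_on hπ.le (Continuous.intervalIntegrable (by fun_prop) _ _)
      (Continuous.intervalIntegrable (by fun_prop) _ _)
      fun θ _ => by nlinarith [sq_nonneg (f θ - m)]
  rw [intervalIntegral.integral_sub (Continuous.intervalIntegrable (by fun_prop) _ _)
    (Continuous.intervalIntegrable (by fun_prop) _ _), intervalIntegral.integral_const_mul,
    intervalIntegral.integral_const, hm, smul_eq_mul, sub_zero] at h1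
  rw [hm]
  nlinarith [mul_le_mul_of_nonneg_left h1 hπ.le]

/-- the differential inequality `J ^ 2 ≤ K s J'` -/
theorem A2a_ode {J a : ℝ → ℝ} {r R K : ℝ} (hr : 0 < r) (hR : r < R) (hK : 0 ≤ K)
    (hJ : ∀ s ∈ Ico r R, HasDerivAt J (a s) s) (ha : ∀ s ∈ Ico r R, 0 ≤ a s)
    (h : ∀ s ∈ Ico r R, J s ^ 2 ≤ K * s * a s) : J r ≤ K / Real.log (R / r) := by
  have hL : 0 < Real.log (R / r) := Real.log_pos ((one_lt_div hr).2 hR)
  rcases le_or_gt (J r) 0 with h0 | h0
  · exact h0.trans (div_nonneg hK hL.le)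
  have hc : ContinuousOn J (Ico r R) := fun s hs => (hJ s hs).continuousAt.continuousWithinAt
  have hm : MonotoneOn J (Ico r R) := by
    refine monotoneOn_of_deriv_nonneg (convex_Ico r R) hc (fun s hs => ?_) fun s hs => ?_
    · exact (hJ s (interior_subset hs)).differentiableAt.differentiableWithinAt
    · rw [(hJ s (interior_subset hs)).deriv]
      exact ha s (interior_subset hs)
  have hp : ∀ s ∈ Ico r R, 0 < J s := fun s hs => h0.trans_le (hm ⟨le_rfl, hR⟩ hs hs.1)
  have hg : ∀ s ∈ Ico r R, HasDerivAt (fun s => -(K * (J s)⁻¹) - Real.log s)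
      (-(K * (-a s / J s ^ 2)) - s⁻¹) s := fun s hs =>
    (((hJ s hs).inv (hp s hs).ne').const_mul K).neg.sub
      (Real.hasDerivAt_log (hr.trans_le hs.1).ne')
  have hg' : MonotoneOn (fun s => -(K * (J s)⁻¹) - Real.log s) (Ico r R) := by
    refine monotoneOn_of_deriv_nonneg (convex_Ico r R)
      (fun s hs => (hg s hs).continuousAt.continuousWithinAt) (fun s hs => ?_) fun s hs => ?_
    · exact (hg s (interior_subset hs)).differentiableAt.differentiableWithinAt
    · have hs' := interior_subset hs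
      have hs0 := hr.trans_le hs'.1
      have hJ0 := hp s hs'
      rw [(hg s hs').deriv, show -(K * (-a s / J s ^ 2)) - s⁻¹ =
        (K * s * a s - J s ^ 2) / (s * J s ^ 2) by field_simp]
      exact div_nonneg (sub_nonneg.2 (h s hs')) (by positivity)
  have h1 : ∀ s ∈ Ioo r R, Real.log s ≤ K * (J r)⁻¹ + Real.log r := by
    intro s hs
    have h2 := hg' ⟨le_rfl, hR⟩ ⟨hs.1.le, hs.2⟩ hs.1.le
    have h3 : 0 ≤ K * (J s)⁻¹ := mul_nonneg hK (inv_nonneg.2 (hp s ⟨hs.1.le, hs.2⟩).le)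
    simp only at h2
    linarith
  have h2 : Real.log R ≤ K * (J r)⁻¹ + Real.log r := by
    have ht : Tendsto Real.log (𝓝[<] R) (𝓝 (Real.log R)) :=
      (Real.continuousAt_log (hr.trans hR).ne').tendsto.mono_left nhdsWithin_le_nhds
    exact le_of_tendsto ht (mem_of_superset (Ioo_mem_nhdsLT hR) h1)
  rw [le_div_iff₀ hL, Real.log_div (hr.trans hR).ne' hr.ne']
  have h3 : J r * (K * (J r)⁻¹) = K := by field_simp
  nlinarith [mul_le_mul_of_nonneg_left h2 h0.le]

/-- area bound from a bounded primitive -/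
theorem area_le {w : ℂ → ℝ} {β : ℂ → ℂ →L[ℝ] ℝ} {z : ℂ} {R C : ℝ}
    (hw : ContinuousOn w (ball z R)) (hβ : ContDiffOn ℝ 1 β (ball z R))
    (h0 : ∀ y ∈ ball z R, 0 ≤ w y) (hb : ∀ y ∈ ball z R, ∀ v, |β y v| ≤ C * √(w y) * ‖v‖)
    (hd : ∀ y ∈ ball z R, fderiv ℝ β y 1 I - fderiv ℝ β y I 1 = w y)
    {r : ℝ} (hr : 0 < r) (hR : r < R) :
    (∫ s in (0 : ℝ)..r, ∫ θ in (0 : ℝ)..2 * Real.pi, s * w (circleMap z s θ)) ≤
      2 * Real.pi * C ^ 2 / Real.log (R / r) := by
  have hπ : 0 < 2 * Real.pi := by positivity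
  have hmem : ∀ {s : ℝ}, 0 ≤ s → s < R → ∀ θ, circleMap z s θ ∈ ball z R := fun hs hs' θ =>
    closedBall_subset_ball hs' (circleMap_mem_closedBall z hs θ)
  set J : ℝ → ℝ := fun s : ℝ => ∫ θ in (0 : ℝ)..2 * Real.pi,
    β (circleMap z s θ) (circleMap 0 s θ * I) with hJ
  set a : ℝ → ℝ := fun s : ℝ => ∫ θ in (0 : ℝ)..2 * Real.pi, s * w (circleMap z s θ) with ha
  have hder : ∀ s, 0 < s → s < R → HasDerivAt J (a s) s := by
    intro s hs hs'
    have := green_circle hβ hs hs'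
    simp only [hd _ (hmem hs.le hs' _)] at this
    exact this
  have hcl : Continuous fun p : ℝ × ℝ => circleMap z (max 0 (min p.1 r)) p.2 := by
    unfold circleMap
    fun_prop
  have hcl' : ∀ p : ℝ × ℝ, circleMap z (max 0 (min p.1 r)) p.2 ∈ ball z R := fun p =>
    hmem (le_max_left _ _) ((max_le hr.le (min_le_right p.1 r)).trans_lt hR) _
  have hac : ContinuousOn a (Icc 0 r) := by
    have h2 : Continuous fun s : ℝ => ∫ θ in (0 : ℝ)..2 * Real.pi,
        s * w (circleMap z (max 0 (min s r)) θ) :=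
      intervalIntegral.continuous_parametric_intervalIntegral_of_continuous'
        (f := fun s θ => s * w (circleMap z (max 0 (min s r)) θ))
        (continuous_fst.mul (hw.comp_continuous hcl hcl')) _ _
    refine h2.continuousOn.congr fun s hs => ?_
    simp only [ha, min_eq_left hs.2, max_eq_right hs.1]
  have hJc : ContinuousOn J (Icc 0 r) := by
    have h1 : Continuous fun p : ℝ × ℝ => circleMap 0 p.1 p.2 * I := by
      unfold circleMap
      fun_prop
    have h2 : Continuous fun s : ℝ => ∫ θ in (0 : ℝ)..2 * Real.pi,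
        β (circleMap z (max 0 (min s r)) θ) (circleMap 0 s θ * I) :=
      intervalIntegral.continuous_parametric_intervalIntegral_of_continuous'
        (f := fun s θ => β (circleMap z (max 0 (min s r)) θ) (circleMap 0 s θ * I))
        ((hβ.continuousOn.comp_continuous hcl hcl').clm_apply h1) _ _
    refine h2.continuousOn.congr fun s hs => ?_
    simp only [hJ, min_eq_left hs.2, max_eq_right hs.1]
  have hFTC : ∫ s in (0 : ℝ)..r, a s = J r - J 0 :=
    intervalIntegral.integral_eq_sub_of_hasDerivAt_of_le hr.le hJc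
      (fun s hs => hder s hs.1 (hs.2.trans hR))
      (ContinuousOn.intervalIntegrable (by rwa [uIcc_of_le hr.le]))
  have hJ0 : J 0 = 0 := by simp [hJ]
  rw [hFTC, hJ0, sub_zero]
  refine A2a_ode (a := a) hr hR (by positivity) (fun s hs => hder s (hr.trans_le hs.1) hs.2)
    (fun s hs => ?_) fun s hs => ?_
  · have hs0 := hr.trans_le hs.1
    exact intervalIntegral.integral_nonneg hπ.le
      fun θ _ => mul_nonneg hs0.le (h0 _ (hmem hs0.le hs.2 θ))
  · have hs0 := hr.trans_le hs.1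
    have hc1 : Continuous fun θ : ℝ => β (circleMap z s θ) (circleMap 0 s θ * I) :=
      (hβ.continuousOn.comp_continuous (continuous_circleMap z s)
        (hmem hs0.le hs.2)).clm_apply ((continuous_circleMap 0 s).mul continuous_const)
    have hc2 : Continuous fun θ : ℝ => w (circleMap z s θ) :=
      hw.comp_continuous (continuous_circleMap z s) (hmem hs0.le hs.2)
    refine (A2a_cs hc1).trans ?_
    rw [show 2 * Real.pi * C ^ 2 * s * a s = 2 * Real.pi * (C ^ 2 * s * a s) by ring]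
    refine mul_le_mul_of_nonneg_left ?_ hπ.le
    simp only [ha]
    rw [← intervalIntegral.integral_const_mul]
    refine intervalIntegral.integral_mono_on hπ.le ((hc1.pow 2).intervalIntegrable _ _)
      ((continuous_const.mul (continuous_const.mul hc2)).intervalIntegrable _ _) fun θ _ => ?_
    have h1 := hb _ (hmem hs0.le hs.2 θ) (circleMap 0 s θ * I)
    rw [norm_mul, norm_I, mul_one, norm_circleMap_zero, abs_of_pos hs0] at h1
    have h2 := pow_le_pow_left₀ (abs_nonneg _) h1 2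
    rw [sq_abs, mul_pow, mul_pow, Real.sq_sqrt (h0 _ (hmem hs0.le hs.2 θ))] at h2
    exact h2.trans_eq (by ring)

end Pool.Agent.MP_e62289_ag

end

section

open Set Filter Topology Complex MeasureTheory Metric
open scoped Manifold ContDiff ComplexConjugate NNReal ENNReal

namespace Pool.Agent.MP_e62289_ag

/-- a lower bound for the means on circles gives a lower bound for the area -/
theorem A2b_area {w : ℂ → ℝ} {z : ℂ} {ρ m : ℝ} (hρ : 0 < ρ) (hw : ContinuousOn w (closedBall z ρ))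
    (h : ∀ s, 0 < s → s ≤ ρ → m ≤ ∫ θ in (0 : ℝ)..2 * Real.pi, w (circleMap z s θ)) :
    m * ρ ^ 2 / 2 ≤ ∫ s in (0 : ℝ)..ρ, ∫ θ in (0 : ℝ)..2 * Real.pi, s * w (circleMap z s θ) := by
  have h1 : Continuous fun p : ℝ × ℝ => w (circleMap z (max 0 (min p.1 ρ)) p.2) := by
    refine hw.comp_continuous (by unfold circleMap; fun_prop) fun p => ?_
    refine closedBall_subset_closedBall (max_le hρ.le (min_le_right p.1 ρ))
      (circleMap_mem_closedBall z (le_max_left _ _) _)
  have h2 : Continuous fun s : ℝ => ∫ θ in (0 : ℝ)..2 * Real.pi,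
      s * w (circleMap z (max 0 (min s ρ)) θ) :=
    intervalIntegral.continuous_parametric_intervalIntegral_of_continuous'
      (f := fun s θ => s * w (circleMap z (max 0 (min s ρ)) θ)) (continuous_fst.mul h1) _ _
  have h3 : ContinuousOn (fun s : ℝ => ∫ θ in (0 : ℝ)..2 * Real.pi, s * w (circleMap z s θ))
      (uIcc 0 ρ) := by
    refine h2.continuousOn.congr fun s hs => ?_
    rw [uIcc_of_le hρ.le] at hs
    simp only [min_eq_left hs.2, max_eq_right hs.1]
  have h4 : ∫ s in (0 : ℝ)..ρ, m * s = m * ρ ^ 2 / 2 := by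
    rw [intervalIntegral.integral_const_mul, integral_id]
    ring
  rw [← h4]
  refine intervalIntegral.integral_mono_on hρ.le
    ((continuous_const.mul continuous_id).intervalIntegrable _ _) h3.intervalIntegrable
    fun s hs => ?_
  rw [intervalIntegral.integral_const_mul, mul_comm]
  rcases hs.1.eq_or_lt with h0 | h0
  · rw [← h0, zero_mul, zero_mul]
  · exact mul_le_mul_of_nonneg_left (h s h0 hs.2) hs.1

/-- the planar form of the upper Schwarz lemma -/
theorem plane_bound (K C : ℝ) : ∃ CA : ℝ, ∀ (w : ℂ → ℝ) (β : ℂ → ℂ →L[ℝ] ℝ),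
    ContDiffOn ℝ 2 w (ball 0 1) → ContDiffOn ℝ 1 β (ball 0 1) →
    (∀ y ∈ ball (0 : ℂ) 1, 0 ≤ w y ∧ -(K * w y ^ 2) ≤ lap w y ∧
      (∀ v, |β y v| ≤ C * √(w y) * ‖v‖) ∧ fderiv ℝ β y 1 I - fderiv ℝ β y I 1 = w y) →
    w 0 ≤ CA := by
  obtain ⟨k, hk, hK⟩ : ∃ k : ℝ, 0 < k ∧ K ≤ k := ⟨|K| + 1, by positivity, by
    linarith [le_abs_self K]⟩
  obtain ⟨L, hL0, hL⟩ : ∃ L : ℝ, 0 < L ∧ 32 * k * C ^ 2 < L := ⟨32 * k * C ^ 2 + 1, by positivity,
    by linarith⟩
  obtain ⟨r, hr, hr1, hrL⟩ : ∃ r : ℝ, 0 < r ∧ r < 1 / 2 ∧ L = Real.log (1 / 2 / r) := by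
    refine ⟨Real.exp (-L) / 2, by positivity, ?_, ?_⟩
    · have := Real.exp_lt_one_iff.2 (neg_lt_zero.2 hL0)
      linarith
    · rw [show 1 / 2 / (Real.exp (-L) / 2) = Real.exp L by rw [Real.exp_neg]; field_simp,
        Real.log_exp]
  refine ⟨1 / (2 * k * r ^ 2), fun w β hw hβ h => ?_⟩
  have hs : closedBall (0 : ℂ) r ⊆ ball 0 1 := closedBall_subset_ball (by linarith)
  obtain ⟨z, hz, hm⟩ := (isCompact_closedBall (0 : ℂ) r).exists_isMaxOn
    (f := fun y => (r - ‖y‖) ^ 2 * w y) ⟨0, mem_closedBall_self hr.le⟩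
    (ContinuousOn.mul (by fun_prop) (hw.continuousOn.mono hs))
  have hz' : ‖z‖ ≤ r := mem_closedBall_zero_iff.1 hz
  obtain ⟨d, hd⟩ : ∃ d : ℝ, r - ‖z‖ = 2 * d := ⟨(r - ‖z‖) / 2, by ring⟩
  have hd0 : 0 ≤ d := by linarith
  have hm' : ∀ y ∈ closedBall (0 : ℂ) r, (r - ‖y‖) ^ 2 * w y ≤ 4 * (d ^ 2 * w z) := fun y hy => by
    have h1 : (r - ‖y‖) ^ 2 * w y ≤ (r - ‖z‖) ^ 2 * w z := hm hy
    rw [hd] at h1
    linarith
  by_cases hc : d ^ 2 * w z < 1 / (8 * k)
  · have h1 := hm' 0 (mem_closedBall_self hr.le)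
    rw [norm_zero, sub_zero] at h1
    rw [le_div_iff₀ (by positivity)]
    rw [lt_div_iff₀ (by positivity)] at hc
    nlinarith
  exfalso
  push Not at hc
  have hp : 0 < d ^ 2 * w z := lt_of_lt_of_le (by positivity) hc
  have hw0 : 0 < w z := pos_of_mul_pos_left (by rwa [mul_comm] at hp) (sq_nonneg d)
  have hd1 : 0 < d := hd0.lt_of_ne fun h0 => by
    rw [← h0] at hp
    simp at hp
  obtain ⟨ρ, hρ, hρ2⟩ : ∃ ρ : ℝ, 0 < ρ ∧ ρ ^ 2 = 1 / (8 * k * w z) :=
    ⟨√(1 / (8 * k * w z)), by positivity, Real.sq_sqrt (by positivity)⟩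
  have hρd : ρ ≤ d := by
    refine (pow_le_pow_iff_left₀ hρ.le hd0 two_ne_zero).1 ?_
    rw [hρ2, div_le_iff₀ (by positivity)]
    rw [div_le_iff₀ (by positivity)] at hc
    linarith
  have hn := norm_nonneg z
  have hB : ball z (1 / 2) ⊆ ball 0 1 := ball_subset_ball' (by rw [dist_zero_right]; linarith)
  have hρ1 : ρ < 1 / 2 := by linarith
  have h4 : ∀ y ∈ closedBall z ρ, w y ≤ 4 * w z := fun y hy => by
    have h1 : ‖y‖ ≤ ‖z‖ + d := by
      have h2 := norm_sub_norm_le y z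
      rw [mem_closedBall, dist_eq_norm] at hy
      linarith
    have hy' : y ∈ closedBall (0 : ℂ) r := mem_closedBall_zero_iff.2 (by linarith)
    have h2 := hm' y hy'
    have h3 : d ^ 2 * w y ≤ (r - ‖y‖) ^ 2 * w y :=
      mul_le_mul_of_nonneg_right (pow_le_pow_left₀ hd0 (by linarith) 2) (h y (hs hy')).1
    refine le_of_mul_le_mul_left ?_ (pow_pos hd1 2)
    linarith
  have h5 := A2b_area (w := w) (z := z) (m := Real.pi * w z) hρ
    (hw.continuousOn.mono ((closedBall_subset_ball hρ1).trans hB)) fun s h0 hs' => by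
      have h6 := sub_mean (c := 16 * k * w z ^ 2) (hw.mono hB) h0 (hs'.trans_lt hρ1)
        fun y hy => by
          have hy1 := closedBall_subset_closedBall hs' hy
          have hy2 := h y (hB (closedBall_subset_ball hρ1 hy1))
          have h7 : w y ^ 2 ≤ (4 * w z) ^ 2 := pow_le_pow_left₀ hy2.1 (h4 y hy1) 2
          have h8 := mul_le_mul_of_nonneg_right hK (sq_nonneg (w y))
          have h9 := mul_le_mul_of_nonneg_left h7 hk.le
          linarith [hy2.2.1]
      have h7 : 16 * k * w z ^ 2 * s ^ 2 ≤ 2 * w z := by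
        calc _ ≤ 16 * k * w z ^ 2 * ρ ^ 2 := by gcongr
          _ = _ := by rw [hρ2]; field_simp; ring
      have h8 := mul_le_mul_of_nonneg_left h7 Real.pi_pos.le
      linarith
  have h6 := area_le (hw.continuousOn.mono hB) (hβ.mono hB) (fun y hy => (h y (hB hy)).1)
    (fun y hy => (h y (hB hy)).2.2.1) (fun y hy => (h y (hB hy)).2.2.2) hρ hρ1
  have h7 : L ≤ Real.log (1 / 2 / ρ) := by
    rw [hrL]
    exact Real.log_le_log (by positivity) (by gcongr; linarith)
  have h8 : 2 * Real.pi * C ^ 2 / Real.log (1 / 2 / ρ) ≤ 2 * Real.pi * C ^ 2 / L := by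
    have := Real.pi_pos
    gcongr
  have h9 : Real.pi * w z * ρ ^ 2 / 2 = Real.pi / (16 * k) := by
    rw [hρ2]; field_simp; ring
  have h10 : Real.pi / (16 * k) ≤ 2 * Real.pi * C ^ 2 / L := by linarith
  rw [div_le_div_iff₀ (by positivity) hL0] at h10
  nlinarith [Real.pi_pos]

end Pool.Agent.MP_e62289_ag

end

section



end

section

open Set Filter Topology Complex MeasureTheory Metric
open scoped Manifold ContDiff ComplexConjugate NNReal ENNReal

namespace Pool.Agent.MP_e62289_ag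

section Aux

variable {X : Type} [NormedAddCommGroup X] [NormedSpace ℝ X]

theorem A3a_fd_apply {F : X → ℝ} {p : X} (hF : ContDiffAt ℝ 2 F p) (U V : X) :
    fderiv ℝ (fun z => fderiv ℝ F z V) p U = fderiv ℝ (fderiv ℝ F) p U V := by
  have h1 : DifferentiableAt ℝ (fderiv ℝ F) p :=
    (hF.fderiv_right (m := 1) (by norm_num)).differentiableAt (by norm_num)
  have h2 := (h1.hasFDerivAt.clm_apply (hasFDerivAt_const V p)).fderiv
  rw [h2]
  simp

theorem A3a_line1 {F : X → ℝ} {p U : X} {t : ℝ} (hF : DifferentiableAt ℝ F (p + t • U)) :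
    HasDerivAt (fun t : ℝ => F (p + t • U)) (fderiv ℝ F (p + t • U) U) t := by
  have h1 : HasDerivAt (fun t : ℝ => p + t • U) U t := by
    simpa using ((hasDerivAt_id t).smul_const U).const_add p
  exact hF.hasFDerivAt.comp_hasDerivAt t h1

theorem A3a_line_cd {F : X → ℝ} {p : X} (hF : ContDiffAt ℝ 2 F p) (U : X) :
    ContDiffAt ℝ 2 (fun t : ℝ => F (p + t • U)) 0 := by
  have h1 : ContDiffAt ℝ 2 (fun t : ℝ => p + t • U) 0 := by fun_prop
  have h2 : ContDiffAt ℝ 2 F ((fun t : ℝ => p + t • U) 0) := by simpa using hF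
  exact h2.comp 0 h1

theorem A3a_line2 {F : X → ℝ} {p : X} (hF : ContDiffAt ℝ 2 F p) (U : X) :
    deriv (deriv (fun t : ℝ => F (p + t • U))) 0 = fderiv ℝ (fderiv ℝ F) p U U := by
  have h0 : Tendsto (fun t : ℝ => p + t • U) (𝓝 0) (𝓝 p) := by
    have : Continuous (fun t : ℝ => p + t • U) := by fun_prop
    simpa using this.tendsto 0
  have h1 : ∀ᶠ z in 𝓝 p, DifferentiableAt ℝ F z :=
    (hF.eventually (by simp)).mono fun z hz => hz.differentiableAt (by norm_num)
  have h2 : deriv (fun t : ℝ => F (p + t • U)) =ᶠ[𝓝 0] fun t => fderiv ℝ F (p + t • U) U :=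
    (h0.eventually h1).mono fun t ht => (A3a_line1 ht).deriv
  rw [h2.deriv_eq]
  have h3 : DifferentiableAt ℝ (fun z => fderiv ℝ F z U) (p + (0 : ℝ) • U) := by
    have : DifferentiableAt ℝ (fderiv ℝ F) p :=
      (hF.fderiv_right (m := 1) (by norm_num)).differentiableAt (by norm_num)
    simpa using this.clm_apply (differentiableAt_const U)
  have h4 := (A3a_line1 h3).deriv
  rw [h4]
  simpa using A3a_fd_apply hF U U

theorem A3a_poly {A B C : ℝ → ℝ} (hA : ContDiffAt ℝ 2 A 0) (hB : ContDiffAt ℝ 2 B 0)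
    (hC : ContDiffAt ℝ 2 C 0) :
    deriv (deriv (fun t => A t + t * B t + t ^ 2 * C t)) 0 =
      deriv (deriv A) 0 + 2 * deriv B 0 + 2 * C 0 := by
  have ev : ∀ {A : ℝ → ℝ}, ContDiffAt ℝ 2 A 0 → ∀ᶠ t in 𝓝 (0 : ℝ), HasDerivAt A (deriv A t) t :=
    fun h => (h.eventually (by simp)).mono fun z hz =>
      (hz.differentiableAt (by norm_num)).hasDerivAt
  have d2 : ∀ {A : ℝ → ℝ}, ContDiffAt ℝ 2 A 0 → HasDerivAt (deriv A) (deriv (deriv A) 0) 0 := by
    intro A h
    have h1 : DifferentiableAt ℝ (fderiv ℝ A) 0 :=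
      (h.fderiv_right (m := 1) (by norm_num)).differentiableAt (by norm_num)
    have h2 : DifferentiableAt ℝ (fun t => fderiv ℝ A t 1) 0 :=
      h1.clm_apply (differentiableAt_const _)
    exact h2.hasDerivAt
  have h1 : deriv (fun t => A t + t * B t + t ^ 2 * C t) =ᶠ[𝓝 0]
      fun t => deriv A t + (B t + t * deriv B t) + (2 * t * C t + t ^ 2 * deriv C t) := by
    filter_upwards [ev hA, ev hB, ev hC] with t ha hb hc
    have := (ha.add ((hasDerivAt_id t).mul hb)).add ((hasDerivAt_pow 2 t).mul hc)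
    refine (HasDerivAt.deriv this).trans ?_
    simp
  rw [h1.deriv_eq]
  have hb := (ev hB).self_of_nhds
  have hc := (ev hC).self_of_nhds
  have := ((d2 hA).add (hb.add ((hasDerivAt_id (0 : ℝ)).mul (d2 hB)))).add
    ((((hasDerivAt_id (0 : ℝ)).const_mul 2).mul hc).add ((hasDerivAt_pow 2 (0 : ℝ)).mul (d2 hC)))
  refine (HasDerivAt.deriv this).trans ?_
  simp
  ring

theorem A3a_lap_comp [NormedSpace ℂ X] [IsScalarTower ℝ ℂ X] {F : X → ℝ} {Φ P : ℂ → X} {ζ : ℂ}
    {P' : X} (hF : ContDiffAt ℝ 2 F (Φ ζ)) (h1 : ∀ᶠ y in 𝓝 ζ, HasDerivAt Φ (P y) y)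
    (h2 : HasDerivAt P P' ζ) :
    lap (fun y => F (Φ y)) ζ = fderiv ℝ (fderiv ℝ F) (Φ ζ) (P ζ) (P ζ) +
      fderiv ℝ (fderiv ℝ F) (Φ ζ) (I • P ζ) (I • P ζ) := by
  have hΦ := h1.self_of_nhds
  have hd : ∀ᶠ z in 𝓝 (Φ ζ), DifferentiableAt ℝ F z :=
    (hF.eventually (by simp)).mono fun z hz => hz.differentiableAt (by norm_num)
  have hDF : DifferentiableAt ℝ (fderiv ℝ F) (Φ ζ) :=
    (hF.fderiv_right (m := 1) (by norm_num)).differentiableAt (by norm_num)
  have key : ∀ e : ℂ, fderiv ℝ (fun z => fderiv ℝ (fun y => F (Φ y)) z e) ζ e =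
      fderiv ℝ (fderiv ℝ F) (Φ ζ) (e • P ζ) (e • P ζ) + fderiv ℝ F (Φ ζ) (e • e • P') := by
    intro e
    have e1 : (fun z => fderiv ℝ (fun y => F (Φ y)) z e) =ᶠ[𝓝 ζ]
        fun z => fderiv ℝ F (Φ z) (e • P z) := by
      filter_upwards [h1, hΦ.continuousAt.tendsto.eventually hd] with z hz hz'
      have := (hz'.hasFDerivAt.comp z (hz.hasFDerivAt.restrictScalars ℝ)).fderiv
      change fderiv ℝ (F ∘ Φ) z e = _
      rw [this]
      simp
    rw [e1.fderiv_eq]
    have a1 := hDF.hasFDerivAt.comp ζ (hΦ.hasFDerivAt.restrictScalars ℝ)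
    have a2 := (h2.const_smul e).hasFDerivAt.restrictScalars ℝ
    have a3 := (a1.clm_apply a2).fderiv
    change fderiv ℝ (fun z => (fderiv ℝ F ∘ Φ) z ((e • P) z)) ζ e = _
    rw [a3]
    simp [add_comm]
  rw [lap, key, key]
  have : (I : ℂ) • (I : ℂ) • P' = -P' := by rw [smul_smul, I_mul_I, neg_one_smul]
  rw [this, map_neg]
  simp only [one_smul]
  ring

theorem A3a_quad {G : X → X →L[ℝ] X →L[ℝ] ℝ} {z : X} (hG : ContDiffAt ℝ 2 G z) (T u a : X) :
    fderiv ℝ (fderiv ℝ (fun p : X × X => G p.1 p.2 p.2)) (z, T) (u, a) (u, a) =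
      fderiv ℝ (fun w => fderiv ℝ (fun w => G w T T) w u) z u +
        2 * (fderiv ℝ (fun w => G w a T) z u + fderiv ℝ (fun w => G w T a) z u) +
        2 * G z a a := by
  have hs : ∀ v w, ContDiffAt ℝ 2 (fun y => G y v w) z := fun v w =>
    (hG.clm_apply contDiffAt_const).clm_apply contDiffAt_const
  have hF : ContDiffAt ℝ 2 (fun p : X × X => G p.1 p.2 p.2) (z, T) := by
    have h1 : ContDiffAt ℝ 2 (fun p : X × X => G p.1) (z, T) :=
      ContDiffAt.comp (g := G) (z, T) hG contDiffAt_fst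
    exact (h1.clm_apply contDiffAt_snd).clm_apply contDiffAt_snd
  rw [← A3a_line2 hF (u, a)]
  have e : (fun t : ℝ => (fun p : X × X => G p.1 p.2 p.2) ((z, T) + t • (u, a))) =
      fun t : ℝ => G (z + t • u) T T + t * (G (z + t • u) a T + G (z + t • u) T a) +
        t ^ 2 * G (z + t • u) a a := by
    funext t
    simp
    ring
  rw [e, A3a_poly (A3a_line_cd (hs T T) u) ((A3a_line_cd (hs a T) u).add (A3a_line_cd (hs T a) u))
    (A3a_line_cd (hs a a) u), A3a_line2 (hs T T) u, A3a_fd_apply (hs T T)]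
  have d : ∀ v w, HasDerivAt (fun t : ℝ => G (z + t • u) v w) (fderiv ℝ (fun y => G y v w) z u) 0 := by
    intro v w
    have h3 : DifferentiableAt ℝ (fun y => G y v w) (z + (0 : ℝ) • u) := by
      simpa using (hs v w).differentiableAt (by norm_num)
    simpa using A3a_line1 h3
  have := ((d a T).add (d T a)).deriv
  change deriv (fun t : ℝ => G (z + t • u) a T + G (z + t • u) T a) 0 = _ at this
  rw [this]
  simp

end Aux

variable {E : Type} [NormedAddCommGroup E] [NormedSpace ℂ E] [FiniteDimensional ℂ E]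
  {B : Type} [EMetricSpace B] [ChartedSpace E B] [IsManifold 𝓘(ℂ, E) ω B]

omit [IsManifold 𝓘(ℂ, E) ω B] in
/-- the Laplacian of the pulled back metric along a holomorphic curve in one chart -/
theorem lap_pull (k : KData E B) (x : B) {φ : ℂ → E} {ζ : ℂ} (hφ : AnalyticAt ℂ φ ζ)
    (hx : φ ζ ∈ (chartAt E x).target) :
    -(2 * k.K * (k.G x (φ ζ) (deriv φ ζ) (deriv φ ζ)) ^ 2) ≤
      lap (fun y => k.G x (φ y) (deriv φ y) (deriv φ y)) ζ := by
  have : CompleteSpace E := FiniteDimensional.complete ℂ E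
  have hG : ContDiffAt ℝ 2 (k.G x) (φ ζ) :=
    ((k.smooth x).contDiffAt ((chartAt E x).open_target.mem_nhds hx)).of_le (by
      exact WithTop.coe_le_coe.2 (le_top : (2 : ℕ∞) ≤ ⊤))
  have hF : ContDiffAt ℝ 2 (fun p : E × E => k.G x p.1 p.2 p.2) (φ ζ, deriv φ ζ) := by
    have h1 : ContDiffAt ℝ 2 (fun p : E × E => k.G x p.1) (φ ζ, deriv φ ζ) :=
      ContDiffAt.comp (g := k.G x) (φ ζ, deriv φ ζ) hG contDiffAt_fst
    exact (h1.clm_apply contDiffAt_snd).clm_apply contDiffAt_snd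
  have h1 : ∀ᶠ y in 𝓝 ζ, HasDerivAt (fun y => (φ y, deriv φ y)) (deriv φ y, deriv (deriv φ) y) y := by
    filter_upwards [hφ.eventually_analyticAt] with y hy
    exact hy.differentiableAt.hasDerivAt.prodMk hy.deriv.differentiableAt.hasDerivAt
  have h2 : HasDerivAt (fun y => (deriv φ y, deriv (deriv φ) y))
      (deriv (deriv φ) ζ, deriv (deriv (deriv φ)) ζ) ζ :=
    hφ.deriv.differentiableAt.hasDerivAt.prodMk hφ.deriv.deriv.differentiableAt.hasDerivAt
  have h3 := A3a_lap_comp (F := fun p : E × E => k.G x p.1 p.2 p.2)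
    (Φ := fun y => (φ y, deriv φ y)) hF h1 h2
  simp only [Prod.smul_mk] at h3
  rw [h3, A3a_quad hG, A3a_quad hG]
  set z := φ ζ
  set T := deriv φ ζ
  set a := deriv (deriv φ) ζ
  have hb := (abs_le.1 (k.bisec x z hx T T)).2
  simp only [k.metric x z hx]
  have g1 : ∀ u v, k.Γ x z (I • u) v = I • k.Γ x z u v := fun u v => by
    rw [k.Γ_symm x z hx, k.Γ_I x z hx, k.Γ_symm x z hx]
  have g2 : k.Γ x z (I • T) (I • a) = -k.Γ x z T a := by
    rw [g1, k.Γ_I x z hx, smul_smul, I_mul_I, neg_one_smul]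
  rw [g2, g1 T T, k.herm x z hx, k.herm x z hx, k.herm x z hx]
  have hp : 0 ≤ k.G x z (a + k.Γ x z T T) (a + k.Γ x z T T) := by
    by_cases h : a + k.Γ x z T T = 0
    · simp [h]
    · exact (k.pos x z hx _ h).le
  simp only [map_add, map_neg, add_apply, neg_apply] at hp ⊢
  nlinarith [hp, hb]

end Pool.Agent.MP_e62289_ag

end

section

open Set Filter Topology Complex MeasureTheory Metric
open scoped Manifold ContDiff ComplexConjugate NNReal ENNReal

namespace Pool.Agent.MP_e62289_ag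

variable {E : Type} [NormedAddCommGroup E] [NormedSpace ℂ E] [FiniteDimensional ℂ E]
  {B : Type} [EMetricSpace B] [ChartedSpace E B] [IsManifold 𝓘(ℂ, E) ω B]

theorem A3b_lap_congr {w w' : ℂ → ℝ} {z : ℂ} (h : w =ᶠ[𝓝 z] w') : lap w z = lap w' z := by
  have h1 : ∀ e : ℂ, (fun z => fderiv ℝ w z e) =ᶠ[𝓝 z] fun z => fderiv ℝ w' z e := fun e =>
    (h.fderiv (𝕜 := ℝ)).mono fun y hy => by simp only [hy]
  rw [lap, lap, (h1 1).fderiv_eq, (h1 I).fderiv_eq]

omit [FiniteDimensional ℂ E] [IsManifold 𝓘(ℂ, E) ω B] in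
theorem A3b_nhds {f : ℂ → B} (hf : MDifferentiableOn 𝓘(ℂ, ℂ) 𝓘(ℂ, E) f (ball 0 1)) {x : B}
    {y : ℂ} (hy : y ∈ ball (0 : ℂ) 1) (hx : f y ∈ (chartAt E x).source) :
    ∀ᶠ z in 𝓝 y, z ∈ ball (0 : ℂ) 1 ∧ f z ∈ (chartAt E x).source :=
  (show ∀ᶠ z in 𝓝 y, z ∈ ball (0 : ℂ) 1 from isOpen_ball.mem_nhds hy).and
    ((hf.continuousOn.continuousAt (isOpen_ball.mem_nhds hy)).eventually
      ((chartAt E x).open_source.mem_nhds hx))

theorem A3b_analytic {f : ℂ → B} (hf : MDifferentiableOn 𝓘(ℂ, ℂ) 𝓘(ℂ, E) f (ball 0 1)) {x : B}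
    {y : ℂ} (hy : y ∈ ball (0 : ℂ) 1) (hx : f y ∈ (chartAt E x).source) :
    AnalyticAt ℂ (chartAt E x ∘ f) y := by
  have := FiniteDimensional.complete ℂ E
  rw [analyticAt_iff_eventually_differentiableAt]
  filter_upwards [A3b_nhds hf hy hx] with z hz
  exact mdifferentiableAt_iff_differentiableAt.1
    ((mdifferentiableAt_atlas (I := 𝓘(ℂ, E)) (chart_mem_atlas E x) hz.2).comp z
      (hf.mdifferentiableAt (isOpen_ball.mem_nhds hz.1)))

theorem A3b_chain {f : ℂ → B} (hf : MDifferentiableOn 𝓘(ℂ, ℂ) 𝓘(ℂ, E) f (ball 0 1)) {x x' : B}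
    {y : ℂ} (hy : y ∈ ball (0 : ℂ) 1) (hx : f y ∈ (chartAt E x).source)
    (hx' : f y ∈ (chartAt E x').source) (v : ℂ) :
    fderiv ℝ (chartAt E x' ∘ (chartAt E x).symm) (chartAt E x (f y))
      (v • deriv (chartAt E x ∘ f) y) = v • deriv (chartAt E x' ∘ f) y := by
  have h1 : DifferentiableAt ℂ (chartAt E x' ∘ (chartAt E x).symm) (chartAt E x (f y)) := by
    refine mdifferentiableAt_iff_differentiableAt.1
      (MDifferentiableAt.comp (I' := 𝓘(ℂ, E)) _ ?_ (mdifferentiableAt_atlas_symm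
        (I := 𝓘(ℂ, E)) (chart_mem_atlas E x) ((chartAt E x).map_source hx)))
    rw [(chartAt E x).left_inv hx]
    exact mdifferentiableAt_atlas (I := 𝓘(ℂ, E)) (chart_mem_atlas E x') hx'
  have h2 := h1.hasFDerivAt.comp_hasDerivAt y (A3b_analytic hf hy hx).differentiableAt.hasDerivAt
  have h3 : (chartAt E x' ∘ f) =ᶠ[𝓝 y]
      (chartAt E x' ∘ (chartAt E x).symm) ∘ (chartAt E x ∘ f) := by
    filter_upwards [A3b_nhds hf hy hx] with z hz
    simp only [Function.comp_apply, (chartAt E x).left_inv hz.2]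
  rw [h3.deriv_eq, h2.deriv, (h1.hasFDerivAt.restrictScalars ℝ).fderiv]
  simp

/-- multiples of a vector -/
noncomputable def A3b_sm : E →L[ℝ] ℂ →L[ℝ] E := (ContinuousLinearMap.lsmul ℝ ℂ).flip

omit [FiniteDimensional ℂ E] in
theorem A3b_sm_apply (T : E) (v : ℂ) : A3b_sm T v = v • T := rfl

omit [FiniteDimensional ℂ E] [IsManifold 𝓘(ℂ, E) ω B] in
theorem A3b_smul (k : KData E B) {x : B} {z : E} (hz : z ∈ (chartAt E x).target) (v : ℂ) (T : E) :
    k.G x z (v • T) (v • T) = ‖v‖ ^ 2 * k.G x z T T := by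
  have e : v • T = v.re • T + v.im • (I • T) := by
    conv_lhs => rw [← re_add_im v]
    rw [add_smul, mul_smul]
    rfl
  have h1 := k.herm x z hz T T
  have h2 := k.herm x z hz (I • T) T
  have h3 := k.symm x z hz (I • T) T
  rw [smul_smul, I_mul_I, neg_smul, one_smul, map_neg, neg_apply] at h2
  rw [e, Complex.sq_norm, normSq_apply]
  simp only [map_add, map_smul, add_apply, smul_apply,
    smul_eq_mul]
  rw [h1]
  linear_combination (-(v.re * v.im)) * h2

omit [IsManifold 𝓘(ℂ, E) ω B] in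
theorem A3b_local (k : KData E B) (d : DData k) (x : B) {φ : ℂ → E} {y : ℂ}
    (hφ : AnalyticAt ℂ φ y) (hx : φ y ∈ (chartAt E x).target) :
    ContDiffAt ℝ 2 (fun y => k.G x (φ y) (deriv φ y) (deriv φ y)) y ∧
    ContDiffAt ℝ 1 (fun y => (d.α x (φ y)).comp (A3b_sm (deriv φ y))) y ∧
    fderiv ℝ (fun y => (d.α x (φ y)).comp (A3b_sm (deriv φ y))) y 1 I -
      fderiv ℝ (fun y => (d.α x (φ y)).comp (A3b_sm (deriv φ y))) y I 1 =
      k.G x (φ y) (deriv φ y) (deriv φ y) := by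
  have := FiniteDimensional.complete ℂ E
  have hn := (chartAt E x).open_target.mem_nhds hx
  have c0 : ∀ n : WithTop ℕ∞, ContDiffAt ℝ n φ y := fun n => hφ.contDiffAt.restrict_scalars ℝ
  have c1 : ∀ n : WithTop ℕ∞, ContDiffAt ℝ n (deriv φ) y := fun n =>
    hφ.deriv.contDiffAt.restrict_scalars ℝ
  have cG : ContDiffAt ℝ 2 (k.G x) (φ y) :=
    ((k.smooth x).contDiffAt hn).of_le (ENat.LEInfty.out)
  have cα : ContDiffAt ℝ 1 (d.α x) (φ y) := (d.smooth x).contDiffAt hn
  have cβ : ContDiffAt ℝ 1 (fun y => (d.α x (φ y)).comp (A3b_sm (deriv φ y))) y :=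
    (cα.comp y (c0 1)).clm_comp ((A3b_sm (E := E)).contDiff.contDiffAt.comp y (c1 1))
  refine ⟨((cG.comp y (c0 2)).clm_apply (c1 2)).clm_apply (c1 2), cβ, ?_⟩
  have key : ∀ e e' : ℂ, fderiv ℝ (fun y => (d.α x (φ y)).comp (A3b_sm (deriv φ y))) y e e' =
      fderiv ℝ (d.α x) (φ y) (e • deriv φ y) (e' • deriv φ y) +
        d.α x (φ y) (e' • e • deriv (deriv φ) y) := fun e e' => by
    have d0 := hφ.differentiableAt.hasDerivAt.hasFDerivAt.restrictScalars ℝ
    have d1 := hφ.deriv.differentiableAt.hasDerivAt.hasFDerivAt.restrictScalars ℝ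
    have d2 := ((cα.differentiableAt one_ne_zero).hasFDerivAt.comp y d0).clm_comp
      (A3b_sm.hasFDerivAt.comp y d1)
    have d3 : HasFDerivAt (fun y => (d.α x (φ y)).comp (A3b_sm (deriv φ y))) _ y := d2
    rw [d3.fderiv]
    simp [A3b_sm_apply, add_comm]
  rw [key, key, one_smul, one_smul, one_smul, ← k.herm x _ hx, ← d.d x _ hx]
  ring

/-- pull back of metric and primitive along a holomorphic disc -/
theorem disc_pull (k : KData E B) (d : DData k) {f : ℂ → B}
    (hf : MDifferentiableOn 𝓘(ℂ, ℂ) 𝓘(ℂ, E) f (ball 0 1)) :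
    ∃ (w : ℂ → ℝ) (β : ℂ → ℂ →L[ℝ] ℝ),
      ContDiffOn ℝ 2 w (ball 0 1) ∧ ContDiffOn ℝ 1 β (ball 0 1) ∧
      (∀ y ∈ ball (0 : ℂ) 1, 0 ≤ w y ∧ -(2 * k.K * w y ^ 2) ≤ lap w y ∧
        (∀ v, |β y v| ≤ d.C * √(w y) * ‖v‖) ∧ fderiv ℝ β y 1 I - fderiv ℝ β y I 1 = w y) ∧
      w 0 = k.G (f 0) (chartAt E (f 0) (f 0)) (deriv (chartAt E (f 0) ∘ f) 0)
        (deriv (chartAt E (f 0) ∘ f) 0) := by
  set W : B → ℂ → ℝ := fun x y => k.G x ((chartAt E x ∘ f) y) (deriv (chartAt E x ∘ f) y)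
    (deriv (chartAt E x ∘ f) y) with hW
  set A : B → ℂ → ℂ →L[ℝ] ℝ := fun x y =>
    (d.α x ((chartAt E x ∘ f) y)).comp (A3b_sm (deriv (chartAt E x ∘ f) y)) with hA
  have eW : ∀ y ∈ ball (0 : ℂ) 1, (fun z => W (f z) z) =ᶠ[𝓝 y] W (f y) := fun y hy => by
    filter_upwards [A3b_nhds hf hy (mem_chart_source E (f y))] with z hz
    have h1 := A3b_chain hf hz.1 hz.2 (mem_chart_source E (f z)) 1
    rw [one_smul, one_smul] at h1
    simp only [hW, Function.comp_apply]
    rw [← h1]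
    exact k.compat _ _ _ ⟨hz.2, mem_chart_source E (f z)⟩ _ _
  have eA : ∀ y ∈ ball (0 : ℂ) 1, (fun z => A (f z) z) =ᶠ[𝓝 y] A (f y) := fun y hy => by
    filter_upwards [A3b_nhds hf hy (mem_chart_source E (f y))] with z hz
    ext1 v
    simp only [hA, Function.comp_apply, ContinuousLinearMap.comp_apply, A3b_sm_apply]
    rw [← A3b_chain hf hz.1 hz.2 (mem_chart_source E (f z)) v]
    exact d.compat _ _ _ ⟨hz.2, mem_chart_source E (f z)⟩ _
  have an : ∀ y ∈ ball (0 : ℂ) 1, AnalyticAt ℂ (chartAt E (f y) ∘ f) y := fun y hy =>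
    A3b_analytic hf hy (mem_chart_source E (f y))
  have tg : ∀ y, (chartAt E (f y) ∘ f) y ∈ (chartAt E (f y)).target := fun y =>
    mem_chart_target E (f y)
  refine ⟨fun z => W (f z) z, fun z => A (f z) z, fun y hy => ?_, fun y hy => ?_,
    fun y hy => ⟨?_, ?_, fun v => ?_, ?_⟩, rfl⟩
  · exact ((A3b_local k d _ (an y hy) (tg y)).1.congr_of_eventuallyEq (eW y hy)).contDiffWithinAt
  · exact ((A3b_local k d _ (an y hy) (tg y)).2.1.congr_of_eventuallyEq (eA y hy)).contDiffWithinAt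
  · by_cases h0 : deriv (chartAt E (f y) ∘ f) y = 0
    · simp only [hW, h0, map_zero, le_refl]
    · exact (k.pos _ _ (tg y) _ h0).le
  · rw [A3b_lap_congr (eW y hy)]
    exact lap_pull k _ (an y hy) (tg y)
  · have h1 := d.bound _ _ (tg y) (v • deriv (chartAt E (f y) ∘ f) y)
    rw [A3b_smul k (tg y), Real.sqrt_mul (sq_nonneg _), Real.sqrt_sq (norm_nonneg _)] at h1
    refine h1.trans (le_of_eq ?_)
    simp only [hW]
    ring
  · rw [(eA y hy).fderiv_eq]
    exact (A3b_local k d _ (an y hy) (tg y)).2.2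

end Pool.Agent.MP_e62289_ag

end
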